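import Pool.Agent.Lib.MP_a627f3_an.Poly

open MeasureTheory Set Filter Topology Metric
open scoped RealInnerProductSpace ENNReal NNReal

namespace PLap

variable {E : Type*} [NormedAddCommGroup E] [InnerProductSpace ℝ E] [FiniteDimensional ℝ E]
  [CompleteSpace E] [MeasurableSpace E] [BorelSpace E]

theorem exists_pol {Ω : Set E} (hΩ : IsOpen Ω) (hcv : Convex ℝ Ω) (hb : Bornology.IsBounded Ω)
    {K : Set E} (hK : IsCompact K) (hKΩ : K ⊆ Ω) (hKne : K.Nonempty) :
    ∃ (m : ℕ) (n : Fin m → E) (c : Fin m → ℝ), (∀ i, ‖n i‖ = 1) ∧ K ⊆ Pol n c ∧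
      Pol n c ⊆ Ω := by
  -- separating half spaces
  have key : ∀ y ∈ frontier Ω, ∃ (n : E) (c : ℝ), ‖n‖ = 1 ∧ (∀ x ∈ K, 0 < ⟪n, x⟫ + c) ∧
      ⟪n, y⟫ + c < 0 := by
    intro y hy
    have hyΩ : y ∉ Ω := by
      intro h
      rw [hΩ.frontier_eq] at hy
      exact hy.2 h
    obtain ⟨f, hf⟩ := geometric_hahn_banach_open_point hcv hΩ hyΩ
    obtain ⟨x₀, hx₀, hmax⟩ := hK.exists_isMaxOn hKne f.continuous.continuousOn
    have hlt : f x₀ < f y := hf x₀ (hKΩ hx₀)
    have hf0 : f ≠ 0 := by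
      rintro rfl
      simp at hlt
    have hfn : 0 < ‖f‖ := norm_pos_iff.2 hf0
    set v : E := (InnerProductSpace.toDual ℝ E).symm f with hv
    have hvf : ∀ x, ⟪v, x⟫ = f x := fun x => by
      rw [hv, InnerProductSpace.toDual_symm_apply]
    have hvn : ‖v‖ = ‖f‖ := by rw [hv]; simp
    refine ⟨-(‖f‖⁻¹ • v), ((f x₀ + f y) / 2) * ‖f‖⁻¹, ?_, ?_, ?_⟩
    · rw [norm_neg, norm_smul, norm_inv, norm_norm, hvn]
      exact inv_mul_cancel₀ hfn.ne'
    · intro x hx
      have h1 : f x ≤ f x₀ := hmax hx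
      rw [inner_neg_left, real_inner_smul_left, hvf]
      have : 0 < ‖f‖⁻¹ * ((f x₀ + f y) / 2 - f x) := by
        apply mul_pos (inv_pos.2 hfn); linarith
      nlinarith
    · rw [inner_neg_left, real_inner_smul_left, hvf]
      have : 0 < ‖f‖⁻¹ * (f y - (f x₀ + f y) / 2) := by
        apply mul_pos (inv_pos.2 hfn); linarith
      nlinarith
  choose! n c hn hKn hyn using key
  have hcomp : IsCompact (frontier Ω) :=
    Metric.isCompact_of_isClosed_isBounded isClosed_frontier
      (hb.closure.subset frontier_subset_closure)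
  obtain ⟨t, htsub, htf, hcov⟩ := hcomp.elim_finite_subcover_image (b := frontier Ω)
    (c := fun y => {x : E | ⟪n y, x⟫ + c y < 0})
    (fun y _ => isOpen_lt (by fun_prop) continuous_const)
    (fun y hy => by
      simp only [mem_iUnion]
      exact ⟨y, hy, hyn y hy⟩)
  haveI : Fintype t := htf.fintype
  obtain ⟨m, ⟨e⟩⟩ : ∃ m, Nonempty (Fin m ≃ t) :=
    ⟨Fintype.card t, ⟨(Fintype.equivFin t).symm⟩⟩
  refine ⟨m, fun i => n (e i), fun i => c (e i), fun i => hn _ (htsub (e i).2),
    fun x hx i => hKn _ (htsub (e i).2) x hx, ?_⟩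
  have hconv : Convex ℝ (Pol (fun i => n (e i)) (fun i => c (e i))) := by
    intro x hx y hy a b ha hb hab i
    have h1 := hx i
    have h2 := hy i
    simp only at h1 h2 ⊢
    rw [inner_add_right, real_inner_smul_right, real_inner_smul_right]
    have : a * ⟪n (e i), x⟫ + b * ⟪n (e i), y⟫ + c (e i) =
        a * (⟪n (e i), x⟫ + c (e i)) + b * (⟪n (e i), y⟫ + c (e i)) := by
      linear_combination (-(c (e i))) * hab
    rw [this]
    rcases eq_or_lt_of_le ha with h | h
    · rw [← h] at hab ⊢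
      have hb1 : b = 1 := by linarith
      rw [hb1]; linarith
    · have := mul_pos h h1
      have := mul_nonneg hb h2.le
      linarith
  refine IsPreconnected.subset_left_of_subset_union hΩ
    (isClosed_closure (s := Ω)).isOpen_compl ?_ ?_ ?_ hconv.isPreconnected
  · exact Set.disjoint_left.2 fun x hx hx' => hx' (subset_closure hx)
  · intro x hx
    by_cases h : x ∈ Ω
    · exact Or.inl h
    · right
      intro hcl
      have hfr : x ∈ frontier Ω := by
        rw [hΩ.frontier_eq]; exact ⟨hcl, h⟩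
      have := hcov hfr
      simp only [mem_iUnion] at this
      obtain ⟨y, hy, hxy⟩ := this
      have h3 := hx (e.symm ⟨y, hy⟩)
      simp only [Equiv.apply_symm_apply] at h3
      have h4 : ⟪n y, x⟫ + c y < 0 := hxy
      linarith
  · obtain ⟨x, hx⟩ := hKne
    exact ⟨x, fun i => hKn _ (htsub (e i).2) x hx, hKΩ hx⟩

end PLap
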