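import Pool.Agent.Lib.MP_a627f3_an.Defs

open MeasureTheory Set Filter Topology Metric
open scoped RealInnerProductSpace ENNReal NNReal

namespace PLap

variable {E : Type*} [NormedAddCommGroup E] [InnerProductSpace ℝ E] [FiniteDimensional ℝ E]
  [CompleteSpace E] [MeasurableSpace E] [BorelSpace E]

/-- Approximating sequence: convex `C¹` functions `v k` on `P k ↑ Ω`, weak supersolutions with
`μ k → λ_p(Ω)`, `e^{-v k}` being a minimising sequence for `λ_p(Ω)`. -/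
structure ApproxSeq (p : ℝ) (Ω : Set E) (P : ℕ → Set E) (v : ℕ → E → ℝ) (μ : ℕ → ℝ) : Prop where
  reg : ∀ k, Reg (P k) (v k)
  sub : ∀ k, P k ⊆ Ω
  exh : ∀ K, IsCompact K → K ⊆ Ω → ∀ᶠ k in atTop, K ⊆ P k
  sup : ∀ k, IsSuper p (P k) (μ k) (v k)
  mpos : ∀ k, 0 ≤ μ k
  mle : ∀ k, μ k ≤ lam p Ω
  mlim : Tendsto μ atTop (𝓝 (lam p Ω))
  nn : ∀ k, ∀ x ∈ P k, 0 ≤ v k x
  low : ∀ M : ℝ, ∃ K, IsCompact K ∧ K ⊆ Ω ∧ ∀ k, ∀ x ∈ P k \ K, M ≤ v k x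
  fin : ∀ k, IntegrableOn (fun x => ‖gradient (v k) x‖ ^ p * Real.exp (-p * v k x)) (P k)
  en : ∃ η : ℕ → ℝ, Tendsto η atTop (𝓝 0) ∧ ∀ k,
    (∫ x in P k, ‖gradient (v k) x‖ ^ p * Real.exp (-p * v k x)) ≤
      (lam p Ω + η k) * ∫ x in P k, Real.exp (-p * v k x)
  mass : ∃ C : ℝ, ∀ k, (∫ x in P k, v k x * Real.exp (-p * v k x)) ≤
      C * ∫ x in P k, Real.exp (-p * v k x)

/-- Local uniform upper bounds. -/
def LocUB (Ω : Set E) (v : ℕ → E → ℝ) : Prop :=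
  ∀ K : Set E, IsCompact K → K ⊆ Ω → ∃ C : ℝ, ∀ᶠ k in atTop, ∀ x ∈ K, v k x ≤ C

end PLap
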