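import Pool.Agent.Lib.MP_a627f3_an.Defs

open MeasureTheory Set Filter Topology Metric
open scoped RealInnerProductSpace ENNReal NNReal

namespace PLap

variable {E : Type*} [NormedAddCommGroup E] [InnerProductSpace ℝ E] [FiniteDimensional ℝ E]
  [CompleteSpace E] [MeasurableSpace E] [BorelSpace E]

theorem ca_gradient_inner (v : E → ℝ) (x h : E) : ⟪gradient v x, h⟫ = fderiv ℝ v x h := by
  unfold gradient
  exact InnerProductSpace.toDual_symm_apply

theorem tangent_le {Ω : Set E} {v : E → ℝ} (hv : ConvexOn ℝ Ω v) {x y : E} (hx : x ∈ Ω)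
    (hd : DifferentiableAt ℝ v x) (hy : y ∈ Ω) : v x + ⟪gradient v x, y - x⟫ ≤ v y := by
  rw [ca_gradient_inner]
  have h1 := (hd.hasFDerivAt.hasLineDerivAt (y - x)).tendsto_slope_zero_right
  have h2 : fderiv ℝ v x (y - x) ≤ v y - v x := by
    refine le_of_tendsto h1 ?_
    filter_upwards [Ioo_mem_nhdsGT (zero_lt_one : (0 : ℝ) < 1)] with t ht
    have ht0 : 0 < t := ht.1
    have ht1 : t < 1 := ht.2
    have h3 := hv.2 hx hy (show 0 ≤ 1 - t by linarith) ht0.le (by ring)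
    have h4 : (1 - t) • x + t • y = x + t • (y - x) := by
      rw [sub_smul, smul_sub, one_smul]
      abel
    rw [h4, smul_eq_mul, smul_eq_mul] at h3
    rw [smul_eq_mul, inv_mul_le_iff₀ ht0]
    linarith
  linarith

theorem exists_subgrad {Ω : Set E} (hΩ : IsOpen Ω) {v : E → ℝ} (hv : ConvexOn ℝ Ω v) {x : E}
    (hx : x ∈ Ω) : ∃ ζ : E, ∀ y ∈ Ω, v x + ⟪ζ, y - x⟫ ≤ v y := by
  have hcont : ContinuousOn v Ω := hv.continuousOn hΩ
  set S : Set (E × ℝ) := {p | p.1 ∈ Ω ∧ v p.1 < p.2} with hS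
  have hSconv : Convex ℝ S := hv.convex_strict_epigraph
  have hSopen : IsOpen S := by
    have h1 : IsOpen ((Ω : Set E) ×ˢ (univ : Set ℝ)) := hΩ.prod isOpen_univ
    have h2 : ContinuousOn (fun p : E × ℝ => p.2 - v p.1) (Ω ×ˢ univ) := by
      refine continuous_snd.continuousOn.sub ?_
      exact hcont.comp continuous_fst.continuousOn (fun p hp => hp.1)
    have h3 := h2.isOpen_inter_preimage h1 (isOpen_Ioi (a := (0 : ℝ)))
    convert h3 using 1
    ext p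
    simp only [hS, mem_ofPred_eq, mem_inter_iff, mem_prod, mem_univ, and_true, mem_preimage,
      mem_Ioi, sub_pos]
  have hxS : ((x, v x) : E × ℝ) ∉ S := fun h => lt_irrefl _ h.2
  obtain ⟨f, hf⟩ := geometric_hahn_banach_open_point hSconv hSopen hxS
  -- decompose `f`
  set a : E →L[ℝ] ℝ := f.comp (ContinuousLinearMap.inl ℝ E ℝ) with ha
  set c : ℝ := f (0, 1) with hc
  have hfd : ∀ (y : E) (s : ℝ), f (y, s) = a y + s * c := by
    intro y s
    have h1 : ((y, s) : E × ℝ) = (y, 0) + s • ((0 : E), (1 : ℝ)) := by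
      ext <;> simp
    rw [h1, map_add, map_smul, smul_eq_mul]
    rfl
  have hc0 : c < 0 := by
    have h1 := hf (x, v x + 1) ⟨hx, by simp⟩
    rw [hfd, hfd] at h1
    linarith
  have hkey : ∀ y ∈ Ω, a y + v y * c ≤ a x + v x * c := by
    intro y hy
    have h1 : ∀ s : ℝ, v y < s → a y + s * c ≤ a x + v x * c := by
      intro s hs
      have h2 := hf (y, s) ⟨hy, hs⟩
      rw [hfd, hfd] at h2
      exact h2.le
    have h3 : Tendsto (fun s : ℝ => a y + s * c) (𝓝[>] (v y)) (𝓝 (a y + v y * c)) := by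
      apply Tendsto.mono_left _ nhdsWithin_le_nhds
      exact (continuous_const.add (continuous_id.mul continuous_const)).tendsto _
    exact le_of_tendsto h3 (by
      filter_upwards [self_mem_nhdsWithin] with s hs
      exact h1 s hs)
  have hcomp : CompleteSpace E := FiniteDimensional.complete ℝ E
  refine ⟨(InnerProductSpace.toDual ℝ E).symm ((-c)⁻¹ • a), fun y hy => ?_⟩
  rw [InnerProductSpace.toDual_symm_apply, smul_apply, smul_eq_mul, map_sub]
  have h1 := hkey y hy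
  have hc1 : 0 < -c := by linarith
  have h2 : (-c)⁻¹ * (a y - a x) ≤ v y - v x := by
    rw [inv_mul_le_iff₀ hc1]
    linarith
  linarith

theorem ca_subgrad_norm {Ω : Set E} {v : E → ℝ} {x ζ : E} {r M : ℝ}
    (hr : 0 < r) (hb : closedBall x r ⊆ Ω) (hM : ∀ y ∈ closedBall x r, |v y| ≤ M)
    (hζ : ∀ y ∈ Ω, v x + ⟪ζ, y - x⟫ ≤ v y) : ‖ζ‖ ≤ 2 * M / r := by
  have hx : x ∈ closedBall x r := mem_closedBall_self hr.le
  have hM0 : 0 ≤ M := (abs_nonneg _).trans (hM x hx)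
  by_cases h0 : ζ = 0
  · rw [h0, norm_zero]
    positivity
  have hn : 0 < ‖ζ‖ := norm_pos_iff.mpr h0
  set y := x + (r / ‖ζ‖) • ζ with hy
  have hyx : y - x = (r / ‖ζ‖) • ζ := by rw [hy]; abel
  have hyb : y ∈ closedBall x r := by
    rw [mem_closedBall, dist_eq_norm, hyx, norm_smul, Real.norm_of_nonneg (by positivity)]
    rw [div_mul_cancel₀ _ hn.ne']
  have h1 := hζ y (hb hyb)
  rw [hyx, inner_smul_right, real_inner_self_eq_norm_sq] at h1
  have h2 : r / ‖ζ‖ * ‖ζ‖ ^ 2 = r * ‖ζ‖ := by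
    field_simp
  rw [h2] at h1
  have h3 := abs_le.mp (hM y hyb)
  have h4 := abs_le.mp (hM x hx)
  rw [le_div_iff₀ hr]
  linarith [h3.2, h4.1, mul_comm r ‖ζ‖]

theorem ca_tendsto {Ω : Set E} (hΩ : IsOpen Ω) {v : E → ℝ} (hv : ConvexOn ℝ Ω v) {x ζ : E}
    (hx : x ∈ Ω) (h : ∀ ξ : E, (∀ y ∈ Ω, v x + ⟪ξ, y - x⟫ ≤ v y) → ξ = ζ) {s : E → E}
    (hs : ∀ z ∈ Ω, ∀ y ∈ Ω, v z + ⟪s z, y - z⟫ ≤ v y) : Tendsto s (𝓝 x) (𝓝 ζ) := by
  have hcont : ContinuousOn v Ω := hv.continuousOn hΩ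
  obtain ⟨R, hR0, hR⟩ := Metric.isOpen_iff.mp hΩ x hx
  set r := R / 4 with hr
  have hr0 : 0 < r := by positivity
  have hsub : closedBall x (2 * r) ⊆ Ω :=
    (closedBall_subset_ball (by rw [hr]; linarith)).trans hR
  obtain ⟨M, hM⟩ := (isCompact_closedBall x (2 * r)).exists_bound_of_continuousOn
    (hcont.mono hsub)
  have hbd : ∀ y ∈ closedBall x r, s y ∈ closedBall (0 : E) (2 * M / r) := by
    intro y hy
    rw [mem_closedBall_zero_iff]
    have hyr : closedBall y r ⊆ closedBall x (2 * r) := by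
      apply closedBall_subset_closedBall'
      rw [mem_closedBall] at hy
      linarith
    apply ca_subgrad_norm hr0 (hyr.trans hsub) (fun z hz => hM z (hyr hz))
    exact hs y (hsub (hyr (mem_closedBall_self hr0.le)))
  apply (isCompact_closedBall (0 : E) (2 * M / r)).tendsto_nhds_of_unique_mapClusterPt
  · filter_upwards [closedBall_mem_nhds x hr0] with y hy
    exact hbd y hy
  · intro ξ _ hξ
    apply h
    intro z hz
    by_contra hcon
    push Not at hcon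
    rw [mapClusterPt_iff_frequently] at hξ
    have hc : ContinuousAt (fun p : E × E => v p.1 + ⟪p.2, z - p.1⟫) (x, ξ) := by
      refine ContinuousAt.add ?_ ?_
      · exact ContinuousAt.comp (f := Prod.fst) (x := ((x, ξ) : E × E))
          (hcont.continuousAt (hΩ.mem_nhds hx)) continuous_fst.continuousAt
      · exact (continuous_snd.inner (continuous_const.sub continuous_fst)).continuousAt
    have h1 : ∀ᶠ p : E × E in 𝓝 (x, ξ), v z < v p.1 + ⟪p.2, z - p.1⟫ :=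
      hc.eventually (lt_mem_nhds hcon)
    rw [nhds_prod_eq, eventually_prod_iff] at h1
    obtain ⟨pa, hpa, pb, hpb, hab⟩ := h1
    have h2 := hξ {η | pb η} hpb
    have h3 := h2.and_eventually (hpa.and (hΩ.mem_nhds hx))
    obtain ⟨y, hy1, hy2, hy3⟩ := h3.exists
    have h4 := hab hy2 hy1
    exact absurd (hs y hy3 z hz) (not_le.mpr h4)

theorem hasGradientAt_of_unique_subgrad' {Ω : Set E} (hΩ : IsOpen Ω) {v : E → ℝ}
    (hv : ConvexOn ℝ Ω v) {x ζ : E} (hx : x ∈ Ω)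
    (h : ∀ ξ : E, (∀ y ∈ Ω, v x + ⟪ξ, y - x⟫ ≤ v y) → ξ = ζ) : HasGradientAt v ζ x := by
  classical
  have h1 : ∀ z : E, ∃ η : E, z ∈ Ω → ∀ y ∈ Ω, v z + ⟪η, y - z⟫ ≤ v y := by
    intro z
    by_cases hz : z ∈ Ω
    · obtain ⟨η, hη⟩ := exists_subgrad hΩ hv hz
      exact ⟨η, fun _ => hη⟩
    · exact ⟨0, fun h => absurd h hz⟩
  choose s hs using h1
  have hT : Tendsto s (𝓝 x) (𝓝 ζ) := ca_tendsto hΩ hv hx h (fun z hz => hs z hz)
  have hζ : ∀ y ∈ Ω, v x + ⟪ζ, y - x⟫ ≤ v y := by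
    have h2 := h (s x) (hs x hx)
    rw [← h2]
    exact hs x hx
  rw [hasGradientAt_iff_isLittleO, Asymptotics.isLittleO_iff]
  intro ε hε
  have h3 : ∀ᶠ y in 𝓝 x, ‖s y - ζ‖ < ε := by
    have h4 := hT.eventually (Metric.ball_mem_nhds ζ hε)
    filter_upwards [h4] with y hy
    rwa [dist_eq_norm] at hy
  filter_upwards [h3, hΩ.mem_nhds hx] with y hy hyΩ
  have h5 := hs y hyΩ x hx
  have h6 := hζ y hyΩ
  have h7 : ⟪s y, x - y⟫ = - ⟪s y, y - x⟫ := by
    rw [← inner_neg_right, neg_sub]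
  have h8 : ⟪s y - ζ, y - x⟫ ≤ ‖s y - ζ‖ * ‖y - x‖ := real_inner_le_norm _ _
  rw [inner_sub_left] at h8
  rw [Real.norm_eq_abs, abs_le]
  have h9 : ‖s y - ζ‖ * ‖y - x‖ ≤ ε * ‖y - x‖ :=
    mul_le_mul_of_nonneg_right hy.le (norm_nonneg _)
  have h10 : 0 ≤ ε * ‖y - x‖ := by positivity
  constructor
  · linarith
  · linarith

theorem hasGradientAt_of_unique_subgrad {Ω : Set E} (hΩ : IsOpen Ω) {v : E → ℝ}
    (hv : ConvexOn ℝ Ω v) {x ζ : E} (hx : x ∈ Ω)
    (h : ∀ ξ : E, (∀ y ∈ Ω, v x + ⟪ξ, y - x⟫ ≤ v y) → ξ = ζ) : HasGradientAt v ζ x :=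
  hasGradientAt_of_unique_subgrad' hΩ hv hx h

theorem ca_unique {Ω : Set E} (hΩ : IsOpen Ω) {v : E → ℝ} {x : E} (hx : x ∈ Ω)
    (hd : DifferentiableAt ℝ v x) {ξ : E} (h : ∀ y ∈ Ω, v x + ⟪ξ, y - x⟫ ≤ v y) :
    ξ = gradient v x := by
  have h1 : IsLocalMin (fun y => v y - ⟪ξ, y⟫) x := by
    filter_upwards [hΩ.mem_nhds hx] with y hy
    have h2 := h y hy
    rw [inner_sub_right] at h2
    linarith
  have h3 : HasFDerivAt (fun y => v y - ⟪ξ, y⟫) (fderiv ℝ v x - InnerProductSpace.toDual ℝ E ξ) x :=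
    hd.hasFDerivAt.sub (InnerProductSpace.toDual ℝ E ξ).hasFDerivAt
  have h4 := h1.hasFDerivAt_eq_zero h3
  have h5 : fderiv ℝ v x = InnerProductSpace.toDual ℝ E ξ := sub_eq_zero.mp h4
  unfold gradient
  rw [h5, LinearIsometryEquiv.symm_apply_apply]

theorem contDiffOn_of_differentiable {Ω : Set E} (hΩ : IsOpen Ω) {v : E → ℝ}
    (hv : ConvexOn ℝ Ω v) (hd : ∀ x ∈ Ω, DifferentiableAt ℝ v x) : ContDiffOn ℝ 1 v Ω := by
  have h1 : ContDiffOn ℝ (0 + 1) v Ω := by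
    rw [contDiffOn_succ_iff_fderiv_of_isOpen hΩ]
    refine ⟨fun x hx => (hd x hx).differentiableWithinAt, by simp, ?_⟩
    rw [contDiffOn_zero]
    intro x hx
    apply ContinuousAt.continuousWithinAt
    have h2 : Tendsto (gradient v) (𝓝 x) (𝓝 (gradient v x)) :=
      ca_tendsto hΩ hv hx (fun ξ hξ => ca_unique hΩ hx (hd x hx) hξ)
        (fun z hz y hy => tangent_le hv hz (hd z hz) hy)
    have h3 : fderiv ℝ v = fun y => InnerProductSpace.toDual ℝ E (gradient v y) := by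
      funext y
      unfold gradient
      rw [LinearIsometryEquiv.apply_symm_apply]
    rw [h3]
    exact ((InnerProductSpace.toDual ℝ E).continuous.tendsto _).comp h2
  simpa using h1

theorem convex_ae_diff {Ω : Set E} (hΩ : IsOpen Ω) {v : E → ℝ} (hv : ConvexOn ℝ Ω v) :
    ∀ᵐ x : E, x ∈ Ω → DifferentiableAt ℝ v x := by
  have hL := hv.locallyLipschitzOn hΩ
  have h1 : ∀ x : E, ∃ U : Set E, x ∈ Ω → U ∈ 𝓝 x ∧ IsOpen U ∧ U ⊆ Ω ∧
      ∃ K : ℝ≥0, LipschitzOnWith K v U := by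
    intro x
    by_cases hx : x ∈ Ω
    · obtain ⟨K, t, ht, hKt⟩ := hL hx
      rw [hΩ.nhdsWithin_eq hx] at ht
      have h2 : t ∩ Ω ∈ 𝓝 x := Filter.inter_mem ht (hΩ.mem_nhds hx)
      obtain ⟨U, hU1, hU2, hU3⟩ := _root_.mem_nhds_iff.mp h2
      exact ⟨U, fun _ => ⟨hU2.mem_nhds hU3, hU2, fun y hy => (hU1 hy).2, K,
        hKt.mono (fun y hy => (hU1 hy).1)⟩⟩
    · exact ⟨∅, fun h => absurd h hx⟩
  choose U hU using h1
  obtain ⟨t, htΩ, htc, hcov⟩ := TopologicalSpace.countable_cover_nhdsWithin (f := U) (s := Ω)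
    (fun x hx => mem_nhdsWithin_of_mem_nhds (hU x hx).1)
  have h3 : ∀ x ∈ t, ∀ᵐ y : E, y ∈ U x → DifferentiableAt ℝ v y := by
    intro x hx
    obtain ⟨-, hopen, -, K, hK⟩ := hU x (htΩ hx)
    have h4 := hK.ae_differentiableWithinAt_of_mem (μ := (volume : Measure E))
    filter_upwards [h4] with y hy hyU
    exact (hy hyU).differentiableAt (hopen.mem_nhds hyU)
  have h5 := (ae_ball_iff htc).mpr h3
  filter_upwards [h5] with y hy hyΩ
  obtain ⟨x, hx, hyx⟩ := mem_iUnion₂.mp (hcov hyΩ)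
  exact hy x hx hyx

theorem ca_gradient_norm_le {Ω : Set E} {v : E → ℝ} (hv : ConvexOn ℝ Ω v) {x : E} {r M : ℝ}
    (hr : 0 < r) (hb : closedBall x r ⊆ Ω) (hM : ∀ y ∈ closedBall x r, |v y| ≤ M) :
    ‖gradient v x‖ ≤ 2 * M / r := by
  have hx : x ∈ closedBall x r := mem_closedBall_self hr.le
  by_cases hd : DifferentiableAt ℝ v x
  · exact ca_subgrad_norm hr hb hM (fun y hy => tangent_le hv (hb hx) hd hy)
  · have hM0 : 0 ≤ M := (abs_nonneg _).trans (hM x hx)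
    unfold gradient
    rw [fderiv_zero_of_not_differentiableAt hd, map_zero, norm_zero]
    positivity

theorem gradient_norm_le {Ω : Set E} {v : E → ℝ} (hv : ConvexOn ℝ Ω v) {x : E} {r M : ℝ}
    (hr : 0 < r) (hb : closedBall x r ⊆ Ω) (hM : ∀ y ∈ closedBall x r, |v y| ≤ M) :
    ‖gradient v x‖ ≤ 2 * M / r := ca_gradient_norm_le hv hr hb hM

theorem exists_lip_compact {Ω : Set E} (hΩ : IsOpen Ω) {v : E → ℝ} (hv : ConvexOn ℝ Ω v)
    {K : Set E} (hK : IsCompact K) (hKΩ : K ⊆ Ω) :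
    ∃ L : ℝ, (∀ x ∈ K, ‖gradient v x‖ ≤ L) ∧ ∀ x ∈ K, |v x| ≤ L := by
  have hcont : ContinuousOn v Ω := hv.continuousOn hΩ
  obtain ⟨δ, hδ, hsub⟩ := hK.exists_cthickening_subset_open hΩ hKΩ
  obtain ⟨M, hM⟩ := hK.cthickening.exists_bound_of_continuousOn (hcont.mono hsub)
  refine ⟨max (2 * M / δ) M, fun x hx => ?_, fun x hx => ?_⟩
  · have h1 : closedBall x δ ⊆ cthickening δ K := closedBall_subset_cthickening hx δ
    exact (gradient_norm_le hv hδ (h1.trans hsub) (fun y hy => hM y (h1 hy))).trans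
      (le_max_left _ _)
  · exact (hM x (self_subset_cthickening K hx)).trans (le_max_right _ _)

end PLap
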