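import Pool.Agent.Lib.MP_a627f3_an.ConvA

open MeasureTheory Set Filter Topology Metric
open scoped RealInnerProductSpace ENNReal NNReal

namespace PLap

variable {E : Type*} [NormedAddCommGroup E] [InnerProductSpace ℝ E] [FiniteDimensional ℝ E]
  [CompleteSpace E] [MeasurableSpace E] [BorelSpace E]

omit [FiniteDimensional ℝ E] [MeasurableSpace E] [BorelSpace E] in
theorem Reg.diffAt {Ω : Set E} {v : E → ℝ} (hv : Reg Ω v) {x : E} (hx : x ∈ Ω) :
    DifferentiableAt ℝ v x :=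
  (hv.c1.contDiffAt (hv.isOpen.mem_nhds hx)).differentiableAt (by simp)

omit [FiniteDimensional ℝ E] [MeasurableSpace E] [BorelSpace E] in
theorem Reg.cont_grad {Ω : Set E} {v : E → ℝ} (hv : Reg Ω v) : ContinuousOn (gradient v) Ω := by
  have h1 : ContinuousOn (fderiv ℝ v) Ω := hv.c1.continuousOn_fderiv_of_isOpen hv.isOpen le_rfl
  unfold gradient
  exact (InnerProductSpace.toDual ℝ E).symm.continuous.comp_continuousOn h1

theorem Reg.isCompact_grad {Ω : Set E} {v : E → ℝ} (hv : Reg Ω v) {S : Set E}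
    (hS : IsCompact S) : IsCompact {x | x ∈ Ω ∧ gradient v x ∈ S} := by
  obtain ⟨M, hM⟩ := hS.isBounded.exists_norm_le
  obtain ⟨x₀, hx₀⟩ := hv.nonempty
  obtain ⟨K, hK, hKΩ, hKv⟩ := hv.coer (v x₀ + M * diam Ω + 1)
  have heq : {x | x ∈ Ω ∧ gradient v x ∈ S} = K ∩ gradient v ⁻¹' S := by
    ext x
    constructor
    · rintro ⟨hx, hxS⟩
      refine ⟨?_, hxS⟩
      by_contra hxK
      have h1 := hKv x ⟨hx, hxK⟩
      have h2 := tangent_le hv.cvx hx (hv.diffAt hx) hx₀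
      have h3 : |⟪gradient v x, x₀ - x⟫| ≤ M * diam Ω := by
        refine (abs_real_inner_le_norm _ _).trans ?_
        have h4 : ‖x₀ - x‖ ≤ diam Ω := by
          rw [← dist_eq_norm]
          exact dist_le_diam_of_mem hv.bdd hx₀ hx
        exact mul_le_mul (hM _ hxS) h4 (norm_nonneg _) ((norm_nonneg _).trans (hM _ hxS))
      have h5 := (abs_le.1 h3).1
      linarith
    · rintro ⟨hx, hxS⟩
      exact ⟨hKΩ hx, hxS⟩
  rw [heq]
  exact hK.of_isClosed_subset
    ((hv.cont_grad.mono hKΩ).preimage_isClosed_of_isClosed hK.isClosed hS.isClosed)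
    inter_subset_left

theorem Reg.near_tangent {Ω : Set E} {v : E → ℝ} (hv : Reg Ω v) {K : Set E} (hK : IsCompact K)
    (hKΩ : K ⊆ Ω) {ε : ℝ} (hε : 0 < ε) :
    ∃ θ > 0, ∀ x ∈ K, ∀ y ∈ Ω, v x - (v y + ⟪gradient v y, x - y⟫) ≤ θ →
      ‖gradient v y - gradient v x‖ ≤ ε := by
  obtain ⟨δ, hδ, hδΩ⟩ := hK.exists_cthickening_subset_open hv.isOpen hKΩ
  have hcomp : IsCompact (cthickening δ K) := hK.cthickening
  have huc := hcomp.uniformContinuousOn_of_continuous (hv.cont_grad.mono hδΩ)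
  obtain ⟨η, hη, hη'⟩ := Metric.uniformContinuousOn_iff.1 huc (ε / 2) (half_pos hε)
  set ρ : ℝ := min δ (η / 2) with hρ
  have hρ0 : 0 < ρ := lt_min hδ (half_pos hη)
  have hnear : ∀ x ∈ K, ∀ z, ‖z - x‖ ≤ ρ → z ∈ Ω ∧ ‖gradient v z - gradient v x‖ ≤ ε / 2 := by
    intro x hx z hz
    have h1 : z ∈ cthickening δ K := by
      refine mem_cthickening_of_dist_le z x δ K hx ?_
      rw [dist_eq_norm]
      exact hz.trans (min_le_left _ _)
    have h2 : x ∈ cthickening δ K := self_subset_cthickening K hx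
    refine ⟨hδΩ h1, ?_⟩
    have h3 := hη' z h1 x h2 (by
      rw [dist_eq_norm]
      have := hz.trans (min_le_right δ (η / 2))
      linarith)
    rw [dist_eq_norm] at h3
    exact h3.le
  refine ⟨ρ * (ε / 4), by positivity, fun x hx y hy h => ?_⟩
  by_contra hcon
  push Not at hcon
  set ξ := gradient v y with hξ
  set ζ := gradient v x with hζ
  set s := ‖ξ - ζ‖ with hs
  have hs0 : 0 < s := hε.trans hcon
  set z := x + (ρ / s) • (ξ - ζ) with hz
  have hzx : z - x = (ρ / s) • (ξ - ζ) := by rw [hz]; abel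
  have hzn : ‖z - x‖ = ρ := by
    rw [hzx, norm_smul, ← hs, Real.norm_eq_abs, abs_of_pos (div_pos hρ0 hs0)]
    field_simp
  obtain ⟨hzΩ, hzg⟩ := hnear x hx z hzn.le
  have hxΩ := hKΩ hx
  have t1 := tangent_le hv.cvx hy (hv.diffAt hy) hzΩ
  have t2 := tangent_le hv.cvx hzΩ (hv.diffAt hzΩ) hxΩ
  have e1 : ⟪ξ, z - y⟫ = ⟪ξ, x - y⟫ + ⟪ξ, z - x⟫ := by
    rw [← inner_add_right]
    congr 1
    abel
  have e2 : ⟪gradient v z, x - z⟫ = -⟪gradient v z, z - x⟫ := by
    rw [← inner_neg_right]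
    congr 1
    abel
  have e3 : ⟪ξ - ζ, z - x⟫ = ρ * s := by
    rw [hzx, inner_smul_right, real_inner_self_eq_norm_sq, ← hs]
    field_simp
  have e4 : |⟪gradient v z - ζ, z - x⟫| ≤ ε / 2 * ρ := by
    refine (abs_real_inner_le_norm _ _).trans ?_
    rw [hzn]
    exact mul_le_mul_of_nonneg_right hzg hρ0.le
  have e5 := (abs_le.1 e4).2
  rw [inner_sub_left] at e3 e5
  rw [e1] at t1
  rw [e2] at t2
  nlinarith

end PLap
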