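import Pool.Agent.Lib.MP_a627f3_an.Defs

open MeasureTheory Set Filter Topology Metric
open scoped RealInnerProductSpace ENNReal NNReal

namespace PLap

variable {E : Type*} [NormedAddCommGroup E] [InnerProductSpace ℝ E] [FiniteDimensional ℝ E]
  [CompleteSpace E] [MeasurableSpace E] [BorelSpace E]

theorem lipC_approx {U : Set E} (hU : IsOpen U) {φ : E → ℝ} (hφ : Continuous φ)
    (hc : HasCompactSupport φ) (hs : tsupport φ ⊆ U) (h0 : ∀ x, 0 ≤ φ x) {ε : ℝ} (hε : 0 < ε) :
    ∃ f, LipC U f ∧ tsupport f ⊆ tsupport φ ∧ (∀ x, 0 ≤ f x) ∧ (∀ x, f x ≤ φ x) ∧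
      ∀ x, φ x ≤ f x + ε := by
  have huc := hc.uniformContinuous_of_continuous hφ
  obtain ⟨δ, hδ, hδ2⟩ := Metric.uniformContinuous_iff.1 huc ε hε
  obtain ⟨M, hM⟩ : ∃ M : ℝ, ∀ x, φ x ≤ M := by
    obtain ⟨C, hC⟩ := hc.exists_bound_of_continuous hφ
    exact ⟨C, fun x => (le_abs_self _).trans (hC x)⟩
  have hM0 : 0 ≤ M := (h0 0).trans (hM 0)
  set L : ℝ := M / δ with hL
  have hL0 : 0 ≤ L := by positivity
  set f : E → ℝ := fun x => ⨅ y, (φ y + L * dist x y) with hf
  have hbdd : ∀ x, BddBelow (range fun y => φ y + L * dist x y) := by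
    intro x
    refine ⟨0, ?_⟩
    rintro _ ⟨y, rfl⟩
    have := h0 y
    positivity
  have hf0 : ∀ x, 0 ≤ f x := fun x => le_ciInf fun y => by
    have := h0 y
    positivity
  have hfφ : ∀ x, f x ≤ φ x := fun x => (ciInf_le (hbdd x) x).trans (by simp)
  have hφf : ∀ x, φ x ≤ f x + ε := by
    intro x
    rw [← sub_le_iff_le_add]
    refine le_ciInf fun y => ?_
    rcases lt_or_ge (dist x y) δ with h | h
    · have h1 := hδ2 h
      rw [Real.dist_eq] at h1
      have h2 := (abs_lt.1 h1).2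
      have : 0 ≤ L * dist x y := by positivity
      linarith
    · have h1 : M ≤ L * dist x y := by
        calc M = L * δ := by rw [hL]; field_simp
          _ ≤ L * dist x y := by gcongr
      have := hM x
      have := h0 y
      linarith
  have hlip : LipschitzWith L.toNNReal f := by
    refine LipschitzWith.of_le_add_mul _ fun x x' => ?_
    rw [Real.coe_toNNReal _ hL0, ← sub_le_iff_le_add]
    refine le_ciInf fun y => ?_
    have h1 : f x ≤ φ y + L * dist x y := ciInf_le (hbdd x) y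
    have h2 : dist x y ≤ dist x x' + dist x' y := dist_triangle _ _ _
    have h3 : L * dist x y ≤ L * dist x x' + L * dist x' y := by
      rw [← mul_add]; gcongr
    linarith
  have hsub : tsupport f ⊆ tsupport φ := by
    refine closure_mono fun x hx => ?_
    rw [Function.mem_support] at hx ⊢
    intro h
    exact hx (le_antisymm (h ▸ hfφ x) (hf0 x))
  exact ⟨f, ⟨⟨_, hlip⟩, hc.of_isClosed_subset (isClosed_tsupport f) hsub, hsub.trans hs⟩, hsub,
    hf0, hfφ, hφf⟩

theorem exists_cutoff {Ω : Set E} (hΩ : IsOpen Ω) {K : Set E} (hK : IsCompact K) (hKΩ : K ⊆ Ω) :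
    ∃ χ : E → ℝ, ContDiff ℝ (⊤ : ℕ∞) χ ∧ HasCompactSupport χ ∧ tsupport χ ⊆ Ω ∧
      (∀ x, 0 ≤ χ x ∧ χ x ≤ 1) ∧ ∃ U, IsOpen U ∧ K ⊆ U ∧ ∀ x ∈ U, χ x = 1 := by
  obtain ⟨t, htc, hKt, htΩ⟩ := exists_compact_between hK hΩ hKΩ
  obtain ⟨f, hf1, hf0, hf01⟩ := exists_contMDiffMap_one_nhds_of_subset_interior
    (modelWithCornersSelf ℝ E) (n := (⊤ : ℕ∞)) hK.isClosed hKt
  have hsupp : tsupport f ⊆ t := by
    refine closure_minimal (fun x hx => ?_) htc.isClosed
    by_contra h
    exact hx (hf0 x h)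
  obtain ⟨U, hUo, hKU, hU⟩ := mem_nhdsSet_iff_exists.1 hf1
  refine ⟨f, f.contMDiff.contDiff, htc.of_isClosed_subset (isClosed_tsupport _) hsupp,
    hsupp.trans htΩ, fun x => ⟨(hf01 x).1, (hf01 x).2⟩, U, hUo, hKU, fun x hx => hU hx⟩

theorem lipC_of_contDiffOn {Ω : Set E} (hΩ : IsOpen Ω) {f g : E → ℝ} (hf : LipC Ω f)
    (hg : ContDiffOn ℝ 1 g Ω) : LipC Ω (fun x => f x * g x) := by
  obtain ⟨⟨K, hK⟩, hfc, hfΩ⟩ := hf
  obtain ⟨χ, hχ, hχc, hχΩ, hχ01, U, hUo, hKU, hU⟩ := exists_cutoff hΩ hfc hfΩ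
  set h : E → ℝ := fun x => χ x * g x with hh
  have hh1 : ContDiff ℝ 1 h := by
    rw [contDiff_iff_contDiffAt]
    intro x
    by_cases hx : x ∈ Ω
    · exact ((hχ.of_le (by exact_mod_cast le_top)).contDiffAt).mul
        (hg.contDiffAt (hΩ.mem_nhds hx))
    · have h1 : x ∉ tsupport χ := fun h => hx (hχΩ h)
      have h2 := notMem_tsupport_iff_eventuallyEq.1 h1
      have h3 : h =ᶠ[𝓝 x] fun _ => 0 := by
        filter_upwards [h2] with y hy
        simp [hh, hy]
      exact contDiffAt_const.congr_of_eventuallyEq h3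
  have hhc : HasCompactSupport h := hχc.mul_right
  obtain ⟨L, hL⟩ := ContDiff.lipschitzWith_of_hasCompactSupport hhc hh1 one_ne_zero
  obtain ⟨A, hA⟩ := hfc.exists_bound_of_continuous hK.continuous
  obtain ⟨B, hB⟩ := hhc.exists_bound_of_continuous hh1.continuous
  have hA0 : 0 ≤ A := (norm_nonneg _).trans (hA 0)
  have hB0 : 0 ≤ B := (norm_nonneg _).trans (hB 0)
  have hfg : (fun x => f x * g x) = fun x => f x * h x := by
    funext x
    by_cases hx : x ∈ tsupport f
    · simp [hh, hU x (hKU hx)]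
    · simp [image_eq_zero_of_notMem_tsupport hx]
  have hsub : tsupport (fun x => f x * g x) ⊆ tsupport f := tsupport_mul_subset_left
  refine ⟨⟨(A * L + B * K).toNNReal, ?_⟩, hfc.of_isClosed_subset (isClosed_tsupport _) hsub,
    hsub.trans hfΩ⟩
  rw [hfg]
  refine LipschitzWith.of_dist_le_mul fun x y => ?_
  rw [Real.coe_toNNReal _ (by positivity), Real.dist_eq]
  have h1 : |h x - h y| ≤ L * dist x y := by
    rw [← Real.dist_eq]; exact hL.dist_le_mul x y
  have h2 : |f x - f y| ≤ K * dist x y := by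
    rw [← Real.dist_eq]; exact hK.dist_le_mul x y
  have h3 : |f x| ≤ A := hA x
  have h4 : |h y| ≤ B := hB y
  calc |f x * h x - f y * h y| = |f x * (h x - h y) + h y * (f x - f y)| := by ring_nf
    _ ≤ |f x| * |h x - h y| + |h y| * |f x - f y| := by
        rw [← abs_mul, ← abs_mul]; exact abs_add_le _ _
    _ ≤ A * (L * dist x y) + B * (K * dist x y) := by gcongr
    _ = (A * L + B * K) * dist x y := by ring

end PLap
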