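import Pool.Agent.Lib.MP_a627f3_an.Defs

open MeasureTheory Set Filter Topology Metric
open scoped RealInnerProductSpace ENNReal NNReal

namespace PLap

variable {E : Type*} [NormedAddCommGroup E] [InnerProductSpace ℝ E] [FiniteDimensional ℝ E]
  [CompleteSpace E] [MeasurableSpace E] [BorelSpace E]

section aux

omit [FiniteDimensional ℝ E] [CompleteSpace E] [MeasurableSpace E] [BorelSpace E]

private theorem cont_abs_rpow {p : ℝ} (hp : 1 < p) {u : E → ℝ} (h1 : ContDiff ℝ 1 u) :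
    Continuous (fun x => |u x| ^ p) :=
  (h1.continuous.abs).rpow_const fun _ => Or.inr (by linarith)

private theorem cont_fderiv_rpow {p : ℝ} (hp : 1 < p) {u : E → ℝ} (h1 : ContDiff ℝ 1 u) :
    Continuous (fun x => ‖fderiv ℝ u x‖ ^ p) :=
  ((h1.continuous_fderiv one_ne_zero).norm).rpow_const fun _ => Or.inr (by linarith)

private theorem supp_abs_rpow {p : ℝ} (hp : 1 < p) {u : E → ℝ} (h2 : HasCompactSupport u) :
    HasCompactSupport (fun x => |u x| ^ p) :=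
  h2.comp_left (g := fun t : ℝ => |t| ^ p)
    (by simp only [abs_zero]; exact Real.zero_rpow (by linarith))

private theorem supp_fderiv_rpow {p : ℝ} (hp : 1 < p) {u : E → ℝ} (h2 : HasCompactSupport u) :
    HasCompactSupport (fun x => ‖fderiv ℝ u x‖ ^ p) :=
  (h2.fderiv ℝ).comp_left (g := fun t : E →L[ℝ] ℝ => ‖t‖ ^ p)
    (by simp only [norm_zero]; exact Real.zero_rpow (by linarith))

end aux

private theorem set_int_abs {p : ℝ} (hp : 1 < p) {Ω : Set E} {u : E → ℝ}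
    (h3 : tsupport u ⊆ Ω) : ∫ x in Ω, |u x| ^ p = ∫ x, |u x| ^ p := by
  refine setIntegral_eq_integral_of_forall_compl_eq_zero fun x hx => ?_
  have h : x ∉ tsupport u := fun h => hx (h3 h)
  rw [image_eq_zero_of_notMem_tsupport h, abs_zero, Real.zero_rpow (by linarith)]

private theorem set_int_fderiv {p : ℝ} (hp : 1 < p) {Ω : Set E} {u : E → ℝ}
    (h3 : tsupport u ⊆ Ω) : ∫ x in Ω, ‖fderiv ℝ u x‖ ^ p = ∫ x, ‖fderiv ℝ u x‖ ^ p := by
  refine setIntegral_eq_integral_of_forall_compl_eq_zero fun x hx => ?_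
  have h : x ∉ tsupport u := fun h => hx (h3 h)
  rw [fderiv_of_notMem_tsupport ℝ h, norm_zero, Real.zero_rpow (by linarith)]

private theorem lam_bdd (p : ℝ) (Ω : Set E) :
    BddBelow {R | ∃ u : E → ℝ, IsTest Ω u ∧
    R = (∫ x in Ω, ‖fderiv ℝ u x‖ ^ p) / ∫ x in Ω, |u x| ^ p} := by
  refine ⟨0, ?_⟩
  rintro R ⟨u, -, rfl⟩
  exact div_nonneg (integral_nonneg fun x => Real.rpow_nonneg (norm_nonneg _) _)
    (integral_nonneg fun x => Real.rpow_nonneg (abs_nonneg _) _)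

private theorem int_pos {p : ℝ} (hp : 1 < p) {Ω : Set E} {u : E → ℝ} (hu : IsTest Ω u) :
    0 < ∫ x, |u x| ^ p := by
  obtain ⟨h1, h2, h3, x, hx⟩ := hu
  refine (cont_abs_rpow hp h1).integral_pos_of_hasCompactSupport_nonneg_nonzero (x := x)
    (supp_abs_rpow hp h2) (fun x => Real.rpow_nonneg (abs_nonneg _) _) ?_
  exact (Real.rpow_pos_of_pos (abs_pos.2 hx) _).ne'

private theorem int_fd_nonneg (p : ℝ) (u : E → ℝ) : 0 ≤ ∫ x, ‖fderiv ℝ u x‖ ^ p :=
  integral_nonneg fun x => Real.rpow_nonneg (norm_nonneg _) _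

theorem lam_nonneg (p : ℝ) (Ω : Set E) : 0 ≤ lam p Ω := by
  refine Real.sInf_nonneg ?_
  rintro R ⟨u, -, rfl⟩
  exact div_nonneg (integral_nonneg fun x => Real.rpow_nonneg (norm_nonneg _) _)
    (integral_nonneg fun x => Real.rpow_nonneg (abs_nonneg _) _)

theorem lam_mul_le {p : ℝ} (hp : 1 < p) {Ω : Set E} {u : E → ℝ} (h1 : ContDiff ℝ 1 u)
    (h2 : HasCompactSupport u) (h3 : tsupport u ⊆ Ω) :
    lam p Ω * ∫ x, |u x| ^ p ≤ ∫ x, ‖fderiv ℝ u x‖ ^ p := by
  by_cases h : ∃ x, u x ≠ 0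
  · have hu : IsTest Ω u := ⟨h1, h2, h3, h⟩
    have hpos := int_pos hp hu
    have hle : lam p Ω ≤ (∫ x, ‖fderiv ℝ u x‖ ^ p) / ∫ x, |u x| ^ p := by
      refine csInf_le (lam_bdd p Ω) ⟨u, hu, ?_⟩
      rw [set_int_abs hp h3, set_int_fderiv hp h3]
    exact (le_div_iff₀ hpos).1 hle
  · push Not at h
    have e : ∫ x, |u x| ^ p = 0 := by
      have : (fun x => |u x| ^ p) = fun _ => 0 := by
        funext x
        rw [h x, abs_zero, Real.zero_rpow (by linarith)]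
      rw [this, integral_zero]
    rw [e, mul_zero]
    exact int_fd_nonneg p u

theorem exists_isTest {Ω : Set E} (hΩ : IsOpen Ω) (hne : Ω.Nonempty) : ∃ u, IsTest Ω u := by
  obtain ⟨x, hx⟩ := hne
  obtain ⟨f, h1, h2, h3, -, h5⟩ := exists_contDiff_tsupport_subset (n := 1) (hΩ.mem_nhds hx)
  exact ⟨f, h3, h2, h1, x, by rw [h5]; exact one_ne_zero⟩

theorem le_lam {p : ℝ} (hp : 1 < p) {Ω : Set E} (hΩ : IsOpen Ω) (hne : Ω.Nonempty) {Λ : ℝ}
    (h : ∀ u, IsTest Ω u → Λ * ∫ x, |u x| ^ p ≤ ∫ x, ‖fderiv ℝ u x‖ ^ p) : Λ ≤ lam p Ω := by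
  obtain ⟨u₀, hu₀⟩ := exists_isTest hΩ hne
  refine le_csInf ⟨_, u₀, hu₀, rfl⟩ ?_
  rintro R ⟨u, hu, rfl⟩
  rw [set_int_abs hp hu.2.2.1, set_int_fderiv hp hu.2.2.1, le_div_iff₀ (int_pos hp hu)]
  exact h u hu

theorem exists_test_near {p : ℝ} (hp : 1 < p) {Ω : Set E} (hΩ : IsOpen Ω) (hne : Ω.Nonempty)
    {ε : ℝ} (hε : 0 < ε) :
    ∃ u, IsTest Ω u ∧ ∫ x, ‖fderiv ℝ u x‖ ^ p ≤ (lam p Ω + ε) * ∫ x, |u x| ^ p := by
  obtain ⟨u₀, hu₀⟩ := exists_isTest hΩ hne
  obtain ⟨R, ⟨u, hu, rfl⟩, hR⟩ := exists_lt_of_csInf_lt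
    (s := {R | ∃ u : E → ℝ, IsTest Ω u ∧
      R = (∫ x in Ω, ‖fderiv ℝ u x‖ ^ p) / ∫ x in Ω, |u x| ^ p}) ⟨_, u₀, hu₀, rfl⟩
    (show lam p Ω < lam p Ω + ε by linarith)
  rw [set_int_abs hp hu.2.2.1, set_int_fderiv hp hu.2.2.1, div_lt_iff₀ (int_pos hp hu)] at hR
  exact ⟨u, hu, hR.le⟩

theorem lam_mono {p : ℝ} (hp : 1 < p) {Ω Ω' : Set E} (hΩ : IsOpen Ω) (hne : Ω.Nonempty)
    (h : Ω ⊆ Ω') : lam p Ω' ≤ lam p Ω :=
  le_lam hp hΩ hne fun u hu => lam_mul_le hp hu.1 hu.2.1 (hu.2.2.1.trans h)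

theorem lipC_abs_rpow {q : ℝ} (hq : 1 < q) {Ω : Set E} {u : E → ℝ} (hu : IsTest Ω u) :
    LipC Ω (fun y => |u y| ^ q) := by
  obtain ⟨h1, h2, h3, -⟩ := hu
  have hC : ContDiff ℝ 1 (fun y => |u y| ^ q) := by
    have := h1.norm_rpow hq
    simpa only [Real.norm_eq_abs] using this
  refine ⟨ContDiff.lipschitzWith_of_hasCompactSupport (supp_abs_rpow hq h2) hC one_ne_zero,
    supp_abs_rpow hq h2, ?_⟩
  refine Subset.trans ?_ h3
  exact tsupport_comp_subset (g := fun t : ℝ => |t| ^ q)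
    (by simp only [abs_zero]; exact Real.zero_rpow (by linarith)) u

/-- a function continuous on an open set `Ω` and vanishing off a closed subset is continuous -/
private theorem cont_of_support {F : Type*} [TopologicalSpace F] [Zero F] {Ω K : Set E}
    (hΩ : IsOpen Ω) (hK : IsClosed K) (hKΩ : K ⊆ Ω) {f : E → F} (hf : ContinuousOn f Ω)
    (h0 : ∀ x, x ∉ K → f x = 0) : Continuous f := by
  rw [continuous_iff_continuousAt]
  intro x
  by_cases hx : x ∈ K
  · exact hf.continuousAt (hΩ.mem_nhds (hKΩ hx))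
  · have hev : f =ᶠ[𝓝 x] fun _ => 0 := by
      filter_upwards [hK.isOpen_compl.mem_nhds hx] with y hy using h0 y hy
    exact continuousAt_const.congr hev.symm

theorem young_step {q : ℝ} (hq : 1 < q) {Ω : Set E} (hΩ : IsOpen Ω) {S : E → E}
    (hS : ContinuousOn S Ω) {u : E → ℝ} (hu : IsTest Ω u) :
    - ∫ x, ⟪S x, gradient (fun y => |u y| ^ q) x⟫ ≤
      (∫ x, ‖fderiv ℝ u x‖ ^ q) + (q - 1) * ∫ x, ‖S x‖ ^ (q / (q - 1)) * |u x| ^ q := by
  obtain ⟨h1, h2, h3, -⟩ := hu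
  have hq0 : 0 < q := by linarith
  have hq1 : 0 < q - 1 := by linarith
  have hq' : 0 < q / (q - 1) := div_pos hq0 hq1
  -- integrability of the right side
  have i1 : Integrable (fun x => ‖fderiv ℝ u x‖ ^ q) :=
    (cont_fderiv_rpow hq h1).integrable_of_hasCompactSupport (supp_fderiv_rpow hq h2)
  have z2 : ∀ x, x ∉ tsupport u → ‖S x‖ ^ (q / (q - 1)) * |u x| ^ q = 0 := by
    intro x hx
    rw [image_eq_zero_of_notMem_tsupport hx, abs_zero, Real.zero_rpow hq0.ne', mul_zero]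
  have c2 : Continuous (fun x => ‖S x‖ ^ (q / (q - 1)) * |u x| ^ q) := by
    refine cont_of_support hΩ (isClosed_tsupport u) h3 ?_ z2
    exact (hS.norm.rpow_const fun _ _ => Or.inr hq'.le).mul (cont_abs_rpow hq h1).continuousOn
  have i2 : Integrable (fun x => ‖S x‖ ^ (q / (q - 1)) * |u x| ^ q) :=
    c2.integrable_of_hasCompactSupport (HasCompactSupport.intro' h2 (isClosed_tsupport u) z2)
  -- pointwise bound
  have hpt : ∀ x, - ⟪S x, gradient (fun y => |u y| ^ q) x⟫ ≤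
      ‖fderiv ℝ u x‖ ^ q + (q - 1) * (‖S x‖ ^ (q / (q - 1)) * |u x| ^ q) := by
    intro x
    have hg : ‖gradient (fun y => |u y| ^ q) x‖ ≤ q * |u x| ^ (q - 1) * ‖fderiv ℝ u x‖ := by
      have := norm_fderiv_norm_rpow_le (f := u) (x := x) (h1.differentiable one_ne_zero) hq
      simp only [Real.norm_eq_abs] at this
      rw [gradient, LinearIsometryEquiv.norm_map]
      exact this
    have h4 : - ⟪S x, gradient (fun y => |u y| ^ q) x⟫ ≤
        ‖S x‖ * ‖gradient (fun y => |u y| ^ q) x‖ := by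
      have := abs_real_inner_le_norm (S x) (gradient (fun y => |u y| ^ q) x)
      exact (neg_le_abs _).trans this
    have hpq : q.HolderConjugate (q / (q - 1)) := by
      have := Real.HolderConjugate.conjExponent hq
      simpa [Real.conjExponent] using this
    set a := ‖fderiv ℝ u x‖ with ha
    set b := ‖S x‖ * |u x| ^ (q - 1) with hb
    have hb0 : 0 ≤ b := by positivity
    have ha0 : 0 ≤ a := norm_nonneg _
    have h5 := Real.young_inequality_of_nonneg ha0 hb0 hpq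
    have h6 : q * (a * b) ≤ a ^ q + (q - 1) * b ^ (q / (q - 1)) := by
      have := mul_le_mul_of_nonneg_left h5 hq0.le
      have e2 : q * (a ^ q / q + b ^ (q / (q - 1)) / (q / (q - 1))) =
          a ^ q + (q - 1) * b ^ (q / (q - 1)) := by
        field_simp
      rwa [e2] at this
    have e3 : b ^ (q / (q - 1)) = ‖S x‖ ^ (q / (q - 1)) * |u x| ^ q := by
      rw [hb, Real.mul_rpow (norm_nonneg _) (Real.rpow_nonneg (abs_nonneg _) _),
        ← Real.rpow_mul (abs_nonneg _)]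
      congr 2
      field_simp
    rw [← e3]
    calc - ⟪S x, gradient (fun y => |u y| ^ q) x⟫
        ≤ ‖S x‖ * ‖gradient (fun y => |u y| ^ q) x‖ := h4
      _ ≤ ‖S x‖ * (q * |u x| ^ (q - 1) * a) := by gcongr
      _ = q * (a * b) := by rw [hb]; ring
      _ ≤ _ := h6
  have hR : (∫ x, ‖fderiv ℝ u x‖ ^ q) + (q - 1) * ∫ x, ‖S x‖ ^ (q / (q - 1)) * |u x| ^ q =
      ∫ x, (‖fderiv ℝ u x‖ ^ q + (q - 1) * (‖S x‖ ^ (q / (q - 1)) * |u x| ^ q)) := by
    rw [integral_add i1 (i2.const_mul _), integral_const_mul]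
  rw [hR]
  by_cases hI : Integrable (fun x => ⟪S x, gradient (fun y => |u y| ^ q) x⟫)
  · rw [← integral_neg]
    exact integral_mono hI.neg (i1.add (i2.const_mul _)) hpt
  · rw [integral_undef hI, neg_zero]
    exact integral_nonneg fun x => by positivity

end PLap
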