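import Pool.Agent.Lib.MP_a627f3_an.VecA
import Pool.Agent.Lib.MP_a627f3_an.Lip
import Pool.Agent.Lib.MP_a627f3_an.Rayl
import Pool.Agent.Lib.MP_a627f3_an.ConvA
import Pool.Agent.Lib.MP_a627f3_an.ConvD

open MeasureTheory Set Filter Topology Metric
open scoped RealInnerProductSpace ENNReal NNReal

namespace PLap

variable {E : Type*} [NormedAddCommGroup E] [InnerProductSpace ℝ E] [FiniteDimensional ℝ E]
  [CompleteSpace E] [MeasurableSpace E] [BorelSpace E]

namespace BoundsAux

omit [CompleteSpace E] in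
/-- A function continuous on a bounded open set and bounded there is integrable there. -/
theorem integrableOn_of_cont {Ω : Set E} (hΩ : IsOpen Ω) (hb : Bornology.IsBounded Ω) {f : E → ℝ}
    (hf : ContinuousOn f Ω) {M : ℝ} (hM : ∀ x ∈ Ω, |f x| ≤ M) : IntegrableOn f Ω := by
  have hfin : volume Ω < ∞ := hb.measure_lt_top
  refine ⟨hf.aestronglyMeasurable hΩ.measurableSet, ?_⟩
  refine HasFiniteIntegral.restrict_of_bounded (C := M) hfin ?_
  filter_upwards [ae_restrict_mem hΩ.measurableSet] with x hx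
  exact hM x hx

theorem t_exp_le {p : ℝ} (hp : 0 < p) (t : ℝ) : t * Real.exp (-p * t) ≤ 1 / p := by
  have h1 : p * t + 1 ≤ Real.exp (p * t) := Real.add_one_le_exp _
  have h2 : p * t * Real.exp (-p * t) ≤ 1 := by
    have h3 : Real.exp (p * t) * Real.exp (-p * t) = 1 := by
      rw [← Real.exp_add]
      simp
    have h4 := Real.exp_pos (-p * t)
    nlinarith
  rw [le_div_iff₀ hp]
  linarith

theorem bern {s : ℝ} (h0 : 0 ≤ s) (d : ℕ) : 1 - s ^ d ≤ d * (1 - s) := by
  have h := one_add_mul_le_pow (a := s - 1) (by linarith) d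
  have h2 : (1 + (s - 1)) = s := by ring
  rw [h2] at h
  linarith

end BoundsAux

open BoundsAux

theorem dilation {p : ℝ} (hp : 0 < p) {Ω : Set E} (hΩ : IsOpen Ω) (hb : Bornology.IsBounded Ω)
    {v : E → ℝ} (hv : ConvexOn ℝ Ω v) {x₀ : E} (hx₀ : x₀ ∈ Ω) (hmin : ∀ x ∈ Ω, v x₀ ≤ v x) :
    p * ∫ x in Ω, (v x - v x₀) * Real.exp (-p * v x) ≤
      (Module.finrank ℝ E : ℝ) * ∫ x in Ω, Real.exp (-p * v x) := by
  set d : ℕ := Module.finrank ℝ E with hd
  have hvc : ContinuousOn v Ω := hv.continuousOn hΩ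
  have hec : ContinuousOn (fun x => Real.exp (-p * v x)) Ω :=
    Real.continuous_exp.comp_continuousOn (continuousOn_const.mul hvc)
  have hI : IntegrableOn (fun x => Real.exp (-p * v x)) Ω := by
    refine integrableOn_of_cont hΩ hb hec (M := Real.exp (-p * v x₀)) fun x hx => ?_
    rw [abs_of_pos (Real.exp_pos _)]
    refine Real.exp_le_exp.2 ?_
    have := hmin x hx
    nlinarith
  have hA : IntegrableOn (fun x => (v x - v x₀) * Real.exp (-p * v x)) Ω := by
    refine integrableOn_of_cont hΩ hb ((hvc.sub continuousOn_const).mul hec)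
      (M := 1 / p * Real.exp (-p * v x₀)) fun x hx => ?_
    have h0 : 0 ≤ v x - v x₀ := by linarith [hmin x hx]
    rw [abs_of_nonneg (mul_nonneg h0 (Real.exp_pos _).le)]
    have h1 : Real.exp (-p * v x) = Real.exp (-p * (v x - v x₀)) * Real.exp (-p * v x₀) := by
      rw [← Real.exp_add]
      congr 1
      ring
    rw [h1, ← mul_assoc]
    exact mul_le_mul_of_nonneg_right (t_exp_le hp _) (Real.exp_pos _).le
  set I : ℝ := ∫ x in Ω, Real.exp (-p * v x) with hIdef
  set A : ℝ := ∫ x in Ω, (v x - v x₀) * Real.exp (-p * v x) with hAdef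
  have hI0 : 0 ≤ I := setIntegral_nonneg hΩ.measurableSet fun x _ => (Real.exp_pos _).le
  -- the key inequality
  have key : ∀ s : ℝ, 0 < s → s < 1 → s ^ d * (p * A) ≤ d * I := by
    intro s hs0 hs1
    set F : E → ℝ := Ω.indicator fun x => Real.exp (-p * v x) with hF
    have hFint : Integrable F := (integrable_indicator_iff hΩ.measurableSet).2 hI
    have hFI : ∫ x, F x = I := by rw [hF, integral_indicator hΩ.measurableSet]
    have hG : Integrable (fun y => F (x₀ + s • (y - x₀))) := by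
      have h1 : Integrable (fun w => F (x₀ + w)) := hFint.comp_add_left x₀
      have h2 : Integrable (fun z => F (x₀ + s • z)) := h1.comp_smul hs0.ne'
      exact h2.comp_sub_right x₀
    have hGI : ∫ y, F (x₀ + s • (y - x₀)) = (s ^ d)⁻¹ * I := by
      rw [integral_sub_right_eq_self (fun z => F (x₀ + s • z)) x₀,
        Measure.integral_comp_smul volume (fun w => F (x₀ + w)) s,
        integral_add_left_eq_self F x₀, hFI, smul_eq_mul, abs_of_pos (by positivity)]
    set H : E → ℝ := Ω.indicator fun x =>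
      Real.exp (-p * v x) + p * (1 - s) * ((v x - v x₀) * Real.exp (-p * v x)) with hH
    have hHint0 : IntegrableOn (fun x =>
        Real.exp (-p * v x) + p * (1 - s) * ((v x - v x₀) * Real.exp (-p * v x))) Ω :=
      hI.add (hA.const_mul _)
    have hHint : Integrable H := (integrable_indicator_iff hΩ.measurableSet).2 hHint0
    have hHI : ∫ x, H x = I + p * (1 - s) * A := by
      rw [hH, integral_indicator hΩ.measurableSet, integral_add hI (hA.const_mul _),
        integral_const_mul]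
    have hle : ∀ y, H y ≤ F (x₀ + s • (y - x₀)) := by
      intro y
      have hFnn : ∀ z, 0 ≤ F z := fun z => indicator_nonneg (fun x _ => (Real.exp_pos _).le) z
      by_cases hy : y ∈ Ω
      · have hz : x₀ + s • (y - x₀) = (1 - s) • x₀ + s • y := by
          rw [smul_sub, sub_smul, one_smul]
          abel
        have hmem : (1 - s) • x₀ + s • y ∈ Ω :=
          hv.1 hx₀ hy (by linarith) hs0.le (by ring)
        have hcv : v ((1 - s) • x₀ + s • y) ≤ (1 - s) * v x₀ + s * v y := by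
          have := hv.2 hx₀ hy (by linarith : (0 : ℝ) ≤ 1 - s) hs0.le (by ring)
          simpa [smul_eq_mul] using this
        rw [hz, hH, hF, indicator_of_mem hy, indicator_of_mem hmem]
        have h1 : Real.exp (-p * v y) * Real.exp (p * (1 - s) * (v y - v x₀)) ≤
            Real.exp (-p * v ((1 - s) • x₀ + s • y)) := by
          rw [← Real.exp_add]
          refine Real.exp_le_exp.2 ?_
          nlinarith
        have h2 : 1 + p * (1 - s) * (v y - v x₀) ≤ Real.exp (p * (1 - s) * (v y - v x₀)) := by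
          have := Real.add_one_le_exp (p * (1 - s) * (v y - v x₀))
          linarith
        refine le_trans ?_ h1
        have h3 := mul_le_mul_of_nonneg_left h2 (Real.exp_pos (-p * v y)).le
        calc Real.exp (-p * v y) + p * (1 - s) * ((v y - v x₀) * Real.exp (-p * v y))
            = Real.exp (-p * v y) * (1 + p * (1 - s) * (v y - v x₀)) := by ring
          _ ≤ _ := h3
      · rw [hH, indicator_of_notMem hy]
        exact hFnn _
    have h1 : I + p * (1 - s) * A ≤ (s ^ d)⁻¹ * I := by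
      rw [← hHI, ← hGI]
      exact integral_mono hHint hG hle
    have hsd : 0 < s ^ d := by positivity
    have h2 : s ^ d * (I + p * (1 - s) * A) ≤ I := by
      have := mul_le_mul_of_nonneg_left h1 hsd.le
      rwa [← mul_assoc, mul_inv_cancel₀ hsd.ne', one_mul] at this
    have h3 := bern hs0.le d
    have h4 : (1 - s) * (s ^ d * (p * A)) ≤ (1 - s) * (d * I) := by
      have h5 : (1 - s ^ d) * I ≤ d * (1 - s) * I := mul_le_mul_of_nonneg_right h3 hI0
      nlinarith
    exact le_of_mul_le_mul_left h4 (by linarith)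
  have hlim : Tendsto (fun s : ℝ => s ^ d * (p * A)) (𝓝[<] 1) (𝓝 (1 ^ d * (p * A))) :=
    (((continuous_id.pow d).mul continuous_const).tendsto 1).mono_left nhdsWithin_le_nhds
  have hfinal : (1 : ℝ) ^ d * (p * A) ≤ d * I := by
    refine le_of_tendsto hlim ?_
    have hmem : Ioo (0 : ℝ) 1 ∈ 𝓝[<] (1 : ℝ) := Ioo_mem_nhdsLT one_pos
    filter_upwards [hmem] with s hs
    exact key s hs.1 hs.2
  rw [one_pow, one_mul] at hfinal
  exact hfinal

namespace BoundsAux

/-- The integrand of the truncation. -/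
noncomputable def gT (τ y : ℝ) : ℝ := max 0 (min 1 (y / τ - 1))

theorem gT_cont (τ : ℝ) : Continuous (gT τ) := by
  unfold gT
  fun_prop

theorem gT_nonneg (τ y : ℝ) : 0 ≤ gT τ y := le_max_left _ _

theorem gT_le_one (τ y : ℝ) : gT τ y ≤ 1 := max_le zero_le_one (min_le_left _ _)

theorem gT_zero {τ y : ℝ} (hτ : 0 < τ) (hy : y ≤ τ) : gT τ y = 0 := by
  unfold gT
  have h : y / τ ≤ 1 := (div_le_one hτ).2 hy
  have h2 : min 1 (y / τ - 1) ≤ 0 := le_trans (min_le_right _ _) (by linarith)
  exact max_eq_left h2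

theorem gT_one {τ y : ℝ} (hτ : 0 < τ) (hy : 2 * τ ≤ y) : gT τ y = 1 := by
  unfold gT
  have h : 2 ≤ y / τ := (le_div_iff₀ hτ).2 hy
  rw [min_eq_left (by linarith)]
  exact max_eq_right zero_le_one

/-- The truncation. -/
noncomputable def chT (τ s : ℝ) : ℝ := ∫ y in (0 : ℝ)..s, gT τ y

theorem chT_hasDeriv (τ s : ℝ) : HasDerivAt (chT τ) (gT τ s) s :=
  ((gT_cont τ).integral_hasStrictDerivAt 0 s).hasDerivAt

theorem chT_contDiff (τ : ℝ) : ContDiff ℝ 1 (chT τ) := by
  rw [contDiff_one_iff_deriv]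
  refine ⟨fun s => (chT_hasDeriv τ s).differentiableAt, ?_⟩
  have : deriv (chT τ) = gT τ := by
    funext s
    exact (chT_hasDeriv τ s).deriv
  rw [this]
  exact gT_cont τ

theorem chT_nonneg {τ s : ℝ} (hs : 0 ≤ s) : 0 ≤ chT τ s :=
  intervalIntegral.integral_nonneg hs fun y _ => gT_nonneg τ y

theorem chT_le {τ s : ℝ} (hs : 0 ≤ s) : chT τ s ≤ s := by
  have h : chT τ s ≤ ∫ _ in (0 : ℝ)..s, (1 : ℝ) := by
    refine intervalIntegral.integral_mono_on hs ((gT_cont τ).intervalIntegrable _ _)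
      (continuous_const.intervalIntegrable _ _) fun y _ => gT_le_one τ y
  simpa using h

theorem chT_zero {τ s : ℝ} (hτ : 0 < τ) (hs : 0 ≤ s) (hsτ : s ≤ τ) : chT τ s = 0 := by
  unfold chT
  have h : ∫ y in (0 : ℝ)..s, gT τ y = ∫ _ in (0 : ℝ)..s, (0 : ℝ) := by
    refine intervalIntegral.integral_congr fun y hy => ?_
    rw [uIcc_of_le hs] at hy
    exact gT_zero hτ (hy.2.trans hsτ)
  rw [h]
  simp

theorem le_chT {τ s : ℝ} (hτ : 0 < τ) (hs : 0 ≤ s) : s - 2 * τ ≤ chT τ s := by
  by_cases h : s < 2 * τ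
  · have := chT_nonneg (τ := τ) hs
    linarith
  · push Not at h
    have h1 : chT τ s = (∫ y in (0 : ℝ)..(2 * τ), gT τ y) + ∫ y in (2 * τ)..s, gT τ y :=
      (intervalIntegral.integral_add_adjacent_intervals ((gT_cont τ).intervalIntegrable _ _)
        ((gT_cont τ).intervalIntegrable _ _)).symm
    have h2 : ∫ y in (2 * τ)..s, gT τ y = ∫ _ in (2 * τ)..s, (1 : ℝ) := by
      refine intervalIntegral.integral_congr fun y hy => ?_
      rw [uIcc_of_le h] at hy
      exact gT_one hτ hy.1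
    have h3 : 0 ≤ ∫ y in (0 : ℝ)..(2 * τ), gT τ y :=
      intervalIntegral.integral_nonneg (by linarith) fun y _ => gT_nonneg τ y
    rw [h1, h2]
    simp only [intervalIntegral.integral_const, smul_eq_mul, mul_one]
    linarith

end BoundsAux

omit [FiniteDimensional ℝ E] [CompleteSpace E] [MeasurableSpace E] [BorelSpace E] in
theorem Reg.exists_min {Ω : Set E} {v : E → ℝ} (hv : Reg Ω v) : ∃ x₀ ∈ Ω, ∀ x ∈ Ω, v x₀ ≤ v x := by
  obtain ⟨y, hy⟩ := hv.nonempty
  obtain ⟨K, hK, hKΩ, hKv⟩ := hv.coer (v y)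
  have hK' : IsCompact (insert y K) := hK.insert y
  have hsub : insert y K ⊆ Ω := insert_subset hy hKΩ
  obtain ⟨x₀, hx₀, hmin⟩ := hK'.exists_isMinOn ⟨y, mem_insert _ _⟩ (hv.c1.continuousOn.mono hsub)
  refine ⟨x₀, hsub hx₀, fun x hx => ?_⟩
  by_cases hxK : x ∈ K
  · exact hmin (mem_insert_of_mem _ hxK)
  · exact le_trans (hmin (mem_insert _ _)) (hKv x ⟨hx, hxK⟩)

theorem energy_lam {p : ℝ} (hp : 1 < p) {Ω : Set E} {v : E → ℝ} (hv : Reg Ω v)
    (hfin : IntegrableOn (fun x => ‖gradient v x‖ ^ p * Real.exp (-p * v x)) Ω) :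
    lam p Ω * ∫ x in Ω, Real.exp (-p * v x) ≤
      ∫ x in Ω, ‖gradient v x‖ ^ p * Real.exp (-p * v x) := by
  classical
  have hp0 : 0 < p := by linarith
  have hΩ := hv.isOpen
  have hvc : ContinuousOn v Ω := hv.c1.continuousOn
  obtain ⟨x₀, hx₀, hmin⟩ := hv.exists_min
  have hexp : ∀ x, Real.exp (-p * v x) = Real.exp (-v x) ^ p := by
    intro x
    rw [← Real.exp_mul]
    congr 1
    ring
  have hIint : IntegrableOn (fun x => Real.exp (-p * v x)) Ω := by
    refine integrableOn_of_cont hΩ hv.bdd (Real.continuous_exp.comp_continuousOn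
      (continuousOn_const.mul hvc)) (M := Real.exp (-p * v x₀)) fun x hx => ?_
    rw [abs_of_pos (Real.exp_pos _)]
    refine Real.exp_le_exp.2 ?_
    have := hmin x hx
    nlinarith
  -- the truncated functions
  let U : ℝ → E → ℝ := fun τ => Ω.indicator fun x => chT τ (Real.exp (-v x))
  have hUΩ : ∀ τ, ∀ x ∈ Ω, U τ x = chT τ (Real.exp (-v x)) := fun τ x hx => indicator_of_mem hx _
  have hUn : ∀ τ, ∀ x, x ∉ Ω → U τ x = 0 := fun τ x hx => indicator_of_notMem hx _
  -- supports
  have hsupp : ∀ τ : ℝ, 0 < τ → ∃ K : Set E, IsCompact K ∧ K ⊆ Ω ∧ ∀ x, x ∉ K → U τ x = 0 := by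
    intro τ hτ
    obtain ⟨K, hK, hKΩ, hKv⟩ := hv.coer (-Real.log τ)
    refine ⟨K, hK, hKΩ, fun x hx => ?_⟩
    by_cases hxΩ : x ∈ Ω
    · rw [hUΩ τ x hxΩ]
      refine chT_zero hτ (Real.exp_pos _).le ?_
      have h1 := hKv x ⟨hxΩ, hx⟩
      calc Real.exp (-v x) ≤ Real.exp (Real.log τ) := Real.exp_le_exp.2 (by linarith)
        _ = τ := Real.exp_log hτ
    · exact hUn τ x hxΩ
  have hdiffv : ∀ x ∈ Ω, DifferentiableAt ℝ v x := fun x hx =>
    (hv.c1.differentiableOn one_ne_zero).differentiableAt (hΩ.mem_nhds hx)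
  have hev : ∀ τ, ∀ x ∈ Ω, U τ =ᶠ[𝓝 x] fun y => chT τ (Real.exp (-v y)) := by
    intro τ x hx
    filter_upwards [hΩ.mem_nhds hx] with y hy
    exact hUΩ τ y hy
  have hC1 : ∀ τ : ℝ, 0 < τ → ContDiff ℝ 1 (U τ) := by
    intro τ hτ
    obtain ⟨K, hK, hKΩ, hKU⟩ := hsupp τ hτ
    rw [contDiff_iff_contDiffAt]
    intro x
    by_cases hx : x ∈ Ω
    · have h1 : ContDiffAt ℝ 1 v x := hv.c1.contDiffAt (hΩ.mem_nhds hx)
      have h2 : ContDiffAt ℝ 1 (fun y => chT τ (Real.exp (-v y))) x :=
        (chT_contDiff τ).contDiffAt.comp x (Real.contDiff_exp.contDiffAt.comp x h1.neg)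
      exact h2.congr_of_eventuallyEq (hev τ x hx)
    · have hxK : x ∈ Kᶜ := fun h => hx (hKΩ h)
      have h2 : U τ =ᶠ[𝓝 x] fun _ => (0 : ℝ) := by
        filter_upwards [hK.isClosed.isOpen_compl.mem_nhds hxK] with y hy
        exact hKU y hy
      exact contDiffAt_const.congr_of_eventuallyEq h2
  have htsupp : ∀ τ : ℝ, 0 < τ → HasCompactSupport (U τ) ∧ tsupport (U τ) ⊆ Ω := by
    intro τ hτ
    obtain ⟨K, hK, hKΩ, hKU⟩ := hsupp τ hτ
    have h1 : tsupport (U τ) ⊆ K := by
      refine closure_minimal (fun x hx => ?_) hK.isClosed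
      by_contra hxK
      exact hx (hKU x hxK)
    exact ⟨HasCompactSupport.intro hK hKU, h1.trans hKΩ⟩
  have hfd : ∀ τ : ℝ, 0 < τ → ∀ x, ‖fderiv ℝ (U τ) x‖ ^ p ≤
      Ω.indicator (fun x => ‖gradient v x‖ ^ p * Real.exp (-p * v x)) x := by
    intro τ hτ x
    obtain ⟨K, hK, hKΩ, hKU⟩ := hsupp τ hτ
    by_cases hx : x ∈ Ω
    · rw [indicator_of_mem hx, (hev τ x hx).fderiv_eq]
      have h1 : HasFDerivAt (fun y => Real.exp (-v y)) (Real.exp (-v x) • -fderiv ℝ v x) x :=
        ((hdiffv x hx).hasFDerivAt.neg).exp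
      have h2 : HasFDerivAt (fun y => chT τ (Real.exp (-v y)))
          (gT τ (Real.exp (-v x)) • (Real.exp (-v x) • -fderiv ℝ v x)) x :=
        (chT_hasDeriv τ _).comp_hasFDerivAt x h1
      rw [h2.fderiv, norm_smul, norm_smul, norm_neg, Real.norm_eq_abs, Real.norm_eq_abs,
        abs_of_pos (Real.exp_pos _), abs_of_nonneg (gT_nonneg _ _)]
      have h3 : ‖gradient v x‖ = ‖fderiv ℝ v x‖ := by
        unfold gradient
        exact LinearIsometryEquiv.norm_map _ _
      have h5 : 0 ≤ Real.exp (-v x) * ‖fderiv ℝ v x‖ :=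
        mul_nonneg (Real.exp_pos _).le (norm_nonneg _)
      have h4 : gT τ (Real.exp (-v x)) * (Real.exp (-v x) * ‖fderiv ℝ v x‖) ≤
          Real.exp (-v x) * ‖fderiv ℝ v x‖ :=
        mul_le_of_le_one_left h5 (gT_le_one _ _)
      calc (gT τ (Real.exp (-v x)) * (Real.exp (-v x) * ‖fderiv ℝ v x‖)) ^ p
          ≤ (Real.exp (-v x) * ‖fderiv ℝ v x‖) ^ p :=
            Real.rpow_le_rpow (mul_nonneg (gT_nonneg _ _) h5) h4 hp0.le
        _ = ‖gradient v x‖ ^ p * Real.exp (-p * v x) := by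
            rw [Real.mul_rpow (Real.exp_pos _).le (norm_nonneg _), h3, hexp]
            ring
    · have hxK : x ∈ Kᶜ := fun h => hx (hKΩ h)
      have h2 : U τ =ᶠ[𝓝 x] fun _ => (0 : ℝ) := by
        filter_upwards [hK.isClosed.isOpen_compl.mem_nhds hxK] with y hy
        exact hKU y hy
      rw [h2.fderiv_eq, indicator_of_notMem hx]
      simp [Real.zero_rpow hp0.ne']
  have hstep : ∀ τ : ℝ, 0 < τ → lam p Ω * ∫ x, |U τ x| ^ p ≤
      ∫ x in Ω, ‖gradient v x‖ ^ p * Real.exp (-p * v x) := by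
    intro τ hτ
    refine (lam_mul_le hp (hC1 τ hτ) (htsupp τ hτ).1 (htsupp τ hτ).2).trans ?_
    rw [← integral_indicator hΩ.measurableSet]
    refine integral_mono_of_nonneg (Eventually.of_forall fun x => ?_)
      ((integrable_indicator_iff hΩ.measurableSet).2 hfin) (Eventually.of_forall (hfd τ hτ))
    exact Real.rpow_nonneg (norm_nonneg _) _
  -- limit
  let τs : ℕ → ℝ := fun n => 1 / ((n : ℝ) + 1)
  have hτs : ∀ n, 0 < τs n := fun n => Nat.one_div_pos_of_nat
  have hτlim : Tendsto τs atTop (𝓝 0) := tendsto_one_div_add_atTop_nhds_zero_nat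
  have hlim : Tendsto (fun n => ∫ x, |U (τs n) x| ^ p) atTop
      (𝓝 (∫ x, Ω.indicator (fun x => Real.exp (-p * v x)) x)) := by
    refine tendsto_integral_of_dominated_convergence
      (Ω.indicator (fun x => Real.exp (-p * v x))) (fun n => ?_)
      ((integrable_indicator_iff hΩ.measurableSet).2 hIint) (fun n => ?_) ?_
    · have h1 : Continuous (U (τs n)) := (hC1 _ (hτs n)).continuous
      exact (h1.abs.rpow_const fun x => Or.inr hp0.le).aestronglyMeasurable
    · refine Eventually.of_forall fun x => ?_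
      rw [Real.norm_eq_abs, abs_of_nonneg (Real.rpow_nonneg (abs_nonneg _) _)]
      by_cases hx : x ∈ Ω
      · rw [indicator_of_mem hx, hUΩ _ x hx, hexp,
          abs_of_nonneg (chT_nonneg (Real.exp_pos _).le)]
        exact Real.rpow_le_rpow (chT_nonneg (Real.exp_pos _).le) (chT_le (Real.exp_pos _).le)
          hp0.le
      · rw [indicator_of_notMem hx, hUn _ x hx, abs_zero, Real.zero_rpow hp0.ne']
    · refine Eventually.of_forall fun x => ?_
      by_cases hx : x ∈ Ω
      · rw [indicator_of_mem hx, hexp]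
        have h1 : Tendsto (fun n => chT (τs n) (Real.exp (-v x))) atTop
            (𝓝 (Real.exp (-v x))) := by
          have h2 : Tendsto (fun n => Real.exp (-v x) - 2 * τs n) atTop
              (𝓝 (Real.exp (-v x) - 2 * 0)) := tendsto_const_nhds.sub (hτlim.const_mul 2)
          rw [mul_zero, sub_zero] at h2
          exact tendsto_of_tendsto_of_tendsto_of_le_of_le h2 tendsto_const_nhds
            (fun n => le_chT (hτs n) (Real.exp_pos _).le) (fun n => chT_le (Real.exp_pos _).le)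
        have h3 := (h1.rpow_const (p := p) (Or.inr hp0.le))
        refine h3.congr fun n => ?_
        rw [hUΩ _ x hx, abs_of_nonneg (chT_nonneg (Real.exp_pos _).le)]
      · rw [indicator_of_notMem hx]
        refine tendsto_const_nhds.congr fun n => ?_
        rw [hUn _ x hx, abs_zero, Real.zero_rpow hp0.ne']
  rw [integral_indicator hΩ.measurableSet] at hlim
  exact le_of_tendsto (hlim.const_mul _) (Eventually.of_forall fun n => hstep _ (hτs n))

theorem vmin_gt {p δ : ℝ} (hp : 1 < p) (hδ : 0 < δ) {Ω : Set E} {v : E → ℝ} (hv : Reg Ω v)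
    (h0 : ∀ x ∈ Ω, 0 ≤ v x)
    (hfin : IntegrableOn (fun x => ‖gradient v x‖ ^ p * Real.exp (-p * v x)) Ω)
    (hJ : Jf p (lam p Ω - δ * (Module.finrank ℝ E + 2) / p) δ Ω v < 0) :
    ∀ x ∈ Ω, 1 / p < v x := by
  have hp0 : 0 < p := by linarith
  have hΩ := hv.isOpen
  have hvc : ContinuousOn v Ω := hv.c1.continuousOn
  obtain ⟨x₀, hx₀, hmin⟩ := hv.exists_min
  have hec : ContinuousOn (fun x => Real.exp (-p * v x)) Ω :=
    Real.continuous_exp.comp_continuousOn (continuousOn_const.mul hvc)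
  have hIint : IntegrableOn (fun x => Real.exp (-p * v x)) Ω := by
    refine integrableOn_of_cont hΩ hv.bdd hec (M := 1) fun x hx => ?_
    rw [abs_of_pos (Real.exp_pos _), Real.exp_le_one_iff]
    have := h0 x hx
    nlinarith
  have hBint : IntegrableOn (fun x => v x * Real.exp (-p * v x)) Ω := by
    refine integrableOn_of_cont hΩ hv.bdd (hvc.mul hec) (M := 1 / p) fun x hx => ?_
    rw [abs_of_nonneg (mul_nonneg (h0 x hx) (Real.exp_pos _).le)]
    exact t_exp_le hp0 _
  set d : ℝ := (Module.finrank ℝ E : ℝ) with hd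
  set I : ℝ := ∫ x in Ω, Real.exp (-p * v x) with hI
  set B : ℝ := ∫ x in Ω, v x * Real.exp (-p * v x) with hB
  set G : ℝ := ∫ x in Ω, ‖gradient v x‖ ^ p * Real.exp (-p * v x) with hG
  have hI0 : 0 ≤ I := setIntegral_nonneg hΩ.measurableSet fun x _ => (Real.exp_pos _).le
  have hE : lam p Ω * I ≤ G := energy_lam hp hv hfin
  have hJeq : Jf p (lam p Ω - δ * (d + 2) / p) δ Ω v =
      G - (lam p Ω - δ * (d + 2) / p + δ / p) * I - δ * B := by
    unfold Jf
    have h1 : ∀ x, (‖gradient v x‖ ^ p - (lam p Ω - δ * (d + 2) / p + δ / p + δ * v x)) *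
        Real.exp (-p * v x) = ‖gradient v x‖ ^ p * Real.exp (-p * v x) -
        (lam p Ω - δ * (d + 2) / p + δ / p) * Real.exp (-p * v x) -
        δ * (v x * Real.exp (-p * v x)) := fun x => by ring
    simp_rw [h1]
    have hi1 : IntegrableOn (fun x => ‖gradient v x‖ ^ p * Real.exp (-p * v x) -
        (lam p Ω - δ * (d + 2) / p + δ / p) * Real.exp (-p * v x)) Ω :=
      hfin.sub (hIint.const_mul _)
    have hi2 : IntegrableOn (fun x => δ * (v x * Real.exp (-p * v x))) Ω := hBint.const_mul _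
    have hi3 : IntegrableOn (fun x =>
        (lam p Ω - δ * (d + 2) / p + δ / p) * Real.exp (-p * v x)) Ω := hIint.const_mul _
    rw [integral_sub hi1 hi2, integral_sub hfin hi3, integral_const_mul, integral_const_mul]
  have hdil := dilation hp0 hΩ hv.bdd hv.cvx hx₀ hmin
  have hdil2 : p * (B - v x₀ * I) ≤ d * I := by
    have h1 : ∫ x in Ω, (v x - v x₀) * Real.exp (-p * v x) = B - v x₀ * I := by
      simp_rw [sub_mul]
      rw [integral_sub hBint (hIint.const_mul _), integral_const_mul]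
    rw [← h1]
    exact hdil
  have h1 : G - (lam p Ω - δ * (d + 2) / p + δ / p) * I - δ * B < 0 := by
    rw [← hJeq]
    exact hJ
  have h2 : δ * ((d + 1) / p * I - B) < 0 := by
    have h3 : (lam p Ω - δ * (d + 2) / p + δ / p) * I = lam p Ω * I - δ * ((d + 1) / p) * I := by
      field_simp
      ring
    rw [h3] at h1
    nlinarith
  have h3 : (d + 1) / p * I - B < 0 := by
    by_contra h
    push Not at h
    have := mul_nonneg hδ.le h
    linarith
  have h4 : (d + 1) * I < p * B := by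
    have h5 : (d + 1) / p * I < B := by linarith
    have h6 := mul_lt_mul_of_pos_left h5 hp0
    have h7 : p * ((d + 1) / p * I) = (d + 1) * I := by
      field_simp
    rwa [h7] at h6
  have h5 : (1 - p * v x₀) * I < 0 := by nlinarith
  have h6 : 1 < p * v x₀ := by
    by_contra h
    push Not at h
    have := mul_nonneg (by linarith : 0 ≤ 1 - p * v x₀) hI0
    linarith
  intro x hx
  have h7 : 1 / p < v x₀ := by
    rw [div_lt_iff₀ hp0]
    linarith
  exact lt_of_lt_of_le h7 (hmin x hx)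

end PLap
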