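import Pool.Agent.Lib.MP_a627f3_an.Lip

open MeasureTheory Set Filter Topology Metric
open scoped RealInnerProductSpace ENNReal NNReal

namespace PLap

variable {E : Type*} [NormedAddCommGroup E] [InnerProductSpace ℝ E] [FiniteDimensional ℝ E]
  [CompleteSpace E] [MeasurableSpace E] [BorelSpace E]

/-- Laplacian in the standard orthonormal basis. -/
noncomputable def lap (V : E → ℝ) (x : E) : ℝ := ∑ i, Hs V x (stdOrthonormalBasis ℝ E i)

theorem rd_inner_grad (V : E → ℝ) (x y : E) : ⟪gradient V x, y⟫ = fderiv ℝ V x y := by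
  rw [← toDual_gradient, InnerProductSpace.toDual_apply_apply]

theorem rd_off {f : E → ℝ} {x : E} (hx : x ∉ tsupport f) : fderiv ℝ f x = 0 := by
  have h1 : f =ᶠ[𝓝 x] 0 := notMem_tsupport_iff_eventuallyEq.1 hx
  rw [h1.fderiv_eq]
  simp

theorem rd_lineDeriv_off {f : E → ℝ} {x : E} (hx : x ∉ tsupport f) (v : E) :
    lineDeriv ℝ f x v = 0 := by
  have h1 : f =ᶠ[𝓝 x] 0 := notMem_tsupport_iff_eventuallyEq.1 hx
  rw [h1.lineDeriv_eq]
  unfold lineDeriv
  simp

/-- integration by parts of a `C¹` function against a Lipschitz function with compact support -/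
theorem rd_parts {G : E → ℝ} (hG : ContDiff ℝ 1 G) {f : E → ℝ} (hf : LipC univ f) (v : E) :
    ∫ x, G x * ⟪gradient f x, v⟫ = - ∫ x, fderiv ℝ G x v * f x := by
  obtain ⟨⟨K, hK⟩, hfc, -⟩ := hf
  obtain ⟨χ, hχ, hχc, -, hχ01, U, hU, hKU, hU1⟩ :=
    exists_cutoff (E := E) isOpen_univ (K := tsupport f) hfc (subset_univ _)
  set G' : E → ℝ := fun x => χ x * G x with hG'
  have hG'1 : ContDiff ℝ 1 G' := (hχ.of_le (by norm_cast)).mul hG
  have hG'c : HasCompactSupport G' := hχc.mul_right
  obtain ⟨D, hD⟩ := ContDiff.lipschitzWith_of_hasCompactSupport hG'c hG'1 (by simp)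
  have h := LipschitzWith.integral_lineDeriv_mul_eq (μ := volume) hK hD hG'c v
  have h1 : ∫ x, lineDeriv ℝ f x v * G' x = ∫ x, G x * ⟪gradient f x, v⟫ := by
    refine integral_congr_ae ?_
    filter_upwards [hK.ae_differentiableAt (μ := volume)] with x hx
    rw [rd_inner_grad]
    by_cases hxs : x ∈ tsupport f
    · rw [hx.lineDeriv_eq_fderiv, hG']
      simp only
      rw [hU1 x (hKU hxs)]
      ring
    · rw [rd_lineDeriv_off hxs, rd_off hxs]
      simp
  have h2 : ∫ x, lineDeriv ℝ G' x (-v) * f x = - ∫ x, fderiv ℝ G x v * f x := by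
    rw [← integral_neg]
    refine integral_congr_ae (Eventually.of_forall fun x => ?_)
    simp only
    by_cases hxs : x ∈ tsupport f
    · have h3 : G' =ᶠ[𝓝 x] G := by
        filter_upwards [hU.mem_nhds (hKU hxs)] with y hy
        rw [hG']
        simp only
        rw [hU1 y hy, one_mul]
      have h4 : DifferentiableAt ℝ G x := (hG.differentiable (by simp)).differentiableAt
      rw [h3.lineDeriv_eq, h4.lineDeriv_eq_fderiv, map_neg]
      ring
    · rw [image_eq_zero_of_notMem_tsupport hxs]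
      simp
  rw [← h1, h, h2]

theorem rd_grad_contDiff {V : E → ℝ} (hV : ContDiff ℝ 2 V) : ContDiff ℝ 1 (gradient V) := by
  have h1 : ContDiff ℝ 1 (fderiv ℝ V) := hV.fderiv_right (by norm_num)
  exact ((InnerProductSpace.toDual ℝ E).symm.toContinuousLinearEquiv.contDiff).comp h1

theorem rd_grad_fderiv {V : E → ℝ} (hV : ContDiff ℝ 2 V) (x w b : E) :
    ⟪fderiv ℝ (gradient V) x w, b⟫ = fderiv ℝ (fderiv ℝ V) x w b := by
  have h1 : ContDiff ℝ 1 (fderiv ℝ V) := hV.fderiv_right (by norm_num)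
  have h2 : HasFDerivAt (fderiv ℝ V) (fderiv ℝ (fderiv ℝ V) x) x :=
    ((h1.differentiable (by simp)) x).hasFDerivAt
  have h3 : HasFDerivAt (gradient V) (fderiv ℝ (gradient V) x) x :=
    (((rd_grad_contDiff hV).differentiable (by simp)) x).hasFDerivAt
  have h4 : HasFDerivAt (fun y => ⟪gradient V y, b⟫)
      ((innerSL ℝ b).comp (fderiv ℝ (gradient V) x)) x := by
    have h5 := (innerSL ℝ b).hasFDerivAt.comp x h3
    refine h5.congr_of_eventuallyEq (Eventually.of_forall fun y => ?_)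
    simp only [Function.comp]
    rw [innerSL_apply_apply, real_inner_comm]
  have h6 : HasFDerivAt (fun y => ⟪gradient V y, b⟫)
      ((ContinuousLinearMap.apply ℝ ℝ b).comp (fderiv ℝ (fderiv ℝ V) x)) x := by
    have h7 := (ContinuousLinearMap.apply ℝ ℝ b).hasFDerivAt.comp x h2
    refine h7.congr_of_eventuallyEq (Eventually.of_forall fun y => ?_)
    simp only [Function.comp, ContinuousLinearMap.apply_apply]
    exact rd_inner_grad V y b
  have h8 := h4.unique h6
  have h9 := congrArg (fun L : E →L[ℝ] ℝ => L w) h8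
  simp only [ContinuousLinearMap.comp_apply, innerSL_apply_apply,
    ContinuousLinearMap.apply_apply] at h9
  rw [real_inner_comm]
  exact h9

theorem rd_symm {V : E → ℝ} (hV : ContDiff ℝ 2 V) (x a b : E) :
    fderiv ℝ (fderiv ℝ V) x a b = fderiv ℝ (fderiv ℝ V) x b a := by
  have h : IsSymmSndFDerivAt ℝ V x := (hV.contDiffAt).isSymmSndFDerivAt (by simp)
  exact h a b

theorem radial_parts {V : E → ℝ} (hV : ContDiff ℝ 2 V) {h h' : ℝ → ℝ} {η : ℝ} (hη : 0 < η)
    (hh : ∀ s, -η < s → HasDerivAt h (h' s) s) (hc : ContinuousOn h' (Ioi (-η)))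
    {f : E → ℝ} (hf : LipC univ f) :
    - ∫ x, h (‖gradient V x‖ ^ 2) * ⟪gradient V x, gradient f x⟫ =
      ∫ x, (h (‖gradient V x‖ ^ 2) * lap V x
        + 2 * h' (‖gradient V x‖ ^ 2) * Hs V x (gradient V x)) * f x := by
  set e := stdOrthonormalBasis ℝ E with he
  have hg1 := rd_grad_contDiff hV
  have hN : ContDiff ℝ 1 (fun x => ‖gradient V x‖ ^ 2) := hg1.norm_sq ℝ
  have hNmem : ∀ x, ‖gradient V x‖ ^ 2 ∈ Ioi (-η) := by
    intro x
    have : 0 ≤ ‖gradient V x‖ ^ 2 := sq_nonneg _
    simp only [mem_Ioi]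
    linarith
  have hhC : ContDiffOn ℝ 1 h (Ioi (-η)) := by
    have h1 : (1 : WithTop ℕ∞) = 0 + 1 := by simp
    rw [h1, contDiffOn_succ_iff_deriv_of_isOpen isOpen_Ioi]
    refine ⟨fun s hs => (hh s hs).differentiableAt.differentiableWithinAt, by simp, ?_⟩
    rw [contDiffOn_zero]
    exact hc.congr fun s hs => (hh s hs).deriv
  have hhN : ContDiff ℝ 1 (fun x => h (‖gradient V x‖ ^ 2)) := by
    rw [← contDiffOn_univ] at hN ⊢
    exact hhC.comp hN fun x _ => hNmem x
  have hFC : ∀ i, ContDiff ℝ 1 (fun x => h (‖gradient V x‖ ^ 2) * ⟪gradient V x, e i⟫) := by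
    intro i
    exact hhN.mul (hg1.inner ℝ contDiff_const)
  have hder : ∀ i x, fderiv ℝ (fun x => h (‖gradient V x‖ ^ 2) * ⟪gradient V x, e i⟫) x (e i) =
      h (‖gradient V x‖ ^ 2) * Hs V x (e i) +
        2 * h' (‖gradient V x‖ ^ 2) * (⟪gradient V x, e i⟫ *
          fderiv ℝ (fderiv ℝ V) x (e i) (gradient V x)) := by
    intro i x
    have d1 : HasFDerivAt (gradient V) (fderiv ℝ (gradient V) x) x :=
      ((hg1.differentiable (by simp)) x).hasFDerivAt
    have d2 : HasFDerivAt (fun x => ⟪gradient V x, e i⟫)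
        ((innerSL ℝ (e i)).comp (fderiv ℝ (gradient V) x)) x := by
      have h5 := (innerSL ℝ (e i)).hasFDerivAt.comp x d1
      refine h5.congr_of_eventuallyEq (Eventually.of_forall fun y => ?_)
      simp only [Function.comp]
      rw [innerSL_apply_apply, real_inner_comm]
    have d3 := d1.norm_sq
    have d4 : HasFDerivAt (fun x => h (‖gradient V x‖ ^ 2)) _ x :=
      (hh _ (hNmem x)).comp_hasFDerivAt x d3
    have d5 := d4.fun_mul d2
    rw [d5.fderiv]
    have e1 : ⟪e i, fderiv ℝ (gradient V) x (e i)⟫ = fderiv ℝ (fderiv ℝ V) x (e i) (e i) := by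
      rw [real_inner_comm]
      exact rd_grad_fderiv hV x (e i) (e i)
    have e2 : ⟪gradient V x, fderiv ℝ (gradient V) x (e i)⟫ =
        fderiv ℝ (fderiv ℝ V) x (e i) (gradient V x) := by
      rw [real_inner_comm]
      exact rd_grad_fderiv hV x (e i) (gradient V x)
    simp only [add_apply, smul_apply, ContinuousLinearMap.comp_apply, innerSL_apply_apply,
      smul_eq_mul]
    rw [e1, e2]
    unfold Hs
    rw [two_nsmul]
    ring
  have hsum : ∀ x, ∑ i, fderiv ℝ (fun x => h (‖gradient V x‖ ^ 2) * ⟪gradient V x, e i⟫) x (e i) =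
      h (‖gradient V x‖ ^ 2) * lap V x + 2 * h' (‖gradient V x‖ ^ 2) * Hs V x (gradient V x) := by
    intro x
    simp only [hder]
    rw [Finset.sum_add_distrib, ← Finset.mul_sum, ← Finset.mul_sum]
    have h1 : ∑ i, ⟪gradient V x, e i⟫ * fderiv ℝ (fderiv ℝ V) x (e i) (gradient V x) =
        Hs V x (gradient V x) := by
      unfold Hs
      conv_rhs => rw [rd_symm hV, ← e.sum_repr' (gradient V x)]
      rw [map_sum]
      refine Finset.sum_congr rfl fun i _ => ?_
      rw [map_smul, smul_eq_mul, real_inner_comm, e.sum_repr' (gradient V x), rd_symm hV]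
    rw [h1]
    rfl
  have hint : ∀ x, h (‖gradient V x‖ ^ 2) * ⟪gradient V x, gradient f x⟫ =
      ∑ i, (h (‖gradient V x‖ ^ 2) * ⟪gradient V x, e i⟫) * ⟪gradient f x, e i⟫ := by
    intro x
    rw [← e.sum_inner_mul_inner (gradient V x) (gradient f x), Finset.mul_sum]
    refine Finset.sum_congr rfl fun i _ => ?_
    rw [real_inner_comm (gradient f x)]
    ring
  obtain ⟨⟨K, hK⟩, hfc, hft⟩ := hf
  have hcs : ∀ F : E → ℝ, (∀ x, x ∉ tsupport f → F x = 0) → HasCompactSupport F := by
    intro F hF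
    exact HasCompactSupport.intro hfc hF
  have hI1 : ∀ i, Integrable (fun x => (h (‖gradient V x‖ ^ 2) * ⟪gradient V x, e i⟫) *
      ⟪gradient f x, e i⟫) := by
    intro i
    have hb : ∀ x, ‖⟪gradient f x, e i⟫‖ ≤ K := by
      intro x
      rw [rd_inner_grad]
      refine (ContinuousLinearMap.le_opNorm _ _).trans ?_
      rw [e.norm_eq_one, mul_one]
      exact norm_fderiv_le_of_lipschitz ℝ hK
    obtain ⟨χ, hχ, hχc, -, hχ01, U, hU, hKU, hU1⟩ :=
      exists_cutoff (E := E) isOpen_univ (K := tsupport f) hfc (subset_univ _)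
    have h1 : Integrable (fun x => χ x * (h (‖gradient V x‖ ^ 2) * ⟪gradient V x, e i⟫)) :=
      (hχ.continuous.mul (hFC i).continuous).integrable_of_hasCompactSupport hχc.mul_right
    have hm : Measurable fun x => ⟪gradient f x, e i⟫ := by
      have : (fun x => ⟪gradient f x, e i⟫) = fun x => fderiv ℝ f x (e i) := by
        funext x
        exact rd_inner_grad f x (e i)
      rw [this]
      exact measurable_fderiv_apply_const ℝ f (e i)
    have h2 := h1.mul_bdd (c := K) hm.aestronglyMeasurable (Eventually.of_forall hb)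
    refine h2.congr (Eventually.of_forall fun x => ?_)
    simp only
    by_cases hxs : x ∈ tsupport f
    · rw [hU1 x (hKU hxs), one_mul]
    · rw [rd_inner_grad f, rd_off hxs]
      simp
  have hI2 : ∀ i, Integrable (fun x => fderiv ℝ
      (fun x => h (‖gradient V x‖ ^ 2) * ⟪gradient V x, e i⟫) x (e i) * f x) := by
    intro i
    have h1 : Continuous fun x => fderiv ℝ
        (fun x => h (‖gradient V x‖ ^ 2) * ⟪gradient V x, e i⟫) x (e i) :=
      ((hFC i).continuous_fderiv (by simp)).clm_apply continuous_const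
    exact (h1.mul hK.continuous).integrable_of_hasCompactSupport hfc.mul_left
  have hL : ∫ x, h (‖gradient V x‖ ^ 2) * ⟪gradient V x, gradient f x⟫ =
      ∑ i, ∫ x, (h (‖gradient V x‖ ^ 2) * ⟪gradient V x, e i⟫) * ⟪gradient f x, e i⟫ := by
    simp only [hint]
    exact integral_finsetSum _ fun i _ => hI1 i
  have hR : ∫ x, (h (‖gradient V x‖ ^ 2) * lap V x
        + 2 * h' (‖gradient V x‖ ^ 2) * Hs V x (gradient V x)) * f x =
      ∑ i, ∫ x, fderiv ℝ (fun x => h (‖gradient V x‖ ^ 2) * ⟪gradient V x, e i⟫) x (e i) * f x := by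
    simp only [← hsum, Finset.sum_mul]
    exact integral_finsetSum _ fun i _ => hI2 i
  rw [hL, hR, ← Finset.sum_neg_distrib]
  refine Finset.sum_congr rfl fun i _ => ?_
  rw [rd_parts (hFC i) ⟨⟨K, hK⟩, hfc, hft⟩ (e i), neg_neg]

theorem Hs_nonneg {V : E → ℝ} (hV : ContDiff ℝ 2 V) (hc : ConvexOn ℝ univ V) (x b : E) :
    0 ≤ Hs V x b := by
  have h1 : ContDiff ℝ 1 (fderiv ℝ V) := hV.fderiv_right (by norm_num)
  have hl : ∀ t : ℝ, HasDerivAt (fun t : ℝ => x + t • b) b t := by
    intro t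
    simpa using ((hasDerivAt_id t).smul_const b).const_add x
  have hd1 : ∀ t : ℝ, HasDerivAt (fun t : ℝ => V (x + t • b)) (fderiv ℝ V (x + t • b) b) t := by
    intro t
    exact ((hV.differentiable (by simp)) _).hasFDerivAt.comp_hasDerivAt t (hl t)
  have hd2 : ∀ t : ℝ, HasDerivAt (fun t : ℝ => fderiv ℝ V (x + t • b) b)
      (fderiv ℝ (fderiv ℝ V) (x + t • b) b b) t := by
    intro t
    have h2 : HasDerivAt (fun t : ℝ => fderiv ℝ V (x + t • b))
        (fderiv ℝ (fderiv ℝ V) (x + t • b) b) t :=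
      ((h1.differentiable (by simp)) _).hasFDerivAt.comp_hasDerivAt t (hl t)
    exact (ContinuousLinearMap.apply ℝ ℝ b).hasFDerivAt.comp_hasDerivAt t h2
  have hconv : ConvexOn ℝ univ (fun t : ℝ => V (x + t • b)) := by
    refine ⟨convex_univ, fun s _ t _ a c ha hcc hac => ?_⟩
    have h3 := hc.2 (mem_univ (x + s • b)) (mem_univ (x + t • b)) ha hcc hac
    have h4 : a • (x + s • b) + c • (x + t • b) = x + (a • s + c • t) • b := by
      rw [smul_add, smul_add, add_add_add_comm, ← add_smul, hac, one_smul, smul_smul, smul_smul,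
        ← add_smul, smul_eq_mul, smul_eq_mul]
    rw [h4] at h3
    exact h3
  have hmono : Monotone (fun t : ℝ => fderiv ℝ V (x + t • b) b) := by
    have h5 := hconv.monotoneOn_deriv fun t _ => (hd1 t).differentiableAt
    have h6 : deriv (fun t : ℝ => V (x + t • b)) = fun t => fderiv ℝ V (x + t • b) b := by
      funext t
      exact (hd1 t).deriv
    rw [h6] at h5
    exact monotoneOn_univ.1 h5
  have h7 := hmono.deriv_nonneg (x := 0)
  rw [(hd2 0).deriv, zero_smul, add_zero] at h7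
  exact h7

theorem Hs_le_lap {V : E → ℝ} (hV : ContDiff ℝ 2 V) (hc : ConvexOn ℝ univ V) (x b : E) :
    Hs V x b ≤ ‖b‖ ^ 2 * lap V x := by
  set e := stdOrthonormalBasis ℝ E with he
  set B := fderiv ℝ (fderiv ℝ V) x with hB
  set c : _ → ℝ := fun i => ⟪e i, b⟫ with hcdef
  have hb : b = ∑ i, c i • e i := (e.sum_repr' b).symm
  have hn : ‖b‖ ^ 2 = ∑ i, c i ^ 2 := by
    have h1 := e.sum_sq_norm_inner_right b
    rw [← h1]
    refine Finset.sum_congr rfl fun i _ => ?_
    rw [Real.norm_eq_abs, sq_abs]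
  have hBs : ∀ u w, B u w = B w u := fun u w => rd_symm hV x u w
  have hexp : Hs V x b = ∑ i, ∑ j, c i * c j * B (e i) (e j) := by
    unfold Hs
    rw [← hB]
    conv_lhs => rw [hb]
    simp only [map_sum, map_smul, sum_apply, smul_apply,
      smul_eq_mul]
    simp only [Finset.mul_sum]
    rw [Finset.sum_comm]
    refine Finset.sum_congr rfl fun i _ => Finset.sum_congr rfl fun j _ => ?_
    ring
  have hpos : ∀ i j, 0 ≤ c i ^ 2 * B (e j) (e j) - 2 * (c i * c j * B (e i) (e j)) +
      c j ^ 2 * B (e i) (e i) := by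
    intro i j
    have h1 := Hs_nonneg hV hc x (c i • e j - c j • e i)
    unfold Hs at h1
    rw [← hB] at h1
    simp only [map_sub, map_smul, sub_apply, smul_apply,
      smul_eq_mul] at h1
    rw [hBs (e j) (e i)] at h1
    nlinarith [h1]
  have h2 : 2 * (‖b‖ ^ 2 * lap V x) = ∑ i, ∑ j, (c i ^ 2 * B (e j) (e j) +
      c j ^ 2 * B (e i) (e i)) := by
    simp only [Finset.sum_add_distrib]
    rw [Finset.sum_comm (f := fun i j => c j ^ 2 * B (e i) (e i))]
    rw [hn]
    unfold lap Hs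
    rw [← he, ← hB, Finset.sum_mul_sum]
    ring
  have h3 : 2 * Hs V x b ≤ 2 * (‖b‖ ^ 2 * lap V x) := by
    rw [h2, hexp, Finset.mul_sum]
    refine Finset.sum_le_sum fun i _ => ?_
    rw [Finset.mul_sum]
    refine Finset.sum_le_sum fun j _ => ?_
    linarith [hpos i j]
  linarith

end PLap
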