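import Pool.Agent.Lib.MP_a627f3_an.Lip
import Pool.Agent.Lib.MP_a627f3_an.Radial

open MeasureTheory Set Filter Topology Metric
open scoped RealInnerProductSpace ENNReal NNReal

namespace PLap

variable {E : Type*} [NormedAddCommGroup E] [InnerProductSpace ℝ E] [FiniteDimensional ℝ E]
  [CompleteSpace E] [MeasurableSpace E] [BorelSpace E]

omit [FiniteDimensional ℝ E] [CompleteSpace E] [MeasurableSpace E] [BorelSpace E] in
private theorem cp_norm_dir (ξ : E) : ‖dir ξ‖ ≤ 1 := by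
  unfold dir
  rw [norm_smul, norm_inv, norm_norm]
  exact inv_mul_le_one

omit [FiniteDimensional ℝ E] [CompleteSpace E] [MeasurableSpace E] [BorelSpace E] in
private theorem cp_inner_dir (ξ : E) : ⟪dir ξ, ξ⟫ = ‖ξ‖ := by
  unfold dir
  rw [real_inner_smul_left, real_inner_self_eq_norm_sq]
  rcases eq_or_ne (‖ξ‖) 0 with h | h
  · rw [h]; simp
  · field_simp

omit [FiniteDimensional ℝ E] [CompleteSpace E] [MeasurableSpace E] [BorelSpace E] in
private theorem cp_mono (z w : E) : ⟪dir w, z - w⟫ ≤ ⟪dir z, z - w⟫ := by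
  rw [inner_sub_right, inner_sub_right, cp_inner_dir, cp_inner_dir]
  have h1 : ⟪dir w, z⟫ ≤ ‖z‖ :=
    (real_inner_le_norm _ _).trans (mul_le_of_le_one_left (norm_nonneg _) (cp_norm_dir w))
  have h2 : ⟪dir z, w⟫ ≤ ‖w‖ :=
    (real_inner_le_norm _ _).trans (mul_le_of_le_one_left (norm_nonneg _) (cp_norm_dir z))
  linarith

private theorem cp_meas_grad (f : E → ℝ) : Measurable (gradient f) :=
  (InnerProductSpace.toDual ℝ E).symm.continuous.measurable.comp (measurable_fderiv ℝ f)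

private theorem cp_meas_dir : Measurable (dir : E → E) := by
  unfold dir
  exact (measurable_norm.inv).smul measurable_id

private theorem cp_norm_grad {f : E → ℝ} {L : ℝ≥0} (hf : LipschitzWith L f) (x : E) :
    ‖gradient f x‖ ≤ L := by
  rw [gradient, LinearIsometryEquiv.norm_map]
  exact norm_fderiv_le_of_lipschitz ℝ hf

private theorem cp_grad_off {f : E → ℝ} {x : E} (hx : x ∉ tsupport f) : gradient f x = 0 := by
  rw [gradient, rd_off hx, map_zero]

private theorem cp_integrable {f : E → ℝ} {L : ℝ≥0} (hf : LipschitzWith L f)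
    (hc : HasCompactSupport f) {F : E → E} (hF : Measurable F) (hF1 : ∀ x, ‖F x‖ ≤ 1) :
    Integrable (fun x => ⟪F x, gradient f x⟫) := by
  have h1 : Integrable ((tsupport f).indicator fun _ => (L : ℝ)) :=
    (integrable_indicator_iff (isClosed_tsupport f).measurableSet).mpr
      (integrableOn_const hc.measure_lt_top.ne)
  refine h1.mono' (hF.inner (cp_meas_grad f)).aestronglyMeasurable
    (Eventually.of_forall fun x => ?_)
  by_cases hx : x ∈ tsupport f
  · rw [indicator_of_mem hx]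
    refine (norm_inner_le_norm _ _).trans ?_
    calc ‖F x‖ * ‖gradient f x‖ ≤ 1 * L :=
          mul_le_mul (hF1 x) (cp_norm_grad hf x) (norm_nonneg _) zero_le_one
      _ = L := one_mul _
  · rw [indicator_of_notMem hx, cp_grad_off hx, inner_zero_right, norm_zero]

/-- Comparison of the direction field of `∇v` with that of the paraboloid `|x - x₀|²/2`. -/
theorem compare {P : Set E} {v : E → ℝ} (hv : Reg P v) {x₀ : E} {D : ℝ}
    (hx₀ : x₀ ∉ P) (hD : ∀ x ∈ P, ‖x - x₀‖ ≤ D) (m : ℝ) :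
    LipC P (P.indicator (fun x => max 0 (m + ‖x - x₀‖ ^ 2 / 2 - v x))) ∧
    ((Module.finrank ℝ E : ℝ) - 1) / D *
        ∫ x, P.indicator (fun x => max 0 (m + ‖x - x₀‖ ^ 2 / 2 - v x)) x ≤
      - ∫ x, ⟪dir (gradient v x),
          gradient (P.indicator (fun x => max 0 (m + ‖x - x₀‖ ^ 2 / 2 - v x))) x⟫ := by
  classical
  set φ : E → ℝ := P.indicator (fun x => max 0 (m + ‖x - x₀‖ ^ 2 / 2 - v x)) with hφ
  set g : E → ℝ := fun x => m + ‖x - x₀‖ ^ 2 / 2 - v x with hg
  have hφP : ∀ x ∈ P, φ x = max 0 (g x) := fun x hx => by rw [hφ, indicator_of_mem hx]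
  have hφP' : ∀ x ∉ P, φ x = 0 := fun x hx => by rw [hφ, indicator_of_notMem hx]
  have hφ0 : ∀ x, 0 ≤ φ x := by
    intro x
    by_cases hx : x ∈ P
    · rw [hφP x hx]; exact le_max_left _ _
    · rw [hφP' x hx]
  obtain ⟨K, hK, hKP, hKv⟩ := hv.coer (m + D ^ 2 / 2)
  have hgK : ∀ x ∈ P, x ∉ K → g x ≤ 0 := by
    intro x hx hxK
    have h1 := hKv x ⟨hx, hxK⟩
    have h2 : ‖x - x₀‖ ^ 2 ≤ D ^ 2 := pow_le_pow_left₀ (norm_nonneg _) (hD x hx) 2
    simp only [hg]
    linarith
  have hφK : ∀ x ∉ K, φ x = 0 := by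
    intro x hx
    by_cases hxP : x ∈ P
    · rw [hφP x hxP, max_eq_left (hgK x hxP hx)]
    · exact hφP' x hxP
  have hsub : tsupport φ ⊆ K :=
    closure_minimal (fun x hx => by_contra fun h => hx (hφK x h)) hK.isClosed
  have hc : HasCompactSupport φ := hK.of_isClosed_subset (isClosed_tsupport φ) hsub
  -- `g` is `C¹` on `P`
  have hVC : ContDiff ℝ 2 (fun x : E => ‖x - x₀‖ ^ 2 / 2) :=
    ((contDiff_id.sub contDiff_const).norm_sq ℝ).div_const 2
  have hgC : ContDiffOn ℝ 1 g P :=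
    (contDiffOn_const.add (hVC.of_le (by norm_num)).contDiffOn).sub hv.c1
  -- Lipschitz
  have hLip : ∃ L : ℝ≥0, LipschitzWith L φ := by
    obtain ⟨χ, hχ, hχc, hχP, hχ01, U, hUo, hKU, hU⟩ := exists_cutoff hv.isOpen hK hKP
    set h : E → ℝ := fun x => χ x * g x with hh
    have hh1 : ContDiff ℝ 1 h := by
      rw [contDiff_iff_contDiffAt]
      intro x
      by_cases hx : x ∈ P
      · exact ((hχ.of_le (by exact_mod_cast le_top)).contDiffAt).mul
          (hgC.contDiffAt (hv.isOpen.mem_nhds hx))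
      · have h1 : x ∉ tsupport χ := fun h => hx (hχP h)
        have h2 := notMem_tsupport_iff_eventuallyEq.1 h1
        have h3 : h =ᶠ[𝓝 x] fun _ => 0 := by
          filter_upwards [h2] with y hy
          simp [hh, hy]
        exact contDiffAt_const.congr_of_eventuallyEq h3
    have hhc : HasCompactSupport h := hχc.mul_right
    obtain ⟨L, hL⟩ := ContDiff.lipschitzWith_of_hasCompactSupport hhc hh1 one_ne_zero
    have he : φ = fun x => max 0 (h x) := by
      funext x
      by_cases hxK : x ∈ K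
      · rw [hφP x (hKP hxK), hh]
        simp only
        rw [hU x (hKU hxK), one_mul]
      · rw [hφK x hxK]
        symm
        refine max_eq_left ?_
        simp only [hh]
        by_cases hxP : x ∈ P
        · exact mul_nonpos_of_nonneg_of_nonpos (hχ01 x).1 (hgK x hxP hxK)
        · have h1 : x ∉ tsupport χ := fun h => hxP (hχP h)
          rw [image_eq_zero_of_notMem_tsupport h1, zero_mul]
    refine ⟨L, ?_⟩
    rw [he]
    exact hL.const_max 0
  obtain ⟨L, hL⟩ := hLip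
  refine ⟨⟨⟨L, hL⟩, hc, hsub.trans hKP⟩, ?_⟩
  -- gradients
  set V : E → ℝ := fun x => ‖x - x₀‖ ^ 2 / 2 with hV
  have hVd : ∀ x, HasFDerivAt V (innerSL ℝ (x - x₀)) x := by
    intro x
    have h1 : HasFDerivAt (fun x : E => x - x₀) (ContinuousLinearMap.id ℝ E) x :=
      (hasFDerivAt_id x).sub_const x₀
    have h2 := (h1.norm_sq).const_mul (1 / 2 : ℝ)
    have h3 : V = fun x => 1 / 2 * ‖x - x₀‖ ^ 2 := by
      funext y
      simp only [hV]
      ring
    rw [h3]
    refine h2.congr_fderiv ?_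
    ext y
    simp
  have hVf : fderiv ℝ V = fun x => innerSL ℝ (x - x₀) := funext fun x => (hVd x).fderiv
  have hVg : ∀ x, gradient V x = x - x₀ := by
    intro x
    refine ext_inner_right ℝ fun y => ?_
    rw [rd_inner_grad, hVf]
    simp [inner_sub_left]
  have hHs : ∀ x b, Hs V x b = ‖b‖ ^ 2 := by
    intro x b
    unfold Hs
    rw [hVf]
    have h1 : HasFDerivAt (fun x : E => innerSL ℝ (x - x₀)) (innerSL ℝ : E →L[ℝ] E →L[ℝ] ℝ) x := by
      have h2 := ((innerSL ℝ : E →L[ℝ] E →L[ℝ] ℝ).hasFDerivAt (x := x - x₀)).comp x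
        ((hasFDerivAt_id x).sub_const x₀)
      exact h2
    rw [h1.fderiv]
    exact real_inner_self_eq_norm_sq b
  have hlap : ∀ x, lap V x = Module.finrank ℝ E := by
    intro x
    unfold lap
    simp [hHs]
  -- the gradient of `φ`
  have hgd : ∀ x ∈ P, gradient g x = (x - x₀) - gradient v x := by
    intro x hx
    have hvd : HasFDerivAt v (fderiv ℝ v x) x :=
      (((hv.c1 x hx).contDiffAt (hv.isOpen.mem_nhds hx)).differentiableAt
        one_ne_zero).hasFDerivAt
    have h1 : HasFDerivAt g (innerSL ℝ (x - x₀) - fderiv ℝ v x) x :=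
      (((hVd x).const_add m).sub hvd)
    refine ext_inner_right ℝ fun y => ?_
    rw [rd_inner_grad, h1.fderiv, inner_sub_left, rd_inner_grad]
    simp [inner_sub_left]
  have hcmp : ∀ x, ⟪dir (gradient v x), gradient φ x⟫ ≤ ⟪dir (x - x₀), gradient φ x⟫ := by
    intro x
    by_cases hx : 0 < φ x
    · have hxP : x ∈ P := by
        by_contra h
        rw [hφP' x h] at hx
        exact lt_irrefl _ hx
      have hgx : 0 < g x := by
        rw [hφP x hxP] at hx
        exact (lt_max_iff.mp hx).resolve_left (lt_irrefl _)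
      have h1 : φ =ᶠ[𝓝 x] g := by
        have h2 : ContinuousAt g x := (hgC.continuousOn).continuousAt (hv.isOpen.mem_nhds hxP)
        filter_upwards [hv.isOpen.mem_nhds hxP, h2.eventually (lt_mem_nhds hgx)] with y hy hy2
        rw [hφP y hy, max_eq_right hy2.le]
      rw [h1.gradient_eq, hgd x hxP]
      exact cp_mono _ _
    · have h0 : φ x = 0 := le_antisymm (not_lt.mp hx) (hφ0 x)
      have h1 : IsLocalMin φ x := Eventually.of_forall fun y => by rw [h0]; exact hφ0 y
      have h2 : gradient φ x = 0 := by rw [gradient, h1.fderiv_eq_zero, map_zero]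
      rw [h2, inner_zero_right, inner_zero_right]
  have hint1 : Integrable (fun x => ⟪dir (gradient v x), gradient φ x⟫) :=
    cp_integrable hL hc (cp_meas_dir.comp (cp_meas_grad v)) fun x => cp_norm_dir _
  have hint2 : Integrable (fun x => ⟪dir (x - x₀), gradient φ x⟫) :=
    cp_integrable hL hc (cp_meas_dir.comp (measurable_id.sub_const x₀)) fun x => cp_norm_dir _
  have hstep : ∫ x, ⟪dir (gradient v x), gradient φ x⟫ ≤ ∫ x, ⟪dir (x - x₀), gradient φ x⟫ :=
    integral_mono hint1 hint2 hcmp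
  refine le_trans ?_ (neg_le_neg hstep)
  -- the inequality for the paraboloid, by approximation
  have hne : P.Nonempty := hv.nonempty
  obtain ⟨x₁, hx₁⟩ := hne
  have hDpos : 0 < D := by
    refine lt_of_lt_of_le (norm_pos_iff.mpr (sub_ne_zero.mpr ?_)) (hD x₁ hx₁)
    rintro rfl
    exact hx₀ hx₁
  have hd1 : (0:ℝ) ≤ (Module.finrank ℝ E : ℝ) - 1 := by
    have : Nontrivial E := ⟨x₁, x₀, fun h => hx₀ (h ▸ hx₁)⟩
    have h1 : 1 ≤ Module.finrank ℝ E := Module.finrank_pos
    have h2 : (1:ℝ) ≤ Module.finrank ℝ E := by exact_mod_cast h1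
    linarith
  have hkey : ∀ ε : ℝ, 0 < ε → ((Module.finrank ℝ E : ℝ) - 1) / Real.sqrt (ε ^ 2 + D ^ 2) *
      ∫ x, φ x ≤ - ∫ x, (Real.sqrt (ε ^ 2 + ‖x - x₀‖ ^ 2))⁻¹ * ⟪x - x₀, gradient φ x⟫ := by
    intro ε hε
    have hε2 : 0 < ε ^ 2 := by positivity
    have hh : ∀ t, -ε ^ 2 < t → HasDerivAt (fun t : ℝ => (Real.sqrt (ε ^ 2 + t))⁻¹)
        (-(1 / (2 * Real.sqrt (ε ^ 2 + t))) / Real.sqrt (ε ^ 2 + t) ^ 2) t := by
      intro t ht
      have h0 : 0 < ε ^ 2 + t := by linarith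
      have h1 := ((hasDerivAt_id' t).const_add (ε ^ 2)).sqrt h0.ne'
      exact h1.inv (Real.sqrt_pos.mpr h0).ne'
    have hh' : ContinuousOn
        (fun t : ℝ => -(1 / (2 * Real.sqrt (ε ^ 2 + t))) / Real.sqrt (ε ^ 2 + t) ^ 2)
        (Ioi (-ε ^ 2)) := by
      have h0 : ∀ t ∈ Ioi (-ε ^ 2), Real.sqrt (ε ^ 2 + t) ≠ 0 := fun t ht =>
        (Real.sqrt_pos.mpr (by have : -ε ^ 2 < t := ht; linarith)).ne'
      have h1 : Continuous fun t : ℝ => Real.sqrt (ε ^ 2 + t) := by fun_prop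
      refine ContinuousOn.div (ContinuousOn.neg (ContinuousOn.div continuousOn_const
        (continuous_const.mul h1).continuousOn ?_)) (h1.pow 2).continuousOn ?_
      · intro t ht
        exact mul_ne_zero two_ne_zero (h0 t ht)
      · intro t ht
        exact pow_ne_zero 2 (h0 t ht)
    have hrp := radial_parts hVC hε2 hh hh' (f := φ) ⟨⟨L, hL⟩, hc, subset_univ _⟩
    have e1 : (∫ x, (fun t : ℝ => (Real.sqrt (ε ^ 2 + t))⁻¹) (‖gradient V x‖ ^ 2) *
        ⟪gradient V x, gradient φ x⟫) =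
        ∫ x, (Real.sqrt (ε ^ 2 + ‖x - x₀‖ ^ 2))⁻¹ * ⟪x - x₀, gradient φ x⟫ := by
      simp only [hVg]
    rw [← e1, hrp, ← integral_const_mul]
    have hcont1 : Continuous fun x : E => (Real.sqrt (ε ^ 2 + ‖x - x₀‖ ^ 2))⁻¹ := by
      refine Continuous.inv₀ (by fun_prop) fun x => ?_
      exact (Real.sqrt_pos.mpr (by positivity)).ne'
    have hcont2 : Continuous fun x : E => -(1 / (2 * Real.sqrt (ε ^ 2 + ‖x - x₀‖ ^ 2))) /
        Real.sqrt (ε ^ 2 + ‖x - x₀‖ ^ 2) ^ 2 := by
      have h0 : ∀ x : E, Real.sqrt (ε ^ 2 + ‖x - x₀‖ ^ 2) ≠ 0 := fun x =>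
        (Real.sqrt_pos.mpr (by positivity)).ne'
      refine Continuous.div (Continuous.neg (Continuous.div continuous_const (by fun_prop) ?_))
        (by fun_prop) ?_
      · intro x; exact mul_ne_zero two_ne_zero (h0 x)
      · intro x; exact pow_ne_zero 2 (h0 x)
    refine integral_mono ?_ ?_ ?_
    · exact (hL.continuous.integrable_of_hasCompactSupport hc).const_mul _
    · simp only [hVg, hlap, hHs]
      refine Continuous.integrable_of_hasCompactSupport ?_ hc.mul_left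
      refine Continuous.mul ?_ hL.continuous
      exact (hcont1.mul continuous_const).add ((continuous_const.mul hcont2).mul (by fun_prop))
    · intro x
      simp only [hVg, hlap, hHs]
      by_cases hx : x ∈ P
      · refine mul_le_mul_of_nonneg_right ?_ (hφ0 x)
        have hρ0 : 0 < ε ^ 2 + ‖x - x₀‖ ^ 2 := by positivity
        set ρ := Real.sqrt (ε ^ 2 + ‖x - x₀‖ ^ 2) with hρ
        have hρpos : 0 < ρ := Real.sqrt_pos.mpr hρ0
        have hρ2 : ρ ^ 2 = ε ^ 2 + ‖x - x₀‖ ^ 2 := Real.sq_sqrt hρ0.le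
        have h1 : ρ ≤ Real.sqrt (ε ^ 2 + D ^ 2) :=
          Real.sqrt_le_sqrt (by
            have := pow_le_pow_left₀ (norm_nonneg (x - x₀)) (hD x hx) 2
            linarith)
        have h2 : ((Module.finrank ℝ E : ℝ) - 1) / Real.sqrt (ε ^ 2 + D ^ 2) ≤
            ((Module.finrank ℝ E : ℝ) - 1) / ρ := div_le_div_of_nonneg_left hd1 hρpos h1
        refine h2.trans ?_
        have h3 : ρ⁻¹ * (Module.finrank ℝ E : ℝ) + 2 * (-(1 / (2 * ρ)) / ρ ^ 2) * ‖x - x₀‖ ^ 2 =
            ((Module.finrank ℝ E : ℝ) - ‖x - x₀‖ ^ 2 / ρ ^ 2) / ρ := by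
          field_simp
          ring
        rw [h3]
        refine div_le_div_of_nonneg_right ?_ hρpos.le
        have h4 : ‖x - x₀‖ ^ 2 / ρ ^ 2 ≤ 1 := by
          rw [div_le_one (by positivity), hρ2]
          linarith
        linarith
      · rw [hφP' x hx, mul_zero, mul_zero]
  -- pass to the limit along `ε = 1/(n+1)`
  have hpos : ∀ n : ℕ, (0 : ℝ) < 1 / ((n : ℝ) + 1) := fun n => by positivity
  have hl0 : Tendsto (fun n : ℕ => 1 / ((n : ℝ) + 1)) atTop (𝓝 0) :=
    tendsto_one_div_add_atTop_nhds_zero_nat (𝕜 := ℝ)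
  have hlimL : Tendsto (fun n : ℕ => ((Module.finrank ℝ E : ℝ) - 1) /
      Real.sqrt ((1 / ((n : ℝ) + 1)) ^ 2 + D ^ 2) * ∫ x, φ x) atTop
      (𝓝 (((Module.finrank ℝ E : ℝ) - 1) / D * ∫ x, φ x)) := by
    refine Tendsto.mul_const _ (Tendsto.div tendsto_const_nhds ?_ hDpos.ne')
    have h1 : Tendsto (fun n : ℕ => Real.sqrt ((1 / ((n : ℝ) + 1)) ^ 2 + D ^ 2)) atTop
        (𝓝 (Real.sqrt (0 ^ 2 + D ^ 2))) :=
      (Real.continuous_sqrt.tendsto _).comp ((hl0.pow 2).add_const _)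
    have h2 : Real.sqrt (0 ^ 2 + D ^ 2) = D := by
      rw [zero_pow two_ne_zero, zero_add, Real.sqrt_sq hDpos.le]
    rwa [h2] at h1
  have hlimR : Tendsto (fun n : ℕ => - ∫ x, (Real.sqrt ((1 / ((n : ℝ) + 1)) ^ 2 +
      ‖x - x₀‖ ^ 2))⁻¹ * ⟪x - x₀, gradient φ x⟫) atTop
      (𝓝 (- ∫ x, ⟪dir (x - x₀), gradient φ x⟫)) := by
    refine Tendsto.neg ?_
    have hbi : Integrable ((tsupport φ).indicator fun _ => (L : ℝ)) :=
      (integrable_indicator_iff (isClosed_tsupport φ).measurableSet).mpr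
        (integrableOn_const hc.measure_lt_top.ne)
    refine tendsto_integral_of_dominated_convergence ((tsupport φ).indicator fun _ => (L : ℝ))
      (fun n => ?_) hbi (fun n => Eventually.of_forall fun x => ?_)
      (Eventually.of_forall fun x => ?_)
    · have h1 : Measurable fun x : E => (Real.sqrt ((1 / ((n : ℝ) + 1)) ^ 2 +
          ‖x - x₀‖ ^ 2))⁻¹ := by fun_prop
      exact (h1.mul ((measurable_id.sub_const x₀).inner (cp_meas_grad φ))).aestronglyMeasurable
    · by_cases hx : x ∈ tsupport φ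
      · rw [indicator_of_mem hx, norm_mul]
        have h0 : 0 < (1 / ((n : ℝ) + 1)) ^ 2 + ‖x - x₀‖ ^ 2 := by
          have := hpos n
          positivity
        have h1 : ‖x - x₀‖ ≤ Real.sqrt ((1 / ((n : ℝ) + 1)) ^ 2 + ‖x - x₀‖ ^ 2) :=
          Real.le_sqrt_of_sq_le (by
            have := sq_nonneg (1 / ((n : ℝ) + 1))
            linarith)
        have h2 : 0 < Real.sqrt ((1 / ((n : ℝ) + 1)) ^ 2 + ‖x - x₀‖ ^ 2) :=
          Real.sqrt_pos.mpr h0
        rw [Real.norm_of_nonneg (inv_pos.mpr h2).le]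
        calc (Real.sqrt ((1 / ((n : ℝ) + 1)) ^ 2 + ‖x - x₀‖ ^ 2))⁻¹ * ‖⟪x - x₀, gradient φ x⟫‖
            ≤ (Real.sqrt ((1 / ((n : ℝ) + 1)) ^ 2 + ‖x - x₀‖ ^ 2))⁻¹ *
              (‖x - x₀‖ * ‖gradient φ x‖) :=
              mul_le_mul_of_nonneg_left (norm_inner_le_norm _ _) (inv_pos.mpr h2).le
          _ = ((Real.sqrt ((1 / ((n : ℝ) + 1)) ^ 2 + ‖x - x₀‖ ^ 2))⁻¹ * ‖x - x₀‖) *
              ‖gradient φ x‖ := by ring
          _ ≤ 1 * L := by
              refine mul_le_mul ?_ (cp_norm_grad hL x) (norm_nonneg _) zero_le_one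
              rw [inv_mul_le_iff₀ h2, mul_one]
              exact h1
          _ = L := one_mul _
      · rw [indicator_of_notMem hx, cp_grad_off hx, inner_zero_right, mul_zero, norm_zero]
    · have h3 : ⟪dir (x - x₀), gradient φ x⟫ = ‖x - x₀‖⁻¹ * ⟪x - x₀, gradient φ x⟫ := by
        unfold dir
        rw [real_inner_smul_left]
      rw [h3]
      rcases eq_or_ne (x - x₀) 0 with h | h
      · rw [h]
        simp
      · refine Tendsto.mul_const _ ?_
        have hn : 0 < ‖x - x₀‖ := norm_pos_iff.mpr h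
        refine Tendsto.inv₀ ?_ hn.ne'
        have h1 : Tendsto (fun n : ℕ => Real.sqrt ((1 / ((n : ℝ) + 1)) ^ 2 + ‖x - x₀‖ ^ 2)) atTop
            (𝓝 (Real.sqrt (0 ^ 2 + ‖x - x₀‖ ^ 2))) :=
          (Real.continuous_sqrt.tendsto _).comp ((hl0.pow 2).add_const _)
        have h2 : Real.sqrt (0 ^ 2 + ‖x - x₀‖ ^ 2) = ‖x - x₀‖ := by
          rw [zero_pow two_ne_zero, zero_add, Real.sqrt_sq hn.le]
        rwa [h2] at h1
  exact le_of_tendsto_of_tendsto' hlimL hlimR fun n => hkey _ (hpos n)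

end PLap
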