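import Pool.Agent.Lib.MP_a627f3_an.ConvA
import Pool.Agent.Lib.MP_a627f3_an.ConvD

open MeasureTheory Set Filter Topology Metric
open scoped RealInnerProductSpace ENNReal NNReal

namespace PLap

variable {E : Type*} [NormedAddCommGroup E] [InnerProductSpace ℝ E] [FiniteDimensional ℝ E]
  [CompleteSpace E] [MeasurableSpace E] [BorelSpace E]

namespace Competitor

omit [FiniteDimensional ℝ E] [MeasurableSpace E] [BorelSpace E] in
theorem diffAt {Ω : Set E} {v : E → ℝ} (hv : Reg Ω v) {x : E} (hx : x ∈ Ω) :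
    DifferentiableAt ℝ v x :=
  (hv.c1.contDiffAt (hv.isOpen.mem_nhds hx)).differentiableAt (by simp)

omit [FiniteDimensional ℝ E] [MeasurableSpace E] [BorelSpace E] in
theorem cont_grad {Ω : Set E} {v : E → ℝ} (hv : Reg Ω v) : ContinuousOn (gradient v) Ω := by
  have h1 : ContinuousOn (fderiv ℝ v) Ω := hv.c1.continuousOn_fderiv_of_isOpen hv.isOpen le_rfl
  unfold gradient
  exact (InnerProductSpace.toDual ℝ E).symm.continuous.comp_continuousOn h1

/-- tangent at `y` -/
noncomputable def Lt (v : E → ℝ) (y x : E) : ℝ := v y + ⟪gradient v y, x - y⟫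

omit [FiniteDimensional ℝ E] [MeasurableSpace E] [BorelSpace E] in
theorem Lt_self (v : E → ℝ) (x : E) : Lt v x x = v x := by simp [Lt]

theorem Lt_le {Ω : Set E} {v : E → ℝ} (hv : Reg Ω v) {x y : E} (hx : x ∈ Ω) (hy : y ∈ Ω) :
    Lt v y x ≤ v x := tangent_le hv.cvx hy (diffAt hv hy) hx

omit [FiniteDimensional ℝ E] [MeasurableSpace E] [BorelSpace E] in
theorem Lt_comb (v : E → ℝ) (y x₁ x₂ : E) {a b : ℝ} (hab : a + b = 1) :
    Lt v y (a • x₁ + b • x₂) = a * Lt v y x₁ + b * Lt v y x₂ := by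
  unfold Lt
  have h1 : a • x₁ + b • x₂ - y = a • (x₁ - y) + b • (x₂ - y) := by
    rw [smul_sub, smul_sub]
    have : y = a • y + b • y := by rw [← add_smul, hab, one_smul]
    calc a • x₁ + b • x₂ - y = a • x₁ + b • x₂ - (a • y + b • y) := by rw [← this]
      _ = _ := by abel
  rw [h1, inner_add_right, inner_smul_right, inner_smul_right]
  have hb : b = 1 - a := by linarith
  subst hb
  ring

theorem grad_eq {Ω : Set E} {v : E → ℝ} (hv : Reg Ω v) {x y : E} (hx : x ∈ Ω) (hy : y ∈ Ω)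
    (h : Lt v y x = v x) : gradient v y = gradient v x := by
  have h1 : ∀ ε > 0, ‖gradient v y - gradient v x‖ ≤ ε := by
    intro ε hε
    obtain ⟨θ, hθ, hθ'⟩ := hv.near_tangent (isCompact_singleton (x := x))
      (singleton_subset_iff.2 hx) hε
    refine hθ' x rfl y hy ?_
    have : v x - (v y + ⟪gradient v y, x - y⟫) = v x - Lt v y x := rfl
    rw [this, h, sub_self]
    exact hθ.le
  have h2 : ‖gradient v y - gradient v x‖ ≤ 0 := le_of_forall_pos_le_add fun ε hε => by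
    simpa using h1 ε hε
  exact sub_eq_zero.1 (norm_eq_zero.1 (le_antisymm h2 (norm_nonneg _)))

omit [FiniteDimensional ℝ E] [MeasurableSpace E] [BorelSpace E] in
theorem cont_Lt {Ω : Set E} {v : E → ℝ} (hv : Reg Ω v) :
    ContinuousOn (fun p : E × E => Lt v p.2 p.1) (Ω ×ˢ Ω) := by
  unfold Lt
  have h1 : ContinuousOn (fun p : E × E => v p.2) (Ω ×ˢ Ω) :=
    hv.c1.continuousOn.comp continuousOn_snd (fun p hp => hp.2)
  have h2 : ContinuousOn (fun p : E × E => gradient v p.2) (Ω ×ˢ Ω) :=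
    (cont_grad hv).comp continuousOn_snd (fun p hp => hp.2)
  exact h1.add (h2.inner (continuousOn_fst.sub continuousOn_snd))

/-- the term of `y` -/
noncomputable def Tm (v H g : E → ℝ) (κ₁ κ₂ t : ℝ) (y x : E) : ℝ :=
  Lt v y x + t * (g (gradient v y) * (H x - κ₁ * Lt v y x - κ₂))

/-- the competitor -/
noncomputable def wt (Ω : Set E) (v H g : E → ℝ) (κ₁ κ₂ t : ℝ) (x : E) : ℝ :=
  ⨆ y : Ω, Tm v H g κ₁ κ₂ t y x

end Competitor

open Competitor

theorem competitor {Ω : Set E} {v : E → ℝ} (hv : Reg Ω v) {H : E → ℝ} (hH : ConvexOn ℝ univ H)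
    {L : ℝ≥0} (hL : LipschitzWith L H) (κ₁ κ₂ : ℝ) {g : E → ℝ} (hg : Continuous g)
    (hg0 : ∀ ξ, 0 ≤ g ξ) (hgc : HasCompactSupport g) :
    ∃ (w : ℝ → E → ℝ) (K : Set E), IsCompact K ∧ K ⊆ Ω ∧
      (∀ t > 0, ConvexOn ℝ Ω (w t)) ∧
      (∀ᶠ t in 𝓝[>] (0:ℝ), ∀ x ∈ Ω \ K, w t x = v x) ∧
      (∀ ε > 0, ∀ᶠ t in 𝓝[>] (0:ℝ), ∀ x ∈ Ω,
        |w t x - v x - t * (g (gradient v x) * (H x - κ₁ * v x - κ₂))| ≤ ε * t) ∧
      (∀ Ψ : E → ℝ, ContinuousOn Ψ Ω → (∀ x ∈ Ω, v x ≤ Ψ x) →
        (∀ x ∈ Ω, v x = Ψ x → gradient v x ∈ tsupport g → H x - κ₁ * v x - κ₂ < 0) →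
        ∀ᶠ t in 𝓝[>] (0:ℝ), ∀ x ∈ Ω, w t x ≤ Ψ x) ∧
      (∀ B : E → ℝ, ContinuousOn B Ω → (∀ x ∈ Ω, B x ≤ v x) →
        (∀ x ∈ Ω, v x = B x → gradient v x ∈ tsupport g → 0 < H x - κ₁ * v x - κ₂) →
        ∀ᶠ t in 𝓝[>] (0:ℝ), ∀ x ∈ Ω, B x ≤ w t x) := by
  have hne : Nonempty Ω := hv.nonempty.to_subtype
  -- bound of `g`
  obtain ⟨G, hG⟩ := hgc.exists_bound_of_continuous hg
  have hG' : ∀ ξ, g ξ ≤ G := fun ξ => (le_abs_self _).trans (hG ξ)
  have hG0 : 0 ≤ G := (norm_nonneg _).trans (hG 0)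
  -- the compact set `K_g`
  set Kg : Set E := {y | y ∈ Ω ∧ gradient v y ∈ tsupport g} with hKg
  have hKgc : IsCompact Kg := hv.isCompact_grad hgc
  have hKgΩ : Kg ⊆ Ω := fun y hy => hy.1
  have hg_zero : ∀ y ∈ Ω, y ∉ Kg → g (gradient v y) = 0 := by
    intro y hy hn
    exact image_eq_zero_of_notMem_tsupport fun h => hn ⟨hy, h⟩
  have hvc : ContinuousOn v Ω := hv.c1.continuousOn
  -- bounds of `H` and of the tangents
  obtain ⟨CH, hCH⟩ : ∃ C : ℝ, ∀ x ∈ Ω, |H x| ≤ C := by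
    obtain ⟨C, hC⟩ := (hL.isBounded_image hv.bdd).exists_norm_le
    exact ⟨C, fun x hx => hC _ ⟨x, hx, rfl⟩⟩
  obtain ⟨CL, hCL⟩ : ∃ C : ℝ, ∀ y ∈ Kg, ∀ x ∈ Ω, |Lt v y x| ≤ C := by
    obtain ⟨C1, hC1⟩ := hKgc.exists_bound_of_continuousOn (hvc.mono hKgΩ)
    obtain ⟨C2, hC2⟩ := hKgc.exists_bound_of_continuousOn ((cont_grad hv).mono hKgΩ)
    refine ⟨C1 + C2 * diam Ω, fun y hy x hx => ?_⟩
    unfold Lt
    have h1 : |⟪gradient v y, x - y⟫| ≤ C2 * diam Ω := by
      refine (abs_real_inner_le_norm _ _).trans ?_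
      have h2 : ‖x - y‖ ≤ diam Ω := by
        rw [← dist_eq_norm]
        exact dist_le_diam_of_mem hv.bdd hx (hKgΩ hy)
      have h3 := hC2 y hy
      exact mul_le_mul h3 h2 (norm_nonneg _) ((norm_nonneg _).trans h3)
    calc |v y + ⟪gradient v y, x - y⟫| ≤ |v y| + |⟪gradient v y, x - y⟫| := abs_add_le _ _
      _ ≤ C1 + C2 * diam Ω := add_le_add (hC1 y hy) h1
  -- bound of the perturbation
  set Cb : ℝ := |CH| + |κ₁| * |CL| + |κ₂| with hCb
  have hCb0 : 0 ≤ Cb := by positivity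
  have hbr : ∀ y ∈ Kg, ∀ x ∈ Ω, |H x - κ₁ * Lt v y x - κ₂| ≤ Cb := by
    intro y hy x hx
    have h1 := (hCH x hx).trans (le_abs_self CH)
    have h2 : |κ₁ * Lt v y x| ≤ |κ₁| * |CL| := by
      rw [abs_mul]
      exact mul_le_mul_of_nonneg_left ((hCL y hy x hx).trans (le_abs_self CL)) (abs_nonneg _)
    calc |H x - κ₁ * Lt v y x - κ₂| ≤ |H x - κ₁ * Lt v y x| + |κ₂| := abs_sub _ _
      _ ≤ (|H x| + |κ₁ * Lt v y x|) + |κ₂| := by gcongr; exact abs_sub _ _
      _ ≤ Cb := by rw [hCb]; gcongr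
  set C : ℝ := G * Cb + 1 with hC
  have hC0 : 0 < C := by positivity
  have hpert : ∀ y ∈ Ω, ∀ x ∈ Ω, |g (gradient v y) * (H x - κ₁ * Lt v y x - κ₂)| ≤ C := by
    intro y hy x hx
    by_cases hyg : y ∈ Kg
    · rw [abs_mul, abs_of_nonneg (hg0 _)]
      calc g (gradient v y) * |H x - κ₁ * Lt v y x - κ₂| ≤ G * Cb :=
            mul_le_mul (hG' _) (hbr y hyg x hx) (abs_nonneg _) hG0
        _ ≤ C := by rw [hC]; linarith
    · rw [hg_zero y hy hyg, zero_mul, abs_zero]
      exact hC0.le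
  have hTm_le : ∀ t > 0, ∀ y ∈ Ω, ∀ x ∈ Ω, Tm v H g κ₁ κ₂ t y x ≤ Lt v y x + t * C := by
    intro t ht y hy x hx
    unfold Tm
    gcongr
    exact (le_abs_self _).trans (hpert y hy x hx)
  have hbdd : ∀ t > 0, ∀ x ∈ Ω, BddAbove (range fun y : Ω => Tm v H g κ₁ κ₂ t y x) := by
    intro t ht x hx
    refine ⟨v x + t * C, ?_⟩
    rintro _ ⟨y, rfl⟩
    exact (hTm_le t ht y y.2 x hx).trans (by have := Lt_le hv hx y.2; linarith)
  have hwge : ∀ t > 0, ∀ x ∈ Ω,
      v x + t * (g (gradient v x) * (H x - κ₁ * v x - κ₂)) ≤ wt Ω v H g κ₁ κ₂ t x := by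
    intro t ht x hx
    have h1 := le_ciSup (hbdd t ht x hx) ⟨x, hx⟩
    simp only [Tm, Lt_self] at h1
    exact h1
  have hwle : ∀ t > 0, ∀ x ∈ Ω, ∀ c : ℝ, (∀ y ∈ Ω, Tm v H g κ₁ κ₂ t y x ≤ c) →
      wt Ω v H g κ₁ κ₂ t x ≤ c := by
    intro t ht x hx c hc
    exact ciSup_le fun y => hc y y.2
  -- the compact set
  obtain ⟨K, hK, hKΩ, hKv⟩ := hv.coer (CL + 2)
  have hfar : ∀ x ∈ Ω \ K, ∀ y ∈ Kg, 1 < v x - Lt v y x := by
    intro x hx y hy
    have h1 := hKv x hx
    have h2 := (le_abs_self _).trans (hCL y hy x hx.1)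
    linarith
  have hoffg : ∀ x ∈ Ω \ K, x ∉ Kg := by
    intro x hx hxg
    have h1 := hfar x hx x hxg
    rw [Lt_self, sub_self] at h1
    linarith
  have heq : ∀ t > 0, t * C < 1 → ∀ x ∈ Ω \ K, wt Ω v H g κ₁ κ₂ t x = v x := by
    intro t ht htC x hx
    apply le_antisymm
    · refine hwle t ht x hx.1 _ fun y hy => ?_
      by_cases hyg : y ∈ Kg
      · have h1 := hTm_le t ht y hy x hx.1
        have h2 := hfar x hx y hyg
        linarith
      · unfold Tm
        rw [hg_zero y hy hyg, zero_mul, mul_zero, add_zero]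
        exact Lt_le hv hx.1 hy
    · have h1 := hwge t ht x hx.1
      rw [hg_zero x hx.1 (hoffg x hx), zero_mul, mul_zero, add_zero] at h1
      exact h1
  have hsmall : ∀ c : ℝ, ∀ ε > 0, ∀ᶠ t in 𝓝[>] (0 : ℝ), t * c < ε := by
    intro c ε hε
    have h1 : Tendsto (fun t : ℝ => t * c) (𝓝[>] 0) (𝓝 0) := by
      have : Tendsto (fun t : ℝ => t * c) (𝓝 0) (𝓝 (0 * c)) :=
        (continuous_id.mul continuous_const).tendsto 0
      rw [zero_mul] at this
      exact this.mono_left nhdsWithin_le_nhds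
    exact h1.eventually (gt_mem_nhds hε)
  have hpos : ∀ᶠ t in 𝓝[>] (0 : ℝ), 0 < t := self_mem_nhdsWithin
  refine ⟨wt Ω v H g κ₁ κ₂, K, hK, hKΩ, ?_, ?_, ?_, ?_, ?_⟩
  -- convexity
  · intro t ht
    refine ⟨hv.convex, fun x₁ hx₁ x₂ hx₂ a b ha hb hab => ?_⟩
    refine hwle t ht _ (hv.convex hx₁ hx₂ ha hb hab) _ fun y hy => ?_
    have h1 := le_ciSup (hbdd t ht x₁ hx₁) ⟨y, hy⟩
    have h2 := le_ciSup (hbdd t ht x₂ hx₂) ⟨y, hy⟩
    have h3 : Tm v H g κ₁ κ₂ t y (a • x₁ + b • x₂) ≤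
        a * Tm v H g κ₁ κ₂ t y x₁ + b * Tm v H g κ₁ κ₂ t y x₂ := by
      unfold Tm
      rw [Lt_comb v y x₁ x₂ hab]
      have h4 := hH.2 (mem_univ x₁) (mem_univ x₂) ha hb hab
      simp only [smul_eq_mul] at h4
      have h5 : 0 ≤ t * g (gradient v y) := mul_nonneg ht.le (hg0 _)
      have h6 := mul_le_mul_of_nonneg_left h4 h5
      have hb' : b = 1 - a := by linarith
      subst hb'
      nlinarith [h6]
    calc Tm v H g κ₁ κ₂ t y (a • x₁ + b • x₂)
        ≤ a * Tm v H g κ₁ κ₂ t y x₁ + b * Tm v H g κ₁ κ₂ t y x₂ := h3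
      _ ≤ a * wt Ω v H g κ₁ κ₂ t x₁ + b * wt Ω v H g κ₁ κ₂ t x₂ :=
          add_le_add (mul_le_mul_of_nonneg_left h1 ha) (mul_le_mul_of_nonneg_left h2 hb)
  -- equality off `K`
  · filter_upwards [hpos, hsmall C 1 one_pos] with t ht htC
    exact heq t ht htC
  -- expansion
  · intro ε hε
    obtain ⟨CK, hCK⟩ : ∃ c : ℝ, ∀ x ∈ K, |H x - κ₁ * v x - κ₂| ≤ c := by
      obtain ⟨c, hc⟩ := hK.exists_bound_of_continuousOn
        (f := fun x => H x - κ₁ * v x - κ₂)
        ((hL.continuous.continuousOn.sub (continuousOn_const.mul (hvc.mono hKΩ))).sub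
          continuousOn_const)
      exact ⟨c, hc⟩
    set ε' : ℝ := ε / (2 * (|CK| + 1)) with hε'
    have hε'0 : 0 < ε' := by positivity
    have hunif : UniformContinuous g := hgc.uniformContinuous_of_continuous hg
    obtain ⟨ε'', hε''0, hε''⟩ := Metric.uniformContinuous_iff.1 hunif ε' hε'0
    obtain ⟨θ, hθ, hθ'⟩ := hv.near_tangent hK hKΩ (half_pos hε''0)
    filter_upwards [hpos, hsmall C 1 one_pos, hsmall (2 * C) θ hθ,
      hsmall (2 * G * |κ₁| * C) (ε / 2) (half_pos hε)] with t ht htC htθ htε x hx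
    by_cases hxK : x ∈ K
    · have hlow := hwge t ht x hx
      have hup : wt Ω v H g κ₁ κ₂ t x ≤
          v x + t * (g (gradient v x) * (H x - κ₁ * v x - κ₂)) + ε * t := by
        refine hwle t ht x hx _ fun y hy => ?_
        have hd0 := Lt_le hv hx hy
        have hφ : |g (gradient v x) * (H x - κ₁ * v x - κ₂)| ≤ C := by
          have := hpert x hx x hx
          rwa [Lt_self] at this
        by_cases hd : 2 * C * t ≤ v x - Lt v y x
        · have h1 := hTm_le t ht y hy x hx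
          have h2 := (abs_le.1 hφ).1
          have h3 : t * -C ≤ t * (g (gradient v x) * (H x - κ₁ * v x - κ₂)) :=
            mul_le_mul_of_nonneg_left h2 ht.le
          have h4 : 0 ≤ ε * t := by positivity
          linarith
        · push Not at hd
          have hgr : ‖gradient v y - gradient v x‖ ≤ ε'' / 2 := by
            refine hθ' x hxK y hy ?_
            have : v x - (v y + ⟪gradient v y, x - y⟫) = v x - Lt v y x := rfl
            rw [this]
            linarith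
          have hgd : |g (gradient v y) - g (gradient v x)| < ε' := by
            have := hε'' (a := gradient v y) (b := gradient v x) (by
              rw [dist_eq_norm]; linarith)
            rwa [Real.dist_eq] at this
          -- the term
          have e1 : Tm v H g κ₁ κ₂ t y x = Lt v y x +
              t * (g (gradient v x) * (H x - κ₁ * v x - κ₂)) +
              t * ((g (gradient v y) - g (gradient v x)) * (H x - κ₁ * v x - κ₂)) +
              t * (g (gradient v y) * κ₁ * (v x - Lt v y x)) := by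
            unfold Tm; ring
          have e2 : (g (gradient v y) - g (gradient v x)) * (H x - κ₁ * v x - κ₂) ≤ ε / 2 := by
            calc (g (gradient v y) - g (gradient v x)) * (H x - κ₁ * v x - κ₂)
                ≤ |(g (gradient v y) - g (gradient v x)) * (H x - κ₁ * v x - κ₂)| :=
                  le_abs_self _
              _ = |g (gradient v y) - g (gradient v x)| * |H x - κ₁ * v x - κ₂| := abs_mul _ _
              _ ≤ ε' * (|CK| + 1) := by
                  apply mul_le_mul hgd.le _ (abs_nonneg _) hε'0.le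
                  have h5 := (hCK x hxK).trans (le_abs_self CK)
                  linarith
              _ = ε / 2 := by
                  rw [hε']
                  field_simp
          have e3 : g (gradient v y) * κ₁ * (v x - Lt v y x) ≤ G * |κ₁| * (2 * C * t) := by
            have hdd : 0 ≤ v x - Lt v y x := by linarith
            calc g (gradient v y) * κ₁ * (v x - Lt v y x)
                ≤ g (gradient v y) * |κ₁| * (v x - Lt v y x) := by
                  gcongr
                  · exact hg0 _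
                  · exact le_abs_self _
              _ ≤ G * |κ₁| * (2 * C * t) := by
                  gcongr
                  exact hG' _
          have e4 : t * ((g (gradient v y) - g (gradient v x)) * (H x - κ₁ * v x - κ₂)) ≤
              t * (ε / 2) := mul_le_mul_of_nonneg_left e2 ht.le
          have e5 : t * (g (gradient v y) * κ₁ * (v x - Lt v y x)) ≤ t * (ε / 2) := by
            refine mul_le_mul_of_nonneg_left (e3.trans ?_) ht.le
            linarith
          rw [e1]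
          linarith
      rw [abs_le]
      have h4 : 0 ≤ ε * t := by positivity
      constructor <;> linarith
    · have h1 := heq t ht htC x ⟨hx, hxK⟩
      rw [h1, hg_zero x hx (hoffg x ⟨hx, hxK⟩)]
      simp only [zero_mul, mul_zero, sub_self, abs_zero]
      positivity
  -- upper constraint
  · intro Ψ hΨ hvΨ hcon
    have hKK : IsCompact (K ×ˢ Kg) := hK.prod hKgc
    have hsub : K ×ˢ Kg ⊆ Ω ×ˢ Ω := prod_mono hKΩ hKgΩ
    have cL : ContinuousOn (fun p : E × E => Lt v p.2 p.1) (K ×ˢ Kg) := (cont_Lt hv).mono hsub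
    have cb : ContinuousOn (fun p : E × E => H p.1 - κ₁ * Lt v p.2 p.1 - κ₂) (K ×ˢ Kg) :=
      (((hL.continuous.comp continuous_fst).continuousOn).sub (continuousOn_const.mul cL)).sub
        continuousOn_const
    have cd : ContinuousOn (fun p : E × E => Ψ p.1 - Lt v p.2 p.1) (K ×ˢ Kg) :=
      ((hΨ.mono hKΩ).comp continuousOn_fst (fun p hp => hp.1)).sub cL
    have hQ : IsCompact {p ∈ K ×ˢ Kg | 0 ≤ H p.1 - κ₁ * Lt v p.2 p.1 - κ₂} := by
      have h1 := cb.preimage_isClosed_of_isClosed hKK.isClosed (isClosed_Ici (a := (0 : ℝ)))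
      exact hKK.of_isClosed_subset h1 inter_subset_left
    obtain ⟨d₀, hd₀, hd⟩ : ∃ d₀ > 0, ∀ x ∈ K, ∀ y ∈ Kg, 0 ≤ H x - κ₁ * Lt v y x - κ₂ →
        d₀ ≤ Ψ x - Lt v y x := by
      rcases {p ∈ K ×ˢ Kg | 0 ≤ H p.1 - κ₁ * Lt v p.2 p.1 - κ₂}.eq_empty_or_nonempty with
        hem | hnonem
      · refine ⟨1, one_pos, fun x hx y hy h => ?_⟩
        have : (x, y) ∈ {p ∈ K ×ˢ Kg | 0 ≤ H p.1 - κ₁ * Lt v p.2 p.1 - κ₂} := ⟨⟨hx, hy⟩, h⟩
        rw [hem] at this
        exact absurd this (notMem_empty _)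
      · obtain ⟨q, hq, hmin⟩ := hQ.exists_isMinOn hnonem (cd.mono (fun p hp => hp.1))
        refine ⟨Ψ q.1 - Lt v q.2 q.1, ?_, fun x hx y hy h => hmin (a := (x, y)) ⟨⟨hx, hy⟩, h⟩⟩
        by_contra hcontra
        push Not at hcontra
        have hq1 : q.1 ∈ Ω := hKΩ hq.1.1
        have hq2 : q.2 ∈ Ω := hKgΩ hq.1.2
        have h1 := hvΨ q.1 hq1
        have h2 := Lt_le hv hq1 hq2
        have h3 : v q.1 = Ψ q.1 := by linarith
        have h4 : Lt v q.2 q.1 = v q.1 := by linarith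
        have h5 := grad_eq hv hq1 hq2 h4
        have h6 := hcon q.1 hq1 h3 (by rw [← h5]; exact hq.1.2.2)
        have h7 := hq.2
        rw [h4] at h7
        linarith
    filter_upwards [hpos, hsmall C 1 one_pos, hsmall C d₀ hd₀] with t ht htC htd x hx
    by_cases hxK : x ∈ K
    · refine hwle t ht x hx _ fun y hy => ?_
      by_cases hyg : y ∈ Kg
      · rcases le_total 0 (H x - κ₁ * Lt v y x - κ₂) with hb | hb
        · have h1 := hTm_le t ht y hy x hx
          have h2 := hd x hxK y hyg hb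
          linarith
        · have h1 : Tm v H g κ₁ κ₂ t y x ≤ Lt v y x := by
            unfold Tm
            have : t * (g (gradient v y) * (H x - κ₁ * Lt v y x - κ₂)) ≤ 0 :=
              mul_nonpos_of_nonneg_of_nonpos ht.le (mul_nonpos_of_nonneg_of_nonpos (hg0 _) hb)
            linarith
          exact h1.trans ((Lt_le hv hx hy).trans (hvΨ x hx))
      · unfold Tm
        rw [hg_zero y hy hyg, zero_mul, mul_zero, add_zero]
        exact (Lt_le hv hx hy).trans (hvΨ x hx)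
    · rw [heq t ht htC x ⟨hx, hxK⟩]
      exact hvΨ x hx
  -- lower constraint
  · intro B hB hBv hcon
    have cb : ContinuousOn (fun x : E => H x - κ₁ * v x - κ₂) Kg :=
      (hL.continuous.continuousOn.sub (continuousOn_const.mul (hvc.mono hKgΩ))).sub
        continuousOn_const
    have cd : ContinuousOn (fun x : E => v x - B x) Kg := (hvc.mono hKgΩ).sub (hB.mono hKgΩ)
    have hQ : IsCompact {x ∈ Kg | H x - κ₁ * v x - κ₂ ≤ 0} := by
      have h1 := cb.preimage_isClosed_of_isClosed hKgc.isClosed (isClosed_Iic (a := (0 : ℝ)))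
      exact hKgc.of_isClosed_subset h1 inter_subset_left
    obtain ⟨d₀, hd₀, hd⟩ : ∃ d₀ > 0, ∀ x ∈ Kg, H x - κ₁ * v x - κ₂ ≤ 0 → d₀ ≤ v x - B x := by
      rcases {x ∈ Kg | H x - κ₁ * v x - κ₂ ≤ 0}.eq_empty_or_nonempty with hem | hnonem
      · refine ⟨1, one_pos, fun x hx h => ?_⟩
        have : x ∈ {x ∈ Kg | H x - κ₁ * v x - κ₂ ≤ 0} := ⟨hx, h⟩
        rw [hem] at this
        exact absurd this (notMem_empty _)
      · obtain ⟨q, hq, hmin⟩ := hQ.exists_isMinOn hnonem (cd.mono (fun p hp => hp.1))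
        refine ⟨v q - B q, ?_, fun x hx h => hmin (a := x) ⟨hx, h⟩⟩
        by_contra hcontra
        push Not at hcontra
        have hq1 : q ∈ Ω := hKgΩ hq.1
        have h1 := hBv q hq1
        have h3 : v q = B q := by linarith
        have h6 := hcon q hq1 h3 hq.1.2
        have h7 := hq.2
        linarith
    filter_upwards [hpos, hsmall C d₀ hd₀] with t ht htd x hx
    refine le_trans ?_ (hwge t ht x hx)
    by_cases hxg : x ∈ Kg
    · rcases le_total (H x - κ₁ * v x - κ₂) 0 with hb | hb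
      · have h1 := hd x hxg hb
        have h2 := (abs_le.1 (hpert x hx x hx)).1
        rw [Lt_self] at h2
        have h3 : t * -C ≤ t * (g (gradient v x) * (H x - κ₁ * v x - κ₂)) :=
          mul_le_mul_of_nonneg_left h2 ht.le
        linarith
      · have h3 : 0 ≤ t * (g (gradient v x) * (H x - κ₁ * v x - κ₂)) :=
          mul_nonneg ht.le (mul_nonneg (hg0 _) hb)
        have := hBv x hx
        linarith
    · rw [hg_zero x hx hxg, zero_mul, mul_zero, add_zero]
      exact hBv x hx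

end PLap
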