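import Pool.Agent.Lib.MP_a627f3_an.ConvA

open MeasureTheory Set Filter Topology Metric
open scoped RealInnerProductSpace ENNReal NNReal

namespace PLap

variable {E : Type*} [NormedAddCommGroup E] [InnerProductSpace ℝ E] [FiniteDimensional ℝ E]
  [CompleteSpace E] [MeasurableSpace E] [BorelSpace E]

omit [FiniteDimensional ℝ E] [MeasurableSpace E] [BorelSpace E] in
private theorem ConvB.upper {Ω : Set E} (hΩ : IsOpen Ω)
    {v : E → ℝ} {x : E} (hx : x ∈ Ω) (hd : DifferentiableAt ℝ v x) (e : E) {ε : ℝ} (hε : 0 < ε) :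
    ∃ h : ℝ, 0 < h ∧ x + h • e ∈ Ω ∧ v (x + h • e) - v x < h * (⟪gradient v x, e⟫ + ε) := by
  have h1 : HasDerivAt (fun t : ℝ => v (x + t • e)) ⟪gradient v x, e⟫ 0 := by
    have h2 := hd.hasFDerivAt.hasLineDerivAt e
    rwa [← inner_gradient_left] at h2
  rw [hasDerivAt_iff_tendsto_slope] at h1
  have h2 : Tendsto (slope (fun t : ℝ => v (x + t • e)) 0) (𝓝[>] 0) (𝓝 ⟪gradient v x, e⟫) :=
    h1.mono_left (nhdsWithin_mono _ fun t ht => (ne_of_gt ht : t ≠ 0))
  have h3 := h2.eventually_lt_const (by linarith : ⟪gradient v x, e⟫ < ⟪gradient v x, e⟫ + ε)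
  have h4 : ∀ᶠ t : ℝ in 𝓝[>] 0, x + t • e ∈ Ω := by
    have h5 : Tendsto (fun t : ℝ => x + t • e) (𝓝[>] 0) (𝓝 (x + (0 : ℝ) • e)) := by
      refine Tendsto.mono_left ?_ nhdsWithin_le_nhds
      exact (Continuous.tendsto (by fun_prop) 0)
    rw [zero_smul, add_zero] at h5
    exact h5.eventually_mem (hΩ.mem_nhds hx)
  obtain ⟨t, h5, h6, h7⟩ := (h3.and (h4.and self_mem_nhdsWithin)).exists
  have ht : 0 < t := h7
  refine ⟨t, ht, h6, ?_⟩
  rw [slope_def_field, sub_zero, zero_smul, add_zero, div_lt_iff₀ ht] at h5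
  linarith

theorem gradient_tendsto {α : Type*} {l : Filter α} {Ω : Set E} (hΩ : IsOpen Ω)
    {w : α → E → ℝ} {v : E → ℝ} (hw : ∀ᶠ a in l, ConvexOn ℝ Ω (w a)) (hv : ConvexOn ℝ Ω v)
    (hlim : ∀ x ∈ Ω, Tendsto (fun a => w a x) l (𝓝 (v x))) {x : E} (hx : x ∈ Ω)
    (hd : DifferentiableAt ℝ v x) (hwd : ∀ᶠ a in l, DifferentiableAt ℝ (w a) x) :
    Tendsto (fun a => gradient (w a) x) l (𝓝 (gradient v x)) := by
  have key : ∀ (e : E) (ε : ℝ), 0 < ε →
      ∀ᶠ a in l, ⟪gradient (w a) x, e⟫ < ⟪gradient v x, e⟫ + ε := by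
    intro e ε hε
    obtain ⟨h, hh, hmem, hlt⟩ := ConvB.upper hΩ hx hd e hε
    have h1 := ((hlim _ hmem).sub (hlim x hx)).eventually_lt_const hlt
    filter_upwards [h1, hw, hwd] with a h2 h3 h4
    have h5 := tangent_le h3 hx h4 hmem
    rw [add_sub_cancel_left, inner_smul_right] at h5
    have h6 : h * ⟪gradient (w a) x, e⟫ < h * (⟪gradient v x, e⟫ + ε) := by linarith
    exact lt_of_mul_lt_mul_left h6 hh.le
  have key2 : ∀ e : E, Tendsto (fun a => ⟪gradient (w a) x, e⟫) l (𝓝 ⟪gradient v x, e⟫) := by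
    intro e
    rw [Metric.tendsto_nhds]
    intro ε hε
    filter_upwards [key e ε hε, key (-e) ε hε] with a h1 h2
    rw [inner_neg_right, inner_neg_right] at h2
    rw [Real.dist_eq, abs_lt]
    constructor <;> linarith
  have b := stdOrthonormalBasis ℝ E
  have h1 : ∀ ξ : E, ξ = ∑ i, ⟪ξ, b i⟫ • b i := by
    intro ξ
    conv_lhs => rw [← b.sum_repr ξ]
    refine Finset.sum_congr rfl fun i _ => ?_
    rw [b.repr_apply_apply, real_inner_comm]
  have h2 : Tendsto (fun a => ∑ i, ⟪gradient (w a) x, b i⟫ • b i) l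
      (𝓝 (∑ i, ⟪gradient v x, b i⟫ • b i)) :=
    tendsto_finsetSum _ fun i _ => (key2 (b i)).smul_const _
  simpa only [← h1] using h2

/-- local equi-Lipschitz bound -/
private theorem ConvB.local_lip {α : Type*} {l : Filter α} {Ω : Set E} (hΩ : IsOpen Ω)
    {w : α → E → ℝ} {v : E → ℝ} (hw : ∀ᶠ a in l, ConvexOn ℝ Ω (w a)) (hv : ConvexOn ℝ Ω v)
    (hlim : ∀ x ∈ Ω, Tendsto (fun a => w a x) l (𝓝 (v x))) {x : E} (hx : x ∈ Ω) :
    ∃ (r : ℝ) (L : ℝ≥0), 0 < r ∧ ball x r ⊆ Ω ∧ LipschitzOnWith L v (ball x r) ∧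
      ∀ᶠ a in l, LipschitzOnWith L (w a) (ball x r) := by
  obtain ⟨b, hxb, hbΩ⟩ := exists_mem_interior_convexHull_affineBasis (hΩ.mem_nhds hx)
  obtain ⟨r, hr, hrb⟩ := Metric.isOpen_iff.1 isOpen_interior x hxb
  have hb : ∀ i, b i ∈ Ω := fun i => hbΩ (subset_convexHull _ _ (mem_range_self i))
  obtain ⟨M, hM⟩ : ∃ M : ℝ, ∀ i, v (b i) ≤ M := by
    obtain ⟨M, hM⟩ := (finite_range fun i => v (b i)).bddAbove
    exact ⟨M, fun i => hM (mem_range_self i)⟩
  -- a general bound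
  have gen : ∀ u : E → ℝ, ConvexOn ℝ Ω u → (∀ i, u (b i) ≤ M + 1) → v x - 1 ≤ u x →
      ∀ y ∈ ball x r, |u y| ≤ |M + 1| + 2 * |v x - 1| := by
    intro u hu h1 h2
    have hup : ∀ y ∈ ball x r, u y ≤ M + 1 := by
      intro y hy
      obtain ⟨_, ⟨i, rfl⟩, h3⟩ := ConvexOn.exists_ge_of_mem_convexHull hu
        (fun z hz => hbΩ (subset_convexHull _ _ hz)) (interior_subset (hrb hy))
      exact h3.trans (h1 i)
    intro y hy
    have hy' : (2 : ℝ) • x - y ∈ ball x r := by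
      rw [mem_ball, dist_eq_norm] at hy ⊢
      have : (2 : ℝ) • x - y - x = -(y - x) := by rw [two_smul]; abel
      rwa [this, norm_neg]
    have h3 := hup y hy
    have h4 := hup _ hy'
    have h5 := hu.2 (hbΩ (interior_subset (hrb hy))) (hbΩ (interior_subset (hrb hy')))
      (by norm_num : (0 : ℝ) ≤ 1 / 2) (by norm_num : (0 : ℝ) ≤ 1 / 2) (by norm_num)
    have h6 : (1 / 2 : ℝ) • y + (1 / 2 : ℝ) • ((2 : ℝ) • x - y) = x := by
      rw [smul_sub, smul_smul]; simp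
    rw [h6, smul_eq_mul, smul_eq_mul] at h5
    rw [abs_le]
    have h7 := le_abs_self (M + 1)
    have h8 := neg_abs_le (v x - 1)
    have h9 := abs_nonneg (v x - 1)
    constructor <;> linarith
  have hball : ball x r ⊆ Ω := fun y hy => hbΩ (interior_subset (hrb hy))
  have hlip : ∀ u : E → ℝ, ConvexOn ℝ Ω u → (∀ i, u (b i) ≤ M + 1) → v x - 1 ≤ u x →
      LipschitzOnWith (2 * (|M + 1| + 2 * |v x - 1|) / (r / 2)).toNNReal u (ball x (r / 2)) := by
    intro u hu h1 h2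
    have h3 : ConvexOn ℝ (ball x r) u := hu.subset hball (convex_ball _ _)
    have h4 := h3.lipschitzOnWith_of_abs_le (half_pos hr) (fun a ha => gen u hu h1 h2 a ha)
    rwa [sub_half] at h4
  refine ⟨r / 2, _, half_pos hr, (ball_subset_ball (by linarith)).trans hball,
    hlip v hv (fun i => by linarith [hM i]) (by linarith), ?_⟩
  have h1 : ∀ᶠ a in l, ∀ i, w a (b i) ≤ M + 1 := by
    rw [eventually_all]
    intro i
    have := (hlim _ (hb i)).eventually_lt_const (by linarith [hM i] : v (b i) < M + 1)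
    filter_upwards [this] with a ha using ha.le
  have h2 : ∀ᶠ a in l, v x - 1 < w a x :=
    (hlim x hx).eventually_const_lt (by linarith)
  filter_upwards [hw, h1, h2] with a h3 h4 h5
  exact hlip (w a) h3 h4 h5.le

theorem tendstoUniformlyOn_of_convex {α : Type*} {l : Filter α} {Ω : Set E} (hΩ : IsOpen Ω)
    {w : α → E → ℝ} {v : E → ℝ} (hw : ∀ᶠ a in l, ConvexOn ℝ Ω (w a)) (hv : ConvexOn ℝ Ω v)
    (hlim : ∀ x ∈ Ω, Tendsto (fun a => w a x) l (𝓝 (v x))) {K : Set E} (hK : IsCompact K)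
    (hKΩ : K ⊆ Ω) : TendstoUniformlyOn w v l K := by
  rw [← tendstoLocallyUniformlyOn_iff_tendstoUniformlyOn_of_compact hK,
    Metric.tendstoLocallyUniformlyOn_iff]
  intro ε hε x hx
  obtain ⟨r, L, hr, hrΩ, hLv, hLw⟩ := ConvB.local_lip hΩ hw hv hlim (hKΩ hx)
  set s := min r (ε / (3 * (L + 1))) with hs
  have hL0 : (0 : ℝ) ≤ L := L.2
  have hs0 : 0 < s := lt_min hr (by positivity)
  refine ⟨ball x s, mem_nhdsWithin_of_mem_nhds (ball_mem_nhds x hs0), ?_⟩
  have h1 := (Metric.tendsto_nhds.1 (hlim x (hKΩ hx))) (ε / 3) (by positivity)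
  filter_upwards [hLw, h1] with a h2 h3 y hy
  have hyr : y ∈ ball x r := ball_subset_ball (min_le_left _ _) hy
  have hxr : x ∈ ball x r := mem_ball_self hr
  have h4 := hLv.dist_le_mul y hyr x hxr
  have h5 := h2.dist_le_mul x hxr y hyr
  have h6 : dist y x < ε / (3 * (L + 1)) := (mem_ball.1 hy).trans_le (min_le_right _ _)
  have h7 : (L : ℝ) * dist y x ≤ ε / 3 := by
    calc (L : ℝ) * dist y x ≤ (L + 1) * (ε / (3 * (L + 1))) :=
          mul_le_mul (by linarith) h6.le dist_nonneg (by linarith)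
      _ = ε / 3 := by field_simp
  rw [dist_comm x y] at h5
  rw [dist_comm] at h3
  have h8 : (L : ℝ) * dist y x < ε / 3 ∨ (L : ℝ) * dist y x = ε / 3 := lt_or_eq_of_le h7
  calc dist (v y) (w a y) ≤ dist (v y) (v x) + dist (v x) (w a x) + dist (w a x) (w a y) :=
        dist_triangle4 _ _ _ _
    _ < ε := by linarith

theorem gradient_tendstoUniformlyOn {α : Type*} {l : Filter α} {Ω : Set E} (hΩ : IsOpen Ω)
    {w : α → E → ℝ} {v : E → ℝ} (hw : ∀ᶠ a in l, ConvexOn ℝ Ω (w a)) (hv : ConvexOn ℝ Ω v)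
    (hlim : ∀ x ∈ Ω, Tendsto (fun a => w a x) l (𝓝 (v x)))
    (hd : ContDiffOn ℝ 1 v Ω) (hwd : ∀ᶠ a in l, ∀ x ∈ Ω, DifferentiableAt ℝ (w a) x)
    {K : Set E} (hK : IsCompact K) (hKΩ : K ⊆ Ω) :
    TendstoUniformlyOn (fun a => gradient (w a)) (gradient v) l K := by
  obtain ⟨h₀, hh₀, hcth⟩ := hK.exists_cthickening_subset_open hΩ hKΩ
  set K' := cthickening h₀ K with hK'
  have hK'c : IsCompact K' := hK.cthickening
  have hvd : ∀ x ∈ Ω, DifferentiableAt ℝ v x := fun x hx =>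
    (hd.differentiableOn one_ne_zero).differentiableAt (hΩ.mem_nhds hx)
  have hgc : ContinuousOn (gradient v) K' := by
    have h1 : ContinuousOn (fderiv ℝ v) Ω := hd.continuousOn_fderiv_of_isOpen hΩ le_rfl
    have h2 : ContinuousOn (gradient v) Ω := by
      unfold gradient
      exact (LinearIsometryEquiv.continuous _).comp_continuousOn h1
    exact h2.mono hcth
  have huc := hK'c.uniformContinuousOn_of_continuous hgc
  rw [Metric.uniformContinuousOn_iff] at huc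
  rw [Metric.tendstoUniformlyOn_iff]
  intro ε hε
  obtain ⟨δ, hδ, hδ'⟩ := huc (ε / 2) (by positivity)
  set h := min h₀ (δ / 2) with hh
  have hh0 : 0 < h := lt_min hh₀ (by positivity)
  have hunif := tendstoUniformlyOn_of_convex hΩ hw hv hlim hK'c hcth
  rw [Metric.tendstoUniformlyOn_iff] at hunif
  filter_upwards [hunif (ε * h / 8) (by positivity), hw, hwd] with a h1 h2 h3 x hx
  have hxΩ := hKΩ hx
  have hxK' : x ∈ K' := self_subset_cthickening _ hx
  by_cases hz : gradient (w a) x = gradient v x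
  · rw [hz, dist_self]; exact hε
  set ζ := gradient (w a) x - gradient v x with hζ
  have hζ0 : 0 < ‖ζ‖ := norm_pos_iff.2 (sub_ne_zero.2 hz)
  set e := ‖ζ‖⁻¹ • ζ with he
  have hen : ‖e‖ = 1 := by
    rw [he, norm_smul, norm_inv, norm_norm, inv_mul_cancel₀ hζ0.ne']
  have hdist : dist (x + h • e) x = h := by
    rw [dist_eq_norm, add_sub_cancel_left, norm_smul, hen, mul_one, Real.norm_eq_abs,
      abs_of_pos hh0]
  have hyK' : x + h • e ∈ K' := by
    apply mem_cthickening_of_dist_le _ x _ _ hx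
    rw [hdist]
    exact min_le_left _ _
  have hyΩ := hcth hyK'
  have h4 := tangent_le h2 hxΩ (h3 x hxΩ) hyΩ
  rw [add_sub_cancel_left, inner_smul_right] at h4
  have h5 := tangent_le hv hyΩ (hvd _ hyΩ) hxΩ
  have h6 : x - (x + h • e) = -(h • e) := by abel
  rw [h6, inner_neg_right, inner_smul_right] at h5
  have h7 := h1 x hxK'
  have h8 := h1 _ hyK'
  rw [Real.dist_eq, abs_lt] at h7 h8
  have h9 : ⟪gradient v (x + h • e) - gradient v x, e⟫ ≤ ε / 2 := by
    refine (real_inner_le_norm _ _).trans ?_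
    rw [hen, mul_one, ← dist_eq_norm]
    refine (hδ' _ hyK' _ hxK' ?_).le
    rw [hdist]
    exact (min_le_right _ _).trans_lt (by linarith)
  rw [inner_sub_left] at h9
  have h10 : h * ⟪ζ, e⟫ ≤ h * (3 * ε / 4) := by
    rw [hζ, inner_sub_left]
    have h11 : h * ⟪gradient v (x + h • e), e⟫ ≤ h * (⟪gradient v x, e⟫ + ε / 2) :=
      mul_le_mul_of_nonneg_left (by linarith) hh0.le
    nlinarith [h7.1, h7.2, h8.1, h8.2]
  have h11 : ⟪ζ, e⟫ = ‖ζ‖ := by
    rw [he, inner_smul_right, real_inner_self_eq_norm_sq]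
    field_simp
  have h12 := le_of_mul_le_mul_left h10 hh0
  rw [dist_comm, dist_eq_norm, ← hζ, ← h11]
  linarith

end PLap
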