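import Pool.Agent.Lib.MP_a627f3_an.ConvA
import Pool.Agent.Lib.MP_a627f3_an.ConvB

open MeasureTheory Set Filter Topology Metric
open scoped RealInnerProductSpace ENNReal NNReal

namespace PLap

variable {E : Type*} [NormedAddCommGroup E] [InnerProductSpace ℝ E] [FiniteDimensional ℝ E]
  [CompleteSpace E] [MeasurableSpace E] [BorelSpace E]

set_option linter.unusedSectionVars false

/-- Convex functions bounded by a fixed function are locally equi-Lipschitz. -/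
theorem equi_lip_aux {Ω : Set E} (hΩ : IsOpen Ω) {Φ : E → ℝ} {x₀ : E} (hx₀ : x₀ ∈ Ω) :
    ∃ r > 0, ∃ K : ℝ≥0, ∀ f : E → ℝ, ConvexOn ℝ Ω f → (∀ x ∈ Ω, 0 ≤ f x) →
      (∀ x ∈ Ω, f x ≤ Φ x) → LipschitzOnWith K f (ball x₀ r) := by
  obtain ⟨b, hb1, hb2⟩ := exists_mem_interior_convexHull_affineBasis (hΩ.mem_nhds hx₀)
  obtain ⟨r, hr, hball⟩ := Metric.isOpen_iff.1 isOpen_interior x₀ hb1
  obtain ⟨M, hM⟩ : ∃ M : ℝ, ∀ i, Φ (b i) ≤ M := by
    obtain ⟨M, hM⟩ := (Set.finite_range (fun i => Φ (b i))).bddAbove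
    exact ⟨M, fun i => hM ⟨i, rfl⟩⟩
  refine ⟨r / 2, half_pos hr, (2 * M / (r / 2)).toNNReal, fun f hf h0 h1 => ?_⟩
  have hsub : ball x₀ r ⊆ Ω := hball.trans (interior_subset.trans hb2)
  have hfc : ConvexOn ℝ (ball x₀ r) f := hf.subset hsub (convex_ball x₀ r)
  have h2 := hfc.lipschitzOnWith_of_abs_le (half_pos hr) (M := M) fun a ha => by
    have haΩ : a ∈ Ω := hsub (mem_ball.2 ha)
    rw [abs_of_nonneg (h0 a haΩ)]
    have hconv : a ∈ convexHull ℝ (range b) := interior_subset (hball (mem_ball.2 ha))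
    obtain ⟨y, ⟨i, rfl⟩, hy⟩ := (hf.subset hb2
      (convex_convexHull ℝ _)).exists_ge_of_mem_convexHull (subset_convexHull ℝ (range b)) hconv
    exact hy.trans ((h1 _ (hb2 (subset_convexHull ℝ _ ⟨i, rfl⟩))).trans (hM i))
  have h3 : r - r / 2 = r / 2 := by ring
  rw [h3] at h2
  exact h2

theorem convex_compactness {Ω : Set E} (hΩ : IsOpen Ω) {Φ : E → ℝ} {w : ℕ → E → ℝ}
    (hw : ∀ k, ConvexOn ℝ Ω (w k)) (h0 : ∀ k, ∀ x ∈ Ω, 0 ≤ w k x)
    (h1 : ∀ k, ∀ x ∈ Ω, w k x ≤ Φ x) :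
    ∃ (φ : ℕ → ℕ) (v : E → ℝ), StrictMono φ ∧ ConvexOn ℝ Ω v ∧
      ∀ x ∈ Ω, Tendsto (fun k => w (φ k) x) atTop (𝓝 (v x)) := by
  classical
  obtain ⟨D₀, hD₀c, hD₀d⟩ := TopologicalSpace.exists_countable_dense E
  let D : Set E := D₀ ∩ Ω
  have hDc : Countable D := (hD₀c.mono inter_subset_left).to_subtype
  have hcomp : IsCompact (Set.pi univ fun x : D => Icc (0 : ℝ) (Φ x)) :=
    isCompact_univ_pi fun _ => isCompact_Icc
  obtain ⟨a, -, φ, hφ, hlim⟩ := hcomp.tendsto_subseq (x := fun k (x : D) => w k x)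
    (fun k x _ => ⟨h0 k x x.2.2, h1 k x x.2.2⟩)
  have hlim' : ∀ x : D, Tendsto (fun k => w (φ k) x) atTop (𝓝 (a x)) := fun x =>
    (tendsto_pi_nhds.1 hlim) x
  have hconv : ∀ x ∈ Ω, ∃ l, Tendsto (fun k => w (φ k) x) atTop (𝓝 l) := by
    intro x hx
    obtain ⟨r, hr, K, hK⟩ := equi_lip_aux hΩ (Φ := Φ) hx
    refine cauchySeq_tendsto_of_complete ?_
    rw [Metric.cauchySeq_iff]
    intro ε hε
    -- a nearby point of `D`
    let s : ℝ := min r (ε / (3 * (K + 1)))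
    have hs : 0 < s := lt_min hr (by positivity)
    obtain ⟨y, hyD, hy⟩ : ∃ y ∈ D, dist y x < s := by
      obtain ⟨y, hy1, hy2⟩ := hD₀d.inter_open_nonempty (ball x s ∩ Ω) (isOpen_ball.inter hΩ)
        ⟨x, mem_ball_self hs, hx⟩
      exact ⟨y, ⟨hy2, hy1.2⟩, hy1.1⟩
    have hKl : ∀ k, dist (w k x) (w k y) ≤ ε / 3 := by
      intro k
      have h3 := (hK (w k) (hw k) (h0 k) (h1 k)).dist_le_mul x (mem_ball_self hr) y
        (mem_ball.2 (hy.trans_le (min_le_left _ _)))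
      have h4 : dist x y ≤ ε / (3 * (K + 1)) := by
        rw [dist_comm]
        exact hy.le.trans (min_le_right _ _)
      have hK1 : (K : ℝ) ≤ K + 1 := by linarith
      have hK0 : (0 : ℝ) < K + 1 := by positivity
      calc dist (w k x) (w k y) ≤ K * dist x y := h3
        _ ≤ (K + 1) * (ε / (3 * (K + 1))) := by gcongr
        _ = ε / 3 := by field_simp
    have hcy := (hlim' ⟨y, hyD⟩).cauchySeq
    rw [Metric.cauchySeq_iff] at hcy
    obtain ⟨N, hN⟩ := hcy (ε / 3) (by positivity)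
    refine ⟨N, fun m hm n hn => ?_⟩
    have e1 := hKl (φ m)
    have e2 := hKl (φ n)
    have e3 : dist (w (φ m) y) (w (φ n) y) < ε / 3 := hN m hm n hn
    calc dist (w (φ m) x) (w (φ n) x)
        ≤ dist (w (φ m) x) (w (φ m) y) + dist (w (φ m) y) (w (φ n) y) +
          dist (w (φ n) y) (w (φ n) x) := dist_triangle4 _ _ _ _
      _ < ε := by
        rw [dist_comm (w (φ n) y)]
        linarith
  choose! v hv using hconv
  refine ⟨φ, v, hφ, ⟨(hw 0).1, ?_⟩, hv⟩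
  intro x hx y hy s t hs ht hst
  have hz : s • x + t • y ∈ Ω := (hw 0).1 hx hy hs ht hst
  refine le_of_tendsto_of_tendsto' (hv _ hz) (((hv x hx).const_mul s).add
    ((hv y hy).const_mul t)) fun k => ?_
  exact (hw (φ k)).2 hx hy hs ht hst

theorem exists_global {Ω : Set E} (hΩ : IsOpen Ω) {v : E → ℝ} (hv : ConvexOn ℝ Ω v)
    {K : Set E} (hK : IsCompact K) (hKΩ : K ⊆ Ω) :
    ∃ V : E → ℝ, ConvexOn ℝ univ V ∧ (∃ L : ℝ≥0, LipschitzWith L V) ∧ (∀ x ∈ K, V x = v x) ∧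
      ∀ x ∈ Ω, V x ≤ v x := by
  classical
  rcases Ω.eq_empty_or_nonempty with hΩe | ⟨x₀, hx₀⟩
  · subst hΩe
    have hKe : K = ∅ := subset_empty_iff.1 hKΩ
    subst hKe
    exact ⟨fun _ => 0, convexOn_const 0 convex_univ, ⟨0, LipschitzWith.const 0⟩, by simp, by simp⟩
  -- enlarge `K` to be nonempty
  let K' : Set E := insert x₀ K
  have hK' : IsCompact K' := hK.insert x₀
  have hK'Ω : K' ⊆ Ω := insert_subset hx₀ hKΩ
  obtain ⟨δ, hδ, hthick⟩ := hK'.exists_cthickening_subset_open hΩ hK'Ω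
  have hct : IsCompact (cthickening δ K') := hK'.cthickening
  obtain ⟨M, hM⟩ := hct.exists_bound_of_continuousOn ((hv.continuousOn hΩ).mono hthick)
  have hsub : ∀ y ∈ Ω, ∃ ζ : E, ∀ z ∈ Ω, v y + ⟪ζ, z - y⟫ ≤ v z := fun y hy =>
    exists_subgrad hΩ hv hy
  choose! ζ hζ using hsub
  have hKct : ∀ y ∈ K', y ∈ cthickening δ K' := fun y hy => self_subset_cthickening K' hy
  have hM0 : 0 ≤ M := (norm_nonneg _).trans (hM x₀ (hKct x₀ (mem_insert _ _)))
  let L : ℝ := 2 * M / δ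
  have hL0 : 0 ≤ L := by positivity
  have hζL : ∀ y ∈ K', ‖ζ y‖ ≤ L := by
    intro y hy
    by_cases h : ζ y = 0
    · rw [h, norm_zero]; exact hL0
    have hn : 0 < ‖ζ y‖ := norm_pos_iff.2 h
    let z : E := y + (δ / ‖ζ y‖) • ζ y
    have hz : z ∈ cthickening δ K' := by
      refine mem_cthickening_of_dist_le z y δ K' hy ?_
      rw [dist_eq_norm]
      simp only [z, add_sub_cancel_left, norm_smul, Real.norm_eq_abs, abs_of_pos (div_pos hδ hn)]
      rw [div_mul_cancel₀ _ hn.ne']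
    have h1 := hζ y (hK'Ω hy) z (hthick hz)
    have h2 : ⟪ζ y, z - y⟫ = δ * ‖ζ y‖ := by
      simp only [z, add_sub_cancel_left, inner_smul_right, real_inner_self_eq_norm_sq]
      field_simp
    rw [h2] at h1
    have h3 := hM z hz
    have h4 := hM y (hKct y hy)
    rw [Real.norm_eq_abs] at h3 h4
    have h5 : δ * ‖ζ y‖ ≤ 2 * M := by
      linarith [le_abs_self (v z), neg_abs_le (v y)]
    rw [le_div_iff₀ hδ]
    linarith
  obtain ⟨R, hR⟩ := hK'.isBounded.exists_norm_le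
  have : Nonempty K' := ⟨⟨x₀, mem_insert _ _⟩⟩
  let V : E → ℝ := fun x => ⨆ y : K', v y + ⟪ζ y, x - y⟫
  have hbdd : ∀ x, BddAbove (range fun y : K' => v y + ⟪ζ y, x - y⟫) := by
    intro x
    refine ⟨M + L * (‖x‖ + R), ?_⟩
    rintro _ ⟨y, rfl⟩
    have h1 := hM y (hKct y y.2)
    rw [Real.norm_eq_abs] at h1
    have h2 : ⟪ζ y, x - y⟫ ≤ L * (‖x‖ + R) := by
      calc ⟪ζ y, x - y⟫ ≤ ‖ζ y‖ * ‖x - y‖ := real_inner_le_norm _ _
        _ ≤ L * (‖x‖ + R) := by
          have := hζL y y.2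
          have h3 : ‖x - y‖ ≤ ‖x‖ + R := (norm_sub_le _ _).trans (by linarith [hR y y.2])
          gcongr
    simp only
    linarith [le_abs_self (v y)]
  refine ⟨V, ⟨convex_univ, ?_⟩, ⟨L.toNNReal, ?_⟩, ?_, ?_⟩
  · intro x _ y _ s t hs ht hst
    refine ciSup_le fun k => ?_
    have hx := le_ciSup (hbdd x) k
    have hy := le_ciSup (hbdd y) k
    have e : v k + ⟪ζ k, s • x + t • y - k⟫ =
        s * (v k + ⟪ζ k, x - k⟫) + t * (v k + ⟪ζ k, y - k⟫) := by
      have e1 : s • x + t • y - (k : E) = s • (x - k) + t • (y - k) := by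
        rw [smul_sub, smul_sub]
        have : (k : E) = s • (k : E) + t • (k : E) := by rw [← add_smul, hst, one_smul]
        nth_rewrite 1 [this]
        abel
      rw [e1, inner_add_right, inner_smul_right, inner_smul_right]
      have : v k = s * v k + t * v k := by rw [← add_mul, hst, one_mul]
      linear_combination this
    rw [e]
    simp only [smul_eq_mul]
    have hx' : v k + ⟪ζ k, x - k⟫ ≤ V x := hx
    have hy' : v k + ⟪ζ k, y - k⟫ ≤ V y := hy
    gcongr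
  · refine LipschitzWith.of_le_add_mul _ fun x y => ?_
    refine ciSup_le fun k => ?_
    have hy := le_ciSup (hbdd y) k
    have hy' : v k + ⟪ζ k, y - k⟫ ≤ V y := hy
    have h2 : ⟪ζ k, x - y⟫ ≤ L * dist x y := by
      rw [dist_eq_norm]
      refine (real_inner_le_norm _ _).trans ?_
      have := hζL k k.2
      gcongr
    have e1 : x - (k : E) = (y - k) + (x - y) := by abel
    rw [e1, inner_add_right, Real.coe_toNNReal _ hL0]
    linarith
  · intro x hx
    refine le_antisymm ?_ ?_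
    · exact ciSup_le fun k => hζ k (hK'Ω k.2) x (hKΩ hx)
    · have := le_ciSup (hbdd x) ⟨x, mem_insert_of_mem _ hx⟩
      simpa using this
  · intro x hx
    exact ciSup_le fun k => hζ k (hK'Ω k.2) x hx

end PLap
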