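import Pool.Agent.Lib.MP_a627f3_an.VecA
import Pool.Agent.Lib.MP_a627f3_an.Lip
import Pool.Agent.Lib.MP_a627f3_an.ConvC

open MeasureTheory Set Filter Topology Metric
open scoped RealInnerProductSpace ENNReal NNReal

namespace PLap

variable {E : Type*} [NormedAddCommGroup E] [InnerProductSpace ℝ E] [FiniteDimensional ℝ E]
  [CompleteSpace E] [MeasurableSpace E] [BorelSpace E]

namespace CornerAux

omit [FiniteDimensional ℝ E] [MeasurableSpace E] [BorelSpace E] in
theorem inner_grad (f : E → ℝ) (x b : E) : ⟪gradient f x, b⟫ = fderiv ℝ f x b := by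
  simp [gradient]

omit [FiniteDimensional ℝ E] [MeasurableSpace E] [BorelSpace E] in
theorem norm_grad (f : E → ℝ) (x : E) : ‖gradient f x‖ = ‖fderiv ℝ f x‖ := by
  simp [gradient]

omit [FiniteDimensional ℝ E] [MeasurableSpace E] [BorelSpace E] in
theorem norm_grad_le {f : E → ℝ} {K : ℝ≥0} (h : LipschitzWith K f) (x : E) :
    ‖gradient f x‖ ≤ K := by
  rw [norm_grad]
  exact norm_fderiv_le_of_lipschitz ℝ h

omit [FiniteDimensional ℝ E] in
theorem meas_grad (f : E → ℝ) : Measurable (gradient f) := by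
  unfold gradient
  exact ((InnerProductSpace.toDual ℝ E).symm.continuous.measurable).comp (measurable_fderiv ℝ f)

theorem int_grad_zero {Φ : E → ℝ} {K : ℝ≥0} (h : LipschitzWith K Φ) (hc : HasCompactSupport Φ)
    (b : E) : ∫ x, ⟪gradient Φ x, b⟫ = 0 := by
  have h1 := LipschitzWith.integral_lineDeriv_mul_eq (μ := (volume : Measure E))
    (f := fun _ : E => (1:ℝ)) (LipschitzWith.const' (K := 0) (1:ℝ)) h hc (-b)
  simp only [neg_neg, mul_one] at h1
  have h2 : (fun x => lineDeriv ℝ (fun _ : E => (1:ℝ)) x (-b) * Φ x) = fun x => 0 := by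
    funext x
    simp [lineDeriv]
  rw [h2] at h1
  simp only [integral_zero] at h1
  rw [h1]
  apply integral_congr_ae
  filter_upwards [h.ae_differentiableAt (μ := (volume : Measure E))] with x hx
  rw [inner_grad, hx.lineDeriv_eq_fderiv]

omit [FiniteDimensional ℝ E] [CompleteSpace E] [MeasurableSpace E] [BorelSpace E] in
theorem exists_mem_frontier {N : Set E} (hN : IsOpen N) {x y : E} (hx : x ∈ N) (hy : y ∉ N) :
    ∃ z ∈ segment ℝ x y, z ∈ closure N ∧ z ∉ N := by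
  by_contra hcon
  push Not at hcon
  have hpre := (convex_segment (𝕜 := ℝ) x y).isPreconnected
  have hcov : segment ℝ x y ⊆ N ∪ (closure N)ᶜ := by
    intro z hz
    by_cases hzc : z ∈ closure N
    · exact Or.inl (hcon z hz hzc)
    · exact Or.inr hzc
  have hyc : y ∈ (closure N)ᶜ := by
    intro hyc
    exact hy (hcon y (right_mem_segment ℝ x y) hyc)
  obtain ⟨z, hz, hz1, hz2⟩ := hpre N (closure N)ᶜ hN isClosed_closure.isOpen_compl hcov
    ⟨x, left_mem_segment ℝ x y, hx⟩ ⟨y, right_mem_segment ℝ x y, hyc⟩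
  exact hz2 (subset_closure hz1)

omit [FiniteDimensional ℝ E] [CompleteSpace E] [MeasurableSpace E] [BorelSpace E] in
theorem psi_lip {N K₀ : Set E} (hN : IsOpen N) (hNK : closure N ⊆ K₀) {ψ : E → ℝ} {C : ℝ≥0}
    (h0 : ∀ x, x ∉ N → ψ x = 0)
    (hl : ∀ x ∈ K₀, ∀ y ∈ K₀, dist (ψ x) (ψ y) ≤ C * dist x y) : LipschitzWith C ψ := by
  have key : ∀ x y, x ∈ N → y ∉ N → dist (ψ x) (ψ y) ≤ C * dist x y := by
    intro x y hx hy
    obtain ⟨z, hz, hzc, hzN⟩ := exists_mem_frontier hN hx hy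
    rw [h0 y hy, ← h0 z hzN]
    refine (hl x (hNK (subset_closure hx)) z (hNK hzc)).trans ?_
    have : dist x z ≤ dist x y := by
      have := dist_add_dist_of_mem_segment hz
      have h3 : 0 ≤ dist z y := dist_nonneg
      linarith
    gcongr
  refine LipschitzWith.of_dist_le_mul fun x y => ?_
  by_cases hx : x ∈ N <;> by_cases hy : y ∈ N
  · exact hl x (hNK (subset_closure hx)) y (hNK (subset_closure hy))
  · exact key x y hx hy
  · rw [dist_comm, dist_comm x y]; exact key y x hy hx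
  · rw [h0 x hx, h0 y hy, dist_self]; positivity


omit [FiniteDimensional ℝ E] [MeasurableSpace E] [BorelSpace E] in
theorem grad_zero_of_min {ψ : E → ℝ} (hnn : ∀ x, 0 ≤ ψ x) {x : E} (hx : ψ x = 0) :
    gradient ψ x = 0 := by
  have h : IsLocalMin ψ x := Filter.Eventually.of_forall fun y => by rw [hx]; exact hnn y
  rw [gradient, h.fderiv_eq_zero, map_zero]

theorem grad_lower {N : Set E} (hN : IsOpen N) (hNc : Convex ℝ N) (hNb : Bornology.IsBounded N)
    {ψ : E → ℝ} {K : ℝ≥0} (hψ : LipschitzWith K ψ) (h0 : ∀ x, x ∉ N → ψ x = 0)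
    (hnn : ∀ x, 0 ≤ ψ x) (hcc : ConcaveOn ℝ N ψ) {x₀ d : E} (hx₀ : x₀ ∈ N) {t c₀ : ℝ}
    (ht : 0 < t) (hc₀ : 0 < c₀) (hd : d ≠ 0) (hψx : ψ x₀ = t)
    (hN' : ∀ x ∈ N, c₀ * |⟪d, x - x₀⟫| ≤ t) :
    ((1/2)^(Module.finrank ℝ E) / 2 * c₀ * ‖d‖)^2 * volume.real N ≤
      ∫ x in N, ‖gradient ψ x‖^2 := by
  set c₁ : ℝ := (1/2)^(Module.finrank ℝ E) / 2 * c₀ * ‖d‖ with hc₁
  have hdpos : 0 < ‖d‖ := norm_pos_iff.mpr hd
  have hc₁pos : 0 < c₁ := by positivity
  have hNfin : volume N < ⊤ := hNb.measure_lt_top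
  have hcs : HasCompactSupport ψ := by
    apply HasCompactSupport.of_support_subset_isCompact hNb.isCompact_closure
    intro x hx
    by_contra hxn
    exact hx (h0 x fun h => hxn (subset_closure h))
  have hcont : Continuous ψ := hψ.continuous
  -- step 1
  have hint : Integrable ψ := hcont.integrable_of_hasCompactSupport hcs
  have hstep1 : (1/2)^(Module.finrank ℝ E) * (t / 2) * volume.real N ≤ ∫ x, ψ x := by
    set N' : Set E := AffineMap.homothety x₀ (1/2 : ℝ) '' N with hN'def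
    have hN'sub : N' ⊆ N := by
      rintro _ ⟨x, hx, rfl⟩
      have : AffineMap.homothety x₀ (1/2 : ℝ) x = (1/2 : ℝ) • x₀ + (1/2 : ℝ) • x := by
        rw [AffineMap.homothety_apply]
        simp only [vsub_eq_sub, vadd_eq_add]
        module
      rw [this]
      exact hNc hx₀ hx (by norm_num) (by norm_num) (by norm_num)
    have hval : ∀ y ∈ N', t / 2 ≤ ψ y := by
      rintro _ ⟨x, hx, rfl⟩
      have : AffineMap.homothety x₀ (1/2 : ℝ) x = (1/2 : ℝ) • x₀ + (1/2 : ℝ) • x := by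
        rw [AffineMap.homothety_apply]
        simp only [vsub_eq_sub, vadd_eq_add]
        module
      rw [this]
      have h := hcc.2 hx₀ hx (show (0:ℝ) ≤ 1/2 by norm_num) (show (0:ℝ) ≤ 1/2 by norm_num)
        (by norm_num)
      simp only [smul_eq_mul] at h
      have := hnn x
      rw [hψx] at h
      linarith
    have hvol : volume.real N' = (1/2)^(Module.finrank ℝ E) * volume.real N := by
      rw [measureReal_def, hN'def, Measure.addHaar_image_homothety, ENNReal.toReal_mul,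
        ENNReal.toReal_ofReal (abs_nonneg _), abs_of_nonneg (by positivity), measureReal_def]
    have hN'm : MeasurableSet N' := by
      have : IsOpen N' := by
        have := (AffineMap.homothety_isOpenMap x₀ (1/2 : ℝ) (by norm_num)) N hN
        exact this
      exact this.measurableSet
    have hN'fin : volume N' < ⊤ := (measure_mono hN'sub).trans_lt hNfin
    have h1 : ∫ x in N', (t/2) ≤ ∫ x in N', ψ x := by
      apply setIntegral_mono_on
      · exact integrableOn_const hN'fin.ne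
      · exact hint.integrableOn
      · exact hN'm
      · exact hval
    have h2 : ∫ x in N', ψ x ≤ ∫ x, ψ x :=
      setIntegral_le_integral hint (Filter.Eventually.of_forall hnn)
    rw [setIntegral_const, smul_eq_mul, hvol] at h1
    linarith
  -- step 2
  have hgm : Measurable (gradient ψ) := meas_grad ψ
  have hgb : ∀ x, ‖gradient ψ x‖ ≤ K := norm_grad_le hψ
  have hg0 : ∀ x, x ∉ N → gradient ψ x = 0 := fun x hx => grad_zero_of_min hnn (h0 x hx)
  have hgi : IntegrableOn (fun x => ‖gradient ψ x‖) N := by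
    refine Measure.integrableOn_of_bounded (M := K) hNfin.ne hgm.norm.aestronglyMeasurable ?_
    exact Filter.Eventually.of_forall fun x => by simpa using hgb x
  have hgi2 : IntegrableOn (fun x => ‖gradient ψ x‖ ^ 2) N := by
    refine Measure.integrableOn_of_bounded (M := K ^ 2) hNfin.ne
      (hgm.norm.pow_const 2).aestronglyMeasurable ?_
    refine Filter.Eventually.of_forall fun x => ?_
    rw [Real.norm_of_nonneg (by positivity)]
    have := hgb x
    gcongr
  have hstep2 : ‖d‖ * ∫ x, ψ x ≤ (t / c₀) * ∫ x in N, ‖gradient ψ x‖ := by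
    have hLΦ : LipC univ (fun x => ψ x * ⟪d, x - x₀⟫) := by
      apply lipC_of_contDiffOn isOpen_univ
      · exact ⟨⟨K, hψ⟩, hcs, subset_univ _⟩
      · exact (contDiff_const.inner ℝ (contDiff_id.sub contDiff_const)).contDiffOn
    obtain ⟨⟨K', hK'⟩, hcs', -⟩ := hLΦ
    have hz := int_grad_zero hK' hcs' d
    have hae : ∀ᵐ x : E, ⟪gradient (fun x => ψ x * ⟪d, x - x₀⟫) x, d⟫ =
        ⟪d, x - x₀⟫ * ⟪gradient ψ x, d⟫ + ‖d‖^2 * ψ x := by
      filter_upwards [hψ.ae_differentiableAt (μ := (volume : Measure E))] with x hx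
      rw [inner_grad, inner_grad]
      have h1 : HasFDerivAt (fun x : E => ⟪d, x - x₀⟫) (innerSL ℝ d) x := by
        have := (innerSL ℝ d).hasFDerivAt (x := x - x₀)
        have h2 := this.comp x ((hasFDerivAt_id x).sub_const x₀)
        simpa [Function.comp_def] using h2
      have h2 := (hx.hasFDerivAt.mul h1).fderiv
      rw [show (fun x => ψ x * ⟪d, x - x₀⟫) = (ψ * fun x => ⟪d, x - x₀⟫) from rfl, h2]
      simp only [add_apply, smul_apply, smul_eq_mul,
        innerSL_apply_apply, real_inner_self_eq_norm_sq]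
      ring
    rw [integral_congr_ae hae] at hz
    have hb1 : ∀ x, |⟪d, x - x₀⟫ * ⟪gradient ψ x, d⟫| ≤
        N.indicator (fun x => (t / c₀) * ‖d‖ * ‖gradient ψ x‖) x := by
      intro x
      by_cases hx : x ∈ N
      · rw [indicator_of_mem hx, abs_mul]
        have h1 : |⟪d, x - x₀⟫| ≤ t / c₀ := by
          rw [le_div_iff₀ hc₀, mul_comm]; exact hN' x hx
        have h2 : |⟪gradient ψ x, d⟫| ≤ ‖gradient ψ x‖ * ‖d‖ := abs_real_inner_le_norm _ _
        calc _ ≤ (t / c₀) * (‖gradient ψ x‖ * ‖d‖) := by gcongr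
          _ = _ := by ring
      · rw [indicator_of_notMem hx, hg0 x hx]
        simp
    have hi2 : Integrable (N.indicator (fun x => (t / c₀) * ‖d‖ * ‖gradient ψ x‖)) := by
      rw [integrable_indicator_iff hN.measurableSet]
      exact hgi.const_mul _
    have hi1 : Integrable (fun x => ⟪d, x - x₀⟫ * ⟪gradient ψ x, d⟫) := by
      apply hi2.mono'
      · apply AEStronglyMeasurable.mul
        · exact (by fun_prop : Continuous fun x : E => ⟪d, x - x₀⟫).aestronglyMeasurable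
        · exact (hgm.inner_const).aestronglyMeasurable
      · exact Filter.Eventually.of_forall fun x => by simpa using hb1 x
    rw [integral_add hi1 (hint.const_mul _), integral_const_mul] at hz
    have hle : |∫ x, ⟪d, x - x₀⟫ * ⟪gradient ψ x, d⟫| ≤ (t / c₀) * ‖d‖ * ∫ x in N, ‖gradient ψ x‖ := by
      rw [← integral_const_mul, ← integral_indicator hN.measurableSet]
      refine (abs_integral_le_integral_abs).trans ?_
      exact integral_mono_of_nonneg (Filter.Eventually.of_forall fun x => abs_nonneg _) hi2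
        (Filter.Eventually.of_forall hb1)
    have h3 : ‖d‖ ^ 2 * ∫ x, ψ x ≤ (t / c₀) * ‖d‖ * ∫ x in N, ‖gradient ψ x‖ := by
      have : ‖d‖ ^ 2 * ∫ x, ψ x = - ∫ x, ⟪d, x - x₀⟫ * ⟪gradient ψ x, d⟫ := by linarith
      rw [this]
      exact (neg_le_abs _).trans hle
    have h4 : ‖d‖ * (‖d‖ * ∫ x, ψ x) ≤ ‖d‖ * ((t / c₀) * ∫ x in N, ‖gradient ψ x‖) := by
      nlinarith [h3]
    exact le_of_mul_le_mul_left h4 hdpos
  have hstep3 : c₁ * volume.real N ≤ ∫ x in N, ‖gradient ψ x‖ := by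
    have h1 : ‖d‖ * ((1/2)^(Module.finrank ℝ E) * (t / 2) * volume.real N) ≤
        (t / c₀) * ∫ x in N, ‖gradient ψ x‖ :=
      (mul_le_mul_of_nonneg_left hstep1 hdpos.le).trans hstep2
    have h2 : t * (c₁ * volume.real N) ≤ t * ∫ x in N, ‖gradient ψ x‖ := by
      have h3 : c₀ * (‖d‖ * ((1/2)^(Module.finrank ℝ E) * (t / 2) * volume.real N)) ≤
          c₀ * ((t / c₀) * ∫ x in N, ‖gradient ψ x‖) := mul_le_mul_of_nonneg_left h1 hc₀.le
      have h4 : c₀ * ((t / c₀) * ∫ x in N, ‖gradient ψ x‖) = t * ∫ x in N, ‖gradient ψ x‖ := by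
        field_simp
      rw [h4] at h3
      refine le_trans (le_of_eq ?_) h3
      rw [hc₁]; ring
    exact le_of_mul_le_mul_left h2 ht
  -- step 3
  have h5 : ∫ x in N, (2 * c₁ * ‖gradient ψ x‖ - c₁ ^ 2) ≤ ∫ x in N, ‖gradient ψ x‖^2 := by
    apply setIntegral_mono_on
    · exact (hgi.const_mul _).sub (integrableOn_const hNfin.ne)
    · exact hgi2
    · exact hN.measurableSet
    · intro x _
      nlinarith [sq_nonneg (‖gradient ψ x‖ - c₁)]
  rw [integral_sub (hgi.const_mul _) (integrableOn_const hNfin.ne), integral_const_mul,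
    setIntegral_const, smul_eq_mul] at h5
  have hv0 : 0 ≤ volume.real N := measureReal_nonneg
  nlinarith [mul_le_mul_of_nonneg_left hstep3 hc₁pos.le]


theorem ibp_exp {ψ : E → ℝ} {K : ℝ≥0} (hψ : LipschitzWith K ψ) (hcs : HasCompactSupport ψ)
    (a ζ x₀ : E) (p m : ℝ) :
    Integrable (fun x => ⟪a, gradient ψ x⟫ * Real.exp (-p * (m + ⟪ζ, x - x₀⟫))) ∧
    ∫ x, ⟪a, gradient ψ x⟫ * Real.exp (-p * (m + ⟪ζ, x - x₀⟫)) =
      p * ⟪a, ζ⟫ * ∫ x, ψ x * Real.exp (-p * (m + ⟪ζ, x - x₀⟫)) := by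
  have hcd : ContDiff ℝ 1 (fun x : E => Real.exp (-p * (m + ⟪ζ, x - x₀⟫))) :=
    (contDiff_const.mul (contDiff_const.add
      (contDiff_const.inner ℝ (contDiff_id.sub contDiff_const)))).exp
  have hLΦ : LipC univ (fun x => ψ x * Real.exp (-p * (m + ⟪ζ, x - x₀⟫))) :=
    lipC_of_contDiffOn isOpen_univ ⟨⟨K, hψ⟩, hcs, subset_univ _⟩ hcd.contDiffOn
  obtain ⟨⟨K', hK'⟩, hcs', -⟩ := hLΦ
  have hz := int_grad_zero hK' hcs' a
  have hae : ∀ᵐ x : E, ⟪gradient (fun x => ψ x * Real.exp (-p * (m + ⟪ζ, x - x₀⟫))) x, a⟫ =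
      ⟪a, gradient ψ x⟫ * Real.exp (-p * (m + ⟪ζ, x - x₀⟫)) -
        p * ⟪a, ζ⟫ * (ψ x * Real.exp (-p * (m + ⟪ζ, x - x₀⟫))) := by
    filter_upwards [hψ.ae_differentiableAt (μ := (volume : Measure E))] with x hx
    rw [real_inner_comm (gradient ψ x) a, inner_grad, inner_grad]
    have h1 : HasFDerivAt (fun x : E => ⟪ζ, x - x₀⟫) (innerSL ℝ ζ) x := by
      have := (innerSL ℝ ζ).hasFDerivAt (x := x - x₀)
      have h2 := this.comp x ((hasFDerivAt_id x).sub_const x₀)
      simpa [Function.comp_def] using h2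
    have h3 := ((h1.const_add m).const_mul (-p)).exp
    have h2 := (hx.hasFDerivAt.mul h3).fderiv
    rw [show (fun x => ψ x * Real.exp (-p * (m + ⟪ζ, x - x₀⟫))) =
      (ψ * fun x => Real.exp (-p * (m + ⟪ζ, x - x₀⟫))) from rfl, h2]
    simp only [add_apply, smul_apply, smul_eq_mul,
      innerSL_apply_apply, real_inner_comm a ζ]
    ring
  rw [integral_congr_ae hae] at hz
  have hgm : Measurable (gradient ψ) := meas_grad ψ
  have hgb : ∀ x, ‖gradient ψ x‖ ≤ K := norm_grad_le hψ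
  have hi1 : Integrable (fun x => ⟪a, gradient ψ x⟫ * Real.exp (-p * (m + ⟪ζ, x - x₀⟫))) := by
    have hsub : Function.support (fun x => ⟪a, gradient ψ x⟫ *
        Real.exp (-p * (m + ⟪ζ, x - x₀⟫))) ⊆ tsupport ψ := by
      intro x hx
      by_contra hxn
      apply hx
      have h0 : ψ =ᶠ[𝓝 x] fun _ => 0 := notMem_tsupport_iff_eventuallyEq.mp hxn
      have : gradient ψ x = 0 := by
        rw [h0.gradient_eq]; simp
      simp [this]
    rw [← integrableOn_iff_integrable_of_support_subset hsub]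
    refine IntegrableOn.mul_continuousOn ?_ hcd.continuous.continuousOn hcs
    refine Measure.integrableOn_of_bounded (M := ‖a‖ * K) hcs.measure_lt_top.ne
      (hgm.const_inner).aestronglyMeasurable ?_
    refine Filter.Eventually.of_forall fun x => ?_
    rw [Real.norm_eq_abs]
    refine (abs_real_inner_le_norm _ _).trans ?_
    have := hgb x
    gcongr
  refine ⟨hi1, ?_⟩
  have hi2 : Integrable (fun x => ψ x * Real.exp (-p * (m + ⟪ζ, x - x₀⟫))) :=
    hK'.continuous.integrable_of_hasCompactSupport hcs'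
  rw [integral_sub hi1 (hi2.const_mul _), integral_const_mul] at hz
  linarith

theorem Fv_integrable {p lam δ : ℝ} (hp : 1 < p) {Ω : Set E} (hΩ : IsOpen Ω)
    (hb : Bornology.IsBounded Ω) {v : E → ℝ} (hv : ConvexOn ℝ Ω v) (h0 : ∀ x ∈ Ω, 0 ≤ v x)
    (hfin : IntegrableOn (fun x => ‖gradient v x‖ ^ p * Real.exp (-p * v x)) Ω) :
    IntegrableOn (fun x => (‖gradient v x‖ ^ p - (lam + δ / p + δ * v x)) *
      Real.exp (-p * v x)) Ω := by
  have hvc : ContinuousOn v Ω := hv.continuousOn hΩ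
  have h2 : IntegrableOn (fun x => (lam + δ / p + δ * v x) * Real.exp (-p * v x)) Ω := by
    have : IsFiniteMeasure (volume.restrict Ω) := ⟨by simpa using hb.measure_lt_top⟩
    refine Integrable.of_bound (C := |lam + δ / p| + |δ|) ?_ ?_
    · have : ContinuousOn (fun x => (lam + δ / p + δ * v x) * Real.exp (-p * v x)) Ω := by
        fun_prop
      exact this.aestronglyMeasurable hΩ.measurableSet
    · rw [ae_restrict_iff' hΩ.measurableSet]
      refine Filter.Eventually.of_forall fun x hx => ?_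
      have hvx := h0 x hx
      have he : Real.exp (-p * v x) ≤ 1 := by
        rw [Real.exp_le_one_iff]; nlinarith
      have he2 : v x * Real.exp (-p * v x) ≤ 1 := by
        have h1 : v x ≤ Real.exp (p * v x) := by
          have := Real.add_one_le_exp (p * v x)
          nlinarith
        rw [show -p * v x = -(p * v x) by ring, Real.exp_neg, ← div_eq_mul_inv,
          div_le_one (Real.exp_pos _)]
        exact h1
      have hpos := Real.exp_pos (-p * v x)
      rw [Real.norm_eq_abs]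
      calc |(lam + δ / p + δ * v x) * Real.exp (-p * v x)|
          = |(lam + δ / p) * Real.exp (-p * v x) + δ * (v x * Real.exp (-p * v x))| := by
            congr 1; ring
        _ ≤ |(lam + δ / p) * Real.exp (-p * v x)| + |δ * (v x * Real.exp (-p * v x))| :=
            abs_add_le _ _
        _ = |lam + δ / p| * Real.exp (-p * v x) + |δ| * (v x * Real.exp (-p * v x)) := by
            rw [abs_mul, abs_mul, abs_of_pos hpos, abs_of_nonneg (by positivity : (0:ℝ) ≤
              v x * Real.exp (-p * v x))]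
        _ ≤ |lam + δ / p| * 1 + |δ| * 1 := by gcongr
        _ = _ := by ring
  refine (hfin.sub h2).congr_fun ?_ hΩ.measurableSet
  intro x _
  simp only [Pi.sub_apply]
  ring

theorem J_diff {p lam δ : ℝ} (hp : 1 < p) {Ω K₀ : Set E} (hΩ : IsOpen Ω)
    (hb : Bornology.IsBounded Ω) {v : E → ℝ} (hv : ConvexOn ℝ Ω v) (h0 : ∀ x ∈ Ω, 0 ≤ v x)
    (hfin : IntegrableOn (fun x => ‖gradient v x‖ ^ p * Real.exp (-p * v x)) Ω)
    (hK : IsCompact K₀) {N : Set E} (hN : IsOpen N)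
    (hNc : Convex ℝ N) (hNK : N ⊆ K₀) {L : E → ℝ} {ζ : E} (hL : ∀ x, HasGradientAt L ζ x)
    (hN' : ∀ x, x ∈ N ↔ x ∈ Ω ∧ v x < L x) :
    IntegrableOn (fun x => ((‖ζ‖^p - (lam + δ/p + δ * L x)) * Real.exp (-p * L x)) -
      (‖gradient v x‖ ^ p - (lam + δ / p + δ * v x)) * Real.exp (-p * v x)) N ∧
    Jf p lam δ Ω (fun x => max (v x) (L x)) - Jf p lam δ Ω v =
      ∫ x in N, (((‖ζ‖^p - (lam + δ/p + δ * L x)) * Real.exp (-p * L x)) -
        (‖gradient v x‖ ^ p - (lam + δ / p + δ * v x)) * Real.exp (-p * v x)) := by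
  have hLc : Continuous L := continuous_iff_continuousAt.mpr fun x => (hL x).continuousAt
  have hNΩ : N ⊆ Ω := fun x hx => ((hN' x).1 hx).1
  have hvc : ContinuousOn v Ω := hv.continuousOn hΩ
  have hFv := Fv_integrable (lam := lam) (δ := δ) hp hΩ hb hv h0 hfin
  have hD : IntegrableOn (fun x => ((‖ζ‖^p - (lam + δ/p + δ * L x)) * Real.exp (-p * L x)) -
      (‖gradient v x‖ ^ p - (lam + δ / p + δ * v x)) * Real.exp (-p * v x)) N := by
    refine IntegrableOn.sub ?_ (hFv.mono_set hNΩ)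
    have : Continuous (fun x => (‖ζ‖^p - (lam + δ/p + δ * L x)) * Real.exp (-p * L x)) := by
      fun_prop
    exact (this.continuousOn.integrableOn_compact hK).mono_set hNK
  refine ⟨hD, ?_⟩
  set D : E → ℝ := (fun x => ((‖ζ‖^p - (lam + δ/p + δ * L x)) * Real.exp (-p * L x)) -
      (‖gradient v x‖ ^ p - (lam + δ / p + δ * v x)) * Real.exp (-p * v x)) with hDdef
  have hae : ∀ᵐ x : E, x ∈ Ω →
      (‖gradient (fun x => max (v x) (L x)) x‖ ^ p - (lam + δ / p + δ * (max (v x) (L x)))) *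
        Real.exp (-p * (max (v x) (L x))) =
      (‖gradient v x‖ ^ p - (lam + δ / p + δ * v x)) * Real.exp (-p * v x) +
        N.indicator D x := by
    have hfr : ∀ᵐ x : E, x ∉ frontier N := by
      rw [ae_iff]
      simpa using Convex.addHaar_frontier (volume : Measure E) hNc
    filter_upwards [hfr] with x hxf hxΩ
    by_cases hx : x ∈ N
    · have hev : (fun x => max (v x) (L x)) =ᶠ[𝓝 x] L := by
        filter_upwards [hN.mem_nhds hx] with y hy
        exact max_eq_right ((hN' y).1 hy).2.le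
      rw [hev.gradient_eq, (hL x).gradient, max_eq_right ((hN' x).1 hx).2.le,
        indicator_of_mem hx, hDdef]
      ring
    · have hxc : x ∉ closure N := by
        intro hxc
        exact hxf ⟨hxc, by rwa [hN.interior_eq]⟩
      have hvL : ∀ y ∈ Ω, y ∉ N → L y ≤ v y := by
        intro y hy hyN
        by_contra hlt
        exact hyN ((hN' y).2 ⟨hy, not_le.mp hlt⟩)
      have hev : (fun x => max (v x) (L x)) =ᶠ[𝓝 x] v := by
        filter_upwards [isClosed_closure.isOpen_compl.mem_nhds hxc, hΩ.mem_nhds hxΩ] with y hy hyΩ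
        exact max_eq_left (hvL y hyΩ fun h => hy (subset_closure h))
      rw [hev.gradient_eq, max_eq_left (hvL x hxΩ hx), indicator_of_notMem hx]
      ring
  have h1 : Jf p lam δ Ω (fun x => max (v x) (L x)) =
      ∫ x in Ω, ((‖gradient v x‖ ^ p - (lam + δ / p + δ * v x)) * Real.exp (-p * v x) +
        N.indicator D x) := by
    unfold Jf
    exact setIntegral_congr_ae hΩ.measurableSet hae
  have hDi : IntegrableOn (N.indicator D) Ω :=
    ((integrable_indicator_iff hN.measurableSet).mpr hD).integrableOn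
  rw [h1, integral_add hFv hDi, setIntegral_indicator hN.measurableSet,
    inter_eq_self_of_subset_right hNΩ]
  unfold Jf
  ring


theorem exp_lip {p A δ : ℝ} (hp : 0 < p) {s t : ℝ} (hs : 0 ≤ s) (ht : 0 ≤ t) :
    |(A + δ * s) * Real.exp (-p * s) - (A + δ * t) * Real.exp (-p * t)| ≤
      (p * |A| + 2 * |δ|) * |s - t| := by
  have hder : ∀ x ∈ Ici (0:ℝ), HasDerivWithinAt (fun x => (A + δ * x) * Real.exp (-p * x))
      (δ * Real.exp (-p * x) + (A + δ * x) * (Real.exp (-p * x) * (-p))) (Ici 0) x := by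
    intro x _
    have h1 : HasDerivAt (fun x : ℝ => A + δ * x) δ x := by
      simpa using ((hasDerivAt_id x).const_mul δ).const_add A
    have h2 : HasDerivAt (fun x : ℝ => Real.exp (-p * x)) (Real.exp (-p * x) * (-p)) x := by
      have := ((hasDerivAt_id x).const_mul (-p)).exp
      simpa using this
    exact (h1.mul h2).hasDerivWithinAt
  have hbound : ∀ x ∈ Ici (0:ℝ),
      ‖δ * Real.exp (-p * x) + (A + δ * x) * (Real.exp (-p * x) * (-p))‖ ≤
        p * |A| + 2 * |δ| := by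
    intro x hx
    have hx0 : 0 ≤ x := hx
    have hpos := Real.exp_pos (-p * x)
    have he : Real.exp (-p * x) ≤ 1 := by
      rw [Real.exp_le_one_iff]; nlinarith
    have he2 : p * x * Real.exp (-p * x) ≤ 1 := by
      have h1 : p * x ≤ Real.exp (p * x) := by
        have := Real.add_one_le_exp (p * x)
        linarith
      rw [show -p * x = -(p * x) by ring, Real.exp_neg, ← div_eq_mul_inv,
        div_le_one (Real.exp_pos _)]
      exact h1
    rw [Real.norm_eq_abs]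
    have hA := abs_nonneg A
    have hδ := abs_nonneg δ
    calc |δ * Real.exp (-p * x) + (A + δ * x) * (Real.exp (-p * x) * (-p))|
        = |δ * Real.exp (-p * x) + (-(p * A) * Real.exp (-p * x) +
            (-δ) * (p * x * Real.exp (-p * x)))| := by
          congr 1; ring
      _ ≤ |δ * Real.exp (-p * x)| + (|-(p * A) * Real.exp (-p * x)| +
            |(-δ) * (p * x * Real.exp (-p * x))|) :=
          (abs_add_le _ _).trans (by gcongr; exact abs_add_le _ _)
      _ = |δ| * Real.exp (-p * x) + (p * |A| * Real.exp (-p * x) +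
            |δ| * (p * x * Real.exp (-p * x))) := by
          rw [abs_mul, abs_mul, abs_mul, abs_neg, abs_neg, abs_of_pos hpos, abs_mul,
            abs_of_pos hp, abs_of_nonneg (by positivity : (0:ℝ) ≤ p * x * Real.exp (-p * x))]
      _ ≤ |δ| * 1 + (p * |A| * 1 + |δ| * 1) := by gcongr
      _ = _ := by ring
  have := (convex_Ici (0:ℝ)).norm_image_sub_le_of_norm_hasDerivWithin_le hder hbound
    (show t ∈ Ici (0:ℝ) from ht) (show s ∈ Ici (0:ℝ) from hs)
  simpa [Real.norm_eq_abs] using this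

theorem est {p lam δ : ℝ} (hp : 1 < p) {Ω K₀ : Set E} (hΩ : IsOpen Ω)
    (hb : Bornology.IsBounded Ω) {v : E → ℝ} (hv : ConvexOn ℝ Ω v) (h0 : ∀ x ∈ Ω, 0 ≤ v x)
    (hfin : IntegrableOn (fun x => ‖gradient v x‖ ^ p * Real.exp (-p * v x)) Ω)
    (hK : IsCompact K₀) (hKΩ : K₀ ⊆ Ω) {N : Set E} (hN : IsOpen N)
    (hNc : Convex ℝ N) (hNK : N ⊆ K₀) {ζ x₀ : E} {t : ℝ} (ht : 0 < t)
    (hN' : ∀ x, x ∈ N ↔ x ∈ Ω ∧ v x < v x₀ + t + ⟪ζ, x - x₀⟫) (hx₀ : x₀ ∈ Ω)
    {V : E → ℝ} {LV : ℝ≥0} (hLV : LipschitzWith LV V) (hV : ∀ x ∈ K₀, V x = v x)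
    {R M c₂ c₀ : ℝ} (hR : ∀ x ∈ K₀, ‖gradient v x‖ ≤ R) (hM : ∀ x ∈ N, v x ≤ M)
    (hc₂ : 0 < c₂) (hc₀ : 0 < c₀) {d : E} (hd : d ≠ 0)
    (hlow : ∀ y ∈ Ω, v x₀ + ⟪ζ, y - x₀⟫ + c₀ * |⟪d, y - x₀⟫| ≤ v y)
    (hst : ∀ ξ : E, ‖ξ‖ ≤ R → ‖ζ‖ ^ p + p * ⟪aP p ζ, ξ - ζ⟫ + c₂ * ‖ξ - ζ‖ ^ 2 ≤ ‖ξ‖ ^ p) :
    Jf p lam δ Ω (fun x => max (v x) (v x₀ + t + ⟪ζ, x - x₀⟫)) - Jf p lam δ Ω v ≤
      ((p * |lam + δ / p| + 2 * |δ|) + p * (p * (‖aP p ζ‖ * (R + ‖ζ‖))) + p * (p * ‖ζ‖ ^ p)) *
        t * volume.real N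
      - c₂ * Real.exp (-p * M) *
        (((1/2)^(Module.finrank ℝ E) / 2 * c₀ * ‖d‖)^2 * volume.real N) := by
  have hp0 : 0 < p := by linarith
  set L : E → ℝ := fun x => v x₀ + t + ⟪ζ, x - x₀⟫ with hLdef
  have hLc : Continuous L := by
    rw [hLdef]; fun_prop
  have hLg : ∀ x, HasGradientAt L ζ x := by
    intro x
    rw [hasGradientAt_iff_hasFDerivAt]
    have h1 : HasFDerivAt (fun x : E => ⟪ζ, x - x₀⟫) (innerSL ℝ ζ) x := by
      have := (innerSL ℝ ζ).hasFDerivAt (x := x - x₀)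
      have h2 := this.comp x ((hasFDerivAt_id x).sub_const x₀)
      simpa [Function.comp_def] using h2
    exact h1.const_add _
  have hNΩ : N ⊆ Ω := fun x hx => ((hN' x).1 hx).1
  have hNb : Bornology.IsBounded N := hb.subset hNΩ
  have hNfin : volume N < ⊤ := hNb.measure_lt_top
  have hx₀N : x₀ ∈ N := by
    rw [hN']; refine ⟨hx₀, ?_⟩; simp [ht]
  set ψ : E → ℝ := N.indicator (fun x => L x - v x) with hψdef
  have hψ0 : ∀ x, x ∉ N → ψ x = 0 := fun x hx => indicator_of_notMem hx _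
  have hψN : ∀ x, x ∈ N → ψ x = L x - v x := fun x hx => indicator_of_mem hx _
  have hψnn : ∀ x, 0 ≤ ψ x := by
    intro x
    by_cases hx : x ∈ N
    · rw [hψN x hx]; linarith [((hN' x).1 hx).2]
    · rw [hψ0 x hx]
  have hψt : ∀ x ∈ N, ψ x ≤ t := by
    intro x hx
    rw [hψN x hx]
    have h1 := hlow x (hNΩ hx)
    have h2 : 0 ≤ c₀ * |⟪d, x - x₀⟫| := by positivity
    simp only [hLdef]
    linarith
  have hclK : closure N ⊆ K₀ := hK.isClosed.closure_subset_iff.mpr hNK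
  have hψmax : ∀ x ∈ K₀, ψ x = max (L x - V x) 0 := by
    intro x hx
    rw [hV x hx]
    by_cases hxN : x ∈ N
    · rw [hψN x hxN, max_eq_left]
      linarith [((hN' x).1 hxN).2]
    · rw [hψ0 x hxN, max_eq_right]
      have : ¬ v x < L x := fun h => hxN ((hN' x).2 ⟨hKΩ hx, h⟩)
      linarith
  have hψL : LipschitzWith (‖ζ‖₊ + LV) ψ := by
    refine psi_lip hN hclK hψ0 ?_
    intro x hx y hy
    rw [hψmax x hx, hψmax y hy, Real.dist_eq]
    refine (abs_max_sub_max_le_abs _ _ _).trans ?_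
    have h1 : |V x - V y| ≤ LV * dist x y := by
      have := hLV.dist_le_mul x y
      rwa [Real.dist_eq] at this
    have h2 : |L x - L y| ≤ ‖ζ‖ * dist x y := by
      have : L x - L y = ⟪ζ, x - y⟫ := by
        simp only [hLdef]
        rw [show x - y = (x - x₀) - (y - x₀) by abel, inner_sub_right ζ (x - x₀) (y - x₀)]
        ring
      rw [this, dist_eq_norm]
      exact abs_real_inner_le_norm _ _
    calc |L x - V x - (L y - V y)| = |(L x - L y) - (V x - V y)| := by congr 1; ring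
      _ ≤ |L x - L y| + |V x - V y| := abs_sub _ _
      _ ≤ ‖ζ‖ * dist x y + LV * dist x y := add_le_add h2 h1
      _ = _ := by push_cast; ring
  have hcs : HasCompactSupport ψ := by
    apply HasCompactSupport.of_support_subset_isCompact hNb.isCompact_closure
    intro x hx
    by_contra hxn
    exact hx (hψ0 x fun h => hxn (subset_closure h))
  have hψcc : ConcaveOn ℝ N ψ := by
    have h1 : ConcaveOn ℝ N (fun x => L x - v x) := by
      apply ConcaveOn.sub
      · refine ⟨hNc, fun x _ y _ a b ha hb' hab => ?_⟩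
        apply le_of_eq
        simp only [hLdef, smul_eq_mul]
        have : a • x + b • y - x₀ = a • (x - x₀) + b • (y - x₀) := by
          have : x₀ = (a + b) • x₀ := by rw [hab, one_smul]
          nth_rewrite 1 [this]
          module
        rw [this, inner_add_right, inner_smul_right, inner_smul_right]
        have : v x₀ + t = (a + b) * (v x₀ + t) := by rw [hab, one_mul]
        linear_combination (-1 : ℝ) * this
      · exact hv.subset hNΩ hNc
    refine h1.congr ?_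
    intro x hx
    exact (hψN x hx).symm
  have hψx₀ : ψ x₀ = t := by
    rw [hψN x₀ hx₀N]; simp [hLdef]
  have hlow' : ∀ x ∈ N, c₀ * |⟪d, x - x₀⟫| ≤ t := by
    intro x hx
    have h1 := hlow x (hNΩ hx)
    have h2 := ((hN' x).1 hx).2
    linarith
  have hgl := grad_lower hN hNc hNb hψL hψ0 hψnn hψcc hx₀N ht hc₀ hd hψx₀ hlow'
  obtain ⟨hDi, hJ⟩ := J_diff (lam := lam) (δ := δ) hp hΩ hb hv h0 hfin hK hN hNc hNK hLg hN'
  obtain ⟨hI, hibp⟩ := ibp_exp hψL hcs (aP p ζ) ζ x₀ p (v x₀ + t)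
  have hgm : Measurable (gradient ψ) := meas_grad ψ
  have hgb : ∀ x, ‖gradient ψ x‖ ≤ (‖ζ‖₊ + LV : ℝ≥0) := norm_grad_le hψL
  have hg0 : ∀ x, x ∉ N → gradient ψ x = 0 := fun x hx => grad_zero_of_min hψnn (hψ0 x hx)
  have hgi2 : IntegrableOn (fun x => ‖gradient ψ x‖ ^ 2) N := by
    refine Measure.integrableOn_of_bounded (M := ((‖ζ‖₊ + LV : ℝ≥0) : ℝ) ^ 2) hNfin.ne
      (hgm.norm.pow_const 2).aestronglyMeasurable ?_
    refine Filter.Eventually.of_forall fun x => ?_
    rw [Real.norm_of_nonneg (by positivity)]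
    have := hgb x
    gcongr
  have hL0 : ∀ x ∈ N, 0 ≤ L x := fun x hx => (h0 x (hNΩ hx)).trans ((hN' x).1 hx).2.le
  set C₁ : ℝ := p * |lam + δ / p| + 2 * |δ| with hC₁
  set C₂ : ℝ := ‖aP p ζ‖ * (R + ‖ζ‖) with hC₂
  -- pointwise inequality
  have hptw : ∀ᵐ x : E, x ∈ N →
      ((‖ζ‖^p - (lam + δ/p + δ * L x)) * Real.exp (-p * L x)) -
        (‖gradient v x‖ ^ p - (lam + δ / p + δ * v x)) * Real.exp (-p * v x) ≤
      (C₁ * t + p * (p * C₂ * t)) + p * (⟪aP p ζ, gradient ψ x⟫ * Real.exp (-p * L x)) -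
        c₂ * Real.exp (-p * M) * ‖gradient ψ x‖ ^ 2 := by
    filter_upwards [convex_ae_diff hΩ hv] with x hdx hxN
    have hdx' := hdx (hNΩ hxN)
    have hgψ : gradient ψ x = ζ - gradient v x := by
      have hev : ψ =ᶠ[𝓝 x] fun y => L y - v y := by
        filter_upwards [hN.mem_nhds hxN] with y hy
        exact hψN y hy
      rw [hev.gradient_eq]
      have h1 : HasFDerivAt (fun y => L y - v y)
          (InnerProductSpace.toDual ℝ E ζ - fderiv ℝ v x) x :=
        (hasGradientAt_iff_hasFDerivAt.mp (hLg x)).sub hdx'.hasFDerivAt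
      rw [gradient, h1.fderiv, map_sub]
      simp [gradient]
    have hg : gradient v x - ζ = - gradient ψ x := by rw [hgψ]; abel
    have h1 := hst (gradient v x) (hR x (hNK hxN))
    rw [hg, inner_neg_right, norm_neg] at h1
    have hvx := h0 x (hNΩ hxN)
    have hLx := hL0 x hxN
    have hvL : v x < L x := ((hN' x).1 hxN).2
    have hLv : L x - v x ≤ t := by rw [← hψN x hxN]; exact hψt x hxN
    have hE12 : Real.exp (-p * L x) ≤ Real.exp (-p * v x) := by
      rw [Real.exp_le_exp]; nlinarith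
    have hE2M : Real.exp (-p * M) ≤ Real.exp (-p * v x) := by
      rw [Real.exp_le_exp]
      have := hM x hxN
      nlinarith
    have hdiff1 := exp_lip (A := lam + δ / p) (δ := δ) hp0 hLx hvx
    have hdiff2 := exp_lip (A := 1) (δ := 0) hp0 hLx hvx
    rw [abs_of_pos (by linarith : 0 < L x - v x), ← hC₁] at hdiff1
    rw [abs_of_pos (by linarith : 0 < L x - v x)] at hdiff2
    have hC₁0 : 0 ≤ C₁ := by positivity
    have hd1 : |(lam + δ / p + δ * L x) * Real.exp (-p * L x) -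
        (lam + δ / p + δ * v x) * Real.exp (-p * v x)| ≤ C₁ * t :=
      hdiff1.trans (by gcongr)
    have hd2 : |Real.exp (-p * L x) - Real.exp (-p * v x)| ≤ p * t := by
      have : |Real.exp (-p * L x) - Real.exp (-p * v x)| ≤ p * (L x - v x) := by
        simpa using hdiff2
      exact this.trans (by gcongr)
    have hgψn : ‖gradient ψ x‖ ≤ R + ‖ζ‖ := by
      rw [hgψ]
      have := norm_sub_le ζ (gradient v x)
      have := hR x (hNK hxN)
      linarith
    have hin : |⟪aP p ζ, gradient ψ x⟫| ≤ C₂ := by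
      refine (abs_real_inner_le_norm _ _).trans ?_
      rw [hC₂]; gcongr
    have hC₂0 : 0 ≤ C₂ := (abs_nonneg _).trans hin
    have hprod : ⟪aP p ζ, gradient ψ x⟫ * (Real.exp (-p * v x) - Real.exp (-p * L x)) ≤
        p * C₂ * t := by
      calc _ ≤ |⟪aP p ζ, gradient ψ x⟫ * (Real.exp (-p * v x) - Real.exp (-p * L x))| :=
            le_abs_self _
        _ = |⟪aP p ζ, gradient ψ x⟫| * |Real.exp (-p * L x) - Real.exp (-p * v x)| := by
            rw [abs_mul, abs_sub_comm (Real.exp (-p * v x))]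
        _ ≤ C₂ * (p * t) := by gcongr
        _ = _ := by ring
    have hζp : 0 ≤ ‖ζ‖ ^ p := by positivity
    have hE2pos := Real.exp_pos (-p * v x)
    have hq1 : ‖gradient v x‖ ^ p * Real.exp (-p * v x) ≥
        (‖ζ‖ ^ p + p * (-⟪aP p ζ, gradient ψ x⟫) + c₂ * ‖gradient ψ x‖ ^ 2) *
          Real.exp (-p * v x) := by gcongr
    have hq2 : ‖ζ‖ ^ p * Real.exp (-p * L x) ≤ ‖ζ‖ ^ p * Real.exp (-p * v x) := by gcongr
    have hq3 : c₂ * ‖gradient ψ x‖ ^ 2 * Real.exp (-p * M) ≤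
        c₂ * ‖gradient ψ x‖ ^ 2 * Real.exp (-p * v x) := by gcongr
    have hq4 := neg_le_of_abs_le hd1
    have hq5 : p * (⟪aP p ζ, gradient ψ x⟫ * (Real.exp (-p * v x) - Real.exp (-p * L x))) ≤
        p * (p * C₂ * t) := by gcongr
    nlinarith [hq1, hq2, hq3, hq4, hq5]
  -- integrate
  have hint : ∫ x in N, (((‖ζ‖^p - (lam + δ/p + δ * L x)) * Real.exp (-p * L x)) -
        (‖gradient v x‖ ^ p - (lam + δ / p + δ * v x)) * Real.exp (-p * v x)) ≤
      ∫ x in N, ((C₁ * t + p * (p * C₂ * t)) +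
        p * (⟪aP p ζ, gradient ψ x⟫ * Real.exp (-p * L x)) -
        c₂ * Real.exp (-p * M) * ‖gradient ψ x‖ ^ 2) := by
    apply setIntegral_mono_on_ae hDi
    · refine ((integrableOn_const hNfin.ne).add (hI.integrableOn.const_mul _)).sub
        (hgi2.const_mul _)
    · exact hN.measurableSet
    · exact hptw
  have hsplit : ∫ x in N, ((C₁ * t + p * (p * C₂ * t)) +
        p * (⟪aP p ζ, gradient ψ x⟫ * Real.exp (-p * L x)) -
        c₂ * Real.exp (-p * M) * ‖gradient ψ x‖ ^ 2) =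
      volume.real N * (C₁ * t + p * (p * C₂ * t)) +
        p * (∫ x in N, ⟪aP p ζ, gradient ψ x⟫ * Real.exp (-p * L x)) -
        c₂ * Real.exp (-p * M) * ∫ x in N, ‖gradient ψ x‖ ^ 2 := by
    have hi1 : IntegrableOn (fun _ : E => C₁ * t + p * (p * C₂ * t)) N :=
      integrableOn_const hNfin.ne
    have hi2 : IntegrableOn (fun x => p * (⟪aP p ζ, gradient ψ x⟫ * Real.exp (-p * L x))) N :=
      hI.integrableOn.const_mul _
    have hi3 : IntegrableOn (fun x => c₂ * Real.exp (-p * M) * ‖gradient ψ x‖ ^ 2) N :=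
      hgi2.const_mul _
    have hi4 : IntegrableOn (fun x => C₁ * t + p * (p * C₂ * t) +
      p * (⟪aP p ζ, gradient ψ x⟫ * Real.exp (-p * L x))) N := hi1.add hi2
    rw [integral_sub hi4 hi3, integral_add hi1 hi2, setIntegral_const, smul_eq_mul,
      integral_const_mul, integral_const_mul]
  have hIN : ∫ x in N, ⟪aP p ζ, gradient ψ x⟫ * Real.exp (-p * L x) =
      ∫ x, ⟪aP p ζ, gradient ψ x⟫ * Real.exp (-p * L x) := by
    apply setIntegral_eq_integral_of_forall_compl_eq_zero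
    intro x hx
    rw [hg0 x hx]; simp
  have hψint : ∫ x, ψ x * Real.exp (-p * L x) ≤ t * volume.real N := by
    have h1 : ∫ x, ψ x * Real.exp (-p * L x) = ∫ x in N, ψ x * Real.exp (-p * L x) := by
      symm
      apply setIntegral_eq_integral_of_forall_compl_eq_zero
      intro x hx
      rw [hψ0 x hx]; simp
    rw [h1]
    have h2 : ∫ x in N, ψ x * Real.exp (-p * L x) ≤ ∫ x in N, t := by
      apply setIntegral_mono_on
      · have hc1 : Continuous (fun x => ψ x * Real.exp (-p * L x)) := by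
          have := hψL.continuous
          fun_prop
        exact (hc1.continuousOn.integrableOn_compact hK).mono_set hNK
      · exact integrableOn_const hNfin.ne
      · exact hN.measurableSet
      · intro x hx
        have h3 : Real.exp (-p * L x) ≤ 1 := by
          rw [Real.exp_le_one_iff]
          have := hL0 x hx
          nlinarith
        calc ψ x * Real.exp (-p * L x) ≤ t * 1 := by
              apply mul_le_mul (hψt x hx) h3 (Real.exp_pos _).le ht.le
          _ = t := mul_one t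
    rw [setIntegral_const, smul_eq_mul] at h2
    linarith
  have hin2 : ⟪aP p ζ, ζ⟫ = ‖ζ‖ ^ p := inner_aP_self hp ζ
  rw [hin2] at hibp
  have hibp' : ∫ x, ⟪aP p ζ, gradient ψ x⟫ * Real.exp (-p * L x) =
      p * ‖ζ‖ ^ p * ∫ x, ψ x * Real.exp (-p * L x) := hibp
  rw [hJ]
  refine hint.trans ?_
  rw [hsplit, hIN, hibp']
  have hζp : 0 ≤ ‖ζ‖ ^ p := by positivity
  have hf1 : p * (p * ‖ζ‖ ^ p * ∫ x, ψ x * Real.exp (-p * L x)) ≤
      p * (p * ‖ζ‖ ^ p * (t * volume.real N)) := by gcongr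
  have hf2 : c₂ * Real.exp (-p * M) *
        (((1/2)^(Module.finrank ℝ E) / 2 * c₀ * ‖d‖)^2 * volume.real N) ≤
      c₂ * Real.exp (-p * M) * ∫ x in N, ‖gradient ψ x‖ ^ 2 := by gcongr
  nlinarith [hf1, hf2]


end CornerAux

open CornerAux in
theorem corner {p lam δ : ℝ} (hp : 1 < p) (hδ : 0 ≤ δ) {Ω : Set E} (hΩ : IsOpen Ω)
    (hcv : Convex ℝ Ω) (hb : Bornology.IsBounded Ω) {v Ψ : E → ℝ} (hv : ConvexOn ℝ Ω v)
    (h0 : ∀ x ∈ Ω, 0 ≤ v x) (hle : ∀ x ∈ Ω, v x ≤ Ψ x)
    (hΨ : ∀ x ∈ Ω, DifferentiableAt ℝ Ψ x)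
    (hfin : IntegrableOn (fun x => ‖gradient v x‖ ^ p * Real.exp (-p * v x)) Ω)
    (hcoer : ∀ M : ℝ, ∃ K : Set E, IsCompact K ∧ K ⊆ Ω ∧ ∀ x ∈ Ω \ K, M ≤ v x)
    (hmin : ∀ w : E → ℝ, ConvexOn ℝ Ω w → (∀ x ∈ Ω, v x ≤ w x) → (∀ x ∈ Ω, w x ≤ Ψ x) →
      (∃ K : Set E, IsCompact K ∧ K ⊆ Ω ∧ ∀ x ∈ Ω \ K, w x = v x) →
      Jf p lam δ Ω v ≤ Jf p lam δ Ω w) :
    ∀ x ∈ Ω, DifferentiableAt ℝ v x := by
  intro x₀ hx₀
  by_contra hnd
  obtain ⟨ζ₀, hζ₀⟩ := exists_subgrad hΩ hv hx₀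
  obtain ⟨ζ₁, hζ₁, hne⟩ : ∃ ξ, (∀ y ∈ Ω, v x₀ + ⟪ξ, y - x₀⟫ ≤ v y) ∧ ξ ≠ ζ₀ := by
    by_contra hcon
    push Not at hcon
    exact hnd (hasGradientAt_of_unique_subgrad hΩ hv hx₀ hcon).differentiableAt
  set d := ζ₁ - ζ₀ with hddef
  have hd : d ≠ 0 := sub_ne_zero.mpr hne
  obtain ⟨s, hs0, hs1, hζne⟩ : ∃ s : ℝ, 0 < s ∧ s < 1 ∧ ζ₀ + s • d ≠ 0 := by
    by_cases h : ζ₀ + (1/2:ℝ) • d = 0
    · refine ⟨1/3, by norm_num, by norm_num, fun h' => hd ?_⟩
      have h6 : (1/6 : ℝ) • d = 0 := by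
        have : (1/6:ℝ) • d = (ζ₀ + (1/2:ℝ) • d) - (ζ₀ + (1/3:ℝ) • d) := by module
        rw [this, h, h', sub_zero]
      rcases smul_eq_zero.mp h6 with h7 | h7
      · norm_num at h7
      · exact h7
    · exact ⟨1/2, by norm_num, by norm_num, h⟩
  set ζ := ζ₀ + s • d with hζdef
  set c₀ := min s (1 - s) with hc₀def
  have hc₀ : 0 < c₀ := lt_min hs0 (by linarith)
  have hlow : ∀ y ∈ Ω, v x₀ + ⟪ζ, y - x₀⟫ + c₀ * |⟪d, y - x₀⟫| ≤ v y := by
    intro y hy
    have h1 := hζ₀ y hy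
    have h2 := hζ₁ y hy
    have e1 : ⟪ζ₁, y - x₀⟫ = ⟪ζ₀, y - x₀⟫ + ⟪d, y - x₀⟫ := by
      rw [hddef, inner_sub_left]; ring
    have e2 : ⟪ζ, y - x₀⟫ = ⟪ζ₀, y - x₀⟫ + s * ⟪d, y - x₀⟫ := by
      rw [hζdef, inner_add_left, real_inner_smul_left]
    rw [e1] at h2
    rw [e2]
    rcases le_total 0 ⟪d, y - x₀⟫ with h | h
    · rw [abs_of_nonneg h]
      have : c₀ * ⟪d, y - x₀⟫ ≤ (1 - s) * ⟪d, y - x₀⟫ :=
        mul_le_mul_of_nonneg_right (min_le_right _ _) h
      linarith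
    · rw [abs_of_nonpos h]
      have : c₀ * (-⟪d, y - x₀⟫) ≤ s * (-⟪d, y - x₀⟫) :=
        mul_le_mul_of_nonneg_right (min_le_left _ _) (by linarith)
      linarith
  -- strictness
  have hstrict : ∀ x ∈ Ω, v x₀ + ⟪ζ, x - x₀⟫ < Ψ x := by
    intro x hx
    by_contra hcon
    have hcon := not_lt.mp hcon
    have h1 := hlow x hx
    have h2 := hle x hx
    have h3 : 0 ≤ c₀ * |⟪d, x - x₀⟫| := by positivity
    have h4 : c₀ * |⟪d, x - x₀⟫| = 0 := by linarith
    have h5 : ⟪d, x - x₀⟫ = 0 := by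
      rcases mul_eq_zero.mp h4 with h | h
      · exact absurd h hc₀.ne'
      · exact abs_eq_zero.mp h
    have hvx : v x = v x₀ + ⟪ζ, x - x₀⟫ := by linarith
    have hΨx : Ψ x = v x := by linarith
    have e1 : ⟪ζ₁, x - x₀⟫ = ⟪ζ₀, x - x₀⟫ + ⟪d, x - x₀⟫ := by
      rw [hddef, inner_sub_left]; ring
    have e2 : ⟪ζ, x - x₀⟫ = ⟪ζ₀, x - x₀⟫ + s * ⟪d, x - x₀⟫ := by
      rw [hζdef, inner_add_left, real_inner_smul_left]
    have key : ∀ ξ : E, (∀ y ∈ Ω, v x₀ + ⟪ξ, y - x₀⟫ ≤ v y) → v x = v x₀ + ⟪ξ, x - x₀⟫ →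
        gradient Ψ x = ξ := by
      intro ξ hξ hvξ
      have hmin' : IsLocalMin (fun y => Ψ y - ⟪ξ, y⟫) x := by
        filter_upwards [hΩ.mem_nhds hx] with y hy
        have h6 := hξ y hy
        have h7 := hle y hy
        rw [inner_sub_right] at h6 hvξ
        linarith
      have hder : HasFDerivAt (fun y => Ψ y - ⟪ξ, y⟫) (fderiv ℝ Ψ x - innerSL ℝ ξ) x :=
        (hΨ x hx).hasFDerivAt.sub (innerSL ℝ ξ).hasFDerivAt
      have hz := hmin'.hasFDerivAt_eq_zero hder
      apply ext_inner_right ℝ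
      intro b
      rw [inner_grad, sub_eq_zero.mp hz, innerSL_apply_apply]
    have k0 := key ζ₀ hζ₀ (by rw [hvx, e2, h5]; ring)
    have k1 := key ζ₁ hζ₁ (by rw [hvx, e2, e1, h5]; ring)
    exact hne (k1.symm.trans k0)
  -- coercivity
  obtain ⟨R₁, hR₁⟩ : ∃ R₁ : ℝ, ∀ x ∈ Ω, ‖x - x₀‖ ≤ R₁ := by
    obtain ⟨R₁, hR₁⟩ := hb.subset_closedBall x₀
    exact ⟨R₁, fun x hx => by simpa [dist_eq_norm] using hR₁ hx⟩
  set M : ℝ := v x₀ + ‖ζ‖ * R₁ + 1 with hMdef
  have hlM : ∀ x ∈ Ω, v x₀ + ⟪ζ, x - x₀⟫ + 1 ≤ M := by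
    intro x hx
    have h1 : ⟪ζ, x - x₀⟫ ≤ ‖ζ‖ * ‖x - x₀‖ := real_inner_le_norm _ _
    have h2 : ‖ζ‖ * ‖x - x₀‖ ≤ ‖ζ‖ * R₁ := by
      have := hR₁ x hx
      gcongr
    linarith
  obtain ⟨K₀, hK, hKΩ, hKM⟩ := hcoer M
  have hx₀K : x₀ ∈ K₀ := by
    by_contra h
    have h1 := hKM x₀ ⟨hx₀, h⟩
    have h2 := hlM x₀ hx₀
    simp only [sub_self, inner_zero_right] at h2
    linarith
  obtain ⟨m₀, hm₀, hm₀'⟩ : ∃ m₀ > 0, ∀ x ∈ K₀, v x₀ + ⟪ζ, x - x₀⟫ + m₀ ≤ Ψ x := by
    have hc : ContinuousOn (fun x => Ψ x - (v x₀ + ⟪ζ, x - x₀⟫)) K₀ := by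
      have h1 : ContinuousOn Ψ K₀ := fun x hx =>
        (hΨ x (hKΩ hx)).continuousAt.continuousWithinAt
      apply h1.sub
      exact (by fun_prop : Continuous fun x : E => v x₀ + ⟪ζ, x - x₀⟫).continuousOn
    obtain ⟨z, hz, hzmin⟩ := hK.exists_isMinOn ⟨x₀, hx₀K⟩ hc
    refine ⟨Ψ z - (v x₀ + ⟪ζ, z - x₀⟫), sub_pos.mpr (hstrict z (hKΩ hz)), fun x hx => ?_⟩
    have : Ψ z - (v x₀ + ⟪ζ, z - x₀⟫) ≤ Ψ x - (v x₀ + ⟪ζ, x - x₀⟫) := hzmin hx
    linarith
  obtain ⟨R, hR⟩ := exists_lip_compact hΩ hv hK hKΩ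
  obtain ⟨V, -, ⟨LV, hLV⟩, hV, -⟩ := exists_global hΩ hv hK hKΩ
  obtain ⟨c₂, hc₂, hst⟩ := aP_strong_convex hp hζne R
  set C : ℝ := ((p * |lam + δ / p| + 2 * |δ|) + p * (p * (‖aP p ζ‖ * (R + ‖ζ‖))) +
    p * (p * ‖ζ‖ ^ p)) with hCdef
  set c₁ : ℝ := ((1/2)^(Module.finrank ℝ E) / 2 * c₀ * ‖d‖)^2 with hc₁def
  have hc₁ : 0 < c₁ := by
    have : 0 < ‖d‖ := norm_pos_iff.mpr hd
    positivity
  have hc₃ : 0 < c₂ * Real.exp (-p * M) * c₁ := by positivity
  -- choose t
  obtain ⟨t, ht, ht1, htm, htC⟩ : ∃ t : ℝ, 0 < t ∧ t ≤ 1 ∧ t ≤ m₀ ∧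
      C * t < c₂ * Real.exp (-p * M) * c₁ := by
    refine ⟨min (min 1 m₀) (c₂ * Real.exp (-p * M) * c₁ / (|C| + 1)), ?_, ?_, ?_, ?_⟩
    · positivity
    · exact (min_le_left _ _).trans (min_le_left _ _)
    · exact (min_le_left _ _).trans (min_le_right _ _)
    · set T := min (min 1 m₀) (c₂ * Real.exp (-p * M) * c₁ / (|C| + 1)) with hT
      have hTpos : 0 < T := by positivity
      have h1 : T ≤ c₂ * Real.exp (-p * M) * c₁ / (|C| + 1) := min_le_right _ _
      rw [le_div_iff₀ (by positivity)] at h1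
      have h2 : C * T ≤ |C| * T := mul_le_mul_of_nonneg_right (le_abs_self C) hTpos.le
      nlinarith
  set N : Set E := {x | x ∈ Ω ∧ v x < v x₀ + t + ⟪ζ, x - x₀⟫} with hNdef
  have hN' : ∀ x, x ∈ N ↔ x ∈ Ω ∧ v x < v x₀ + t + ⟪ζ, x - x₀⟫ := fun x => Iff.rfl
  have hvc : ContinuousOn v Ω := hv.continuousOn hΩ
  have hN : IsOpen N := by
    have hc : ContinuousOn (fun x => v x - (v x₀ + t + ⟪ζ, x - x₀⟫)) Ω := by
      apply hvc.sub
      exact (by fun_prop : Continuous fun x : E => v x₀ + t + ⟪ζ, x - x₀⟫).continuousOn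
    have := hc.isOpen_inter_preimage hΩ isOpen_Iio (t := Iio (0:ℝ))
    convert this using 1
    ext x
    simp [hNdef]
  have hNc : Convex ℝ N := by
    have haff : ConcaveOn ℝ Ω (fun x : E => v x₀ + t + ⟪ζ, x - x₀⟫) := by
      refine ⟨hcv, fun x _ y _ a b ha hb' hab => ?_⟩
      apply le_of_eq
      simp only [smul_eq_mul]
      have : a • x + b • y - x₀ = a • (x - x₀) + b • (y - x₀) := by
        have : x₀ = (a + b) • x₀ := by rw [hab, one_smul]
        nth_rewrite 1 [this]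
        module
      rw [this, inner_add_right, inner_smul_right, inner_smul_right]
      have : v x₀ + t = (a + b) * (v x₀ + t) := by rw [hab, one_mul]
      linear_combination (-1 : ℝ) * this
    have h1 : ConvexOn ℝ Ω (fun x => v x - (v x₀ + t + ⟪ζ, x - x₀⟫)) := hv.sub haff
    have := h1.convex_lt 0
    convert this using 1
    ext x
    simp [hNdef]
  have hNK : N ⊆ K₀ := by
    intro x hx
    by_contra h
    have h1 := hKM x ⟨hx.1, h⟩
    have h2 := hlM x hx.1
    have h3 := hx.2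
    linarith
  have hMN : ∀ x ∈ N, v x ≤ M := by
    intro x hx
    have h2 := hlM x hx.1
    have h3 := hx.2
    linarith
  have hx₀N : x₀ ∈ N := by
    refine ⟨hx₀, ?_⟩; simp [ht]
  have hest := est (lam := lam) (δ := δ) hp hΩ hb hv h0 hfin hK hKΩ hN hNc hNK ht hN' hx₀ hLV hV
    hR.1 hMN hc₂ hc₀ hd hlow hst
  rw [← hCdef, ← hc₁def] at hest
  have hwle := hmin (fun x => max (v x) (v x₀ + t + ⟪ζ, x - x₀⟫)) ?_ ?_ ?_ ?_
  · have hvol : 0 < volume.real N := by
      rw [measureReal_def, ENNReal.toReal_pos_iff]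
      exact ⟨hN.measure_pos _ ⟨x₀, hx₀N⟩, (hb.subset fun x hx => hx.1).measure_lt_top⟩
    have : C * t * volume.real N < c₂ * Real.exp (-p * M) * (c₁ * volume.real N) := by
      have := mul_lt_mul_of_pos_right htC hvol
      linarith
    linarith
  · apply hv.sup
    refine ⟨hcv, fun x _ y _ a b ha hb' hab => ?_⟩
    apply le_of_eq
    simp only [smul_eq_mul]
    have : a • x + b • y - x₀ = a • (x - x₀) + b • (y - x₀) := by
      have : x₀ = (a + b) • x₀ := by rw [hab, one_smul]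
      nth_rewrite 1 [this]
      module
    rw [this, inner_add_right, inner_smul_right, inner_smul_right]
    have : v x₀ + t = (a + b) * (v x₀ + t) := by rw [hab, one_mul]
    linear_combination this
  · exact fun x _ => le_max_left _ _
  · intro x hx
    apply max_le (hle x hx)
    by_cases hxN : x ∈ N
    · have := hm₀' x (hNK hxN)
      linarith
    · have : v x₀ + t + ⟪ζ, x - x₀⟫ ≤ v x := by
        by_contra h
        exact hxN ⟨hx, not_le.mp h⟩
      exact this.trans (hle x hx)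
  · refine ⟨K₀, hK, hKΩ, fun x hx => ?_⟩
    apply max_eq_left
    have h1 := hKM x hx
    have h2 := hlM x hx.1
    linarith

end PLap
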