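import Pool.Agent.Lib.MP_a627f3_an.ConvA
import Pool.Agent.Lib.MP_a627f3_an.Lip

open MeasureTheory Set Filter Topology Metric
open scoped RealInnerProductSpace ENNReal NNReal Convolution

namespace PLap

variable {E : Type*} [NormedAddCommGroup E] [InnerProductSpace ℝ E] [FiniteDimensional ℝ E]
  [CompleteSpace E] [MeasurableSpace E] [BorelSpace E]

theorem exists_smooth {V : E → ℝ} (hV : ConvexOn ℝ univ V) {L : ℝ≥0} (hL : LipschitzWith L V) :
    ∃ W : ℕ → E → ℝ, (∀ k, ContDiff ℝ (⊤ : ℕ∞) (W k)) ∧ (∀ k, ConvexOn ℝ univ (W k)) ∧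
      (∀ k, LipschitzWith L (W k)) ∧ ∀ x, Tendsto (fun k => W k x) atTop (𝓝 (V x)) := by
  let φ : ℕ → ContDiffBump (0 : E) := fun k =>
    ⟨1 / (2 * ((k : ℝ) + 1)), 1 / ((k : ℝ) + 1), by positivity, by
      rw [div_lt_div_iff₀ (by positivity) (by positivity)]
      have : (0 : ℝ) ≤ k := Nat.cast_nonneg k
      nlinarith⟩
  let W : ℕ → E → ℝ := fun k => (φ k).normed volume ⋆[ContinuousLinearMap.lsmul ℝ ℝ, volume] V
  have hVc : Continuous V := hL.continuous
  have hW : ∀ k x, W k x = ∫ t, (φ k).normed volume t * V (x - t) := fun k x => rfl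
  have hint : ∀ k x, Integrable (fun t => (φ k).normed volume t * V (x - t)) := by
    intro k x
    refine Continuous.integrable_of_hasCompactSupport ?_ ?_
    · exact ((φ k).continuous_normed).mul (hVc.comp (continuous_const.sub continuous_id))
    · exact ((φ k).hasCompactSupport_normed).mul_right
  have hnn : ∀ k t, 0 ≤ (φ k).normed volume t := fun k t => (φ k).nonneg_normed t
  have hone : ∀ k, ∫ t, (φ k).normed volume t = 1 := fun k => (φ k).integral_normed
  refine ⟨W, ?_, ?_, ?_, ?_⟩
  · intro k
    exact (φ k).hasCompactSupport_normed.contDiff_convolution_left _ (φ k).contDiff_normed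
      hVc.locallyIntegrable
  · intro k
    refine ⟨convex_univ, fun x _ y _ s t hs ht hst => ?_⟩
    rw [hW, hW, hW, smul_eq_mul, smul_eq_mul, ← integral_const_mul, ← integral_const_mul,
      ← integral_add ((hint k x).const_mul s) ((hint k y).const_mul t)]
    refine integral_mono (hint k _) (((hint k x).const_mul s).add ((hint k y).const_mul t))
      fun τ => ?_
    have e1 : s • x + t • y - τ = s • (x - τ) + t • (y - τ) := by
      have : τ = s • τ + t • τ := by rw [← add_smul, hst, one_smul]
      rw [smul_sub, smul_sub]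
      nth_rewrite 1 [this]
      abel
    have h1 := hV.2 (mem_univ (x - τ)) (mem_univ (y - τ)) hs ht hst
    rw [← e1, smul_eq_mul, smul_eq_mul] at h1
    have h2 := mul_le_mul_of_nonneg_left h1 (hnn k τ)
    simp only [Pi.add_apply]
    linarith
  · intro k
    refine LipschitzWith.of_dist_le_mul fun x y => ?_
    rw [hW, hW, Real.dist_eq, ← integral_sub (hint k x) (hint k y)]
    calc |∫ t, ((φ k).normed volume t * V (x - t) - (φ k).normed volume t * V (y - t))|
        ≤ ∫ t, |(φ k).normed volume t * V (x - t) - (φ k).normed volume t * V (y - t)| :=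
          abs_integral_le_integral_abs
      _ ≤ ∫ t, (φ k).normed volume t * (L * dist x y) := by
          refine integral_mono ((hint k x).sub (hint k y)).abs
            ((φ k).integrable_normed.mul_const _) fun t => ?_
          rw [← mul_sub, abs_mul, abs_of_nonneg (hnn k t)]
          have h1 := hL.dist_le_mul (x - t) (y - t)
          rw [Real.dist_eq, dist_sub_right] at h1
          exact mul_le_mul_of_nonneg_left h1 (hnn k t)
      _ = L * dist x y := by rw [integral_mul_const, hone, one_mul]
  · intro x
    refine ContDiffBump.convolution_tendsto_right_of_continuous ?_ hVc x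
    exact tendsto_one_div_add_atTop_nhds_zero_nat

end PLap
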