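import Pool.Agent.Lib.MP_a627f3_an.VecA
import Pool.Agent.Lib.MP_a627f3_an.Lip
import Pool.Agent.Lib.MP_a627f3_an.ConvB
import Pool.Agent.Lib.MP_a627f3_an.ConvC
import Pool.Agent.Lib.MP_a627f3_an.Moll
import Pool.Agent.Lib.MP_a627f3_an.Radial

open MeasureTheory Set Filter Topology Metric
open scoped RealInnerProductSpace ENNReal NNReal

namespace PLap

variable {E : Type*} [NormedAddCommGroup E] [InnerProductSpace ℝ E] [FiniteDimensional ℝ E]
  [CompleteSpace E] [MeasurableSpace E] [BorelSpace E]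

namespace Pos

omit [FiniteDimensional ℝ E] [MeasurableSpace E] [BorelSpace E] in
theorem norm_grad (v : E → ℝ) (x : E) : ‖gradient v x‖ = ‖fderiv ℝ v x‖ := by
  unfold gradient
  exact LinearIsometryEquiv.norm_map _ _

omit [FiniteDimensional ℝ E] [MeasurableSpace E] [BorelSpace E] in
theorem grad_congr {v w : E → ℝ} {x : E} (h : v =ᶠ[𝓝 x] w) : gradient v x = gradient w x := by
  unfold gradient
  rw [h.fderiv_eq]

omit [FiniteDimensional ℝ E] [MeasurableSpace E] [BorelSpace E] in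
theorem grad_off {f : E → ℝ} {x : E} (hx : x ∉ tsupport f) : gradient f x = 0 := by
  have h : f =ᶠ[𝓝 x] fun _ => (0 : ℝ) := notMem_tsupport_iff_eventuallyEq.mp hx
  rw [grad_congr h]
  unfold gradient
  rw [fderiv_fun_const]
  simp

omit [FiniteDimensional ℝ E] [MeasurableSpace E] [BorelSpace E] in
theorem grad_le {f : E → ℝ} {K : ℝ≥0} (hf : LipschitzWith K f) (x : E) :
    ‖gradient f x‖ ≤ K := by
  rw [norm_grad]
  exact norm_fderiv_le_of_lipschitz ℝ hf

omit [FiniteDimensional ℝ E] in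
theorem meas_grad (v : E → ℝ) : Measurable (gradient v) := by
  unfold gradient
  exact (LinearIsometryEquiv.continuous _).measurable.comp (measurable_fderiv ℝ v)

theorem meas_aP {p : ℝ} (hp : 1 < p) (v : E → ℝ) : Measurable (fun x => aP p (gradient v x)) :=
  (continuous_aP hp).measurable.comp (meas_grad v)

theorem meas_inner {p : ℝ} (hp : 1 < p) (v f : E → ℝ) :
    Measurable (fun x => ⟪aP p (gradient v x), gradient f x⟫) :=
  (meas_aP hp v).inner (meas_grad f)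

theorem integrable_bdd {g : E → ℝ} (hg : AEStronglyMeasurable g volume) {K : Set E}
    (hK : IsCompact K) {C : ℝ} (hb : ∀ x ∈ K, |g x| ≤ C) (h0 : ∀ x, x ∉ K → g x = 0) :
    Integrable g := by
  rw [← integrableOn_iff_integrable_of_support_subset (s := K)]
  · refine Measure.integrableOn_of_bounded (M := C) hK.measure_lt_top.ne hg ?_
    refine (ae_restrict_mem hK.measurableSet).mono fun x hx => ?_
    rw [Real.norm_eq_abs]
    exact hb x hx
  · intro x hx
    by_contra h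
    exact hx (h0 x h)

theorem aP_inner_le {p : ℝ} (hp : 1 < p) {ξ η : E} {A B : ℝ} (h1 : ‖ξ‖ ≤ A) (h2 : ‖η‖ ≤ B) :
    |⟪aP p ξ, η⟫| ≤ A ^ (p - 1) * B := by
  refine (abs_real_inner_le_norm _ _).trans ?_
  rw [norm_aP hp]
  exact mul_le_mul (Real.rpow_le_rpow (norm_nonneg _) h1 (by linarith)) h2 (norm_nonneg _)
    (Real.rpow_nonneg ((norm_nonneg _).trans h1) _)

theorem lip_ae {f : E → ℝ} {K : ℝ≥0} (hf : LipschitzWith K f) :
    ∀ᵐ x : E, DifferentiableAt ℝ f x := hf.ae_differentiableAt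

end Pos

open Pos

theorem XF_integrable {p : ℝ} (hp : 1 < p) {Ω : Set E} (hΩ : IsOpen Ω) {w : E → ℝ}
    (hw : ConvexOn ℝ Ω w) {f : E → ℝ} (hf : LipC Ω f) :
    Integrable (fun x => ⟪aP p (gradient w x), gradient f x⟫) := by
  obtain ⟨⟨Kf, hKf⟩, hcs, hts⟩ := hf
  obtain ⟨L, hL, _⟩ := exists_lip_compact hΩ hw hcs hts
  refine integrable_bdd (meas_inner hp w f).aestronglyMeasurable hcs (C := L ^ (p - 1) * Kf)
    (fun x hx => aP_inner_le hp (hL x hx) (grad_le hKf x)) (fun x hx => ?_)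
  rw [grad_off hx, inner_zero_right]

theorem XF_add {p : ℝ} (hp : 1 < p) {Ω : Set E} (hΩ : IsOpen Ω) {w : E → ℝ}
    (hw : ConvexOn ℝ Ω w) {f g : E → ℝ} (hf : LipC Ω f) (hg : LipC Ω g) :
    XF p w (fun x => f x + g x) = XF p w f + XF p w g := by
  have h1 := XF_integrable hp hΩ hw hf
  have h2 := XF_integrable hp hΩ hw hg
  obtain ⟨⟨Kf, hKf⟩, _, _⟩ := hf
  obtain ⟨⟨Kg, hKg⟩, _, _⟩ := hg
  unfold XF
  rw [← neg_add, ← integral_add h1 h2]
  congr 1
  apply integral_congr_ae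
  filter_upwards [lip_ae hKf, lip_ae hKg] with x hx hy
  rw [← inner_add_right]
  congr 1
  unfold gradient
  rw [← map_add]
  congr 1
  exact fderiv_fun_add hx hy

theorem XF_sub {p : ℝ} (hp : 1 < p) {Ω : Set E} (hΩ : IsOpen Ω) {w : E → ℝ}
    (hw : ConvexOn ℝ Ω w) {f g : E → ℝ} (hf : LipC Ω f) (hg : LipC Ω g) :
    XF p w (fun x => f x - g x) = XF p w f - XF p w g := by
  have h1 := XF_integrable hp hΩ hw hf
  have h2 := XF_integrable hp hΩ hw hg
  obtain ⟨⟨Kf, hKf⟩, _, _⟩ := hf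
  obtain ⟨⟨Kg, hKg⟩, _, _⟩ := hg
  unfold XF
  rw [neg_sub_neg, ← neg_sub, ← integral_sub h1 h2]
  congr 1
  apply integral_congr_ae
  filter_upwards [lip_ae hKf, lip_ae hKg] with x hx hy
  rw [← inner_sub_right]
  congr 1
  unfold gradient
  rw [← map_sub]
  congr 1
  exact fderiv_fun_sub hx hy

theorem XF_smul (p : ℝ) (w : E → ℝ) (c : ℝ) {Ω : Set E} {f : E → ℝ} (hf : LipC Ω f) :
    XF p w (fun x => c * f x) = c * XF p w f := by
  obtain ⟨⟨Kf, hKf⟩, _, _⟩ := hf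
  unfold XF
  rw [mul_neg, ← integral_const_mul]
  congr 1
  apply integral_congr_ae
  filter_upwards [lip_ae hKf] with x hx
  rw [← inner_smul_right]
  congr 1
  unfold gradient
  rw [fderiv_const_mul hx]
  simp

namespace Pos

/-- the regularised field -/
noncomputable def hE (p ε s : ℝ) : ℝ := (ε ^ 2 + s) ^ ((p - 2) / 2)

theorem hE_norm_le {p : ℝ} (hp : 1 < p) {ε : ℝ} (hε : 0 < ε) (ξ : E) :
    ‖hE p ε (‖ξ‖ ^ 2) • ξ‖ ≤ (ε ^ 2 + ‖ξ‖ ^ 2) ^ ((p - 1) / 2) := by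
  have hb : 0 < ε ^ 2 + ‖ξ‖ ^ 2 := by positivity
  have h1 : ‖ξ‖ ≤ (ε ^ 2 + ‖ξ‖ ^ 2) ^ ((1 : ℝ) / 2) := by
    rw [← Real.sqrt_eq_rpow]
    apply Real.le_sqrt_of_sq_le
    have : 0 ≤ ε ^ 2 := sq_nonneg ε
    linarith
  have h2 : 0 ≤ (ε ^ 2 + ‖ξ‖ ^ 2) ^ ((p - 2) / 2) := Real.rpow_nonneg hb.le _
  rw [norm_smul, hE, Real.norm_of_nonneg h2]
  calc (ε ^ 2 + ‖ξ‖ ^ 2) ^ ((p - 2) / 2) * ‖ξ‖
      ≤ (ε ^ 2 + ‖ξ‖ ^ 2) ^ ((p - 2) / 2) * (ε ^ 2 + ‖ξ‖ ^ 2) ^ ((1 : ℝ) / 2) :=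
        mul_le_mul_of_nonneg_left h1 h2
    _ = (ε ^ 2 + ‖ξ‖ ^ 2) ^ ((p - 1) / 2) := by
        rw [← Real.rpow_add hb]
        congr 1
        ring

theorem hE_tendsto {p : ℝ} (hp : 1 < p) {ε : ℕ → ℝ} (hε : ∀ k, 0 < ε k)
    (hε0 : Tendsto ε atTop (𝓝 0)) {ξ : ℕ → E} {ξ₀ : E} (hξ : Tendsto ξ atTop (𝓝 ξ₀)) :
    Tendsto (fun k => hE p (ε k) (‖ξ k‖ ^ 2) • ξ k) atTop (𝓝 (aP p ξ₀)) := by
  have hbase : Tendsto (fun k => ε k ^ 2 + ‖ξ k‖ ^ 2) atTop (𝓝 (0 ^ 2 + ‖ξ₀‖ ^ 2)) :=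
    (hε0.pow 2).add (hξ.norm.pow 2)
  by_cases h0 : ξ₀ = 0
  · subst h0
    have e0 : aP p (0 : E) = 0 := by unfold aP; simp
    rw [e0]
    refine squeeze_zero_norm (fun k => hE_norm_le hp (hε k) (ξ k)) ?_
    have h1 : Tendsto (fun k => (ε k ^ 2 + ‖ξ k‖ ^ 2) ^ ((p - 1) / 2)) atTop
        (𝓝 ((0 ^ 2 + ‖(0 : E)‖ ^ 2) ^ ((p - 1) / 2))) :=
      hbase.rpow_const (Or.inr (by linarith))
    have h2 : ((0 : ℝ) ^ 2 + ‖(0 : E)‖ ^ 2) ^ ((p - 1) / 2) = 0 := by
      rw [norm_zero]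
      have : (0 : ℝ) ^ 2 + 0 ^ 2 = 0 := by norm_num
      rw [this, Real.zero_rpow (by linarith)]
    rwa [h2] at h1
  · have hn : 0 < ‖ξ₀‖ := norm_pos_iff.2 h0
    have h1 : Tendsto (fun k => (ε k ^ 2 + ‖ξ k‖ ^ 2) ^ ((p - 2) / 2)) atTop
        (𝓝 ((0 ^ 2 + ‖ξ₀‖ ^ 2) ^ ((p - 2) / 2))) :=
      hbase.rpow_const (Or.inl (by positivity))
    have h2 : ((0 : ℝ) ^ 2 + ‖ξ₀‖ ^ 2) ^ ((p - 2) / 2) = ‖ξ₀‖ ^ (p - 2) := by
      have e1 : (0 : ℝ) ^ 2 + ‖ξ₀‖ ^ 2 = ‖ξ₀‖ ^ (2 : ℝ) := by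
        rw [Real.rpow_two]
        ring
      rw [e1, ← Real.rpow_mul hn.le]
      congr 1
      ring
    rw [h2] at h1
    exact h1.smul hξ

/-- positivity for smooth convex functions and the regularised field -/
theorem smooth_nonneg {p : ℝ} (hp : 1 < p) {ε : ℝ} (hε : 0 < ε) {W : E → ℝ}
    (hW : ContDiff ℝ 2 W) (hc : ConvexOn ℝ univ W) {f : E → ℝ} (hf : LipC univ f)
    (h0 : ∀ x, 0 ≤ f x) :
    0 ≤ - ∫ x, hE p ε (‖gradient W x‖ ^ 2) * ⟪gradient W x, gradient f x⟫ := by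
  have hε2 : 0 < ε ^ 2 := by positivity
  have hder : ∀ s, -(ε ^ 2) < s → HasDerivAt (hE p ε)
      ((p - 2) / 2 * (ε ^ 2 + s) ^ ((p - 2) / 2 - 1)) s := by
    intro s hs
    have h1 : HasDerivAt (fun s : ℝ => ε ^ 2 + s) 1 s := (hasDerivAt_id s).const_add _
    have h3 : ε ^ 2 + s ≠ 0 := by linarith
    have h2 := h1.rpow_const (p := (p - 2) / 2) (Or.inl h3)
    rw [one_mul] at h2
    exact h2
  rw [radial_parts hW hε2 hder ?_ hf]
  · apply integral_nonneg
    intro x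
    have hT : 0 < ε ^ 2 + ‖gradient W x‖ ^ 2 := by positivity
    have hl : 0 ≤ lap W x := Finset.sum_nonneg fun i _ => Hs_nonneg hW hc x _
    have hH0 := Hs_nonneg hW hc x (gradient W x)
    have hH1 := Hs_le_lap hW hc x (gradient W x)
    have hTp : 0 < (ε ^ 2 + ‖gradient W x‖ ^ 2) ^ ((p - 2) / 2) := Real.rpow_pos_of_pos hT _
    show 0 ≤ (hE p ε (‖gradient W x‖ ^ 2) * lap W x +
      2 * ((p - 2) / 2 * (ε ^ 2 + ‖gradient W x‖ ^ 2) ^ ((p - 2) / 2 - 1)) *
        Hs W x (gradient W x)) * f x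
    apply mul_nonneg _ (h0 x)
    rw [Real.rpow_sub_one hT.ne', hE]
    set T := ε ^ 2 + ‖gradient W x‖ ^ 2 with hTd
    set l := lap W x
    set y := Hs W x (gradient W x) / T with hy
    have hy0 : 0 ≤ y := div_nonneg hH0 hT.le
    have hy1 : y ≤ l := by
      rw [hy, div_le_iff₀ hT]
      have : ‖gradient W x‖ ^ 2 * l ≤ l * T := by
        rw [hTd]
        nlinarith
      linarith
    have e1 : T ^ ((p - 2) / 2) * l + 2 * ((p - 2) / 2 * (T ^ ((p - 2) / 2) / T)) *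
        Hs W x (gradient W x) = T ^ ((p - 2) / 2) * ((l - y) + (p - 1) * y) := by
      rw [hy]
      field_simp
      ring
    rw [e1]
    exact mul_nonneg hTp.le (add_nonneg (by linarith) (mul_nonneg (by linarith) hy0))
  · intro s hs
    have hs' : -(ε ^ 2) < s := hs
    have h3 : ε ^ 2 + s ≠ 0 := by linarith
    apply ContinuousWithinAt.mul continuousWithinAt_const
    exact ((continuous_const.add continuous_id).continuousAt.rpow_const
      (Or.inl h3)).continuousWithinAt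

theorem integrable_ind {K : Set E} (hK : IsCompact K) (C : ℝ) :
    Integrable (K.indicator (fun _ => C)) := by
  rw [integrable_indicator_iff hK.measurableSet]
  exact integrableOn_const hK.measure_lt_top.ne

/-- positivity for global convex Lipschitz functions -/
theorem global_nonneg {p : ℝ} (hp : 1 < p) {V : E → ℝ} (hV : ConvexOn ℝ univ V) {L : ℝ≥0}
    (hL : LipschitzWith L V) {f : E → ℝ} (hf : LipC univ f) (h0 : ∀ x, 0 ≤ f x) :
    0 ≤ XF p V f := by
  obtain ⟨W, hW1, hW2, hW3, hW4⟩ := exists_smooth hV hL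
  set ε : ℕ → ℝ := fun k => 1 / ((k : ℝ) + 1) with hε
  have hεpos : ∀ k, 0 < ε k := fun k => by positivity
  have hε0 : Tendsto ε atTop (𝓝 0) := tendsto_one_div_add_atTop_nhds_zero_nat
  have hε1 : ∀ k, ε k ≤ 1 := by
    intro k
    rw [hε]
    show 1 / ((k : ℝ) + 1) ≤ 1
    rw [div_le_one (by positivity)]
    have : (0 : ℝ) ≤ k := Nat.cast_nonneg k
    linarith
  have hcs := hf.2.1
  obtain ⟨Kf, hKf⟩ := hf.1
  set a : ℕ → E → ℝ := fun k x =>
    hE p (ε k) (‖gradient (W k) x‖ ^ 2) * ⟪gradient (W k) x, gradient f x⟫ with ha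
  have hpos : ∀ k, 0 ≤ - ∫ x, a k x := fun k =>
    smooth_nonneg hp (hεpos k) ((hW1 k).of_le (WithTop.coe_le_coe.2 (le_top : (2 : ℕ∞) ≤ ⊤))) (hW2 k) hf h0
  have hlim : Tendsto (fun k => ∫ x, a k x) atTop
      (𝓝 (∫ x, ⟪aP p (gradient V x), gradient f x⟫)) := by
    refine tendsto_integral_of_dominated_convergence
      ((tsupport f).indicator (fun _ => (1 + (L : ℝ) ^ 2) ^ ((p - 1) / 2) * Kf)) ?_
      (integrable_ind hcs _) ?_ ?_
    · intro k
      refine Measurable.aestronglyMeasurable ?_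
      refine Measurable.mul ?_ ((meas_grad _).inner (meas_grad f))
      unfold hE
      exact (measurable_const.add ((meas_grad _).norm.pow_const 2)).pow_const _
    · intro k
      refine Filter.Eventually.of_forall fun x => ?_
      by_cases hx : x ∈ tsupport f
      · rw [indicator_of_mem hx, Real.norm_eq_abs, ha]
        show |hE p (ε k) (‖gradient (W k) x‖ ^ 2) * ⟪gradient (W k) x, gradient f x⟫| ≤ _
        rw [← real_inner_smul_left]
        refine (abs_real_inner_le_norm _ _).trans ?_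
        refine mul_le_mul ?_ (grad_le hKf x) (norm_nonneg _) (by positivity)
        refine (hE_norm_le hp (hεpos k) _).trans ?_
        refine Real.rpow_le_rpow (by positivity) ?_ (by linarith)
        have h1 := grad_le (hW3 k) x
        have h2 : ‖gradient (W k) x‖ ^ 2 ≤ (L : ℝ) ^ 2 :=
          pow_le_pow_left₀ (norm_nonneg _) h1 2
        have h3 : ε k ^ 2 ≤ 1 := by
          have := hε1 k
          have := hεpos k
          nlinarith
        linarith
      · rw [indicator_of_notMem hx, ha]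
        simp only
        rw [grad_off hx, inner_zero_right, mul_zero, norm_zero]
    · filter_upwards [lip_ae hL] with x hx
      have h1 : Tendsto (fun k => gradient (W k) x) atTop (𝓝 (gradient V x)) := by
        refine gradient_tendsto isOpen_univ (Filter.Eventually.of_forall hW2) hV
          (fun x _ => hW4 x) (mem_univ x) hx (Filter.Eventually.of_forall fun k => ?_)
        exact ((hW1 k).differentiable (by simp)) x
      have h2 := hE_tendsto hp hεpos hε0 h1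
      have h3 : Tendsto (fun k => ⟪hE p (ε k) (‖gradient (W k) x‖ ^ 2) • gradient (W k) x,
          gradient f x⟫) atTop (𝓝 ⟪aP p (gradient V x), gradient f x⟫) :=
        h2.inner tendsto_const_nhds
      refine h3.congr fun k => ?_
      rw [ha]
      simp only
      rw [real_inner_smul_left]
  unfold XF
  exact ge_of_tendsto hlim.neg (Filter.Eventually.of_forall hpos)

/-- a global convex Lipschitz function with the same `XF` -/
theorem exists_good {Ω : Set E} (hΩ : IsOpen Ω) {w : E → ℝ}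
    (hw : ConvexOn ℝ Ω w) {f : E → ℝ} (hf : LipC Ω f) :
    ∃ (V : E → ℝ) (L : ℝ≥0), ConvexOn ℝ univ V ∧ LipschitzWith L V ∧
      ∀ x ∈ tsupport f, gradient V x = gradient w x := by
  obtain ⟨K₂, hK₂, h1, h2⟩ := exists_compact_between hf.2.1 hΩ hf.2.2
  obtain ⟨V, hV, ⟨L, hL⟩, hVw, _⟩ := exists_global hΩ hw hK₂ h2
  refine ⟨V, L, hV, hL, fun x hx => ?_⟩
  apply grad_congr
  have h3 : interior K₂ ∈ 𝓝 x := isOpen_interior.mem_nhds (h1 hx)
  filter_upwards [h3] with y hy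
  exact hVw y (interior_subset hy)

end Pos

theorem XF_nonneg {p : ℝ} (hp : 1 < p) {Ω : Set E} (hΩ : IsOpen Ω) {w : E → ℝ}
    (hw : ConvexOn ℝ Ω w) {f : E → ℝ} (hf : LipC Ω f) (h0 : ∀ x, 0 ≤ f x) : 0 ≤ XF p w f := by
  obtain ⟨V, L, hV, hL, hVw⟩ := exists_good hΩ hw hf
  have h1 := global_nonneg hp hV hL (f := f) ⟨hf.1, hf.2.1, subset_univ _⟩ h0
  have h2 : XF p w f = XF p V f := by
    unfold XF
    congr 1
    apply integral_congr_ae
    refine Filter.Eventually.of_forall fun x => ?_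
    by_cases hx : x ∈ tsupport f
    · simp only
      rw [hVw x hx]
    · simp only
      rw [grad_off hx, inner_zero_right, inner_zero_right]
  rw [h2]
  exact h1

/-- auxiliary: uniform bound of `XF` on cutoffs -/
theorem Pos.lipC_cutoff {U : Set E} {χ : E → ℝ} (h1 : ContDiff ℝ (⊤ : ℕ∞) χ)
    (h2 : HasCompactSupport χ) (h3 : tsupport χ ⊆ U) : LipC U χ := by
  have h4 : ContDiff ℝ 1 χ := h1.of_le (WithTop.coe_le_coe.2 (le_top : (1 : ℕ∞) ≤ ⊤))
  obtain ⟨C, hC⟩ := h4.lipschitzWith_of_hasCompactSupport h2 one_ne_zero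
  exact ⟨⟨C, hC⟩, h2, h3⟩

theorem Pos.lipC_smul {U : Set E} {f : E → ℝ} (hf : LipC U f) (c : ℝ) :
    LipC U (fun x => c * f x) := by
  obtain ⟨⟨K, hK⟩, h2, h3⟩ := hf
  refine ⟨⟨⟨|c|, abs_nonneg c⟩ * K, ?_⟩, h2.mul_left, ?_⟩
  · refine LipschitzWith.of_dist_le_mul fun x y => ?_
    have := hK.dist_le_mul x y
    rw [Real.dist_eq] at this ⊢
    rw [← mul_sub, abs_mul]
    push_cast
    calc |c| * |f x - f y| ≤ |c| * (K * dist x y) :=
          mul_le_mul_of_nonneg_left this (abs_nonneg c)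
      _ = |c| * K * dist x y := by ring
  · exact (closure_mono (Function.support_mul_subset_right _ _)).trans h3

theorem Pos.lipC_add {U : Set E} {f g : E → ℝ} (hf : LipC U f) (hg : LipC U g) :
    LipC U (fun x => f x + g x) := by
  obtain ⟨⟨K, hK⟩, h2, h3⟩ := hf
  obtain ⟨⟨K', hK'⟩, h2', h3'⟩ := hg
  exact ⟨⟨K + K', hK.add hK'⟩, h2.add h2', (tsupport_add f g).trans (union_subset h3 h3')⟩

theorem Pos.lipC_sub {U : Set E} {f g : E → ℝ} (hf : LipC U f) (hg : LipC U g) :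
    LipC U (fun x => f x - g x) := by
  have h := Pos.lipC_add hf (Pos.lipC_smul hg (-1))
  have e : (fun x => f x - g x) = fun x => f x + -1 * g x := by
    funext x
    ring
  rw [e]
  exact h

/-- gradients are bounded on a compact set in the interior, uniformly for bounded convex
functions -/
theorem Pos.grad_bound {Ω : Set E} {K K₂ : Set E} (hK : IsCompact K) (h1 : K ⊆ interior K₂)
    (h2 : K₂ ⊆ Ω) : ∃ r > 0, ∀ M : ℝ, ∀ w : E → ℝ, ConvexOn ℝ Ω w → (∀ x ∈ K₂, |w x| ≤ M) →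
      ∀ x ∈ K, ‖gradient w x‖ ≤ 2 * M / r := by
  obtain ⟨r, hr, hr'⟩ := hK.exists_cthickening_subset_open isOpen_interior h1
  refine ⟨r, hr, fun M w hw hM x hx => ?_⟩
  have h3 : closedBall x r ⊆ K₂ :=
    (closedBall_subset_cthickening hx r).trans (hr'.trans interior_subset)
  exact gradient_norm_le hw hr (h3.trans h2) fun y hy => hM y (h3 hy)

theorem XF_bound {p : ℝ} (hp : 1 < p) {Ω : Set E} (hΩ : IsOpen Ω) {K K₂ : Set E}
    (hK : IsCompact K) (hK₂ : IsCompact K₂) (h1 : K ⊆ interior K₂) (h2 : K₂ ⊆ Ω) (M : ℝ) :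
    ∃ C : ℝ, ∀ w : E → ℝ, ConvexOn ℝ Ω w → (∀ x ∈ K₂, |w x| ≤ M) → ∀ f, LipC Ω f →
      tsupport f ⊆ K → ∀ ε : ℝ, (∀ x, |f x| ≤ ε) → |XF p w f| ≤ C * ε := by
  obtain ⟨χ, c1, c2, c3, c4, U, hU, hKU, c5⟩ := exists_cutoff isOpen_interior hK h1
  obtain ⟨r, hr, hb⟩ := Pos.grad_bound (Ω := Ω) c2 c3 h2
  have hχint : LipC (interior K₂) χ := Pos.lipC_cutoff c1 c2 c3
  have hχ : LipC Ω χ := ⟨hχint.1, c2, c3.trans (interior_subset.trans h2)⟩
  obtain ⟨Kχ, hKχ⟩ := hχ.1
  refine ⟨∫ x, (tsupport χ).indicator (fun _ => (2 * M / r) ^ (p - 1) * Kχ) x, ?_⟩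
  intro w hw hM f hf hfK ε hε
  have hε0 : 0 ≤ ε := (abs_nonneg _).trans (hε 0)
  have hχb : XF p w χ ≤ ∫ x, (tsupport χ).indicator (fun _ => (2 * M / r) ^ (p - 1) * Kχ) x := by
    unfold XF
    rw [← integral_neg]
    refine integral_mono (XF_integrable hp hΩ hw hχ).neg (integrable_ind c2 _) fun x => ?_
    by_cases hx : x ∈ tsupport χ
    · rw [indicator_of_mem hx]
      refine (neg_le_abs _).trans ?_
      exact aP_inner_le hp (hb M w hw hM x hx) (grad_le hKχ x)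
    · rw [indicator_of_notMem hx]
      simp only
      rw [grad_off hx, inner_zero_right, neg_zero]
  have hpt : ∀ x, |f x| ≤ ε * χ x := by
    intro x
    by_cases hx : x ∈ K
    · rw [c5 x (hKU hx), mul_one]
      exact hε x
    · have : f x = 0 := by
        by_contra h
        exact hx (hfK (subset_tsupport f h))
      rw [this, abs_zero]
      exact mul_nonneg hε0 (c4 x).1
  have hεχ := Pos.lipC_smul hχ ε
  have n1 := XF_nonneg hp hΩ hw (Pos.lipC_sub hεχ hf)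
    (fun x => by have := (abs_le.1 (hpt x)).2; linarith)
  have n2 := XF_nonneg hp hΩ hw (Pos.lipC_add hεχ hf)
    (fun x => by have := (abs_le.1 (hpt x)).1; linarith)
  rw [XF_sub hp hΩ hw hεχ hf, XF_smul p w ε hχ] at n1
  rw [XF_add hp hΩ hw hεχ hf, XF_smul p w ε hχ] at n2
  have h3 := mul_le_mul_of_nonneg_left hχb hε0
  rw [abs_le]
  constructor <;> linarith

theorem XF_tendsto {α : Type*} {l : Filter α} [l.IsCountablyGenerated] {p : ℝ} (hp : 1 < p)
    {Ω : Set E} (hΩ : IsOpen Ω) {w : α → E → ℝ} {v : E → ℝ}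
    (hw : ∀ᶠ a in l, ConvexOn ℝ Ω (w a)) (hv : ConvexOn ℝ Ω v)
    (hlim : ∀ x ∈ Ω, Tendsto (fun a => w a x) l (𝓝 (v x))) {f : E → ℝ} (hf : LipC Ω f) :
    Tendsto (fun a => XF p (w a) f) l (𝓝 (XF p v f)) := by
  refine tendsto_of_seq_tendsto fun u hu => ?_
  have hw' : ∀ᶠ n in atTop, ConvexOn ℝ Ω (w (u n)) := hu.eventually hw
  have hlim' : ∀ x ∈ Ω, Tendsto (fun n => w (u n) x) atTop (𝓝 (v x)) := fun x hx =>
    (hlim x hx).comp hu
  obtain ⟨K₂, hK₂, h1, h2⟩ := exists_compact_between hf.2.1 hΩ hf.2.2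
  obtain ⟨r, hr, hb⟩ := Pos.grad_bound (Ω := Ω) hf.2.1 h1 h2
  obtain ⟨Kf, hKf⟩ := hf.1
  have hunif := tendstoUniformlyOn_of_convex hΩ hw' hv hlim' hK₂ h2
  obtain ⟨M, _, hM⟩ := exists_lip_compact hΩ hv hK₂ h2
  have hbd : ∀ᶠ n in atTop, ∀ x ∈ K₂, |w (u n) x| ≤ M + 1 := by
    have := Metric.tendstoUniformlyOn_iff.1 hunif 1 one_pos
    filter_upwards [this] with n hn x hx
    have h3 := hn x hx
    rw [Real.dist_eq] at h3
    have h4 := hM x hx
    have h5 : |w (u n) x| ≤ |v x| + |v x - w (u n) x| := by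
      have := abs_sub_abs_le_abs_sub (w (u n) x) (v x)
      rw [abs_sub_comm] at this
      linarith
    linarith
  have hlim2 : Tendsto (fun n => ∫ x, ⟪aP p (gradient (w (u n)) x), gradient f x⟫) atTop
      (𝓝 (∫ x, ⟪aP p (gradient v x), gradient f x⟫)) := by
    refine tendsto_integral_filter_of_dominated_convergence
      ((tsupport f).indicator (fun _ => (2 * (M + 1) / r) ^ (p - 1) * Kf)) ?_ ?_
      (integrable_ind hf.2.1 _) ?_
    · exact Filter.Eventually.of_forall fun n => (meas_inner hp _ f).aestronglyMeasurable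
    · filter_upwards [hw', hbd] with n hn1 hn2
      refine Filter.Eventually.of_forall fun x => ?_
      by_cases hx : x ∈ tsupport f
      · rw [indicator_of_mem hx, Real.norm_eq_abs]
        exact aP_inner_le hp (hb _ _ hn1 hn2 x hx) (grad_le hKf x)
      · rw [indicator_of_notMem hx, grad_off hx, inner_zero_right, norm_zero]
    · have hae : ∀ᵐ x : E, ∀ n, ConvexOn ℝ Ω (w (u n)) → x ∈ Ω →
          DifferentiableAt ℝ (w (u n)) x := by
        rw [ae_all_iff]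
        intro n
        by_cases hn : ConvexOn ℝ Ω (w (u n))
        · filter_upwards [convex_ae_diff hΩ hn] with x hx _ hxΩ
          exact hx hxΩ
        · exact Filter.Eventually.of_forall fun x h => absurd h hn
      filter_upwards [hae, convex_ae_diff hΩ hv] with x hx1 hx2
      by_cases hx : x ∈ tsupport f
      · have hxΩ := hf.2.2 hx
        have h3 : Tendsto (fun n => gradient (w (u n)) x) atTop (𝓝 (gradient v x)) :=
          gradient_tendsto hΩ hw' hv hlim' hxΩ (hx2 hxΩ)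
            (hw'.mono fun n hn => hx1 n hn hxΩ)
        exact (((continuous_aP hp).tendsto _).comp h3).inner tendsto_const_nhds
      · simp only [grad_off hx, inner_zero_right]
        exact tendsto_const_nhds
  exact hlim2.neg

end PLap
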