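import Pool.Agent.Lib.MP_a627f3_an.VecA
import Pool.Agent.Lib.MP_a627f3_an.Lip
import Pool.Agent.Lib.MP_a627f3_an.ConvC
import Pool.Agent.Lib.MP_a627f3_an.ConvD
import Pool.Agent.Lib.MP_a627f3_an.Pos

open MeasureTheory Set Filter Topology Metric
open scoped RealInnerProductSpace ENNReal NNReal

namespace PLap

variable {E : Type*} [NormedAddCommGroup E] [InnerProductSpace ℝ E] [FiniteDimensional ℝ E]
  [CompleteSpace E] [MeasurableSpace E] [BorelSpace E]

namespace Crit

omit [FiniteDimensional ℝ E] [CompleteSpace E] [MeasurableSpace E] [BorelSpace E] in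
theorem lipC_mul {Ω : Set E} {f h : E → ℝ} (hf : LipC Ω f) {L : ℝ≥0} (hh : LipschitzWith L h) :
    LipC Ω (fun x => f x * h x) := by
  obtain ⟨⟨K, hK⟩, hc, hs⟩ := hf
  obtain ⟨F, hF⟩ := hc.exists_bound_of_continuous hK.continuous
  obtain ⟨M, hM⟩ := IsCompact.exists_bound_of_continuousOn hc
    (hh.continuous.continuousOn (s := tsupport f))
  have hF0 : 0 ≤ F := (norm_nonneg _).trans (hF 0)
  have hpos : 0 ≤ F * L + |M| * K := by positivity
  have key : ∀ x y, y ∈ tsupport f →
      |f x * h x - f y * h y| ≤ (F * L + |M| * K) * dist x y := by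
    intro x y hy
    have e : f x * h x - f y * h y = f x * (h x - h y) + h y * (f x - f y) := by ring
    have h1 : |h x - h y| ≤ L * dist x y := by
      rw [← Real.dist_eq]; exact hh.dist_le_mul x y
    have h2 : |f x - f y| ≤ K * dist x y := by
      rw [← Real.dist_eq]; exact hK.dist_le_mul x y
    have h3 : |f x| ≤ F := hF x
    have h4 : |h y| ≤ |M| := (hM y hy).trans (le_abs_self M)
    rw [e]
    calc |f x * (h x - h y) + h y * (f x - f y)|
        ≤ |f x * (h x - h y)| + |h y * (f x - f y)| := abs_add_le _ _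
      _ = |f x| * |h x - h y| + |h y| * |f x - f y| := by rw [abs_mul, abs_mul]
      _ ≤ F * (L * dist x y) + |M| * (K * dist x y) := by gcongr
      _ = (F * L + |M| * K) * dist x y := by ring
  refine ⟨⟨⟨F * L + |M| * K, hpos⟩, LipschitzWith.of_dist_le_mul fun x y => ?_⟩, ?_, ?_⟩
  · rw [Real.dist_eq]
    by_cases hy : y ∈ tsupport f
    · exact key x y hy
    · by_cases hx : x ∈ tsupport f
      · rw [abs_sub_comm, dist_comm]; exact key y x hx
      · rw [image_eq_zero_of_notMem_tsupport hx, image_eq_zero_of_notMem_tsupport hy]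
        simp only [zero_mul, sub_self, abs_zero]
        exact mul_nonneg hpos dist_nonneg
  · exact hc.mul_right
  · exact (tsupport_mul_subset_left (f := f) (g := h)).trans hs

omit [InnerProductSpace ℝ E] [FiniteDimensional ℝ E] [CompleteSpace E] [MeasurableSpace E]
  [BorelSpace E] in
theorem cont_mul {Ω : Set E} (hΩ : IsOpen Ω) {f k : E → ℝ} (hf : Continuous f)
    (hs : tsupport f ⊆ Ω) (hk : ContinuousOn k Ω) : Continuous (fun x => k x * f x) := by
  rw [continuous_iff_continuousAt]
  intro x
  by_cases hx : x ∈ Ω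
  · exact (hk.continuousAt (hΩ.mem_nhds hx)).mul hf.continuousAt
  · have h1 : f =ᶠ[𝓝 x] 0 := notMem_tsupport_iff_eventuallyEq.1 fun h => hx (hs h)
    have h2 : (fun x => k x * f x) =ᶠ[𝓝 x] fun _ => 0 := by
      filter_upwards [h1] with y hy
      rw [hy]
      simp
    exact (continuousAt_const (y := (0 : ℝ))).congr h2.symm

end Crit

open Crit

theorem crit_null {p lam δ : ℝ} (hp : 1 < p) (hδ : 0 ≤ δ) {Ω : Set E} {v : E → ℝ}
    (hv : Reg Ω v) (h : ELK p lam δ Ω v) (hpos : ∀ x ∈ Ω, 0 < lam + δ * v x) :
    volume {x | x ∈ Ω ∧ gradient v x = 0} = 0 := by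
  classical
  obtain ⟨s₀, hs₀, hEL⟩ := h
  set K : Set E := {x | x ∈ Ω ∧ gradient v x = 0} with hKdef
  have hKeq : K = {x | x ∈ Ω ∧ gradient v x ∈ ({0} : Set E)} := by
    ext x; simp [hKdef]
  have hK : IsCompact K := by
    rw [hKeq]; exact hv.isCompact_grad isCompact_singleton
  have hKΩ : K ⊆ Ω := fun x hx => hx.1
  set K₁ : Set E := {x | x ∈ Ω ∧ gradient v x ∈ closedBall (0 : E) s₀} with hK₁def
  have hK₁ : IsCompact K₁ := hv.isCompact_grad (isCompact_closedBall _ _)
  have hK₁Ω : K₁ ⊆ Ω := fun x hx => hx.1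
  -- argmin and convexity
  have hmin1 : ∀ x ∈ K, ∀ y ∈ Ω, v x ≤ v y := by
    intro x hx y hy
    have h1 := tangent_le hv.cvx hx.1 (hv.diffAt hx.1) hy
    rw [hx.2, inner_zero_left, add_zero] at h1
    exact h1
  have hmin2 : ∀ x ∈ Ω, (∀ y ∈ Ω, v x ≤ v y) → x ∈ K := by
    intro x hx hmin
    refine ⟨hx, ?_⟩
    have h1 : IsLocalMin v x := by
      filter_upwards [hv.isOpen.mem_nhds hx] with y hy
      exact hmin y hy
    unfold gradient
    rw [h1.fderiv_eq_zero, map_zero]
  have hKconv : Convex ℝ K := by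
    intro x hx y hy a b ha hb hab
    refine hmin2 _ (hv.convex hx.1 hy.1 ha hb hab) fun z hz => ?_
    have h1 := hv.cvx.2 hx.1 hy.1 ha hb hab
    have h2 := hmin1 x hx z hz
    have h3 := hmin1 y hy z hz
    simp only [smul_eq_mul] at h1
    calc v (a • x + b • y) ≤ a * v x + b * v y := h1
      _ ≤ a * v z + b * v z := by gcongr
      _ = v z := by rw [← add_mul, hab, one_mul]
  by_contra hvol
  -- interior point
  have hint : (interior K).Nonempty := by
    by_contra hcon
    rw [not_nonempty_iff_eq_empty] at hcon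
    apply hvol
    have h1 : K ⊆ frontier K := by
      rw [hK.isClosed.frontier_eq, hcon, sdiff_empty]
    exact measure_mono_null h1 (hKconv.addHaar_frontier volume)
  obtain ⟨x₀, hx₀⟩ := hint
  -- the gauge
  set S : Set E := (fun y => x₀ + y) ⁻¹' K with hS
  have hSconv : Convex ℝ S := hKconv.translate_preimage_right x₀
  have hS0 : S ∈ 𝓝 (0 : E) := by
    have hcont : ContinuousAt (fun y : E => x₀ + y) 0 := (continuous_const.add continuous_id).continuousAt
    apply hcont
    show K ∈ 𝓝 (x₀ + 0)
    rw [add_zero]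
    exact mem_interior_iff_mem_nhds.1 hx₀
  have hSclosed : IsClosed S := hK.isClosed.preimage (continuous_const.add continuous_id)
  obtain ⟨L, hL⟩ := hSconv.lipschitz_gauge hS0
  set H : E → ℝ := fun x => gauge S (x - x₀) with hH
  have hHlip : LipschitzWith L H := by
    have h1 : LipschitzWith 1 (fun x : E => x - x₀) := by
      refine LipschitzWith.of_dist_le_mul fun x y => ?_
      simp
    have h2 := hL.comp h1
    rwa [mul_one] at h2
  have habs : Absorbent ℝ S := absorbent_nhds_zero hS0
  have hHconv : ConvexOn ℝ univ H := by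
    refine ⟨convex_univ, fun x _ y _ a b ha hb hab => ?_⟩
    have e1 : a • x + b • y - x₀ = a • (x - x₀) + b • (y - x₀) := by
      rw [smul_sub, smul_sub]
      have : x₀ = a • x₀ + b • x₀ := by rw [← add_smul, hab, one_smul]
      calc a • x + b • y - x₀ = a • x + b • y - (a • x₀ + b • x₀) := by rw [← this]
        _ = _ := by abel
    simp only [hH]
    rw [e1]
    refine (gauge_add_le hSconv habs _ _).trans ?_
    rw [gauge_smul_of_nonneg ha, gauge_smul_of_nonneg hb]
  have hH1 : ∀ x, H x ≤ 1 ↔ x ∈ K := by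
    intro x
    simp only [hH]
    rw [gauge_le_one_iff_mem_closure hSconv hS0, hSclosed.closure_eq]
    simp [hS]
  have hHint : ∀ x ∈ interior K, H x < 1 := by
    intro x hx
    have h1 : x - x₀ ∈ interior S := by
      rw [mem_interior_iff_mem_nhds]
      have hcont : ContinuousAt (fun y : E => x₀ + y) (x - x₀) :=
        (continuous_const.add continuous_id).continuousAt
      apply hcont
      show K ∈ 𝓝 (x₀ + (x - x₀))
      rw [add_sub_cancel]
      exact mem_interior_iff_mem_nhds.1 hx
    exact interior_subset_gauge_lt_one S h1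
  -- bound of `H - 1` on `Ω`
  obtain ⟨CH, hCH0, hCH⟩ : ∃ C : ℝ, 0 ≤ C ∧ ∀ x ∈ Ω, |H x - 1| ≤ C := by
    obtain ⟨C, hC⟩ := (hHlip.isBounded_image hv.bdd).exists_norm_le
    refine ⟨|C| + 1, by positivity, fun x hx => ?_⟩
    have h1 : |H x| ≤ C := hC _ ⟨x, hx, rfl⟩
    calc |H x - 1| ≤ |H x| + |1| := abs_sub _ _
      _ ≤ |C| + 1 := by rw [abs_one]; linarith [le_abs_self C]
  -- the cutoff functions
  set gm : ℕ → E → ℝ := fun m ξ => max 0 (1 - ((m : ℝ) + 1) / s₀ * ‖ξ‖) with hgm
  have hgcont : ∀ m, Continuous (gm m) := fun m =>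
    continuous_const.max (continuous_const.sub (continuous_const.mul continuous_norm))
  have hg0 : ∀ m ξ, 0 ≤ gm m ξ := fun m ξ => le_max_left _ _
  have hg1 : ∀ m ξ, gm m ξ ≤ 1 := by
    intro m ξ
    refine max_le zero_le_one ?_
    have : 0 ≤ ((m : ℝ) + 1) / s₀ * ‖ξ‖ := by positivity
    linarith
  have hgz : ∀ m ξ, s₀ ≤ ‖ξ‖ → gm m ξ = 0 := by
    intro m ξ hξ
    refine max_eq_left ?_
    have h1 : 1 ≤ ((m : ℝ) + 1) / s₀ * ‖ξ‖ := by
      calc (1 : ℝ) ≤ ((m : ℝ) + 1) := by
            have : (0 : ℝ) ≤ m := Nat.cast_nonneg m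
            linarith
        _ = ((m : ℝ) + 1) / s₀ * s₀ := by field_simp
        _ ≤ ((m : ℝ) + 1) / s₀ * ‖ξ‖ := by gcongr
    linarith
  have hgsupp : ∀ m, tsupport (gm m) ⊆ closedBall (0 : E) s₀ := by
    intro m
    refine closure_minimal ?_ isClosed_closedBall
    intro ξ hξ
    by_contra hcon
    apply hξ
    rw [mem_closedBall_zero_iff, not_le] at hcon
    exact hgz m ξ hcon.le
  set ψ : ℕ → E → ℝ := fun m x => if x ∈ Ω then gm m (gradient v x) else 0 with hψ
  have hψz : ∀ m x, x ∉ K₁ → ψ m x = 0 := by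
    intro m x hx
    by_cases hxΩ : x ∈ Ω
    · simp only [hψ, if_pos hxΩ]
      apply hgz
      by_contra hcon
      exact hx ⟨hxΩ, by rw [mem_closedBall_zero_iff]; exact (not_le.1 hcon).le⟩
    · simp only [hψ, if_neg hxΩ]
  have hψ0 : ∀ m x, 0 ≤ ψ m x := by
    intro m x
    simp only [hψ]
    split_ifs
    · exact hg0 _ _
    · exact le_rfl
  have hψ1 : ∀ m x, ψ m x ≤ 1 := by
    intro m x
    simp only [hψ]
    split_ifs
    · exact hg1 _ _
    · exact zero_le_one
  have hψcont : ∀ m, Continuous (ψ m) := by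
    intro m
    rw [continuous_iff_continuousAt]
    intro x
    by_cases hx : x ∈ Ω
    · have h1 : ContinuousAt (fun y => gm m (gradient v y)) x :=
        ContinuousAt.comp (g := gm m) (hgcont m).continuousAt
          (hv.cont_grad.continuousAt (hv.isOpen.mem_nhds hx))
      refine h1.congr ?_
      filter_upwards [hv.isOpen.mem_nhds hx] with y hy
      simp only [hψ, if_pos hy]
    · have hxK : x ∉ K₁ := fun h => hx (hK₁Ω h)
      refine (continuousAt_const (y := (0 : ℝ))).congr ?_
      filter_upwards [hK₁.isClosed.isOpen_compl.mem_nhds hxK] with y hy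
      exact (hψz m y hy).symm
  have hψts : ∀ m, tsupport (ψ m) ⊆ K₁ := by
    intro m
    refine closure_minimal ?_ hK₁.isClosed
    intro x hx
    by_contra hcon
    exact hx (hψz m x hcon)
  have hψcs : ∀ m, HasCompactSupport (ψ m) := fun m =>
    HasCompactSupport.intro hK₁ fun x hx => hψz m x hx
  -- the weight and the coefficient
  set ν : E → ℝ := fun x => Real.exp (-p * v x) with hν
  set c : E → ℝ := fun x => lam + δ * v x + (p - 1) * ‖gradient v x‖ ^ p with hc
  have hνC1 : ContDiffOn ℝ 1 ν Ω := (contDiffOn_const.mul hv.c1).exp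
  have hνpos : ∀ x, 0 < ν x := fun x => Real.exp_pos _
  have hcc : ContinuousOn c Ω :=
    (continuousOn_const.add (continuousOn_const.mul hv.c1.continuousOn)).add
      (continuousOn_const.mul (hv.cont_grad.norm.rpow_const fun x _ => Or.inr (by linarith)))
  -- choice of the functions
  have key : ∀ m : ℕ, ∃ G : E → ℝ, LipC Ω G ∧ (∀ x, 0 ≤ G x) ∧ (∀ x, G x ≤ ψ m x) ∧
      (∀ x, ψ m x ≤ G x + 1 / ((m : ℝ) + 1)) ∧
      XF p v (fun x => G x * (H x - 1) * ν x) ≤
        (∫ x, c x * (G x * (H x - 1) * ν x)) + 1 / ((m : ℝ) + 1) := by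
    intro m
    have hel := hEL (gm m) (hgcont m) (hg0 m) (hgsupp m) H 0 1 hHconv ⟨L, hHlip⟩
    obtain ⟨C, hC⟩ := hel K₁ hK₁ hK₁Ω
    have hm1 : 0 < 1 / ((m : ℝ) + 1) := by positivity
    set ε : ℝ := 1 / ((m : ℝ) + 1) / (|C| * CH + 1) with hε
    have hden : 1 ≤ |C| * CH + 1 := by
      have : 0 ≤ |C| * CH := by positivity
      linarith
    have hε0 : 0 < ε := by positivity
    have hε1 : ε ≤ 1 / ((m : ℝ) + 1) := div_le_self hm1.le hden
    obtain ⟨G, hG1, hG2, hG3, hG4, hG5⟩ := lipC_approx hv.isOpen (hψcont m) (hψcs m)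
      ((hψts m).trans hK₁Ω) (hψ0 m) hε0
    have hHlip' : LipschitzWith L (fun x => H x - 1) := by
      refine LipschitzWith.of_dist_le_mul fun x y => ?_
      have := hHlip.dist_le_mul x y
      simpa [Real.dist_eq] using this
    have hGH : LipC Ω (fun x => G x * (H x - 1)) := lipC_mul hG1 hHlip'
    refine ⟨G, hG1, hG3, hG4, fun x => (hG5 x).trans (by linarith), ?_⟩
    have hts : tsupport (fun x => G x * (H x - 1)) ⊆ K₁ :=
      ((tsupport_mul_subset_left (f := G) (g := fun x => H x - 1)).trans hG2).trans (hψts m)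
    have h1 := hC (fun x => G x * (H x - 1)) hGH hts (ε * CH) (by positivity) (by
      intro x hx
      have e1 : G x * (H x - 1) - gm m (gradient v x) * (H x - 0 * v x - 1) =
          (G x - ψ m x) * (H x - 1) := by
        simp only [hψ, if_pos hx]
        ring
      rw [e1, abs_mul]
      apply mul_le_mul _ (hCH x hx) (abs_nonneg _) hε0.le
      rw [abs_le]
      constructor
      · linarith [hG5 x]
      · linarith [hG4 x])
    refine h1.trans ?_
    have h2 : C * (ε * CH) ≤ 1 / ((m : ℝ) + 1) := by
      calc C * (ε * CH) ≤ |C| * (ε * CH) := by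
            apply mul_le_mul_of_nonneg_right (le_abs_self C) (by positivity)
        _ = ε * (|C| * CH) := by ring
        _ ≤ ε * (|C| * CH + 1) := by
            apply mul_le_mul_of_nonneg_left _ hε0.le
            linarith
        _ = 1 / ((m : ℝ) + 1) := by
            rw [hε]
            field_simp
    exact add_le_add le_rfl h2
  choose G hG1 hG2 hG3 hG4 hG5 using key
  -- positivity of the left-hand side
  have hXF : ∀ m, 0 ≤ XF p v (fun x => G m x * (H x - 1) * ν x) := by
    intro m
    have hl1 : LipschitzWith L (fun x => max 0 (H x - 1)) := by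
      refine LipschitzWith.of_dist_le_mul fun x y => ?_
      refine le_trans ?_ (hHlip.dist_le_mul x y)
      rw [Real.dist_eq, Real.dist_eq]
      have := abs_max_sub_max_le_abs (H x - 1) (H y - 1) (0 : ℝ)
      rw [max_comm, max_comm 0]
      calc |max (H x - 1) 0 - max (H y - 1) 0| ≤ |H x - 1 - (H y - 1)| := this
        _ = |H x - H y| := by congr 1; ring
    have hl2 : LipschitzWith L (fun x => max 0 (1 - H x)) := by
      refine LipschitzWith.of_dist_le_mul fun x y => ?_
      refine le_trans ?_ (hHlip.dist_le_mul x y)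
      rw [Real.dist_eq, Real.dist_eq]
      have := abs_max_sub_max_le_abs (1 - H x) (1 - H y) (0 : ℝ)
      rw [max_comm, max_comm 0]
      calc |max (1 - H x) 0 - max (1 - H y) 0| ≤ |1 - H x - (1 - H y)| := this
        _ = |H x - H y| := by rw [abs_sub_comm (H x)]; congr 1; ring
    have hf1 : LipC Ω (fun x => G m x * max 0 (H x - 1) * ν x) :=
      lipC_of_contDiffOn hv.isOpen (lipC_mul (hG1 m) hl1) hνC1
    have hf2 : LipC Ω (fun x => G m x * max 0 (1 - H x) * ν x) :=
      lipC_of_contDiffOn hv.isOpen (lipC_mul (hG1 m) hl2) hνC1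
    have e1 : (fun x => G m x * (H x - 1) * ν x) =
        fun x => G m x * max 0 (H x - 1) * ν x - G m x * max 0 (1 - H x) * ν x := by
      funext x
      rcases le_total (H x) 1 with h1 | h1
      · rw [max_eq_left (by linarith : H x - 1 ≤ 0), max_eq_right (by linarith : 0 ≤ 1 - H x)]
        ring
      · rw [max_eq_right (by linarith : 0 ≤ H x - 1), max_eq_left (by linarith : 1 - H x ≤ 0)]
        ring
    rw [e1, XF_sub hp hv.isOpen hv.cvx hf1 hf2]
    have h1 : 0 ≤ XF p v (fun x => G m x * max 0 (H x - 1) * ν x) :=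
      XF_nonneg hp hv.isOpen hv.cvx hf1 fun x =>
        mul_nonneg (mul_nonneg (hG2 m x) (le_max_left _ _)) (hνpos x).le
    have h2 : XF p v (fun x => G m x * max 0 (1 - H x) * ν x) = 0 := by
      unfold XF
      rw [neg_eq_zero]
      refine integral_eq_zero_of_ae (Eventually.of_forall fun x => ?_)
      simp only [Pi.zero_apply]
      by_cases hx : x ∈ K
      · rw [hx.2]
        have : aP p (0 : E) = 0 := by simp [aP]
        rw [this, inner_zero_left]
      · have h3 : (fun x => G m x * max 0 (1 - H x) * ν x) =ᶠ[𝓝 x] fun _ => 0 := by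
          filter_upwards [hK.isClosed.isOpen_compl.mem_nhds hx] with y hy
          have h4 : ¬ H y ≤ 1 := fun h => hy ((hH1 y).1 h)
          rw [max_eq_left (by linarith), mul_zero, zero_mul]
        have h5 : gradient (fun x => G m x * max 0 (1 - H x) * ν x) x = 0 := by
          unfold gradient
          rw [h3.fderiv_eq]
          simp
        rw [h5, inner_zero_right]
    rw [h2, sub_zero]
    exact h1
  -- dominated convergence
  have hHcont : Continuous H := hHlip.continuous
  have hkc : ContinuousOn (fun x => c x * ((H x - 1) * ν x)) Ω :=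
    hcc.mul ((hHcont.continuousOn.sub continuousOn_const).mul hνC1.continuousOn)
  have hGz : ∀ m x, x ∉ K₁ → G m x = 0 := fun m x hx =>
    le_antisymm ((hG3 m x).trans (hψz m x hx).le) (hG2 m x)
  have hGts : ∀ m, tsupport (G m) ⊆ Ω := fun m => (hG1 m).2.2
  have hlim : Tendsto (fun m => ∫ x, c x * (G m x * (H x - 1) * ν x)) atTop
      (𝓝 (∫ x, K.indicator (fun x => c x * ((H x - 1) * ν x)) x)) := by
    refine tendsto_integral_of_dominated_convergence
      (K₁.indicator (fun x => |c x * ((H x - 1) * ν x)|)) ?_ ?_ ?_ ?_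
    · intro m
      obtain ⟨LG, hLG⟩ := (hG1 m).1
      have h1 : Continuous (fun x => c x * ((H x - 1) * ν x) * G m x) :=
        cont_mul hv.isOpen hLG.continuous (hGts m) hkc
      have h2 : (fun x => c x * (G m x * (H x - 1) * ν x)) =
          fun x => c x * ((H x - 1) * ν x) * G m x := by funext x; ring
      rw [h2]
      exact h1.aestronglyMeasurable
    · rw [integrable_indicator_iff hK₁.isClosed.measurableSet]
      exact (hkc.mono hK₁Ω).abs.integrableOn_compact hK₁
    · intro m
      refine Eventually.of_forall fun x => ?_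
      by_cases hx : x ∈ K₁
      · rw [indicator_of_mem hx, Real.norm_eq_abs]
        have e1 : c x * (G m x * (H x - 1) * ν x) = G m x * (c x * ((H x - 1) * ν x)) := by ring
        rw [e1, abs_mul, abs_of_nonneg (hG2 m x)]
        exact mul_le_of_le_one_left (abs_nonneg _) ((hG3 m x).trans (hψ1 m x))
      · rw [indicator_of_notMem hx, hGz m x hx]
        simp
    · refine Eventually.of_forall fun x => ?_
      have hGlim : Tendsto (fun m => G m x) atTop (𝓝 (K.indicator (fun _ => (1 : ℝ)) x)) := by
        by_cases hx : x ∈ K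
        · rw [indicator_of_mem hx]
          have h1 : ∀ m, ψ m x = 1 := by
            intro m
            simp only [hψ, if_pos hx.1, hgm, hx.2, norm_zero, mul_zero, sub_zero]
            exact max_eq_right zero_le_one
          have h2 : Tendsto (fun m : ℕ => 1 - 1 / ((m : ℝ) + 1)) atTop (𝓝 (1 - 0)) :=
            tendsto_const_nhds.sub tendsto_one_div_add_atTop_nhds_zero_nat
          rw [sub_zero] at h2
          refine tendsto_of_tendsto_of_tendsto_of_le_of_le h2 tendsto_const_nhds ?_ ?_
          · intro m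
            have := hG4 m x
            rw [h1 m] at this
            simp only
            linarith
          · intro m
            have := hG3 m x
            rwa [h1 m] at this
        · rw [indicator_of_notMem hx]
          by_cases hxΩ : x ∈ Ω
          · have hne : gradient v x ≠ 0 := fun h => hx ⟨hxΩ, h⟩
            have hnp : 0 < ‖gradient v x‖ := norm_pos_iff.2 hne
            obtain ⟨N, hN⟩ := exists_nat_gt (s₀ / ‖gradient v x‖)
            refine tendsto_const_nhds.congr' ?_
            filter_upwards [eventually_ge_atTop N] with m hm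
            refine le_antisymm (hG2 m x) ((hG3 m x).trans (le_of_eq ?_))
            simp only [hψ, if_pos hxΩ, hgm]
            refine max_eq_left ?_
            have h1 : s₀ / ‖gradient v x‖ ≤ (m : ℝ) + 1 := by
              have : (N : ℝ) ≤ m := by exact_mod_cast hm
              linarith
            have h2 : 1 ≤ ((m : ℝ) + 1) / s₀ * ‖gradient v x‖ := by
              rw [div_le_iff₀ hnp] at h1
              rw [div_mul_eq_mul_div, le_div_iff₀ hs₀]
              linarith
            linarith
          · have h1 : ∀ m, G m x = 0 := fun m => hGz m x fun h => hxΩ (hK₁Ω h)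
            simp only [h1]
            exact tendsto_const_nhds
      have h1 : Tendsto (fun m => c x * (G m x * (H x - 1) * ν x)) atTop
          (𝓝 (c x * (K.indicator (fun _ => (1 : ℝ)) x * (H x - 1) * ν x))) :=
        tendsto_const_nhds.mul ((hGlim.mul tendsto_const_nhds).mul tendsto_const_nhds)
      have h2 : c x * (K.indicator (fun _ => (1 : ℝ)) x * (H x - 1) * ν x) =
          K.indicator (fun x => c x * ((H x - 1) * ν x)) x := by
        by_cases hx : x ∈ K
        · rw [indicator_of_mem hx, indicator_of_mem hx]; ring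
        · rw [indicator_of_notMem hx, indicator_of_notMem hx]; ring
      rwa [h2] at h1
  have hge : 0 ≤ ∫ x, K.indicator (fun x => c x * ((H x - 1) * ν x)) x := by
    have h1 : Tendsto (fun m : ℕ => (∫ x, c x * (G m x * (H x - 1) * ν x)) + 1 / ((m : ℝ) + 1))
        atTop (𝓝 ((∫ x, K.indicator (fun x => c x * ((H x - 1) * ν x)) x) + 0)) :=
      hlim.add tendsto_one_div_add_atTop_nhds_zero_nat
    rw [add_zero] at h1
    exact ge_of_tendsto' h1 fun m => (hXF m).trans (hG5 m)
  -- contradiction
  have hcK : ∀ x ∈ K, 0 < c x := by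
    intro x hx
    simp only [hc, hx.2, norm_zero]
    rw [Real.zero_rpow (by linarith), mul_zero, add_zero]
    exact hpos x hx.1
  set F : E → ℝ := K.indicator (fun x => c x * ((1 - H x) * ν x)) with hF
  have hFe : ∀ x, K.indicator (fun x => c x * ((H x - 1) * ν x)) x = - F x := by
    intro x
    by_cases hx : x ∈ K
    · rw [hF, indicator_of_mem hx, indicator_of_mem hx]; ring
    · rw [hF, indicator_of_notMem hx, indicator_of_notMem hx]; ring
  simp only [hFe] at hge
  rw [integral_neg] at hge
  have hF0 : ∀ x, 0 ≤ F x := by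
    intro x
    by_cases hx : x ∈ K
    · rw [hF, indicator_of_mem hx]
      exact mul_nonneg (hcK x hx).le (mul_nonneg (by linarith [(hH1 x).2 hx]) (hνpos x).le)
    · rw [hF, indicator_of_notMem hx]
  have hFint : Integrable F := by
    rw [hF, integrable_indicator_iff hK.isClosed.measurableSet]
    have : ContinuousOn (fun x => c x * ((1 - H x) * ν x)) Ω :=
      hcc.mul ((continuousOn_const.sub hHcont.continuousOn).mul hνC1.continuousOn)
    exact (this.mono hKΩ).integrableOn_compact hK
  have hpos' : 0 < ∫ x, F x := by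
    rw [integral_pos_iff_support_of_nonneg hF0 hFint]
    refine lt_of_lt_of_le (isOpen_interior.measure_pos volume ⟨x₀, hx₀⟩) (measure_mono ?_)
    intro x hx
    have hxK : x ∈ K := interior_subset hx
    rw [Function.mem_support, hF, indicator_of_mem hxK]
    have := hHint x hx
    exact (mul_pos (hcK x hxK) (mul_pos (by linarith) (hνpos x))).ne'
  linarith

end PLap
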