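import Pool.Agent.Lib.MP_a627f3_an.Trunc

open MeasureTheory Set Filter Topology Metric
open scoped RealInnerProductSpace ENNReal NNReal

namespace PLap

variable {E : Type*} [NormedAddCommGroup E] [InnerProductSpace ℝ E] [FiniteDimensional ℝ E]
  [CompleteSpace E] [MeasurableSpace E] [BorelSpace E]

/-- Translation inequality. -/
theorem translation_ineq {p : ℝ} (hp : 1 < p) {f : E → ℝ} (hf : ContDiff ℝ 1 f)
    (hc : HasCompactSupport f) (h : E) :
    ∫ x, |f (x + h) - f x| ^ p ≤ ‖h‖ ^ p * ∫ x, ‖fderiv ℝ f x‖ ^ p := by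
  have hp0 : 0 < p := by linarith
  set G : E → ℝ := fun x => ‖fderiv ℝ f x‖ ^ p with hG
  have hf' : Continuous (fderiv ℝ f) := hf.continuous_fderiv one_ne_zero
  have hGc : Continuous G := hf'.norm.rpow_const (fun x => Or.inr hp0.le)
  have hGs : HasCompactSupport G := by
    refine (hc.fderiv ℝ).mono ?_
    intro x hx
    rw [Function.mem_support] at hx ⊢
    intro h0
    apply hx
    simp only [hG, h0, norm_zero]
    exact Real.zero_rpow hp0.ne'
  have hGi : Integrable G := hGc.integrable_of_hasCompactSupport hGs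
  have hGn : ∀ x, 0 ≤ G x := fun x => Real.rpow_nonneg (norm_nonneg _) _
  set ν : Measure ℝ := volume.restrict (Icc (0:ℝ) 1) with hν
  have : IsProbabilityMeasure ν := by
    constructor
    simp [hν]
  -- the pointwise bound
  have hpt : ∀ x, |f (x + h) - f x| ^ p ≤ ‖h‖ ^ p * ∫ s, G (x + s • h) ∂ν := by
    intro x
    have hcont : Continuous fun s : ℝ => fderiv ℝ f (x + s • h) h :=
      (hf'.comp (by fun_prop)).clm_apply continuous_const
    have hcontn : Continuous fun s : ℝ => ‖fderiv ℝ f (x + s • h)‖ :=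
      (hf'.comp (by fun_prop)).norm
    have hftc : f (x + h) - f x = ∫ s in (0:ℝ)..1, fderiv ℝ f (x + s • h) h := by
      have hd : ∀ s ∈ uIcc (0:ℝ) 1, HasDerivAt (fun s : ℝ => f (x + s • h))
          (fderiv ℝ f (x + s • h) h) s := by
        intro s _
        have h1 : HasDerivAt (fun s : ℝ => x + s • h) h s := by
          simpa using ((hasDerivAt_id s).smul_const h).const_add x
        exact (hf.differentiable one_ne_zero _).hasFDerivAt.comp_hasDerivAt s h1
      rw [intervalIntegral.integral_eq_sub_of_hasDerivAt hd (hcont.intervalIntegrable _ _)]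
      simp
    have hbd : |f (x + h) - f x| ≤ ‖h‖ * ∫ s, ‖fderiv ℝ f (x + s • h)‖ ∂ν := by
      rw [hftc, ← Real.norm_eq_abs]
      calc ‖∫ s in (0:ℝ)..1, fderiv ℝ f (x + s • h) h‖
          ≤ ∫ s in (0:ℝ)..1, ‖fderiv ℝ f (x + s • h) h‖ :=
            intervalIntegral.norm_integral_le_integral_norm zero_le_one
        _ ≤ ∫ s in (0:ℝ)..1, ‖h‖ * ‖fderiv ℝ f (x + s • h)‖ := by
            apply intervalIntegral.integral_mono_on zero_le_one
              (hcont.norm.intervalIntegrable _ _)
              ((continuous_const.mul hcontn).intervalIntegrable _ _)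
            intro s _
            rw [mul_comm]
            exact (fderiv ℝ f (x + s • h)).le_opNorm h
        _ = ‖h‖ * ∫ s, ‖fderiv ℝ f (x + s • h)‖ ∂ν := by
            rw [intervalIntegral.integral_const_mul, intervalIntegral.integral_of_le zero_le_one,
              hν, integral_Icc_eq_integral_Ioc]
    have hJ : (∫ s, ‖fderiv ℝ f (x + s • h)‖ ∂ν) ^ p ≤ ∫ s, G (x + s • h) ∂ν := by
      have hcv : ConvexOn ℝ (Ici (0:ℝ)) (fun t : ℝ => t ^ p) := convexOn_rpow hp.le
      have := hcv.map_integral_le (μ := ν) (f := fun s => ‖fderiv ℝ f (x + s • h)‖)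
        ((Real.continuous_rpow_const hp0.le).continuousOn) isClosed_Ici
        (Eventually.of_forall (fun s => norm_nonneg _))
        ?_ ?_
      · exact this
      · exact (hcontn.continuousOn.integrableOn_compact isCompact_Icc)
      · exact ((hGc.comp (f := fun s : ℝ => x + s • h)
          (by fun_prop)).continuousOn.integrableOn_compact isCompact_Icc)
    have hn : 0 ≤ ∫ s, ‖fderiv ℝ f (x + s • h)‖ ∂ν := integral_nonneg (fun _ => norm_nonneg _)
    calc |f (x + h) - f x| ^ p ≤ (‖h‖ * ∫ s, ‖fderiv ℝ f (x + s • h)‖ ∂ν) ^ p :=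
          Real.rpow_le_rpow (abs_nonneg _) hbd hp0.le
      _ = ‖h‖ ^ p * (∫ s, ‖fderiv ℝ f (x + s • h)‖ ∂ν) ^ p := Real.mul_rpow (norm_nonneg _) hn
      _ ≤ _ := mul_le_mul_of_nonneg_left hJ (Real.rpow_nonneg (norm_nonneg _) _)
  -- Fubini
  have hint : Integrable (Function.uncurry fun (x : E) (s : ℝ) => G (x + s • h))
      ((volume : Measure E).prod ν) := by
    have hc2 : Continuous (Function.uncurry fun (x : E) (s : ℝ) => G (x + s • h)) :=
      hGc.comp (by fun_prop)
    rw [integrable_prod_iff' hc2.aestronglyMeasurable]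
    constructor
    · exact Eventually.of_forall (fun s => hGi.comp_add_right (s • h))
    · have : (fun s : ℝ => ∫ x : E, ‖Function.uncurry (fun (x : E) (s : ℝ) => G (x + s • h)) (x, s)‖)
          = fun _ => ∫ x, G x := by
        funext s
        simp only [Function.uncurry]
        rw [← integral_add_right_eq_self (μ := (volume : Measure E)) G (s • h)]
        congr 1
        funext x
        rw [Real.norm_of_nonneg (hGn _)]
      rw [this]
      exact integrable_const _
  have hswap : ∫ x : E, ∫ s, G (x + s • h) ∂ν = ∫ x, G x := by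
    rw [integral_integral_swap hint]
    have : (fun s : ℝ => ∫ x : E, G (x + s • h)) = fun _ => ∫ x, G x := by
      funext s
      rw [integral_add_right_eq_self (μ := (volume : Measure E)) G (s • h)]
    rw [this]
    simp
  calc ∫ x, |f (x + h) - f x| ^ p ≤ ∫ x, ‖h‖ ^ p * ∫ s, G (x + s • h) ∂ν := by
        apply integral_mono_of_nonneg
        · exact Eventually.of_forall (fun x => Real.rpow_nonneg (abs_nonneg _) _)
        · exact (hint.integral_prod_left).const_mul _
        · exact Eventually.of_forall hpt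
    _ = ‖h‖ ^ p * ∫ x, G x := by rw [integral_const_mul, hswap]

private lemma two_rpow_ineq {p : ℝ} (hp : 1 < p) {a b : ℝ} (ha : 0 ≤ a) (hb : 0 ≤ b) :
    2 ^ (1 - p) * a ^ p ≤ |b - a| ^ p + b ^ p := by
  have h1 : a ≤ |b - a| + b := by
    have := neg_abs_le (b - a)
    linarith
  have h2 : a ^ p ≤ (|b - a| + b) ^ p := Real.rpow_le_rpow ha h1 (by linarith)
  have h3 := NNReal.rpow_add_le_mul_rpow_add_rpow ⟨|b - a|, abs_nonneg _⟩ ⟨b, hb⟩ hp.le
  have h4 : (|b - a| + b) ^ p ≤ 2 ^ (p - 1) * (|b - a| ^ p + b ^ p) := by exact_mod_cast h3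
  have h5 : (0:ℝ) < 2 ^ (1 - p) := by positivity
  calc 2 ^ (1 - p) * a ^ p ≤ 2 ^ (1 - p) * (2 ^ (p - 1) * (|b - a| ^ p + b ^ p)) :=
        mul_le_mul_of_nonneg_left (h2.trans h4) h5.le
    _ = _ := by
        rw [← mul_assoc, ← Real.rpow_add two_pos]
        simp

private lemma rpow_sub_le' {p : ℝ} (hp : 1 < p) {a b : ℝ} (hb : 0 ≤ b) (ha1 : a ≤ 1)
    (hab : b ≤ a) : a ^ p - b ^ p ≤ p * (a - b) := by
  have hp0 : 0 < p := by linarith
  rcases (hb.trans hab).eq_or_lt with h0 | h0
  · have : b = 0 := le_antisymm (h0 ▸ hab) hb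
    rw [← h0, this]
    simp
  · have hB := one_add_mul_self_le_rpow_one_add (s := b / a - 1)
      (by have : 0 ≤ b / a := div_nonneg hb h0.le
          linarith) hp.le
    have h1 : (1 + (b / a - 1)) ^ p = b ^ p / a ^ p := by
      rw [show 1 + (b / a - 1) = b / a by ring, Real.div_rpow hb h0.le]
    rw [h1] at hB
    have hap : 0 < a ^ p := Real.rpow_pos_of_pos h0 _
    rw [le_div_iff₀ hap] at hB
    have h2 : a ^ p ≤ a := by
      have := Real.rpow_le_rpow_of_exponent_ge h0 ha1 hp.le
      simpa using this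
    have h3 : 0 ≤ 1 - b / a := by
      rw [sub_nonneg, div_le_one h0]
      exact hab
    have h4 : p * (1 - b / a) * a ^ p ≤ p * (1 - b / a) * a :=
      mul_le_mul_of_nonneg_left h2 (mul_nonneg hp0.le h3)
    have h5 : p * (1 - b / a) * a = p * (a - b) := by
      field_simp
    nlinarith

private lemma exists_pair {p : ℝ} (hp : 1 < p) {A' C₂ r₁ : ℝ} (hr₁ : 0 < r₁)
    {P : Set E} {v : E → ℝ} (hv : Reg P v) (hnn : ∀ x ∈ P, 0 ≤ v x)
    (hfin : IntegrableOn (fun x => ‖gradient v x‖ ^ p * Real.exp (-p * v x)) P)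
    (hei : IntegrableOn (fun x => Real.exp (-p * v x)) P)
    (hm : 0 < ∫ x in P, Real.exp (-p * v x))
    (hA : (∫ x in P, ‖gradient v x‖ ^ p * Real.exp (-p * v x)) ≤
      A' * ∫ x in P, Real.exp (-p * v x))
    (hSm : MeasurableSet (P ∩ {x | v x ≤ C₂}))
    (hmk : ∫ x in P \ (P ∩ {x | v x ≤ C₂}), Real.exp (-p * v x) ≤
      2 ^ (-p - 1) * ∫ x in P, Real.exp (-p * v x))
    (hr : r₁ ^ p * A' ≤ 2 ^ (-p - 1)) {e : E} (he : ‖e‖ = 1) :
    ∃ y ∈ P ∩ {x | v x ≤ C₂}, y + r₁ • e ∈ P ∩ {x | v x ≤ C₂} := by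
  by_contra hcon
  push Not at hcon
  have hp0 : 0 < p := by linarith
  set S : Set E := P ∩ {x | v x ≤ C₂} with hS
  set m : ℝ := ∫ x in P, Real.exp (-p * v x) with hmdef
  set ε : ℝ := (2:ℝ) ^ (-p - 1) with hε
  have hε0 : 0 < ε := by positivity
  have hε4 : 4 * ε < 1 := by
    have h1 : (2:ℝ) ^ (-p - 1) < 2 ^ (-2 : ℝ) :=
      Real.rpow_lt_rpow_of_exponent_lt one_lt_two (by linarith)
    have h2 : (2:ℝ) ^ (-2 : ℝ) = 1 / 4 := by
      rw [Real.rpow_neg two_pos.le]
      norm_num
    rw [h2] at h1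
    rw [hε]
    linarith
  have h41 : (2:ℝ) ^ (1 - p) = 4 * ε := by
    rw [hε, show (1:ℝ) - p = 2 + (-p - 1) by ring, Real.rpow_add two_pos]
    norm_num
  have hPm : MeasurableSet P := hv.isOpen.measurableSet
  have hPfin : volume P ≠ ⊤ := hv.bdd.measure_lt_top.ne
  have hSP : S ⊆ P := inter_subset_left
  set V : ℝ := (volume P).toReal with hV
  have hV0 : 0 ≤ V := ENNReal.toReal_nonneg
  set τ : ℝ := m / (6 * p * V + 1) with hτ
  have hden : 0 < 6 * p * V + 1 := by positivity
  have hτ0 : 0 < τ := div_pos hm hden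
  have hτm : 6 * p * V * τ < m := by
    have : (6 * p * V + 1) * τ = m := by
      rw [hτ]
      field_simp
    nlinarith
  obtain ⟨f, hfc, hfs, hfP, hf0, hfb⟩ := exists_trunc hv hτ0
  set h : E := r₁ • e with hh
  have hfz : ∀ x, x ∉ P → f x = 0 := fun x hx =>
    image_eq_zero_of_notMem_tsupport (fun hx' => hx (hfP hx'))
  set F : E → ℝ := fun x => f x ^ p with hF
  have hFc : Continuous F := hfc.continuous.rpow_const (fun x => Or.inr hp0.le)
  have hFs : HasCompactSupport F := by
    refine hfs.mono ?_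
    intro x hx
    rw [Function.mem_support] at hx ⊢
    intro h0
    apply hx
    simp only [hF, h0]
    exact Real.zero_rpow hp0.ne'
  have hFi : Integrable F := hFc.integrable_of_hasCompactSupport hFs
  have hFn : ∀ x, 0 ≤ F x := fun x => Real.rpow_nonneg (hf0 x) _
  have hFhi : Integrable (fun x => F (x + h)) := hFi.comp_add_right h
  have hFz : ∀ x, x ∉ P → F x = 0 := fun x hx => by
    simp only [hF, hfz x hx]
    exact Real.zero_rpow hp0.ne'
  have hexp : ∀ x, Real.exp (-v x) ^ p = Real.exp (-p * v x) := fun x => by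
    rw [← Real.exp_mul]
    congr 1
    ring
  -- (1) lower bound of `∫_S f^p`
  have h1 : (∫ x in S, Real.exp (-p * v x)) - (3 * p * τ / 2) * V ≤ ∫ x in S, F x := by
    have hle : (∫ x in S, Real.exp (-p * v x)) ≤ ∫ x in S, (F x + 3 * p * τ / 2) := by
      apply setIntegral_mono_on (hei.mono_set hSP) _ hSm
      · intro x hx
        obtain ⟨hb1, hb2, -⟩ := hfb x (hSP hx)
        have hex1 : Real.exp (-v x) ≤ 1 := by
          rw [Real.exp_le_one_iff]
          linarith [hnn x (hSP hx)]
        have := rpow_sub_le' hp (hf0 x) hex1 hb1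
        rw [hexp] at this
        have h2 : p * (Real.exp (-v x) - f x) ≤ p * (3 * τ / 2) :=
          mul_le_mul_of_nonneg_left (by linarith) hp0.le
        simp only [hF]
        nlinarith
      · apply Integrable.add hFi.integrableOn
        exact integrableOn_const (measure_ne_top_of_subset hSP hPfin)
    have heq : ∫ x in S, (F x + 3 * p * τ / 2) = (∫ x in S, F x) +
        (volume S).toReal * (3 * p * τ / 2) := by
      rw [integral_add hFi.integrableOn
        (integrableOn_const (measure_ne_top_of_subset hSP hPfin)), setIntegral_const]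
      simp [Measure.real]
    have hVS : (volume S).toReal ≤ V := ENNReal.toReal_mono hPfin (measure_mono hSP)
    have : (volume S).toReal * (3 * p * τ / 2) ≤ V * (3 * p * τ / 2) :=
      mul_le_mul_of_nonneg_right hVS (by positivity)
    rw [heq] at hle
    linarith
  -- (2) the translated integral
  have h2 : ∫ x in S, F (x + h) ≤ ∫ x in P \ S, Real.exp (-p * v x) := by
    have hdm : MeasurableSet (P \ S) := hPm.diff hSm
    calc ∫ x in S, F (x + h) = ∫ x, S.indicator (fun x => F (x + h)) x :=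
          (integral_indicator hSm).symm
      _ = ∫ x, S.indicator (fun x => F (x + h)) (x + -h) :=
          (integral_add_right_eq_self (μ := (volume : Measure E)) _ (-h)).symm
      _ ≤ ∫ x, (P \ S).indicator F x := by
          apply integral_mono_of_nonneg
          · exact Eventually.of_forall (fun x => indicator_nonneg (fun y _ => hFn _) _)
          · exact hFi.indicator hdm
          · refine Eventually.of_forall (fun x => ?_)
            show S.indicator (fun x => F (x + h)) (x + -h) ≤ (P \ S).indicator F x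
            by_cases hx : x + -h ∈ S
            · rw [indicator_of_mem hx]
              have hxx : x + -h + h = x := by abel
              by_cases hxP : x ∈ P
              · have hxS : x ∉ S := by
                  have := hcon (x + -h) hx
                  rwa [hxx] at this
                rw [indicator_of_mem (show x ∈ P \ S from ⟨hxP, hxS⟩)]
                show F (x + -h + h) ≤ F x
                rw [hxx]
              · show F (x + -h + h) ≤ _
                rw [hxx, hFz x hxP]
                exact indicator_nonneg (fun y _ => hFn _) _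
            · rw [indicator_of_notMem hx]
              exact indicator_nonneg (fun y _ => hFn _) _
      _ = ∫ x in P \ S, F x := integral_indicator hdm
      _ ≤ ∫ x in P \ S, Real.exp (-p * v x) := by
          apply setIntegral_mono_on hFi.integrableOn (hei.mono_set sdiff_subset) hdm
          intro x hx
          rw [← hexp]
          exact Real.rpow_le_rpow (hf0 x) (hfb x hx.1).1 hp0.le
  -- (3), (4) lower bound of the translation energy
  have hDc : Continuous (fun x => |f (x + h) - f x| ^ p) :=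
    (((hfc.continuous.comp (by fun_prop)).sub hfc.continuous).abs).rpow_const
      (fun x => Or.inr hp0.le)
  have hDi : Integrable (fun x => |f (x + h) - f x| ^ p) := by
    have hi : Integrable (fun x => 2 ^ (p - 1) * (F (x + h) + F x)) :=
      (hFhi.add hFi).const_mul _
    refine hi.mono' hDc.aestronglyMeasurable (Eventually.of_forall (fun x => ?_))
    rw [Real.norm_of_nonneg (Real.rpow_nonneg (abs_nonneg _) _)]
    have ha : |f (x + h) - f x| ≤ f (x + h) + f x := by
      rw [abs_le]
      constructor <;> linarith [hf0 x, hf0 (x + h)]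
    have h3 := NNReal.rpow_add_le_mul_rpow_add_rpow ⟨f (x + h), hf0 _⟩ ⟨f x, hf0 _⟩ hp.le
    have h4 : (f (x + h) + f x) ^ p ≤ 2 ^ (p - 1) * (f (x + h) ^ p + f x ^ p) := by
      exact_mod_cast h3
    exact (Real.rpow_le_rpow (abs_nonneg _) ha hp0.le).trans h4
  have h3 : 4 * ε * (∫ x in S, F x) - ∫ x in S, F (x + h) ≤ ∫ x, |f (x + h) - f x| ^ p := by
    calc 4 * ε * (∫ x in S, F x) - ∫ x in S, F (x + h)
        = ∫ x in S, (4 * ε * F x - F (x + h)) := by
          rw [integral_sub (hFi.integrableOn.const_mul _) hFhi.integrableOn,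
            integral_const_mul]
      _ ≤ ∫ x in S, |f (x + h) - f x| ^ p := by
          apply setIntegral_mono_on ((hFi.integrableOn.const_mul _).sub hFhi.integrableOn)
            hDi.integrableOn hSm
          intro x _
          have := two_rpow_ineq hp (hf0 x) (hf0 (x + h))
          rw [h41] at this
          show 4 * ε * f x ^ p - f (x + h) ^ p ≤ |f (x + h) - f x| ^ p
          linarith
      _ ≤ ∫ x, |f (x + h) - f x| ^ p :=
          setIntegral_le_integral hDi
            (Eventually.of_forall (fun x => Real.rpow_nonneg (abs_nonneg _) _))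
  -- (5) upper bound
  have h5 : ∫ x, ‖fderiv ℝ f x‖ ^ p ≤ A' * m := by
    have hz : ∀ x, x ∉ P → ‖fderiv ℝ f x‖ ^ p = 0 := by
      intro x hx
      have : fderiv ℝ f x = 0 := by
        apply image_eq_zero_of_notMem_tsupport (f := fderiv ℝ f)
        exact fun hx' => hx (hfP (tsupport_fderiv_subset ℝ hx'))
      rw [this, norm_zero]
      exact Real.zero_rpow hp0.ne'
    rw [← setIntegral_eq_integral_of_forall_compl_eq_zero hz]
    refine le_trans ?_ hA
    have hGc : Continuous (fun x => ‖fderiv ℝ f x‖ ^ p) :=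
      (hfc.continuous_fderiv one_ne_zero).norm.rpow_const (fun x => Or.inr hp0.le)
    have hpt : ∀ x ∈ P, ‖fderiv ℝ f x‖ ^ p ≤ ‖gradient v x‖ ^ p * Real.exp (-p * v x) := by
      intro x hx
      rw [← hexp, ← Real.mul_rpow (norm_nonneg _) (Real.exp_pos _).le]
      exact Real.rpow_le_rpow (norm_nonneg _) (hfb x hx).2.2 hp0.le
    apply setIntegral_mono_on _ hfin hPm hpt
    refine hfin.mono' hGc.aestronglyMeasurable ?_
    refine (ae_restrict_iff' hPm).2 (Eventually.of_forall (fun x hx => ?_))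
    rw [Real.norm_of_nonneg (Real.rpow_nonneg (norm_nonneg _) _)]
    exact hpt x hx
  have hnh : ‖h‖ = r₁ := by
    rw [hh, norm_smul, he, mul_one, Real.norm_of_nonneg hr₁.le]
  have h6 := translation_ineq hp hfc hfs h
  rw [hnh] at h6
  have hrp : 0 ≤ r₁ ^ p := Real.rpow_nonneg hr₁.le _
  have h7 : r₁ ^ p * ∫ x, ‖fderiv ℝ f x‖ ^ p ≤ ε * m := by
    calc r₁ ^ p * ∫ x, ‖fderiv ℝ f x‖ ^ p ≤ r₁ ^ p * (A' * m) :=
          mul_le_mul_of_nonneg_left h5 hrp
      _ = (r₁ ^ p * A') * m := by ring
      _ ≤ ε * m := mul_le_mul_of_nonneg_right hr hm.le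
  have h8 : (∫ x in S, Real.exp (-p * v x)) + ∫ x in P \ S, Real.exp (-p * v x) = m := by
    have := integral_inter_add_sdiff (μ := (volume : Measure E)) hSm hei
    rwa [inter_eq_right.2 hSP] at this
  -- conclusion
  set IS : ℝ := ∫ x in S, Real.exp (-p * v x)
  set ID : ℝ := ∫ x in P \ S, Real.exp (-p * v x)
  have h9 : 4 * ε * (IS - (3 * p * τ / 2) * V) - ID ≤ ε * m := by
    have : 4 * ε * (IS - (3 * p * τ / 2) * V) ≤ 4 * ε * ∫ x in S, F x :=
      mul_le_mul_of_nonneg_left h1 (by positivity)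
    linarith
  have h10 : (1 - ε) * m ≤ IS := by linarith
  have h11 : 4 * ε * ((1 - ε) * m) ≤ 4 * ε * IS :=
    mul_le_mul_of_nonneg_left h10 (by positivity)
  have h12 : ε * (6 * p * V * τ) < ε * m := mul_lt_mul_of_pos_left hτm hε0
  have h13 : 4 * ε * (ε * m) < ε * m := by
    have : 0 < ε * m := mul_pos hε0 hm
    nlinarith
  nlinarith

/-- Nondegeneracy: the sublevel set `{v ≤ C₂}` contains a ball of controlled radius. -/
theorem exists_ball [Nontrivial E] {p : ℝ} (hp : 1 < p) (A C : ℝ) :
    ∃ r > 0, ∃ C₂ : ℝ, ∀ (P : Set E) (v : E → ℝ), Reg P v → (∀ x ∈ P, 0 ≤ v x) →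
      IntegrableOn (fun x => ‖gradient v x‖ ^ p * Real.exp (-p * v x)) P →
      (∫ x in P, ‖gradient v x‖ ^ p * Real.exp (-p * v x)) ≤ A * ∫ x in P, Real.exp (-p * v x) →
      (∫ x in P, v x * Real.exp (-p * v x)) ≤ C * ∫ x in P, Real.exp (-p * v x) →
      ∃ x₀, closedBall x₀ r ⊆ P ∧ ∀ x ∈ closedBall x₀ r, v x ≤ C₂ := by
  have hp0 : 0 < p := by linarith
  set ε : ℝ := (2:ℝ) ^ (-p - 1) with hε
  have hε0 : 0 < ε := by positivity
  set C₂ : ℝ := max C 0 / ε + 1 with hC₂
  have hC₂0 : 0 < C₂ := by positivity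
  have hCC : C ≤ ε * C₂ := by
    have : ε * C₂ = max C 0 + ε := by
      rw [hC₂]
      field_simp
    rw [this]
    linarith [le_max_left C 0]
  set r₁ : ℝ := (ε / (|A| + 1)) ^ (1 / p) with hr₁
  have hA1 : 0 < |A| + 1 := by positivity
  have hr₁0 : 0 < r₁ := Real.rpow_pos_of_pos (div_pos hε0 hA1) _
  have hr₁p : r₁ ^ p = ε / (|A| + 1) := by
    rw [hr₁, ← Real.rpow_mul (div_pos hε0 hA1).le, one_div_mul_cancel hp0.ne', Real.rpow_one]
  have hrA : r₁ ^ p * |A| ≤ ε := by
    rw [hr₁p, div_mul_eq_mul_div, div_le_iff₀ hA1]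
    nlinarith
  set d : ℕ := Module.finrank ℝ E with hd
  have hd0 : 0 < d := Module.finrank_pos
  have hd0' : (0:ℝ) < d := by exact_mod_cast hd0
  refine ⟨r₁ / (2 * d), by positivity, C₂, ?_⟩
  intro P v hv hnn hfin hA hC
  have hPm : MeasurableSet P := hv.isOpen.measurableSet
  have hPfin : volume P ≠ ⊤ := hv.bdd.measure_lt_top.ne
  have hvc : ContinuousOn v P := hv.c1.continuousOn
  set S : Set E := P ∩ {x | v x ≤ C₂} with hS
  have hSP : S ⊆ P := inter_subset_left
  have hDeq : P \ S = P ∩ v ⁻¹' (Ioi C₂) := by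
    ext x
    simp only [hS, Set.mem_sdiff, mem_inter_iff, mem_ofPred_eq, mem_preimage, mem_Ioi, not_and, not_le]
    constructor
    · rintro ⟨h1, h2⟩
      exact ⟨h1, h2 h1⟩
    · rintro ⟨h1, h2⟩
      exact ⟨h1, fun _ => h2⟩
  have hDo : IsOpen (P \ S) := by
    rw [hDeq]
    exact hvc.isOpen_inter_preimage hv.isOpen isOpen_Ioi
  have hSm : MeasurableSet S := by
    have : S = P \ (P \ S) := by
      rw [sdiff_sdiff_cancel_left hSP]
    rw [this]
    exact hPm.diff hDo.measurableSet
  have hec : ContinuousOn (fun x => Real.exp (-p * v x)) P :=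
    Real.continuous_exp.comp_continuousOn (continuousOn_const.mul hvc)
  have hei : IntegrableOn (fun x => Real.exp (-p * v x)) P := by
    apply (integrableOn_const (C := (1:ℝ)) hPfin).mono' (hec.aestronglyMeasurable hPm)
    refine (ae_restrict_iff' hPm).2 (Eventually.of_forall (fun x hx => ?_))
    rw [Real.norm_of_nonneg (Real.exp_pos _).le, Real.exp_le_one_iff]
    nlinarith [hnn x hx]
  have hvei : IntegrableOn (fun x => v x * Real.exp (-p * v x)) P := by
    have hcm : ContinuousOn (fun x => v x * Real.exp (-p * v x)) P := hvc.mul hec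
    apply (integrableOn_const (C := 1 / p) hPfin).mono' (hcm.aestronglyMeasurable hPm)
    refine (ae_restrict_iff' hPm).2 (Eventually.of_forall (fun x hx => ?_))
    rw [Real.norm_of_nonneg (mul_nonneg (hnn x hx) (Real.exp_pos _).le), le_div_iff₀ hp0]
    have h1 : p * v x + 1 ≤ Real.exp (p * v x) := Real.add_one_le_exp _
    have h2 : Real.exp (-p * v x) * Real.exp (p * v x) = 1 := by
      rw [← Real.exp_add]
      simp
    have h3 := Real.exp_pos (-p * v x)
    nlinarith
  have hm : 0 < ∫ x in P, Real.exp (-p * v x) := by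
    rw [setIntegral_pos_iff_support_of_nonneg_ae
      (Eventually.of_forall (fun x => (Real.exp_pos _).le)) hei]
    have : Function.support (fun x => Real.exp (-p * v x)) = univ := by
      ext x
      simp [(Real.exp_pos _).ne']
    rw [this, univ_inter]
    exact hv.isOpen.measure_pos _ hv.nonempty
  set m : ℝ := ∫ x in P, Real.exp (-p * v x) with hmdef
  have hmk : ∫ x in P \ S, Real.exp (-p * v x) ≤ ε * m := by
    have h1 : C₂ * ∫ x in P \ S, Real.exp (-p * v x) ≤ ∫ x in P \ S, v x * Real.exp (-p * v x) := by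
      rw [← integral_const_mul]
      apply setIntegral_mono_on ((hei.mono_set sdiff_subset).const_mul _)
        (hvei.mono_set sdiff_subset) hDo.measurableSet
      intro x hx
      rw [hDeq] at hx
      exact mul_le_mul_of_nonneg_right hx.2.le (Real.exp_pos _).le
    have h2 : ∫ x in P \ S, v x * Real.exp (-p * v x) ≤ ∫ x in P, v x * Real.exp (-p * v x) := by
      apply setIntegral_mono_set hvei
      · refine (ae_restrict_iff' hPm).2 (Eventually.of_forall (fun x hx => ?_))
        exact mul_nonneg (hnn x hx) (Real.exp_pos _).le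
      · exact (sdiff_subset).eventuallyLE
    have h3 : C * m ≤ ε * C₂ * m := mul_le_mul_of_nonneg_right hCC hm.le
    have h4 : C₂ * ∫ x in P \ S, Real.exp (-p * v x) ≤ C₂ * (ε * m) := by
      calc _ ≤ _ := h1
        _ ≤ _ := h2
        _ ≤ _ := hC
        _ ≤ _ := h3
        _ = _ := by ring
    exact le_of_mul_le_mul_left h4 hC₂0
  have hA' : (∫ x in P, ‖gradient v x‖ ^ p * Real.exp (-p * v x)) ≤ |A| * m :=
    hA.trans (mul_le_mul_of_nonneg_right (le_abs_self A) hm.le)
  set b := stdOrthonormalBasis ℝ E with hb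
  have hpair : ∀ i, ∃ y ∈ S, y + r₁ • b i ∈ S := fun i =>
    exists_pair hp hr₁0 hv hnn hfin hei hm hA' hSm hmk hrA (b.orthonormal.1 i)
  choose y hy hy' using hpair
  have hScv : Convex ℝ S := hv.cvx.convex_le C₂
  set x₀ : E := ∑ i, (1 / (d:ℝ)) • (y i + (r₁ / 2) • b i) with hx₀
  have hmain : ∀ x ∈ closedBall x₀ (r₁ / (2 * d)), x ∈ S := by
    intro x hx
    rw [mem_closedBall, dist_eq_norm] at hx
    set z : E := x - x₀ with hz
    have hxz : x = ∑ i, (1 / (d:ℝ)) • (y i + (r₁ / 2 + d * ⟪b i, z⟫) • b i) := by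
      have h1 : ∑ i, ⟪b i, z⟫ • b i = z := b.sum_repr' z
      have h2 : ∑ i, (1 / (d:ℝ)) • (y i + (r₁ / 2 + d * ⟪b i, z⟫) • b i) =
          x₀ + ∑ i, ⟪b i, z⟫ • b i := by
        rw [hx₀, ← Finset.sum_add_distrib]
        refine Finset.sum_congr rfl (fun i _ => ?_)
        rw [add_smul, ← add_assoc, smul_add (1 / (d:ℝ)) (y i + (r₁ / 2) • b i), smul_smul]
        congr 2
        field_simp
      rw [h2, h1, hz]
      abel
    rw [hxz]
    apply hScv.sum_mem
    · intro i _
      positivity
    · rw [Finset.sum_const, Finset.card_univ, Fintype.card_fin, nsmul_eq_mul, ← hd]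
      field_simp
    · intro i _
      have hzi : |⟪b i, z⟫| ≤ r₁ / (2 * d) := by
        calc |⟪b i, z⟫| ≤ ‖b i‖ * ‖z‖ := abs_real_inner_le_norm _ _
          _ = ‖z‖ := by rw [b.orthonormal.1 i, one_mul]
          _ ≤ _ := hx
      have hzi' : |(d:ℝ) * ⟪b i, z⟫| ≤ r₁ / 2 := by
        rw [abs_mul, abs_of_pos hd0']
        calc (d:ℝ) * |⟪b i, z⟫| ≤ d * (r₁ / (2 * d)) := mul_le_mul_of_nonneg_left hzi hd0'.le
          _ = r₁ / 2 := by field_simp
      rw [abs_le] at hzi'
      set t : ℝ := r₁ / 2 + d * ⟪b i, z⟫ with ht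
      have ht0 : 0 ≤ t := by linarith
      have ht1 : t ≤ r₁ := by linarith
      have := hScv.add_smul_mem (hy i) (hy' i) (t := t / r₁)
        ⟨div_nonneg ht0 hr₁0.le, (div_le_one hr₁0).2 ht1⟩
      rwa [smul_smul, div_mul_cancel₀ _ hr₁0.ne'] at this
  exact ⟨x₀, fun x hx => hSP (hmain x hx), fun x hx => (hmain x hx).2⟩

end PLap
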