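/-
MP_a627f3_an : definitions for the p-Laplacian / q-Laplacian comparison (Parini's conjecture).
-/
import Mathlib

open MeasureTheory Set Filter Topology Metric
open scoped RealInnerProductSpace ENNReal NNReal

namespace PLap

section general

variable {E : Type*} [NormedAddCommGroup E] [NormedSpace ℝ E]

/-- Test functions for `lam`: `C¹` functions with compact support in `Ω`, not identically zero. -/
def IsTest (Ω : Set E) (u : E → ℝ) : Prop :=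
  ContDiff ℝ 1 u ∧ HasCompactSupport u ∧ tsupport u ⊆ Ω ∧ ∃ x, u x ≠ 0

/-- Principal Dirichlet eigenvalue of the `p`-Laplacian on `Ω`. -/
noncomputable def lam [MeasureSpace E] (p : ℝ) (Ω : Set E) : ℝ :=
  sInf {R | ∃ u : E → ℝ, IsTest Ω u ∧
    R = (∫ x in Ω, ‖fderiv ℝ u x‖ ^ p) / ∫ x in Ω, |u x| ^ p}

/-- Lipschitz functions with compact support in `Ω`. -/
def LipC (Ω : Set E) (φ : E → ℝ) : Prop :=
  (∃ K : ℝ≥0, LipschitzWith K φ) ∧ HasCompactSupport φ ∧ tsupport φ ⊆ Ω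

end general

/-- `T_p = ∫_0^∞ dz / (1 + (p-1) z^{p'})` (`= π_p / 2`). -/
noncomputable def Tp (p : ℝ) : ℝ := ∫ z in Ioi (0 : ℝ), (1 + (p - 1) * z ^ (p / (p - 1)))⁻¹

/-- The constant `Λ(μ) = (T_q μ^{1/p} / T_p)^q`. -/
noncomputable def Lam (p q μ : ℝ) : ℝ := (Tp q * μ ^ (1 / p) / Tp p) ^ q

variable {E : Type*} [NormedAddCommGroup E] [InnerProductSpace ℝ E]

/-- `a_p(ξ) = |ξ|^{p-2} ξ`. -/
noncomputable def aP (p : ℝ) (ξ : E) : E := ‖ξ‖ ^ (p - 2) • ξ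

/-- Unit direction `ξ/|ξ|` (`0` at `0`). -/
noncomputable def dir (ξ : E) : E := ‖ξ‖⁻¹ • ξ

/-- The weak form of `div a_p(∇v)` tested against `φ`. -/
noncomputable def XF [CompleteSpace E] [MeasureSpace E] (p : ℝ) (v φ : E → ℝ) : ℝ :=
  - ∫ x, ⟪aP p (gradient v x), gradient φ x⟫

/-- `v` is a convex `C¹` function on the bounded open convex set `Ω`, tending to `+∞` at the
boundary. -/
structure Reg (Ω : Set E) (v : E → ℝ) : Prop where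
  isOpen : IsOpen Ω
  convex : Convex ℝ Ω
  bdd : Bornology.IsBounded Ω
  nonempty : Ω.Nonempty
  cvx : ConvexOn ℝ Ω v
  c1 : ContDiffOn ℝ 1 v Ω
  coer : ∀ M : ℝ, ∃ K : Set E, IsCompact K ∧ K ⊆ Ω ∧ ∀ x ∈ Ω \ K, M ≤ v x

/-- Weak supersolution inequality `div a_p(∇v) ≥ μ + (p-1)|∇v|^p` on `Ω`. -/
def IsSuper [CompleteSpace E] [MeasureSpace E] (p : ℝ) (Ω : Set E) (μ : ℝ) (v : E → ℝ) : Prop :=
  ∀ φ : E → ℝ, LipC Ω φ → (∀ x, 0 ≤ φ x) →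
    ∫ x, (μ + (p - 1) * ‖gradient v x‖ ^ p) * φ x ≤ XF p v φ

/-- Weak supersolution inequality `div a_p(∇v) ≥ lam + δ v + (p-1)|∇v|^p` on `Ω`. -/
def SuperD [CompleteSpace E] [MeasureSpace E] (p lam δ : ℝ) (Ω : Set E) (v : E → ℝ) : Prop :=
  ∀ φ : E → ℝ, LipC Ω φ → (∀ x, 0 ≤ φ x) →
    ∫ x, (lam + δ * v x + (p - 1) * ‖gradient v x‖ ^ p) * φ x ≤ XF p v φ

/-- The functional `J(v) = ∫_Ω (|∇v|^p - (lam + δ/p + δ v)) e^{-pv}`. -/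
noncomputable def Jf [CompleteSpace E] [MeasureSpace E] (p lam δ : ℝ) (Ω : Set E) (v : E → ℝ) :
    ℝ :=
  ∫ x in Ω, (‖gradient v x‖ ^ p - (lam + δ / p + δ * v x)) * Real.exp (-p * v x)

/-- Orthonormal basis adapted to `ξ` with the eigenvalues of `D a_p(ξ)`. -/
def Adapted [FiniteDimensional ℝ E] (p : ℝ) (ξ : E)
    (b : OrthonormalBasis (Fin (Module.finrank ℝ E)) ℝ E)
    (μ : Fin (Module.finrank ℝ E) → ℝ) : Prop :=
  ∃ i₀, b i₀ = ‖ξ‖⁻¹ • ξ ∧ μ i₀ = (p - 1) * ‖ξ‖ ^ (p - 2) ∧ ∀ i, i ≠ i₀ → μ i = ‖ξ‖ ^ (p - 2)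

/-- The linear map `Σ μ_i b_i ⊗ b_i`. -/
noncomputable def Nop [FiniteDimensional ℝ E]
    (b : OrthonormalBasis (Fin (Module.finrank ℝ E)) ℝ E)
    (μ : Fin (Module.finrank ℝ E) → ℝ) (ξ : E) : E := ∑ i, (μ i * ⟪b i, ξ⟫) • b i

/-- Weighted sum of second difference quotients. -/
noncomputable def Qr [FiniteDimensional ℝ E]
    (b : OrthonormalBasis (Fin (Module.finrank ℝ E)) ℝ E)
    (μ : Fin (Module.finrank ℝ E) → ℝ) (v : E → ℝ) (r : ℝ) (x : E) : ℝ :=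
  ∑ i, μ i * ((v (x + r • b i) + v (x - r • b i) - 2 * v x) / r ^ 2)

/-- Second derivative `D²ψ(x)(b,b)`. -/
noncomputable def Hs (ψ : E → ℝ) (x b : E) : ℝ := fderiv ℝ (fderiv ℝ ψ) x b b

/-- Admissible functions: convex on `Ω`, nonnegative, between the lower barriers `B i` and the
upper barrier `Ψ`, with finite energy. -/
structure Adm [CompleteSpace E] [MeasureSpace E] {ι : Type*} (p : ℝ) (Ω : Set E)
    (B : ι → E → ℝ) (Ψ : E → ℝ) (v : E → ℝ) : Prop where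
  cvx : ConvexOn ℝ Ω v
  nn : ∀ x ∈ Ω, 0 ≤ v x
  lo : ∀ i, ∀ x ∈ Ω, B i x ≤ v x
  up : ∀ x ∈ Ω, v x ≤ Ψ x
  fin : IntegrableOn (fun x => ‖gradient v x‖ ^ p * Real.exp (-p * v x)) Ω

/-- `Ψ` is a strict subsolution at the points where `v` touches it. -/
def TouchSub [FiniteDimensional ℝ E] [CompleteSpace E] (p lam δ : ℝ) (Ω : Set E) (v Ψ : E → ℝ) :
    Prop :=
  ∀ x ∈ Ω, v x = Ψ x → gradient Ψ x ≠ 0 ∧
    ∀ b μ, Adapted p (gradient Ψ x) b μ →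
      ∑ i, μ i * Hs Ψ x (b i) < lam + δ * Ψ x + (p - 1) * ‖gradient Ψ x‖ ^ p

/-- `B` is a strict supersolution at the points where `v` touches it. -/
def TouchSup [FiniteDimensional ℝ E] [CompleteSpace E] (p lam δ : ℝ) (Ω : Set E) (v B : E → ℝ) :
    Prop :=
  ∀ x ∈ Ω, v x = B x → gradient B x ≠ 0 ∧
    ∀ b μ, Adapted p (gradient B x) b μ →
      lam + δ * B x + (p - 1) * ‖gradient B x‖ ^ p < ∑ i, μ i * Hs B x (b i)

/-- The Euler-Lagrange inequality in the (continuous) direction `φ`, phrased through Lipschitz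
functions close to `φ`. -/
def ELHolds [CompleteSpace E] [MeasureSpace E] (p lam δ : ℝ) (Ω : Set E) (v φ : E → ℝ) : Prop :=
  ∀ K : Set E, IsCompact K → K ⊆ Ω → ∃ C : ℝ, ∀ f : E → ℝ, LipC Ω f → tsupport f ⊆ K →
    ∀ ε : ℝ, 0 ≤ ε → (∀ x ∈ Ω, |f x - φ x| ≤ ε) →
      XF p v (fun x => f x * Real.exp (-p * v x)) ≤
        (∫ x, (lam + δ * v x + (p - 1) * ‖gradient v x‖ ^ p) * (f x * Real.exp (-p * v x)))
          + C * ε

/-- Euler-Lagrange inequality for `φ = g(∇v) (Q_r - c₀)`, `g` supported near `ξ₀ ≠ 0`. -/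
def ELQ [FiniteDimensional ℝ E] [CompleteSpace E] [MeasureSpace E] (p lam δ : ℝ) (Ω : Set E)
    (v : E → ℝ) : Prop :=
  ∀ ξ₀ : E, ξ₀ ≠ 0 → ∀ b μ, Adapted p ξ₀ b μ → ∃ s₀ > 0, ∃ r₀ > 0, ∀ r ∈ Ioo (0:ℝ) r₀,
    ∀ g : E → ℝ, Continuous g → (∀ ξ, 0 ≤ g ξ) → tsupport g ⊆ closedBall ξ₀ s₀ →
      ELHolds p lam δ Ω v (fun x => g (gradient v x) *
        (Qr b μ v r x - (lam + δ * v x + (p - 1) * ‖ξ₀‖ ^ p)))

/-- Euler-Lagrange inequality for `φ = g(∇v) (H - κ₁ v - κ₂)`, `g` supported near `0`. -/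
def ELK [CompleteSpace E] [MeasureSpace E] (p lam δ : ℝ) (Ω : Set E) (v : E → ℝ) : Prop :=
  ∃ s₀ > 0, ∀ g : E → ℝ, Continuous g → (∀ ξ, 0 ≤ g ξ) → tsupport g ⊆ closedBall (0 : E) s₀ →
    ∀ (H : E → ℝ) (κ₁ κ₂ : ℝ), ConvexOn ℝ univ H → (∃ L : ℝ≥0, LipschitzWith L H) →
      ELHolds p lam δ Ω v (fun x => g (gradient v x) * (H x - κ₁ * v x - κ₂))

/-- `L²` bound for difference quotients of `∇v` on compact subsets of `{∇v ≠ 0}`. -/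
def W22loc [CompleteSpace E] [MeasureSpace E] (Ω : Set E) (v : E → ℝ) : Prop :=
  ∀ K : Set E, IsCompact K → K ⊆ Ω → (∀ x ∈ K, gradient v x ≠ 0) →
    ∃ C : ℝ, ∃ r₁ > 0, (∀ r ∈ Ioo (0:ℝ) r₁, ∀ e : E, ‖e‖ ≤ 1 → (∀ x ∈ K, x + r • e ∈ Ω) ∧
      ∫ x in K, ‖gradient v (x + r • e) - gradient v x‖ ^ 2 ≤ C * r ^ 2)

end PLap
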