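import Pool.Agent.Lib.MP_a627f3_an.VecB
import Pool.Agent.Lib.MP_a627f3_an.Lip
import Pool.Agent.Lib.MP_a627f3_an.ConvC
import Pool.Agent.Lib.MP_a627f3_an.ConvD
import Pool.Agent.Lib.MP_a627f3_an.Pos

open MeasureTheory Set Filter Topology Metric
open scoped RealInnerProductSpace ENNReal NNReal

namespace PLap

variable {E : Type*} [NormedAddCommGroup E] [InnerProductSpace ℝ E] [FiniteDimensional ℝ E]
  [CompleteSpace E] [MeasurableSpace E] [BorelSpace E]

namespace W22

theorem int_lin3 {f g k : E → ℝ} (hf : Integrable f) (hg : Integrable g) (hk : Integrable k) :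
    ∫ x, (f x + g x - 2 * k x) = (∫ x, f x) + (∫ x, g x) - 2 * ∫ x, k x := by
  have h1 : Integrable (fun x => f x + g x) := hf.add hg
  rw [integral_sub h1 (hk.const_mul 2), integral_add hf hg, integral_const_mul]

theorem int_lin4 {f g k m : E → ℝ} (hf : Integrable f) (hg : Integrable g) (hk : Integrable k)
    (hm : Integrable m) :
    ∫ x, (f x - g x - k x + m x) = (∫ x, f x) - (∫ x, g x) - (∫ x, k x) + ∫ x, m x := by
  have h1 : Integrable (fun x => f x - g x) := hf.sub hg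
  have h2 : Integrable (fun x => f x - g x - k x) := h1.sub hk
  rw [integral_add h2 hm, integral_sub h1 hk, integral_sub hf hg]

theorem hcs_comp_add {F : Type*} [Zero F] {A : E → F} (hc : HasCompactSupport A) (h : E) :
    HasCompactSupport (fun x => A (x + h)) :=
  hc.comp_homeomorph (Homeomorph.addRight h)

/-- Summation by parts for second differences. -/
theorem sum_parts {A G : E → E} (hA : Continuous A) (hG : Continuous G)
    (hc : HasCompactSupport A) (h : E) :
    ∫ x, ⟪A x, G (x + h) + G (x - h) - (2 : ℝ) • G x⟫ =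
      - ∫ x, ⟪A (x + h) - A x, G (x + h) - G x⟫ := by
  have hc' := hcs_comp_add hc h
  have i1 : Integrable (fun x => ⟪A x, G (x + h)⟫) := by
    refine Continuous.integrable_of_hasCompactSupport (by fun_prop) ?_
    exact hc.mono' (fun x hx => subset_tsupport _ (fun h0 => hx (by simp [h0])))
  have i2 : Integrable (fun x => ⟪A x, G (x - h)⟫) := by
    refine Continuous.integrable_of_hasCompactSupport (by fun_prop) ?_
    exact hc.mono' (fun x hx => subset_tsupport _ (fun h0 => hx (by simp [h0])))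
  have i3 : Integrable (fun x => ⟪A x, G x⟫) := by
    refine Continuous.integrable_of_hasCompactSupport (by fun_prop) ?_
    exact hc.mono' (fun x hx => subset_tsupport _ (fun h0 => hx (by simp [h0])))
  have i4 : Integrable (fun x => ⟪A (x + h), G x⟫) := by
    refine Continuous.integrable_of_hasCompactSupport (by fun_prop) ?_
    exact hc'.mono' (fun x hx => subset_tsupport _ (fun h0 => hx (by simp only [h0, inner_zero_left])))
  have i5 : Integrable (fun x => ⟪A (x + h), G (x + h)⟫) := by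
    refine Continuous.integrable_of_hasCompactSupport (by fun_prop) ?_
    exact hc'.mono' (fun x hx => subset_tsupport _ (fun h0 => hx (by simp only [h0, inner_zero_left])))
  have e2 : ∫ x, ⟪A x, G (x - h)⟫ = ∫ x, ⟪A (x + h), G x⟫ := by
    rw [← integral_add_right_eq_self (fun x => ⟪A x, G (x - h)⟫) h]
    simp only [add_sub_cancel_right]
  have e3 : ∫ x, ⟪A x, G x⟫ = ∫ x, ⟪A (x + h), G (x + h)⟫ := by
    rw [← integral_add_right_eq_self (fun x => ⟪A x, G x⟫) h]
  have e1 : ∫ x, ⟪A x, G (x + h) + G (x - h) - (2 : ℝ) • G x⟫ =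
      (∫ x, ⟪A x, G (x + h)⟫) + (∫ x, ⟪A x, G (x - h)⟫) - 2 * ∫ x, ⟪A x, G x⟫ := by
    rw [← int_lin3 i1 i2 i3]
    congr 1
    funext x
    simp only [inner_sub_right, inner_add_right, real_inner_smul_right]
  have e4 : ∫ x, ⟪A (x + h) - A x, G (x + h) - G x⟫ =
      (∫ x, ⟪A (x + h), G (x + h)⟫) - (∫ x, ⟪A (x + h), G x⟫) - (∫ x, ⟪A x, G (x + h)⟫)
        + ∫ x, ⟪A x, G x⟫ := by
    rw [← int_lin4 i5 i4 i1 i3]
    congr 1
    funext x
    simp only [inner_sub_right, inner_sub_left]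
    ring
  rw [e1, e4, e2, ← e3]
  ring

/-- Second differences of a `C²` function with compact support. -/
theorem second_diff {χ : E → ℝ} (hχ : ContDiff ℝ 2 χ) (hc : HasCompactSupport χ) :
    ∃ M : ℝ, 0 ≤ M ∧ ∀ x h, |χ (x + h) + χ (x - h) - 2 * χ x| ≤ M * ‖h‖ ^ 2 := by
  have h1 : ContDiff ℝ 1 (fderiv ℝ χ) := hχ.fderiv_right (by norm_num)
  obtain ⟨L, hL⟩ := h1.lipschitzWith_of_hasCompactSupport (hc.fderiv (𝕜 := ℝ)) (by norm_num)
  refine ⟨L, L.2, fun x h => ?_⟩
  have hd : ∀ y, DifferentiableAt ℝ χ y := fun y => (hχ.differentiable (by norm_num)) y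
  have hψ : ∀ y, HasFDerivAt (fun y => χ (y + h) - χ y) (fderiv ℝ χ (y + h) - fderiv ℝ χ y) y := by
    intro y
    exact ((hasFDerivAt_comp_add_right h).2 (hd (y + h)).hasFDerivAt).sub (hd y).hasFDerivAt
  have hb : ∀ y, ‖fderiv ℝ (fun y => χ (y + h) - χ y) y‖ ≤ L * ‖h‖ := by
    intro y
    rw [(hψ y).fderiv]
    have := hL.norm_sub_le (y + h) y
    rwa [add_sub_cancel_left] at this
  have := convex_univ.norm_image_sub_le_of_norm_fderiv_le (f := fun y => χ (y + h) - χ y)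
    (x := x - h) (y := x) (fun y _ => (hψ y).differentiableAt) (fun y _ => hb y) (mem_univ _)
    (mem_univ _)
  simp only [sub_add_cancel, sub_sub_cancel] at this
  rw [Real.norm_eq_abs] at this
  calc |χ (x + h) + χ (x - h) - 2 * χ x| = |χ (x + h) - χ x - (χ x - χ (x - h))| := by
        congr 1; ring
    _ ≤ L * ‖h‖ * ‖h‖ := this
    _ = L * ‖h‖ ^ 2 := by ring

theorem int_second_diff {V χ : E → ℝ} (hV : Continuous V) (hVc : HasCompactSupport V)
    (hχ : ContDiff ℝ 2 χ) (hc : HasCompactSupport χ) :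
    ∃ C : ℝ, 0 ≤ C ∧ ∀ h : E, |∫ x, χ x * (V (x + h) + V (x - h) - 2 * V x)| ≤ C * ‖h‖ ^ 2 := by
  obtain ⟨M, hM0, hM⟩ := second_diff hχ hc
  have hχc : Continuous χ := hχ.continuous
  refine ⟨M * ∫ x, |V x|, mul_nonneg hM0 (integral_nonneg fun x => abs_nonneg _), fun h => ?_⟩
  have hsupp : ∀ f : E → ℝ, Continuous f → Integrable (fun x => χ x * f x) := by
    intro f hf
    exact (hχc.mul hf).integrable_of_hasCompactSupport hc.mul_right
  have hsupp' : ∀ f : E → ℝ, Continuous f → Integrable (fun x => f x * V x) := by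
    intro f hf
    exact (hf.mul hV).integrable_of_hasCompactSupport hVc.mul_left
  have i1 : Integrable (fun x => χ x * V (x + h)) := hsupp _ (by fun_prop)
  have i2 : Integrable (fun x => χ x * V (x - h)) := hsupp _ (by fun_prop)
  have i3 : Integrable (fun x => χ x * V x) := hsupp _ hV
  have j1 : Integrable (fun x => χ (x - h) * V x) := hsupp' _ (by fun_prop)
  have j2 : Integrable (fun x => χ (x + h) * V x) := hsupp' _ (by fun_prop)
  have e1 : ∫ x, χ x * V (x + h) = ∫ x, χ (x - h) * V x := by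
    rw [← integral_add_right_eq_self (fun x => χ (x - h) * V x) h]
    simp only [add_sub_cancel_right]
  have e2 : ∫ x, χ x * V (x - h) = ∫ x, χ (x + h) * V x := by
    rw [← integral_sub_right_eq_self (fun x => χ (x + h) * V x) h]
    simp only [sub_add_cancel]
  have e : ∫ x, χ x * (V (x + h) + V (x - h) - 2 * V x) =
      ∫ x, (χ (x + h) + χ (x - h) - 2 * χ x) * V x := by
    have l : ∫ x, χ x * (V (x + h) + V (x - h) - 2 * V x) =
        (∫ x, χ x * V (x + h)) + (∫ x, χ x * V (x - h)) - 2 * ∫ x, χ x * V x := by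
      rw [← int_lin3 i1 i2 i3]
      congr 1; funext x; ring
    have r : ∫ x, (χ (x + h) + χ (x - h) - 2 * χ x) * V x =
        (∫ x, χ (x - h) * V x) + (∫ x, χ (x + h) * V x) - 2 * ∫ x, χ x * V x := by
      rw [← int_lin3 j1 j2 i3]
      congr 1; funext x; ring
    rw [l, r, e1, e2]
  rw [e]
  have hVi : Integrable (fun x => |V x|) := (hV.integrable_of_hasCompactSupport hVc).abs
  calc |∫ x, (χ (x + h) + χ (x - h) - 2 * χ x) * V x|
      ≤ ∫ x, |(χ (x + h) + χ (x - h) - 2 * χ x) * V x| := abs_integral_le_integral_abs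
    _ ≤ ∫ x, M * ‖h‖ ^ 2 * |V x| := by
        refine integral_mono_of_nonneg (Eventually.of_forall fun x => abs_nonneg _)
          (hVi.const_mul _) (Eventually.of_forall fun x => ?_)
        simp only [abs_mul]
        exact mul_le_mul_of_nonneg_right (hM x h) (abs_nonneg _)
    _ = M * (∫ x, |V x|) * ‖h‖ ^ 2 := by rw [integral_const_mul]; ring

/-- The pointwise inequality. -/
theorem pointwise_lower {a₀ a₁ G₀ G₁ : E} {s₀ s₁ c A₀ L r : ℝ} (hc : 0 < c) (h0 : 0 ≤ s₀)
    (h1 : 0 ≤ s₁) (hA : 0 ≤ A₀) (hL0 : 0 ≤ L) (hr : 0 ≤ r)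
    (hmono : c * ‖G₁ - G₀‖ ^ 2 ≤ ⟪a₁ - a₀, G₁ - G₀⟫)
    (ha₀ : ‖a₀‖ ≤ A₀) (ha₁ : ‖a₁‖ ≤ A₀) (hL : |s₁ - s₀| ≤ L * r) :
    c / 4 * ((s₀ ^ 2 + s₁ ^ 2) * ‖G₁ - G₀‖ ^ 2) - 2 * A₀ ^ 2 * L ^ 2 / c * r ^ 2 ≤
      ⟪s₁ ^ 2 • a₁ - s₀ ^ 2 • a₀, G₁ - G₀⟫ := by
  have e : ⟪s₁ ^ 2 • a₁ - s₀ ^ 2 • a₀, G₁ - G₀⟫ =
      (s₁ ^ 2 + s₀ ^ 2) / 2 * ⟪a₁ - a₀, G₁ - G₀⟫
        + (s₁ - s₀) * (s₁ + s₀) / 2 * ⟪a₁ + a₀, G₁ - G₀⟫ := by
    simp only [inner_sub_left, inner_add_left, real_inner_smul_left]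
    ring
  have b1 : |⟪a₁ + a₀, G₁ - G₀⟫| ≤ 2 * A₀ * ‖G₁ - G₀‖ := by
    calc |⟪a₁ + a₀, G₁ - G₀⟫| ≤ ‖a₁ + a₀‖ * ‖G₁ - G₀‖ := abs_real_inner_le_norm _ _
      _ ≤ 2 * A₀ * ‖G₁ - G₀‖ := by
        apply mul_le_mul_of_nonneg_right _ (norm_nonneg _)
        calc ‖a₁ + a₀‖ ≤ ‖a₁‖ + ‖a₀‖ := norm_add_le _ _
          _ ≤ 2 * A₀ := by linarith
  have b2 : |(s₁ - s₀) * (s₁ + s₀) / 2 * ⟪a₁ + a₀, G₁ - G₀⟫| ≤
      L * r * A₀ * ((s₁ + s₀) * ‖G₁ - G₀‖) := by
    rw [abs_mul, abs_div, abs_mul, abs_of_nonneg (show 0 ≤ s₁ + s₀ by linarith),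
      abs_of_pos (show (0:ℝ) < 2 by norm_num)]
    calc |s₁ - s₀| * (s₁ + s₀) / 2 * |⟪a₁ + a₀, G₁ - G₀⟫|
        ≤ (L * r) * (s₁ + s₀) / 2 * (2 * A₀ * ‖G₁ - G₀‖) := by
          apply mul_le_mul _ b1 (abs_nonneg _) (by positivity)
          apply div_le_div_of_nonneg_right _ (by norm_num)
          exact mul_le_mul_of_nonneg_right hL (by linarith)
      _ = _ := by ring
  have b3 := neg_le_of_abs_le b2
  have b4 : (s₁ ^ 2 + s₀ ^ 2) / 2 * (c * ‖G₁ - G₀‖ ^ 2) ≤
      (s₁ ^ 2 + s₀ ^ 2) / 2 * ⟪a₁ - a₀, G₁ - G₀⟫ :=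
    mul_le_mul_of_nonneg_left hmono (by positivity)
  rw [e]
  generalize ‖G₁ - G₀‖ = D at *
  have hc' : c ≠ 0 := hc.ne'
  have b5 : L * r * A₀ * ((s₁ + s₀) * D) ≤
      c / 8 * ((s₁ + s₀) * D) ^ 2 + 2 * A₀ ^ 2 * L ^ 2 / c * r ^ 2 := by
    have : 0 ≤ (c / 4 * ((s₁ + s₀) * D) - L * r * A₀) ^ 2 * (2 / c) := by positivity
    have e2 : (c / 4 * ((s₁ + s₀) * D) - L * r * A₀) ^ 2 * (2 / c) =
        c / 8 * ((s₁ + s₀) * D) ^ 2 + 2 * A₀ ^ 2 * L ^ 2 / c * r ^ 2
          - L * r * A₀ * ((s₁ + s₀) * D) := by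
      field_simp
      ring
    linarith
  have b6 : ((s₁ + s₀) * D) ^ 2 ≤ 2 * (s₀ ^ 2 + s₁ ^ 2) * D ^ 2 := by
    rw [mul_pow]
    apply mul_le_mul_of_nonneg_right _ (sq_nonneg _)
    nlinarith [sq_nonneg (s₁ - s₀)]
  have b7 : c / 8 * ((s₁ + s₀) * D) ^ 2 ≤ c / 8 * (2 * (s₀ ^ 2 + s₁ ^ 2) * D ^ 2) :=
    mul_le_mul_of_nonneg_left b6 (by positivity)
  nlinarith

theorem integral_le_of_le' {f g : E → ℝ} (hg : Integrable g) (h : ∀ x, f x ≤ g x)
    (hg0 : ∀ x, 0 ≤ g x) : ∫ x, f x ≤ ∫ x, g x := by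
  by_cases hf : Integrable f
  · exact integral_mono hf hg h
  · rw [integral_undef hf]
    exact integral_nonneg hg0


theorem inner_grad (f : E → ℝ) (x a : E) : ⟪a, gradient f x⟫ = fderiv ℝ f x a := by
  rw [inner_gradient_right]; rfl

theorem continuous_gradient {V : E → ℝ} (hV : ContDiff ℝ 1 V) : Continuous (gradient V) := by
  have h1 : Continuous (fderiv ℝ V) := hV.continuous_fderiv (by norm_num)
  exact (InnerProductSpace.toDual ℝ E).symm.continuous.comp h1

variable {b : OrthonormalBasis (Fin (Module.finrank ℝ E)) ℝ E}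
  {μ : Fin (Module.finrank ℝ E) → ℝ}

theorem Qr_contDiff {V : E → ℝ} (hV : ContDiff ℝ 1 V) (r : ℝ) : ContDiff ℝ 1 (Qr b μ V r) := by
  unfold Qr
  refine ContDiff.sum fun i _ => ?_
  have h1 : ContDiff ℝ 1 (fun x => V (x + r • b i)) := hV.comp (contDiff_id.add contDiff_const)
  have h2 : ContDiff ℝ 1 (fun x => V (x - r • b i)) := hV.comp (contDiff_id.sub contDiff_const)
  exact contDiff_const.mul (((h1.add h2).sub (contDiff_const.mul hV)).div_const _)

theorem Qr_fderiv {V : E → ℝ} (hV : ContDiff ℝ 1 V) (r : ℝ) (x a : E) :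
    fderiv ℝ (Qr b μ V r) x a = ∑ i, μ i / r ^ 2 *
      ⟪a, gradient V (x + r • b i) + gradient V (x - r • b i) - (2 : ℝ) • gradient V x⟫ := by
  have hd : ∀ y, HasFDerivAt V (fderiv ℝ V y) y := fun y =>
    ((hV.differentiable (by norm_num)) y).hasFDerivAt
  have h : HasFDerivAt (Qr b μ V r) (∑ i, μ i • ((r ^ 2)⁻¹ •
      (fderiv ℝ V (x + r • b i) + fderiv ℝ V (x - r • b i) - (2 : ℝ) • fderiv ℝ V x))) x := by
    unfold Qr
    refine HasFDerivAt.fun_sum fun i _ => ?_
    have h1 := (hasFDerivAt_comp_add_right (x := x) (r • b i)).2 (hd (x + r • b i))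
    have h2 : HasFDerivAt (fun x => V (x - r • b i)) (fderiv ℝ V (x - r • b i)) x := by
      have := (hasFDerivAt_comp_add_right (x := x) (-(r • b i))).2
        (hd (x + -(r • b i)))
      simpa only [sub_eq_add_neg] using this
    have h3 := ((h1.fun_add h2).fun_sub ((hd x).const_mul 2)).mul_const ((r ^ 2)⁻¹)
    have h4 := h3.const_mul (μ i)
    simpa only [div_eq_mul_inv] using h4
  rw [h.fderiv]
  simp only [sum_apply, smul_apply, add_apply, sub_apply, smul_eq_mul]
  refine Finset.sum_congr rfl fun i _ => ?_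
  rw [inner_sub_right, inner_add_right, real_inner_smul_right, inner_grad, inner_grad, inner_grad]
  ring

theorem lower_bound {p : ℝ} (hp : 1 < p) {V : E → ℝ} (hV : ContDiff ℝ 1 V)
    (hμ : ∀ i, 0 < μ i) {σ : E → ℝ} (hσ : ContDiff ℝ 1 σ) (hσc : HasCompactSupport σ)
    (hσ0 : ∀ x, 0 ≤ σ x) {x₁ : E} {ρ c s : ℝ} {ξ₀ : E} (hρ : 0 < ρ) (hc : 0 < c)
    (hsupp : tsupport σ ⊆ closedBall x₁ (2 * ρ))
    (hball : ∀ x ∈ closedBall x₁ (3 * ρ), gradient V x ∈ closedBall ξ₀ s)
    (hmono : ∀ ξ ∈ closedBall ξ₀ s, ∀ η ∈ closedBall ξ₀ s,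
      c * ‖ξ - η‖ ^ 2 ≤ ⟪aP p ξ - aP p η, ξ - η⟫)
    {χ₁ : E → ℝ} (hχ : Continuous χ₁) (hχc : HasCompactSupport χ₁)
    (hχ1 : ∀ x ∈ closedBall x₁ (2 * ρ), χ₁ x = 1) {r₃ C₁ : ℝ}
    (hQ : ∀ r ∈ Ioo (0:ℝ) r₃, ∀ x, 0 ≤ χ₁ x * Qr b μ V r x)
    (hC₁ : ∀ r ∈ Ioo (0:ℝ) r₃, ∫ x, χ₁ x * Qr b μ V r x ≤ C₁) :
    ∃ C : ℝ, ∀ r ∈ Ioo (0:ℝ) r₃, r < ρ → ∀ i, μ i * (c / 4) *
      ∫ x, σ x ^ 2 * ‖gradient V (x + r • b i) - gradient V x‖ ^ 2 ≤
        r ^ 2 * (C + XF p V (fun x => σ x ^ 2 * Qr b μ V r x)) := by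
  have hG := continuous_gradient hV
  have hσz : ∀ x, x ∉ closedBall x₁ (2 * ρ) → σ x = 0 := fun x hx =>
    image_eq_zero_of_notMem_tsupport (fun h => hx (hsupp h))
  have haG : Continuous (fun x => aP p (gradient V x)) := (continuous_aP hp).comp hG
  obtain ⟨A₀', hA₀'⟩ := (isCompact_closedBall x₁ (3 * ρ)).exists_bound_of_continuousOn
    haG.continuousOn
  set A₀ := max A₀' 0 with hA₀def
  have hA₀0 : 0 ≤ A₀ := le_max_right _ _
  have hA₀ : ∀ x ∈ closedBall x₁ (3 * ρ), ‖aP p (gradient V x)‖ ≤ A₀ := fun x hx =>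
    (hA₀' x hx).trans (le_max_left _ _)
  obtain ⟨L, hL⟩ := hσ.lipschitzWith_of_hasCompactSupport hσc (by norm_num)
  -- the first term
  have hcont1 : Continuous (fun x => 2 * σ x * fderiv ℝ σ x (aP p (gradient V x))) :=
    (continuous_const.mul hσ.continuous).mul
      ((hσ.continuous_fderiv (by norm_num)).clm_apply haG)
  have hcs1 : HasCompactSupport (fun x => 2 * σ x * fderiv ℝ σ x (aP p (gradient V x))) :=
    HasCompactSupport.mul_right (HasCompactSupport.mul_left hσc)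
  obtain ⟨M₄', hM₄'⟩ := hcont1.bounded_above_of_compact_support hcs1
  set M₄ := max M₄' 0 with hM₄def
  have hM₄0 : 0 ≤ M₄ := le_max_right _ _
  have hM₄ : ∀ x, 2 * σ x * fderiv ℝ σ x (aP p (gradient V x)) ≤ M₄ := fun x =>
    (le_abs_self _).trans ((hM₄' x).trans (le_max_left _ _))
  have hA : Continuous (fun x => σ x ^ 2 • aP p (gradient V x)) :=
    (hσ.continuous.pow 2).smul haG
  have hAc : HasCompactSupport (fun x => σ x ^ 2 • aP p (gradient V x)) := by
    refine HasCompactSupport.smul_right ?_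
    exact hσc.mono' (fun x hx => subset_tsupport _ (fun h0 => hx (by simp [h0])))
  set K₀ : ℝ := 2 * A₀ ^ 2 * (L : ℝ) ^ 2 / c with hK₀
  have hK₀0 : 0 ≤ K₀ := by positivity
  set vol : ℝ := (volume (closedBall x₁ (3 * ρ))).toReal with hvol
  have hvol0 : 0 ≤ vol := ENNReal.toReal_nonneg
  refine ⟨M₄ * C₁ + K₀ * vol * ∑ i, μ i, fun r hr hrρ i => ?_⟩
  have hr0 : 0 < r := hr.1
  -- formula for XF
  have hQc := Qr_contDiff (b := b) (μ := μ) hV r
  have hXF : XF p V (fun x => σ x ^ 2 * Qr b μ V r x) =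
      - (∫ x, 2 * σ x * fderiv ℝ σ x (aP p (gradient V x)) * Qr b μ V r x)
        + ∑ j, μ j / r ^ 2 * ∫ x, ⟪σ (x + r • b j) ^ 2 • aP p (gradient V (x + r • b j))
          - σ x ^ 2 • aP p (gradient V x), gradient V (x + r • b j) - gradient V x⟫ := by
    have hpt : ∀ x, ⟪aP p (gradient V x), gradient (fun x => σ x ^ 2 * Qr b μ V r x) x⟫ =
        2 * σ x * fderiv ℝ σ x (aP p (gradient V x)) * Qr b μ V r x
        + ∑ j, μ j / r ^ 2 * ⟪σ x ^ 2 • aP p (gradient V x), gradient V (x + r • b j)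
          + gradient V (x - r • b j) - (2 : ℝ) • gradient V x⟫ := by
      intro x
      rw [inner_grad]
      have d1 : HasFDerivAt σ (fderiv ℝ σ x) x :=
        ((hσ.differentiable (by norm_num)) x).hasFDerivAt
      have d2 : HasFDerivAt (Qr b μ V r) (fderiv ℝ (Qr b μ V r) x) x :=
        ((hQc.differentiable (by norm_num)) x).hasFDerivAt
      have d3 := (d1.pow 2).fun_mul d2
      rw [d3.fderiv]
      simp only [add_apply, smul_apply, smul_eq_mul, Qr_fderiv hV, real_inner_smul_left]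
      rw [Finset.mul_sum, add_comm]
      congr 1
      · push_cast
        ring
      · refine Finset.sum_congr rfl fun j _ => ?_
        ring
    unfold XF
    simp only [hpt]
    have i1 : Integrable (fun x => 2 * σ x * fderiv ℝ σ x (aP p (gradient V x)) * Qr b μ V r x) :=
      (hcont1.mul hQc.continuous).integrable_of_hasCompactSupport hcs1.mul_right
    have i2 : ∀ j, Integrable (fun x => μ j / r ^ 2 * ⟪σ x ^ 2 • aP p (gradient V x),
        gradient V (x + r • b j) + gradient V (x - r • b j) - (2 : ℝ) • gradient V x⟫) := by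
      intro j
      refine Integrable.const_mul ?_ _
      refine Continuous.integrable_of_hasCompactSupport ?_ ?_
      · have g1 : Continuous (fun x => gradient V (x + r • b j)) := hG.comp (by fun_prop)
        have g2 : Continuous (fun x => gradient V (x - r • b j)) := hG.comp (by fun_prop)
        exact hA.inner ((g1.add g2).sub (continuous_const.smul hG))
      · exact hAc.mono' (fun x hx => subset_tsupport _ (fun h0 => hx (by
          simp only [h0, inner_zero_left])))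
    rw [integral_add i1 (integrable_finsetSum _ fun j _ => i2 j), integral_finsetSum _
      (fun j _ => i2 j), neg_add]
    congr 1
    rw [← Finset.sum_neg_distrib]
    refine Finset.sum_congr rfl fun j _ => ?_
    rw [integral_const_mul, sum_parts (A := fun x => σ x ^ 2 • aP p (gradient V x)) hA hG hAc]
    ring
  -- bound for the first term
  have hT : ∫ x, 2 * σ x * fderiv ℝ σ x (aP p (gradient V x)) * Qr b μ V r x ≤ M₄ * C₁ := by
    have hi : Integrable (fun x => M₄ * (χ₁ x * Qr b μ V r x)) :=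
      ((hχ.mul hQc.continuous).integrable_of_hasCompactSupport hχc.mul_right).const_mul _
    calc ∫ x, 2 * σ x * fderiv ℝ σ x (aP p (gradient V x)) * Qr b μ V r x
        ≤ ∫ x, M₄ * (χ₁ x * Qr b μ V r x) := by
          refine integral_le_of_le' hi (fun x => ?_) (fun x => mul_nonneg hM₄0 (hQ r hr x))
          by_cases hx : x ∈ closedBall x₁ (2 * ρ)
          · have hq := hQ r hr x
            rw [hχ1 x hx, one_mul] at hq ⊢
            exact mul_le_mul_of_nonneg_right (hM₄ x) hq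
          · rw [hσz x hx]
            simp only [mul_zero, zero_mul]
            exact mul_nonneg hM₄0 (hQ r hr x)
      _ = M₄ * ∫ x, χ₁ x * Qr b μ V r x := integral_const_mul _ _
      _ ≤ M₄ * C₁ := mul_le_mul_of_nonneg_left (hC₁ r hr) hM₄0
  -- lower bound for the main terms
  have hmain : ∀ j, c / 4 * (∫ x, σ x ^ 2 * ‖gradient V (x + r • b j) - gradient V x‖ ^ 2)
      - K₀ * r ^ 2 * vol ≤ ∫ x, ⟪σ (x + r • b j) ^ 2 • aP p (gradient V (x + r • b j))
          - σ x ^ 2 • aP p (gradient V x), gradient V (x + r • b j) - gradient V x⟫ := by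
    intro j
    have hn : ‖r • b j‖ = r := by
      rw [norm_smul, b.norm_eq_one, mul_one, Real.norm_eq_abs, abs_of_pos hr0]
    have g1 : Continuous (fun x => gradient V (x + r • b j)) := hG.comp (by fun_prop)
    have hI : Integrable (fun x => σ x ^ 2 * ‖gradient V (x + r • b j) - gradient V x‖ ^ 2) := by
      refine Continuous.integrable_of_hasCompactSupport
        ((hσ.continuous.pow 2).mul ((g1.sub hG).norm.pow 2)) ?_
      exact hσc.mono' (fun x hx => subset_tsupport _ (fun h0 => hx (by simp [h0])))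
    have hI2 : Integrable (fun x => K₀ * r ^ 2 *
        (closedBall x₁ (3 * ρ)).indicator (fun _ => (1 : ℝ)) x) := by
      refine Integrable.const_mul ?_ _
      refine (integrable_indicator_iff isClosed_closedBall.measurableSet).2 ?_
      exact integrableOn_const (isCompact_closedBall x₁ (3 * ρ)).measure_lt_top.ne
    have hI3 : Integrable (fun x => ⟪σ (x + r • b j) ^ 2 • aP p (gradient V (x + r • b j))
          - σ x ^ 2 • aP p (gradient V x), gradient V (x + r • b j) - gradient V x⟫) := by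
      refine Continuous.integrable_of_hasCompactSupport ?_ ?_
      · exact ((hA.comp (show Continuous (fun x => x + r • b j) by fun_prop)).sub hA).inner
          (g1.sub hG)
      · have h1 := (hcs_comp_add hAc (r • b j)).sub hAc
        exact h1.mono' (fun x hx => subset_tsupport _ (fun h0 => hx (by
          simp only [Pi.sub_apply] at h0
          simp only [h0, inner_zero_left])))
    have e : c / 4 * (∫ x, σ x ^ 2 * ‖gradient V (x + r • b j) - gradient V x‖ ^ 2)
      - K₀ * r ^ 2 * vol = ∫ x, (c / 4 * (σ x ^ 2 * ‖gradient V (x + r • b j) - gradient V x‖ ^ 2)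
        - K₀ * r ^ 2 * (closedBall x₁ (3 * ρ)).indicator (fun _ => (1 : ℝ)) x) := by
      rw [integral_sub (hI.const_mul _) hI2, integral_const_mul, integral_const_mul,
        integral_indicator isClosed_closedBall.measurableSet]
      simp [hvol, Measure.real]
    rw [e]
    refine integral_mono ((hI.const_mul _).sub hI2) hI3 fun x => ?_
    simp only
    by_cases hx : x ∈ closedBall x₁ (2 * ρ) ∨ x + r • b j ∈ closedBall x₁ (2 * ρ)
    · have hx3 : x ∈ closedBall x₁ (3 * ρ) ∧ x + r • b j ∈ closedBall x₁ (3 * ρ) := by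
        simp only [mem_closedBall, dist_eq_norm] at hx ⊢
        rcases hx with hx | hx
        · constructor
          · linarith
          · calc ‖x + r • b j - x₁‖ = ‖(x - x₁) + r • b j‖ := by congr 1; abel
              _ ≤ ‖x - x₁‖ + ‖r • b j‖ := norm_add_le _ _
              _ ≤ 3 * ρ := by rw [hn]; linarith
        · constructor
          · calc ‖x - x₁‖ = ‖(x + r • b j - x₁) - r • b j‖ := by congr 1; abel
              _ ≤ ‖x + r • b j - x₁‖ + ‖r • b j‖ := norm_sub_le _ _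
              _ ≤ 3 * ρ := by rw [hn]; linarith
          · linarith
      have hpl := pointwise_lower (a₀ := aP p (gradient V x)) (a₁ := aP p (gradient V (x + r • b j)))
        (G₀ := gradient V x) (G₁ := gradient V (x + r • b j)) (s₀ := σ x) (s₁ := σ (x + r • b j))
        (L := L) (r := r) hc (hσ0 _) (hσ0 _) hA₀0 L.2 hr0.le
        (hmono _ (hball _ hx3.2) _ (hball _ hx3.1)) (hA₀ _ hx3.1) (hA₀ _ hx3.2) (by
          have := hL.norm_sub_le (x + r • b j) x
          rw [add_sub_cancel_left, hn] at this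
          exact this)
      rw [indicator_of_mem hx3.1, mul_one]
      have h5 : 0 ≤ c / 4 * (σ (x + r • b j) ^ 2 * ‖gradient V (x + r • b j) - gradient V x‖ ^ 2) := by
        positivity
      have h6 : c / 4 * (σ x ^ 2 * ‖gradient V (x + r • b j) - gradient V x‖ ^ 2)
        + c / 4 * (σ (x + r • b j) ^ 2 * ‖gradient V (x + r • b j) - gradient V x‖ ^ 2) =
        c / 4 * ((σ x ^ 2 + σ (x + r • b j) ^ 2) * ‖gradient V (x + r • b j) - gradient V x‖ ^ 2) := by
        ring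
      have h7 : 2 * A₀ ^ 2 * (L : ℝ) ^ 2 / c * r ^ 2 = K₀ * r ^ 2 := by rw [hK₀]
      linarith
    · push Not at hx
      rw [hσz _ hx.1, hσz _ hx.2]
      have h8 : 0 ≤ K₀ * r ^ 2 * (closedBall x₁ (3 * ρ)).indicator (fun _ => (1 : ℝ)) x := by
        apply mul_nonneg (by positivity)
        exact indicator_nonneg (fun _ _ => zero_le_one) _
      simp only [ne_eq, OfNat.ofNat_ne_zero, not_false_eq_true, zero_pow, zero_mul, mul_zero,
        zero_smul, sub_self, inner_zero_left]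
      linarith
  have hterm : ∀ j, 0 ≤ μ j * (∫ x, ⟪σ (x + r • b j) ^ 2 • aP p (gradient V (x + r • b j))
          - σ x ^ 2 • aP p (gradient V x), gradient V (x + r • b j) - gradient V x⟫)
          + μ j * (K₀ * r ^ 2 * vol) := by
    intro j
    rw [← mul_add]
    apply mul_nonneg (hμ j).le
    have h9 : 0 ≤ ∫ x, σ x ^ 2 * ‖gradient V (x + r • b j) - gradient V x‖ ^ 2 :=
      integral_nonneg fun x => by positivity
    have := hmain j
    have h10 : 0 ≤ c / 4 * ∫ x, σ x ^ 2 * ‖gradient V (x + r • b j) - gradient V x‖ ^ 2 := by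
      positivity
    linarith
  have hsum := Finset.single_le_sum (f := fun j => μ j * (∫ x, ⟪σ (x + r • b j) ^ 2 •
      aP p (gradient V (x + r • b j)) - σ x ^ 2 • aP p (gradient V x),
        gradient V (x + r • b j) - gradient V x⟫) + μ j * (K₀ * r ^ 2 * vol))
    (fun j _ => hterm j) (Finset.mem_univ i)
  rw [Finset.sum_add_distrib, ← Finset.sum_mul] at hsum
  have h11 := mul_le_mul_of_nonneg_left (hmain i) (hμ i).le
  have h12 : r ^ 2 * ∑ j, μ j / r ^ 2 * (∫ x, ⟪σ (x + r • b j) ^ 2 •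
      aP p (gradient V (x + r • b j)) - σ x ^ 2 • aP p (gradient V x),
        gradient V (x + r • b j) - gradient V x⟫) = ∑ j, μ j * (∫ x, ⟪σ (x + r • b j) ^ 2 •
      aP p (gradient V (x + r • b j)) - σ x ^ 2 • aP p (gradient V x),
        gradient V (x + r • b j) - gradient V x⟫) := by
    rw [Finset.mul_sum]
    refine Finset.sum_congr rfl fun j _ => ?_
    field_simp
  have h13 : r ^ 2 * (∫ x, 2 * σ x * fderiv ℝ σ x (aP p (gradient V x)) * Qr b μ V r x) ≤
      r ^ 2 * (M₄ * C₁) := mul_le_mul_of_nonneg_left hT (by positivity)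
  rw [hXF]
  nlinarith

theorem Qr_nonneg (hμ : ∀ i, 0 < μ i) {Ω : Set E} {v : E → ℝ} (hv : ConvexOn ℝ Ω v) {r : ℝ}
    {x : E} (h1 : ∀ i, x + r • b i ∈ Ω) (h2 : ∀ i, x - r • b i ∈ Ω) : 0 ≤ Qr b μ v r x := by
  unfold Qr
  refine Finset.sum_nonneg fun i _ => mul_nonneg (hμ i).le (div_nonneg ?_ (sq_nonneg _))
  have h := hv.2 (h1 i) (h2 i) (show (0:ℝ) ≤ 1 / 2 by norm_num) (show (0:ℝ) ≤ 1 / 2 by norm_num)
    (by norm_num)
  have e : (1 / 2 : ℝ) • (x + r • b i) + (1 / 2 : ℝ) • (x - r • b i) = x := by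
    rw [smul_add, smul_sub]
    have : (1 / 2 : ℝ) • x + (1 / 2 : ℝ) • x = x := by
      rw [← add_smul]; norm_num
    calc (1 / 2 : ℝ) • x + (1 / 2 : ℝ) • r • b i + ((1 / 2 : ℝ) • x - (1 / 2 : ℝ) • r • b i)
        = (1 / 2 : ℝ) • x + (1 / 2 : ℝ) • x := by abel
      _ = x := this
  rw [e] at h
  simp only [smul_eq_mul] at h
  linarith

theorem lipC_add {Ω : Set E} {f g : E → ℝ} (hf : LipC Ω f) (hg : LipC Ω g) :
    LipC Ω (fun x => f x + g x) := by
  obtain ⟨⟨K, hK⟩, hfc, hfs⟩ := hf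
  obtain ⟨⟨K', hK'⟩, hgc, hgs⟩ := hg
  refine ⟨⟨K + K', hK.add hK'⟩, hfc.add hgc, ?_⟩
  exact (tsupport_add f g).trans (union_subset hfs hgs)

theorem upper_bound {p lam δ : ℝ} (hp : 1 < p) {Ω : Set E} {v : E → ℝ} (hv : Reg Ω v)
    (hμ : ∀ i, 0 < μ i) {ξ₀ : E} {g : E → ℝ} (hg : Continuous g) (hg0 : ∀ ξ, 0 ≤ g ξ) {s : ℝ}
    (hgs : tsupport g ⊆ closedBall ξ₀ s) {r₀ : ℝ}
    (hEL : ∀ r ∈ Ioo (0:ℝ) r₀, ELHolds p lam δ Ω v (fun x => g (gradient v x) *
      (Qr b μ v r x - (lam + δ * v x + (p - 1) * ‖ξ₀‖ ^ p))))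
    {V : E → ℝ} (hV : ContDiff ℝ 1 V) {U₂ : Set E} (hU₂Ω : U₂ ⊆ Ω)
    (hVv : ∀ x ∈ U₂, V x = v x) {χ₁ : E → ℝ} (hχ : Continuous χ₁) (hχc : HasCompactSupport χ₁)
    (hχU : tsupport χ₁ ⊆ U₂) (hχ0 : ∀ x, 0 ≤ χ₁ x) {U₁ : Set E} (hU₁ : IsOpen U₁)
    (hKU₁ : ∀ x ∈ Ω, gradient v x ∈ closedBall ξ₀ s → x ∈ U₁) (hχ1 : ∀ x ∈ U₁, χ₁ x = 1)
    {r₃ C₁ : ℝ} (hr₃ : r₃ ≤ r₀) (hshift : ∀ x ∈ tsupport χ₁, ∀ h : E, ‖h‖ < r₃ → x + h ∈ U₂)
    (hC₁ : ∀ r ∈ Ioo (0:ℝ) r₃, ∫ x, χ₁ x * Qr b μ V r x ≤ C₁)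
    {τ : E → ℝ} (hτ : ContDiff ℝ 1 τ) (hτc : HasCompactSupport τ) (hτ0 : ∀ x, 0 ≤ τ x)
    (hτΩ : tsupport τ ⊆ Ω) (hτg : ∀ x ∈ Ω, τ x ≤ g (gradient v x)) :
    ∃ C : ℝ, ∀ r ∈ Ioo (0:ℝ) r₃,
      XF p v (fun x => τ x * (Qr b μ V r x * Real.exp (-p * V x))) ≤ C := by
  classical
  have hΩ := hv.isOpen
  set Kg : Set E := {x | x ∈ Ω ∧ gradient v x ∈ closedBall ξ₀ s} with hKg
  have hKgc : IsCompact Kg := hv.isCompact_grad (isCompact_closedBall ξ₀ s)
  have hKgΩ : Kg ⊆ Ω := fun x hx => hx.1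
  have hKgU : Kg ⊆ U₁ := fun x hx => hKU₁ x hx.1 hx.2
  have hU₁s : U₁ ⊆ tsupport χ₁ := fun x hx => subset_tsupport _ (by
    rw [Function.mem_support, hχ1 x hx]; exact one_ne_zero)
  have hKgs : Kg ⊆ tsupport χ₁ := hKgU.trans hU₁s
  have hKgU₂ : Kg ⊆ U₂ := hKgs.trans hχU
  -- the continuous function G
  set G : E → ℝ := fun x => if x ∈ Ω then g (gradient v x) else 0 with hGdef
  have hGz : ∀ x, x ∉ Kg → G x = 0 := by
    intro x hx
    by_cases hxΩ : x ∈ Ω
    · simp only [hGdef, hxΩ, if_true]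
      by_contra hne
      exact hx ⟨hxΩ, hgs (subset_tsupport _ hne)⟩
    · simp only [hGdef, hxΩ, if_false]
  have hgrad : ContinuousOn (gradient v) Ω := by
    have h1 : ContinuousOn (fderiv ℝ v) Ω := hv.c1.continuousOn_fderiv_of_isOpen hΩ (by norm_num)
    exact (InnerProductSpace.toDual ℝ E).symm.continuous.comp_continuousOn h1
  have hGc : Continuous G := by
    rw [continuous_iff_continuousAt]
    intro x
    by_cases hx : x ∈ Ω
    · have h1 : ContinuousAt (fun y => g (gradient v y)) x :=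
        hg.continuousAt.comp (hgrad.continuousAt (hΩ.mem_nhds hx))
      refine h1.congr ?_
      filter_upwards [hΩ.mem_nhds hx] with y hy
      simp only [hGdef, hy, if_true]
    · have h1 : x ∈ Kgᶜ := fun h => hx h.1
      have h2 : (fun _ => (0:ℝ)) =ᶠ[𝓝 x] G := by
        filter_upwards [hKgc.isClosed.isOpen_compl.mem_nhds h1] with y hy
        exact (hGz y hy).symm
      exact continuousAt_const.congr h2
  have hG0 : ∀ x, 0 ≤ G x := by
    intro x
    simp only [hGdef]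
    split_ifs
    · exact hg0 _
    · exact le_rfl
  have hτG : ∀ x, τ x ≤ G x := by
    intro x
    by_cases hx : x ∈ Ω
    · simp only [hGdef, hx, if_true]; exact hτg x hx
    · have : τ x = 0 := image_eq_zero_of_notMem_tsupport (fun h => hx (hτΩ h))
      rw [this]; exact hG0 x
  have hgK : HasCompactSupport g := (isCompact_closedBall ξ₀ s).of_isClosed_subset
    (isClosed_tsupport g) hgs
  obtain ⟨gm, hgm⟩ := hg.bounded_above_of_compact_support hgK
  have hgm0 : 0 ≤ gm := (norm_nonneg _).trans (hgm 0)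
  have hGgm : ∀ x, G x ≤ gm := by
    intro x
    simp only [hGdef]
    split_ifs
    · exact (le_abs_self _).trans (hgm _)
    · exact hgm0
  have hτz : ∀ x, x ∉ Kg → τ x = 0 := fun x hx =>
    le_antisymm ((hτG x).trans_eq (hGz x hx)) (hτ0 x)
  have hτL : LipC Ω τ := ⟨hτ.lipschitzWith_of_hasCompactSupport hτc (by norm_num), hτc, hτΩ⟩
  -- the function G - τ
  have hφc : Continuous (fun x => G x - τ x) := hGc.sub hτ.continuous
  have hφs : tsupport (fun x => G x - τ x) ⊆ Kg := by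
    apply closure_minimal _ hKgc.isClosed
    intro x hx
    by_contra hcon
    apply hx
    simp only [hGz x hcon, hτz x hcon, sub_zero]
  have hφcs : HasCompactSupport (fun x => G x - τ x) :=
    hKgc.of_isClosed_subset (isClosed_tsupport _) hφs
  -- bounds on compact sets
  have hVK : ContinuousOn v (tsupport χ₁) := hv.c1.continuousOn.mono (hχU.trans hU₂Ω)
  obtain ⟨Mv, hMv⟩ := hχc.exists_bound_of_continuousOn hVK
  obtain ⟨Cb, hCb⟩ := XF_bound hp hΩ hKgc hχc (hKgU.trans (interior_maximal hU₁s hU₁))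
    (hχU.trans hU₂Ω) Mv
  have hNc : ContDiff ℝ 1 (fun x => Real.exp (-p * V x)) := (contDiff_const.mul hV).exp
  have hc₀c : ContDiff ℝ 1 (fun x => lam + δ * V x + (p - 1) * ‖ξ₀‖ ^ p) :=
    (contDiff_const.add (contDiff_const.mul hV)).add contDiff_const
  obtain ⟨M₃', hM₃'⟩ := hKgc.exists_bound_of_continuousOn
    ((hc₀c.mul hNc).continuous.continuousOn (s := Kg))
  set M₃ := max M₃' 0 with hM₃def
  have hM₃0 : 0 ≤ M₃ := le_max_right _ _
  have hM₃ : ∀ x ∈ Kg, |(lam + δ * V x + (p - 1) * ‖ξ₀‖ ^ p) * Real.exp (-p * V x)| ≤ M₃ :=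
    fun x hx => (hM₃' x hx).trans (le_max_left _ _)
  have hccont : ContinuousOn (fun x => (lam + δ * v x + (p - 1) * ‖gradient v x‖ ^ p)
      * Real.exp (-p * v x)) Kg := by
    have hvc : ContinuousOn v Kg := hv.c1.continuousOn.mono hKgΩ
    have hgc : ContinuousOn (fun x => ‖gradient v x‖ ^ p) Kg :=
      (hgrad.mono hKgΩ).norm.rpow_const (fun x _ => Or.inr (by linarith))
    exact ((continuousOn_const.add (continuousOn_const.mul hvc)).add
      (continuousOn_const.mul hgc)).mul (Real.continuous_exp.comp_continuousOn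
        (continuousOn_const.mul hvc))
  obtain ⟨Mc', hMc'⟩ := hKgc.exists_bound_of_continuousOn hccont
  set Mc := max Mc' 0 with hMcdef
  have hMc0 : 0 ≤ Mc := le_max_right _ _
  have hMc : ∀ x ∈ Kg, |(lam + δ * v x + (p - 1) * ‖gradient v x‖ ^ p)
      * Real.exp (-p * v x)| ≤ Mc := fun x hx => (hMc' x hx).trans (le_max_left _ _)
  obtain ⟨M₀', hM₀'⟩ := hKgc.exists_bound_of_continuousOn
    (hc₀c.continuous.continuousOn (s := Kg))
  set M₀ := max M₀' 0 with hM₀def
  have hM₀0 : 0 ≤ M₀ := le_max_right _ _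
  have hM₀ : ∀ x ∈ Kg, |lam + δ * V x + (p - 1) * ‖ξ₀‖ ^ p| ≤ M₀ :=
    fun x hx => (hM₀' x hx).trans (le_max_left _ _)
  have hχi : Integrable χ₁ := hχ.integrable_of_hasCompactSupport hχc
  refine ⟨Mc * gm * C₁ + Mc * gm * M₀ * (∫ x, χ₁ x) + Cb * (gm * M₃), fun r hr => ?_⟩
  have hr0 : 0 < r := hr.1
  have hQc : ContDiff ℝ 1 (Qr b μ V r) := Qr_contDiff hV r
  have hnorm : ∀ i, ‖r • b i‖ < r₃ := fun i => by
    rw [norm_smul, b.norm_eq_one, mul_one, Real.norm_eq_abs, abs_of_pos hr0]; exact hr.2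
  have hplus : ∀ x ∈ tsupport χ₁, ∀ i, x + r • b i ∈ U₂ := fun x hx i =>
    hshift x hx _ (hnorm i)
  have hminus : ∀ x ∈ tsupport χ₁, ∀ i, x - r • b i ∈ U₂ := fun x hx i => by
    rw [sub_eq_add_neg]; exact hshift x hx _ (by rw [norm_neg]; exact hnorm i)
  have hQeq : ∀ x ∈ tsupport χ₁, Qr b μ V r x = Qr b μ v r x := by
    intro x hx
    unfold Qr
    refine Finset.sum_congr rfl fun i _ => ?_
    rw [hVv _ (hplus x hx i), hVv _ (hminus x hx i), hVv _ (hχU hx)]
  have hQ0 : ∀ x ∈ tsupport χ₁, 0 ≤ Qr b μ V r x := by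
    intro x hx
    rw [hQeq x hx]
    exact Qr_nonneg hμ hv.cvx (fun i => hU₂Ω (hplus x hx i)) (fun i => hU₂Ω (hminus x hx i))
  have hχQ : ∀ x, 0 ≤ χ₁ x * Qr b μ V r x := by
    intro x
    by_cases hx : x ∈ tsupport χ₁
    · exact mul_nonneg (hχ0 x) (hQ0 x hx)
    · rw [image_eq_zero_of_notMem_tsupport hx, zero_mul]
  obtain ⟨Cr, hCr⟩ := hEL r ⟨hr0, hr.2.trans_le hr₃⟩ Kg hKgc hKgΩ
  obtain ⟨Br', hBr'⟩ := hKgc.exists_bound_of_continuousOn
    ((hQc.sub hc₀c).continuous.continuousOn (s := Kg))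
  set Br := max Br' 0 with hBrdef
  have hBr0 : 0 ≤ Br := le_max_right _ _
  have hBr : ∀ x ∈ Kg, |Qr b μ V r x - (lam + δ * V x + (p - 1) * ‖ξ₀‖ ^ p)| ≤ Br :=
    fun x hx => (hBr' x hx).trans (le_max_left _ _)
  refine le_of_forall_pos_le_add fun ε' hε' => ?_
  set ε : ℝ := ε' / (|Cr| * Br + 1) with hεdef
  have hden : 0 < |Cr| * Br + 1 := by positivity
  have hε : 0 < ε := div_pos hε' hden
  obtain ⟨hh, hhL, hhs, hh0, hhle, hhge⟩ := lipC_approx hΩ hφc hφcs (hφs.trans hKgΩ)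
    (fun x => sub_nonneg.2 (hτG x)) hε
  have hhz : ∀ x, x ∉ Kg → hh x = 0 := fun x hx =>
    image_eq_zero_of_notMem_tsupport (fun h => hx (hφs (hhs h)))
  have hQN : ContDiffOn ℝ 1 (fun x => Qr b μ V r x * Real.exp (-p * V x)) Ω :=
    (hQc.mul hNc).contDiffOn
  have hth : LipC Ω (fun x => τ x + hh x) := lipC_add hτL hhL
  have l1 : LipC Ω (fun x => τ x * (Qr b μ V r x * Real.exp (-p * V x))) :=
    lipC_of_contDiffOn hΩ hτL hQN
  have l2 : LipC Ω (fun x => hh x * (Qr b μ V r x * Real.exp (-p * V x))) :=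
    lipC_of_contDiffOn hΩ hhL hQN
  have l3 : LipC Ω (fun x => (τ x + hh x) * ((lam + δ * V x + (p - 1) * ‖ξ₀‖ ^ p)
      * Real.exp (-p * V x))) := lipC_of_contDiffOn hΩ hth (hc₀c.mul hNc).contDiffOn
  have l5 : LipC Ω (fun x => (τ x + hh x) * (Qr b μ V r x
      - (lam + δ * V x + (p - 1) * ‖ξ₀‖ ^ p))) :=
    lipC_of_contDiffOn hΩ hth (hQc.sub hc₀c).contDiffOn
  have l4 : LipC Ω (fun x => (τ x + hh x) * (Qr b μ V r x
      - (lam + δ * V x + (p - 1) * ‖ξ₀‖ ^ p)) * Real.exp (-p * V x)) :=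
    lipC_of_contDiffOn hΩ l5 hNc.contDiffOn
  have hsum : XF p v (fun x => τ x * (Qr b μ V r x * Real.exp (-p * V x)))
      + XF p v (fun x => hh x * (Qr b μ V r x * Real.exp (-p * V x))) =
      XF p v (fun x => (τ x + hh x) * (Qr b μ V r x
        - (lam + δ * V x + (p - 1) * ‖ξ₀‖ ^ p)) * Real.exp (-p * V x))
      + XF p v (fun x => (τ x + hh x) * ((lam + δ * V x + (p - 1) * ‖ξ₀‖ ^ p)
      * Real.exp (-p * V x))) := by
    rw [← XF_add hp hΩ hv.cvx l1 l2, ← XF_add hp hΩ hv.cvx l4 l3]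
    congr 1
    funext x
    ring
  have hpos2 : 0 ≤ XF p v (fun x => hh x * (Qr b μ V r x * Real.exp (-p * V x))) := by
    refine XF_nonneg hp hΩ hv.cvx l2 fun x => ?_
    by_cases hx : x ∈ Kg
    · exact mul_nonneg (hh0 x) (mul_nonneg (hQ0 x (hKgs hx)) (Real.exp_pos _).le)
    · rw [hhz x hx, zero_mul]
  have hthle : ∀ x, τ x + hh x ≤ G x := fun x => by have := hhle x; linarith
  have hth0 : ∀ x, 0 ≤ τ x + hh x := fun x => add_nonneg (hτ0 x) (hh0 x)
  have hthgm : ∀ x, τ x + hh x ≤ gm := fun x => (hthle x).trans (hGgm x)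
  have hthz : ∀ x, x ∉ Kg → τ x + hh x = 0 := fun x hx => by rw [hτz x hx, hhz x hx, add_zero]
  have h3 : XF p v (fun x => (τ x + hh x) * ((lam + δ * V x + (p - 1) * ‖ξ₀‖ ^ p)
      * Real.exp (-p * V x))) ≤ Cb * (gm * M₃) := by
    refine (le_abs_self _).trans (hCb v hv.cvx hMv _ l3 ?_ _ fun x => ?_)
    · apply closure_minimal _ hKgc.isClosed
      intro x hx
      by_contra hcon
      apply hx
      simp only [hthz x hcon, zero_mul]
    · by_cases hx : x ∈ Kg
      · rw [abs_mul, abs_of_nonneg (hth0 x)]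
        exact mul_le_mul (hthgm x) (hM₃ x hx) (abs_nonneg _) hgm0
      · rw [hthz x hx, zero_mul, abs_zero]
        exact mul_nonneg hgm0 hM₃0
  have h4 : XF p v (fun x => (τ x + hh x) * (Qr b μ V r x
        - (lam + δ * V x + (p - 1) * ‖ξ₀‖ ^ p)) * Real.exp (-p * V x)) ≤
      Mc * gm * C₁ + Mc * gm * M₀ * (∫ x, χ₁ x) + ε' := by
    have happ := hCr (fun x => (τ x + hh x) * (Qr b μ V r x
      - (lam + δ * V x + (p - 1) * ‖ξ₀‖ ^ p))) l5 ?_ (ε * Br) (by positivity) ?_
    · have efun : (fun x => (τ x + hh x) * (Qr b μ V r x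
          - (lam + δ * V x + (p - 1) * ‖ξ₀‖ ^ p)) * Real.exp (-p * v x)) =
          (fun x => (τ x + hh x) * (Qr b μ V r x
          - (lam + δ * V x + (p - 1) * ‖ξ₀‖ ^ p)) * Real.exp (-p * V x)) := by
        funext x
        by_cases hx : x ∈ Kg
        · rw [hVv x (hKgU₂ hx)]
        · rw [hthz x hx, zero_mul, zero_mul, zero_mul]
      rw [efun] at happ
      have hint : ∫ x, (lam + δ * v x + (p - 1) * ‖gradient v x‖ ^ p) *
          ((τ x + hh x) * (Qr b μ V r x
          - (lam + δ * V x + (p - 1) * ‖ξ₀‖ ^ p)) * Real.exp (-p * v x)) ≤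
          Mc * gm * C₁ + Mc * gm * M₀ * (∫ x, χ₁ x) := by
        have hi : Integrable (fun x => Mc * gm * (χ₁ x * Qr b μ V r x)
            + Mc * gm * M₀ * χ₁ x) :=
          (((hχ.mul hQc.continuous).integrable_of_hasCompactSupport hχc.mul_right).const_mul
            _).add (hχi.const_mul _)
        calc _ ≤ ∫ x, (Mc * gm * (χ₁ x * Qr b μ V r x) + Mc * gm * M₀ * χ₁ x) := by
              refine integral_le_of_le' hi (fun x => ?_) (fun x => ?_)
              · by_cases hx : x ∈ Kg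
                · have e1 : χ₁ x = 1 := hχ1 x (hKgU hx)
                  rw [e1, one_mul, mul_one]
                  have q0 := hQ0 x (hKgs hx)
                  have a1 := hMc x hx
                  have a2 := hM₀ x hx
                  have a3 := hthgm x
                  have a4 := hth0 x
                  have e2 : (lam + δ * v x + (p - 1) * ‖gradient v x‖ ^ p) *
                      ((τ x + hh x) * (Qr b μ V r x
                      - (lam + δ * V x + (p - 1) * ‖ξ₀‖ ^ p)) * Real.exp (-p * v x)) =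
                      ((lam + δ * v x + (p - 1) * ‖gradient v x‖ ^ p) * Real.exp (-p * v x)
                        * (τ x + hh x)) * Qr b μ V r x
                      - ((lam + δ * v x + (p - 1) * ‖gradient v x‖ ^ p) * Real.exp (-p * v x)
                        * (τ x + hh x)) * (lam + δ * V x + (p - 1) * ‖ξ₀‖ ^ p) := by ring
                  rw [e2]
                  have a5 : |(lam + δ * v x + (p - 1) * ‖gradient v x‖ ^ p)
                      * Real.exp (-p * v x) * (τ x + hh x)| ≤ Mc * gm := by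
                    rw [abs_mul, abs_of_nonneg a4]
                    exact mul_le_mul a1 a3 a4 hMc0
                  have a6 : ((lam + δ * v x + (p - 1) * ‖gradient v x‖ ^ p)
                      * Real.exp (-p * v x) * (τ x + hh x)) * Qr b μ V r x ≤
                      Mc * gm * Qr b μ V r x :=
                    mul_le_mul_of_nonneg_right ((le_abs_self _).trans a5) q0
                  have a7 : |((lam + δ * v x + (p - 1) * ‖gradient v x‖ ^ p)
                      * Real.exp (-p * v x) * (τ x + hh x))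
                        * (lam + δ * V x + (p - 1) * ‖ξ₀‖ ^ p)| ≤ Mc * gm * M₀ := by
                    rw [abs_mul]
                    exact mul_le_mul a5 a2 (abs_nonneg _) (by positivity)
                  have a8 := neg_le_of_abs_le a7
                  linarith
                · rw [hthz x hx, zero_mul, zero_mul, mul_zero]
                  have := hχQ x
                  have := hχ0 x
                  positivity
              · have := hχQ x
                have := hχ0 x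
                positivity
          _ = Mc * gm * (∫ x, χ₁ x * Qr b μ V r x) + Mc * gm * M₀ * ∫ x, χ₁ x := by
              have hi1 : Integrable (fun x => χ₁ x * Qr b μ V r x) :=
                (hχ.mul hQc.continuous).integrable_of_hasCompactSupport hχc.mul_right
              rw [integral_add (hi1.const_mul _) (hχi.const_mul _), integral_const_mul,
                integral_const_mul]
          _ ≤ _ := by
              have := mul_le_mul_of_nonneg_left (hC₁ r hr) (show 0 ≤ Mc * gm by positivity)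
              linarith
      have herr : Cr * (ε * Br) ≤ ε' := by
        have e1 : Cr * (ε * Br) ≤ |Cr| * (ε * Br) :=
          mul_le_mul_of_nonneg_right (le_abs_self _) (by positivity)
        have e2 : ε * (|Cr| * Br + 1) = ε' := div_mul_cancel₀ _ hden.ne'
        nlinarith
      linarith
    · apply closure_minimal _ hKgc.isClosed
      intro x hx
      by_contra hcon
      apply hx
      simp only [hthz x hcon, zero_mul]
    · intro x hxΩ
      simp only
      by_cases hx : x ∈ Kg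
      · rw [← hQeq x (hKgs hx), ← hVv x (hKgU₂ hx), ← sub_mul, abs_mul]
        have e1 : G x = g (gradient v x) := by simp only [hGdef, hxΩ, if_true]
        rw [← e1]
        refine mul_le_mul ?_ (hBr x hx) (abs_nonneg _) hε.le
        rw [abs_le]
        constructor
        · have := hhge x; linarith
        · have := hthle x; linarith
      · have e1 : g (gradient v x) = 0 := by
          have := hGz x hx
          simp only [hGdef, hxΩ, if_true] at this
          exact this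
        rw [hthz x hx, e1, zero_mul, zero_mul, sub_zero, abs_zero]
        positivity
  linarith

theorem shift_le {F : E → ℝ} (hF : Continuous F) (h0 : ∀ x, 0 ≤ F x) (x₁ h : E) (R : ℝ) :
    ∫ x in closedBall x₁ R, F (x + h) ≤ ∫ x in closedBall x₁ (R + ‖h‖), F x := by
  have hm : ∀ R, MeasurableSet (closedBall x₁ R) := fun R => isClosed_closedBall.measurableSet
  rw [← integral_indicator (hm _), ← integral_indicator (hm _)]
  have e : ∫ x, (closedBall x₁ R).indicator (fun x => F (x + h)) x =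
      ∫ y, (closedBall x₁ R).indicator (fun x => F (x + h)) (y - h) :=
    (integral_sub_right_eq_self _ h).symm
  rw [e]
  refine integral_mono_of_nonneg (Eventually.of_forall fun y => ?_) ?_
    (Eventually.of_forall fun y => ?_)
  · exact indicator_nonneg (fun _ _ => h0 _) _
  · exact (integrable_indicator_iff (hm _)).2
      (hF.continuousOn.integrableOn_compact (isCompact_closedBall _ _))
  · by_cases hy : y - h ∈ closedBall x₁ R
    · have hy' : y ∈ closedBall x₁ (R + ‖h‖) := by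
        simp only [mem_closedBall, dist_eq_norm] at hy ⊢
        calc ‖y - x₁‖ = ‖(y - h - x₁) + h‖ := by congr 1; abel
          _ ≤ ‖y - h - x₁‖ + ‖h‖ := norm_add_le _ _
          _ ≤ R + ‖h‖ := by linarith
      simp only [indicator_of_mem hy, indicator_of_mem hy', sub_add_cancel, le_refl]
    · simp only [indicator_of_notMem hy]
      exact indicator_nonneg (fun _ _ => h0 _) _

theorem telescope {G : E → E} (hG : Continuous G) {x₁ : E} {ρ C r₁ : ℝ} (hρ : 0 < ρ)
    (hr₁ : 0 < r₁) (hC : 0 ≤ C)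
    (hb : ∀ r ∈ Ioo (0:ℝ) r₁, ∀ i, ∫ x in closedBall x₁ ρ, ‖G (x + r • b i) - G x‖ ^ 2 ≤
      C * r ^ 2) :
    ∃ C' : ℝ, 0 ≤ C' ∧ ∃ r₂ > 0, ∀ r ∈ Ioo (0:ℝ) r₂, ∀ e : E, ‖e‖ ≤ 1 →
      ∫ x in closedBall x₁ (ρ / 2), ‖G (x + r • e) - G x‖ ^ 2 ≤ C' * r ^ 2 := by
  classical
  have hcF : ∀ h : E, Continuous (fun x => ‖G (x + h) - G x‖ ^ 2) := fun h => by fun_prop
  have hi : ∀ (h : E) (R : ℝ), IntegrableOn (fun x => ‖G (x + h) - G x‖ ^ 2) (closedBall x₁ R) :=
    fun h R => (hcF h).continuousOn.integrableOn_compact (isCompact_closedBall _ _)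
  have hmono : ∀ (h : E) (R R' : ℝ), R ≤ R' → ∫ x in closedBall x₁ R, ‖G (x + h) - G x‖ ^ 2 ≤
      ∫ x in closedBall x₁ R', ‖G (x + h) - G x‖ ^ 2 := by
    intro h R R' hRR
    exact setIntegral_mono_set (hi h R') (Eventually.of_forall fun x => by positivity)
      (Eventually.of_forall (closedBall_subset_closedBall hRR))
  have hadd : ∀ (h k : E) (R : ℝ), ∫ x in closedBall x₁ R, ‖G (x + (h + k)) - G x‖ ^ 2 ≤
      2 * (∫ x in closedBall x₁ R, ‖G (x + h) - G x‖ ^ 2)
        + 2 * ∫ x in closedBall x₁ (R + ‖h‖), ‖G (x + k) - G x‖ ^ 2 := by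
    intro h k R
    have h1 := shift_le (hcF k) (fun x => by positivity) x₁ h R
    have hck : Continuous (fun x => ‖G (x + h + k) - G (x + h)‖ ^ 2) := by fun_prop
    have hik : IntegrableOn (fun x => ‖G (x + h + k) - G (x + h)‖ ^ 2) (closedBall x₁ R) :=
      hck.continuousOn.integrableOn_compact (isCompact_closedBall _ _)
    have h2 : ∫ x in closedBall x₁ R, ‖G (x + (h + k)) - G x‖ ^ 2 ≤
        ∫ x in closedBall x₁ R, (2 * ‖G (x + h) - G x‖ ^ 2
          + 2 * ‖G (x + h + k) - G (x + h)‖ ^ 2) := by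
      refine setIntegral_mono (hi _ _) (((hi h R).const_mul 2).add (hik.const_mul 2)) fun x => ?_
      have e : G (x + (h + k)) - G x = (G (x + h + k) - G (x + h)) + (G (x + h) - G x) := by
        rw [add_assoc]; abel
      simp only [e]
      have := norm_add_le (G (x + h + k) - G (x + h)) (G (x + h) - G x)
      nlinarith [sq_nonneg (‖G (x + h + k) - G (x + h)‖ - ‖G (x + h) - G x‖), norm_nonneg
        (G (x + h + k) - G (x + h)), norm_nonneg (G (x + h) - G x), norm_nonneg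
        ((G (x + h + k) - G (x + h)) + (G (x + h) - G x))]
    rw [integral_add ((hi h R).const_mul 2) (hik.const_mul 2), integral_const_mul,
      integral_const_mul] at h2
    linarith
  have hbase : ∀ (t : ℝ) i (R : ℝ), |t| < r₁ → R + |t| ≤ ρ →
      ∫ x in closedBall x₁ R, ‖G (x + t • b i) - G x‖ ^ 2 ≤ C * t ^ 2 := by
    intro t i R ht hR
    rcases lt_trichotomy t 0 with h | h | h
    · have ha : |t| = -t := abs_of_neg h
      have h1 := shift_le (hcF ((-t) • b i)) (fun x => by positivity) x₁ (t • b i) R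
      have e1 : ∀ x, x + t • b i + -t • b i = x := fun x => by
        rw [neg_smul, add_neg_cancel_right]
      simp only [e1] at h1
      have e2 : ‖t • b i‖ = |t| := by rw [norm_smul, b.norm_eq_one, mul_one, Real.norm_eq_abs]
      rw [e2] at h1
      have h2 := hmono ((-t) • b i) (R + |t|) ρ hR
      have h3 := hb (-t) ⟨by linarith, by rw [← ha]; exact ht⟩ i
      have e3 : ∀ x, ‖G (x + t • b i) - G x‖ ^ 2 = ‖G x - G (x + t • b i)‖ ^ 2 := fun x => by
        rw [norm_sub_rev]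
      simp only [e3]
      calc _ ≤ _ := h1
        _ ≤ _ := h2
        _ ≤ C * (-t) ^ 2 := h3
        _ = C * t ^ 2 := by ring
    · subst h
      simp
    · have ha : |t| = t := abs_of_pos h
      calc _ ≤ _ := hmono (t • b i) R ρ (by linarith)
        _ ≤ C * t ^ 2 := hb t ⟨h, by rw [← ha]; exact ht⟩ i
  have hind : ∀ T : Finset (Fin (Module.finrank ℝ E)), ∃ CT : ℝ, 0 ≤ CT ∧
      ∀ (t : Fin (Module.finrank ℝ E) → ℝ) (r : ℝ), 0 ≤ r → r < r₁ → (∀ i, |t i| ≤ r) →
      ∀ R : ℝ, R + (T.card + 1) * r ≤ ρ →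
      ∫ x in closedBall x₁ R, ‖G (x + ∑ i ∈ T, t i • b i) - G x‖ ^ 2 ≤ CT * r ^ 2 := by
    intro T
    induction T using Finset.induction_on with
    | empty => exact ⟨0, le_rfl, fun t r _ _ _ R _ => by simp⟩
    | insert j T hj ih =>
      obtain ⟨CT, hCT0, hCT⟩ := ih
      refine ⟨2 * C + 2 * CT, by positivity, fun t r hr0 hr ht R hR => ?_⟩
      rw [Finset.card_insert_of_notMem hj] at hR
      push_cast at hR
      rw [Finset.sum_insert hj]
      have hn : ‖t j • b j‖ = |t j| := by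
        rw [norm_smul, b.norm_eq_one, mul_one, Real.norm_eq_abs]
      have hTc : (0:ℝ) ≤ T.card := Nat.cast_nonneg _
      have h1 := hadd (t j • b j) (∑ i ∈ T, t i • b i) R
      have h2 := hbase (t j) j R ((ht j).trans_lt hr) (by
        have := ht j
        nlinarith)
      have h3 := hCT t r hr0 hr ht (R + ‖t j • b j‖) (by
        rw [hn]
        have := ht j
        nlinarith)
      have h4 : C * t j ^ 2 ≤ C * r ^ 2 := by
        apply mul_le_mul_of_nonneg_left _ hC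
        rw [← sq_abs]
        exact pow_le_pow_left₀ (abs_nonneg _) (ht j) 2
      nlinarith
  obtain ⟨CT, hCT0, hCT⟩ := hind Finset.univ
  set d : ℝ := ((Finset.univ : Finset (Fin (Module.finrank ℝ E))).card : ℝ) with hd
  have hd0 : 0 ≤ d := Nat.cast_nonneg _
  refine ⟨CT, hCT0, min r₁ (ρ / (2 * (d + 1))), lt_min hr₁ (by positivity), fun r hr e he => ?_⟩
  have hr1 : r < r₁ := hr.2.trans_le (min_le_left _ _)
  have hr2 : r < ρ / (2 * (d + 1)) := hr.2.trans_le (min_le_right _ _)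
  have hes : r • e = ∑ i, (r * ⟪b i, e⟫) • b i := by
    conv_lhs => rw [← b.sum_repr' e, Finset.smul_sum]
    refine Finset.sum_congr rfl fun i _ => ?_
    rw [smul_smul]
  rw [hes]
  refine hCT (fun i => r * ⟪b i, e⟫) r hr.1.le hr1 (fun i => ?_) (ρ / 2) ?_
  · rw [abs_mul, abs_of_pos hr.1]
    have : |⟪b i, e⟫| ≤ 1 := by
      calc |⟪b i, e⟫| ≤ ‖b i‖ * ‖e‖ := abs_real_inner_le_norm _ _
        _ ≤ 1 := by rw [b.norm_eq_one, one_mul]; exact he
    have h0 := hr.1.le
    nlinarith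
  · rw [lt_div_iff₀ (by positivity)] at hr2
    linarith

theorem gradient_eqOn {v V : E → ℝ} {U : Set E} (hU : IsOpen U) (h : ∀ x ∈ U, V x = v x) {x : E}
    (hx : x ∈ U) : gradient V x = gradient v x := by
  apply Filter.EventuallyEq.gradient_eq
  filter_upwards [hU.mem_nhds hx] with y hy
  exact h y hy

theorem gradient_continuousOn {Ω : Set E} (hΩ : IsOpen Ω) {v : E → ℝ} (hv : ContDiffOn ℝ 1 v Ω) :
    ContinuousOn (gradient v) Ω := by
  have h1 : ContinuousOn (fderiv ℝ v) Ω := hv.continuousOn_fderiv_of_isOpen hΩ (by norm_num)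
  exact (InnerProductSpace.toDual ℝ E).symm.continuous.comp_continuousOn h1

theorem contDiff_cutoff {Ω : Set E} (hΩ : IsOpen Ω) {v χ : E → ℝ} (hv : ContDiffOn ℝ 1 v Ω)
    (hχ : ContDiff ℝ (⊤ : ℕ∞) χ) (hs : tsupport χ ⊆ Ω) : ContDiff ℝ 1 (fun x => χ x * v x) := by
  rw [contDiff_iff_contDiffAt]
  intro x
  by_cases hx : x ∈ Ω
  · have h1 : ContDiffAt ℝ 1 χ x := (hχ.of_le (by exact_mod_cast le_top)).contDiffAt
    exact h1.mul (hv.contDiffAt (hΩ.mem_nhds hx))
  · have h1 : (fun x => χ x * v x) =ᶠ[𝓝 x] fun _ => (0:ℝ) := by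
      have : x ∈ (tsupport χ)ᶜ := fun h => hx (hs h)
      filter_upwards [(isClosed_tsupport χ).isOpen_compl.mem_nhds this] with y hy
      rw [image_eq_zero_of_notMem_tsupport hy, zero_mul]
    exact contDiffAt_const.congr_of_eventuallyEq h1

theorem XF_congr {p : ℝ} {v V F : E → ℝ} {U : Set E} (hU : IsOpen U)
    (h : ∀ x ∈ U, V x = v x) (hF : tsupport F ⊆ U) : XF p v F = XF p V F := by
  unfold XF
  congr 1
  refine integral_congr_ae (Eventually.of_forall fun x => ?_)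
  simp only
  by_cases hx : x ∈ U
  · rw [gradient_eqOn hU h hx]
  · have h1 : F =ᶠ[𝓝 x] fun _ => (0:ℝ) := by
      have : x ∈ (tsupport F)ᶜ := fun h => hx (hF h)
      filter_upwards [(isClosed_tsupport F).isOpen_compl.mem_nhds this] with y hy
      exact image_eq_zero_of_notMem_tsupport hy
    rw [h1.gradient_eq, gradient_fun_const, inner_zero_right, inner_zero_right]

theorem int_Qr_le (hμ : ∀ i, 0 < μ i) {V χ : E → ℝ} (hV : Continuous V) (hVc : HasCompactSupport V)
    (hχ : ContDiff ℝ 2 χ) (hc : HasCompactSupport χ) :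
    ∃ C : ℝ, ∀ r > (0:ℝ), ∫ x, χ x * Qr b μ V r x ≤ C := by
  obtain ⟨C, hC0, hC⟩ := int_second_diff hV hVc hχ hc
  refine ⟨∑ i, μ i * C, fun r hr => ?_⟩
  have e : ∀ x, χ x * Qr b μ V r x = ∑ i, μ i / r ^ 2 *
      (χ x * (V (x + r • b i) + V (x - r • b i) - 2 * V x)) := by
    intro x
    unfold Qr
    rw [Finset.mul_sum]
    refine Finset.sum_congr rfl fun i _ => ?_
    ring
  simp only [e]
  rw [integral_finsetSum]
  · refine Finset.sum_le_sum fun i _ => ?_
    rw [integral_const_mul]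
    have h1 := (le_abs_self _).trans (hC (r • b i))
    have hn : ‖r • b i‖ = r := by
      rw [norm_smul, b.norm_eq_one, mul_one, Real.norm_eq_abs, abs_of_pos hr]
    rw [hn] at h1
    calc μ i / r ^ 2 * ∫ x, χ x * (V (x + r • b i) + V (x - r • b i) - 2 * V x)
        ≤ μ i / r ^ 2 * (C * r ^ 2) := mul_le_mul_of_nonneg_left h1
          (div_nonneg (hμ i).le (sq_nonneg _))
      _ = μ i * C := by field_simp
  · intro i _
    refine Integrable.const_mul ?_ _
    have hcV : Continuous (fun x => V (x + r • b i) + V (x - r • b i) - 2 * V x) := by fun_prop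
    exact (hχ.continuous.mul hcV).integrable_of_hasCompactSupport hc.mul_right

theorem local_est {p lam δ : ℝ} (hp : 1 < p) {Ω : Set E} {v : E → ℝ}
    (hv : Reg Ω v) (h : ELQ p lam δ Ω v) {x₁ : E} (hx₁ : x₁ ∈ Ω) (hne : gradient v x₁ ≠ 0) :
    ∃ ρ > 0, ∃ C : ℝ, 0 ≤ C ∧ ∃ r₁ > 0, ∀ r ∈ Ioo (0:ℝ) r₁, ∀ e : E, ‖e‖ ≤ 1 →
      ∫⁻ x in closedBall x₁ ρ, ENNReal.ofReal (‖gradient v (x + r • e) - gradient v x‖ ^ 2) ≤
        ENNReal.ofReal (C * r ^ 2) := by
  have hΩ := hv.isOpen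
  obtain ⟨b, μ, hb⟩ := exists_adapted p hne
  have hμ := adapted_pos hp hne hb
  obtain ⟨s₁, hs₁, c, hc, hmono⟩ := aP_strong_mono hp hne
  obtain ⟨s₀, hs₀, r₀, hr₀, hEL⟩ := h _ hne b μ hb
  set ξ₀ := gradient v x₁ with hξ₀
  set s := min s₀ s₁ with hs
  have hs0 : 0 < s := lt_min hs₀ hs₁
  have hgrad := gradient_continuousOn hΩ hv.c1
  -- the bump g
  set g : E → ℝ := fun ξ => 2 * max 0 (1 - ‖ξ - ξ₀‖ / s) with hgdef
  have hgc : Continuous g := by
    simp only [hgdef]
    fun_prop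
  have hg0 : ∀ ξ, 0 ≤ g ξ := fun ξ => mul_nonneg (by norm_num) (le_max_left _ _)
  have hgs : tsupport g ⊆ closedBall ξ₀ s := by
    apply closure_minimal _ isClosed_closedBall
    intro ξ hξ
    by_contra hcon
    apply hξ
    rw [mem_closedBall, dist_eq_norm, not_le] at hcon
    have : 1 - ‖ξ - ξ₀‖ / s < 0 := by
      rw [sub_neg, one_lt_div hs0]; exact hcon
    simp only [hgdef, max_eq_left this.le, mul_zero]
  have hg1 : ∀ ξ, ‖ξ - ξ₀‖ ≤ s / 2 → 1 ≤ g ξ := by
    intro ξ hξ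
    have h1 : ‖ξ - ξ₀‖ / s ≤ 1 / 2 := by
      rw [div_le_div_iff₀ hs0 (by norm_num)]; linarith
    have h2 : 1 - ‖ξ - ξ₀‖ / s ≤ max 0 (1 - ‖ξ - ξ₀‖ / s) := le_max_right _ _
    simp only [hgdef]
    linarith
  have hEL' : ∀ r ∈ Ioo (0:ℝ) r₀, ELHolds p lam δ Ω v (fun x => g (gradient v x) *
      (Qr b μ v r x - (lam + δ * v x + (p - 1) * ‖ξ₀‖ ^ p))) := fun r hr =>
    hEL r hr g hgc hg0 (hgs.trans (closedBall_subset_closedBall (min_le_left _ _)))
  -- compact sets and cutoffs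
  have hKgc : IsCompact {x | x ∈ Ω ∧ gradient v x ∈ closedBall ξ₀ s} :=
    hv.isCompact_grad (isCompact_closedBall ξ₀ s)
  obtain ⟨χ₁, hχ₁, hχ₁c, hχ₁s, hχ₁b, U₁, hU₁, hKU₁, hχ₁1⟩ := exists_cutoff hΩ hKgc
    (fun x hx => hx.1)
  obtain ⟨χ₂, hχ₂, hχ₂c, hχ₂s, hχ₂b, U₂, hU₂, hKU₂, hχ₂1⟩ := exists_cutoff hΩ hχ₁c hχ₁s
  have hU₂Ω : U₂ ⊆ Ω := fun x hx => hχ₂s (subset_tsupport _ (by
    rw [Function.mem_support, hχ₂1 x hx]; exact one_ne_zero))
  set V : E → ℝ := fun x => χ₂ x * v x with hVdef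
  have hV : ContDiff ℝ 1 V := contDiff_cutoff hΩ hv.c1 hχ₂ hχ₂s
  have hVc : HasCompactSupport V := hχ₂c.mul_right
  have hVv : ∀ x ∈ U₂, V x = v x := fun x hx => by simp only [hVdef, hχ₂1 x hx, one_mul]
  obtain ⟨δ', hδ', hthick⟩ := hχ₁c.exists_cthickening_subset_open hU₂ hKU₂
  -- the ball
  have hnhd : {x | x ∈ Ω ∧ ‖gradient v x - ξ₀‖ ≤ s / 2} ∈ 𝓝 x₁ := by
    have h1 : ContinuousAt (fun x => ‖gradient v x - ξ₀‖) x₁ :=
      ((hgrad.continuousAt (hΩ.mem_nhds hx₁)).sub continuousAt_const).norm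
    have h2 : ∀ᶠ x in 𝓝 x₁, ‖gradient v x - ξ₀‖ < s / 2 := by
      apply h1.eventually_lt continuousAt_const
      rw [← hξ₀, sub_self, norm_zero]; positivity
    filter_upwards [hΩ.mem_nhds hx₁, h2] with x hxΩ hx
    exact ⟨hxΩ, hx.le⟩
  obtain ⟨ρ', hρ', hball'⟩ := nhds_basis_closedBall.mem_iff.1 hnhd
  set ρ := ρ' / 3 with hρdef
  have hρ : 0 < ρ := by positivity
  have hball3 : ∀ x ∈ closedBall x₁ (3 * ρ), x ∈ Ω ∧ ‖gradient v x - ξ₀‖ ≤ s / 2 := by
    intro x hx
    apply hball'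
    have : 3 * ρ = ρ' := by rw [hρdef]; ring
    rw [← this]; exact hx
  have hball2 : ∀ x ∈ closedBall x₁ (3 * ρ), gradient v x ∈ closedBall ξ₀ s := by
    intro x hx
    rw [mem_closedBall, dist_eq_norm]
    linarith [(hball3 x hx).2]
  have hbU₁ : ∀ x ∈ closedBall x₁ (3 * ρ), x ∈ U₁ := fun x hx =>
    hKU₁ ⟨(hball3 x hx).1, hball2 x hx⟩
  have hU₁s : U₁ ⊆ tsupport χ₁ := fun x hx => subset_tsupport _ (by
    rw [Function.mem_support, hχ₁1 x hx]; exact one_ne_zero)
  have hbU₂ : ∀ x ∈ closedBall x₁ (3 * ρ), x ∈ U₂ := fun x hx => hKU₂ (hU₁s (hbU₁ x hx))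
  have hgV : ∀ x ∈ closedBall x₁ (3 * ρ), gradient V x = gradient v x := fun x hx =>
    gradient_eqOn hU₂ hVv (hbU₂ x hx)
  have h23 : closedBall x₁ (2 * ρ) ⊆ closedBall x₁ (3 * ρ) :=
    closedBall_subset_closedBall (by linarith)
  -- the cutoff at x₁
  let η : ContDiffBump x₁ := ⟨ρ, 2 * ρ, hρ, by linarith⟩
  have hη : ContDiff ℝ 1 (η : E → ℝ) := η.contDiff
  have hηs : tsupport (η : E → ℝ) = closedBall x₁ (2 * ρ) := η.tsupport_eq
  have hηc : HasCompactSupport (η : E → ℝ) := η.hasCompactSupport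
  have hη1 : ∀ x ∈ closedBall x₁ ρ, η x = 1 := fun x hx => η.one_of_mem_closedBall hx
  have hη0 : ∀ x, 0 ≤ η x := fun x => η.nonneg
  have hηle : ∀ x, η x ≤ 1 := fun x => η.le_one
  set r₃ := min r₀ δ' with hr₃def
  have hr₃ : 0 < r₃ := lt_min hr₀ hδ'
  have hshift : ∀ x ∈ tsupport χ₁, ∀ h : E, ‖h‖ < r₃ → x + h ∈ U₂ := by
    intro x hx h hh
    apply hthick
    apply closedBall_subset_cthickening hx
    rw [mem_closedBall, dist_eq_norm, add_sub_cancel_left]
    exact hh.le.trans (min_le_right _ _)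
  have hχ₁2 : ContDiff ℝ 2 χ₁ := by exact_mod_cast contDiff_infty.1 hχ₁ 2
  obtain ⟨C₁, hC₁⟩ := int_Qr_le (b := b) hμ hV.continuous hVc hχ₁2 hχ₁c
  have hC₁' : ∀ r ∈ Ioo (0:ℝ) r₃, ∫ x, χ₁ x * Qr b μ V r x ≤ C₁ := fun r hr => hC₁ r hr.1
  have hχQ : ∀ r ∈ Ioo (0:ℝ) r₃, ∀ x, 0 ≤ χ₁ x * Qr b μ V r x := by
    intro r hr x
    by_cases hx : x ∈ tsupport χ₁
    · have hn : ∀ i, ‖r • b i‖ < r₃ := fun i => by
        rw [norm_smul, b.norm_eq_one, mul_one, Real.norm_eq_abs, abs_of_pos hr.1]; exact hr.2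
      have hplus : ∀ i, x + r • b i ∈ U₂ := fun i => hshift x hx _ (hn i)
      have hminus : ∀ i, x - r • b i ∈ U₂ := fun i => by
        rw [sub_eq_add_neg]; exact hshift x hx _ (by rw [norm_neg]; exact hn i)
      have e : Qr b μ V r x = Qr b μ v r x := by
        unfold Qr
        refine Finset.sum_congr rfl fun i _ => ?_
        rw [hVv _ (hplus i), hVv _ (hminus i), hVv _ (hKU₂ hx)]
      rw [e]
      exact mul_nonneg (hχ₁b x).1 (Qr_nonneg hμ hv.cvx (fun i => hU₂Ω (hplus i))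
        (fun i => hU₂Ω (hminus i)))
    · rw [image_eq_zero_of_notMem_tsupport hx, zero_mul]
  -- upper bound
  have hτs : tsupport (fun x => η x ^ 2) ⊆ closedBall x₁ (2 * ρ) := by
    apply closure_minimal _ isClosed_closedBall
    intro x hx
    by_contra hcon
    apply hx
    rw [← hηs] at hcon
    simp only [image_eq_zero_of_notMem_tsupport hcon, ne_eq, OfNat.ofNat_ne_zero,
      not_false_eq_true, zero_pow]
  obtain ⟨C₂, hC₂⟩ := upper_bound (τ := fun x => η x ^ 2) hp hv hμ hgc hg0 hgs hEL' hV hU₂Ω hVv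
    hχ₁.continuous hχ₁c hKU₂ (fun x => (hχ₁b x).1) hU₁ (fun x hx hx' => hKU₁ ⟨hx, hx'⟩) hχ₁1
    (min_le_left r₀ δ') hshift hC₁' (hη.pow 2)
    ((isCompact_closedBall x₁ (2 * ρ)).of_isClosed_subset (isClosed_tsupport _) hτs)
    (fun x => sq_nonneg _) (fun x hx => (hball3 x (h23 (hτs hx))).1) (by
      intro x hxΩ
      by_cases hx : x ∈ closedBall x₁ (2 * ρ)
      · have h1 := hg1 _ (hball3 x (h23 hx)).2
        have h2 : η x ^ 2 ≤ 1 := pow_le_one₀ (hη0 x) (hηle x)
        linarith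
      · rw [← hηs] at hx
        rw [image_eq_zero_of_notMem_tsupport hx]
        simp only [ne_eq, OfNat.ofNat_ne_zero, not_false_eq_true, zero_pow]
        exact hg0 _)
  -- lower bound
  set σ : E → ℝ := fun x => η x * Real.exp (-p * V x / 2) with hσdef
  have hσ : ContDiff ℝ 1 σ := hη.mul ((contDiff_const.mul hV).div_const _).exp
  have hσs : tsupport σ ⊆ closedBall x₁ (2 * ρ) := by
    apply closure_minimal _ isClosed_closedBall
    intro x hx
    by_contra hcon
    apply hx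
    rw [← hηs] at hcon
    simp only [hσdef, image_eq_zero_of_notMem_tsupport hcon, zero_mul]
  have hσc : HasCompactSupport σ :=
    (isCompact_closedBall x₁ (2 * ρ)).of_isClosed_subset (isClosed_tsupport _) hσs
  have hσ0 : ∀ x, 0 ≤ σ x := fun x => mul_nonneg (hη0 x) (Real.exp_pos _).le
  obtain ⟨C₃, hC₃⟩ := lower_bound (b := b) (χ₁ := χ₁) hp hV hμ hσ hσc hσ0 hρ hc hσs
    (fun x hx => by rw [hgV x hx]; exact hball2 x hx)
    (fun ξ hξ η' hη' => hmono ξ (closedBall_subset_closedBall (min_le_right s₀ s₁) hξ) η'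
      (closedBall_subset_closedBall (min_le_right s₀ s₁) hη'))
    hχ₁.continuous hχ₁c (fun x hx => hχ₁1 x (hbU₁ x (h23 hx))) hχQ hC₁'
  have hXeq : ∀ r, XF p V (fun x => σ x ^ 2 * Qr b μ V r x) =
      XF p v (fun x => η x ^ 2 * (Qr b μ V r x * Real.exp (-p * V x))) := by
    intro r
    have e : (fun x => σ x ^ 2 * Qr b μ V r x) =
        (fun x => η x ^ 2 * (Qr b μ V r x * Real.exp (-p * V x))) := by
      funext x
      simp only [hσdef]
      rw [mul_pow, ← Real.exp_nat_mul]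
      push_cast
      rw [show (2:ℝ) * (-p * V x / 2) = -p * V x by ring]
      ring
    rw [← e]
    refine (XF_congr hU₂ hVv ?_).symm
    refine (closure_minimal ?_ isClosed_closedBall : tsupport _ ⊆ closedBall x₁ (2 * ρ)).trans
      (fun x hx => hbU₂ x (h23 hx))
    intro x hx
    by_contra hcon
    apply hx
    have : σ x = 0 := image_eq_zero_of_notMem_tsupport (fun h => hcon (hσs h))
    simp only [this, ne_eq, OfNat.ofNat_ne_zero, not_false_eq_true, zero_pow, zero_mul]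
  -- lower bound of σ on the small ball
  obtain ⟨m₀, hm₀, hm₀le⟩ : ∃ m₀ > 0, ∀ x ∈ closedBall x₁ ρ, m₀ ≤ σ x ^ 2 := by
    obtain ⟨Mv, hMv⟩ := (isCompact_closedBall x₁ ρ).exists_bound_of_continuousOn
      hV.continuous.continuousOn
    refine ⟨Real.exp (-p * Mv), Real.exp_pos _, fun x hx => ?_⟩
    simp only [hσdef]
    rw [hη1 x hx, one_mul, ← Real.exp_nat_mul]
    apply Real.exp_le_exp.2
    push_cast
    have h1 : V x ≤ Mv := (le_abs_self _).trans (hMv x hx)
    nlinarith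
  have hG := continuous_gradient hV
  have hbi : ∀ r ∈ Ioo (0:ℝ) (min r₃ ρ), ∀ i, ∫ x in closedBall x₁ ρ,
      ‖gradient V (x + r • b i) - gradient V x‖ ^ 2 ≤
      (∑ j, |C₃ + C₂| / (μ j * (c / 4) * m₀)) * r ^ 2 := by
    intro r hr i
    have hr3 : r ∈ Ioo (0:ℝ) r₃ := ⟨hr.1, hr.2.trans_le (min_le_left _ _)⟩
    have hrρ : r < ρ := hr.2.trans_le (min_le_right _ _)
    have h1 := hC₃ r hr3 hrρ i
    rw [hXeq] at h1
    have h2 := hC₂ r hr3
    have hcF : Continuous (fun x => ‖gradient V (x + r • b i) - gradient V x‖ ^ 2) := by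
      have g1 : Continuous (fun x => gradient V (x + r • b i)) := hG.comp (by fun_prop)
      exact (g1.sub hG).norm.pow 2
    have hiF : IntegrableOn (fun x => ‖gradient V (x + r • b i) - gradient V x‖ ^ 2)
        (closedBall x₁ ρ) := hcF.continuousOn.integrableOn_compact (isCompact_closedBall _ _)
    have hiσ : Integrable (fun x => σ x ^ 2 * ‖gradient V (x + r • b i) - gradient V x‖ ^ 2) := by
      refine ((hσ.continuous.pow 2).mul hcF).integrable_of_hasCompactSupport ?_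
      exact hσc.mono' (fun x hx => subset_tsupport _ (fun h0 => hx (by
        simp only [Pi.mul_apply, Pi.pow_apply, h0]
        simp)))
    have h3 : m₀ * ∫ x in closedBall x₁ ρ, ‖gradient V (x + r • b i) - gradient V x‖ ^ 2 ≤
        ∫ x, σ x ^ 2 * ‖gradient V (x + r • b i) - gradient V x‖ ^ 2 := by
      rw [← integral_const_mul]
      calc _ ≤ ∫ x in closedBall x₁ ρ, σ x ^ 2 * ‖gradient V (x + r • b i) - gradient V x‖ ^ 2 := by
            refine setIntegral_mono_on (hiF.const_mul _) hiσ.integrableOn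
              isClosed_closedBall.measurableSet fun x hx => ?_
            exact mul_le_mul_of_nonneg_right (hm₀le x hx) (by positivity)
        _ ≤ _ := setIntegral_le_integral hiσ (Eventually.of_forall fun x => by positivity)
    have hμi := hμ i
    have h4 : μ i * (c / 4) * (m₀ * ∫ x in closedBall x₁ ρ,
        ‖gradient V (x + r • b i) - gradient V x‖ ^ 2) ≤ r ^ 2 * |C₃ + C₂| := by
      calc _ ≤ μ i * (c / 4) * ∫ x, σ x ^ 2 * ‖gradient V (x + r • b i) - gradient V x‖ ^ 2 :=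
            mul_le_mul_of_nonneg_left h3 (by positivity)
        _ ≤ _ := h1
        _ ≤ r ^ 2 * |C₃ + C₂| := by
            apply mul_le_mul_of_nonneg_left _ (by positivity)
            exact le_trans (by linarith) (le_abs_self _)
    have h5 : ∫ x in closedBall x₁ ρ, ‖gradient V (x + r • b i) - gradient V x‖ ^ 2 ≤
        |C₃ + C₂| / (μ i * (c / 4) * m₀) * r ^ 2 := by
      rw [div_mul_eq_mul_div, le_div_iff₀ (by positivity)]
      linarith
    refine h5.trans (mul_le_mul_of_nonneg_right ?_ (by positivity))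
    exact Finset.single_le_sum (f := fun j => |C₃ + C₂| / (μ j * (c / 4) * m₀))
      (fun j _ => by have := hμ j; positivity) (Finset.mem_univ i)
  obtain ⟨C', hC'0, r₂, hr₂, hC'⟩ := telescope (b := b) hG hρ (lt_min hr₃ hρ)
    (Finset.sum_nonneg fun j _ => by have := hμ j; positivity) hbi
  refine ⟨ρ / 2, by positivity, C', hC'0, min r₂ ρ, lt_min hr₂ hρ, fun r hr e he => ?_⟩
  have hrr : r ∈ Ioo (0:ℝ) r₂ := ⟨hr.1, hr.2.trans_le (min_le_left _ _)⟩
  have hrρ : r < ρ := hr.2.trans_le (min_le_right _ _)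
  have hmain := hC' r hrr e he
  have hcF : Continuous (fun x => ‖gradient V (x + r • e) - gradient V x‖ ^ 2) := by
    have g1 : Continuous (fun x => gradient V (x + r • e)) := hG.comp (by fun_prop)
    exact (g1.sub hG).norm.pow 2
  have hiF : IntegrableOn (fun x => ‖gradient V (x + r • e) - gradient V x‖ ^ 2)
      (closedBall x₁ (ρ / 2)) := hcF.continuousOn.integrableOn_compact (isCompact_closedBall _ _)
  have e1 : ∫⁻ x in closedBall x₁ (ρ / 2),
      ENNReal.ofReal (‖gradient v (x + r • e) - gradient v x‖ ^ 2) =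
      ∫⁻ x in closedBall x₁ (ρ / 2),
      ENNReal.ofReal (‖gradient V (x + r • e) - gradient V x‖ ^ 2) := by
    refine setLIntegral_congr_fun isClosed_closedBall.measurableSet fun x hx => ?_
    have hx1 : x ∈ closedBall x₁ (3 * ρ) := closedBall_subset_closedBall (by linarith) hx
    have hx2 : x + r • e ∈ closedBall x₁ (3 * ρ) := by
      rw [mem_closedBall, dist_eq_norm] at hx ⊢
      have hre : ‖r • e‖ ≤ r := by
        rw [norm_smul, Real.norm_eq_abs, abs_of_pos hr.1]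
        nlinarith [hr.1]
      calc ‖x + r • e - x₁‖ = ‖(x - x₁) + r • e‖ := by congr 1; abel
        _ ≤ ‖x - x₁‖ + ‖r • e‖ := norm_add_le _ _
        _ ≤ 3 * ρ := by linarith
    rw [hgV _ hx1, hgV _ hx2]
  rw [e1, ← ofReal_integral_eq_lintegral_ofReal hiF (Eventually.of_forall fun x => by positivity)]
  exact ENNReal.ofReal_le_ofReal hmain

end W22

theorem w22_of_elq {p lam δ : ℝ} (hp : 1 < p) (hδ : 0 ≤ δ) {Ω : Set E} {v : E → ℝ}
    (hv : Reg Ω v) (h : ELQ p lam δ Ω v) : W22loc Ω v := by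
  intro K hK hKΩ hne
  obtain ⟨δ', hδ', hthick⟩ := hK.exists_cthickening_subset_open hv.isOpen hKΩ
  have key : ∃ C : ℝ, 0 ≤ C ∧ ∃ r₁ > 0, ∀ r ∈ Ioo (0:ℝ) r₁, ∀ e : E, ‖e‖ ≤ 1 →
      ∫⁻ x in K, ENNReal.ofReal (‖gradient v (x + r • e) - gradient v x‖ ^ 2) ≤
        ENNReal.ofReal (C * r ^ 2) := by
    refine hK.induction_on (p := fun S => ∃ C : ℝ, 0 ≤ C ∧ ∃ r₁ > 0, ∀ r ∈ Ioo (0:ℝ) r₁,
      ∀ e : E, ‖e‖ ≤ 1 →
      ∫⁻ x in S, ENNReal.ofReal (‖gradient v (x + r • e) - gradient v x‖ ^ 2) ≤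
        ENNReal.ofReal (C * r ^ 2)) ?_ ?_ ?_ ?_
    · exact ⟨0, le_rfl, 1, one_pos, fun r _ e _ => by simp⟩
    · rintro s t hst ⟨C, hC, r₁, hr₁, hh⟩
      exact ⟨C, hC, r₁, hr₁, fun r hr e he => (lintegral_mono_set hst).trans (hh r hr e he)⟩
    · rintro s t ⟨C, hC, r₁, hr₁, hh⟩ ⟨C', hC', r₁', hr₁', hh'⟩
      refine ⟨C + C', add_nonneg hC hC', min r₁ r₁', lt_min hr₁ hr₁', fun r hr e he => ?_⟩
      refine (lintegral_union_le _ s t).trans ?_
      rw [add_mul, ENNReal.ofReal_add (by positivity) (by positivity)]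
      exact add_le_add (hh r ⟨hr.1, hr.2.trans_le (min_le_left _ _)⟩ e he)
        (hh' r ⟨hr.1, hr.2.trans_le (min_le_right _ _)⟩ e he)
    · intro x hx
      obtain ⟨ρ, hρ, C, hC, r₁, hr₁, hh⟩ := W22.local_est hp hv h (hKΩ hx) (hne x hx)
      exact ⟨closedBall x ρ, mem_nhdsWithin_of_mem_nhds (closedBall_mem_nhds x hρ), C, hC, r₁,
        hr₁, hh⟩
  obtain ⟨C, hC, r₁, hr₁, hh⟩ := key
  refine ⟨C, min r₁ δ', lt_min hr₁ hδ', fun r hr e he => ⟨fun x hx => ?_, ?_⟩⟩
  · apply hthick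
    apply closedBall_subset_cthickening hx
    rw [mem_closedBall, dist_eq_norm, add_sub_cancel_left, norm_smul, Real.norm_eq_abs,
      abs_of_pos hr.1]
    have : r < δ' := hr.2.trans_le (min_le_right _ _)
    nlinarith [hr.1]
  · have h1 := hh r ⟨hr.1, hr.2.trans_le (min_le_left _ _)⟩ e he
    by_cases hi : AEStronglyMeasurable (fun x => ‖gradient v (x + r • e) - gradient v x‖ ^ 2)
        (volume.restrict K)
    · rw [integral_eq_lintegral_of_nonneg_ae (Eventually.of_forall fun x => by positivity) hi]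
      calc _ ≤ (ENNReal.ofReal (C * r ^ 2)).toReal := ENNReal.toReal_mono ENNReal.ofReal_ne_top h1
        _ = C * r ^ 2 := ENNReal.toReal_ofReal (by positivity)
    · rw [integral_undef (fun hcon => hi hcon.aestronglyMeasurable)]
      positivity

end PLap
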