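import Pool.Agent.Lib.MP_a627f3_an.VecA
import Pool.Agent.Lib.MP_a627f3_an.Lip
import Pool.Agent.Lib.MP_a627f3_an.ConvB
import Pool.Agent.Lib.MP_a627f3_an.ConvD
import Pool.Agent.Lib.MP_a627f3_an.Pos

open MeasureTheory Set Filter Topology Metric
open scoped RealInnerProductSpace ENNReal NNReal

namespace PLap

variable {E : Type*} [NormedAddCommGroup E] [InnerProductSpace ℝ E] [FiniteDimensional ℝ E]
  [CompleteSpace E] [MeasurableSpace E] [BorelSpace E]

namespace ELaux

/-- The difference of two convex functions which agree off a compact set is Lipschitz. -/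
theorem lipC_diff {Ω : Set E} (hΩ : IsOpen Ω) {v w : E → ℝ} (hv : ConvexOn ℝ Ω v)
    (hw : ConvexOn ℝ Ω w) {K : Set E} (hK : IsCompact K) (hKΩ : K ⊆ Ω)
    (hwv : ∀ x ∈ Ω \ K, w x = v x) :
    LipC Ω (K.indicator fun x => w x - v x) ∧ tsupport (K.indicator fun x => w x - v x) ⊆ K := by
  have hts : tsupport (K.indicator fun x => w x - v x) ⊆ K :=
    closure_minimal support_indicator_subset hK.isClosed
  refine ⟨⟨?_, ?_, hts.trans hKΩ⟩, hts⟩
  · obtain ⟨δ, hδ, hδΩ⟩ := hK.exists_cthickening_subset_open hΩ hKΩ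
    have hK2 : IsCompact (cthickening δ K) := hK.cthickening
    have hloc : LocallyLipschitzOn Ω (fun x => w x - v x) := by
      have h1 := hw.locallyLipschitzOn hΩ
      have h2 := hv.locallyLipschitzOn hΩ
      intro x hx
      obtain ⟨K1, t1, ht1, hl1⟩ := h1 hx
      obtain ⟨K2, t2, ht2, hl2⟩ := h2 hx
      exact ⟨K1 + K2, t1 ∩ t2, Filter.inter_mem ht1 ht2,
        (hl1.mono inter_subset_left).sub (hl2.mono inter_subset_right)⟩
    obtain ⟨L, hL⟩ := (hloc.mono hδΩ).exists_lipschitzOnWith_of_compact hK2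
    have hcont : ContinuousOn (fun x => w x - v x) (cthickening δ K) := hL.continuousOn
    obtain ⟨M, hM⟩ := hK2.exists_bound_of_continuousOn hcont
    have hM0 : ∀ x ∈ cthickening δ K, |w x - v x| ≤ |M| := fun x hx => (hM x hx).trans (le_abs_self M)
    refine ⟨Real.toNNReal (L + |M| / δ), LipschitzWith.of_dist_le_mul ?_⟩
    have hcoe : ((Real.toNNReal (L + |M| / δ) : ℝ≥0) : ℝ) = L + |M| / δ :=
      Real.coe_toNNReal _ (by positivity)
    -- the key estimate for `x ∈ K`
    have key : ∀ x ∈ K, ∀ y, |K.indicator (fun x => w x - v x) x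
        - K.indicator (fun x => w x - v x) y| ≤ (L + |M| / δ) * dist x y := by
      intro x hx y
      by_cases hy : y ∈ cthickening δ K
      · have hy' : K.indicator (fun x => w x - v x) y = w y - v y := by
          by_cases hyK : y ∈ K
          · rw [indicator_of_mem hyK]
          · rw [indicator_of_notMem hyK, hwv y ⟨hδΩ hy, hyK⟩, sub_self]
        rw [hy', indicator_of_mem hx]
        have h := hL.dist_le_mul x (self_subset_cthickening K hx) y hy
        rw [Real.dist_eq] at h
        refine h.trans ?_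
        have : 0 ≤ |M| / δ * dist x y := by positivity
        nlinarith
      · have hyK : y ∉ K := fun h => hy (self_subset_cthickening K h)
        rw [indicator_of_mem hx, indicator_of_notMem hyK, sub_zero]
        have hd : δ < dist x y := by
          by_contra hcon
          exact hy (mem_cthickening_of_dist_le y x δ K hx (by rw [dist_comm]; exact not_lt.mp hcon))
        have h1 := hM0 x (self_subset_cthickening K hx)
        have h2 : |M| ≤ |M| / δ * dist x y := by
          rw [div_mul_eq_mul_div, le_div_iff₀ hδ]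
          exact mul_le_mul_of_nonneg_left hd.le (abs_nonneg _)
        have h3 : 0 ≤ (L : ℝ) * dist x y := by positivity
        nlinarith
    intro x y
    rw [hcoe, Real.dist_eq]
    by_cases hx : x ∈ K
    · exact key x hx y
    · by_cases hy : y ∈ K
      · have := key y hy x
        rwa [abs_sub_comm, dist_comm] at this
      · rw [indicator_of_notMem hx, indicator_of_notMem hy, sub_self, abs_zero]
        positivity
  · exact HasCompactSupport.of_support_subset_isCompact hK support_indicator_subset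

theorem measurable_gradient (f : E → ℝ) : Measurable (gradient f) := by
  unfold gradient
  exact (InnerProductSpace.toDual ℝ E).symm.continuous.measurable.comp (measurable_fderiv ℝ f)

/-- a measurable function bounded on a compact set is integrable there -/
theorem integrableOn_bdd {K : Set E} (hK : IsCompact K) {f : E → ℝ}
    (hf : AEStronglyMeasurable f (volume.restrict K)) {C : ℝ} (hC : ∀ x ∈ K, |f x| ≤ C) :
    IntegrableOn f K := by
  have : IsFiniteMeasure (volume.restrict K) := isFiniteMeasure_restrict.2 hK.measure_lt_top.ne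
  exact Integrable.of_bound hf C ((ae_restrict_mem hK.measurableSet).mono fun x hx => hC x hx)

/-- `J(v) ≤ J(w)` localised. -/
theorem local_ineq {p lam δ : ℝ} (hp : 1 < p) (hδ : 0 ≤ δ) {Ω : Set E} {v : E → ℝ}
    (hv : Reg Ω v) (h0 : ∀ x ∈ Ω, 0 ≤ v x)
    (hfin : IntegrableOn (fun x => ‖gradient v x‖ ^ p * Real.exp (-p * v x)) Ω)
    {w : E → ℝ} {K : Set E} (hK : IsCompact K) (hKΩ : K ⊆ Ω)
    (hw : ConvexOn ℝ Ω w) (hwK : ∀ x ∈ Ω \ K, w x = v x)
    (hJ : Jf p lam δ Ω v ≤ Jf p lam δ Ω w) :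
    IntegrableOn (fun x => (‖gradient v x‖ ^ p - (lam + δ / p + δ * v x)) * Real.exp (-p * v x)) K ∧
    IntegrableOn (fun x => (‖gradient w x‖ ^ p - (lam + δ / p + δ * w x)) * Real.exp (-p * w x)) K ∧
    ∫ x in K, (‖gradient v x‖ ^ p - (lam + δ / p + δ * v x)) * Real.exp (-p * v x) ≤
    ∫ x in K, (‖gradient w x‖ ^ p - (lam + δ / p + δ * w x)) * Real.exp (-p * w x) := by
  have hΩ := hv.isOpen
  have hp0 : 0 < p := by linarith
  set G : (E → ℝ) → E → ℝ := fun u x =>
    (‖gradient u x‖ ^ p - (lam + δ / p + δ * u x)) * Real.exp (-p * u x) with hG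
  -- measurability
  have hmeas : ∀ u : E → ℝ, ConvexOn ℝ Ω u → AEMeasurable (G u) (volume.restrict Ω) := by
    intro u hu
    have h1 : AEMeasurable u (volume.restrict Ω) :=
      (hu.continuousOn hΩ).aemeasurable hΩ.measurableSet
    have h2 : AEMeasurable (fun x => ‖gradient u x‖) (volume.restrict Ω) :=
      (measurable_gradient u).norm.aemeasurable
    simp only [hG]
    exact ((h2.pow_const p).sub (by fun_prop)).mul (by fun_prop)
  -- integrability of `G u` on compact sets
  have hKint : ∀ u : E → ℝ, ConvexOn ℝ Ω u → IntegrableOn (G u) K := by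
    intro u hu
    obtain ⟨L, hL1, hL2⟩ := exists_lip_compact hΩ hu hK hKΩ
    have hL0 : ∀ x ∈ K, |G u x| ≤ (|L| ^ p + (|lam| + |δ / p| + |δ| * |L|)) * Real.exp (p * |L|) := by
      intro x hx
      simp only [hG]
      rw [abs_mul, abs_of_pos (Real.exp_pos _)]
      have hu1 : |u x| ≤ |L| := (hL2 x hx).trans (le_abs_self L)
      have e1 : |‖gradient u x‖ ^ p| ≤ |L| ^ p := by
        rw [abs_of_nonneg (by positivity)]
        exact Real.rpow_le_rpow (norm_nonneg _) ((hL1 x hx).trans (le_abs_self L)) hp0.le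
      have e2 : |lam + δ / p + δ * u x| ≤ |lam| + |δ / p| + |δ| * |L| := by
        refine (abs_add_le _ _).trans (add_le_add (abs_add_le _ _) ?_)
        rw [abs_mul]
        exact mul_le_mul_of_nonneg_left hu1 (abs_nonneg _)
      have e3 : Real.exp (-p * u x) ≤ Real.exp (p * |L|) := by
        apply Real.exp_le_exp.mpr
        have := neg_abs_le (u x)
        nlinarith
      exact mul_le_mul ((abs_sub _ _).trans (add_le_add e1 e2)) e3 (Real.exp_pos _).le (by positivity)
    exact integrableOn_bdd hK ((hmeas u hu).mono_measure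
      (Measure.restrict_mono_set _ hKΩ)).aestronglyMeasurable hL0
  -- integrability of `G v` on `Ω`
  have hvint : IntegrableOn (G v) Ω := by
    have h1 : IntegrableOn (fun x => (lam + δ / p + δ * v x) * Real.exp (-p * v x)) Ω := by
      have hfinm : volume Ω ≠ ⊤ := hv.bdd.measure_lt_top.ne
      have : IsFiniteMeasure (volume.restrict Ω) := isFiniteMeasure_restrict.2 hfinm
      have hcv : ContinuousOn v Ω := hv.cvx.continuousOn hΩ
      refine Integrable.of_bound (C := |lam + δ / p| + δ / p) ?_ ?_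
      · refine ContinuousOn.aestronglyMeasurable ?_ hΩ.measurableSet
        fun_prop
      · refine (ae_restrict_mem hΩ.measurableSet).mono fun x hx => ?_
        rw [Real.norm_eq_abs, abs_mul, abs_of_pos (Real.exp_pos _)]
        have hx0 := h0 x hx
        have e1 : Real.exp (-p * v x) ≤ 1 := Real.exp_le_one_iff.mpr (by nlinarith)
        have e2 : v x * Real.exp (-p * v x) ≤ 1 / p := by
          have h3 := Real.add_one_le_exp (p * v x)
          have h4 : Real.exp (-p * v x) * Real.exp (p * v x) = 1 := by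
            rw [← Real.exp_add]; simp
          rw [le_div_iff₀ hp0]
          have h5 := (Real.exp_pos (-p * v x)).le
          nlinarith
        have e3 : |lam + δ / p + δ * v x| ≤ |lam + δ / p| + δ * v x := by
          refine (abs_add_le _ _).trans ?_
          rw [abs_of_nonneg (mul_nonneg hδ hx0)]
        have h5 := (Real.exp_pos (-p * v x)).le
        calc |lam + δ / p + δ * v x| * Real.exp (-p * v x)
            ≤ (|lam + δ / p| + δ * v x) * Real.exp (-p * v x) := mul_le_mul_of_nonneg_right e3 h5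
          _ = |lam + δ / p| * Real.exp (-p * v x) + δ * (v x * Real.exp (-p * v x)) := by ring
          _ ≤ |lam + δ / p| * 1 + δ * (1 / p) := by
              refine add_le_add (mul_le_mul_of_nonneg_left e1 (abs_nonneg _))
                (mul_le_mul_of_nonneg_left e2 hδ)
          _ = |lam + δ / p| + δ / p := by ring
    refine (hfin.sub h1).congr (ae_of_all _ fun x => ?_)
    simp only [hG, Pi.sub_apply]
    ring
  have hint : ∀ u : E → ℝ, ConvexOn ℝ Ω u → (∀ x ∈ Ω \ K, u x = v x) → IntegrableOn (G u) Ω ∧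
      ∫ x in Ω, G u x = (∫ x in K, G u x) + ∫ x in Ω \ K, G v x := by
    intro u hu huv
    have hopen : IsOpen (Ω \ K) := hΩ.sdiff hK.isClosed
    have hGeq : ∀ x ∈ Ω \ K, G u x = G v x := by
      intro x hx
      have he : u =ᶠ[𝓝 x] v := Filter.mem_of_superset (hopen.mem_nhds hx) fun y hy => huv y hy
      simp only [hG]
      rw [he.gradient_eq, huv x hx]
    have hd : IntegrableOn (G u) (Ω \ K) :=
      (hvint.mono_set sdiff_subset).congr_fun (fun x hx => (hGeq x hx).symm) hopen.measurableSet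
    have hI : IntegrableOn (G u) Ω := by
      have : Ω = K ∪ (Ω \ K) := by rw [union_sdiff_cancel hKΩ]
      rw [this]
      exact (hKint u hu).union hd
    refine ⟨hI, ?_⟩
    have h1 := integral_inter_add_sdiff (t := K) hK.measurableSet hI
    rw [inter_eq_self_of_subset_right hKΩ] at h1
    rw [← h1]
    congr 1
    exact setIntegral_congr_fun hopen.measurableSet hGeq
  refine ⟨hKint v hv.cvx, hKint w hw, ?_⟩
  have hJ' : ∫ x in Ω, G v x ≤ ∫ x in Ω, G w x := hJ
  rw [(hint w hw hwK).2, (hint v hv.cvx fun _ _ => rfl).2] at hJ'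
  linarith

/-- The integrand of the right side of the main inequality. -/
noncomputable def Rm (p lam δ : ℝ) (v w : E → ℝ) (t : ℝ) (x : E) : ℝ :=
  p ^ 2 * ⟪aP p (gradient w x), gradient v x⟫ * ((w x - v x) / t) * Real.exp (-p * v x)
    + ‖gradient w x‖ ^ p * ((Real.exp (-p * w x) - Real.exp (-p * v x)) / t)
    - ((lam + δ / p + δ * w x) * Real.exp (-p * w x)
        - (lam + δ / p + δ * v x) * Real.exp (-p * v x)) / t

theorem lipC_g {p : ℝ} {Ω : Set E} {v : E → ℝ} (hv : Reg Ω v)
    {w : E → ℝ} {K : Set E} (hK : IsCompact K) (hKΩ : K ⊆ Ω)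
    (hw : ConvexOn ℝ Ω w) (hwK : ∀ x ∈ Ω \ K, w x = v x) (t : ℝ) :
    LipC Ω (fun x => K.indicator (fun x => w x - v x) x * (Real.exp (-p * v x) / t)) ∧
    tsupport (fun x => K.indicator (fun x => w x - v x) x * (Real.exp (-p * v x) / t)) ⊆ K := by
  obtain ⟨h1, h2⟩ := lipC_diff hv.isOpen hv.cvx hw hK hKΩ hwK
  have hc1 := hv.c1
  refine ⟨lipC_of_contDiffOn hv.isOpen h1 ?_, ?_⟩
  · exact ((contDiffOn_const.mul hc1).exp).div_const t
  · exact (tsupport_mul_subset_left).trans h2

theorem main_ineq {p lam δ : ℝ} (hp : 1 < p) (hδ : 0 ≤ δ) {Ω : Set E} {v : E → ℝ}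
    (hv : Reg Ω v) (h0 : ∀ x ∈ Ω, 0 ≤ v x)
    (hfin : IntegrableOn (fun x => ‖gradient v x‖ ^ p * Real.exp (-p * v x)) Ω)
    {w : E → ℝ} {K : Set E} (hK : IsCompact K) (hKΩ : K ⊆ Ω)
    (hw : ConvexOn ℝ Ω w) (hwK : ∀ x ∈ Ω \ K, w x = v x)
    (hJ : Jf p lam δ Ω v ≤ Jf p lam δ Ω w) {t : ℝ} (ht : 0 < t)
    (hRint : IntegrableOn (Rm p lam δ v w t) K) :
    p * XF p w (fun x => K.indicator (fun x => w x - v x) x * (Real.exp (-p * v x) / t)) ≤
      ∫ x in K, Rm p lam δ v w t x := by
  have hΩ := hv.isOpen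
  have hp0 : 0 < p := by linarith
  obtain ⟨hI1, hI2, hI3⟩ := local_ineq hp hδ hv h0 hfin hK hKΩ hw hwK hJ
  set g : E → ℝ := fun x => K.indicator (fun x => w x - v x) x * (Real.exp (-p * v x) / t) with hg
  obtain ⟨hgl, hgs⟩ := lipC_g (p := p) hv hK hKΩ hw hwK t
  rw [← hg] at hgl hgs
  have hXint := XF_integrable hp hΩ hw hgl
  -- the integral defining `XF` lives on `K`
  have hXK : ∫ x, ⟪aP p (gradient w x), gradient g x⟫ = ∫ x in K, ⟪aP p (gradient w x), gradient g x⟫ := by
    symm
    apply setIntegral_eq_integral_of_forall_compl_eq_zero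
    intro x hx
    have he : g =ᶠ[𝓝 x] fun _ => 0 := by
      have hop : IsOpen (Kᶜ) := hK.isClosed.isOpen_compl
      refine Filter.mem_of_superset (hop.mem_nhds hx) fun y hy => ?_
      simp only [hg, mem_ofPred_eq, indicator_of_notMem hy, zero_mul]
    rw [he.gradient_eq]
    simp
  -- pointwise inequality a.e. on `K`
  have hae : ∀ᵐ x ∂(volume.restrict K),
      (‖gradient w x‖ ^ p - (lam + δ / p + δ * w x)) * Real.exp (-p * w x)
      - (‖gradient v x‖ ^ p - (lam + δ / p + δ * v x)) * Real.exp (-p * v x)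
      ≤ p * t * ⟪aP p (gradient w x), gradient g x⟫ + t * Rm p lam δ v w t x := by
    have h1 : ∀ᵐ x ∂(volume.restrict K), x ∈ Ω → DifferentiableAt ℝ w x :=
      ae_restrict_of_ae (convex_ae_diff hΩ hw)
    filter_upwards [h1, ae_restrict_mem hK.measurableSet] with x hx hxK
    have hxΩ := hKΩ hxK
    have hdw := hx hxΩ
    have hdv : DifferentiableAt ℝ v x := (hv.c1.differentiableOn one_ne_zero).differentiableAt
      (hΩ.mem_nhds hxΩ)
    have hgrad : ⟪aP p (gradient w x), gradient g x⟫ =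
        (Real.exp (-p * v x) / t) * ⟪aP p (gradient w x), gradient w x - gradient v x⟫
        - p * ((w x - v x) / t) * Real.exp (-p * v x) * ⟪aP p (gradient w x), gradient v x⟫ := by
      have he : g =ᶠ[𝓝 x] fun y => (w y - v y) * (Real.exp (-p * v y) / t) := by
        refine Filter.mem_of_superset (hΩ.mem_nhds hxΩ) fun y hy => ?_
        simp only [hg, mem_ofPred_eq]
        by_cases hyK : y ∈ K
        · rw [indicator_of_mem hyK]
        · rw [indicator_of_notMem hyK, hwK y ⟨hy, hyK⟩, sub_self]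
      rw [he.gradient_eq]
      have hdE : HasFDerivAt (fun y => Real.exp (-p * v y) / t)
          ((Real.exp (-p * v x) / t) • ((-p) • fderiv ℝ v x)) x := by
        have h := ((hdv.hasFDerivAt.const_mul (-p)).exp).mul_const t⁻¹
        simp only [← div_eq_mul_inv] at h
        have h2 : (Real.exp (-p * v x) / t) • ((-p) • fderiv ℝ v x) =
            t⁻¹ • Real.exp (-p * v x) • -p • fderiv ℝ v x := by
          rw [div_eq_inv_mul, mul_smul]
        rw [h2]
        exact h
      have hprod := ((hdw.hasFDerivAt.sub hdv.hasFDerivAt).mul hdE)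
      have hfd : fderiv ℝ (fun y => (w y - v y) * (Real.exp (-p * v y) / t)) x = _ := hprod.fderiv
      rw [inner_gradient_right, hfd, inner_sub_right, inner_gradient_right, inner_gradient_right]
      simp only [_root_.add_apply, _root_.smul_apply, smul_eq_mul,
        _root_.sub_apply, conj_trivial, Pi.sub_apply]
      ring
    have hconv := aP_convex hp (gradient w x) (gradient v x)
    have hexp := (Real.exp_pos (-p * v x)).le
    have hsw : ⟪aP p (gradient w x), gradient v x - gradient w x⟫ =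
        - ⟪aP p (gradient w x), gradient w x - gradient v x⟫ := by
      rw [← inner_neg_right, neg_sub]
    rw [hsw] at hconv
    rw [hgrad]
    have key : (‖gradient w x‖ ^ p - ‖gradient v x‖ ^ p) * Real.exp (-p * v x) ≤
        p * ⟪aP p (gradient w x), gradient w x - gradient v x⟫ * Real.exp (-p * v x) :=
      mul_le_mul_of_nonneg_right (by linarith) hexp
    have hRm : t * Rm p lam δ v w t x =
        p ^ 2 * ⟪aP p (gradient w x), gradient v x⟫ * (w x - v x) * Real.exp (-p * v x)
        + ‖gradient w x‖ ^ p * (Real.exp (-p * w x) - Real.exp (-p * v x))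
        - ((lam + δ / p + δ * w x) * Real.exp (-p * w x)
          - (lam + δ / p + δ * v x) * Real.exp (-p * v x)) := by
      unfold Rm
      field_simp
    have h5 : p * t * ((Real.exp (-p * v x) / t) * ⟪aP p (gradient w x), gradient w x - gradient v x⟫
        - p * ((w x - v x) / t) * Real.exp (-p * v x) * ⟪aP p (gradient w x), gradient v x⟫) =
        p * ⟪aP p (gradient w x), gradient w x - gradient v x⟫ * Real.exp (-p * v x)
        - p ^ 2 * ⟪aP p (gradient w x), gradient v x⟫ * (w x - v x) * Real.exp (-p * v x) := by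
      field_simp
    rw [hRm, h5]
    linarith
  have hint := integral_mono_ae (hI2.sub hI1) ((hXint.integrableOn.const_mul (p * t)).add
    (hRint.const_mul t)) hae
  simp only [Pi.sub_apply, Pi.add_apply] at hint
  rw [integral_sub hI2 hI1, integral_add (hXint.integrableOn.const_mul (p * t)) (hRint.const_mul t),
    integral_const_mul, integral_const_mul, ← hXK] at hint
  have hXF : XF p w g = - ∫ x, ⟪aP p (gradient w x), gradient g x⟫ := rfl
  have h6 : 0 ≤ t * (∫ x in K, Rm p lam δ v w t x) - t * (p * XF p w g) := by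
    rw [hXF]
    nlinarith
  have h7 : 0 ≤ t * ((∫ x in K, Rm p lam δ v w t x) - (p * XF p w g)) := by linarith
  have := nonneg_of_mul_nonneg_right h7 ht
  linarith

theorem Rm_meas {p : ℝ} (hp : 1 < p) (lam δ : ℝ) {Ω : Set E} (hΩ : IsOpen Ω) {v w : E → ℝ}
    (hv : ConvexOn ℝ Ω v) (hw : ConvexOn ℝ Ω w) {K : Set E} (hKΩ : K ⊆ Ω) (t : ℝ) :
    AEStronglyMeasurable (Rm p lam δ v w t) (volume.restrict K) := by
  have h1 : AEMeasurable v (volume.restrict K) :=
    ((hv.continuousOn hΩ).aemeasurable hΩ.measurableSet).mono_measure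
      (Measure.restrict_mono_set _ hKΩ)
  have h2 : AEMeasurable w (volume.restrict K) :=
    ((hw.continuousOn hΩ).aemeasurable hΩ.measurableSet).mono_measure
      (Measure.restrict_mono_set _ hKΩ)
  have h3 : AEMeasurable (fun x => ‖gradient w x‖ ^ p) (volume.restrict K) :=
    ((measurable_gradient w).norm.pow_const p).aemeasurable
  have h4 : AEMeasurable (fun x => ⟪aP p (gradient w x), gradient v x⟫) (volume.restrict K) := by
    have h5 : Measurable (fun x => aP p (gradient w x)) :=
      (continuous_aP hp).measurable.comp (measurable_gradient w)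
    exact (h5.inner (measurable_gradient v)).aemeasurable
  refine AEMeasurable.aestronglyMeasurable ?_
  unfold Rm
  fun_prop

theorem exists_lip_real {A : ℝ → ℝ} (hA : ContDiff ℝ 1 A) (L : ℝ) :
    ∃ C : ℝ, 0 ≤ C ∧ ∀ s ∈ Icc (-L) L, ∀ r ∈ Icc (-L) L, |A s - A r| ≤ C * |s - r| := by
  obtain ⟨C, hC⟩ := (hA.locallyLipschitz.locallyLipschitzOn (s := Icc (-L) L)).exists_lipschitzOnWith_of_compact
    isCompact_Icc
  refine ⟨C, C.2, fun s hs r hr => ?_⟩
  have := hC.dist_le_mul s hs r hr
  rwa [Real.dist_eq, Real.dist_eq] at this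

theorem Rm_bound {p : ℝ} (hp : 1 < p) (lam δ L M : ℝ) (hL : 0 ≤ L) (hM : 0 ≤ M) :
    ∃ C : ℝ, ∀ (v w : E → ℝ) (t : ℝ) (x : E), 0 < t → ‖gradient w x‖ ≤ L → ‖gradient v x‖ ≤ L →
      |v x| ≤ L → |w x| ≤ L → |w x - v x| ≤ M * t → |Rm p lam δ v w t x| ≤ C := by
  have hp0 : 0 < p := by linarith
  obtain ⟨C1, hC1, h1⟩ := exists_lip_real (A := fun s => Real.exp (-p * s)) (by fun_prop) L
  obtain ⟨C2, hC2, h2⟩ := exists_lip_real
    (A := fun s => (lam + δ / p + δ * s) * Real.exp (-p * s)) (by fun_prop) L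
  refine ⟨p ^ 2 * (L ^ (p - 1) * L) * M * Real.exp (p * L) + L ^ p * (C1 * M) + C2 * M, ?_⟩
  intro v w t x ht hw hv hvL hwL hwv
  have hvI : v x ∈ Icc (-L) L := abs_le.mp hvL
  have hwI : w x ∈ Icc (-L) L := abs_le.mp hwL
  have e0 : |(w x - v x) / t| ≤ M := by
    rw [abs_div, abs_of_pos ht, div_le_iff₀ ht]
    exact hwv
  have e1 : |⟪aP p (gradient w x), gradient v x⟫| ≤ L ^ (p - 1) * L := by
    refine (abs_real_inner_le_norm _ _).trans ?_
    rw [norm_aP hp]
    exact mul_le_mul (Real.rpow_le_rpow (norm_nonneg _) hw (by linarith)) hv (norm_nonneg _)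
      (by positivity)
  have e2 : Real.exp (-p * v x) ≤ Real.exp (p * L) := by
    apply Real.exp_le_exp.mpr
    have := hvI.1
    nlinarith
  have e3 : |(Real.exp (-p * w x) - Real.exp (-p * v x)) / t| ≤ C1 * M := by
    rw [abs_div, abs_of_pos ht, div_le_iff₀ ht]
    refine (h1 _ hwI _ hvI).trans ?_
    rw [mul_assoc]
    exact mul_le_mul_of_nonneg_left hwv hC1
  have e4 : |((lam + δ / p + δ * w x) * Real.exp (-p * w x)
        - (lam + δ / p + δ * v x) * Real.exp (-p * v x)) / t| ≤ C2 * M := by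
    rw [abs_div, abs_of_pos ht, div_le_iff₀ ht]
    refine (h2 _ hwI _ hvI).trans ?_
    rw [mul_assoc]
    exact mul_le_mul_of_nonneg_left hwv hC2
  have e5 : |‖gradient w x‖ ^ p| ≤ L ^ p := by
    rw [abs_of_nonneg (by positivity)]
    exact Real.rpow_le_rpow (norm_nonneg _) hw hp0.le
  unfold Rm
  refine (abs_sub _ _).trans (add_le_add ((abs_add_le _ _).trans (add_le_add ?_ ?_)) e4)
  · rw [abs_mul, abs_mul, abs_mul, abs_of_pos (Real.exp_pos _), abs_of_nonneg (by positivity : (0:ℝ) ≤ p ^ 2)]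
    gcongr
  · rw [abs_mul]
    gcongr

theorem quot_tendsto {A : ℝ → ℝ} {A' s : ℝ} (hA : HasDerivAt A A' s) {r t : ℕ → ℝ} {y : ℝ}
    (hr : Tendsto r atTop (𝓝 s)) (hq : Tendsto (fun n => (r n - s) / t n) atTop (𝓝 y)) :
    Tendsto (fun n => (A (r n) - A s) / t n) atTop (𝓝 (A' * y)) := by
  have h := (hA.hasFDerivAt.hasFDerivWithinAt (s := univ)).lim (l := atTop) (c := fun n => (t n)⁻¹)
    (d := fun n => r n - s) (v := y) ?_ (by simp) ?_
  · simp only [add_sub_cancel, smul_eq_mul] at h
    refine (h.congr fun n => ?_).trans ?_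
    · rw [div_eq_inv_mul]
    · simp [mul_comm]
  · have := hr.sub_const s
    simpa using this
  · refine hq.congr fun n => ?_
    rw [smul_eq_mul, div_eq_inv_mul]

theorem Rm_tendsto {p : ℝ} (hp : 1 < p) (lam δ : ℝ) {v : E → ℝ} {w : ℕ → E → ℝ} {t : ℕ → ℝ} {x : E}
    {y : ℝ} (h1 : Tendsto (fun n => w n x) atTop (𝓝 (v x)))
    (h2 : Tendsto (fun n => (w n x - v x) / t n) atTop (𝓝 y))
    (h3 : Tendsto (fun n => gradient (w n) x) atTop (𝓝 (gradient v x))) :
    Tendsto (fun n => Rm p lam δ v (w n) (t n) x) atTop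
      (𝓝 (p * ((lam + δ * v x + (p - 1) * ‖gradient v x‖ ^ p) * (y * Real.exp (-p * v x))))) := by
  have hp0 : p ≠ 0 := by linarith
  have hA : HasDerivAt (fun s => Real.exp (-p * s)) (-p * Real.exp (-p * v x)) (v x) := by
    have := ((hasDerivAt_id (v x)).const_mul (-p)).exp
    simp only [id] at this
    convert this using 1
    ring
  have hB : HasDerivAt (fun s => (lam + δ / p + δ * s) * Real.exp (-p * s))
      (δ * Real.exp (-p * v x) + (lam + δ / p + δ * v x) * (-p * Real.exp (-p * v x))) (v x) := by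
    have h := (((hasDerivAt_id (v x)).const_mul δ).const_add (lam + δ / p)).mul hA
    simp only [id] at h
    have h' : HasDerivAt (fun s => (lam + δ / p + δ * s) * Real.exp (-p * s)) _ (v x) := h
    convert h' using 1
    ring
  have hqA := quot_tendsto hA h1 h2
  have hqB := quot_tendsto hB h1 h2
  have ha : Tendsto (fun n => ⟪aP p (gradient (w n) x), gradient v x⟫) atTop
      (𝓝 (‖gradient v x‖ ^ p)) := by
    rw [← inner_aP_self hp]
    exact (((continuous_aP hp).tendsto _).comp h3).inner tendsto_const_nhds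
  have hn : Tendsto (fun n => ‖gradient (w n) x‖ ^ p) atTop (𝓝 (‖gradient v x‖ ^ p)) :=
    h3.norm.rpow_const (Or.inr (by linarith))
  have := (((ha.const_mul (p ^ 2)).mul h2).mul_const (Real.exp (-p * v x))).add (hn.mul hqA)
    |>.sub hqB
  unfold Rm
  convert this using 2
  field_simp
  ring

theorem lipC_sub {Ω : Set E} {f g : E → ℝ} (hf : LipC Ω f) (hg : LipC Ω g) {K : Set E}
    (hK : IsCompact K) (hKΩ : K ⊆ Ω) (h1 : tsupport f ⊆ K) (h2 : tsupport g ⊆ K) :
    LipC Ω (fun x => f x - g x) ∧ tsupport (fun x => f x - g x) ⊆ K := by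
  have hs : Function.support (fun x => f x - g x) ⊆ K := by
    intro x hx
    by_contra hxK
    apply hx
    have e1 : f x = 0 := image_eq_zero_of_notMem_tsupport fun h => hxK (h1 h)
    have e2 : g x = 0 := image_eq_zero_of_notMem_tsupport fun h => hxK (h2 h)
    simp [e1, e2]
  have ht : tsupport (fun x => f x - g x) ⊆ K := closure_minimal hs hK.isClosed
  obtain ⟨K1, hK1⟩ := hf.1
  obtain ⟨K2, hK2⟩ := hg.1
  exact ⟨⟨⟨K1 + K2, hK1.sub hK2⟩, HasCompactSupport.of_support_subset_isCompact hK hs,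
    ht.trans hKΩ⟩, ht⟩

end ELaux

open ELaux in
theorem el_of_family {p lam δ : ℝ} (hp : 1 < p) (hδ : 0 ≤ δ) {Ω : Set E} {v : E → ℝ}
    (hv : Reg Ω v) (h0 : ∀ x ∈ Ω, 0 ≤ v x)
    (hfin : IntegrableOn (fun x => ‖gradient v x‖ ^ p * Real.exp (-p * v x)) Ω)
    {w : ℝ → E → ℝ} {K : Set E} (hK : IsCompact K) (hKΩ : K ⊆ Ω)
    (hw : ∀ᶠ t in 𝓝[>] (0:ℝ), ConvexOn ℝ Ω (w t)) (hwK : ∀ᶠ t in 𝓝[>] (0:ℝ), ∀ x ∈ Ω \ K, w t x = v x)
    {φ : E → ℝ} (hφ : ContinuousOn φ Ω)
    (hlim : ∀ ε > 0, ∀ᶠ t in 𝓝[>] (0:ℝ), ∀ x ∈ Ω, |w t x - v x - t * φ x| ≤ ε * t)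
    (hJ : ∀ᶠ t in 𝓝[>] (0:ℝ), Jf p lam δ Ω v ≤ Jf p lam δ Ω (w t)) :
    ELHolds p lam δ Ω v φ := by
  intro K' hK' hK'Ω
  have hΩ := hv.isOpen
  have hp0 : 0 < p := by linarith
  have hKK : IsCompact (K ∪ K') := hK.union hK'
  have hKKΩ : K ∪ K' ⊆ Ω := union_subset hKΩ hK'Ω
  obtain ⟨d, hd, hdΩ⟩ := hKK.exists_cthickening_subset_open hΩ hKKΩ
  have hK2 : IsCompact (cthickening d (K ∪ K')) := hKK.cthickening
  have hcv : ContinuousOn v Ω := hv.cvx.continuousOn hΩ
  obtain ⟨M1, hM1⟩ := hK2.exists_bound_of_continuousOn (hcv.mono hdΩ)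
  obtain ⟨M2, hM2⟩ := hK2.exists_bound_of_continuousOn (hφ.mono hdΩ)
  set M0 : ℝ := max |M1| |M2| with hM0
  have hM00 : 0 ≤ M0 := (abs_nonneg _).trans (le_max_left _ _)
  have hvM : ∀ x ∈ cthickening d (K ∪ K'), |v x| ≤ M0 := fun x hx =>
    (hM1 x hx).trans ((le_abs_self _).trans (le_max_left _ _))
  have hφM : ∀ x ∈ cthickening d (K ∪ K'), |φ x| ≤ M0 := fun x hx =>
    (hM2 x hx).trans ((le_abs_self _).trans (le_max_right _ _))
  set M : ℝ := M0 + (M0 + 1) with hM
  have hM' : 0 ≤ M := by positivity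
  -- the sequence
  obtain ⟨s, hs⟩ := exists_seq_tendsto (𝓝[>] (0:ℝ))
  have hle1 : ∀ᶠ t in 𝓝[>] (0:ℝ), 0 < t ∧ t ≤ 1 := by
    have : Ioc (0:ℝ) 1 ∈ 𝓝[>] (0:ℝ) := Ioc_mem_nhdsGT one_pos
    exact this
  obtain ⟨N, hN⟩ := eventually_atTop.mp (hs.eventually (hw.and (hwK.and (hJ.and
    ((hlim 1 one_pos).and hle1)))))
  set t : ℕ → ℝ := fun n => s (n + N) with ht
  have htt : Tendsto t atTop (𝓝[>] (0:ℝ)) := hs.comp (tendsto_add_atTop_nat N)
  have ht0 : Tendsto t atTop (𝓝 0) := htt.mono_right nhdsWithin_le_nhds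
  have hP : ∀ n, ConvexOn ℝ Ω (w (t n)) ∧ (∀ x ∈ Ω \ K, w (t n) x = v x) ∧
      Jf p lam δ Ω v ≤ Jf p lam δ Ω (w (t n)) ∧
      (∀ x ∈ Ω, |w (t n) x - v x - t n * φ x| ≤ 1 * t n) ∧ 0 < t n ∧ t n ≤ 1 :=
    fun n => hN (n + N) (Nat.le_add_left N n)
  have hdiff : ∀ n, ∀ x ∈ Ω, |w (t n) x - v x| ≤ (|φ x| + 1) * t n := by
    intro n x hx
    obtain ⟨-, -, -, h4, h5, -⟩ := hP n
    have h6 := h4 x hx
    calc |w (t n) x - v x| = |(w (t n) x - v x - t n * φ x) + t n * φ x| := by ring_nf
      _ ≤ |w (t n) x - v x - t n * φ x| + |t n * φ x| := abs_add_le _ _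
      _ ≤ 1 * t n + t n * |φ x| := by
          rw [abs_mul, abs_of_pos h5]
          linarith
      _ = _ := by ring
  have hwM : ∀ n, ∀ x ∈ cthickening d (K ∪ K'), |w (t n) x| ≤ M := by
    intro n x hx
    obtain ⟨-, -, -, -, h5, h6⟩ := hP n
    have h7 := hdiff n x (hdΩ hx)
    have h8 := hvM x hx
    have h9 := hφM x hx
    calc |w (t n) x| = |(w (t n) x - v x) + v x| := by ring_nf
      _ ≤ |w (t n) x - v x| + |v x| := abs_add_le _ _
      _ ≤ (|φ x| + 1) * t n + M0 := add_le_add h7 h8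
      _ ≤ (M0 + 1) * 1 + M0 := by gcongr
      _ = M := by rw [hM]; ring
  have hball : ∀ x ∈ K ∪ K', closedBall x d ⊆ cthickening d (K ∪ K') := fun x hx =>
    closedBall_subset_cthickening hx d
  have hgw : ∀ n, ∀ x ∈ K ∪ K', ‖gradient (w (t n)) x‖ ≤ 2 * M / d := fun n x hx =>
    gradient_norm_le (hP n).1 hd ((hball x hx).trans hdΩ) fun y hy => hwM n y (hball x hx hy)
  have hgv : ∀ x ∈ K ∪ K', ‖gradient v x‖ ≤ 2 * M / d := fun x hx =>
    gradient_norm_le hv.cvx hd ((hball x hx).trans hdΩ) fun y hy =>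
      (hvM y (hball x hx hy)).trans (by rw [hM]; linarith)
  set L : ℝ := max (2 * M / d) M with hL
  have hL0 : 0 ≤ L := hM'.trans (le_max_right _ _)
  have hsub : ∀ x ∈ K ∪ K', x ∈ cthickening d (K ∪ K') := fun x hx => self_subset_cthickening _ hx
  -- dominated convergence
  obtain ⟨CR, hCR⟩ := Rm_bound (E := E) hp lam δ L (M0 + 1) hL0 (by positivity)
  have hRb : ∀ n, ∀ x ∈ K, |Rm p lam δ v (w (t n)) (t n) x| ≤ CR := by
    intro n x hx
    have hx' : x ∈ K ∪ K' := Or.inl hx
    obtain ⟨-, -, -, -, h5, h6⟩ := hP n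
    refine hCR v (w (t n)) (t n) x h5 ((hgw n x hx').trans (le_max_left _ _))
      ((hgv x hx').trans (le_max_left _ _)) ((hvM x (hsub x hx')).trans ?_)
      ((hwM n x (hsub x hx')).trans (le_max_right _ _)) ((hdiff n x (hKΩ hx)).trans ?_)
    · refine le_trans ?_ (le_max_right _ _)
      rw [hM]; linarith
    · have := hφM x (hsub x hx')
      gcongr
  have hRint : ∀ n, IntegrableOn (Rm p lam δ v (w (t n)) (t n)) K := fun n =>
    integrableOn_bdd hK (Rm_meas hp lam δ hΩ hv.cvx (hP n).1 hKΩ (t n)) (hRb n)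
  have hq : ∀ x ∈ Ω, Tendsto (fun n => (w (t n) x - v x) / t n) atTop (𝓝 (φ x)) := by
    intro x hx
    rw [Metric.tendsto_atTop]
    intro ε hε
    obtain ⟨N', hN'⟩ := eventually_atTop.mp (htt.eventually (hlim (ε / 2) (half_pos hε)))
    refine ⟨N', fun n hn => ?_⟩
    have h1 := hN' n hn x hx
    have h5 := (hP n).2.2.2.2.1
    rw [Real.dist_eq]
    have : (w (t n) x - v x) / t n - φ x = (w (t n) x - v x - t n * φ x) / t n := by
      field_simp
    rw [this, abs_div, abs_of_pos h5, div_lt_iff₀ h5]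
    calc _ ≤ ε / 2 * t n := h1
      _ < ε * t n := by
          have : ε / 2 < ε := half_lt_self hε
          exact mul_lt_mul_of_pos_right this h5
  have hwv : ∀ x ∈ Ω, Tendsto (fun n => w (t n) x) atTop (𝓝 (v x)) := by
    intro x hx
    have h1 : Tendsto (fun n => (|φ x| + 1) * t n) atTop (𝓝 0) := by
      simpa using ht0.const_mul (|φ x| + 1)
    have h2 := squeeze_zero_norm (f := fun n => w (t n) x - v x)
      (fun n => by rw [Real.norm_eq_abs]; exact hdiff n x hx) h1
    simpa using h2.add_const (v x)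
  have hlimR : Tendsto (fun n => ∫ x in K, Rm p lam δ v (w (t n)) (t n) x) atTop
      (𝓝 (∫ x in K, p * ((lam + δ * v x + (p - 1) * ‖gradient v x‖ ^ p) *
        (φ x * Real.exp (-p * v x))))) := by
    refine tendsto_integral_of_dominated_convergence (fun _ => CR) (fun n => (hRint n).1)
      ?_ (fun n => ?_) ?_
    · have : IsFiniteMeasure ((volume : Measure E).restrict K) :=
        isFiniteMeasure_restrict.2 hK.measure_lt_top.ne
      exact integrable_const CR
    · exact (ae_restrict_mem hK.measurableSet).mono fun x hx => hRb n x hx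
    · have h1 : ∀ᵐ x ∂(volume.restrict K), ∀ n, x ∈ Ω → DifferentiableAt ℝ (w (t n)) x :=
        ae_restrict_of_ae (ae_all_iff.2 fun n => convex_ae_diff hΩ (hP n).1)
      filter_upwards [h1, ae_restrict_mem hK.measurableSet] with x hx hxK
      have hxΩ := hKΩ hxK
      refine Rm_tendsto hp lam δ (hwv x hxΩ) (hq x hxΩ) ?_
      refine gradient_tendsto (w := fun n => w (t n)) hΩ (Eventually.of_forall fun n => (hP n).1)
        hv.cvx hwv hxΩ ?_ (Eventually.of_forall fun n => hx n hxΩ)
      exact (hv.c1.differentiableOn one_ne_zero).differentiableAt (hΩ.mem_nhds hxΩ)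
  -- constants
  obtain ⟨C1, hC1⟩ := XF_bound hp hΩ hKK hK2
    ((self_subset_thickening hd _).trans (thickening_subset_interior_cthickening d _)) hdΩ M
  set h : E → ℝ := fun x => lam + δ * v x + (p - 1) * ‖gradient v x‖ ^ p with hh
  have hvmeas : AEMeasurable v (volume.restrict (K ∪ K')) :=
    (hcv.aemeasurable hΩ.measurableSet).mono_measure (Measure.restrict_mono_set _ hKKΩ)
  have hφmeas : AEMeasurable φ (volume.restrict (K ∪ K')) :=
    (hφ.aemeasurable hΩ.measurableSet).mono_measure (Measure.restrict_mono_set _ hKKΩ)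
  have hhmeas : AEMeasurable h (volume.restrict (K ∪ K')) := by
    have h3 : AEMeasurable (fun x => ‖gradient v x‖ ^ p) (volume.restrict (K ∪ K')) :=
      ((measurable_gradient v).norm.pow_const p).aemeasurable
    simp only [hh]
    fun_prop
  set H : ℝ := |lam| + |δ| * M0 + (p - 1) * (2 * M / d) ^ p with hH
  have hHb : ∀ x ∈ K ∪ K', |h x| ≤ H := by
    intro x hx
    simp only [hh, hH]
    have e1 : |δ * v x| ≤ |δ| * M0 := by
      rw [abs_mul]
      exact mul_le_mul_of_nonneg_left (hvM x (hsub x hx)) (abs_nonneg _)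
    have e2 : |(p - 1) * ‖gradient v x‖ ^ p| ≤ (p - 1) * (2 * M / d) ^ p := by
      rw [abs_mul, abs_of_pos (by linarith : 0 < p - 1), abs_of_nonneg (by positivity)]
      exact mul_le_mul_of_nonneg_left (Real.rpow_le_rpow (norm_nonneg _) (hgv x hx) hp0.le)
        (by linarith)
    exact (abs_add_le _ _).trans (add_le_add ((abs_add_le _ _).trans (add_le_add le_rfl e1)) e2)
  have hH0 : 0 ≤ H := by
    have : 0 ≤ p - 1 := by linarith
    positivity
  have hexp1 : ∀ x ∈ Ω, Real.exp (-p * v x) ≤ 1 := fun x hx =>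
    Real.exp_le_one_iff.mpr (by have := h0 x hx; nlinarith)
  have hintφ : IntegrableOn (fun x => h x * (φ x * Real.exp (-p * v x))) (K ∪ K') := by
    refine integrableOn_bdd hKK (AEMeasurable.aestronglyMeasurable (by fun_prop)) (C := H * (M0 * 1)) ?_
    intro x hx
    rw [abs_mul, abs_mul, abs_of_pos (Real.exp_pos _)]
    have a1 := hHb x hx
    have a2 := hφM x (hsub x hx)
    have a3 := hexp1 x (hKKΩ hx)
    gcongr
  have hinth : IntegrableOn (fun x => |h x|) (K ∪ K') := by
    refine integrableOn_bdd hKK (AEMeasurable.aestronglyMeasurable hhmeas.norm) (C := H) ?_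
    intro x hx
    rw [abs_abs]
    exact hHb x hx
  refine ⟨|C1| + ∫ x in K ∪ K', |h x|, fun f hf hfK ε hε hfε => ?_⟩
  -- the fixed function `F`
  have hc1 := hv.c1
  have hFl : LipC Ω (fun x => f x * Real.exp (-p * v x)) :=
    lipC_of_contDiffOn hΩ hf ((contDiffOn_const.mul hc1).exp)
  have hFs : tsupport (fun x => f x * Real.exp (-p * v x)) ⊆ K ∪ K' :=
    (tsupport_mul_subset_left.trans hfK).trans subset_union_right
  have hXlim : Tendsto (fun n => XF p (w (t n)) (fun x => f x * Real.exp (-p * v x))) atTop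
      (𝓝 (XF p v (fun x => f x * Real.exp (-p * v x)))) :=
    XF_tendsto (w := fun n => w (t n)) hp hΩ (Eventually.of_forall fun n => (hP n).1) hv.cvx hwv hFl
  have hstep : ∀ ε' > 0, p * XF p v (fun x => f x * Real.exp (-p * v x)) ≤
      (∫ x in K, p * (h x * (φ x * Real.exp (-p * v x)))) + p * (|C1| * (ε + ε')) := by
    intro ε' hε'
    have hev : ∀ᶠ n in atTop, p * XF p (w (t n)) (fun x => f x * Real.exp (-p * v x)) ≤
        (∫ x in K, Rm p lam δ v (w (t n)) (t n) x) + p * (|C1| * (ε + ε')) := by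
      filter_upwards [htt.eventually (hlim ε' hε')] with n hn
      obtain ⟨h1, h2, h3, h4, h5, h6⟩ := hP n
      have hmain := main_ineq hp hδ hv h0 hfin hK hKΩ h1 h2 h3 h5 (hRint n)
      obtain ⟨hg1, hg2⟩ := lipC_g (p := p) hv hK hKΩ h1 h2 (t n)
      obtain ⟨hd1, hd2⟩ := lipC_sub hg1 hFl hKK hKKΩ (hg2.trans subset_union_left) hFs
      have hb := hC1 (w (t n)) h1 (hwM n) _ hd1 hd2 (ε + ε') ?_
      · rw [XF_sub hp hΩ h1 hg1 hFl] at hb
        have hb2 := (abs_le.mp hb).1
        have hb3 : C1 * (ε + ε') ≤ |C1| * (ε + ε') :=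
          mul_le_mul_of_nonneg_right (le_abs_self _) (by linarith)
        nlinarith
      · intro x
        by_cases hxΩ : x ∈ Ω
        · have e1 : K.indicator (fun x => w (t n) x - v x) x = w (t n) x - v x := by
            by_cases hxK : x ∈ K
            · rw [indicator_of_mem hxK]
            · rw [indicator_of_notMem hxK, h2 x ⟨hxΩ, hxK⟩, sub_self]
          rw [e1]
          have e2 : (w (t n) x - v x) * (Real.exp (-p * v x) / t n) - f x * Real.exp (-p * v x) =
              ((w (t n) x - v x - t n * φ x) / t n - (f x - φ x)) * Real.exp (-p * v x) := by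
            field_simp
            ring
          rw [e2, abs_mul, abs_of_pos (Real.exp_pos _)]
          have e3 : |(w (t n) x - v x - t n * φ x) / t n| ≤ ε' := by
            rw [abs_div, abs_of_pos h5, div_le_iff₀ h5]
            exact hn x hxΩ
          have e4 := hfε x hxΩ
          have e5 := hexp1 x hxΩ
          calc _ ≤ (ε' + ε) * 1 := by
                refine mul_le_mul ((abs_sub _ _).trans (add_le_add e3 e4)) e5 (Real.exp_pos _).le
                  (by linarith)
            _ = ε + ε' := by ring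
        · have hxK : x ∉ K := fun h => hxΩ (hKΩ h)
          have hfx : f x = 0 := image_eq_zero_of_notMem_tsupport fun h => hxΩ (hf.2.2 h)
          rw [indicator_of_notMem hxK, hfx]
          simp
          linarith
    exact le_of_tendsto_of_tendsto (hXlim.const_mul p) (hlimR.add_const _) hev
  have hstep2 : XF p v (fun x => f x * Real.exp (-p * v x)) ≤
      (∫ x in K, h x * (φ x * Real.exp (-p * v x))) + |C1| * ε := by
    refine le_of_forall_pos_le_add fun η hη => ?_
    have h1 := hstep (η / (|C1| + 1)) (by positivity)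
    rw [integral_const_mul] at h1
    have h2 : |C1| * (η / (|C1| + 1)) ≤ η := by
      rw [mul_div_assoc', div_le_iff₀ (by positivity)]
      nlinarith [abs_nonneg C1]
    have h3 : p * XF p v (fun x => f x * Real.exp (-p * v x)) ≤
        p * ((∫ x in K, h x * (φ x * Real.exp (-p * v x))) + |C1| * (ε + η / (|C1| + 1))) := by
      linarith
    have h4 := le_of_mul_le_mul_left h3 hp0
    rw [mul_add] at h4
    linarith
  have hφ0 : ∀ x ∈ Ω \ K, φ x = 0 := by
    intro x hx
    have h1 := hq x hx.1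
    have h2 : (fun n => (w (t n) x - v x) / t n) = fun _ => 0 := by
      funext n
      rw [(hP n).2.1 x hx, sub_self, zero_div]
    rw [h2] at h1
    exact tendsto_nhds_unique tendsto_const_nhds h1 |>.symm
  have hi1 : ∫ x in K, h x * (φ x * Real.exp (-p * v x)) =
      ∫ x in K ∪ K', h x * (φ x * Real.exp (-p * v x)) := by
    symm
    refine setIntegral_eq_of_subset_of_forall_sdiff_eq_zero hKK.measurableSet subset_union_left ?_
    intro x hx
    rw [hφ0 x ⟨hKKΩ hx.1, hx.2⟩]
    ring
  have hi2 : ∫ x, h x * (f x * Real.exp (-p * v x)) =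
      ∫ x in K ∪ K', h x * (f x * Real.exp (-p * v x)) := by
    symm
    refine setIntegral_eq_integral_of_forall_compl_eq_zero ?_
    intro x hx
    rw [image_eq_zero_of_notMem_tsupport (fun h => hx (Or.inr (hfK h)))]
    ring
  have hfc : Continuous f := hf.1.choose_spec.continuous
  have hintf : IntegrableOn (fun x => h x * (f x * Real.exp (-p * v x))) (K ∪ K') := by
    have hfm : AEMeasurable f (volume.restrict (K ∪ K')) := hfc.measurable.aemeasurable
    refine integrableOn_bdd hKK (AEMeasurable.aestronglyMeasurable (by fun_prop))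
      (C := H * ((M0 + ε) * 1)) ?_
    intro x hx
    rw [abs_mul, abs_mul, abs_of_pos (Real.exp_pos _)]
    have a1 := hHb x hx
    have a2 : |f x| ≤ M0 + ε := by
      have b1 := hφM x (hsub x hx)
      have b2 := hfε x (hKKΩ hx)
      calc |f x| = |φ x + (f x - φ x)| := by ring_nf
        _ ≤ |φ x| + |f x - φ x| := abs_add_le _ _
        _ ≤ _ := add_le_add b1 b2
    have a3 := hexp1 x (hKKΩ hx)
    gcongr
  have hi3 : ∫ x in K ∪ K', h x * (φ x * Real.exp (-p * v x)) ≤
      (∫ x in K ∪ K', h x * (f x * Real.exp (-p * v x))) + (∫ x in K ∪ K', |h x|) * ε := by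
    rw [← integral_mul_const, ← integral_add hintf (hinth.mul_const ε)]
    refine setIntegral_mono_on hintφ (hintf.add (hinth.mul_const ε)) hKK.measurableSet ?_
    intro x hx
    have a1 := hfε x (hKKΩ hx)
    have a3 := hexp1 x (hKKΩ hx)
    have a4 : h x * (φ x * Real.exp (-p * v x)) - h x * (f x * Real.exp (-p * v x)) ≤ |h x| * ε := by
      have : h x * (φ x * Real.exp (-p * v x)) - h x * (f x * Real.exp (-p * v x)) =
          - (h x * ((f x - φ x) * Real.exp (-p * v x))) := by ring
      rw [this]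
      refine (neg_le_abs _).trans ?_
      rw [abs_mul, abs_mul, abs_of_pos (Real.exp_pos _)]
      calc |h x| * (|f x - φ x| * Real.exp (-p * v x)) ≤ |h x| * (ε * 1) := by gcongr
        _ = _ := by ring
    linarith
  calc XF p v (fun x => f x * Real.exp (-p * v x)) ≤
      (∫ x in K, h x * (φ x * Real.exp (-p * v x))) + |C1| * ε := hstep2
    _ ≤ (∫ x in K ∪ K', h x * (f x * Real.exp (-p * v x))) + (∫ x in K ∪ K', |h x|) * ε
        + |C1| * ε := by rw [hi1]; linarith
    _ = (∫ x, h x * (f x * Real.exp (-p * v x))) + (|C1| + ∫ x in K ∪ K', |h x|) * ε := by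
        rw [hi2]; ring

end PLap
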