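import Pool.Agent.Lib.MP_a627f3_an.VecA
import Pool.Agent.Lib.MP_a627f3_an.ConvC

open MeasureTheory Set Filter Topology Metric
open scoped RealInnerProductSpace ENNReal NNReal

namespace PLap

variable {E : Type*} [NormedAddCommGroup E] [InnerProductSpace ℝ E] [FiniteDimensional ℝ E]
  [CompleteSpace E] [MeasurableSpace E] [BorelSpace E]

set_option linter.unusedSectionVars false

namespace Exist

theorem measurable_grad (v : E → ℝ) : Measurable (gradient v) := by
  have h1 : Measurable (fderiv ℝ v) := measurable_fderiv ℝ v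
  exact (InnerProductSpace.toDual ℝ E).symm.continuous.measurable.comp h1

theorem exp_mul_le {p s : ℝ} (hp : 0 < p) (_hs : 0 ≤ s) : s * Real.exp (-p * s) ≤ 1 / p := by
  have h1 : p * s * Real.exp (-(p * s)) ≤ 1 := by
    have h2 : p * s ≤ Real.exp (p * s) := by linarith [Real.add_one_le_exp (p * s)]
    rw [Real.exp_neg, ← div_eq_mul_inv, div_le_one (Real.exp_pos _)]
    exact h2
  rw [le_div_iff₀ hp]
  have e : -p * s = -(p * s) := by ring
  rw [e]
  linarith

theorem pot_bound {p lam δ s : ℝ} (hp : 0 < p) (hδ : 0 ≤ δ) (hs : 0 ≤ s) :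
    |(lam + δ / p + δ * s) * Real.exp (-p * s)| ≤ |lam| + δ / p + δ * (1 / p) := by
  have he1 : Real.exp (-p * s) ≤ 1 := by
    rw [Real.exp_le_one_iff]
    nlinarith
  have he0 := Real.exp_pos (-p * s)
  have h1 := exp_mul_le hp hs
  have h2 : 0 ≤ δ / p := by positivity
  calc |(lam + δ / p + δ * s) * Real.exp (-p * s)|
      = |(lam + δ / p) * Real.exp (-p * s) + δ * (s * Real.exp (-p * s))| := by
        congr 1; ring
    _ ≤ |(lam + δ / p) * Real.exp (-p * s)| + |δ * (s * Real.exp (-p * s))| := abs_add_le _ _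
    _ ≤ (|lam| + δ / p) * 1 + δ * (1 / p) := by
        gcongr
        · rw [abs_mul, abs_of_pos he0]
          have : |lam + δ / p| ≤ |lam| + δ / p := by
            refine (abs_add_le _ _).trans ?_
            rw [abs_of_nonneg h2]
          gcongr
        · rw [abs_of_nonneg (by positivity)]
          gcongr
    _ = _ := by ring

theorem aesm {Ω : Set E} (hΩ : IsOpen Ω) {v : E → ℝ} (hv : ConvexOn ℝ Ω v) :
    AEStronglyMeasurable v (volume.restrict Ω) :=
  (hv.continuousOn hΩ).aestronglyMeasurable hΩ.measurableSet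

theorem aesm_energy {p : ℝ} {Ω : Set E} (hΩ : IsOpen Ω) {v : E → ℝ} (hv : ConvexOn ℝ Ω v) :
    AEStronglyMeasurable (fun x => ‖gradient v x‖ ^ p * Real.exp (-p * v x))
      (volume.restrict Ω) := by
  have h1 : Measurable (fun x => ‖gradient v x‖ ^ p) := (measurable_grad v).norm.pow_const p
  have h2 : AEStronglyMeasurable (fun x => Real.exp (-p * v x)) (volume.restrict Ω) :=
    Real.continuous_exp.comp_aestronglyMeasurable ((aesm hΩ hv).const_mul (-p))
  exact h1.aestronglyMeasurable.mul h2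

theorem aesm_pot {p lam δ : ℝ} {Ω : Set E} (hΩ : IsOpen Ω) {v : E → ℝ} (hv : ConvexOn ℝ Ω v) :
    AEStronglyMeasurable (fun x => (lam + δ / p + δ * v x) * Real.exp (-p * v x))
      (volume.restrict Ω) := by
  have h2 : AEStronglyMeasurable (fun x => Real.exp (-p * v x)) (volume.restrict Ω) :=
    Real.continuous_exp.comp_aestronglyMeasurable ((aesm hΩ hv).const_mul (-p))
  exact (((aesm hΩ hv).const_mul δ).const_add (lam + δ / p)).mul h2

theorem int_pot {p lam δ : ℝ} (hp : 0 < p) (hδ : 0 ≤ δ) {Ω : Set E} (hΩ : IsOpen Ω)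
    (hb : Bornology.IsBounded Ω) {v : E → ℝ} (hv : ConvexOn ℝ Ω v) (h0 : ∀ x ∈ Ω, 0 ≤ v x) :
    IntegrableOn (fun x => (lam + δ / p + δ * v x) * Real.exp (-p * v x)) Ω := by
  have hfin : volume Ω ≠ ⊤ := hb.measure_lt_top.ne
  have : IsFiniteMeasure (volume.restrict Ω) := ⟨by
    rw [Measure.restrict_apply_univ]; exact hfin.lt_top⟩
  refine Integrable.of_bound (aesm_pot hΩ hv) (|lam| + δ / p + δ * (1 / p)) ?_
  filter_upwards [ae_restrict_mem hΩ.measurableSet] with x hx
  rw [Real.norm_eq_abs]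
  exact pot_bound hp hδ (h0 x hx)

end Exist

open Exist in
theorem exists_min {ι : Type*} {p lam δ : ℝ} (hp : 1 < p) (hδ : 0 ≤ δ) {Ω : Set E}
    (hΩ : IsOpen Ω) (hcv : Convex ℝ Ω) (hb : Bornology.IsBounded Ω) {B : ι → E → ℝ} {Ψ : E → ℝ}
    (hne : ∃ v, Adm p Ω B Ψ v) :
    ∃ v, Adm p Ω B Ψ v ∧ ∀ w, Adm p Ω B Ψ w → Jf p lam δ Ω v ≤ Jf p lam δ Ω w := by
  have hp0 : 0 < p := by linarith
  have hfin : volume Ω ≠ ⊤ := hb.measure_lt_top.ne
  have hfm : IsFiniteMeasure (volume.restrict Ω) := ⟨by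
    rw [Measure.restrict_apply_univ]; exact hfin.lt_top⟩
  set C : ℝ := |lam| + δ / p + δ * (1 / p) with hC
  let e : (E → ℝ) → ℝ := fun v => ∫ x in Ω, ‖gradient v x‖ ^ p * Real.exp (-p * v x)
  let bb : (E → ℝ) → ℝ := fun v => ∫ x in Ω, (lam + δ / p + δ * v x) * Real.exp (-p * v x)
  have hJ : ∀ v, Adm p Ω B Ψ v → Jf p lam δ Ω v = e v - bb v := by
    intro v hv
    rw [Jf, ← integral_sub hv.fin (int_pot hp0 hδ hΩ hb hv.cvx hv.nn)]
    refine integral_congr_ae (Eventually.of_forall fun x => ?_)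
    simp only
    ring
  have he0 : ∀ v, 0 ≤ e v := fun v => integral_nonneg fun x => by positivity
  have hbb : ∀ v, Adm p Ω B Ψ v → |bb v| ≤ C * volume.real Ω := by
    intro v hv
    have := norm_setIntegral_le_of_norm_le_const (C := C) hfin.lt_top
      (f := fun x => (lam + δ / p + δ * v x) * Real.exp (-p * v x)) (fun x hx => by
        rw [Real.norm_eq_abs]
        exact pot_bound hp0 hδ (hv.nn x hx))
    exact this
  -- the infimum
  let S : Set ℝ := {J | ∃ v, Adm p Ω B Ψ v ∧ J = Jf p lam δ Ω v}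
  have hSne : S.Nonempty := by
    obtain ⟨v, hv⟩ := hne
    exact ⟨_, v, hv, rfl⟩
  have hSb : BddBelow S := by
    refine ⟨-(C * volume.real Ω), ?_⟩
    rintro _ ⟨v, hv, rfl⟩
    rw [hJ v hv]
    have h1 := hbb v hv
    have h2 := he0 v
    linarith [le_abs_self (bb v)]
  obtain ⟨u, -, hu, hmem⟩ := exists_seq_tendsto_sInf hSne hSb
  choose w hw hwJ using hmem
  obtain ⟨φ, v, hφ, hv, hlim⟩ := convex_compactness hΩ (fun k => (hw k).cvx)
    (fun k => (hw k).nn) (fun k => (hw k).up)
  have hvnn : ∀ x ∈ Ω, 0 ≤ v x := fun x hx =>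
    ge_of_tendsto' (hlim x hx) fun k => (hw _).nn x hx
  -- almost everywhere convergence of gradients
  have hae : ∀ᵐ x ∂(volume.restrict Ω),
      Tendsto (fun k => gradient (w (φ k)) x) atTop (𝓝 (gradient v x)) := by
    have h1 : ∀ᵐ x : E, x ∈ Ω → DifferentiableAt ℝ v x := convex_ae_diff hΩ hv
    have h2 : ∀ᵐ x : E, ∀ k, x ∈ Ω → DifferentiableAt ℝ (w (φ k)) x :=
      ae_all_iff.2 fun k => convex_ae_diff hΩ (hw (φ k)).cvx
    rw [ae_restrict_iff' hΩ.measurableSet]
    filter_upwards [h1, h2] with x hx1 hx2 hx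
    exact gradient_tendsto hΩ (Eventually.of_forall fun k => (hw (φ k)).cvx) hv hlim hx (hx1 hx)
      (Eventually.of_forall fun k => hx2 k hx)
  let F : ℕ → E → ℝ := fun k x => ‖gradient (w (φ k)) x‖ ^ p * Real.exp (-p * w (φ k) x)
  let F' : E → ℝ := fun x => ‖gradient v x‖ ^ p * Real.exp (-p * v x)
  have hF0 : ∀ k x, 0 ≤ F k x := fun k x => by positivity
  have hF0' : ∀ x, 0 ≤ F' x := fun x => by positivity
  have hFlim : ∀ᵐ x ∂(volume.restrict Ω), Tendsto (fun k => F k x) atTop (𝓝 (F' x)) := by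
    filter_upwards [hae, ae_restrict_mem hΩ.measurableSet] with x hx hxΩ
    have h1 : Tendsto (fun k => ‖gradient (w (φ k)) x‖ ^ p) atTop (𝓝 (‖gradient v x‖ ^ p)) :=
      hx.norm.rpow_const (Or.inr hp0.le)
    have h2 : Tendsto (fun k => Real.exp (-p * w (φ k) x)) atTop (𝓝 (Real.exp (-p * v x))) :=
      (Real.continuous_exp.tendsto _).comp ((hlim x hxΩ).const_mul (-p))
    exact h1.mul h2
  -- convergence of the potential part
  have hbblim : Tendsto (fun k => bb (w (φ k))) atTop (𝓝 (bb v)) := by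
    refine tendsto_integral_of_dominated_convergence (fun _ => C) ?_ (integrable_const _) ?_ ?_
    · intro k
      exact aesm_pot hΩ (hw (φ k)).cvx
    · intro k
      filter_upwards [ae_restrict_mem hΩ.measurableSet] with x hx
      rw [Real.norm_eq_abs]
      exact pot_bound hp0 hδ ((hw (φ k)).nn x hx)
    · filter_upwards [ae_restrict_mem hΩ.measurableSet] with x hx
      have h2 : Tendsto (fun k => Real.exp (-p * w (φ k) x)) atTop (𝓝 (Real.exp (-p * v x))) :=
        (Real.continuous_exp.tendsto _).comp ((hlim x hx).const_mul (-p))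
      exact (((hlim x hx).const_mul δ).const_add (lam + δ / p)).mul h2
  have hu' : Tendsto (fun k => Jf p lam δ Ω (w (φ k))) atTop (𝓝 (sInf S)) := by
    have := hu.comp hφ.tendsto_atTop
    refine this.congr fun k => ?_
    exact hwJ (φ k)
  have hElim : Tendsto (fun k => e (w (φ k))) atTop (𝓝 (sInf S + bb v)) := by
    refine (hu'.add hbblim).congr fun k => ?_
    rw [hJ _ (hw (φ k))]
    ring
  set I : ℝ := sInf S + bb v with hI
  -- Fatou
  have hfatou : ∫⁻ x in Ω, ENNReal.ofReal (F' x) ≤ ENNReal.ofReal I := by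
    have h1 : ∫⁻ x in Ω, ENNReal.ofReal (F' x) =
        ∫⁻ x in Ω, liminf (fun k => ENNReal.ofReal (F k x)) atTop := by
      refine lintegral_congr_ae ?_
      filter_upwards [hFlim] with x hx
      exact (((ENNReal.continuous_ofReal.tendsto _).comp hx).liminf_eq).symm
    rw [h1]
    refine (lintegral_liminf_le' fun k => ?_).trans ?_
    · exact (aesm_energy hΩ (hw (φ k)).cvx).aemeasurable.ennreal_ofReal
    · have h2 : Tendsto (fun k => ∫⁻ x in Ω, ENNReal.ofReal (F k x)) atTop
          (𝓝 (ENNReal.ofReal I)) := by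
        refine ((ENNReal.continuous_ofReal.tendsto _).comp hElim).congr fun k => ?_
        show ENNReal.ofReal (∫ x in Ω, F k x) = _
        exact ofReal_integral_eq_lintegral_ofReal (hw (φ k)).fin
          (Eventually.of_forall (hF0 k))
      exact h2.liminf_eq.le
  have hI0 : 0 ≤ I := ge_of_tendsto' hElim fun k => he0 _
  have hF'int : Integrable F' (volume.restrict Ω) := by
    refine ⟨aesm_energy hΩ hv, ?_⟩
    rw [hasFiniteIntegral_iff_ofReal (Eventually.of_forall hF0')]
    exact hfatou.trans_lt ENNReal.ofReal_lt_top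
  have hF'le : ∫ x in Ω, F' x ≤ I := by
    have h3 := ofReal_integral_eq_lintegral_ofReal hF'int (Eventually.of_forall hF0')
    rw [← h3] at hfatou
    exact (ENNReal.ofReal_le_ofReal_iff hI0).1 hfatou
  have hvA : Adm p Ω B Ψ v :=
    { cvx := hv
      nn := hvnn
      lo := fun i x hx => ge_of_tendsto' (hlim x hx) fun k => (hw _).lo i x hx
      up := fun x hx => le_of_tendsto' (hlim x hx) fun k => (hw _).up x hx
      fin := hF'int }
  refine ⟨v, hvA, fun w' hw' => ?_⟩
  have h5 : Jf p lam δ Ω v ≤ sInf S := by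
    rw [hJ v hvA]
    have : e v ≤ I := hF'le
    linarith
  exact h5.trans (csInf_le hSb ⟨w', hw', rfl⟩)

end PLap
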