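import Pool.Agent.Lib.MP_a627f3_an.Defs

open MeasureTheory Set Filter Topology Metric
open scoped RealInnerProductSpace ENNReal NNReal

namespace PLap

variable {E : Type*} [NormedAddCommGroup E] [InnerProductSpace ℝ E] [FiniteDimensional ℝ E]
  [CompleteSpace E] [MeasurableSpace E] [BorelSpace E]

theorem bounded_of_volume_lt_top {Ω : Set E} (hΩ : IsOpen Ω) (hcv : Convex ℝ Ω)
    (hne : Ω.Nonempty) (hvol : volume Ω < ⊤) : Bornology.IsBounded Ω := by
  by_contra hb
  obtain ⟨x0, hx0⟩ := hne
  obtain ⟨r, hr, hball⟩ := Metric.isOpen_iff.1 hΩ x0 hx0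
  have hc : 0 < volume (ball (0 : E) (r / 2)) := measure_ball_pos _ _ (by positivity)
  have key : ∀ N : ℕ, (N : ℝ≥0∞) * volume (ball (0 : E) (r / 2)) ≤ volume Ω := by
    intro N
    obtain ⟨y, hy, hyR⟩ : ∃ y ∈ Ω, 2 * (N + 1) * r ≤ dist y x0 := by
      by_contra h
      push Not at h
      exact hb ((isBounded_closedBall (x := x0) (r := 2 * (N + 1) * r)).subset
        fun y hy => (h y hy).le)
    have hN : (0 : ℝ) < 2 * (N + 1) := by positivity
    set t : ℕ → ℝ := fun k => k / (2 * (N + 1)) with ht
    set z : ℕ → E := fun k => x0 + t k • (y - x0) with hz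
    have hsub : ∀ k ∈ Finset.range N, ball (z k) (r / 2) ⊆ Ω := by
      intro k hk w hw
      have hkN : (k : ℝ) ≤ N := by exact_mod_cast (Finset.mem_range.1 hk).le
      have ht0 : 0 ≤ t k := by positivity
      have ht1 : t k ≤ 1 / 2 := by
        rw [ht]
        simp only
        rw [div_le_div_iff₀ hN (by norm_num)]
        linarith
      have h1t : 1 / 2 ≤ 1 - t k := by linarith
      have h1t0 : (1 - t k) ≠ 0 := by
        intro h
        linarith
      rw [mem_ball, dist_eq_norm] at hw
      have hu : x0 + (1 - t k)⁻¹ • (w - z k) ∈ Ω := by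
        apply hball
        rw [mem_ball, dist_eq_norm, add_sub_cancel_left, norm_smul, norm_inv,
          Real.norm_of_nonneg (by linarith), inv_mul_lt_iff₀ (by linarith)]
        nlinarith
      have hw2 : w = (1 - t k) • (x0 + (1 - t k)⁻¹ • (w - z k)) + t k • y := by
        rw [smul_add, smul_inv_smul₀ h1t0, hz]
        simp only
        module
      rw [hw2]
      exact hcv hu hy (by linarith) ht0 (by ring)
    have hdist : ∀ k l : ℕ, k ≠ l → r ≤ dist (z k) (z l) := by
      intro k l hkl
      have e : z k - z l = (t k - t l) • (y - x0) := by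
        rw [hz]
        simp only
        module
      rw [dist_eq_norm, e, norm_smul, ← dist_eq_norm y x0]
      have h1 : 1 / (2 * ((N : ℝ) + 1)) ≤ ‖t k - t l‖ := by
        have e2 : t k - t l = ((k : ℝ) - l) / (2 * (N + 1)) := by
          rw [ht]
          simp only
          ring
        rw [e2, Real.norm_eq_abs, abs_div, abs_of_pos hN]
        gcongr
        have : (1 : ℤ) ≤ |(k : ℤ) - l| := by
          apply Int.one_le_abs
          intro h
          apply hkl
          omega
        have h3 : ((1 : ℤ) : ℝ) ≤ ((|(k : ℤ) - l| : ℤ) : ℝ) := by exact_mod_cast this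
        simpa using h3
      calc r = 1 / (2 * ((N : ℝ) + 1)) * (2 * (N + 1) * r) := by field_simp
        _ ≤ ‖t k - t l‖ * dist y x0 := by gcongr
    have hdisj : (Finset.range N : Set ℕ).PairwiseDisjoint fun k => ball (z k) (r / 2) := by
      intro k _ l _ hkl
      refine Metric.ball_disjoint_ball ?_
      have := hdist k l hkl
      linarith
    calc (N : ℝ≥0∞) * volume (ball (0 : E) (r / 2)) =
          ∑ k ∈ Finset.range N, volume (ball (z k) (r / 2)) := by
          simp [Measure.addHaar_ball_center]
      _ = volume (⋃ k ∈ Finset.range N, ball (z k) (r / 2)) :=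
          (measure_biUnion_finset hdisj fun k _ => measurableSet_ball).symm
      _ ≤ volume Ω := measure_mono (iUnion₂_subset hsub)
  obtain ⟨N, hN⟩ := ENNReal.exists_nat_mul_gt hc.ne' hvol.ne
  exact absurd (key N) (not_le.2 hN)

end PLap
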