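import Pool.Agent.Lib.MP_a627f3_an.Defs

open MeasureTheory Set Filter Topology Metric
open scoped RealInnerProductSpace ENNReal NNReal

namespace PLap

variable {E : Type*} [NormedAddCommGroup E] [InnerProductSpace ℝ E] [FiniteDimensional ℝ E]
  [CompleteSpace E] [MeasurableSpace E] [BorelSpace E]

namespace GammaAux

/-- integrand -/
noncomputable def den (c p s : ℝ) : ℝ := c + (p - 1) * |s| ^ (p / (p - 1))

lemma expo_pos {p : ℝ} (hp : 1 < p) : 0 < p / (p - 1) := div_pos (by linarith) (by linarith)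

lemma one_lt_expo {p : ℝ} (hp : 1 < p) : 1 < p / (p - 1) := by
  rw [lt_div_iff₀ (by linarith)]; linarith

lemma den_pos {c p : ℝ} (hp : 1 < p) (hc : 0 < c) (s : ℝ) : 0 < den c p s := by
  unfold den
  have h1 : 0 ≤ |s| ^ (p / (p - 1)) := Real.rpow_nonneg (abs_nonneg s) _
  have h2 : 0 ≤ (p - 1) * |s| ^ (p / (p - 1)) := mul_nonneg (by linarith) h1
  linarith

lemma den_continuous {c p : ℝ} (hp : 1 < p) : Continuous (den c p) := by
  unfold den
  have h : Continuous fun s : ℝ => |s| ^ (p / (p - 1)) :=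
    continuous_abs.rpow_const (fun _ => Or.inr (expo_pos hp).le)
  fun_prop

lemma deninv_continuous {c p : ℝ} (hp : 1 < p) (hc : 0 < c) :
    Continuous fun s => (den c p s)⁻¹ :=
  (den_continuous hp).inv₀ (fun s => (den_pos hp hc s).ne')

lemma integrable_deninv {c p : ℝ} (hp : 1 < p) (hc : 0 < c) :
    IntegrableOn (fun s => (den c p s)⁻¹) (Ioi 0) := by
  have h1 : Ioi (0:ℝ) = Ioc 0 1 ∪ Ioi 1 := by
    rw [Ioc_union_Ioi_eq_Ioi]; norm_num
  rw [h1]
  refine IntegrableOn.union ?_ ?_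
  · exact ((deninv_continuous hp hc).continuousOn.integrableOn_Icc).mono_set Ioc_subset_Icc_self
  · have h2 : IntegrableOn (fun s : ℝ => (p - 1)⁻¹ * s ^ (-(p / (p - 1)))) (Ioi 1) := by
      refine Integrable.const_mul ?_ _
      exact integrableOn_Ioi_rpow_of_lt (by have := one_lt_expo hp; linarith) one_pos
    refine Integrable.mono' h2 ((deninv_continuous hp hc).aestronglyMeasurable) ?_
    filter_upwards [self_mem_ae_restrict measurableSet_Ioi] with s hs
    have hs1 : (1:ℝ) < s := hs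
    have hs0 : 0 < s := by linarith
    rw [Real.norm_eq_abs, abs_of_pos (inv_pos.mpr (den_pos hp hc s))]
    rw [Real.rpow_neg hs0.le, ← mul_inv]
    have h3 : 0 < (p - 1) * s ^ (p / (p - 1)) :=
      mul_pos (by linarith) (Real.rpow_pos_of_pos hs0 _)
    apply inv_anti₀ h3
    unfold den
    rw [abs_of_pos hs0]
    linarith

lemma Tp_eq (p : ℝ) : Tp p = ∫ z in Ioi (0:ℝ), (den 1 p z)⁻¹ := by
  unfold Tp
  refine setIntegral_congr_fun measurableSet_Ioi ?_
  intro z hz
  simp only [den]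
  rw [abs_of_pos hz]

lemma integral_pos' {c p : ℝ} (hp : 1 < p) (hc : 0 < c) :
    0 < ∫ z in Ioi (0:ℝ), (den c p z)⁻¹ := by
  rw [setIntegral_pos_iff_support_of_nonneg_ae]
  · have h : (Function.support fun z => (den c p z)⁻¹) = univ := by
      ext z
      simp only [Function.mem_support, mem_univ, iff_true]
      exact (inv_pos.mpr (den_pos hp hc z)).ne'
    rw [h, univ_inter]
    simp
  · filter_upwards with z
    exact (inv_pos.mpr (den_pos hp hc z)).le
  · exact integrable_deninv hp hc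

lemma integral_scale {c p : ℝ} (hp : 1 < p) (hc : 0 < c) :
    ∫ z in Ioi (0:ℝ), (den c p z)⁻¹ = c ^ (-(1 / p)) * Tp p := by
  set b : ℝ := c ^ (-((p - 1) / p)) with hb
  have hbpos : 0 < b := Real.rpow_pos_of_pos hc _
  have hbp : b ^ (p / (p - 1)) = c⁻¹ := by
    rw [hb, ← Real.rpow_mul hc.le]
    have : -((p - 1) / p) * (p / (p - 1)) = -1 := by
      have h1 : p ≠ 0 := by linarith
      have h2 : p - 1 ≠ 0 := by intro h; linarith
      field_simp
    rw [this, Real.rpow_neg_one]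
  have h1 := integral_comp_mul_left_Ioi (fun z => (den 1 p z)⁻¹) 0 hbpos
  have h2 : ∀ z, (den 1 p (b * z))⁻¹ = c * (den c p z)⁻¹ := by
    intro z
    have : den 1 p (b * z) = c⁻¹ * den c p z := by
      unfold den
      rw [abs_mul, Real.mul_rpow (abs_nonneg b) (abs_nonneg z), abs_of_pos hbpos, hbp]
      field_simp
    rw [this, mul_inv, inv_inv]
  simp only [h2, mul_zero] at h1
  rw [integral_const_mul, ← Tp_eq, smul_eq_mul] at h1
  have h3 : b⁻¹ = c * c ^ (-(1/p)) := by
    rw [hb, ← Real.rpow_neg hc.le, neg_neg]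
    nth_rewrite 2 [← Real.rpow_one c]
    rw [← Real.rpow_add hc]
    congr 1
    have h1 : p ≠ 0 := by linarith
    field_simp
    ring
  rw [h3, mul_assoc] at h1
  exact mul_left_cancel₀ hc.ne' h1

/-- primitive -/
noncomputable def tau (c p z : ℝ) : ℝ := ∫ s in (0:ℝ)..z, (den c p s)⁻¹

lemma tau_zero (c p : ℝ) : tau c p 0 = 0 := by simp [tau]

lemma tau_hasDerivAt {c p : ℝ} (hp : 1 < p) (hc : 0 < c) (z : ℝ) :
    HasDerivAt (tau c p) (den c p z)⁻¹ z :=
  intervalIntegral.integral_hasDerivAt_right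
    ((deninv_continuous hp hc).intervalIntegrable _ _)
    (deninv_continuous hp hc).stronglyMeasurable.stronglyMeasurableAtFilter
    (deninv_continuous hp hc).continuousAt

lemma tau_continuous {c p : ℝ} (hp : 1 < p) (hc : 0 < c) : Continuous (tau c p) :=
  continuous_iff_continuousAt.mpr fun z => (tau_hasDerivAt hp hc z).continuousAt

lemma tau_strictMono {c p : ℝ} (hp : 1 < p) (hc : 0 < c) : StrictMono (tau c p) := by
  apply strictMono_of_deriv_pos
  intro z
  rw [(tau_hasDerivAt hp hc z).deriv]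
  exact inv_pos.mpr (den_pos hp hc z)

lemma tau_neg (c p z : ℝ) : tau c p (-z) = - tau c p z := by
  unfold tau
  have h := intervalIntegral.integral_comp_neg (fun s => (den c p s)⁻¹) (a := 0) (b := z)
  have h2 : ∀ s, den c p (-s) = den c p s := by intro s; simp [den]
  simp only [h2, neg_zero] at h
  rw [h, intervalIntegral.integral_symm]

lemma tau_tendsto {c p : ℝ} (hp : 1 < p) (hc : 0 < c) :
    Tendsto (tau c p) atTop (𝓝 (c ^ (-(1 / p)) * Tp p)) := by
  rw [← integral_scale hp hc]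
  exact intervalIntegral_tendsto_integral_Ioi 0 (integrable_deninv hp hc) tendsto_id

lemma tau_lt {c p : ℝ} (hp : 1 < p) (hc : 0 < c) (z : ℝ) :
    tau c p z < c ^ (-(1 / p)) * Tp p := by
  have h1 : tau c p z < tau c p (z + 1) := tau_strictMono hp hc (by linarith)
  have h2 : tau c p (z + 1) ≤ c ^ (-(1 / p)) * Tp p :=
    (tau_strictMono hp hc).monotone.ge_of_tendsto (tau_tendsto hp hc) _
  linarith

lemma lt_tau {c p : ℝ} (hp : 1 < p) (hc : 0 < c) (z : ℝ) :
    -(c ^ (-(1 / p)) * Tp p) < tau c p z := by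
  have := tau_lt hp hc (-z)
  rw [tau_neg] at this
  linarith

lemma tau_surj {c p : ℝ} (hp : 1 < p) (hc : 0 < c) {w : ℝ}
    (h1 : -(c ^ (-(1 / p)) * Tp p) < w) (h2 : w < c ^ (-(1 / p)) * Tp p) :
    ∃ z, tau c p z = w := by
  have e1 : ∃ z, w ≤ tau c p z := by
    obtain ⟨z, hz⟩ := ((tau_tendsto hp hc).eventually (eventually_gt_nhds h2)).exists
    exact ⟨z, hz.le⟩
  have e2 : ∃ z, tau c p z ≤ w := by
    have h3 : -w < c ^ (-(1 / p)) * Tp p := by linarith
    obtain ⟨z, hz⟩ := ((tau_tendsto hp hc).eventually (eventually_gt_nhds h3)).exists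
    refine ⟨-z, ?_⟩
    rw [tau_neg]; linarith [hz.le]
  exact mem_range_of_exists_le_of_exists_ge (tau_continuous hp hc) e2 e1

end GammaAux

open GammaAux

theorem Tp_pos {p : ℝ} (hp : 1 < p) : 0 < Tp p := by
  rw [Tp_eq]
  exact integral_pos' hp one_pos

namespace GammaAux

lemma Lam_pos {p q μ : ℝ} (hq : 1 < q) (hqp : q < p) (hμ : 0 < μ) : 0 < Lam p q μ := by
  unfold Lam
  have h1 := Tp_pos hq
  have h2 := Tp_pos (hq.trans hqp)
  positivity

lemma same_limit {p q μ : ℝ} (hq : 1 < q) (hqp : q < p) (hμ : 0 < μ) :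
    (Lam p q μ) ^ (-(1 / q)) * Tp q = μ ^ (-(1 / p)) * Tp p := by
  have h1 := Tp_pos hq
  have h2 := Tp_pos (hq.trans hqp)
  have h3 : 0 < μ ^ (1 / p) := Real.rpow_pos_of_pos hμ _
  have h4 : 0 < Tp q * μ ^ (1 / p) / Tp p := by positivity
  have hq0 : q ≠ 0 := by linarith
  have h5 : (Lam p q μ) ^ (-(1 / q)) = (Tp q * μ ^ (1 / p) / Tp p)⁻¹ := by
    unfold Lam
    rw [← Real.rpow_mul h4.le]
    have : q * (-(1 / q)) = -1 := by field_simp
    rw [this, Real.rpow_neg_one]
  rw [h5, Real.rpow_neg hμ.le]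
  field_simp

/-- monotonicity of the comparison function -/
lemma tau_comp {p q μ Λ : ℝ} (hq : 1 < q) (hqp : q < p) (hμ : 0 < μ) (hΛ : 0 < Λ)
    (hL : Λ ^ (-(1 / q)) * Tp q = μ ^ (-(1 / p)) * Tp p) {x : ℝ} (hx : 0 ≤ x) :
    tau μ p (x ^ (p - 1)) ≤ tau Λ q (x ^ (q - 1)) := by
  have hp : 1 < p := hq.trans hqp
  set D : ℝ → ℝ := fun x => tau Λ q (x ^ (q - 1)) - tau μ p (x ^ (p - 1)) with hD
  have hDc : ContinuousOn D (Ici 0) := by
    apply Continuous.continuousOn
    have e1 : Continuous fun x : ℝ => x ^ (q - 1) :=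
      Real.continuous_rpow_const (by linarith)
    have e2 : Continuous fun x : ℝ => x ^ (p - 1) :=
      Real.continuous_rpow_const (by linarith)
    exact ((tau_continuous hq hΛ).comp e1).sub ((tau_continuous hp hμ).comp e2)
  have key : ∀ {c r x : ℝ}, 1 < r → 0 < c → 0 < x →
      HasDerivAt (fun x => tau c r (x ^ (r - 1))) (x ^ 2 + c * x ^ (2 - r) / (r - 1))⁻¹ x := by
    intro c r x hr hc hx
    have e1 : HasDerivAt (fun x : ℝ => x ^ (r - 1)) ((r - 1) * x ^ (r - 1 - 1)) x :=
      Real.hasDerivAt_rpow_const (Or.inl hx.ne')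
    have e2 : HasDerivAt (fun x : ℝ => tau c r (x ^ (r - 1)))
        ((den c r (x ^ (r - 1)))⁻¹ * ((r - 1) * x ^ (r - 1 - 1))) x :=
      HasDerivAt.comp (h₂ := tau c r) (h := fun x : ℝ => x ^ (r - 1)) x
        (tau_hasDerivAt hr hc (x ^ (r - 1))) e1
    suffices h : (den c r (x ^ (r - 1)))⁻¹ * ((r - 1) * x ^ (r - 1 - 1)) =
        (x ^ 2 + c * x ^ (2 - r) / (r - 1))⁻¹ by rwa [h] at e2
    unfold den
    have hr1 : (0:ℝ) < r - 1 := by linarith
    have hr1' : r - 1 ≠ 0 := hr1.ne'
    rw [abs_of_pos (Real.rpow_pos_of_pos hx _), ← Real.rpow_mul hx.le]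
    have e3 : (r - 1) * (r / (r - 1)) = r := by field_simp
    rw [e3]
    have e4 : x ^ (r - 1 - 1) = x ^ r * (x ^ 2)⁻¹ := by
      rw [show r - 1 - 1 = r + (-2 : ℝ) by ring, Real.rpow_add hx, Real.rpow_neg hx.le]
      norm_num
    have e5 : x ^ (2 - r) = x ^ 2 * (x ^ r)⁻¹ := by
      rw [show (2:ℝ) - r = 2 + (-r) by ring, Real.rpow_add hx, Real.rpow_neg hx.le]
      norm_num
    rw [e4, e5]
    have hxr : 0 < x ^ r := Real.rpow_pos_of_pos hx _
    field_simp
    ring
  have hder : ∀ x, 0 < x → HasDerivAt D ((x ^ 2 + Λ * x ^ (2 - q) / (q - 1))⁻¹ -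
      (x ^ 2 + μ * x ^ (2 - p) / (p - 1))⁻¹) x := fun x hx =>
    (key hq hΛ hx).sub (key hp hμ hx)
  have hD0 : D 0 = 0 := by
    simp only [hD]
    rw [Real.zero_rpow (by linarith), Real.zero_rpow (by linarith), tau_zero, tau_zero, sub_zero]
  have hDt : Tendsto D atTop (𝓝 0) := by
    have e1 : Tendsto (fun x : ℝ => tau Λ q (x ^ (q - 1))) atTop (𝓝 (Λ ^ (-(1 / q)) * Tp q)) :=
      (tau_tendsto hq hΛ).comp (tendsto_rpow_atTop (by linarith))
    have e2 : Tendsto (fun x : ℝ => tau μ p (x ^ (p - 1))) atTop (𝓝 (μ ^ (-(1 / p)) * Tp p)) :=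
      (tau_tendsto hp hμ).comp (tendsto_rpow_atTop (by linarith))
    have := e1.sub e2
    rwa [hL, sub_self] at this
  -- the turning point
  set t : ℝ := μ * (q - 1) / (Λ * (p - 1)) with ht
  have htpos : 0 < t := by
    rw [ht]; apply div_pos <;> apply mul_pos <;> linarith
  set X : ℝ := t ^ (1 / (p - q)) with hX
  have hXpos : 0 < X := Real.rpow_pos_of_pos htpos _
  have hXt : X ^ (p - q) = t := by
    rw [hX, ← Real.rpow_mul htpos.le]
    have : 1 / (p - q) * (p - q) = 1 := by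
      have : p - q ≠ 0 := by intro h; linarith
      field_simp
    rw [this, Real.rpow_one]
  have hpos : ∀ {c r x : ℝ}, 1 < r → 0 < c → 0 < x → 0 < x ^ 2 + c * x ^ (2 - r) / (r - 1) := by
    intro c r x hr hc hx
    have : 0 < x ^ (2 - r) := Real.rpow_pos_of_pos hx _
    have h2 : 0 < r - 1 := by linarith
    positivity
  have hsplit : ∀ x : ℝ, 0 < x → x ^ (2 - q) = x ^ (p - q) * x ^ (2 - p) := by
    intro x hx
    rw [← Real.rpow_add hx]; congr 1; ring
  have hp1 : 0 < p - 1 := by linarith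
  have hq1 : 0 < q - 1 := by linarith
  -- comparison
  have hcmp : ∀ x : ℝ, 0 < x → (μ * x ^ (2 - p) / (p - 1) - Λ * x ^ (2 - q) / (q - 1)) =
      x ^ (2 - p) * (Λ / (q - 1)) * (t - x ^ (p - q)) := by
    intro x hx
    rw [hsplit x hx, ht]
    field_simp
  by_cases hxX : x ≤ X
  · -- increasing part
    have hmono : MonotoneOn D (Icc 0 X) := by
      apply monotoneOn_of_deriv_nonneg (convex_Icc 0 X) (hDc.mono Icc_subset_Ici_self)
      · intro y hy
        rw [interior_Icc] at hy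
        exact (hder y hy.1).differentiableAt.differentiableWithinAt
      · intro y hy
        rw [interior_Icc] at hy
        rw [(hder y hy.1).deriv, sub_nonneg]
        apply inv_anti₀ (hpos hq hΛ hy.1)
        have h1 := hcmp y hy.1
        have h2 : y ^ (p - q) ≤ t := by
          rw [← hXt]
          exact Real.rpow_le_rpow hy.1.le hy.2.le (by linarith)
        have h3 : 0 ≤ y ^ (2 - p) * (Λ / (q - 1)) * (t - y ^ (p - q)) := by
          have : 0 < y ^ (2 - p) := Real.rpow_pos_of_pos hy.1 _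
          have : 0 ≤ t - y ^ (p - q) := by linarith
          positivity
        linarith
    have := hmono (left_mem_Icc.mpr hXpos.le) (⟨hx, hxX⟩ : x ∈ Icc 0 X) hx
    rw [hD0] at this
    simp only [hD] at this
    linarith
  · push Not at hxX
    have hanti : AntitoneOn D (Ici X) := by
      apply antitoneOn_of_deriv_nonpos (convex_Ici X)
        (hDc.mono (fun y hy => le_trans hXpos.le hy))
      · intro y hy
        rw [interior_Ici] at hy
        exact (hder y (hXpos.trans hy)).differentiableAt.differentiableWithinAt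
      · intro y hy
        rw [interior_Ici] at hy
        have hy0 : 0 < y := hXpos.trans hy
        rw [(hder y hy0).deriv, sub_nonpos]
        apply inv_anti₀ (hpos hp hμ hy0)
        have h1 := hcmp y hy0
        have h2 : t ≤ y ^ (p - q) := by
          rw [← hXt]
          exact Real.rpow_le_rpow hXpos.le (le_of_lt hy) (by linarith)
        have h3 : y ^ (2 - p) * (Λ / (q - 1)) * (t - y ^ (p - q)) ≤ 0 := by
          have : 0 < y ^ (2 - p) := Real.rpow_pos_of_pos hy0 _
          have h4 : t - y ^ (p - q) ≤ 0 := by linarith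
          have h5 : 0 ≤ y ^ (2 - p) * (Λ / (q - 1)) := by positivity
          exact mul_nonpos_of_nonneg_of_nonpos h5 h4
        linarith
    have h0 : 0 ≤ D x := by
      refine le_of_tendsto hDt ?_
      filter_upwards [eventually_ge_atTop x] with y hy
      exact hanti (le_of_lt hxX : x ∈ Ici X) (le_trans hxX.le hy : y ∈ Ici X) hy
    simp only [hD] at h0
    linarith

end GammaAux

theorem exists_gamma {p q μ : ℝ} (hq : 1 < q) (hqp : q < p) (hμ : 0 < μ) :
    ∃ Γ Γ' : ℝ → ℝ, Γ 0 = 0 ∧ ContinuousOn Γ (Ici 0) ∧ ContinuousOn Γ' (Ici 0) ∧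
      (∀ z > 0, HasDerivAt Γ (Γ' z) z) ∧ (∀ z ≥ 0, 0 < Γ' z) ∧ (∀ z ≥ 0, 0 ≤ Γ z) ∧
      (∀ z > 0, z * Γ' z < Γ z) ∧
      ∀ z ≥ 0, Γ' z * (μ + (p - 1) * z ^ (p / (p - 1))) =
        Lam p q μ + (q - 1) * (Γ z) ^ (q / (q - 1)) := by
  have hp : 1 < p := hq.trans hqp
  have hΛ : 0 < Lam p q μ := Lam_pos hq hqp hμ
  set Λ := Lam p q μ with hΛdef
  have hL : Λ ^ (-(1 / q)) * Tp q = μ ^ (-(1 / p)) * Tp p := same_limit hq hqp hμ
  have hex : ∀ z, ∃ y, tau Λ q y = tau μ p z := by
    intro z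
    apply tau_surj hq hΛ
    · rw [hL]; exact lt_tau hp hμ z
    · rw [hL]; exact tau_lt hp hμ z
  choose Γ hΓ using hex
  have hmono : StrictMono Γ := by
    intro a b hab
    have h := tau_strictMono hp hμ hab
    rw [← hΓ a, ← hΓ b] at h
    exact (tau_strictMono hq hΛ).lt_iff_lt.mp h
  have hsurj : Function.Surjective Γ := by
    intro y
    obtain ⟨z, hz⟩ : ∃ z, tau μ p z = tau Λ q y := by
      apply tau_surj hp hμ
      · rw [← hL]; exact lt_tau hq hΛ y
      · rw [← hL]; exact tau_lt hq hΛ y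
    refine ⟨z, ?_⟩
    apply (tau_strictMono hq hΛ).injective
    rw [hΓ, hz]
  have hcont : Continuous Γ := hmono.monotone.continuous_of_surjective hsurj
  have hΓ0 : Γ 0 = 0 := by
    apply (tau_strictMono hq hΛ).injective
    rw [hΓ, tau_zero, tau_zero]
  have hΓnn : ∀ z, 0 ≤ z → 0 ≤ Γ z := by
    intro z hz
    rw [← hΓ0]; exact hmono.monotone hz
  have hΓpos : ∀ z, 0 < z → 0 < Γ z := by
    intro z hz
    rw [← hΓ0]; exact hmono hz
  -- derivative
  have hderiv : ∀ z, HasDerivAt Γ (den Λ q (Γ z) / den μ p z) z := by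
    intro z
    rw [hasDerivAt_iff_tendsto_slope]
    have h1 : Tendsto (slope (tau μ p) z) (𝓝[≠] z) (𝓝 (den μ p z)⁻¹) :=
      hasDerivAt_iff_tendsto_slope.mp (tau_hasDerivAt hp hμ z)
    have h2 : Tendsto (slope (tau Λ q) (Γ z)) (𝓝[≠] (Γ z)) (𝓝 (den Λ q (Γ z))⁻¹) :=
      hasDerivAt_iff_tendsto_slope.mp (tau_hasDerivAt hq hΛ (Γ z))
    have h3 : Tendsto Γ (𝓝[≠] z) (𝓝[≠] (Γ z)) := by
      apply tendsto_nhdsWithin_iff.mpr
      refine ⟨(hcont.tendsto z).mono_left nhdsWithin_le_nhds, ?_⟩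
      filter_upwards [self_mem_nhdsWithin] with w hw
      intro h
      exact hw (hmono.injective h)
    have h4 := h1.div (h2.comp h3) (inv_pos.mpr (den_pos hq hΛ _)).ne'
    have h5 : (den μ p z)⁻¹ / (den Λ q (Γ z))⁻¹ = den Λ q (Γ z) / den μ p z := by
      have := den_pos hq hΛ (Γ z)
      have := den_pos hp hμ z
      field_simp
    rw [h5] at h4
    refine h4.congr' ?_
    filter_upwards [self_mem_nhdsWithin] with w hw
    have hw' : w ≠ z := hw
    have hne : Γ w ≠ Γ z := fun h => hw' (hmono.injective h)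
    simp only [Pi.div_apply, Function.comp, slope_def_field]
    rw [hΓ w, hΓ z]
    have e1 : w - z ≠ 0 := sub_ne_zero.mpr hw'
    have e2 : Γ w - Γ z ≠ 0 := sub_ne_zero.mpr hne
    have e3 : tau μ p w - tau μ p z ≠ 0 :=
      sub_ne_zero.mpr (fun h => hw' ((tau_strictMono hp hμ).injective h))
    field_simp
  refine ⟨Γ, fun z => den Λ q (Γ z) / den μ p z, hΓ0, hcont.continuousOn, ?_, fun z _ => hderiv z,
    ?_, fun z hz => hΓnn z hz, ?_, ?_⟩
  · apply Continuous.continuousOn
    exact ((den_continuous hq).comp hcont).div (den_continuous hp)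
      (fun z => (den_pos hp hμ z).ne')
  · intro z _
    exact div_pos (den_pos hq hΛ _) (den_pos hp hμ _)
  · -- key inequality
    have hb : ∀ z, 0 < z → (Γ z) ^ (1 / (q - 1)) ≤ z ^ (1 / (p - 1)) := by
      intro z hz
      have hp1 : (0:ℝ) < p - 1 := by linarith
      have hq1 : (0:ℝ) < q - 1 := by linarith
      set x := z ^ (1 / (p - 1)) with hx
      have hx0 : 0 < x := Real.rpow_pos_of_pos hz _
      have hxz : x ^ (p - 1) = z := by
        rw [hx, ← Real.rpow_mul hz.le]
        have : 1 / (p - 1) * (p - 1) = 1 := by field_simp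
        rw [this, Real.rpow_one]
      have h1 := tau_comp hq hqp hμ hΛ hL hx0.le
      rw [hxz, ← hΓ z] at h1
      have h2 : Γ z ≤ x ^ (q - 1) := (tau_strictMono hq hΛ).le_iff_le.mp h1
      have h3 : (Γ z) ^ (1 / (q - 1)) ≤ (x ^ (q - 1)) ^ (1 / (q - 1)) :=
        Real.rpow_le_rpow (hΓnn z hz.le) h2 (by positivity)
      rw [← Real.rpow_mul hx0.le] at h3
      have : (q - 1) * (1 / (q - 1)) = 1 := by field_simp
      rw [this, Real.rpow_one] at h3
      exact h3
    -- derivative of den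
    have hdden : ∀ {c r y : ℝ}, 1 < r → 0 < y → HasDerivAt (den c r) (r * y ^ (1 / (r - 1))) y := by
      intro c r y hr hy
      have e1 : HasDerivAt (fun y : ℝ => c + (r - 1) * y ^ (r / (r - 1)))
          ((r - 1) * (r / (r - 1) * y ^ (r / (r - 1) - 1))) y :=
        ((Real.hasDerivAt_rpow_const (Or.inl hy.ne')).const_mul (r - 1)).const_add c
      have hr1 : r - 1 ≠ 0 := by intro h; linarith
      have e2 : (r - 1) * (r / (r - 1) * y ^ (r / (r - 1) - 1)) = r * y ^ (1 / (r - 1)) := by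
        rw [show r / (r - 1) - 1 = 1 / (r - 1) by field_simp; ring]
        field_simp
      rw [e2] at e1
      refine e1.congr_of_eventuallyEq ?_
      filter_upwards [eventually_gt_nhds hy] with w hw
      simp only [den]
      rw [abs_of_pos hw]
    have hanti : StrictAntiOn (fun z => den Λ q (Γ z) / den μ p z) (Ioi 0) := by
      apply strictAntiOn_of_deriv_neg (convex_Ioi 0)
      · apply Continuous.continuousOn
        exact ((den_continuous hq).comp hcont).div (den_continuous hp)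
          (fun z => (den_pos hp hμ z).ne')
      · intro z hz
        rw [interior_Ioi] at hz
        have hz0 : 0 < z := hz
        have e1 : HasDerivAt (fun z => den Λ q (Γ z))
            (q * (Γ z) ^ (1 / (q - 1)) * (den Λ q (Γ z) / den μ p z)) z :=
          (hdden hq (hΓpos z hz0)).comp z (hderiv z)
        have e2 := e1.div (hdden (c := μ) hp hz0) (den_pos hp hμ z).ne'
        have e3 : deriv (fun z => den Λ q (Γ z) / den μ p z) z = _ := e2.deriv
        rw [e3]
        have d1 := den_pos hq hΛ (Γ z)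
        have d2 := den_pos hp hμ z
        apply div_neg_of_neg_of_pos _ (by positivity)
        have e4 : q * (Γ z) ^ (1 / (q - 1)) * (den Λ q (Γ z) / den μ p z) * den μ p z -
            den Λ q (Γ z) * (p * z ^ (1 / (p - 1))) =
            den Λ q (Γ z) * (q * (Γ z) ^ (1 / (q - 1)) - p * z ^ (1 / (p - 1))) := by
          field_simp
        rw [e4]
        apply mul_neg_of_pos_of_neg d1
        have h1 := hb z hz0
        have h2 : 0 < z ^ (1 / (p - 1)) := Real.rpow_pos_of_pos hz0 _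
        nlinarith
    intro z hz
    obtain ⟨c, hc, hcd⟩ := exists_hasDerivAt_eq_slope Γ (fun z => den Λ q (Γ z) / den μ p z) hz
      hcont.continuousOn (fun x _ => hderiv x)
    have h1 := hanti (hc.1 : c ∈ Ioi (0:ℝ)) (hz : z ∈ Ioi (0:ℝ)) hc.2
    simp only at h1
    rw [hcd, hΓ0, sub_zero, sub_zero, lt_div_iff₀ hz] at h1
    linarith
  · intro z hz
    have h1 := den_pos hp hμ z
    have h2 : den μ p z = μ + (p - 1) * z ^ (p / (p - 1)) := by
      simp only [den]; rw [abs_of_nonneg hz]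
    have h3 : den Λ q (Γ z) = Λ + (q - 1) * (Γ z) ^ (q / (q - 1)) := by
      simp only [den]; rw [abs_of_nonneg (hΓnn z hz)]
    rw [← h2, ← h3]
    field_simp

end PLap
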