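import Pool.Agent.Lib.MP_a627f3_an.VecA
import Pool.Agent.Lib.MP_a627f3_an.Lip
import Pool.Agent.Lib.MP_a627f3_an.Radial

open MeasureTheory Set Filter Topology Metric
open scoped RealInnerProductSpace ENNReal NNReal

namespace PLap

variable {E : Type*} [NormedAddCommGroup E] [InnerProductSpace ℝ E] [FiniteDimensional ℝ E]
  [CompleteSpace E] [MeasurableSpace E] [BorelSpace E]

namespace HopfAux

omit [FiniteDimensional ℝ E] [MeasurableSpace E] [BorelSpace E] in
theorem inner_grad (f : E → ℝ) (x b : E) : ⟪gradient f x, b⟫ = fderiv ℝ f x b := by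
  simp [gradient]

omit [FiniteDimensional ℝ E] [MeasurableSpace E] [BorelSpace E] in
theorem norm_grad (f : E → ℝ) (x : E) : ‖gradient f x‖ = ‖fderiv ℝ f x‖ := by
  simp [gradient]

omit [FiniteDimensional ℝ E] [MeasurableSpace E] [BorelSpace E] in
theorem norm_grad_le {f : E → ℝ} {K : ℝ≥0} (h : LipschitzWith K f) (x : E) :
    ‖gradient f x‖ ≤ K := by
  rw [norm_grad]
  exact norm_fderiv_le_of_lipschitz ℝ h

omit [FiniteDimensional ℝ E] in
theorem meas_grad (f : E → ℝ) : Measurable (gradient f) := by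
  unfold gradient
  exact ((InnerProductSpace.toDual ℝ E).symm.continuous.measurable).comp (measurable_fderiv ℝ f)

omit [FiniteDimensional ℝ E] [CompleteSpace E] [MeasurableSpace E] [BorelSpace E] in
theorem exists_mem_frontier {N : Set E} (hN : IsOpen N) {x y : E} (hx : x ∈ N) (hy : y ∉ N) :
    ∃ z ∈ segment ℝ x y, z ∈ closure N ∧ z ∉ N := by
  by_contra hcon
  push Not at hcon
  have hpre := (convex_segment (𝕜 := ℝ) x y).isPreconnected
  have hcov : segment ℝ x y ⊆ N ∪ (closure N)ᶜ := by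
    intro z hz
    by_cases hzc : z ∈ closure N
    · exact Or.inl (hcon z hz hzc)
    · exact Or.inr hzc
  have hyc : y ∈ (closure N)ᶜ := by
    intro hyc
    exact hy (hcon y (right_mem_segment ℝ x y) hyc)
  obtain ⟨z, hz, hz1, hz2⟩ := hpre N (closure N)ᶜ hN isClosed_closure.isOpen_compl hcov
    ⟨x, left_mem_segment ℝ x y, hx⟩ ⟨y, right_mem_segment ℝ x y, hyc⟩
  exact hz2 (subset_closure hz1)

omit [FiniteDimensional ℝ E] [CompleteSpace E] [MeasurableSpace E] [BorelSpace E] in
theorem psi_lip {N K₀ : Set E} (hN : IsOpen N) (hNK : closure N ⊆ K₀) {ψ : E → ℝ} {C : ℝ≥0}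
    (h0 : ∀ x, x ∉ N → ψ x = 0)
    (hl : ∀ x ∈ K₀, ∀ y ∈ K₀, dist (ψ x) (ψ y) ≤ C * dist x y) : LipschitzWith C ψ := by
  have key : ∀ x y, x ∈ N → y ∉ N → dist (ψ x) (ψ y) ≤ C * dist x y := by
    intro x y hx hy
    obtain ⟨z, hz, hzc, hzN⟩ := exists_mem_frontier hN hx hy
    rw [h0 y hy, ← h0 z hzN]
    refine (hl x (hNK (subset_closure hx)) z (hNK hzc)).trans ?_
    have : dist x z ≤ dist x y := by
      have := dist_add_dist_of_mem_segment hz
      have h3 : 0 ≤ dist z y := dist_nonneg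
      linarith
    gcongr
  refine LipschitzWith.of_dist_le_mul fun x y => ?_
  by_cases hx : x ∈ N <;> by_cases hy : y ∈ N
  · exact hl x (hNK (subset_closure hx)) y (hNK (subset_closure hy))
  · exact key x y hx hy
  · rw [dist_comm, dist_comm x y]; exact key y x hy hx
  · rw [h0 x hx, h0 y hy, dist_self]; positivity

omit [FiniteDimensional ℝ E] [MeasurableSpace E] [BorelSpace E] in
theorem grad_zero_of_min {ψ : E → ℝ} (hnn : ∀ x, 0 ≤ ψ x) {x : E} (hx : ψ x = 0) :
    gradient ψ x = 0 := by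
  have h : IsLocalMin ψ x := Filter.Eventually.of_forall fun y => by rw [hx]; exact hnn y
  rw [gradient, h.fderiv_eq_zero, map_zero]

omit [CompleteSpace E] [MeasurableSpace E] [BorelSpace E] in
/-- A `C¹` function on an open set is Lipschitz on closed balls inside. -/
theorem lip_ball {P : Set E} (hP : IsOpen P) {F : E → ℝ} (hF : ContDiffOn ℝ 1 F P) {y : E} {R : ℝ}
    (hb : closedBall y R ⊆ P) :
    ∃ K : ℝ≥0, ∀ a ∈ closedBall y R, ∀ b ∈ closedBall y R, |F a - F b| ≤ K * dist a b := by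
  have hc : ContinuousOn (fun x => ‖fderiv ℝ F x‖) (closedBall y R) :=
    ((hF.continuousOn_fderiv_of_isOpen hP le_rfl).mono hb).norm
  obtain ⟨C, hC⟩ := (isCompact_closedBall y R).bddAbove_image hc
  refine ⟨⟨max C 0, le_max_right _ _⟩, fun a ha b hb' => ?_⟩
  have hd : ∀ x ∈ closedBall y R, DifferentiableAt ℝ F x := fun x hx =>
    (hF.differentiableOn one_ne_zero).differentiableAt (hP.mem_nhds (hb hx))
  have hbd : ∀ x ∈ closedBall y R, ‖fderiv ℝ F x‖ ≤ max C 0 := fun x hx =>
    (hC (mem_image_of_mem _ hx)).trans (le_max_left _ _)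
  have := (convex_closedBall y R).norm_image_sub_le_of_norm_fderiv_le (𝕜 := ℝ) hd hbd hb' ha
  rw [Real.norm_eq_abs, ← dist_eq_norm] at this
  exact this

/-- integrability of `⟨S, ∇f⟩` -/
theorem integrable_inner_grad {K : Set E} (hK : IsCompact K) {S : E → E} (hS : ContinuousOn S K)
    {f : E → ℝ} {C : ℝ≥0} (hf : LipschitzWith C f) (h0 : ∀ x, x ∉ K → gradient f x = 0) :
    Integrable (fun x => ⟪S x, gradient f x⟫) := by
  have hsub : Function.support (fun x => ⟪S x, gradient f x⟫) ⊆ K := by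
    intro x hx
    by_contra hxn
    apply hx
    simp [h0 x hxn]
  rw [← integrableOn_iff_integrable_of_support_subset hsub]
  obtain ⟨B, hB⟩ := hK.bddAbove_image hS.norm
  have : IsFiniteMeasure ((volume : Measure E).restrict K) :=
    ⟨by simpa using hK.measure_lt_top⟩
  refine Integrable.of_bound (C := B * C) ?_ ?_
  · exact (hS.aestronglyMeasurable hK.measurableSet).inner
      (meas_grad f).aestronglyMeasurable
  · rw [ae_restrict_iff' hK.measurableSet]
    refine Filter.Eventually.of_forall fun x hx => ?_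
    rw [Real.norm_eq_abs]
    refine (abs_real_inner_le_norm _ _).trans ?_
    have h1 : ‖S x‖ ≤ B := hB (mem_image_of_mem _ hx)
    have h2 := norm_grad_le hf x
    have h3 : 0 ≤ B := (norm_nonneg _).trans h1
    gcongr

omit [FiniteDimensional ℝ E] [CompleteSpace E] [MeasurableSpace E] [BorelSpace E] in
theorem aP_neg_smul {p : ℝ} {c : ℝ} (hc : 0 < c) (z : E) :
    aP p (-(c • z)) = -(c ^ (p - 1) • aP p z) := by
  unfold aP
  rw [norm_neg, norm_smul, Real.norm_of_nonneg hc.le, Real.mul_rpow hc.le (norm_nonneg _),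
    smul_neg, smul_smul, smul_smul]
  congr 2
  rw [show p - 1 = (p - 2) + 1 by ring, Real.rpow_add hc, Real.rpow_one]
  ring

theorem aP_mono {p : ℝ} (hp : 1 < p) (ξ η : E) : 0 ≤ ⟪aP p ξ - aP p η, ξ - η⟫ := by
  by_cases h : ξ = η
  · simp [h]
  · exact (aP_mono_strict hp h).le

/-- the profile -/
noncomputable def kap (p N r : ℝ) (s : ℝ) : ℝ :=
  (max s (r ^ 2)) ^ (-((p - 2) / (2 * (p - 1)))) * Real.exp (-(N * s / (p - 1)))

/-- the barrier as a function of the squared distance -/
noncomputable def Gb (p N r R : ℝ) (s : ℝ) : ℝ := ∫ t in s..R ^ 2, kap p N r t / 2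

theorem kap_pos {p N r : ℝ} (hr : 0 < r) (s : ℝ) : 0 < kap p N r s := by
  have : 0 < max s (r ^ 2) := lt_max_of_lt_right (by positivity)
  unfold kap
  positivity

theorem continuous_kap {p N r : ℝ} (hr : 0 < r) : Continuous (kap p N r) := by
  have h : ∀ s : ℝ, max s (r ^ 2) ≠ 0 := fun s =>
    (lt_max_of_lt_right (by positivity : 0 < r ^ 2)).ne'
  unfold kap
  apply Continuous.mul
  · exact Continuous.rpow_const (by fun_prop) fun s => Or.inl (h s)
  · fun_prop

theorem hasDerivAt_Gb {p N r R : ℝ} (hr : 0 < r) (s : ℝ) :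
    HasDerivAt (Gb p N r R) (-(kap p N r s / 2)) s := by
  have hc : Continuous fun t => kap p N r t / 2 := (continuous_kap hr).div_const _
  have h1 := (hc.integral_hasStrictDerivAt (R ^ 2) s).hasDerivAt
  have h2 : Gb p N r R = fun s => - ∫ t in (R ^ 2)..s, kap p N r t / 2 := by
    funext s
    rw [Gb, intervalIntegral.integral_symm]
  rw [h2]
  exact h1.neg

theorem contDiff_Gb {p N r R : ℝ} (hr : 0 < r) : ContDiff ℝ 1 (Gb p N r R) := by
  rw [contDiff_one_iff_deriv]
  refine ⟨fun s => (hasDerivAt_Gb hr s).differentiableAt, ?_⟩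
  have : deriv (Gb p N r R) = fun s => -(kap p N r s / 2) := by
    funext s; exact (hasDerivAt_Gb hr s).deriv
  rw [this]
  exact ((continuous_kap hr).div_const _).neg

theorem strictAnti_Gb {p N r R : ℝ} (hr : 0 < r) : StrictAnti (Gb p N r R) := by
  apply strictAnti_of_deriv_neg
  intro s
  rw [(hasDerivAt_Gb hr s).deriv]
  have := kap_pos (p := p) (N := N) hr s
  linarith

theorem Gb_R {p N r R : ℝ} : Gb p N r R (R ^ 2) = 0 := by
  simp [Gb]

omit [InnerProductSpace ℝ E] [FiniteDimensional ℝ E] [CompleteSpace E] [MeasurableSpace E]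
  [BorelSpace E] in
theorem kap_pow {p N r : ℝ} (hp : 1 < p) {z : E} (hr : 0 < r) (hz : r ≤ ‖z‖) :
    kap p N r (‖z‖ ^ 2) ^ (p - 1) * ‖z‖ ^ (p - 2) = Real.exp (-(N * ‖z‖ ^ 2)) := by
  have hz0 : 0 < ‖z‖ := hr.trans_le hz
  have hmax : max (‖z‖ ^ 2) (r ^ 2) = ‖z‖ ^ 2 := max_eq_left (by gcongr)
  have hp1 : p - 1 ≠ 0 := by linarith
  unfold kap
  rw [hmax, Real.mul_rpow (by positivity) (Real.exp_pos _).le, ← Real.rpow_mul (by positivity),
    ← Real.exp_mul]
  have e1 : (‖z‖ ^ 2 : ℝ) = ‖z‖ ^ (2:ℝ) := by norm_cast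
  have e2 : ((‖z‖ ^ 2 : ℝ)) ^ (-((p - 2) / (2 * (p - 1))) * (p - 1)) = ‖z‖ ^ (-(p - 2)) := by
    rw [e1, ← Real.rpow_mul hz0.le]
    congr 1
    field_simp
  rw [e2, mul_right_comm, ← Real.rpow_add hz0]
  simp only [neg_add_cancel, Real.rpow_zero, one_mul]
  congr 1
  field_simp


omit [FiniteDimensional ℝ E] [CompleteSpace E] [MeasurableSpace E] [BorelSpace E] in
theorem radV (y x : E) : HasFDerivAt (fun x : E => ‖x - y‖ ^ 2 / 2) (innerSL ℝ (x - y)) x := by
  have h1 := ((hasFDerivAt_id x).sub_const y).norm_sq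
  have h2 := h1.const_mul (1/2 : ℝ)
  have h3 : (fun x : E => ‖x - y‖ ^ 2 / 2) = fun x => (1/2 : ℝ) * ‖id x - y‖ ^ 2 := by
    funext x; simp only [id]; ring
  rw [h3]
  refine h2.congr_fderiv ?_
  ext b
  simp

omit [FiniteDimensional ℝ E] [MeasurableSpace E] [BorelSpace E] in
theorem radV_grad (y x : E) : gradient (fun x : E => ‖x - y‖ ^ 2 / 2) x = x - y := by
  apply ext_inner_right ℝ
  intro b
  rw [inner_grad, (radV y x).fderiv, innerSL_apply_apply]

omit [FiniteDimensional ℝ E] [CompleteSpace E] [MeasurableSpace E] [BorelSpace E] in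
theorem radV_Hs (y x b : E) : Hs (fun x : E => ‖x - y‖ ^ 2 / 2) x b = ‖b‖ ^ 2 := by
  unfold Hs
  have h1 : fderiv ℝ (fun x : E => ‖x - y‖ ^ 2 / 2) = fun x => innerSL ℝ (x - y) := by
    funext x; exact (radV y x).fderiv
  rw [h1]
  have h2 : HasFDerivAt (fun x : E => innerSL ℝ (x - y)) (innerSL ℝ) x := by
    have := (innerSL ℝ (E := E)).hasFDerivAt (x := x - y)
    have h3 := this.comp x ((hasFDerivAt_id x).sub_const y)
    simpa [Function.comp_def] using h3
  rw [h2.fderiv, innerSL_apply_apply, real_inner_self_eq_norm_sq]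

omit [CompleteSpace E] [MeasurableSpace E] [BorelSpace E] in
theorem radV_lap (y x : E) :
    lap (fun x : E => ‖x - y‖ ^ 2 / 2) x = Module.finrank ℝ E := by
  unfold lap
  simp only [radV_Hs]
  simp

theorem radial_id (y : E) (N : ℝ) {f : E → ℝ} (hf : LipC univ f) :
    - ∫ x, Real.exp (-(N * ‖x - y‖^2)) * ⟪x - y, gradient f x⟫ =
    ∫ x, ((Module.finrank ℝ E : ℝ) - 2 * N * ‖x - y‖^2) * Real.exp (-(N * ‖x - y‖^2)) * f x := by
  have hV : ContDiff ℝ 2 (fun x : E => ‖x - y‖ ^ 2 / 2) :=
    ((contDiff_id.sub contDiff_const).norm_sq ℝ).div_const 2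
  have h := radial_parts hV (h := fun s => Real.exp (-(N * s)))
    (h' := fun s => -N * Real.exp (-(N * s))) (η := 1) one_pos ?_ ?_ hf
  · simp only [radV_grad, radV_lap, radV_Hs] at h
    rw [h]
    apply integral_congr_ae
    refine Filter.Eventually.of_forall fun x => ?_
    simp only
    ring
  · intro s _
    have h1 : HasDerivAt (fun s : ℝ => -(N * s)) (-N) s := by
      simpa using (hasDerivAt_id s).const_mul (-N)
    have h2 := h1.exp
    convert h2 using 1
    ring
  · fun_prop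

omit [FiniteDimensional ℝ E] [MeasurableSpace E] [BorelSpace E] in
theorem continuousOn_grad {P : Set E} (hP : IsOpen P) {v : E → ℝ} (hv : ContDiffOn ℝ 1 v P) :
    ContinuousOn (gradient v) P := by
  unfold gradient
  exact (InnerProductSpace.toDual ℝ E).symm.continuous.comp_continuousOn
    (hv.continuousOn_fderiv_of_isOpen hP le_rfl)

theorem super_test {p : ℝ} (hp : 1 < p) {P : Set E} {v : E → ℝ} {μ : ℝ} (hreg : Reg P v)
    (hμ : 0 ≤ μ) (hs : IsSuper p P μ v) {y : E} {R : ℝ} (hb : closedBall y R ⊆ P) {f : E → ℝ}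
    {C : ℝ≥0} (hf : LipschitzWith C f) (hf0 : ∀ x, x ∉ closedBall y R → f x = 0)
    (hnn : ∀ x, 0 ≤ f x) :
    ∫ x, ⟪Real.exp (-(p-1) * v x) • aP p (gradient v x), gradient f x⟫ ≤ 0 := by
  have hP := hreg.isOpen
  set K := closedBall y R with hKdef
  have hK : IsCompact K := isCompact_closedBall y R
  have hvc : ContinuousOn v P := hreg.c1.continuousOn
  have hgc : ContinuousOn (gradient v) K := (continuousOn_grad hP hreg.c1).mono hb
  have hts : tsupport f ⊆ K := by
    apply hK.isClosed.closure_subset_iff.mpr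
    intro x hx
    by_contra hxn
    exact hx (hf0 x hxn)
  have hcs : HasCompactSupport f := hK.of_isClosed_subset isClosed_closure hts
  set g : E → ℝ := fun x => Real.exp (-(p-1) * v x) with hgdef
  have hg1 : ContDiffOn ℝ 1 g P := (contDiffOn_const.mul hreg.c1).exp
  have hφ : LipC P (fun x => f x * g x) :=
    lipC_of_contDiffOn hP ⟨⟨C, hf⟩, hcs, hts.trans hb⟩ hg1
  obtain ⟨⟨C', hC'⟩, hcs', -⟩ := id hφ
  have hφnn : ∀ x, 0 ≤ f x * g x := fun x => mul_nonneg (hnn x) (Real.exp_pos _).le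
  have hφ0 : ∀ x, x ∉ K → f x * g x = 0 := fun x hx => by rw [hf0 x hx, zero_mul]
  have hineq := hs _ hφ hφnn
  unfold XF at hineq
  have hgf0 : ∀ x, x ∉ K → gradient f x = 0 := fun x hx => grad_zero_of_min hnn (hf0 x hx)
  have hgφ0 : ∀ x, x ∉ K → gradient (fun x => f x * g x) x = 0 :=
    fun x hx => grad_zero_of_min hφnn (hφ0 x hx)
  have hac : ContinuousOn (fun x => aP p (gradient v x)) K :=
    (continuous_aP hp).comp_continuousOn hgc
  have hgK : ContinuousOn g K := hg1.continuousOn.mono hb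
  have hI1 : Integrable (fun x => ⟪aP p (gradient v x), gradient (fun x => f x * g x) x⟫) :=
    integrable_inner_grad hK hac hC' hgφ0
  have hI2 : Integrable (fun x => ⟪Real.exp (-(p-1) * v x) • aP p (gradient v x),
      gradient f x⟫) :=
    integrable_inner_grad hK (hgK.smul hac) hf hgf0
  have hI3 : Integrable (fun x => (μ + (p - 1) * ‖gradient v x‖ ^ p) * (f x * g x)) := by
    have hsub : Function.support (fun x => (μ + (p - 1) * ‖gradient v x‖ ^ p) * (f x * g x)) ⊆
        K := by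
      intro x hx
      by_contra hxn
      apply hx
      simp only
      rw [hφ0 x hxn, mul_zero]
    rw [← integrableOn_iff_integrable_of_support_subset hsub]
    refine ContinuousOn.integrableOn_compact hK ?_
    apply ContinuousOn.mul
    · apply continuousOn_const.add
      apply continuousOn_const.mul
      exact hgc.norm.rpow_const fun x _ => Or.inr (by linarith)
    · exact hC'.continuous.continuousOn
  have hae : ∀ᵐ x : E, ⟪aP p (gradient v x), gradient (fun x => f x * g x) x⟫ =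
      ⟪Real.exp (-(p-1) * v x) • aP p (gradient v x), gradient f x⟫ -
        (p - 1) * ‖gradient v x‖ ^ p * (f x * g x) := by
    filter_upwards [hf.ae_differentiableAt (μ := (volume : Measure E))] with x hx
    by_cases hxK : x ∈ K
    · have hvd : DifferentiableAt ℝ v x :=
        (hreg.c1.differentiableOn one_ne_zero).differentiableAt (hP.mem_nhds (hb hxK))
      have h3 := (hvd.hasFDerivAt.const_mul (-(p-1))).exp
      have h2 := (hx.hasFDerivAt.mul h3).fderiv
      have h4 : ⟪aP p (gradient v x), gradient v x⟫ = ‖gradient v x‖ ^ p := inner_aP_self hp _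
      rw [real_inner_comm, inner_grad] at h4
      rw [real_inner_comm, inner_grad, real_inner_smul_left, real_inner_comm (gradient f x),
        inner_grad, show (fun x => f x * g x) = (f * fun x => Real.exp (-(p-1) * v x)) from rfl,
        h2]
      simp only [add_apply, smul_apply, smul_eq_mul, hgdef]
      rw [h4]
      ring
    · rw [hgφ0 x hxK, hgf0 x hxK, hf0 x hxK]
      simp
  have hI4 : Integrable (fun x => μ * (f x * g x)) :=
    (hC'.continuous.integrable_of_hasCompactSupport hcs').const_mul μ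
  have h5 : 0 ≤ (- ∫ x, ⟪aP p (gradient v x), gradient (fun x => f x * g x) x⟫) -
      ∫ x, (μ + (p - 1) * ‖gradient v x‖ ^ p) * (f x * g x) := by linarith
  have h6 : (- ∫ x, ⟪aP p (gradient v x), gradient (fun x => f x * g x) x⟫) -
      ∫ x, (μ + (p - 1) * ‖gradient v x‖ ^ p) * (f x * g x) =
      - (∫ x, ⟪Real.exp (-(p-1) * v x) • aP p (gradient v x), gradient f x⟫) -
      ∫ x, μ * (f x * g x) := by
    have hI1n : Integrable (fun x => -⟪aP p (gradient v x), gradient (fun x => f x * g x) x⟫) :=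
      hI1.neg
    have hI2n : Integrable (fun x => -⟪Real.exp (-(p-1) * v x) • aP p (gradient v x),
      gradient f x⟫) := hI2.neg
    rw [← integral_neg, ← integral_neg, ← integral_sub hI1n hI3, ← integral_sub hI2n hI4]
    apply integral_congr_ae
    filter_upwards [hae] with x hx
    rw [hx]
    ring
  have h7 : 0 ≤ ∫ x, μ * (f x * g x) := integral_nonneg fun x => mul_nonneg hμ (hφnn x)
  rw [h6] at h5
  linarith


end HopfAux

open HopfAux in
/-- Lower bound for `u = e^{-v}` (weak supersolution) by comparison with a Hopf barrier. -/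
theorem hopf {p : ℝ} (hp : 1 < p) {r R₁ R : ℝ} (hr : 0 < r) (hr1 : r < R₁) (hR : R₁ < R) :
    ∃ C' : ℝ, ∀ (P : Set E) (v : E → ℝ) (μ : ℝ), Reg P v → 0 ≤ μ → IsSuper p P μ v →
      ∀ y, closedBall y R ⊆ P → ∀ C₀ : ℝ, (∀ x ∈ closedBall y r, v x ≤ C₀) →
        ∀ x ∈ closedBall y R₁, v x ≤ C₀ + C' := by
  set d : ℝ := (Module.finrank ℝ E : ℝ) with hd
  have hd0 : 0 ≤ d := Nat.cast_nonneg _
  set N : ℝ := (d + 1) / (2 * r ^ 2) with hN
  have hNpos : 0 < N := by positivity
  have hR1 : 0 < R₁ := hr.trans hr1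
  have hRpos : 0 < R := hR1.trans hR
  set G : ℝ → ℝ := Gb p N r R with hG
  have hGanti : StrictAnti G := strictAnti_Gb hr
  have hGR : G (R ^ 2) = 0 := Gb_R
  have hGR1 : 0 < G (R₁ ^ 2) := by
    rw [← hGR]; exact hGanti (by gcongr)
  have hGr : G (R₁ ^ 2) < G (r ^ 2) := hGanti (by gcongr)
  have hGrpos : 0 < G (r ^ 2) := hGR1.trans hGr
  refine ⟨Real.log (G (r ^ 2) / G (R₁ ^ 2)), ?_⟩
  intro P v μ hreg hμ hs y hb C₀ hC₀ x₁ hx₁
  have hP := hreg.isOpen
  set ε : ℝ := Real.exp (-C₀) / G (r ^ 2) with hε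
  have hεpos : 0 < ε := by positivity
  set f : E → ℝ := fun x => max (ε * min (G (‖x - y‖ ^ 2)) (G (r ^ 2)) - Real.exp (-v x)) 0
    with hf
  have hnn : ∀ x, 0 ≤ f x := fun x => le_max_right _ _
  -- where f is positive
  have hpos : ∀ x, 0 < f x → r < ‖x - y‖ ∧ ‖x - y‖ < R := by
    intro x hx
    have hx' : 0 < ε * min (G (‖x - y‖ ^ 2)) (G (r ^ 2)) - Real.exp (-v x) := by
      by_contra h
      have : f x = 0 := max_eq_right (not_lt.mp h)
      linarith
    have hR' : ‖x - y‖ < R := by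
      by_contra h
      have h1 : G (‖x - y‖ ^ 2) ≤ 0 := by
        rw [← hGR]; exact hGanti.antitone (by have := not_lt.mp h; gcongr)
      have h2 : ε * min (G (‖x - y‖ ^ 2)) (G (r ^ 2)) ≤ 0 :=
        mul_nonpos_of_nonneg_of_nonpos hεpos.le ((min_le_left _ _).trans h1)
      have := Real.exp_pos (-v x)
      linarith
    refine ⟨?_, hR'⟩
    by_contra h
    have h1 : x ∈ closedBall y r := by
      rw [mem_closedBall, dist_eq_norm]; exact not_lt.mp h
    have h2 := hC₀ x h1
    have h3 : Real.exp (-C₀) ≤ Real.exp (-v x) := Real.exp_le_exp.mpr (by linarith)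
    have h4 : ε * min (G (‖x - y‖ ^ 2)) (G (r ^ 2)) ≤ ε * G (r ^ 2) :=
      mul_le_mul_of_nonneg_left (min_le_right _ _) hεpos.le
    have h5 : ε * G (r ^ 2) = Real.exp (-C₀) := by
      rw [hε]; field_simp
    linarith
  have hzero : ∀ x, ¬ (r < ‖x - y‖ ∧ ‖x - y‖ < R) → f x = 0 := by
    intro x hx
    by_contra h
    exact hx (hpos x (lt_of_le_of_ne (hnn x) (Ne.symm h)))
  -- f is Lipschitz
  have hVc : ContDiff ℝ 1 (fun x : E => G (‖x - y‖ ^ 2)) :=
    (contDiff_Gb hr).comp ((contDiff_id.sub contDiff_const).norm_sq ℝ)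
  have huc : ContDiffOn ℝ 1 (fun x => Real.exp (-v x)) P := hreg.c1.neg.exp
  obtain ⟨K₁, hK₁⟩ := lip_ball isOpen_univ hVc.contDiffOn (subset_univ (closedBall y R))
  obtain ⟨K₂, hK₂⟩ := lip_ball hP huc hb
  obtain ⟨ε', hε'⟩ : ∃ ε' : ℝ≥0, (ε' : ℝ) = ε := ⟨⟨ε, hεpos.le⟩, rfl⟩
  have hfl : LipschitzWith (ε' * K₁ + K₂) f := by
    refine psi_lip (N := ball y R) (K₀ := closedBall y R) isOpen_ball
      closure_ball_subset_closedBall ?_ ?_
    · intro x hx
      apply hzero
      rintro ⟨-, h⟩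
      exact hx (by rwa [mem_ball, dist_eq_norm])
    · intro a ha b hb'
      rw [Real.dist_eq]
      refine (abs_max_sub_max_le_abs _ _ _).trans ?_
      have h1 : |min (G (‖a - y‖ ^ 2)) (G (r ^ 2)) - min (G (‖b - y‖ ^ 2)) (G (r ^ 2))| ≤
          K₁ * dist a b := by
        have h := abs_min_sub_min_le_max (G (‖a - y‖ ^ 2)) (G (r ^ 2)) (G (‖b - y‖ ^ 2))
          (G (r ^ 2))
        rw [sub_self, abs_zero, max_eq_left (abs_nonneg _)] at h
        exact h.trans (hK₁ a ha b hb')
      have h2 := hK₂ a ha b hb'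
      calc |ε * min (G (‖a - y‖ ^ 2)) (G (r ^ 2)) - Real.exp (-v a) -
            (ε * min (G (‖b - y‖ ^ 2)) (G (r ^ 2)) - Real.exp (-v b))|
          = |ε * (min (G (‖a - y‖ ^ 2)) (G (r ^ 2)) - min (G (‖b - y‖ ^ 2)) (G (r ^ 2))) -
            (Real.exp (-v a) - Real.exp (-v b))| := by congr 1; ring
        _ ≤ |ε * (min (G (‖a - y‖ ^ 2)) (G (r ^ 2)) - min (G (‖b - y‖ ^ 2)) (G (r ^ 2)))| +
            |Real.exp (-v a) - Real.exp (-v b)| := abs_sub _ _
        _ ≤ ε * (K₁ * dist a b) + K₂ * dist a b := by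
            rw [abs_mul, abs_of_pos hεpos]
            gcongr
        _ = _ := by
            rw [NNReal.coe_add, NNReal.coe_mul, hε']
            ring
  have hf0 : ∀ x, x ∉ closedBall y R → f x = 0 := by
    intro x hx
    apply hzero
    rintro ⟨-, h⟩
    exact hx (by rw [mem_closedBall, dist_eq_norm]; exact h.le)
  have hts : tsupport f ⊆ closedBall y R := by
    apply isClosed_closedBall.closure_subset_iff.mpr
    intro x hx
    by_contra hxn
    exact hx (hf0 x hxn)
  have hcs : HasCompactSupport f :=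
    (isCompact_closedBall y R).of_isClosed_subset isClosed_closure hts
  have hgf0 : ∀ x, x ∉ closedBall y R → gradient f x = 0 :=
    fun x hx => grad_zero_of_min hnn (hf0 x hx)
  have hJ1 := super_test hp hreg hμ hs hb hfl hf0 hnn
  have hrad := radial_id y N (f := f) ⟨⟨_, hfl⟩, hcs, subset_univ _⟩
  -- pointwise monotonicity
  have hmono : ∀ x, 0 ≤ ⟪Real.exp (-(p-1) * v x) • aP p (gradient v x), gradient f x⟫ -
      ε ^ (p - 1) * (Real.exp (-(N * ‖x - y‖ ^ 2)) * ⟪x - y, gradient f x⟫) := by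
    intro x
    by_cases hfx : f x = 0
    · rw [grad_zero_of_min hnn hfx]; simp
    · have hfpos : 0 < f x := lt_of_le_of_ne (hnn x) (Ne.symm hfx)
      obtain ⟨h1, h2⟩ := hpos x hfpos
      have hxb : x ∈ closedBall y R := by rw [mem_closedBall, dist_eq_norm]; exact h2.le
      have hxP : x ∈ P := hb hxb
      have hvd : DifferentiableAt ℝ v x :=
        (hreg.c1.differentiableOn one_ne_zero).differentiableAt (hP.mem_nhds hxP)
      -- local form
      have hev : f =ᶠ[𝓝 x] fun z => ε * G (‖z - y‖ ^ 2) - Real.exp (-v z) := by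
        have hcont : ContinuousAt f x := hfl.continuous.continuousAt
        have hcn : ContinuousAt (fun z : E => ‖z - y‖) x := by fun_prop
        filter_upwards [hcont.eventually (lt_mem_nhds hfpos), hcn.eventually (lt_mem_nhds h1)]
          with z hz hz1
        have hGz : G (‖z - y‖ ^ 2) ≤ G (r ^ 2) := hGanti.antitone (by gcongr)
        have h3 : 0 < ε * min (G (‖z - y‖ ^ 2)) (G (r ^ 2)) - Real.exp (-v z) := by
          by_contra h
          have : f z = 0 := max_eq_right (not_lt.mp h)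
          linarith
        simp only [hf]
        rw [max_eq_left h3.le, min_eq_left hGz]
      have hder1 : HasFDerivAt (fun z : E => ‖z - y‖ ^ 2) (2 • innerSL ℝ (x - y)) x := by
        have h3 := (radV y x).const_mul 2
        have h4 : (fun z : E => ‖z - y‖ ^ 2) = fun z => 2 * (‖z - y‖ ^ 2 / 2) := by
          funext z; ring
        rw [h4]
        refine h3.congr_fderiv ?_
        ext b
        simp
      have hder2 : HasFDerivAt (fun z : E => ε * G (‖z - y‖ ^ 2) - Real.exp (-v z))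
          (ε • ((-(kap p N r (‖x - y‖ ^ 2) / 2)) • (2 • innerSL ℝ (x - y))) -
            Real.exp (-v x) • (-(fderiv ℝ v x))) x := by
        apply HasFDerivAt.sub
        · exact ((hasDerivAt_Gb hr _).comp_hasFDerivAt x hder1).const_mul ε
        · exact hvd.hasFDerivAt.neg.exp
      have hgrad : gradient f x =
          (-((ε * kap p N r (‖x - y‖ ^ 2)) • (x - y))) -
            (-(Real.exp (-v x) • gradient v x)) := by
        rw [hev.gradient_eq]
        apply ext_inner_right ℝ
        intro b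
        rw [inner_grad, hder2.fderiv, inner_sub_left, inner_neg_left, inner_neg_left,
          real_inner_smul_left, real_inner_smul_left, inner_grad]
        simp
        simp only [inner_sub_left]
        ring
      have hκ : 0 < ε * kap p N r (‖x - y‖ ^ 2) := mul_pos hεpos (kap_pos hr _)
      have hm := aP_mono hp (-((ε * kap p N r (‖x - y‖ ^ 2)) • (x - y)))
        (-(Real.exp (-v x) • gradient v x))
      rw [← hgrad, aP_neg_smul hκ, aP_neg_smul (Real.exp_pos _)] at hm
      have e1 : Real.exp (-v x) ^ (p - 1) = Real.exp (-(p-1) * v x) := by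
        rw [← Real.exp_mul]; congr 1; ring
      have e2 : (ε * kap p N r (‖x - y‖ ^ 2)) ^ (p - 1) • aP p (x - y) =
          (ε ^ (p - 1) * Real.exp (-(N * ‖x - y‖ ^ 2))) • (x - y) := by
        unfold aP
        rw [smul_smul, Real.mul_rpow hεpos.le (kap_pos hr _).le, mul_assoc,
          kap_pow hp hr h1.le]
      rw [e1, e2, inner_sub_left, inner_neg_left, inner_neg_left, real_inner_smul_left] at hm
      linarith
  have hI1 : Integrable (fun x => ⟪Real.exp (-(p-1) * v x) • aP p (gradient v x),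
      gradient f x⟫) := by
    apply integrable_inner_grad (isCompact_closedBall y R) _ hfl hgf0
    apply ContinuousOn.smul
    · have hvc : ContinuousOn v (closedBall y R) := hreg.c1.continuousOn.mono hb
      fun_prop
    · exact (continuous_aP hp).comp_continuousOn ((continuousOn_grad hP hreg.c1).mono hb)
  have hI2 : Integrable (fun x => Real.exp (-(N * ‖x - y‖ ^ 2)) * ⟪x - y, gradient f x⟫) := by
    have h1 : Integrable (fun x => ⟪Real.exp (-(N * ‖x - y‖ ^ 2)) • (x - y), gradient f x⟫) := by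
      apply integrable_inner_grad (isCompact_closedBall y R) _ hfl hgf0
      fun_prop
    refine h1.congr (Filter.Eventually.of_forall fun x => ?_)
    simp only [real_inner_smul_left]
  have hint : 0 ≤ ∫ x, (⟪Real.exp (-(p-1) * v x) • aP p (gradient v x), gradient f x⟫ -
      ε ^ (p - 1) * (Real.exp (-(N * ‖x - y‖ ^ 2)) * ⟪x - y, gradient f x⟫)) :=
    integral_nonneg hmono
  rw [integral_sub hI1 (hI2.const_mul _), integral_const_mul] at hint
  have hεp : 0 < ε ^ (p - 1) := Real.rpow_pos_of_pos hεpos _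
  have h1 : 0 ≤ - ∫ x, Real.exp (-(N * ‖x - y‖ ^ 2)) * ⟪x - y, gradient f x⟫ := by
    by_contra h
    have h2 := not_le.mp h
    have : 0 < ε ^ (p - 1) * ∫ x, Real.exp (-(N * ‖x - y‖ ^ 2)) * ⟪x - y, gradient f x⟫ :=
      mul_pos hεp (by linarith)
    linarith
  rw [hrad] at h1
  -- so f = 0
  have hdN : ∀ x, 0 < f x → ((Module.finrank ℝ E : ℝ) - 2 * N * ‖x - y‖^2) ≤ -1 := by
    intro x hx
    obtain ⟨h2, -⟩ := hpos x hx
    have h3 : 2 * N * r ^ 2 = d + 1 := by rw [hN]; field_simp
    have h4 : 2 * N * r ^ 2 ≤ 2 * N * ‖x - y‖ ^ 2 := by gcongr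
    rw [← hd]; linarith
  have hfz : ∀ x, f x = 0 := by
    have hcont : Continuous (fun x => (2 * N * ‖x - y‖^2 - (Module.finrank ℝ E : ℝ)) *
        Real.exp (-(N * ‖x - y‖^2)) * f x) := by
      have := hfl.continuous
      fun_prop
    have hcs2 : HasCompactSupport (fun x => (2 * N * ‖x - y‖^2 - (Module.finrank ℝ E : ℝ)) *
        Real.exp (-(N * ‖x - y‖^2)) * f x) := hcs.mul_left
    have hnn2 : ∀ x, 0 ≤ (2 * N * ‖x - y‖^2 - (Module.finrank ℝ E : ℝ)) *
        Real.exp (-(N * ‖x - y‖^2)) * f x := by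
      intro x
      by_cases hfx : f x = 0
      · rw [hfx, mul_zero]
      · have hfpos : 0 < f x := lt_of_le_of_ne (hnn x) (Ne.symm hfx)
        have := hdN x hfpos
        have h2 := Real.exp_pos (-(N * ‖x - y‖^2))
        apply mul_nonneg (mul_nonneg (by linarith) h2.le) hfpos.le
    have hint2 : ∫ x, (2 * N * ‖x - y‖^2 - (Module.finrank ℝ E : ℝ)) *
        Real.exp (-(N * ‖x - y‖^2)) * f x = 0 := by
      apply le_antisymm _ (integral_nonneg hnn2)
      have : ∫ x, (2 * N * ‖x - y‖^2 - (Module.finrank ℝ E : ℝ)) *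
          Real.exp (-(N * ‖x - y‖^2)) * f x =
          - ∫ x, ((Module.finrank ℝ E : ℝ) - 2 * N * ‖x - y‖^2) *
            Real.exp (-(N * ‖x - y‖^2)) * f x := by
        rw [← integral_neg]
        apply integral_congr_ae
        refine Filter.Eventually.of_forall fun x => ?_
        simp only
        ring
      rw [this]; linarith
    rw [integral_eq_zero_iff_of_nonneg hnn2 (hcont.integrable_of_hasCompactSupport hcs2)] at hint2
    have heq := (hcont.ae_eq_iff_eq (volume : Measure E) continuous_zero).mp hint2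
    intro x
    by_contra hfx
    have hfpos : 0 < f x := lt_of_le_of_ne (hnn x) (Ne.symm hfx)
    have h3 := congrFun heq x
    simp only [Pi.zero_apply] at h3
    have h4 := hdN x hfpos
    have h5 := Real.exp_pos (-(N * ‖x - y‖^2))
    have : 0 < (2 * N * ‖x - y‖^2 - (Module.finrank ℝ E : ℝ)) *
        Real.exp (-(N * ‖x - y‖^2)) * f x :=
      mul_pos (mul_pos (by linarith) h5) hfpos
    linarith
  -- conclusion
  have hx1 : ‖x₁ - y‖ ≤ R₁ := by rwa [mem_closedBall, dist_eq_norm] at hx₁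
  have h2 : ε * min (G (‖x₁ - y‖ ^ 2)) (G (r ^ 2)) - Real.exp (-v x₁) ≤ 0 := by
    rw [← hfz x₁]; exact le_max_left _ _
  have h3 : G (R₁ ^ 2) ≤ min (G (‖x₁ - y‖ ^ 2)) (G (r ^ 2)) :=
    le_min (hGanti.antitone (by gcongr)) hGr.le
  have h4 : ε * G (R₁ ^ 2) ≤ Real.exp (-v x₁) := by
    have := mul_le_mul_of_nonneg_left h3 hεpos.le
    linarith
  have h5 : Real.log (ε * G (R₁ ^ 2)) ≤ -v x₁ := by
    rw [← Real.log_exp (-v x₁)]
    exact Real.log_le_log (by positivity) h4
  have h6 : Real.log (ε * G (R₁ ^ 2)) = -C₀ - Real.log (G (r ^ 2) / G (R₁ ^ 2)) := by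
    rw [hε, Real.log_mul (by positivity) hGR1.ne', Real.log_div (Real.exp_pos _).ne' hGrpos.ne',
      Real.log_div hGrpos.ne' hGR1.ne', Real.log_exp]
    ring
  linarith

end PLap
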