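import Pool.Agent.Lib.MP_a627f3_an.VecB
import Pool.Agent.Lib.MP_a627f3_an.Lip
import Pool.Agent.Lib.MP_a627f3_an.ConvC
import Pool.Agent.Lib.MP_a627f3_an.ConvD
import Pool.Agent.Lib.MP_a627f3_an.Pos

open MeasureTheory Set Filter Topology Metric
open scoped RealInnerProductSpace ENNReal NNReal

namespace PLap

namespace Intr

section weak

variable {X : Type*} [MeasurableSpace X] {μ : Measure X}

theorem inner_toLp {F G : X → ℝ} (hF : MemLp F 2 μ) (hG : MemLp G 2 μ) :
    ⟪hF.toLp F, hG.toLp G⟫ = ∫ x, F x * G x ∂μ := by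
  rw [L2.inner_def]
  refine integral_congr_ae ?_
  filter_upwards [hF.coeFn_toLp, hG.coeFn_toLp] with x h1 h2
  rw [h1, h2]
  simp [mul_comm]

/-- Weak limits in `L²` along an ultrafilter. -/
theorem weak_lim {ι : Type*} (U : Ultrafilter ι) (F : ι → X → ℝ) {C : ℝ}
    (h : ∀ᶠ t in (U : Filter ι), MemLp (F t) 2 μ ∧ ∫ x, F t x ^ 2 ∂μ ≤ C) :
    ∃ m : X → ℝ, MemLp m 2 μ ∧ ∀ g, MemLp g 2 μ →
      Tendsto (fun t => ∫ x, F t x * g x ∂μ) U (𝓝 (∫ x, m x * g x ∂μ)) := by
  classical
  obtain ⟨G, hG⟩ : ∃ G : ι → Lp ℝ 2 μ, G = fun t =>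
    if h : MemLp (F t) 2 μ then h.toLp (F t) else 0 := ⟨_, rfl⟩
  have hG1 : ∀ t (h : MemLp (F t) 2 μ), G t = h.toLp (F t) := by
    intro t h
    rw [hG]
    simp only [dif_pos h]
  have hb : ∀ᶠ t in (U : Filter ι), ‖G t‖ ≤ Real.sqrt C := by
    filter_upwards [h] with t ht
    refine Real.le_sqrt_of_sq_le ?_
    rw [hG1 t ht.1, ← real_inner_self_eq_norm_sq, inner_toLp]
    refine le_trans (le_of_eq ?_) ht.2
    refine integral_congr_ae (Eventually.of_forall (fun x => ?_))
    simp only
    ring
  obtain ⟨Φ, hΦ⟩ : ∃ Φ : ι → WeakDual ℝ (Lp ℝ 2 μ), Φ = fun t =>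
    StrongDual.toWeakDual (innerSL ℝ (G t)) := ⟨_, rfl⟩
  have hc := WeakDual.isCompact_closedBall (𝕜 := ℝ) (E := Lp ℝ 2 μ) (0 : StrongDual ℝ (Lp ℝ 2 μ))
    (Real.sqrt C)
  obtain ⟨ℓ, -, hℓ⟩ := hc.ultrafilter_le_nhds' (U.map Φ) (by
    rw [Ultrafilter.mem_map]
    filter_upwards [hb] with t ht
    rw [hΦ]
    simpa using ht)
  have hev : ∀ g : Lp ℝ 2 μ, Tendsto (fun t => Φ t g) U (𝓝 (ℓ g)) := by
    intro g
    have h1 : Tendsto Φ U (𝓝 ℓ) := hℓ
    exact ((WeakDual.eval_continuous g).tendsto ℓ).comp h1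
  obtain ⟨M, hM⟩ : ∃ M : Lp ℝ 2 μ, ∀ g, ℓ g = ⟪M, g⟫ := by
    refine ⟨(InnerProductSpace.toDual ℝ (Lp ℝ 2 μ)).symm (WeakDual.toStrongDual ℓ), fun g => ?_⟩
    rw [InnerProductSpace.toDual_symm_apply]
    rfl
  refine ⟨M, Lp.memLp M, fun g hg => ?_⟩
  have h1 := hev (hg.toLp g)
  rw [hM] at h1
  have h2 : ⟪M, hg.toLp g⟫ = ∫ x, M x * g x ∂μ := by
    have := inner_toLp (Lp.memLp M) hg
    rw [Lp.toLp_coeFn] at this
    exact this
  rw [h2] at h1
  refine h1.congr' ?_
  filter_upwards [h] with t ht
  rw [hΦ]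
  change ⟪G t, hg.toLp g⟫ = _
  rw [hG1 t ht.1, inner_toLp]

/-- Cauchy-Schwarz in the form used here. -/
theorem cs_eta {a b : X → ℝ} (ha : MemLp a 2 μ) (hb : MemLp b 2 μ) {η : ℝ} (hη : 0 < η) :
    ∫ x, |a x * b x| ∂μ ≤ η / 2 * ∫ x, a x ^ 2 ∂μ + 1 / (2 * η) * ∫ x, b x ^ 2 ∂μ := by
  have h1 : Integrable (fun x => a x ^ 2) μ := ha.integrable_sq
  have h2 : Integrable (fun x => b x ^ 2) μ := hb.integrable_sq
  rw [← integral_const_mul, ← integral_const_mul, ← integral_add (h1.const_mul _) (h2.const_mul _)]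
  refine integral_mono (ha.integrable_mul hb).abs ((h1.const_mul _).add (h2.const_mul _)) ?_
  intro x
  simp only
  rw [abs_mul]
  have h3 : 0 ≤ (η * |a x| - |b x|) ^ 2 := sq_nonneg _
  have h4 : η / 2 * a x ^ 2 + 1 / (2 * η) * b x ^ 2 - |a x| * |b x| =
      (η * |a x| - |b x|) ^ 2 / (2 * η) := by
    rw [← sq_abs (a x), ← sq_abs (b x)]
    field_simp
    ring
  have h5 : 0 ≤ (η * |a x| - |b x|) ^ 2 / (2 * η) := by positivity
  linarith

end weak

section diff

variable {E : Type*} [NormedAddCommGroup E] [InnerProductSpace ℝ E] [FiniteDimensional ℝ E]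
  [CompleteSpace E] [MeasurableSpace E] [BorelSpace E]

omit [FiniteDimensional ℝ E] [MeasurableSpace E] [BorelSpace E] in
theorem lineDeriv_eq {f : E → ℝ} {x : E} (h : DifferentiableAt ℝ f x) (e : E) :
    lineDeriv ℝ f x e = ⟪gradient f x, e⟫ := by
  rw [h.lineDeriv_eq_fderiv]
  unfold gradient
  rw [InnerProductSpace.toDual_symm_apply]

omit [InnerProductSpace ℝ E] [FiniteDimensional ℝ E] [CompleteSpace E] [MeasurableSpace E]
  [BorelSpace E] in
theorem eventuallyEq_zero {f : E → ℝ} {x : E} (hx : x ∉ tsupport f) : f =ᶠ[𝓝 x] fun _ => 0 := by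
  have h1 : (tsupport f)ᶜ ∈ 𝓝 x := (isClosed_tsupport f).isOpen_compl.mem_nhds hx
  filter_upwards [h1] with y hy
  exact image_eq_zero_of_notMem_tsupport hy

omit [FiniteDimensional ℝ E] [CompleteSpace E] [MeasurableSpace E] [BorelSpace E] in
theorem lineDeriv_zero {f : E → ℝ} {x : E} (hx : x ∉ tsupport f) (e : E) :
    lineDeriv ℝ f x e = 0 := by
  rw [(eventuallyEq_zero hx).lineDeriv_eq]
  simp [lineDeriv]

omit [FiniteDimensional ℝ E] [MeasurableSpace E] [BorelSpace E] in
theorem gradient_zero {f : E → ℝ} {x : E} (hx : x ∉ tsupport f) : gradient f x = 0 := by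
  unfold gradient
  rw [(eventuallyEq_zero hx).fderiv_eq]
  simp

omit [CompleteSpace E] in
/-- Difference quotients of an integrable function against a Lipschitz function. -/
theorem lim_translate {f g : E → ℝ} {L : ℝ≥0} (hf : LipschitzWith L f)
    (hfc : HasCompactSupport f) (hg : Integrable g) (e : E) :
    Tendsto (fun t : ℝ => ∫ x, f x * ((g (x + t • e) - g x) / t)) (𝓝[>] 0)
      (𝓝 (- ∫ x, lineDeriv ℝ f x e * g x)) := by
  have h1 := hf.integral_inv_smul_sub_mul_tendsto_integral_lineDeriv_mul hg (-e)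
  have e1 : ∫ x, lineDeriv ℝ f x (-e) * g x = - ∫ x, lineDeriv ℝ f x e * g x := by
    rw [← integral_neg]
    refine integral_congr_ae (Eventually.of_forall (fun x => ?_))
    simp only [lineDeriv_neg, neg_mul]
  rw [e1] at h1
  refine h1.congr (fun t => ?_)
  obtain ⟨B, hB⟩ := hfc.exists_bound_of_continuous hf.continuous
  have hi1 : Integrable (fun x => f (x + t • (-e)) * g x) :=
    hg.bdd_mul (c := B) (hf.continuous.comp (by fun_prop)).aestronglyMeasurable
      (Eventually.of_forall (fun x => hB _))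
  have hi2 : Integrable (fun x => f x * g x) :=
    hg.bdd_mul (c := B) hf.continuous.aestronglyMeasurable (Eventually.of_forall (fun x => hB _))
  have hi3 : Integrable (fun x => f x * g (x + t • e)) :=
    (hg.comp_add_right (t • e)).bdd_mul (c := B) hf.continuous.aestronglyMeasurable
      (Eventually.of_forall (fun x => hB _))
  have e2 : ∫ x, f (x + t • (-e)) * g x = ∫ x, f x * g (x + t • e) := by
    rw [← integral_add_right_eq_self (fun x => f (x + t • (-e)) * g x) (t • e)]
    refine integral_congr_ae (Eventually.of_forall (fun x => ?_))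
    simp
  calc ∫ x, t⁻¹ • (f (x + t • (-e)) - f x) * g x
      = t⁻¹ * ((∫ x, f (x + t • (-e)) * g x) - ∫ x, f x * g x) := by
        rw [← integral_sub hi1 hi2, ← integral_const_mul]
        refine integral_congr_ae (Eventually.of_forall (fun x => ?_))
        simp only [smul_eq_mul]
        ring
    _ = t⁻¹ * ((∫ x, f x * g (x + t • e)) - ∫ x, f x * g x) := by rw [e2]
    _ = _ := by
        rw [← integral_sub hi3 hi2, ← integral_const_mul]
        refine integral_congr_ae (Eventually.of_forall (fun x => ?_))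
        simp only
        ring

omit [CompleteSpace E] in
/-- Second difference quotients. -/
theorem lim_second {V f : E → ℝ} {L L' : ℝ≥0} (hV : LipschitzWith L V) (hf : LipschitzWith L' f)
    (hfc : HasCompactSupport f) (b : E) :
    Tendsto (fun r : ℝ => ∫ x, f x * ((V (x + r • b) + V (x - r • b) - 2 * V x) / r ^ 2)) (𝓝[>] 0)
      (𝓝 (- ∫ x, lineDeriv ℝ V x b * lineDeriv ℝ f x b)) := by
  have key : Tendsto (fun r : ℝ => ∫ x, (r⁻¹ * (V (x + r • b) - V x)) *
      (r⁻¹ * (f (x + r • b) - f x))) (𝓝[>] 0) (𝓝 (∫ x, lineDeriv ℝ V x b * lineDeriv ℝ f x b)) := by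
    obtain ⟨K, hK⟩ : ∃ K, K = cthickening ‖b‖ (tsupport f) := ⟨_, rfl⟩
    have K_compact : IsCompact K := by
      rw [hK]; exact IsCompact.cthickening hfc
    have hbound : ∀ (h : E → ℝ) (M : ℝ≥0), LipschitzWith M h → ∀ t : ℝ, 0 < t → ∀ x,
        |t⁻¹ * (h (x + t • b) - h x)| ≤ M * ‖b‖ := by
      intro h M hM t ht x
      rw [abs_mul, abs_of_pos (inv_pos.2 ht), inv_mul_le_iff₀ ht]
      have h1 := hM.norm_sub_le (x + t • b) x
      rw [Real.norm_eq_abs, add_sub_cancel_left, norm_smul, Real.norm_eq_abs, abs_of_pos ht] at h1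
      linarith
    have hslope : ∀ (h : E → ℝ) (M : ℝ≥0), LipschitzWith M h → ∀ᵐ x : E,
        Tendsto (fun t : ℝ => t⁻¹ * (h (x + t • b) - h x)) (𝓝[>] 0) (𝓝 (lineDeriv ℝ h x b)) := by
      intro h M hM
      filter_upwards [hM.ae_lineDifferentiableAt b] with x hx
      exact hx.hasLineDerivAt.tendsto_slope_zero_right
    apply tendsto_integral_filter_of_dominated_convergence
      (K.indicator (fun _ => (L * ‖b‖) * (L' * ‖b‖)))
    · filter_upwards with t
      have hVc := hV.continuous
      have hfc := hf.continuous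
      exact Continuous.aestronglyMeasurable (by fun_prop)
    · filter_upwards [Ioc_mem_nhdsGT zero_lt_one] with t ht
      have t_pos : 0 < t := ht.1
      filter_upwards with x
      by_cases hx : x ∈ K
      · rw [indicator_of_mem hx, Real.norm_eq_abs, abs_mul]
        exact mul_le_mul (hbound V L hV t t_pos x) (hbound f L' hf t t_pos x) (abs_nonneg _)
          (by positivity)
      · have A : f x = 0 := by
          rw [← Function.notMem_support]
          contrapose hx
          rw [hK]
          exact self_subset_cthickening _ (subset_tsupport _ hx)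
        have B : f (x + t • b) = 0 := by
          rw [← Function.notMem_support]
          contrapose hx
          rw [hK]
          apply mem_cthickening_of_dist_le _ _ (‖b‖) (tsupport f) (subset_tsupport _ hx)
          simp only [dist_eq_norm, sub_add_cancel_left, norm_neg, norm_smul, Real.norm_eq_abs,
            abs_of_nonneg t_pos.le]
          exact mul_le_of_le_one_left (norm_nonneg b) ht.2
        simp only [B, A, sub_self, mul_zero, norm_zero]
        exact indicator_nonneg (fun y _hy ↦ by positivity) _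
    · rw [integrable_indicator_iff K_compact.measurableSet]
      exact ContinuousOn.integrableOn_compact K_compact (by fun_prop)
    · filter_upwards [hslope V L hV, hslope f L' hf] with x hx1 hx2
      exact hx1.mul hx2
  refine (key.neg).congr' ?_
  filter_upwards [self_mem_nhdsWithin] with r hr
  have hr0 : (0 : ℝ) < r := hr
  have hVc := hV.continuous
  have hfcont := hf.continuous
  have hcs : ∀ c : E, HasCompactSupport (fun x => f (x + c)) := fun c =>
    hfc.comp_homeomorph (Homeomorph.addRight c)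
  have i1 : Integrable (fun x => V (x + r • b) * f (x + r • b)) :=
    Continuous.integrable_of_hasCompactSupport (by fun_prop) ((hcs _).mul_left)
  have i2 : Integrable (fun x => V (x + r • b) * f x) :=
    Continuous.integrable_of_hasCompactSupport (by fun_prop) (hfc.mul_left)
  have i3 : Integrable (fun x => V x * f (x + r • b)) :=
    Continuous.integrable_of_hasCompactSupport (by fun_prop) ((hcs _).mul_left)
  have i4 : Integrable (fun x => V x * f x) :=
    Continuous.integrable_of_hasCompactSupport (by fun_prop) (hfc.mul_left)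
  have i5 : Integrable (fun x => V (x - r • b) * f x) :=
    Continuous.integrable_of_hasCompactSupport (by fun_prop) (hfc.mul_left)
  have t1 : ∫ x, V (x + r • b) * f (x + r • b) = ∫ x, V x * f x :=
    integral_add_right_eq_self (fun x => V x * f x) (r • b)
  have t2 : ∫ x, V x * f (x + r • b) = ∫ x, V (x - r • b) * f x := by
    rw [← integral_add_right_eq_self (fun x => V (x - r • b) * f x) (r • b)]
    refine integral_congr_ae (Eventually.of_forall (fun x => ?_))
    simp
  have l1 : ∫ x, (r⁻¹ * (V (x + r • b) - V x)) * (r⁻¹ * (f (x + r • b) - f x)) =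
      (r ^ 2)⁻¹ * ((∫ x, V (x + r • b) * f (x + r • b)) - (∫ x, V (x + r • b) * f x) -
        (∫ x, V x * f (x + r • b)) + ∫ x, V x * f x) := by
    have j1 := i1.sub i2
    have j2 := j1.sub i3
    rw [← integral_sub i1 i2]
    have := integral_sub (f := fun x => V (x + r • b) * f (x + r • b) - V (x + r • b) * f x)
      (g := fun x => V x * f (x + r • b)) j1 i3
    rw [← this]
    have := integral_add (f := fun x => V (x + r • b) * f (x + r • b) - V (x + r • b) * f x -
      V x * f (x + r • b)) (g := fun x => V x * f x) j2 i4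
    rw [← this, ← integral_const_mul]
    refine integral_congr_ae (Eventually.of_forall (fun x => ?_))
    simp only
    ring
  have l2 : ∫ x, f x * ((V (x + r • b) + V (x - r • b) - 2 * V x) / r ^ 2) =
      (r ^ 2)⁻¹ * ((∫ x, V (x + r • b) * f x) + (∫ x, V (x - r • b) * f x) -
        2 * ∫ x, V x * f x) := by
    have j1 := i2.add i5
    rw [← integral_const_mul 2]
    rw [← integral_add i2 i5]
    have := integral_sub (f := fun x => V (x + r • b) * f x + V (x - r • b) * f x)
      (g := fun x => 2 * (V x * f x)) j1 (i4.const_mul 2)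
    rw [← this, ← integral_const_mul]
    refine integral_congr_ae (Eventually.of_forall (fun x => ?_))
    simp only
    ring
  rw [l1, l2, t1, t2]
  ring

end diff

end Intr

end PLap
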