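import Pool.Agent.Lib.MP_a627f3_an.IntA

open MeasureTheory Set Filter Topology Metric
open scoped RealInnerProductSpace ENNReal NNReal

namespace PLap

namespace Intr

variable {E : Type*} [NormedAddCommGroup E] [InnerProductSpace ℝ E] [FiniteDimensional ℝ E]
  [CompleteSpace E] [MeasurableSpace E] [BorelSpace E]

section reg

variable {Ω : Set E} {v : E → ℝ}

omit [FiniteDimensional ℝ E] [MeasurableSpace E] [BorelSpace E] in
theorem gcont (hv : Reg Ω v) : ContinuousOn (gradient v) Ω := by
  have h1 : ContinuousOn (fderiv ℝ v) Ω := hv.c1.continuousOn_fderiv_of_isOpen hv.isOpen le_rfl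
  exact (InnerProductSpace.toDual ℝ E).symm.continuous.comp_continuousOn h1

omit [FiniteDimensional ℝ E] [CompleteSpace E] [MeasurableSpace E] [BorelSpace E] in
theorem gdiff (hv : Reg Ω v) {x : E} (hx : x ∈ Ω) : DifferentiableAt ℝ v x :=
  (hv.c1.differentiableOn (by norm_num)).differentiableAt (hv.isOpen.mem_nhds hx)

omit [FiniteDimensional ℝ E] [MeasurableSpace E] [BorelSpace E] in
theorem isOpen_pre (hv : Reg Ω v) {S : Set E} (hS : IsOpen S) :
    IsOpen {x | x ∈ Ω ∧ gradient v x ∈ S} :=
  (gcont hv).isOpen_inter_preimage hv.isOpen hS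

omit [FiniteDimensional ℝ E] in
theorem measurable_gradient (v : E → ℝ) : Measurable (gradient v) :=
  (InnerProductSpace.toDual ℝ E).symm.continuous.measurable.comp (measurable_fderiv ℝ v)

omit [MeasurableSpace E] [BorelSpace E] in
theorem unif_cont (hv : Reg Ω v) {K : Set E} (hK : IsCompact K) (hKΩ : K ⊆ Ω) {η : ℝ}
    (hη : 0 < η) : ∃ t₀ > 0, ∀ t ∈ Ioo (0:ℝ) t₀, ∀ e : E, ‖e‖ ≤ 1 → ∀ x ∈ K, x + t • e ∈ Ω ∧
      ‖gradient v (x + t • e) - gradient v x‖ ≤ η := by
  obtain ⟨ρ, hρ, hsub⟩ := hK.exists_cthickening_subset_open hv.isOpen hKΩ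
  have hc : IsCompact (cthickening ρ K) := hK.cthickening
  have huc := hc.uniformContinuousOn_of_continuous ((gcont hv).mono hsub)
  rw [Metric.uniformContinuousOn_iff] at huc
  obtain ⟨θ, hθ, h⟩ := huc η hη
  refine ⟨min ρ θ, lt_min hρ hθ, fun t ht e he x hx => ?_⟩
  have ht0 := ht.1
  have htn : ‖t • e‖ ≤ t := by
    rw [norm_smul, Real.norm_eq_abs, abs_of_pos ht0]
    exact mul_le_of_le_one_right ht0.le he
  have h1 : x + t • e ∈ cthickening ρ K := by
    apply mem_cthickening_of_dist_le _ x ρ K hx
    rw [dist_eq_norm, add_sub_cancel_left]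
    exact htn.trans (ht.2.le.trans (min_le_left _ _))
  have h2 : x ∈ cthickening ρ K := self_subset_cthickening _ hx
  refine ⟨hsub h1, ?_⟩
  have h3 := h _ h1 _ h2 (by
    rw [dist_eq_norm, add_sub_cancel_left]
    exact htn.trans_lt (ht.2.trans_le (min_le_right _ _)))
  rw [dist_eq_norm] at h3
  exact h3.le

/-- Difference quotients of a nonlinear function of the gradient. -/
noncomputable def DA (A : E → E) (v : E → ℝ) (t : ℝ) (x : E) : ℝ :=
  ∑ i, ⟪A (gradient v (x + t • stdOrthonormalBasis ℝ E i)) - A (gradient v x),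
    stdOrthonormalBasis ℝ E i⟫ / t

/-- Size of the difference quotient of the gradient. -/
noncomputable def FF (v : E → ℝ) (t : ℝ) (x : E) : ℝ :=
  ∑ i, ‖gradient v (x + t • stdOrthonormalBasis ℝ E i) - gradient v x‖ / t

theorem DA_lim (hv : Reg Ω v) {A : E → E} (hA : Continuous A) {f : E → ℝ} (hf : LipC Ω f) :
    Tendsto (fun t : ℝ => ∫ x, f x * DA A v t x) (𝓝[>] 0)
      (𝓝 (- ∫ x, ⟪A (gradient v x), gradient f x⟫)) := by
  obtain ⟨⟨L, hL⟩, hfc, hfs⟩ := hf
  obtain ⟨ρ, hρ, hsub⟩ := hfc.isCompact.exists_cthickening_subset_open hv.isOpen hfs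
  obtain ⟨K, hK⟩ : ∃ K, K = cthickening ρ (tsupport f) := ⟨_, rfl⟩
  have hKc : IsCompact K := by
    rw [hK]; exact IsCompact.cthickening hfc
  rw [← hK] at hsub
  obtain ⟨g, hg⟩ : ∃ g : Fin (Module.finrank ℝ E) → E → ℝ, g = fun i =>
    K.indicator (fun x => ⟪A (gradient v x), stdOrthonormalBasis ℝ E i⟫) := ⟨_, rfl⟩
  have hgi : ∀ i, Integrable (g i) := by
    intro i
    rw [hg, integrable_indicator_iff hKc.measurableSet]
    refine ContinuousOn.integrableOn_compact hKc ?_
    exact (hA.comp_continuousOn ((gcont hv).mono hsub)).inner continuousOn_const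
  obtain ⟨B, hB⟩ := hfc.exists_bound_of_continuous hL.continuous
  have hint : ∀ (i) (t : ℝ), Integrable (fun x => f x *
      ((g i (x + t • stdOrthonormalBasis ℝ E i) - g i x) / t)) := by
    intro i t
    refine Integrable.bdd_mul (c := B) ((((hgi i).comp_add_right _).sub (hgi i)).div_const t)
      hL.continuous.aestronglyMeasurable (Eventually.of_forall (fun x => hB _))
  have h1 := tendsto_finsetSum Finset.univ (fun i _ =>
    lim_translate hL hfc (hgi i) (stdOrthonormalBasis ℝ E i))
  have e1 : ∑ i, (- ∫ x, lineDeriv ℝ f x (stdOrthonormalBasis ℝ E i) * g i x) =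
      - ∫ x, ⟪A (gradient v x), gradient f x⟫ := by
    rw [Finset.sum_neg_distrib, ← integral_finsetSum]
    · congr 1
      refine integral_congr_ae ?_
      filter_upwards [hL.ae_differentiableAt] with x hx
      by_cases hxs : x ∈ tsupport f
      · have hxK : x ∈ K := by
          rw [hK]; exact self_subset_cthickening _ hxs
        have : ∀ i, lineDeriv ℝ f x (stdOrthonormalBasis ℝ E i) * g i x =
            ⟪A (gradient v x), stdOrthonormalBasis ℝ E i⟫ *
              ⟪stdOrthonormalBasis ℝ E i, gradient f x⟫ := by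
          intro i
          rw [lineDeriv_eq hx, hg]
          simp only [indicator_of_mem hxK]
          rw [real_inner_comm, mul_comm]
        simp only [this]
        exact (stdOrthonormalBasis ℝ E).sum_inner_mul_inner _ _
      · simp only [lineDeriv_zero hxs, gradient_zero hxs, zero_mul, Finset.sum_const_zero,
          inner_zero_right]
    · intro i _
      refine (hgi i).bdd_mul (c := L * ‖stdOrthonormalBasis ℝ E i‖) ?_ ?_
      · exact (aestronglyMeasurable_lineDeriv hL.continuous _)
      · exact Eventually.of_forall (fun x => norm_lineDeriv_le_of_lipschitz ℝ hL)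
  rw [e1] at h1
  refine h1.congr' ?_
  filter_upwards [Ioo_mem_nhdsGT hρ] with t ht
  rw [← integral_finsetSum _ (fun i _ => hint i t)]
  refine integral_congr_ae (Eventually.of_forall (fun x => ?_))
  simp only
  by_cases hxs : x ∈ tsupport f
  · unfold DA
    rw [Finset.mul_sum]
    refine Finset.sum_congr rfl (fun i _ => ?_)
    have hxK : x ∈ K := by
      rw [hK]; exact self_subset_cthickening _ hxs
    have hxK' : x + t • stdOrthonormalBasis ℝ E i ∈ K := by
      rw [hK]
      apply mem_cthickening_of_dist_le _ x ρ _ hxs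
      rw [dist_eq_norm, add_sub_cancel_left, norm_smul, Real.norm_eq_abs, abs_of_pos ht.1,
        (stdOrthonormalBasis ℝ E).norm_eq_one, mul_one]
      exact ht.2.le
    rw [hg]
    simp only [indicator_of_mem hxK, indicator_of_mem hxK', inner_sub_left]
  · rw [image_eq_zero_of_notMem_tsupport hxs]
    simp

theorem lim_Q (hv : Reg Ω v) (b : OrthonormalBasis (Fin (Module.finrank ℝ E)) ℝ E)
    (μ : Fin (Module.finrank ℝ E) → ℝ) {f : E → ℝ} (hf : LipC Ω f) :
    Tendsto (fun r : ℝ => ∫ x, f x * Qr b μ v r x) (𝓝[>] 0)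
      (𝓝 (- ∫ x, ⟪Nop b μ (gradient v x), gradient f x⟫)) := by
  obtain ⟨⟨L, hL⟩, hfc, hfs⟩ := hf
  obtain ⟨ρ, hρ, hsub⟩ := hfc.isCompact.exists_cthickening_subset_open hv.isOpen hfs
  obtain ⟨K, hK⟩ : ∃ K, K = cthickening ρ (tsupport f) := ⟨_, rfl⟩
  have hKc : IsCompact K := by
    rw [hK]; exact IsCompact.cthickening hfc
  rw [← hK] at hsub
  obtain ⟨V, -, ⟨L', hV⟩, hVv, -⟩ := exists_global hv.isOpen hv.cvx hKc hsub
  have h1 := tendsto_finsetSum Finset.univ (fun i _ => (lim_second hV hL hfc (b i)).const_mul (μ i))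
  have hld : ∀ (h : E → ℝ) (M : ℝ≥0), LipschitzWith M h → ∀ e, AEStronglyMeasurable
      (fun x => lineDeriv ℝ h x e) volume := fun h M hM e =>
    aestronglyMeasurable_lineDeriv hM.continuous _
  have hinner : ∀ i, Integrable (fun x => lineDeriv ℝ V x (b i) * lineDeriv ℝ f x (b i)) := by
    intro i
    have hi : Integrable (fun x => lineDeriv ℝ f x (b i)) := by
      have hi1 : IntegrableOn (fun x => lineDeriv ℝ f x (b i)) (tsupport f) := by
        refine Measure.integrableOn_of_bounded (M := L * ‖b i‖) hfc.isCompact.measure_lt_top.ne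
          (hld f L hL (b i)) ?_
        exact Eventually.of_forall (fun x => norm_lineDeriv_le_of_lipschitz ℝ hL)
      refine (integrable_indicator_iff (isClosed_tsupport f).measurableSet).2 hi1 |>.congr ?_
      refine Eventually.of_forall (fun x => ?_)
      by_cases hx : x ∈ tsupport f
      · rw [indicator_of_mem hx]
      · rw [indicator_of_notMem hx]
        exact (lineDeriv_zero hx _).symm
    exact hi.bdd_mul (c := L' * ‖b i‖) (hld V L' hV (b i))
      (Eventually.of_forall (fun x => norm_lineDeriv_le_of_lipschitz ℝ hV))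
  have e1 : ∑ i, μ i * (- ∫ x, lineDeriv ℝ V x (b i) * lineDeriv ℝ f x (b i)) =
      - ∫ x, ⟪Nop b μ (gradient v x), gradient f x⟫ := by
    have : ∀ i, μ i * (- ∫ x, lineDeriv ℝ V x (b i) * lineDeriv ℝ f x (b i)) =
        - ∫ x, μ i * (lineDeriv ℝ V x (b i) * lineDeriv ℝ f x (b i)) := by
      intro i
      rw [integral_const_mul]
      ring
    simp only [this]
    rw [Finset.sum_neg_distrib, ← integral_finsetSum _ (fun i _ => (hinner i).const_mul _)]
    congr 1
    refine integral_congr_ae ?_
    filter_upwards [hL.ae_differentiableAt] with x hx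
    by_cases hxs : x ∈ tsupport f
    · have hnh : V =ᶠ[𝓝 x] v := by
        have : K ∈ 𝓝 x := by
          rw [hK]
          exact Filter.mem_of_superset (isOpen_thickening.mem_nhds
            (self_subset_thickening hρ _ hxs)) (thickening_subset_cthickening _ _)
        filter_upwards [this] with y hy using hVv y hy
      have hxΩ : x ∈ Ω := hfs hxs
      have hd : DifferentiableAt ℝ V x := hnh.differentiableAt_iff.2 (gdiff hv hxΩ)
      have hg : gradient V x = gradient v x := by
        unfold gradient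
        rw [hnh.fderiv_eq]
      simp only [lineDeriv_eq hx, lineDeriv_eq hd, hg]
      unfold Nop
      rw [sum_inner]
      refine Finset.sum_congr rfl (fun i _ => ?_)
      rw [inner_smul_left]
      simp only [conj_trivial]
      rw [real_inner_comm (b i) (gradient v x), real_inner_comm (b i) (gradient f x)]
      ring
    · simp only [lineDeriv_zero hxs, gradient_zero hxs, mul_zero, Finset.sum_const_zero,
        inner_zero_right]
  rw [e1] at h1
  refine h1.congr' ?_
  filter_upwards [Ioo_mem_nhdsGT hρ] with r hr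
  have hmem : ∀ x ∈ tsupport f, ∀ i, x + r • b i ∈ K ∧ x - r • b i ∈ K ∧ x ∈ K := by
    intro x hx i
    have hn : ‖r • b i‖ ≤ ρ := by
      rw [norm_smul, Real.norm_eq_abs, abs_of_pos hr.1, b.norm_eq_one, mul_one]
      exact hr.2.le
    rw [hK]
    refine ⟨?_, ?_, self_subset_cthickening _ hx⟩
    · apply mem_cthickening_of_dist_le _ x ρ _ hx
      rw [dist_eq_norm, add_sub_cancel_left]
      exact hn
    · apply mem_cthickening_of_dist_le _ x ρ _ hx
      rw [dist_eq_norm, sub_sub_cancel_left, norm_neg]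
      exact hn
  have hVc := hV.continuous
  have hfcont := hL.continuous
  have hint : ∀ i, Integrable (fun x => f x * ((V (x + r • b i) + V (x - r • b i) - 2 * V x) /
      r ^ 2)) := fun i =>
    Continuous.integrable_of_hasCompactSupport (by fun_prop) (hfc.mul_right)
  have : ∀ i, μ i * ∫ x, f x * ((V (x + r • b i) + V (x - r • b i) - 2 * V x) / r ^ 2) =
      ∫ x, μ i * (f x * ((V (x + r • b i) + V (x - r • b i) - 2 * V x) / r ^ 2)) := by
    intro i
    rw [integral_const_mul]
  simp only [this]
  rw [← integral_finsetSum _ (fun i _ => (hint i).const_mul _)]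
  refine integral_congr_ae (Eventually.of_forall (fun x => ?_))
  simp only
  by_cases hxs : x ∈ tsupport f
  · unfold Qr
    rw [Finset.mul_sum]
    refine Finset.sum_congr rfl (fun i _ => ?_)
    obtain ⟨h2, h3, h4⟩ := hmem x hxs i
    rw [hVv _ h2, hVv _ h3, hVv _ h4]
    ring
  · rw [image_eq_zero_of_notMem_tsupport hxs]
    simp

end reg

end Intr

end PLap
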