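import Pool.Agent.Lib.MP_a627f3_an.IntB

open MeasureTheory Set Filter Topology Metric
open scoped RealInnerProductSpace ENNReal NNReal

namespace PLap

namespace Intr

section sq

variable {X : Type*} [MeasurableSpace X] {μ : Measure X}

theorem sum_sq_bound {J : Type*} [Fintype J] (h : J → X → ℝ) (hm : ∀ j, MemLp (h j) 2 μ) {C : ℝ}
    (hC : ∀ j, ∫ x, h j x ^ 2 ∂μ ≤ C) :
    MemLp (fun x => ∑ j, h j x) 2 μ ∧
      ∫ x, (∑ j, h j x) ^ 2 ∂μ ≤ (Fintype.card J : ℝ) ^ 2 * C := by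
  have h0 : MemLp (fun x => ∑ j, h j x) 2 μ := memLp_finsetSum _ (fun j _ => hm j)
  refine ⟨h0, ?_⟩
  have h1 : ∫ x, (∑ j, h j x) ^ 2 ∂μ ≤ ∫ x, (Fintype.card J : ℝ) * ∑ j, h j x ^ 2 ∂μ := by
    refine integral_mono h0.integrable_sq
      ((integrable_finsetSum _ (fun j _ => (hm j).integrable_sq)).const_mul _) ?_
    intro x
    have := sq_sum_le_card_mul_sum_sq (s := (Finset.univ : Finset J)) (f := fun j => h j x)
    simpa using this
  refine h1.trans ?_
  rw [integral_const_mul, integral_finsetSum _ (fun j _ => (hm j).integrable_sq), sq, mul_assoc]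
  refine mul_le_mul_of_nonneg_left ?_ (Nat.cast_nonneg _)
  refine (Finset.sum_le_card_nsmul _ _ C (fun j _ => hC j)).trans (le_of_eq ?_)
  rw [nsmul_eq_mul, Finset.card_univ]

end sq

variable {E : Type*} [NormedAddCommGroup E] [InnerProductSpace ℝ E] [FiniteDimensional ℝ E]
  [CompleteSpace E] [MeasurableSpace E] [BorelSpace E]

section reg

variable {Ω : Set E} {v : E → ℝ}

omit [FiniteDimensional ℝ E] [CompleteSpace E] [InnerProductSpace ℝ E] [NormedAddCommGroup E]
  [MeasurableSpace E] [BorelSpace E] in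
theorem memLp_cont {E : Type*} [NormedAddCommGroup E] [InnerProductSpace ℝ E]
    [FiniteDimensional ℝ E] [MeasurableSpace E] [BorelSpace E] {K : Set E} (hK : IsCompact K)
    {h : E → ℝ} (hc : ContinuousOn h K) : MemLp h 2 (volume.restrict K) := by
  have : IsFiniteMeasure (volume.restrict K) :=
    ⟨by rw [Measure.restrict_apply_univ]; exact hK.measure_lt_top⟩
  obtain ⟨C, hC⟩ := hK.exists_bound_of_continuousOn hc
  refine MemLp.of_bound (hc.aestronglyMeasurable hK.measurableSet) C ?_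
  exact (ae_restrict_iff' hK.measurableSet).2 (Eventually.of_forall hC)

/-- Basic facts for one difference quotient of the gradient. -/
theorem delta_facts (hv : Reg Ω v) (hw : W22loc Ω v) {K : Set E} (hK : IsCompact K)
    (hKΩ : K ⊆ Ω) (h0 : ∀ x ∈ K, gradient v x ≠ 0) :
    ∃ C : ℝ, 0 ≤ C ∧ ∃ r₁ > 0, ∀ t ∈ Ioo (0:ℝ) r₁, ∀ e : E, ‖e‖ ≤ 1 →
      (∀ x ∈ K, x + t • e ∈ Ω) ∧
      ContinuousOn (fun x => ‖gradient v (x + t • e) - gradient v x‖ / t) K ∧
      ∫ x in K, (‖gradient v (x + t • e) - gradient v x‖ / t) ^ 2 ≤ C := by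
  obtain ⟨C, r₁, hr₁, h⟩ := hw K hK hKΩ h0
  refine ⟨|C|, abs_nonneg _, r₁, hr₁, fun t ht e he => ?_⟩
  obtain ⟨h1, h2⟩ := h t ht e he
  have hc : ContinuousOn (fun x => gradient v (x + t • e)) K := by
    have := (gcont hv).comp (f := fun x => x + t • e) (s := K)
      (continuous_id.add continuous_const).continuousOn h1
    exact this
  refine ⟨h1, ((hc.sub ((gcont hv).mono hKΩ)).norm).div_const t, ?_⟩
  have ht0 : (0 : ℝ) < t := ht.1
  have e1 : ∫ x in K, (‖gradient v (x + t • e) - gradient v x‖ / t) ^ 2 =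
      (t ^ 2)⁻¹ * ∫ x in K, ‖gradient v (x + t • e) - gradient v x‖ ^ 2 := by
    rw [← integral_const_mul]
    refine integral_congr_ae (Eventually.of_forall (fun x => ?_))
    simp only [div_pow]
    ring
  rw [e1, inv_mul_le_iff₀ (by positivity)]
  calc _ ≤ C * t ^ 2 := h2
    _ ≤ _ := by nlinarith [le_abs_self C, sq_nonneg t]

theorem FF_facts (hv : Reg Ω v) (hw : W22loc Ω v) {K : Set E} (hK : IsCompact K)
    (hKΩ : K ⊆ Ω) (h0 : ∀ x ∈ K, gradient v x ≠ 0) :
    ∃ C : ℝ, 0 ≤ C ∧ ∃ r₁ > 0, ∀ t ∈ Ioo (0:ℝ) r₁, ContinuousOn (FF v t) K ∧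
      ∫ x in K, FF v t x ^ 2 ≤ C := by
  obtain ⟨C, hC, r₁, hr₁, h⟩ := delta_facts hv hw hK hKΩ h0
  refine ⟨(Fintype.card (Fin (Module.finrank ℝ E)) : ℝ) ^ 2 * C, by positivity, r₁, hr₁,
    fun t ht => ?_⟩
  have hj : ∀ i, ContinuousOn (fun x => ‖gradient v (x + t • stdOrthonormalBasis ℝ E i) -
      gradient v x‖ / t) K := fun i =>
    (h t ht _ ((stdOrthonormalBasis ℝ E).norm_eq_one i).le).2.1
  constructor
  · exact continuousOn_finsetSum _ (fun i _ => hj i)
  · exact (sum_sq_bound (fun i x => ‖gradient v (x + t • stdOrthonormalBasis ℝ E i) -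
      gradient v x‖ / t) (fun i => memLp_cont hK (hj i)) (fun i =>
      (h t ht _ ((stdOrthonormalBasis ℝ E).norm_eq_one i).le).2.2)).2

/-- Two-sided bound for a second difference of a convex function. -/
theorem second_diff (hv : Reg Ω v) {x b : E} {r : ℝ} (hr : 0 < r) (hb : ‖b‖ ≤ 1) (hx : x ∈ Ω)
    (h1 : x + r • b ∈ Ω) (h2 : x + r • (-b) ∈ Ω) :
    |(v (x + r • b) + v (x - r • b) - 2 * v x) / r ^ 2| ≤
      ‖gradient v (x + r • b) - gradient v x‖ / r + ‖gradient v (x + r • (-b)) - gradient v x‖ / r := by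
  have hxm : x + r • (-b) = x - r • b := by rw [smul_neg, sub_eq_add_neg]
  have a1 := tangent_le hv.cvx hx (gdiff hv hx) h1
  have a2 := tangent_le hv.cvx hx (gdiff hv hx) h2
  have a3 := tangent_le hv.cvx h1 (gdiff hv h1) hx
  have a4 := tangent_le hv.cvx h2 (gdiff hv h2) hx
  have b1 : x + r • b - x = r • b := by abel
  have b2 : x + r • (-b) - x = - (r • b) := by rw [smul_neg]; abel
  have b3 : x - (x + r • b) = - (r • b) := by abel
  have b4 : x - (x + r • (-b)) = r • b := by rw [smul_neg]; abel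
  rw [b1, inner_smul_right] at a1
  rw [b2, inner_neg_right, inner_smul_right] at a2
  rw [b3, inner_neg_right, inner_smul_right] at a3
  rw [b4, inner_smul_right] at a4
  rw [← hxm]
  have c1 : ⟪gradient v (x + r • b) - gradient v x, b⟫ ≤
      ‖gradient v (x + r • b) - gradient v x‖ := by
    refine (real_inner_le_norm _ _).trans ?_
    exact mul_le_of_le_one_right (norm_nonneg _) hb
  have c2 : ⟪gradient v x - gradient v (x + r • (-b)), b⟫ ≤
      ‖gradient v (x + r • (-b)) - gradient v x‖ := by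
    refine (real_inner_le_norm _ _).trans ?_
    rw [norm_sub_rev]
    exact mul_le_of_le_one_right (norm_nonneg _) hb
  rw [inner_sub_left] at c1 c2
  have hnn : 0 ≤ v (x + r • b) + v (x + r • (-b)) - 2 * v x := by linarith
  rw [abs_of_nonneg (by positivity), ← add_div, div_le_div_iff₀ (by positivity) hr]
  have hup : v (x + r • b) + v (x + r • (-b)) - 2 * v x ≤
      r * (‖gradient v (x + r • b) - gradient v x‖ +
        ‖gradient v (x + r • (-b)) - gradient v x‖) := by nlinarith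
  nlinarith

theorem Qr_facts (hv : Reg Ω v) (hw : W22loc Ω v) {K : Set E} (hK : IsCompact K)
    (hKΩ : K ⊆ Ω) (h0 : ∀ x ∈ K, gradient v x ≠ 0)
    (b : OrthonormalBasis (Fin (Module.finrank ℝ E)) ℝ E)
    (μ : Fin (Module.finrank ℝ E) → ℝ) :
    ∃ C : ℝ, 0 ≤ C ∧ ∃ r₁ > 0, ∀ r ∈ Ioo (0:ℝ) r₁, ContinuousOn (Qr b μ v r) K ∧
      (∀ x ∈ K, ∀ i, x + r • b i ∈ Ω ∧ x - r • b i ∈ Ω) ∧
      ∫ x in K, Qr b μ v r x ^ 2 ≤ C := by
  obtain ⟨C, hC, r₁, hr₁, h⟩ := delta_facts hv hw hK hKΩ h0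
  obtain ⟨M, hM0, hM⟩ : ∃ M : ℝ, 0 ≤ M ∧ ∀ i, |μ i| ≤ M :=
    ⟨∑ i, |μ i|, Finset.sum_nonneg (fun i _ => abs_nonneg _), fun i =>
      Finset.single_le_sum (f := fun i => |μ i|) (fun j _ => abs_nonneg _) (Finset.mem_univ i)⟩
  refine ⟨(Fintype.card (Fin (Module.finrank ℝ E)) : ℝ) ^ 2 * (4 * M ^ 2 * C), by positivity,
    r₁, hr₁, fun r hr => ?_⟩
  have hr0 : (0 : ℝ) < r := hr.1
  have hn : ∀ i, ‖b i‖ ≤ 1 := fun i => (b.norm_eq_one i).le
  have hn' : ∀ i, ‖-b i‖ ≤ 1 := fun i => by rw [norm_neg]; exact hn i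
  have hmem : ∀ x ∈ K, ∀ i, x + r • b i ∈ Ω ∧ x - r • b i ∈ Ω := by
    intro x hx i
    refine ⟨(h r hr _ (hn i)).1 x hx, ?_⟩
    have := (h r hr _ (hn' i)).1 x hx
    rwa [smul_neg, ← sub_eq_add_neg] at this
  have hvc : ContinuousOn v Ω := hv.c1.continuousOn
  have hci : ∀ i, ContinuousOn (fun x => μ i * ((v (x + r • b i) + v (x - r • b i) - 2 * v x) /
      r ^ 2)) K := by
    intro i
    have c1 : ContinuousOn (fun x => v (x + r • b i)) K := by
      have := hvc.comp (f := fun x => x + r • b i) (s := K)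
        (continuous_id.add continuous_const).continuousOn (fun x hx => (hmem x hx i).1)
      exact this
    have c2 : ContinuousOn (fun x => v (x - r • b i)) K := by
      have := hvc.comp (f := fun x => x - r • b i) (s := K)
        (continuous_id.sub continuous_const).continuousOn (fun x hx => (hmem x hx i).2)
      exact this
    exact continuousOn_const.mul (((c1.add c2).sub (continuousOn_const.mul
      (hvc.mono hKΩ))).div_const _)
  refine ⟨continuousOn_finsetSum _ (fun i _ => hci i), hmem, ?_⟩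
  refine (sum_sq_bound (fun i x => μ i * ((v (x + r • b i) + v (x - r • b i) - 2 * v x) /
      r ^ 2)) (fun i => memLp_cont hK (hci i)) (fun i => ?_)).2
  have k1 := (h r hr _ (hn i)).2
  have k2 := (h r hr _ (hn' i)).2
  have j1 := (memLp_cont hK k1.1).integrable_sq
  have j2 := (memLp_cont hK k2.1).integrable_sq
  have hle : ∫ x in K, (μ i * ((v (x + r • b i) + v (x - r • b i) - 2 * v x) / r ^ 2)) ^ 2 ≤
      ∫ x in K, (2 * M ^ 2 * (‖gradient v (x + r • b i) - gradient v x‖ / r) ^ 2 +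
        2 * M ^ 2 * (‖gradient v (x + r • (-b i)) - gradient v x‖ / r) ^ 2) := by
    refine setIntegral_mono_on (memLp_cont hK (hci i)).integrable_sq
      ((j1.const_mul _).add (j2.const_mul _)) hK.measurableSet ?_
    intro x hx
    have h3 := second_diff hv hr0 (hn i) (hKΩ hx) ((h r hr _ (hn i)).1 x hx)
      ((h r hr _ (hn' i)).1 x hx)
    have h4 := hM i
    rw [mul_pow, ← sq_abs (μ i), ← sq_abs ((v (x + r • b i) + v (x - r • b i) - 2 * v x) / r ^ 2)]
    have p1 : 0 ≤ ‖gradient v (x + r • b i) - gradient v x‖ / r := by positivity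
    have p2 : 0 ≤ ‖gradient v (x + r • (-b i)) - gradient v x‖ / r := by positivity
    have q1 : |μ i| ^ 2 ≤ M ^ 2 := pow_le_pow_left₀ (abs_nonneg _) h4 2
    have q2 : |(v (x + r • b i) + v (x - r • b i) - 2 * v x) / r ^ 2| ^ 2 ≤
        (‖gradient v (x + r • b i) - gradient v x‖ / r +
          ‖gradient v (x + r • (-b i)) - gradient v x‖ / r) ^ 2 :=
      pow_le_pow_left₀ (abs_nonneg _) h3 2
    have q3 : (‖gradient v (x + r • b i) - gradient v x‖ / r +
          ‖gradient v (x + r • (-b i)) - gradient v x‖ / r) ^ 2 ≤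
        2 * (‖gradient v (x + r • b i) - gradient v x‖ / r) ^ 2 +
          2 * (‖gradient v (x + r • (-b i)) - gradient v x‖ / r) ^ 2 := by
      nlinarith [sq_nonneg (‖gradient v (x + r • b i) - gradient v x‖ / r -
          ‖gradient v (x + r • (-b i)) - gradient v x‖ / r)]
    calc _ ≤ M ^ 2 * (2 * (‖gradient v (x + r • b i) - gradient v x‖ / r) ^ 2 +
          2 * (‖gradient v (x + r • (-b i)) - gradient v x‖ / r) ^ 2) :=
          mul_le_mul q1 (q2.trans q3) (sq_nonneg _) (sq_nonneg _)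
      _ = _ := by ring
  refine hle.trans ?_
  rw [integral_add (j1.const_mul _) (j2.const_mul _), integral_const_mul, integral_const_mul]
  have hM2 : 0 ≤ 2 * M ^ 2 := by positivity
  have u1 := mul_le_mul_of_nonneg_left k1.2 hM2
  have u2 := mul_le_mul_of_nonneg_left k2.2 hM2
  linarith

end reg

end Intr

end PLap
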