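import Pool.Agent.Lib.MP_a627f3_an.IntC

open MeasureTheory Set Filter Topology Metric
open scoped RealInnerProductSpace ENNReal NNReal

namespace PLap

namespace Intr

variable {E : Type*} [NormedAddCommGroup E] [InnerProductSpace ℝ E] [FiniteDimensional ℝ E]
  [CompleteSpace E] [MeasurableSpace E] [BorelSpace E]

section reg

variable {Ω : Set E} {v : E → ℝ}

omit [CompleteSpace E] [MeasurableSpace E] [BorelSpace E] [FiniteDimensional ℝ E]
  [InnerProductSpace ℝ E] in
theorem lipC_sub {U : Set E} {f g : E → ℝ} (hf : LipC U f) (hg : LipC U g) :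
    LipC U (fun x => f x - g x) ∧ tsupport (fun x => f x - g x) ⊆ tsupport f ∪ tsupport g := by
  obtain ⟨⟨L, hL⟩, hfc, hfs⟩ := hf
  obtain ⟨⟨L', hL'⟩, hgc, hgs⟩ := hg
  have hs : tsupport (fun x => f x - g x) ⊆ tsupport f ∪ tsupport g := by
    refine closure_minimal ?_ ((isClosed_tsupport f).union (isClosed_tsupport g))
    intro x hx
    by_contra h
    rw [mem_union, not_or] at h
    apply hx
    simp only [image_eq_zero_of_notMem_tsupport h.1, image_eq_zero_of_notMem_tsupport h.2,
      sub_self]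
  refine ⟨⟨⟨L + L', hL.sub hL'⟩, ?_, hs.trans (union_subset hfs hgs)⟩, hs⟩
  exact HasCompactSupport.of_support_subset_isCompact (hfc.isCompact.union hgc.isCompact)
    (fun x hx => hs (subset_tsupport _ hx))

theorem approx_cont {U : Set E} (hU : IsOpen U) {φ : E → ℝ} (hφ : Continuous φ)
    (hc : HasCompactSupport φ) (hs : tsupport φ ⊆ U) {ε : ℝ} (hε : 0 < ε) :
    ∃ f, LipC U f ∧ tsupport f ⊆ tsupport φ ∧ ∀ x, |f x - φ x| ≤ ε := by
  have s1 : tsupport (fun x => max (φ x) 0) ⊆ tsupport φ := by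
    refine closure_mono ?_
    intro x hx h
    apply hx
    simp [h]
  have s2 : tsupport (fun x => max (-φ x) 0) ⊆ tsupport φ := by
    refine closure_mono ?_
    intro x hx h
    apply hx
    simp [h]
  have c1 : HasCompactSupport (fun x => max (φ x) 0) :=
    hc.isCompact.of_isClosed_subset (isClosed_tsupport _) s1
  have c2 : HasCompactSupport (fun x => max (-φ x) 0) :=
    hc.isCompact.of_isClosed_subset (isClosed_tsupport _) s2
  obtain ⟨f₁, h1, h1s, h1n, h1a, h1b⟩ := lipC_approx hU (hφ.max continuous_const) c1 (s1.trans hs)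
    (fun x => le_max_right _ _) hε
  obtain ⟨f₂, h2, h2s, h2n, h2a, h2b⟩ := lipC_approx hU
    (show Continuous (fun x => max (-φ x) 0) by fun_prop) c2
    (s2.trans hs) (fun x => le_max_right _ _) hε
  obtain ⟨h3, h3s⟩ := lipC_sub h1 h2
  refine ⟨_, h3, h3s.trans (union_subset (h1s.trans s1) (h2s.trans s2)), fun x => ?_⟩
  have a1 := h1n x
  have a2 := h1a x
  have a3 := h1b x
  have b1 := h2n x
  have b2 := h2a x
  have b3 := h2b x
  rcases le_total 0 (φ x) with h0 | h0
  · rw [max_eq_left h0] at a2 a3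
    rw [max_eq_right (by linarith)] at b2 b3
    rw [abs_le]
    constructor <;> linarith
  · rw [max_eq_right h0] at a2 a3
    rw [max_eq_left (by linarith)] at b2 b3
    rw [abs_le]
    constructor <;> linarith

/-- Lipschitz functions are dense in the relevant sense. -/
theorem dens {K : Set E} (hK : IsCompact K) {V : Set E} (hV : IsOpen V) {G : E → ℝ}
    (hG : Continuous G) (hGc : HasCompactSupport G) (hGs : tsupport G ⊆ V) {Ψ : E → ℝ}
    (hΨ : MemLp Ψ 2 (volume.restrict K)) {η : ℝ} (hη : 0 < η) :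
    ∃ f, LipC V f ∧ ∫ x in K, (f x - G x * Ψ x) ^ 2 ≤ η := by
  have hfin : IsFiniteMeasure (volume.restrict K) :=
    ⟨by rw [Measure.restrict_apply_univ]; exact hK.measure_lt_top⟩
  obtain ⟨M, hM⟩ := hGc.exists_bound_of_continuous hG
  obtain ⟨N, hN0, hN⟩ : ∃ N : ℝ, 0 < N ∧ N = (volume.restrict K).real univ + 1 :=
    ⟨_, by positivity, rfl⟩
  have h2 : (2 : ℝ≥0∞) = ENNReal.ofReal 2 := by simp
  rw [h2] at hΨ
  obtain ⟨ψ, hψc, hψi, hψ, hψm⟩ := hΨ.exists_hasCompactSupport_integral_rpow_sub_le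
    (by norm_num : (0:ℝ) < 2) (show 0 < η / (4 * (M ^ 2 + 1)) by positivity)
  rw [← h2] at hψm hΨ
  obtain ⟨f, hf, hfs, hfa⟩ := approx_cont hV (hG.mul hψ) (hGc.mul_right)
    ((tsupport_mul_subset_left).trans hGs) (show 0 < Real.sqrt (η / (4 * N)) by positivity)
  refine ⟨f, hf, ?_⟩
  have hψi' : ∫ x in K, (Ψ x - ψ x) ^ 2 ≤ η / (4 * (M ^ 2 + 1)) := by
    refine le_trans (le_of_eq ?_) hψi
    refine integral_congr_ae (Eventually.of_forall (fun x => ?_))
    simp only
    rw [Real.rpow_two, Real.norm_eq_abs, sq_abs]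
  have hd : Integrable (fun x => (Ψ x - ψ x) ^ 2) (volume.restrict K) :=
    (hΨ.sub hψm).integrable_sq
  have hfL : MemLp (fun x => f x - G x * Ψ x) 2 (volume.restrict K) := by
    have m1 : MemLp f 2 (volume.restrict K) := memLp_cont hK hf.1.choose_spec.continuous.continuousOn
    have m2 : MemLp (fun x => G x * Ψ x) 2 (volume.restrict K) := by
      refine MemLp.of_le_mul (c := M) hΨ (hG.aestronglyMeasurable.mul hΨ.aestronglyMeasurable) ?_
      refine Eventually.of_forall (fun x => ?_)
      rw [norm_mul]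
      exact mul_le_mul_of_nonneg_right (hM x) (norm_nonneg _)
    exact m1.sub m2
  have hle : ∫ x in K, (f x - G x * Ψ x) ^ 2 ≤
      ∫ x in K, (2 * (η / (4 * N)) + 2 * M ^ 2 * (Ψ x - ψ x) ^ 2) := by
    refine integral_mono hfL.integrable_sq ((integrable_const _).add (hd.const_mul _)) ?_
    intro x
    simp only
    have e : f x - G x * Ψ x = (f x - G x * ψ x) - G x * (Ψ x - ψ x) := by ring
    have a1 : (f x - G x * ψ x) ^ 2 ≤ η / (4 * N) := by
      have := hfa x
      simp only [Pi.mul_apply] at this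
      rw [← sq_abs]
      calc |f x - G x * ψ x| ^ 2 ≤ Real.sqrt (η / (4 * N)) ^ 2 :=
            pow_le_pow_left₀ (abs_nonneg _) this 2
        _ = _ := Real.sq_sqrt (by positivity)
    have a2 : (G x * (Ψ x - ψ x)) ^ 2 ≤ M ^ 2 * (Ψ x - ψ x) ^ 2 := by
      rw [mul_pow]
      refine mul_le_mul_of_nonneg_right ?_ (sq_nonneg _)
      have := hM x
      rw [Real.norm_eq_abs] at this
      rw [← sq_abs]
      exact pow_le_pow_left₀ (abs_nonneg _) this 2
    rw [e]
    nlinarith [sq_nonneg ((f x - G x * ψ x) + G x * (Ψ x - ψ x))]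
  refine hle.trans ?_
  rw [integral_add (integrable_const _) (hd.const_mul _), integral_const, integral_const_mul,
    smul_eq_mul]
  have b1 : (volume.restrict K).real univ * (2 * (η / (4 * N))) ≤ η / 2 := by
    have : (volume.restrict K).real univ ≤ N := by rw [hN]; linarith
    calc _ ≤ N * (2 * (η / (4 * N))) := mul_le_mul_of_nonneg_right this (by positivity)
      _ = _ := by field_simp; ring
  have b2 : 2 * M ^ 2 * ∫ x in K, (Ψ x - ψ x) ^ 2 ≤ η / 2 := by
    calc _ ≤ 2 * M ^ 2 * (η / (4 * (M ^ 2 + 1))) :=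
          mul_le_mul_of_nonneg_left hψi' (by positivity)
      _ ≤ _ := by
          rw [mul_div_assoc', div_le_div_iff₀ (by positivity) (by norm_num)]
          nlinarith [sq_nonneg M]
  linarith

/-- Extension of the comparison inequality by density. -/
theorem comparison {K : Set E} (hK : IsCompact K) {V : Set E} (hV : IsOpen V) {G : E → ℝ}
    (hG : Continuous G) (hGc : HasCompactSupport G) (hGs : tsupport G ⊆ V) {Ψ H m : E → ℝ}
    (hΨ : MemLp Ψ 2 (volume.restrict K)) (hH : MemLp H 2 (volume.restrict K))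
    (hm : MemLp m 2 (volume.restrict K)) {ε : ℝ} (hε : 0 ≤ ε)
    (h : ∀ f, LipC V f → |∫ x in K, H x * f x| ≤ ε * ∫ x in K, m x * |f x|) :
    ∫ x in K, H x * (G x * Ψ x) ≤ ε * ∫ x in K, m x * |G x * Ψ x| := by
  obtain ⟨M, hM⟩ := hGc.exists_bound_of_continuous hG
  have hW : MemLp (fun x => G x * Ψ x) 2 (volume.restrict K) := by
    refine MemLp.of_le_mul (c := M) hΨ (hG.aestronglyMeasurable.mul hΨ.aestronglyMeasurable) ?_
    refine Eventually.of_forall (fun x => ?_)
    rw [norm_mul]
    exact mul_le_mul_of_nonneg_right (hM x) (norm_nonneg _)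
  obtain ⟨B, hB⟩ : ∃ B : ℝ, B = (∫ x in K, H x ^ 2) / 2 + 1 / 2 +
    ε * ((∫ x in K, m x ^ 2) / 2 + 1 / 2) := ⟨_, rfl⟩
  have hkey : ∀ η : ℝ, 0 < η → ∫ x in K, H x * (G x * Ψ x) ≤
      ε * (∫ x in K, m x * |G x * Ψ x|) + B * η := by
    intro η hη
    obtain ⟨f, hf, hfi⟩ := dens hK hV hG hGc hGs hΨ (show 0 < η ^ 2 by positivity)
    have hfm : MemLp f 2 (volume.restrict K) :=
      memLp_cont hK hf.1.choose_spec.continuous.continuousOn
    have hdm : MemLp (fun x => f x - G x * Ψ x) 2 (volume.restrict K) := hfm.sub hW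
    have h1 := cs_eta hH hdm hη
    have h2 := cs_eta hm hdm hη
    have h3 : 1 / (2 * η) * ∫ x in K, (f x - G x * Ψ x) ^ 2 ≤ η / 2 := by
      calc _ ≤ 1 / (2 * η) * η ^ 2 := mul_le_mul_of_nonneg_left hfi (by positivity)
        _ = _ := by field_simp
    have e1 : ∫ x in K, H x * (G x * Ψ x) =
        (∫ x in K, H x * f x) - ∫ x in K, H x * (f x - G x * Ψ x) := by
      have j1 : Integrable (fun x => H x * f x) (volume.restrict K) := hH.integrable_mul hfm
      have j2 : Integrable (fun x => H x * (f x - G x * Ψ x)) (volume.restrict K) :=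
        hH.integrable_mul hdm
      rw [← integral_sub j1 j2]
      refine integral_congr_ae (Eventually.of_forall (fun x => ?_))
      simp only
      ring
    have e2 : |∫ x in K, H x * (f x - G x * Ψ x)| ≤ ∫ x in K, |H x * (f x - G x * Ψ x)| :=
      abs_integral_le_integral_abs
    have e3 : ∫ x in K, m x * |f x| ≤ (∫ x in K, m x * |G x * Ψ x|) +
        ∫ x in K, |m x * (f x - G x * Ψ x)| := by
      have j1 : Integrable (fun x => m x * |G x * Ψ x|) (volume.restrict K) :=
        hm.integrable_mul hW.abs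
      have j2 : Integrable (fun x => |m x * (f x - G x * Ψ x)|) (volume.restrict K) :=
        (hm.integrable_mul hdm).abs
      rw [← integral_add j1 j2]
      refine integral_mono (hm.integrable_mul hfm.abs) (j1.add j2) ?_
      intro x
      simp only
      have t1 : |(|f x| - |G x * Ψ x|)| ≤ |f x - G x * Ψ x| := abs_abs_sub_abs_le _ _
      have t2 : m x * (|f x| - |G x * Ψ x|) ≤ |m x * (f x - G x * Ψ x)| := by
        refine (le_abs_self _).trans ?_
        rw [abs_mul (m x), abs_mul (m x)]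
        exact mul_le_mul_of_nonneg_left t1 (abs_nonneg _)
      linarith
    have h4 := h f hf
    have h5 := (abs_le.1 h4).2
    have h6 := (abs_le.1 e2).1
    have h7 := mul_le_mul_of_nonneg_left e3 hε
    have h8 := mul_le_mul_of_nonneg_left (h2.trans (add_le_add_right h3 _)) hε
    rw [e1, hB]
    nlinarith
  have hB0 : 0 ≤ B := by
    have i1 : 0 ≤ ∫ x in K, H x ^ 2 := integral_nonneg (fun x => sq_nonneg _)
    have i2 : 0 ≤ ∫ x in K, m x ^ 2 := integral_nonneg (fun x => sq_nonneg _)
    rw [hB]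
    positivity
  refine le_of_forall_pos_le_add (fun κ hκ => ?_)
  refine (hkey (κ / (B + 1)) (by positivity)).trans ?_
  have : B * (κ / (B + 1)) ≤ κ := by
    rw [mul_div_assoc', div_le_iff₀ (by positivity)]
    nlinarith
  linarith

end reg

end Intr

end PLap
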