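import Pool.Agent.Lib.MP_a627f3_an.IntD

open MeasureTheory Set Filter Topology Metric
open scoped RealInnerProductSpace ENNReal NNReal

namespace PLap

namespace Intr

variable {E : Type*} [NormedAddCommGroup E] [InnerProductSpace ℝ E] [FiniteDimensional ℝ E]
  [CompleteSpace E] [MeasurableSpace E] [BorelSpace E]

section reg

variable {Ω : Set E} {v : E → ℝ}

omit [MeasurableSpace E] [BorelSpace E] in
theorem DA_cont (hv : Reg Ω v) {A : E → E} (hA : Continuous A) {K : Set E} (hKΩ : K ⊆ Ω) {t : ℝ}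
    (hmem : ∀ x ∈ K, ∀ i, x + t • stdOrthonormalBasis ℝ E i ∈ Ω) : ContinuousOn (DA A v t) K := by
  refine continuousOn_finsetSum _ (fun i _ => ?_)
  have h1 : ContinuousOn (fun x => gradient v (x + t • stdOrthonormalBasis ℝ E i)) K := by
    have := (gcont hv).comp (f := fun x => x + t • stdOrthonormalBasis ℝ E i) (s := K)
      (continuous_id.add continuous_const).continuousOn (fun x hx => hmem x hx i)
    exact this
  exact (((hA.comp_continuousOn h1).sub (hA.comp_continuousOn ((gcont hv).mono hKΩ))).inner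
    continuousOn_const).div_const t

omit [MeasurableSpace E] [BorelSpace E] in
theorem DA_bound {A : E → E} {t : ℝ} (ht : 0 < t) {x : E} {S : Set E} {L : ℝ}
    (hL : ∀ ξ ∈ S, ∀ η ∈ S, ‖A ξ - A η‖ ≤ L * ‖ξ - η‖) (hx : gradient v x ∈ S)
    (hxi : ∀ i, gradient v (x + t • stdOrthonormalBasis ℝ E i) ∈ S) :
    |DA A v t x| ≤ L * FF v t x := by
  unfold DA FF
  rw [Finset.mul_sum]
  refine (Finset.abs_sum_le_sum_abs _ _).trans (Finset.sum_le_sum (fun i _ => ?_))
  rw [abs_div, abs_of_pos ht, mul_div_assoc', div_le_div_iff_of_pos_right ht]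
  refine (abs_real_inner_le_norm _ _).trans ?_
  rw [(stdOrthonormalBasis ℝ E).norm_eq_one, mul_one]
  exact hL _ (hxi i) _ hx

theorem inner_integrable (hv : Reg Ω v) {A : E → E} (hA : Continuous A) {f : E → ℝ}
    (hf : LipC Ω f) : Integrable (fun x => ⟪A (gradient v x), gradient f x⟫) := by
  obtain ⟨⟨L, hL⟩, hfc, hfs⟩ := hf
  obtain ⟨C, hC⟩ := hfc.isCompact.exists_bound_of_continuousOn
    (hA.comp_continuousOn ((gcont hv).mono hfs))
  have hgf : ∀ x, ‖gradient f x‖ ≤ L := by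
    intro x
    unfold gradient
    rw [LinearIsometryEquiv.norm_map]
    exact norm_fderiv_le_of_lipschitz ℝ hL
  have hi1 : IntegrableOn (fun x => ⟪A (gradient v x), gradient f x⟫) (tsupport f) := by
    refine Measure.integrableOn_of_bounded (M := C * L) hfc.isCompact.measure_lt_top.ne
      ((hA.measurable.comp (measurable_gradient v)).inner
        (measurable_gradient f)).aestronglyMeasurable ?_
    refine (ae_restrict_iff' (isClosed_tsupport f).measurableSet).2
      (Eventually.of_forall (fun x hx => ?_))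
    refine (norm_inner_le_norm _ _).trans ?_
    have h1 := hC x hx
    exact mul_le_mul h1 (hgf x) (norm_nonneg _) ((norm_nonneg _).trans h1)
  refine ((integrable_indicator_iff (isClosed_tsupport f).measurableSet).2 hi1).congr ?_
  refine Eventually.of_forall (fun x => ?_)
  by_cases hx : x ∈ tsupport f
  · rw [indicator_of_mem hx]
  · rw [indicator_of_notMem hx]
    simp only [gradient_zero hx, inner_zero_right]

omit [CompleteSpace E] [BorelSpace E] [InnerProductSpace ℝ E] [FiniteDimensional ℝ E]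
  [MeasurableSpace E] in
theorem setInt_eq {E : Type*} [NormedAddCommGroup E] [MeasurableSpace E]
    {μ : Measure E} {K : Set E} {f h : E → ℝ}
    (hf : tsupport f ⊆ K) : ∫ x in K, h x * f x ∂μ = ∫ x, f x * h x ∂μ := by
  rw [setIntegral_eq_integral_of_forall_compl_eq_zero]
  · refine integral_congr_ae (Eventually.of_forall (fun x => ?_))
    simp only
    ring
  · intro x hx
    rw [image_eq_zero_of_notMem_tsupport (fun h' => hx (hf h')), mul_zero]

omit [CompleteSpace E] [MeasurableSpace E] [BorelSpace E] in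
theorem Nop_sub (b : OrthonormalBasis (Fin (Module.finrank ℝ E)) ℝ E)
    (μ : Fin (Module.finrank ℝ E) → ℝ) (ξ η : E) :
    Nop b μ (ξ - η) = Nop b μ ξ - Nop b μ η := by
  unfold Nop
  rw [← Finset.sum_sub_distrib]
  refine Finset.sum_congr rfl (fun i _ => ?_)
  rw [inner_sub_right, mul_sub, sub_smul]

omit [CompleteSpace E] [MeasurableSpace E] [BorelSpace E] in
theorem Nop_cont (b : OrthonormalBasis (Fin (Module.finrank ℝ E)) ℝ E)
    (μ : Fin (Module.finrank ℝ E) → ℝ) : Continuous (Nop b μ) := by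
  unfold Nop
  exact continuous_finsetSum _ (fun i _ => (continuous_const.mul
    (continuous_const.inner continuous_id)).smul continuous_const)

/-- The `L²` density of `XF` and the weak limit of the size of the difference quotients. -/
theorem exists_Xh {p : ℝ} (hp : 1 < p) (hv : Reg Ω v) (hw : W22loc Ω v) {ξ₁ : E} {s₁ : ℝ}
    (hs₁ : 0 < s₁) (hξ₁ : ‖ξ₁‖ = 4 * s₁) (U : Ultrafilter ℝ) (hU : (U : Filter ℝ) ≤ 𝓝[>] 0) :
    ∃ Xh m : E → ℝ,
      MemLp Xh 2 (volume.restrict {x | x ∈ Ω ∧ gradient v x ∈ closedBall ξ₁ (2 * s₁)}) ∧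
      MemLp m 2 (volume.restrict {x | x ∈ Ω ∧ gradient v x ∈ closedBall ξ₁ (2 * s₁)}) ∧
      (∀ g, MemLp g 2 (volume.restrict {x | x ∈ Ω ∧ gradient v x ∈ closedBall ξ₁ (2 * s₁)}) →
        Tendsto (fun t => ∫ x in {x | x ∈ Ω ∧ gradient v x ∈ closedBall ξ₁ (2 * s₁)},
          FF v t x * g x) U
          (𝓝 (∫ x in {x | x ∈ Ω ∧ gradient v x ∈ closedBall ξ₁ (2 * s₁)}, m x * g x))) ∧
      ∀ f, LipC {x | x ∈ Ω ∧ gradient v x ∈ ball ξ₁ (2 * s₁)} f →
        XF p v f = ∫ x in {x | x ∈ Ω ∧ gradient v x ∈ closedBall ξ₁ (2 * s₁)}, Xh x * f x := by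
  obtain ⟨K, hKd⟩ : ∃ K : Set E, K = {x | x ∈ Ω ∧ gradient v x ∈ closedBall ξ₁ (2 * s₁)} :=
    ⟨_, rfl⟩
  rw [← hKd]
  have hK : IsCompact K := by
    rw [hKd]; exact hv.isCompact_grad (isCompact_closedBall _ _)
  have hKΩ : K ⊆ Ω := by
    rw [hKd]; exact fun x hx => hx.1
  have h0K : ∀ x ∈ K, gradient v x ≠ 0 := by
    intro x hx h
    rw [hKd] at hx
    have := hx.2
    rw [h, mem_closedBall, dist_eq_norm, zero_sub, norm_neg, hξ₁] at this
    linarith
  obtain ⟨C, hC, r₁, hr₁, hFF⟩ := FF_facts hv hw hK hKΩ h0K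
  obtain ⟨m, hm, hmt⟩ := weak_lim (μ := volume.restrict K) U (FF v) (C := C) (by
    filter_upwards [hU (Ioo_mem_nhdsGT hr₁)] with t ht
    exact ⟨memLp_cont hK (hFF t ht).1, (hFF t ht).2⟩)
  -- Lipschitz constant of `a`
  obtain ⟨L, hL⟩ := aP_lip hp (isCompact_closedBall ξ₁ (3 * s₁)) (by
    rw [mem_closedBall, dist_eq_norm, zero_sub, norm_neg, hξ₁]
    linarith)
  obtain ⟨t₀, ht₀, huc⟩ := unif_cont hv hK hKΩ hs₁
  have hin : ∀ t ∈ Ioo (0:ℝ) t₀, ∀ x ∈ K, (∀ i, x + t • stdOrthonormalBasis ℝ E i ∈ Ω) ∧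
      gradient v x ∈ closedBall ξ₁ (3 * s₁) ∧
      ∀ i, gradient v (x + t • stdOrthonormalBasis ℝ E i) ∈ closedBall ξ₁ (3 * s₁) := by
    intro t ht x hx
    have hx2 : dist (gradient v x) ξ₁ ≤ 2 * s₁ := by
      rw [hKd] at hx; exact hx.2
    refine ⟨fun i => (huc t ht _ ((stdOrthonormalBasis ℝ E).norm_eq_one i).le x hx).1, ?_,
      fun i => ?_⟩
    · rw [mem_closedBall]; linarith
    · have := (huc t ht _ ((stdOrthonormalBasis ℝ E).norm_eq_one i).le x hx).2
      rw [mem_closedBall]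
      rw [← dist_eq_norm] at this
      linarith [dist_triangle (gradient v (x + t • stdOrthonormalBasis ℝ E i)) (gradient v x) ξ₁]
  have haP : Continuous (aP p : E → E) := continuous_aP hp
  have hDA : ∀ t ∈ Ioo (0:ℝ) (min t₀ r₁), ContinuousOn (DA (aP p) v t) K ∧
      ∫ x in K, DA (aP p) v t x ^ 2 ≤ L ^ 2 * C := by
    intro t ht
    have ht1 : t ∈ Ioo (0:ℝ) t₀ := ⟨ht.1, ht.2.trans_le (min_le_left _ _)⟩
    have ht2 : t ∈ Ioo (0:ℝ) r₁ := ⟨ht.1, ht.2.trans_le (min_le_right _ _)⟩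
    have hc := DA_cont hv haP hKΩ (fun x hx => (hin t ht1 x hx).1)
    refine ⟨hc, ?_⟩
    have h1 : ∫ x in K, DA (aP p) v t x ^ 2 ≤ ∫ x in K, L ^ 2 * FF v t x ^ 2 := by
      refine setIntegral_mono_on (memLp_cont hK hc).integrable_sq
        ((memLp_cont hK (hFF t ht2).1).integrable_sq.const_mul _) hK.measurableSet ?_
      intro x hx
      have h2 := DA_bound ht.1 hL (hin t ht1 x hx).2.1 (hin t ht1 x hx).2.2
      rw [← mul_pow, ← sq_abs]
      exact pow_le_pow_left₀ (abs_nonneg _) h2 2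
    refine h1.trans ?_
    rw [integral_const_mul]
    exact mul_le_mul_of_nonneg_left (hFF t ht2).2 (sq_nonneg _)
  obtain ⟨Xh, hXh, hXt⟩ := weak_lim (μ := volume.restrict K) U (DA (aP p) v) (C := L ^ 2 * C) (by
    filter_upwards [hU (Ioo_mem_nhdsGT (lt_min ht₀ hr₁))] with t ht
    exact ⟨memLp_cont hK (hDA t ht).1, (hDA t ht).2⟩)
  refine ⟨Xh, m, hXh, hm, hmt, fun f hf => ?_⟩
  have hfK : tsupport f ⊆ K := by
    rw [hKd]
    exact hf.2.2.trans (fun x hx => ⟨hx.1, ball_subset_closedBall hx.2⟩)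
  have hfΩ : LipC Ω f := ⟨hf.1, hf.2.1, hfK.trans hKΩ⟩
  have h1 := (DA_lim hv haP hfΩ).mono_left hU
  have h2 := hXt f (memLp_cont hK hf.1.choose_spec.continuous.continuousOn)
  have h3 : (fun t => ∫ x in K, DA (aP p) v t x * f x) = fun t => ∫ x, f x * DA (aP p) v t x := by
    funext t
    exact setInt_eq hfK
  rw [h3] at h2
  exact tendsto_nhds_unique h1 h2

end reg

end Intr

end PLap
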