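import Pool.Agent.Lib.MP_a627f3_an.IntE

open MeasureTheory Set Filter Topology Metric
open scoped RealInnerProductSpace ENNReal NNReal

namespace PLap

namespace Intr

variable {E : Type*} [NormedAddCommGroup E] [InnerProductSpace ℝ E] [FiniteDimensional ℝ E]
  [CompleteSpace E] [MeasurableSpace E] [BorelSpace E]

section reg

variable {Ω : Set E} {v : E → ℝ}

/-- Comparison of the two weak limits, against Lipschitz functions. -/
theorem comp_lip {p : ℝ} (hp : 1 < p) (hv : Reg Ω v) {K : Set E} (hK : IsCompact K)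
    (hKΩ : K ⊆ Ω) (U : Ultrafilter ℝ) (hU : (U : Filter ℝ) ≤ 𝓝[>] 0) {V : Set E}
    {Xh m Q : E → ℝ} (hXm : MemLp Xh 2 (volume.restrict K)) (hQm : MemLp Q 2 (volume.restrict K))
    {b : OrthonormalBasis (Fin (Module.finrank ℝ E)) ℝ E} {μ : Fin (Module.finrank ℝ E) → ℝ}
    (hX : ∀ f, LipC V f → XF p v f = ∫ x in K, Xh x * f x)
    (hmt : ∀ g, MemLp g 2 (volume.restrict K) →
      Tendsto (fun t => ∫ x in K, FF v t x * g x) U (𝓝 (∫ x in K, m x * g x)))
    (hQt : ∀ g, MemLp g 2 (volume.restrict K) →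
      Tendsto (fun t => ∫ x in K, Qr b μ v t x * g x) U (𝓝 (∫ x in K, Q x * g x)))
    {ξ₀ : E} {s ε : ℝ} (hs0 : 0 < s)
    (hs : ∀ ξ ∈ closedBall ξ₀ s, ∀ η ∈ closedBall ξ₀ s,
      ‖aP p ξ - aP p η - Nop b μ (ξ - η)‖ ≤ ε * ‖ξ - η‖)
    (hFc : ∀ᶠ t in (U : Filter ℝ), ContinuousOn (FF v t) K)
    (hVK : V ⊆ K) (hVs : ∀ x ∈ V, gradient v x ∈ ball ξ₀ (s / 2)) {f : E → ℝ}
    (hf : LipC V f) :
    |∫ x in K, (Xh x - Q x) * f x| ≤ ε * ∫ x in K, m x * |f x| := by
  have hfK : tsupport f ⊆ K := hf.2.2.trans hVK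
  have hfΩ : LipC Ω f := ⟨hf.1, hf.2.1, hfK.trans hKΩ⟩
  have hfc : Continuous f := hf.1.choose_spec.continuous
  have hfm : MemLp f 2 (volume.restrict K) := memLp_cont hK hfc.continuousOn
  have haP : Continuous (aP p : E → E) := continuous_aP hp
  have hN := Nop_cont b μ
  obtain ⟨A, hA⟩ : ∃ A : E → E, A = fun ξ => aP p ξ - Nop b μ ξ := ⟨_, rfl⟩
  have hAc : Continuous A := by
    rw [hA]; exact haP.sub hN
  have hQ1 : ∫ x in K, Q x * f x = - ∫ x, ⟪Nop b μ (gradient v x), gradient f x⟫ := by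
    have h1 := (lim_Q hv b μ hfΩ).mono_left hU
    have h2 := hQt f hfm
    have h3 : (fun t => ∫ x in K, Qr b μ v t x * f x) = fun t => ∫ x, f x * Qr b μ v t x := by
      funext t
      exact setInt_eq hfK
    rw [h3] at h2
    exact tendsto_nhds_unique h2 h1
  have hX1 := hX f hf
  have e1 : ∫ x in K, (Xh x - Q x) * f x = - ∫ x, ⟪A (gradient v x), gradient f x⟫ := by
    have j1 : Integrable (fun x => Xh x * f x) (volume.restrict K) := hXm.integrable_mul hfm
    have j2 : Integrable (fun x => Q x * f x) (volume.restrict K) := hQm.integrable_mul hfm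
    have : ∫ x in K, (Xh x - Q x) * f x = (∫ x in K, Xh x * f x) - ∫ x in K, Q x * f x := by
      rw [← integral_sub j1 j2]
      refine integral_congr_ae (Eventually.of_forall (fun x => ?_))
      simp only
      ring
    rw [this, ← hX1, hQ1, hA]
    unfold XF
    have k1 := inner_integrable hv haP hfΩ
    have k2 := inner_integrable hv hN hfΩ
    have : ∫ x, ⟪aP p (gradient v x) - Nop b μ (gradient v x), gradient f x⟫ =
        (∫ x, ⟪aP p (gradient v x), gradient f x⟫) -
          ∫ x, ⟪Nop b μ (gradient v x), gradient f x⟫ := by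
      rw [← integral_sub k1 k2]
      refine integral_congr_ae (Eventually.of_forall (fun x => ?_))
      simp only [inner_sub_left]
    rw [this]
    ring
  rw [e1]
  have h1 := ((DA_lim hv hAc hfΩ).mono_left hU).abs
  have h2 := (hmt (fun x => |f x|) hfm.abs).const_mul ε
  refine le_of_tendsto_of_tendsto h1 h2 ?_
  obtain ⟨t₀, ht₀, huc⟩ := unif_cont hv hK hKΩ (show 0 < s / 2 by positivity)
  filter_upwards [hU (Ioo_mem_nhdsGT ht₀), hFc] with t ht hFt
  have e2 : ∫ x, f x * DA A v t x = ∫ x in K, DA A v t x * f x := (setInt_eq hfK).symm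
  rw [e2, ← integral_const_mul]
  refine abs_integral_le_integral_abs.trans ?_
  have hmem : ∀ x ∈ K, ∀ i, x + t • stdOrthonormalBasis ℝ E i ∈ Ω := fun x hx i =>
    (huc t ht _ ((stdOrthonormalBasis ℝ E).norm_eq_one i).le x hx).1
  have hDc := DA_cont hv hAc hKΩ hmem
  have j1 : Integrable (fun x => |DA A v t x * f x|) (volume.restrict K) :=
    ((memLp_cont hK hDc).integrable_mul hfm).abs
  have j2 : Integrable (fun x => ε * (FF v t x * |f x|)) (volume.restrict K) :=
    ((memLp_cont hK hFt).integrable_mul hfm.abs).const_mul ε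
  refine setIntegral_mono_on j1 j2 hK.measurableSet (fun x hx => ?_)
  rw [abs_mul, ← mul_assoc]
  by_cases hxs : x ∈ tsupport f
  · refine mul_le_mul_of_nonneg_right ?_ (abs_nonneg _)
    have hx1 : gradient v x ∈ ball ξ₀ (s / 2) := hVs x (hf.2.2 hxs)
    rw [mem_ball] at hx1
    refine DA_bound (S := closedBall ξ₀ s) (A := A) ht.1 ?_ ?_ ?_
    · intro ξ hξ η hη
      have := hs ξ hξ η hη
      rw [Nop_sub] at this
      rw [hA]
      refine le_trans (le_of_eq ?_) this
      rw [sub_sub_sub_comm]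
    · rw [mem_closedBall]; linarith
    · intro i
      have := (huc t ht _ ((stdOrthonormalBasis ℝ E).norm_eq_one i).le x hx).2
      rw [← dist_eq_norm] at this
      rw [mem_closedBall]
      linarith [dist_triangle (gradient v (x + t • stdOrthonormalBasis ℝ E i)) (gradient v x) ξ₀]
  · rw [image_eq_zero_of_notMem_tsupport hxs]
    simp

theorem phi_facts (hv : Reg Ω v) {g : E → ℝ} (hg : Continuous g) (hgc : HasCompactSupport g)
    {h : E → ℝ} (hh : ∀ x ∈ Ω, gradient v x ∈ tsupport g → ContinuousAt h x) :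
    Continuous (Ω.indicator fun x => g (gradient v x) * h x) ∧
      HasCompactSupport (Ω.indicator fun x => g (gradient v x) * h x) ∧
      tsupport (Ω.indicator fun x => g (gradient v x) * h x) ⊆
        {x | x ∈ Ω ∧ gradient v x ∈ tsupport g} := by
  obtain ⟨S, hS⟩ : ∃ S : Set E, S = {x | x ∈ Ω ∧ gradient v x ∈ tsupport g} := ⟨_, rfl⟩
  have hSc : IsCompact S := by
    rw [hS]; exact hv.isCompact_grad hgc
  rw [← hS]
  have hsub : Function.support (Ω.indicator fun x => g (gradient v x) * h x) ⊆ S := by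
    intro x hx
    rw [hS]
    have hxΩ : x ∈ Ω := by
      by_contra hn
      exact hx (indicator_of_notMem hn _)
    refine ⟨hxΩ, ?_⟩
    by_contra hn
    apply hx
    rw [indicator_of_mem hxΩ, image_eq_zero_of_notMem_tsupport hn, zero_mul]
  have hts : tsupport (Ω.indicator fun x => g (gradient v x) * h x) ⊆ S :=
    closure_minimal hsub hSc.isClosed
  refine ⟨continuous_of_tsupport (fun x hx => ?_),
    HasCompactSupport.of_support_subset_isCompact hSc hsub, hts⟩
  have hxS := hts hx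
  rw [hS] at hxS
  have hev : (Ω.indicator fun x => g (gradient v x) * h x) =ᶠ[𝓝 x]
      fun x => g (gradient v x) * h x := by
    filter_upwards [hv.isOpen.mem_nhds hxS.1] with y hy
    exact indicator_of_mem hy _
  refine ContinuousAt.congr ?_ hev.symm
  exact ((hg.continuousAt).comp ((gcont hv).continuousAt (hv.isOpen.mem_nhds hxS.1))).mul
    (hh x hxS.1 hxS.2)

/-- The Euler-Lagrange inequality with the density of `XF`. -/
theorem el_ineq {p lam δ : ℝ} (hp : 1 < p) (hv : Reg Ω v) {K : Set E} (hK : IsCompact K)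
    (hKΩ : K ⊆ Ω) {U : Set E} (hU : IsOpen U) (hUK : U ⊆ K) {Xh : E → ℝ}
    (hXm : MemLp Xh 2 (volume.restrict K))
    (hX : ∀ f, LipC U f → XF p v f = ∫ x in K, Xh x * f x) {φ : E → ℝ} (hφc : Continuous φ)
    (hφs : HasCompactSupport φ) (hφU : tsupport φ ⊆ U) (hEL : ELHolds p lam δ Ω v φ) :
    ∫ x in K, (Xh x - (lam + δ * v x + (p - 1) * ‖gradient v x‖ ^ p)) *
      (φ x * Real.exp (-p * v x)) ≤ 0 := by
  obtain ⟨c, hc⟩ : ∃ c : E → ℝ, c = fun x => lam + δ * v x + (p - 1) * ‖gradient v x‖ ^ p :=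
    ⟨_, rfl⟩
  obtain ⟨ν, hν⟩ : ∃ ν : E → ℝ, ν = fun x => Real.exp (-p * v x) := ⟨_, rfl⟩
  have hvc : ContinuousOn v K := hv.c1.continuousOn.mono hKΩ
  have hcc : ContinuousOn c K := by
    rw [hc]
    refine (continuousOn_const.add (continuousOn_const.mul hvc)).add (continuousOn_const.mul ?_)
    exact ((gcont hv).mono hKΩ).norm.rpow_const (fun x _ => Or.inr (by linarith))
  have hνc : ContinuousOn ν K := by
    rw [hν]
    exact Real.continuous_exp.comp_continuousOn (continuousOn_const.mul hvc)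
  have hcm := memLp_cont hK hcc
  have hD : MemLp (fun x => Xh x - c x) 2 (volume.restrict K) := hXm.sub hcm
  obtain ⟨C, hC⟩ := hEL (tsupport φ) hφs (hφU.trans (hUK.trans hKΩ))
  have key : ∀ ε : ℝ, 0 < ε → ∫ x in K, (Xh x - c x) * (φ x * ν x) ≤
      (|C| + ∫ x in K, |(Xh x - c x) * ν x|) * ε := by
    intro ε hε
    obtain ⟨f, hf, hfs, hfa⟩ := approx_cont hU hφc hφs hφU hε
    have hfΩ : LipC Ω f := ⟨hf.1, hf.2.1, hf.2.2.trans (hUK.trans hKΩ)⟩
    have h1 := hC f hfΩ hfs ε hε.le (fun x _ => hfa x)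
    have hfν : LipC U (fun x => f x * ν x) := by
      refine lipC_of_contDiffOn hU hf ?_
      rw [hν]
      exact Real.contDiff_exp.comp_contDiffOn (contDiffOn_const.mul
        (hv.c1.mono (hUK.trans hKΩ)))
    have hfνK : tsupport (fun x => f x * ν x) ⊆ K := hfν.2.2.trans hUK
    have h2 : XF p v (fun x => f x * ν x) = ∫ x in K, Xh x * (f x * ν x) := hX _ hfν
    have h3 : ∫ x, c x * (f x * ν x) = ∫ x in K, c x * (f x * ν x) := by
      rw [setInt_eq (f := fun x => f x * ν x) hfνK]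
      refine integral_congr_ae (Eventually.of_forall (fun x => ?_))
      simp only
      ring
    have hfc : ContinuousOn f K := hf.1.choose_spec.continuous.continuousOn
    have hfm : MemLp (fun x => f x * ν x) 2 (volume.restrict K) := memLp_cont hK (hfc.mul hνc)
    have h4 : ∫ x in K, (Xh x - c x) * (f x * ν x) ≤ C * ε := by
      have j1 : Integrable (fun x => Xh x * (f x * ν x)) (volume.restrict K) :=
        hXm.integrable_mul hfm
      have j2 : Integrable (fun x => c x * (f x * ν x)) (volume.restrict K) :=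
        hcm.integrable_mul hfm
      have : ∫ x in K, (Xh x - c x) * (f x * ν x) =
          (∫ x in K, Xh x * (f x * ν x)) - ∫ x in K, c x * (f x * ν x) := by
        rw [← integral_sub j1 j2]
        refine integral_congr_ae (Eventually.of_forall (fun x => ?_))
        simp only
        ring
      rw [this, ← h2, ← h3, hν, hc]
      linarith
    have hφm : MemLp (fun x => φ x * ν x) 2 (volume.restrict K) :=
      memLp_cont hK (hφc.continuousOn.mul hνc)
    have hνm : MemLp ν 2 (volume.restrict K) := memLp_cont hK hνc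
    have h5 : ∫ x in K, (Xh x - c x) * (φ x * ν x) ≤ (∫ x in K, (Xh x - c x) * (f x * ν x)) +
        ∫ x in K, |(Xh x - c x) * ν x| * ε := by
      have j1 : Integrable (fun x => (Xh x - c x) * (φ x * ν x)) (volume.restrict K) :=
        hD.integrable_mul hφm
      have j2 : Integrable (fun x => (Xh x - c x) * (f x * ν x)) (volume.restrict K) :=
        hD.integrable_mul hfm
      have j3 : Integrable (fun x => |(Xh x - c x) * ν x| * ε) (volume.restrict K) :=
        (hD.integrable_mul hνm).abs.mul_const ε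
      rw [← integral_add j2 j3]
      refine integral_mono j1 (j2.add j3) (fun x => ?_)
      simp only
      have t1 : (Xh x - c x) * (φ x * ν x) - (Xh x - c x) * (f x * ν x) =
          ((Xh x - c x) * ν x) * (φ x - f x) := by ring
      have t2 : ((Xh x - c x) * ν x) * (φ x - f x) ≤ |(Xh x - c x) * ν x| * ε := by
        refine (le_abs_self _).trans ?_
        rw [abs_mul ((Xh x - c x) * ν x)]
        refine mul_le_mul_of_nonneg_left ?_ (abs_nonneg _)
        rw [abs_sub_comm]
        exact hfa x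
      linarith
    rw [integral_mul_const] at h5
    nlinarith [le_abs_self C]
  rw [hc, hν] at key
  have hB0 : 0 ≤ |C| + ∫ x in K, |(Xh x - (lam + δ * v x + (p - 1) * ‖gradient v x‖ ^ p)) *
      Real.exp (-p * v x)| :=
    add_nonneg (abs_nonneg _) (integral_nonneg (fun x => abs_nonneg _))
  refine le_of_forall_pos_le_add (fun κ hκ => ?_)
  obtain ⟨B, hB⟩ : ∃ B : ℝ, B = |C| +
    ∫ x in K, |(Xh x - (lam + δ * v x + (p - 1) * ‖gradient v x‖ ^ p)) *
      Real.exp (-p * v x)| := ⟨_, rfl⟩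
  rw [← hB] at hB0
  refine (key (κ / (B + 1)) (by positivity)).trans ?_
  rw [← hB, mul_div_assoc', div_le_iff₀ (by positivity)]
  nlinarith

/-- The local inequality near `ξ₀`. -/
theorem local_ineq {p lam δ : ℝ} (hp : 1 < p) (hv : Reg Ω v) (hEL : ELQ p lam δ Ω v)
    (hw : W22loc Ω v) {K : Set E} (hK : IsCompact K) (hKΩ : K ⊆ Ω)
    (h0K : ∀ x ∈ K, gradient v x ≠ 0) {ξ₁ : E} {s₂ : ℝ}
    (hKd : ∀ x ∈ Ω, gradient v x ∈ ball ξ₁ s₂ → x ∈ K)
    (U : Ultrafilter ℝ) (hU : (U : Filter ℝ) ≤ 𝓝[>] 0)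
    {Xh m : E → ℝ} (hXm : MemLp Xh 2 (volume.restrict K)) (hmm : MemLp m 2 (volume.restrict K))
    (hX : ∀ f, LipC {x | x ∈ Ω ∧ gradient v x ∈ ball ξ₁ s₂} f → XF p v f = ∫ x in K, Xh x * f x)
    (hmt : ∀ g, MemLp g 2 (volume.restrict K) →
      Tendsto (fun t => ∫ x in K, FF v t x * g x) U (𝓝 (∫ x in K, m x * g x)))
    {ξ₀ : E} (hξ₀ : ξ₀ ≠ 0) (hξ₀₁ : ξ₀ ∈ ball ξ₁ s₂) {ε : ℝ} (hε : 0 < ε) :
    ∃ s > 0, ∀ g : E → ℝ, Continuous g → (∀ ξ, 0 ≤ g ξ) → tsupport g ⊆ ball ξ₀ s →
      ∫ x in K, (Xh x - (lam + δ * v x + (p - 1) * ‖gradient v x‖ ^ p)) ^ 2 *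
          Real.exp (-p * v x) * g (gradient v x) ≤
        ε * ∫ x in K, (m x + 1) * (|Xh x - (lam + δ * v x + (p - 1) * ‖gradient v x‖ ^ p)| *
          Real.exp (-p * v x) * g (gradient v x)) := by
  obtain ⟨b, μ, hbμ⟩ := exists_adapted p hξ₀
  obtain ⟨s₀, hs₀, r₀, hr₀, hEL⟩ := hEL ξ₀ hξ₀ b μ hbμ
  obtain ⟨s₃, hs₃, hstr⟩ := aP_strict hp hξ₀ hbμ hε
  -- the ball inside `ball ξ₁ s₂`
  obtain ⟨s₄, hs₄, hball⟩ := Metric.isOpen_iff.1 (isOpen_ball (x := ξ₁) (ε := s₂)) ξ₀ hξ₀₁
  -- continuity of the power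
  obtain ⟨s₅, hs₅, hpow⟩ : ∃ s₅ > 0, ∀ ξ ∈ ball ξ₀ s₅, (p - 1) * |‖ξ₀‖ ^ p - ‖ξ‖ ^ p| ≤ ε := by
    have hc : ContinuousAt (fun ξ : E => (p - 1) * |‖ξ₀‖ ^ p - ‖ξ‖ ^ p|) ξ₀ := by
      refine continuousAt_const.mul ((continuousAt_const.sub ?_).abs)
      exact continuousAt_id.norm.rpow_const (Or.inr (by linarith))
    have h1 := hc.eventually (gt_mem_nhds (show (p - 1) * |‖ξ₀‖ ^ p - ‖ξ₀‖ ^ p| < ε by
      simpa using hε))
    obtain ⟨s₅, hs₅, h2⟩ := Metric.eventually_nhds_iff_ball.1 h1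
    exact ⟨s₅, hs₅, fun ξ hξ => (h2 ξ hξ).le⟩
  obtain ⟨C, hC, r₁, hr₁, hQf⟩ := Qr_facts hv hw hK hKΩ h0K b μ
  obtain ⟨Q, hQm, hQt⟩ := weak_lim (μ := volume.restrict K) U (Qr b μ v) (C := C) (by
    filter_upwards [hU (Ioo_mem_nhdsGT hr₁)] with t ht
    exact ⟨memLp_cont hK (hQf t ht).1, (hQf t ht).2.2⟩)
  obtain ⟨s, hs⟩ : ∃ s : ℝ, s = min (min s₀ (s₃ / 2)) (min s₄ s₅) := ⟨_, rfl⟩
  have hs0 : 0 < s := by
    rw [hs]; exact lt_min (lt_min hs₀ (by positivity)) (lt_min hs₄ hs₅)
  have hsa : s ≤ s₀ := by rw [hs]; exact (min_le_left _ _).trans (min_le_left _ _)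
  have hsb : s ≤ s₃ / 2 := by rw [hs]; exact (min_le_left _ _).trans (min_le_right _ _)
  have hsc : s ≤ s₄ := by rw [hs]; exact (min_le_right _ _).trans (min_le_left _ _)
  have hsd : s ≤ s₅ := by rw [hs]; exact (min_le_right _ _).trans (min_le_right _ _)
  refine ⟨s, hs0, fun g hg hg0 hgs => ?_⟩
  have hgc : HasCompactSupport g :=
    (isCompact_closedBall ξ₀ s).of_isClosed_subset (isClosed_tsupport g)
      (hgs.trans ball_subset_closedBall)
  obtain ⟨c, hc⟩ : ∃ c : E → ℝ, c = fun x => lam + δ * v x + (p - 1) * ‖gradient v x‖ ^ p :=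
    ⟨_, rfl⟩
  obtain ⟨c₀, hc₀⟩ : ∃ c₀ : E → ℝ, c₀ = fun x => lam + δ * v x + (p - 1) * ‖ξ₀‖ ^ p :=
    ⟨_, rfl⟩
  obtain ⟨ν, hν⟩ : ∃ ν : E → ℝ, ν = fun x => Real.exp (-p * v x) := ⟨_, rfl⟩
  have hν0 : ∀ x, 0 < ν x := fun x => by rw [hν]; exact Real.exp_pos _
  have hvcΩ : ContinuousOn v Ω := hv.c1.continuousOn
  have hvc : ContinuousOn v K := hvcΩ.mono hKΩ
  have hcc : ContinuousOn c K := by
    rw [hc]
    refine (continuousOn_const.add (continuousOn_const.mul hvc)).add (continuousOn_const.mul ?_)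
    exact ((gcont hv).mono hKΩ).norm.rpow_const (fun x _ => Or.inr (by linarith))
  have hc₀c : ContinuousOn c₀ K := by
    rw [hc₀]
    exact (continuousOn_const.add (continuousOn_const.mul hvc)).add continuousOn_const
  have hνc : ContinuousOn ν K := by
    rw [hν]
    exact Real.continuous_exp.comp_continuousOn (continuousOn_const.mul hvc)
  have hcm := memLp_cont hK hcc
  have hD : MemLp (fun x => Xh x - c x) 2 (volume.restrict K) := hXm.sub hcm
  -- the support region
  obtain ⟨V, hV⟩ : ∃ V : Set E, V = {x | x ∈ Ω ∧ gradient v x ∈ ball ξ₀ s} := ⟨_, rfl⟩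
  have hVo : IsOpen V := by rw [hV]; exact isOpen_pre hv isOpen_ball
  have hVU : V ⊆ {x | x ∈ Ω ∧ gradient v x ∈ ball ξ₁ s₂} := by
    rw [hV]
    exact fun x hx => ⟨hx.1, hball (ball_subset_ball hsc hx.2)⟩
  have hUK : {x | x ∈ Ω ∧ gradient v x ∈ ball ξ₁ s₂} ⊆ K := fun x hx => hKd x hx.1 hx.2
  have hVK : V ⊆ K := hVU.trans hUK
  have hSV : {x | x ∈ Ω ∧ gradient v x ∈ tsupport g} ⊆ V := by
    rw [hV]
    exact fun x hx => ⟨hx.1, hgs hx.2⟩
  -- the continuous function `G`
  obtain ⟨G, hG⟩ : ∃ G : E → ℝ, G = Ω.indicator fun x => g (gradient v x) * 1 := ⟨_, rfl⟩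
  have hGf := phi_facts hv hg hgc (h := fun _ => (1:ℝ)) (fun x _ _ => continuousAt_const)
  rw [← hG] at hGf
  obtain ⟨hGc, hGcs, hGts⟩ := hGf
  have hGK : ∀ x ∈ K, G x = g (gradient v x) := by
    intro x hx
    rw [hG, indicator_of_mem (hKΩ hx), mul_one]
  have hG0 : ∀ x, 0 ≤ G x := by
    intro x
    rw [hG]
    exact indicator_nonneg (fun y _ => by rw [mul_one]; exact hg0 _) x
  obtain ⟨Ψ, hΨ⟩ : ∃ Ψ : E → ℝ, Ψ = fun x => (Xh x - c x) * ν x := ⟨_, rfl⟩
  have hΨm : MemLp Ψ 2 (volume.restrict K) := by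
    obtain ⟨B, hB⟩ := hK.exists_bound_of_continuousOn hνc
    rw [hΨ]
    refine MemLp.of_le_mul (c := B) hD (hD.aestronglyMeasurable.mul
      (hνc.aestronglyMeasurable hK.measurableSet)) ?_
    refine (ae_restrict_iff' hK.measurableSet).2 (Eventually.of_forall (fun x hx => ?_))
    rw [norm_mul, mul_comm]
    exact mul_le_mul_of_nonneg_right (hB x hx) (norm_nonneg _)
  obtain ⟨W, hW⟩ : ∃ W : E → ℝ, W = fun x => G x * Ψ x := ⟨_, rfl⟩
  have hWm : MemLp W 2 (volume.restrict K) := by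
    obtain ⟨B, hB⟩ := hGcs.exists_bound_of_continuous hGc
    rw [hW]
    refine MemLp.of_le_mul (c := B) hΨm (hGc.aestronglyMeasurable.mul
      hΨm.aestronglyMeasurable) ?_
    refine Eventually.of_forall (fun x => ?_)
    rw [norm_mul]
    exact mul_le_mul_of_nonneg_right (hB x) (norm_nonneg _)
  have hc₀m := memLp_cont hK hc₀c
  have iQW : Integrable (fun x => Q x * W x) (volume.restrict K) := hQm.integrable_mul hWm
  have iXW : Integrable (fun x => Xh x * W x) (volume.restrict K) := hXm.integrable_mul hWm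
  have icW : Integrable (fun x => c x * W x) (volume.restrict K) := hcm.integrable_mul hWm
  have ic₀W : Integrable (fun x => c₀ x * W x) (volume.restrict K) := hc₀m.integrable_mul hWm
  have imW : Integrable (fun x => m x * |W x|) (volume.restrict K) := hmm.integrable_mul hWm.abs
  have iW : Integrable (fun x => |W x|) (volume.restrict K) := by
    have : IsFiniteMeasure (volume.restrict K) :=
      ⟨by rw [Measure.restrict_apply_univ]; exact hK.measure_lt_top⟩
    exact (hWm.integrable (by norm_num)).abs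
  -- first: the Euler-Lagrange inequality in the limit
  have hEL1 : ∫ x in K, Q x * W x ≤ ∫ x in K, c₀ x * W x := by
    refine le_of_tendsto (hQt W hWm) ?_
    filter_upwards [hU (Ioo_mem_nhdsGT (lt_min hr₀ hr₁))] with r hr
    have hra : r ∈ Ioo (0:ℝ) r₀ := ⟨hr.1, hr.2.trans_le (min_le_left _ _)⟩
    have hrb : r ∈ Ioo (0:ℝ) r₁ := ⟨hr.1, hr.2.trans_le (min_le_right _ _)⟩
    have hmem := (hQf r hrb).2.1
    have hφ := phi_facts hv hg hgc (h := fun x => Qr b μ v r x - c₀ x) (by
      intro x hx hgx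
      have hxK : x ∈ K := hVK (hSV ⟨hx, hgx⟩)
      have hvx : ∀ y ∈ Ω, ContinuousAt v y := fun y hy => hvcΩ.continuousAt (hv.isOpen.mem_nhds hy)
      refine ContinuousAt.sub ?_ ?_
      · unfold Qr
        refine tendsto_finsetSum _ (fun i _ => ?_)
        have c1 : ContinuousAt (fun y => v (y + r • b i)) x := by
          have := (hvx _ (hmem x hxK i).1)
          exact ContinuousAt.comp (f := fun y => y + r • b i) this
            (continuousAt_id.add continuousAt_const)
        have c2 : ContinuousAt (fun y => v (y - r • b i)) x := by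
          have := (hvx _ (hmem x hxK i).2)
          exact ContinuousAt.comp (f := fun y => y - r • b i) this
            (continuousAt_id.sub continuousAt_const)
        have c3 : ContinuousAt (fun y => μ i * ((v (y + r • b i) + v (y - r • b i) - 2 * v y) /
            r ^ 2)) x :=
          continuousAt_const.mul (((c1.add c2).sub (continuousAt_const.mul (hvx x hx))).div_const _)
        exact c3
      · rw [hc₀]
        exact (continuousAt_const.add (continuousAt_const.mul (hvx x hx))).add continuousAt_const)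
    obtain ⟨hφc, hφcs, hφts⟩ := hφ
    have h1 := hEL r hra g hg hg0 (hgs.trans (ball_subset_closedBall.trans
      (closedBall_subset_closedBall hsa)))
    have h2 : ELHolds p lam δ Ω v (Ω.indicator fun x => g (gradient v x) *
        (Qr b μ v r x - c₀ x)) := by
      intro K' hK' hK'Ω
      obtain ⟨C', hC'⟩ := h1 K' hK' hK'Ω
      refine ⟨C', fun f hf hfs ε' hε' hfa => hC' f hf hfs ε' hε' (fun x hx => ?_)⟩
      have := hfa x hx
      rw [indicator_of_mem hx, hc₀] at this
      exact this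
    have h3 := el_ineq hp hv hK hKΩ (isOpen_pre hv isOpen_ball) hUK hXm hX hφc hφcs
      ((hφts.trans hSV).trans hVU) h2
    have h4 : ∫ x in K, (Xh x - (lam + δ * v x + (p - 1) * ‖gradient v x‖ ^ p)) *
        ((Ω.indicator fun x => g (gradient v x) * (Qr b μ v r x - c₀ x)) x *
          Real.exp (-p * v x)) = (∫ x in K, Qr b μ v r x * W x) - ∫ x in K, c₀ x * W x := by
      have iQr : Integrable (fun x => Qr b μ v r x * W x) (volume.restrict K) :=
        (memLp_cont hK (hQf r hrb).1).integrable_mul hWm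
      rw [← integral_sub iQr ic₀W]
      refine setIntegral_congr_fun hK.measurableSet (fun x hx => ?_)
      try simp only
      rw [indicator_of_mem (hKΩ hx), hW, hΨ, hν, hc]
      simp only [hGK x hx]
      ring
    rw [h4] at h3
    linarith
  -- second: the comparison
  have hcmp : ∫ x in K, (Xh x - Q x) * W x ≤ ε * ∫ x in K, m x * |W x| := by
    rw [hW]
    refine comparison hK hVo hGc hGcs (hGts.trans hSV) hΨm (hXm.sub hQm) hmm hε.le (fun f hf => ?_)
    obtain ⟨C', -, r₂, hr₂, hFF⟩ := FF_facts hv hw hK hKΩ h0K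
    refine comp_lip hp hv hK hKΩ U hU hXm hQm (V := V) (fun f hf => hX f ?_) hmt hQt hs₃ hstr ?_
      hVK ?_ hf
    · exact ⟨hf.1, hf.2.1, hf.2.2.trans hVU⟩
    · filter_upwards [hU (Ioo_mem_nhdsGT hr₂)] with t ht using (hFF t ht).1
    · intro x hx
      rw [hV] at hx
      exact ball_subset_ball hsb hx.2
  -- third: `c₀` against `c`
  have hcc₀ : ∫ x in K, (c₀ x - c x) * W x ≤ ε * ∫ x in K, |W x| := by
    rw [← integral_const_mul]
    have i1 : Integrable (fun x => (c₀ x - c x) * W x) (volume.restrict K) :=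
      (hc₀m.sub hcm).integrable_mul hWm
    refine setIntegral_mono_on i1 (iW.const_mul ε) hK.measurableSet (fun x hx => ?_)
    by_cases hx2 : gradient v x ∈ ball ξ₀ s
    · have h1 := hpow _ (ball_subset_ball hsd hx2)
      refine (le_abs_self _).trans ?_
      rw [abs_mul]
      refine mul_le_mul_of_nonneg_right (le_trans (le_of_eq ?_) h1) (abs_nonneg _)
      rw [hc₀, hc]
      simp only
      rw [show lam + δ * v x + (p - 1) * ‖ξ₀‖ ^ p - (lam + δ * v x + (p - 1) * ‖gradient v x‖ ^ p) =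
        (p - 1) * (‖ξ₀‖ ^ p - ‖gradient v x‖ ^ p) by ring, abs_mul, abs_of_pos (by linarith)]
    · have : W x = 0 := by
        rw [hW]
        simp only
        rw [hGK x hx, image_eq_zero_of_notMem_tsupport (fun h => hx2 (hgs h)), zero_mul]
      rw [this]
      simp
  -- conclusion
  have e1 : ∫ x in K, (Xh x - c x) ^ 2 * ν x * g (gradient v x) = ∫ x in K, (Xh x - c x) * W x := by
    refine setIntegral_congr_fun hK.measurableSet (fun x hx => ?_)
    rw [hW, hΨ]
    simp only [hGK x hx]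
    ring
  have e2 : ∫ x in K, (m x + 1) * (|Xh x - c x| * ν x * g (gradient v x)) =
      (∫ x in K, m x * |W x|) + ∫ x in K, |W x| := by
    rw [← integral_add imW iW]
    refine setIntegral_congr_fun hK.measurableSet (fun x hx => ?_)
    have : |W x| = |Xh x - c x| * ν x * g (gradient v x) := by
      rw [hW, hΨ]
      simp only [hGK x hx]
      rw [abs_mul, abs_mul, abs_of_nonneg (hg0 _), abs_of_pos (hν0 x)]
      ring
    rw [this]
    ring
  have e3 : ∫ x in K, (Xh x - c x) * W x = (∫ x in K, (Xh x - Q x) * W x) +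
      ((∫ x in K, Q x * W x) - ∫ x in K, c x * W x) := by
    have i1 : Integrable (fun x => (Xh x - Q x) * W x) (volume.restrict K) :=
      (hXm.sub hQm).integrable_mul hWm
    rw [← integral_sub iQW icW]
    have := integral_add i1 (iQW.sub icW)
    simp only [Pi.sub_apply] at this
    rw [← this]
    refine integral_congr_ae (Eventually.of_forall (fun x => ?_))
    simp only
    ring
  have e4 : ∫ x in K, (c₀ x - c x) * W x = (∫ x in K, c₀ x * W x) - ∫ x in K, c x * W x := by
    rw [← integral_sub ic₀W icW]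
    refine integral_congr_ae (Eventually.of_forall (fun x => ?_))
    simp only
    ring
  have hfin : ∫ x in K, (Xh x - c x) ^ 2 * ν x * g (gradient v x) ≤
      ε * ∫ x in K, (m x + 1) * (|Xh x - c x| * ν x * g (gradient v x)) := by
    rw [e1, e2, e3]
    rw [e4] at hcc₀
    linarith
  rw [hc, hν] at hfin
  exact hfin

end reg

end Intr

end PLap
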