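import Pool.Agent.Lib.MP_a627f3_an.VecB
import Pool.Agent.Lib.MP_a627f3_an.Lip
import Pool.Agent.Lib.MP_a627f3_an.ConvC
import Pool.Agent.Lib.MP_a627f3_an.ConvD
import Pool.Agent.Lib.MP_a627f3_an.Pos
import Pool.Agent.Lib.MP_a627f3_an.IntF

open MeasureTheory Set Filter Topology Metric
open scoped RealInnerProductSpace ENNReal NNReal

namespace PLap

variable {E : Type*} [NormedAddCommGroup E] [InnerProductSpace ℝ E] [FiniteDimensional ℝ E]
  [CompleteSpace E] [MeasurableSpace E] [BorelSpace E]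

namespace Intr

omit [CompleteSpace E] [MeasurableSpace E] [BorelSpace E] in
/-- Finite partitions of unity on compact sets, indexed by `Fin n`. -/
theorem exists_partition {T : Set E} (hT : IsCompact T) {s : E → ℝ} (hs : ∀ x ∈ T, 0 < s x) :
    ∃ (n : ℕ) (ξ : Fin n → E) (f : Fin n → E → ℝ), (∀ i, ξ i ∈ T) ∧ (∀ i, Continuous (f i)) ∧
      (∀ i x, 0 ≤ f i x) ∧ (∀ i, tsupport (f i) ⊆ ball (ξ i) (s (ξ i))) ∧
      ∀ x ∈ T, ∑ i, f i x = 1 := by
  obtain ⟨t, htT, ht⟩ := hT.elim_nhds_subcover (fun x => ball x (s x))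
    (fun x hx => ball_mem_nhds x (hs x hx))
  obtain ⟨e⟩ : Nonempty (Fin t.card ≃ t) := ⟨t.equivFin.symm⟩
  obtain ⟨f, hf1, hf2, hf3, -⟩ := exists_continuous_sum_one_of_isOpen_isCompact
    (s := fun i : Fin t.card => ball (e i : E) (s (e i))) (fun i => isOpen_ball) hT (by
      intro x hx
      obtain ⟨y, hy, hxy⟩ := mem_iUnion₂.1 (ht hx)
      refine mem_iUnion.2 ⟨e.symm ⟨y, hy⟩, ?_⟩
      simpa using hxy)
  refine ⟨t.card, fun i => (e i : E), fun i => f i, fun i => htT _ (e i).2,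
    fun i => (f i).continuous, fun i x => (hf3 i x).1, hf1, fun x hx => ?_⟩
  have := hf2 hx
  simpa using this

/-- The equation for test functions supported where the gradient is close to `ξ₁ ≠ 0`. -/
theorem local_eq {p lam δ : ℝ} (hp : 1 < p) {Ω : Set E} {v : E → ℝ} (hv : Reg Ω v)
    (h : ELQ p lam δ Ω v) (hw : W22loc Ω v) {ξ₁ : E} {s₁ : ℝ} (hs₁ : 0 < s₁)
    (hξ₁ : ‖ξ₁‖ = 4 * s₁) {f : E → ℝ}
    (hf : LipC {x | x ∈ Ω ∧ gradient v x ∈ ball ξ₁ s₁} f) :
    XF p v f = ∫ x, (lam + δ * v x + (p - 1) * ‖gradient v x‖ ^ p) * f x := by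
  obtain ⟨U, hU⟩ : ∃ U : Ultrafilter ℝ, (U : Filter ℝ) ≤ 𝓝[>] 0 :=
    ⟨Ultrafilter.of _, Ultrafilter.of_le _⟩
  obtain ⟨Xh, m, hXm, hmm, hmt, hX⟩ := exists_Xh hp hv hw hs₁ hξ₁ U hU
  obtain ⟨K, hKd⟩ : ∃ K : Set E, K = {x | x ∈ Ω ∧ gradient v x ∈ closedBall ξ₁ (2 * s₁)} :=
    ⟨_, rfl⟩
  rw [← hKd] at hXm hmm hmt hX
  have hK : IsCompact K := by
    rw [hKd]; exact hv.isCompact_grad (isCompact_closedBall _ _)
  have hKΩ : K ⊆ Ω := by
    rw [hKd]; exact fun x hx => hx.1
  have h0K : ∀ x ∈ K, gradient v x ≠ 0 := by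
    intro x hx h'
    rw [hKd] at hx
    have := hx.2
    rw [h', mem_closedBall, dist_eq_norm, zero_sub, norm_neg, hξ₁] at this
    linarith
  have hKb : ∀ x ∈ Ω, gradient v x ∈ ball ξ₁ (2 * s₁) → x ∈ K := by
    intro x hx hb
    rw [hKd]
    exact ⟨hx, ball_subset_closedBall hb⟩
  obtain ⟨T, hTd⟩ : ∃ T : Set E, T = closedBall ξ₁ s₁ := ⟨_, rfl⟩
  have hT : IsCompact T := by rw [hTd]; exact isCompact_closedBall _ _
  have hT0 : ∀ ξ ∈ T, ξ ≠ 0 ∧ ξ ∈ ball ξ₁ (2 * s₁) := by
    intro ξ hξ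
    rw [hTd, mem_closedBall] at hξ
    refine ⟨fun h' => ?_, ?_⟩
    · rw [h', dist_eq_norm, zero_sub, norm_neg, hξ₁] at hξ
      linarith
    · rw [mem_ball]; linarith
  obtain ⟨G, hG⟩ : ∃ G : E → ℝ, G = fun ξ => max 0 (1 - ‖ξ - ξ₁‖ / s₁) := ⟨_, rfl⟩
  have hGc : Continuous G := by rw [hG]; fun_prop
  have hG0 : ∀ ξ, 0 ≤ G ξ := fun ξ => by rw [hG]; exact le_max_left _ _
  have hGT : ∀ ξ, ξ ∉ T → G ξ = 0 := by
    intro ξ hξ
    rw [hTd, mem_closedBall, not_le, dist_eq_norm] at hξ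
    rw [hG]
    refine max_eq_left ?_
    rw [sub_nonpos, le_div_iff₀ hs₁]
    linarith
  have hGpos : ∀ ξ ∈ ball ξ₁ s₁, 0 < G ξ := by
    intro ξ hξ
    rw [mem_ball, dist_eq_norm] at hξ
    rw [hG]
    refine lt_max_of_lt_right ?_
    rw [sub_pos, div_lt_iff₀ hs₁]
    linarith
  obtain ⟨c, hc⟩ : ∃ c : E → ℝ, c = fun x => lam + δ * v x + (p - 1) * ‖gradient v x‖ ^ p :=
    ⟨_, rfl⟩
  obtain ⟨ν, hν⟩ : ∃ ν : E → ℝ, ν = fun x => Real.exp (-p * v x) := ⟨_, rfl⟩
  have hν0 : ∀ x, 0 < ν x := fun x => by rw [hν]; exact Real.exp_pos _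
  have hvc : ContinuousOn v K := hv.c1.continuousOn.mono hKΩ
  have hgc : ContinuousOn (gradient v) K := (gcont hv).mono hKΩ
  have hcc : ContinuousOn c K := by
    rw [hc]
    refine (continuousOn_const.add (continuousOn_const.mul hvc)).add (continuousOn_const.mul ?_)
    exact hgc.norm.rpow_const (fun x _ => Or.inr (by linarith))
  have hνc : ContinuousOn ν K := by
    rw [hν]
    exact Real.continuous_exp.comp_continuousOn (continuousOn_const.mul hvc)
  have hD : MemLp (fun x => Xh x - c x) 2 (volume.restrict K) := hXm.sub (memLp_cont hK hcc)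
  have hfin : IsFiniteMeasure (volume.restrict K) :=
    ⟨by rw [Measure.restrict_apply_univ]; exact hK.measure_lt_top⟩
  have iP1 : IntegrableOn (fun x => (Xh x - c x) ^ 2) K := hD.integrable_sq
  have iP2 : IntegrableOn (fun x => (m x + 1) * |Xh x - c x|) K := by
    have j1 : Integrable (fun x => m x * |Xh x - c x|) (volume.restrict K) :=
      hmm.integrable_mul hD.abs
    have j2 : Integrable (fun x => |Xh x - c x|) (volume.restrict K) :=
      (hD.integrable (by norm_num)).abs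
    refine (j1.add j2).congr (Eventually.of_forall (fun x => ?_))
    simp only [Pi.add_apply]
    ring
  have iG : ∀ (P g : E → ℝ), IntegrableOn P K → Continuous g →
      IntegrableOn (fun x => P x * (ν x * g (gradient v x))) K := by
    intro P g hP hg
    exact hP.mul_continuousOn (hνc.mul (hg.comp_continuousOn hgc)) hK
  have key : ∀ ε : ℝ, 0 < ε → ∫ x in K, (Xh x - c x) ^ 2 * (ν x * G (gradient v x)) ≤
      ε * ∫ x in K, ((m x + 1) * |Xh x - c x|) * (ν x * G (gradient v x)) := by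
    intro ε hε
    have hloc := fun (ξ : E) (hξ : ξ ∈ T) => local_ineq hp hv h hw hK hKΩ h0K hKb U hU hXm hmm hX
      hmt (hT0 ξ hξ).1 (hT0 ξ hξ).2 hε
    choose! s hs0 hs using hloc
    obtain ⟨n, ξ, φ, hξT, hφc, hφ0, hφs, hφ1⟩ := exists_partition hT hs0
    have hi : ∀ i, ∫ x in K, (Xh x - c x) ^ 2 * (ν x * (φ i (gradient v x) * G (gradient v x))) ≤
        ε * ∫ x in K, ((m x + 1) * |Xh x - c x|) *
          (ν x * (φ i (gradient v x) * G (gradient v x))) := by
      intro i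
      have h1 := hs (ξ i) (hξT i) (fun η => φ i η * G η) ((hφc i).mul hGc)
        (fun η => mul_nonneg (hφ0 i η) (hG0 η)) ((tsupport_mul_subset_left).trans (hφs i))
      have e1 : ∫ x in K, (Xh x - c x) ^ 2 * (ν x * (φ i (gradient v x) * G (gradient v x))) =
          ∫ x in K, (Xh x - (lam + δ * v x + (p - 1) * ‖gradient v x‖ ^ p)) ^ 2 *
            Real.exp (-p * v x) * (φ i (gradient v x) * G (gradient v x)) := by
        refine integral_congr_ae (Eventually.of_forall (fun x => ?_))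
        rw [hc, hν]
        simp only
        ring
      have e2 : ∫ x in K, ((m x + 1) * |Xh x - c x|) *
          (ν x * (φ i (gradient v x) * G (gradient v x))) =
          ∫ x in K, (m x + 1) * (|Xh x - (lam + δ * v x + (p - 1) * ‖gradient v x‖ ^ p)| *
            Real.exp (-p * v x) * (φ i (gradient v x) * G (gradient v x))) := by
        refine integral_congr_ae (Eventually.of_forall (fun x => ?_))
        rw [hc, hν]
        simp only
        ring
      rw [e1, e2]
      exact h1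
    have hsum := Finset.sum_le_sum (fun (i : Fin n) (_ : i ∈ Finset.univ) => hi i)
    have hsplit : ∀ (P : E → ℝ), IntegrableOn P K →
        ∑ i, ∫ x in K, P x * (ν x * (φ i (gradient v x) * G (gradient v x))) =
          ∫ x in K, P x * (ν x * G (gradient v x)) := by
      intro P hP
      rw [← integral_finsetSum _ (fun i _ => iG P (fun η => φ i η * G η) hP ((hφc i).mul hGc))]
      refine integral_congr_ae (Eventually.of_forall (fun x => ?_))
      simp only
      rw [← Finset.mul_sum, ← Finset.mul_sum, ← Finset.sum_mul]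
      by_cases hx : gradient v x ∈ T
      · rw [hφ1 _ hx, one_mul]
      · rw [hGT _ hx, mul_zero]
    rw [← Finset.mul_sum] at hsum
    rw [hsplit _ iP1, hsplit _ iP2] at hsum
    exact hsum
  -- the density equals `c` where the cutoff is positive
  have hzero : ∫ x in K, (Xh x - c x) ^ 2 * (ν x * G (gradient v x)) ≤ 0 := by
    obtain ⟨B, hB⟩ : ∃ B : ℝ, B = ∫ x in K, ((m x + 1) * |Xh x - c x|) *
      (ν x * G (gradient v x)) := ⟨_, rfl⟩
    rw [← hB] at key
    refine le_of_forall_pos_le_add (fun κ hκ => ?_)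
    refine (key (κ / (|B| + 1)) (by positivity)).trans ?_
    rw [zero_add, div_mul_eq_mul_div, div_le_iff₀ (by positivity)]
    nlinarith [le_abs_self B]
  have hae : ∀ᵐ x ∂(volume.restrict K), (Xh x - c x) ^ 2 * (ν x * G (gradient v x)) = 0 := by
    have hnn : ∀ x, 0 ≤ (Xh x - c x) ^ 2 * (ν x * G (gradient v x)) := fun x =>
      mul_nonneg (sq_nonneg _) (mul_nonneg (hν0 x).le (hG0 _))
    have h1 : ∫ x in K, (Xh x - c x) ^ 2 * (ν x * G (gradient v x)) = 0 :=
      le_antisymm hzero (integral_nonneg hnn)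
    exact (integral_eq_zero_iff_of_nonneg hnn (iG _ G iP1 hGc)).1 h1
  have hfb : LipC {x | x ∈ Ω ∧ gradient v x ∈ ball ξ₁ (2 * s₁)} f :=
    ⟨hf.1, hf.2.1, hf.2.2.trans (fun x hx => ⟨hx.1, ball_subset_ball (by linarith) hx.2⟩)⟩
  have hfK : tsupport f ⊆ K := hfb.2.2.trans (fun x hx => hKb x hx.1 hx.2)
  rw [hX f hfb]
  have e1 : ∫ x in K, Xh x * f x = ∫ x in K, c x * f x := by
    refine integral_congr_ae ?_
    filter_upwards [hae] with x hx
    by_cases hxs : x ∈ tsupport f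
    · have h1 := hGpos _ (hf.2.2 hxs).2
      have h2 := hν0 x
      have h3 : Xh x - c x = 0 := by
        rcases mul_eq_zero.1 hx with h4 | h4
        · exact pow_eq_zero_iff (two_ne_zero) |>.1 h4
        · exact absurd h4 (by positivity)
      rw [sub_eq_zero.1 h3]
    · rw [image_eq_zero_of_notMem_tsupport hxs, mul_zero, mul_zero]
  rw [e1, setInt_eq hfK]
  refine integral_congr_ae (Eventually.of_forall (fun x => ?_))
  rw [hc]
  simp only
  ring

end Intr

theorem interior_eq {p lam δ : ℝ} (hp : 1 < p) (hδ : 0 ≤ δ) {Ω : Set E} {v : E → ℝ}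
    (hv : Reg Ω v) (h : ELQ p lam δ Ω v) (hw : W22loc Ω v) {f : E → ℝ}
    (hf : LipC {x | x ∈ Ω ∧ gradient v x ≠ 0} f) :
    XF p v f = ∫ x, (lam + δ * v x + (p - 1) * ‖gradient v x‖ ^ p) * f x := by
  obtain ⟨A, hA⟩ : ∃ A : Set E, A = {x | x ∈ Ω ∧ gradient v x ≠ 0} := ⟨_, rfl⟩
  have hAo : IsOpen A := by
    rw [hA]
    exact Intr.isOpen_pre hv (S := {ξ | ξ ≠ 0}) isOpen_ne
  have hAΩ : A ⊆ Ω := by rw [hA]; exact fun x hx => hx.1
  rw [← hA] at hf
  obtain ⟨P, hP⟩ : ∃ P : (E → ℝ) → Prop, P = fun f => XF p v f =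
    ∫ x, (lam + δ * v x + (p - 1) * ‖gradient v x‖ ^ p) * f x := ⟨_, rfl⟩
  have hint : ∀ f, LipC Ω f →
      Integrable (fun x => (lam + δ * v x + (p - 1) * ‖gradient v x‖ ^ p) * f x) := by
    intro f hf
    have hfs := hf.2.2
    have hvc : ContinuousOn v (tsupport f) := hv.c1.continuousOn.mono hfs
    have hcc : ContinuousOn (fun x => (lam + δ * v x + (p - 1) * ‖gradient v x‖ ^ p) * f x)
        (tsupport f) := by
      refine ContinuousOn.mul ?_ hf.1.choose_spec.continuous.continuousOn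
      refine (continuousOn_const.add (continuousOn_const.mul hvc)).add (continuousOn_const.mul ?_)
      exact ((Intr.gcont hv).mono hfs).norm.rpow_const (fun x _ => Or.inr (by linarith))
    have h1 := hcc.integrableOn_compact (μ := volume) hf.2.1
    refine ((integrable_indicator_iff (isClosed_tsupport f).measurableSet).2 h1).congr ?_
    refine Eventually.of_forall (fun x => ?_)
    by_cases hx : x ∈ tsupport f
    · rw [indicator_of_mem hx]
    · rw [indicator_of_notMem hx]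
      simp only [image_eq_zero_of_notMem_tsupport hx, mul_zero]
  -- additivity
  have hadd : ∀ f g, LipC Ω f → LipC Ω g → P f → P g → P (fun x => f x + g x) := by
    intro f g hf hg h1 h2
    rw [hP] at h1 h2 ⊢
    simp only at h1 h2 ⊢
    rw [XF_add hp hv.isOpen hv.cvx hf hg, h1, h2, ← integral_add (hint f hf) (hint g hg)]
    refine integral_congr_ae (Eventually.of_forall (fun x => ?_))
    simp only
    ring
  have hzero : ∀ f, LipC (∅ : Set E) f → P f := by
    intro f hf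
    have h1 : ∀ x, x ∉ tsupport f := fun x hx => hf.2.2 hx
    have h2 : f = fun _ => 0 := by
      funext x
      exact image_eq_zero_of_notMem_tsupport (h1 x)
    rw [hP]
    simp only
    unfold XF
    have h3 : ∀ x, gradient f x = 0 := fun x => Intr.gradient_zero (h1 x)
    simp only [h3, inner_zero_right, integral_zero, neg_zero]
    rw [h2]
    simp only [mul_zero, integral_zero]
  have main : ∃ O : Set E, IsOpen O ∧ tsupport f ⊆ O ∧ O ⊆ A ∧ ∀ g, LipC O g → P g := by
    refine hf.2.1.isCompact.induction_on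
      (p := fun s => ∃ O : Set E, IsOpen O ∧ s ⊆ O ∧ O ⊆ A ∧ ∀ g, LipC O g → P g) ?_ ?_ ?_ ?_
    · exact ⟨∅, isOpen_empty, subset_rfl, empty_subset _, hzero⟩
    · rintro s t hst ⟨O, h1, h2, h3, h4⟩
      exact ⟨O, h1, hst.trans h2, h3, h4⟩
    · rintro s t ⟨O₁, h1, h2, h3, h4⟩ ⟨O₂, k1, k2, k3, k4⟩
      refine ⟨O₁ ∪ O₂, h1.union k1, union_subset_union h2 k2, union_subset h3 k3, ?_⟩
      intro g hg
      have hcpt : IsCompact (tsupport g \ O₂) := hg.2.1.isCompact.diff k1
      obtain ⟨χ, hχ1, hχ2, hχ3, hχ4, V, hV1, hV2, hV3⟩ := exists_cutoff h1 hcpt (by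
        intro x hx
        rcases hg.2.2 hx.1 with h5 | h5
        · exact h5
        · exact absurd h5 hx.2)
      have hχc : ContDiff ℝ 1 χ := hχ1.of_le (by exact_mod_cast le_top)
      have hO12 : IsOpen (O₁ ∪ O₂) := h1.union k1
      have g1' : LipC (O₁ ∪ O₂) (fun x => g x * χ x) := lipC_of_contDiffOn hO12 hg hχc.contDiffOn
      have g2' : LipC (O₁ ∪ O₂) (fun x => g x * (1 - χ x)) :=
        lipC_of_contDiffOn hO12 hg (contDiff_const.sub hχc).contDiffOn
      have g1 : LipC O₁ (fun x => g x * χ x) :=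
        ⟨g1'.1, g1'.2.1, (tsupport_mul_subset_right).trans hχ3⟩
      have g2 : LipC O₂ (fun x => g x * (1 - χ x)) := by
        refine ⟨g2'.1, g2'.2.1, ?_⟩
        intro x hx
        have hxg : x ∈ tsupport g := (tsupport_mul_subset_left) hx
        by_contra hn
        have hxV : x ∈ V := hV2 ⟨hxg, hn⟩
        have : x ∉ tsupport (fun x => g x * (1 - χ x)) := by
          rw [notMem_tsupport_iff_eventuallyEq]
          filter_upwards [hV1.mem_nhds hxV] with y hy
          rw [hV3 y hy]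
          simp
        exact this hx
      have hOΩ : ∀ {O : Set E} {g : E → ℝ}, O ⊆ A → LipC O g → LipC Ω g := fun hO hg =>
        ⟨hg.1, hg.2.1, hg.2.2.trans (hO.trans hAΩ)⟩
      have h5 := hadd _ _ (hOΩ h3 g1) (hOΩ k3 g2) (h4 _ g1) (k4 _ g2)
      have e : (fun x => g x * χ x + g x * (1 - χ x)) = g := by
        funext x; ring
      rwa [e] at h5
    · intro x hx
      have hxA : x ∈ A := hf.2.2 hx
      have hxA' := hxA
      rw [hA] at hxA'
      have hn : 0 < ‖gradient v x‖ := norm_pos_iff.2 hxA'.2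
      obtain ⟨s₁, hs₁⟩ : ∃ s₁ : ℝ, s₁ = ‖gradient v x‖ / 4 := ⟨_, rfl⟩
      have hs₁0 : 0 < s₁ := by rw [hs₁]; positivity
      have hO : IsOpen {y | y ∈ Ω ∧ gradient v y ∈ ball (gradient v x) s₁} :=
        Intr.isOpen_pre hv isOpen_ball
      refine ⟨{y | y ∈ Ω ∧ gradient v y ∈ ball (gradient v x) s₁},
        mem_nhdsWithin_of_mem_nhds (hO.mem_nhds ⟨hxA'.1, mem_ball_self hs₁0⟩),
        _, hO, subset_rfl, ?_, ?_⟩
      · intro y hy
        rw [hA]
        refine ⟨hy.1, fun h0 => ?_⟩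
        have := hy.2
        rw [h0, mem_ball, dist_eq_norm, zero_sub, norm_neg, hs₁] at this
        linarith
      · intro g hg
        rw [hP]
        exact Intr.local_eq hp hv h hw hs₁0 (by rw [hs₁]; ring) hg
  obtain ⟨O, -, hO2, -, hO4⟩ := main
  have := hO4 f ⟨hf.1, hf.2.1, hO2⟩
  rw [hP] at this
  exact this

end PLap
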