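import Pool.Agent.Lib.MP_a627f3_an.Tan
import Pool.Agent.Lib.MP_a627f3_an.Rayl

open MeasureTheory Set Filter Topology Metric
open scoped RealInnerProductSpace ENNReal NNReal

namespace PLap

variable {E : Type*} [NormedAddCommGroup E] [InnerProductSpace ℝ E] [FiniteDimensional ℝ E]
  [CompleteSpace E] [MeasurableSpace E] [BorelSpace E]

omit [CompleteSpace E] in
private theorem slab_int {Ω : Set E} (hΩ : IsOpen Ω) {g f : E → ℝ} (hg : ContinuousOn g Ω)
    (hf : Continuous f) (hc : HasCompactSupport f) (hs : tsupport f ⊆ Ω) :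
    Integrable (fun x => g x * f x) :=
  ((hg.mul hf.continuousOn).continuous_of_tsupport_subset hΩ
    ((tsupport_mul_subset_right).trans hs)).integrable_of_hasCompactSupport hc.mul_left

private theorem slab_aux {p : ℝ} (hp : 1 < p) {Ω : Set E} (hΩ : IsOpen Ω)
    {e : E} (he : ‖e‖ = 1) {a W s : ℝ} (hs : 0 < s) (hsW : s * W < 2 * Tp p)
    (h : ∀ x ∈ Ω, a < ⟪e, x⟫ ∧ ⟪e, x⟫ < a + W) {u : E → ℝ} (hu : IsTest Ω u) :
    s ^ p * ∫ x, |u x| ^ p ≤ ∫ x, ‖fderiv ℝ u x‖ ^ p := by
  obtain ⟨σ, hσ0, hσodd, hσ, -⟩ := exists_tan hp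
  obtain ⟨hu1, hu2, hu3, hu4⟩ := hu
  have hp1 : 0 < p - 1 := by linarith
  -- the argument
  let y : E → ℝ := fun x => s * (⟪e, x⟫ - a - W / 2)
  have hy : ∀ x ∈ Ω, y x ∈ Ioo (-(Tp p)) (Tp p) := by
    intro x hx
    obtain ⟨h1, h2⟩ := h x hx
    constructor
    · have : s * (-(W / 2)) < s * (⟪e, x⟫ - a - W / 2) := mul_lt_mul_of_pos_left (by linarith) hs
      simp only [y]
      linarith
    · have : s * (⟪e, x⟫ - a - W / 2) < s * (W / 2) := mul_lt_mul_of_pos_left (by linarith) hs
      simp only [y]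
      linarith
  have hyd : ∀ x, HasFDerivAt y (s • innerSL ℝ e) x := by
    intro x
    have h1 : HasFDerivAt (fun x : E => ⟪e, x⟫) (innerSL ℝ e) x := (innerSL ℝ e).hasFDerivAt
    exact ((h1.sub_const a).sub_const (W / 2)).const_mul s
  have hycont : Continuous y := continuous_iff_continuousAt.mpr fun x => (hyd x).continuousAt
  have hσc : ∀ x ∈ Ω, ContinuousAt (fun x => σ (y x)) x := fun x hx =>
    (hσ _ (hy x hx)).continuousAt.comp hycont.continuousAt
  have hσcon : ContinuousOn (fun x => σ (y x)) Ω := fun x hx => (hσc x hx).continuousWithinAt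
  -- the vector field
  let g : E → ℝ := fun x => s ^ (p - 1) * σ (y x)
  let g' : E → ℝ := fun x => s ^ p * (1 + (p - 1) * |σ (y x)| ^ (p / (p - 1)))
  have hg : ∀ x ∈ Ω, HasLineDerivAt ℝ g (g' x) x e := by
    intro x hx
    have h1 := ((hσ _ (hy x hx)).comp_hasFDerivAt x (hyd x)).const_mul (s ^ (p - 1))
    have h2 := h1.hasLineDerivAt e
    have h3 : g' x = s ^ (p - 1) *
        ((1 + (p - 1) * |σ (y x)| ^ (p / (p - 1))) * (s * ⟪e, e⟫)) := by
      have h4 : s ^ p = s ^ (p - 1) * s := by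
        rw [← Real.rpow_add_one hs.ne']; congr 1; ring
      rw [real_inner_self_eq_norm_sq, he, one_pow, mul_one]
      simp only [g']
      rw [h4]
      ring
    rw [h3]
    exact h2
  let f : E → ℝ := fun x => |u x| ^ p
  have hf1 : ContDiff ℝ 1 f := by
    have := hu1.norm_rpow hp
    simpa only [Real.norm_eq_abs] using this
  have hfsupp : ∀ x, u x = 0 → f x = 0 := by
    intro x hx
    simp only [f]
    rw [hx, abs_zero, Real.zero_rpow (by linarith)]
  have hfs : tsupport f ⊆ tsupport u := by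
    refine closure_mono fun x hx => ?_
    rw [Function.mem_support] at hx ⊢
    exact fun h0 => hx (hfsupp x h0)
  have hfc : HasCompactSupport f := hu2.mono' ((subset_tsupport f).trans hfs)
  have hfΩ : tsupport f ⊆ Ω := hfs.trans hu3
  let S : E → E := fun x => g x • e
  have hgcont : ContinuousOn g Ω := hσcon.const_smul (s ^ (p - 1))
  have hg'cont : ContinuousOn g' Ω := by
    refine ContinuousOn.mul continuousOn_const (continuousOn_const.add
      (ContinuousOn.mul continuousOn_const ?_))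
    exact hσcon.abs.rpow_const fun x _ => Or.inr (by positivity)
  have hSc : ContinuousOn S Ω := hgcont.smul continuousOn_const
  have hyoung := young_step hp hΩ hSc ⟨hu1, hu2, hu3, hu4⟩
  -- norm of `S`
  have hSn : ∀ x, ‖S x‖ ^ (p / (p - 1)) = s ^ p * |σ (y x)| ^ (p / (p - 1)) := by
    intro x
    simp only [S, g]
    rw [norm_smul, he, mul_one, norm_mul, Real.norm_eq_abs, Real.norm_eq_abs,
      abs_of_nonneg (Real.rpow_nonneg hs.le _), Real.mul_rpow (Real.rpow_nonneg hs.le _)
      (abs_nonneg _), ← Real.rpow_mul hs.le]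
    congr 2
    field_simp
  -- integration by parts
  have hfd : ∀ x, HasLineDerivAt ℝ f (fderiv ℝ f x e) x e := fun x =>
    ((hf1.differentiable one_ne_zero) x).hasFDerivAt.hasLineDerivAt e
  have hfdc : Continuous fun x => fderiv ℝ f x e :=
    (hf1.continuous_fderiv one_ne_zero).clm_apply continuous_const
  have hfds : tsupport (fun x => fderiv ℝ f x e) ⊆ tsupport f := by
    refine closure_minimal (fun x hx => ?_) (isClosed_tsupport f)
    by_contra h0
    exact hx (by
      have : fderiv ℝ f x = 0 := by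
        by_contra h1
        exact h0 (support_fderiv_subset ℝ h1)
      simp [this])
  have hfdcs : HasCompactSupport fun x => fderiv ℝ f x e :=
    hfc.mono' ((subset_tsupport _).trans hfds)
  have hparts := integral_bilinear_hasLineDerivAt_right_eq_neg_left_of_integrable
    (μ := (volume : Measure E)) (f := g) (f' := g') (g := f) (g' := fun x => fderiv ℝ f x e)
    (v := e) (B := ContinuousLinearMap.mul ℝ ℝ)
    (slab_int hΩ hg'cont hf1.continuous hfc hfΩ)
    (slab_int hΩ hgcont hfdc hfdcs (hfds.trans hfΩ))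
    (slab_int hΩ hgcont hf1.continuous hfc hfΩ)
    (fun x hx => hg x (hfΩ hx)) (fun x _ => hfd x)
  simp only [ContinuousLinearMap.mul_apply'] at hparts
  have e1 : ∫ x, ⟪S x, gradient f x⟫ = ∫ x, g x * fderiv ℝ f x e := by
    refine integral_congr_ae (Eventually.of_forall fun x => ?_)
    simp only [S]
    rw [real_inner_smul_left, inner_gradient_right]
    simp
  have e2 : ∫ x, g' x * f x = s ^ p * (∫ x, f x) +
      (p - 1) * ∫ x, ‖S x‖ ^ (p / (p - 1)) * |u x| ^ p := by
    rw [← integral_const_mul, ← integral_const_mul, ← integral_add]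
    · refine integral_congr_ae (Eventually.of_forall fun x => ?_)
      simp only [g', f, hSn]
      ring
    · exact (hf1.continuous.integrable_of_hasCompactSupport hfc).const_mul _
    · refine Integrable.const_mul ?_ _
      simp only [hSn]
      refine slab_int hΩ ?_ hf1.continuous hfc hfΩ
      exact continuousOn_const.mul (hσcon.abs.rpow_const fun x _ => Or.inr (by positivity))
  have e3 : (∫ x, f x) = ∫ x, |u x| ^ p := rfl
  rw [e3] at e2
  have e4 : ∫ x, ⟪S x, gradient (fun y => |u y| ^ p) x⟫ = ∫ x, g x * fderiv ℝ f x e := e1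
  rw [e4, hparts, e2] at hyoung
  linarith

/-- Width lower bound. -/
theorem lam_ge_width {p : ℝ} (hp : 1 < p) {Ω : Set E} (hΩ : IsOpen Ω) (hne : Ω.Nonempty)
    {e : E} (he : ‖e‖ = 1) {a W : ℝ} (hW : 0 < W)
    (h : ∀ x ∈ Ω, a < ⟪e, x⟫ ∧ ⟪e, x⟫ < a + W) : (2 * Tp p / W) ^ p ≤ lam p Ω := by
  refine le_lam hp hΩ hne fun u hu => ?_
  have hT : 0 < 2 * Tp p / W := div_pos (mul_pos two_pos (Tp_pos hp)) hW
  have hlim : Tendsto (fun s : ℝ => s ^ p * ∫ x, |u x| ^ p) (𝓝[<] (2 * Tp p / W))
      (𝓝 ((2 * Tp p / W) ^ p * ∫ x, |u x| ^ p)) := by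
    refine Tendsto.mono_left ?_ nhdsWithin_le_nhds
    exact ((Real.continuousAt_rpow_const _ _ (Or.inl hT.ne')).mul continuousAt_const)
  refine le_of_tendsto hlim ?_
  filter_upwards [Ioo_mem_nhdsLT hT] with s hs
  exact slab_aux hp hΩ he hs.1 ((lt_div_iff₀ hW).mp hs.2) h hu

end PLap
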