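import Pool.Agent.Lib.MP_a627f3_an.Tan
import Pool.Agent.Lib.MP_a627f3_an.Rayl
import Pool.Agent.Lib.MP_a627f3_an.SlabA

open MeasureTheory Set Filter Topology Metric
open scoped RealInnerProductSpace ENNReal NNReal

namespace PLap

variable {E : Type*} [NormedAddCommGroup E] [InnerProductSpace ℝ E] [FiniteDimensional ℝ E]
  [CompleteSpace E] [MeasurableSpace E] [BorelSpace E]

section cutoff

/-- Continuous ramp. -/
private noncomputable def psi (t y : ℝ) : ℝ := max 0 (min 1 ((y - t) / t))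

private theorem psi_cont (t : ℝ) : Continuous (psi t) :=
  continuous_const.max (continuous_const.min ((continuous_id.sub continuous_const).div_const t))

private theorem psi_nonneg (t y : ℝ) : 0 ≤ psi t y := le_max_left _ _

private theorem psi_le_one (t y : ℝ) : psi t y ≤ 1 := max_le zero_le_one (min_le_left _ _)

private theorem psi_zero {t y : ℝ} (ht : 0 < t) (hy : y ≤ t) : psi t y = 0 := by
  refine max_eq_left ((min_le_right _ _).trans ?_)
  exact div_nonpos_of_nonpos_of_nonneg (by linarith) ht.le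

private theorem psi_one {t y : ℝ} (ht : 0 < t) (hy : 2 * t ≤ y) : psi t y = 1 := by
  unfold psi
  rw [min_eq_left, max_eq_right zero_le_one]
  rw [le_div_iff₀ ht]; linarith

/-- `C¹` truncation. -/
private noncomputable def chi (t s : ℝ) : ℝ := ∫ y in (0:ℝ)..s, psi t y

private theorem chi_deriv (t s : ℝ) : HasDerivAt (chi t) (psi t s) s :=
  ((psi_cont t).integral_hasStrictDerivAt 0 s).hasDerivAt

private theorem chi_zero {t s : ℝ} (ht : 0 < t) (hs0 : 0 ≤ s) (hs : s ≤ t) : chi t s = 0 := by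
  unfold chi
  rw [intervalIntegral.integral_congr (g := fun _ => 0)]
  · simp
  · intro y hy
    rw [uIcc_of_le hs0] at hy
    exact psi_zero ht (hy.2.trans hs)

private theorem chi_nonneg {t s : ℝ} (hs0 : 0 ≤ s) : 0 ≤ chi t s :=
  intervalIntegral.integral_nonneg hs0 fun y _ => psi_nonneg t y

private theorem chi_le {t s : ℝ} (hs0 : 0 ≤ s) : chi t s ≤ s := by
  have h : chi t s ≤ ∫ _ in (0:ℝ)..s, (1:ℝ) :=
    intervalIntegral.integral_mono_on hs0 ((psi_cont t).intervalIntegrable _ _)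
      intervalIntegrable_const fun y _ => psi_le_one t y
  simpa using h

private theorem le_chi {t s : ℝ} (ht : 0 < t) (hs0 : 0 ≤ s) : s - 2 * t ≤ chi t s := by
  rcases le_total s (2 * t) with h | h
  · linarith [chi_nonneg (t := t) hs0]
  · have h1 : chi t s = (∫ y in (0:ℝ)..(2 * t), psi t y) + ∫ y in (2 * t)..s, psi t y :=
      (intervalIntegral.integral_add_adjacent_intervals ((psi_cont t).intervalIntegrable _ _)
        ((psi_cont t).intervalIntegrable _ _)).symm
    have h2 : 0 ≤ ∫ y in (0:ℝ)..(2 * t), psi t y :=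
      intervalIntegral.integral_nonneg (by linarith) fun y _ => psi_nonneg t y
    have h3 : ∫ y in (2 * t)..s, psi t y = s - 2 * t := by
      rw [intervalIntegral.integral_congr (g := fun _ => 1)]
      · simp
      · intro y hy
        rw [uIcc_of_le h] at hy
        exact psi_one ht hy.1
    rw [h1, h3]
    linarith

end cutoff

section upper

variable {p : ℝ}

private noncomputable def Dd (p z : ℝ) : ℝ := 1 + (p - 1) * |z| ^ (p / (p - 1))

private theorem Dd_ge (hp : 1 < p) (z : ℝ) : 1 ≤ Dd p z := by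
  have h1 : 0 ≤ |z| ^ (p / (p - 1)) := Real.rpow_nonneg (abs_nonneg _) _
  have h2 : 0 < p - 1 := by linarith
  have := mul_nonneg h2.le h1
  unfold Dd
  linarith

private theorem Dd_deriv (hp : 1 < p) (z : ℝ) :
    HasDerivAt (Dd p) (p * (|z| ^ (p / (p - 1) - 2) * z)) z := by
  have h2 : 0 < p - 1 := by linarith
  have hp' : 1 < p / (p - 1) := by rw [lt_div_iff₀ h2]; linarith
  have h := ((hasDerivAt_abs_rpow z hp').const_mul (p - 1)).const_add 1
  refine h.congr_deriv ?_
  field_simp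

private theorem pow_cont {r : ℝ} (hr : 1 < r) : Continuous fun z : ℝ => |z| ^ (r - 2) * z := by
  have h1 : Continuous (deriv fun z : ℝ => |z| ^ r) := by
    have := (contDiff_norm_rpow (E := ℝ) hr).continuous_deriv le_rfl
    simpa only [Real.norm_eq_abs] using this
  have h2 : (deriv fun z : ℝ => |z| ^ r) = fun z => r * (|z| ^ (r - 2) * z) := by
    funext z
    rw [(hasDerivAt_abs_rpow z hr).deriv]
    ring
  rw [h2] at h1
  have h3 := h1.const_smul r⁻¹
  have hr0 : r ≠ 0 := by linarith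
  refine h3.congr fun z => ?_
  change r⁻¹ * (r * (|z| ^ (r - 2) * z)) = _
  field_simp

private theorem pow_abs (hp : 1 < p) (z : ℝ) :
    |(|z| ^ (p / (p - 1) - 2) * z)| ^ p = |z| ^ (p / (p - 1)) := by
  have hp1 : 0 < p - 1 := by linarith
  have hp' : 1 < p / (p - 1) := by rw [lt_div_iff₀ hp1]; linarith
  rcases eq_or_ne z 0 with rfl | hz
  · simp only [mul_zero, abs_zero]
    rw [Real.zero_rpow (by linarith), Real.zero_rpow (by linarith)]
  · have hz' : 0 < |z| := abs_pos.mpr hz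
    rw [abs_mul, abs_of_nonneg (Real.rpow_nonneg (abs_nonneg z) _), ← Real.rpow_add_one hz'.ne',
      ← Real.rpow_mul (abs_nonneg z)]
    congr 1
    field_simp
    ring

private theorem pow_sq (hp : 1 < p) (z : ℝ) :
    |z| ^ (p / (p - 1) - 2) * z * z = |z| ^ (p / (p - 1)) := by
  have hp1 : 0 < p - 1 := by linarith
  have hp' : 1 < p / (p - 1) := by rw [lt_div_iff₀ hp1]; linarith
  rcases eq_or_ne z 0 with rfl | hz
  · simp only [mul_zero, abs_zero]
    rw [Real.zero_rpow (by linarith)]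
  · have hz' : 0 < |z| := abs_pos.mpr hz
    rw [mul_assoc, ← abs_mul_abs_self, ← mul_assoc, ← Real.rpow_add_one hz'.ne',
      ← Real.rpow_add_one hz'.ne']
    congr 1
    ring

private theorem exists_test (hp : 1 < p) {σ : ℝ → ℝ} (hodd : ∀ x, σ (-x) = - σ x)
    (hσ : ∀ x ∈ Ioo (-(Tp p)) (Tp p), HasDerivAt σ (1 + (p - 1) * |σ x| ^ (p / (p - 1))) x)
    (hlim : Tendsto σ (𝓝[<] (Tp p)) atTop) {V : ℝ → ℝ}
    (hV : ∀ x, V x = σ (2 * Tp p * (x - 1 / 2))) {t : ℝ} (ht : 0 < t) :
    ∃ w : ℝ → ℝ, ContDiff ℝ 1 w ∧ HasCompactSupport w ∧ tsupport w ⊆ Ioo 0 1 ∧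
      (∀ x ∈ Ioo (0:ℝ) 1, 0 ≤ w x ∧ (Dd p (V x)) ^ (-(1 / p)) - 2 * t ≤ w x ∧
        w x ≤ (Dd p (V x)) ^ (-(1 / p))) ∧
      ∫ x, ‖fderiv ℝ w x‖ ^ p ≤ (2 * Tp p) ^ p * ∫ x in Ioo (0:ℝ) 1, (Dd p (V x))⁻¹ := by
  have hT : 0 < Tp p := Tp_pos hp
  have hp0 : 0 < p := by linarith
  have hp1 : 0 < p - 1 := by linarith
  have hp' : 1 < p / (p - 1) := by rw [lt_div_iff₀ hp1]; linarith
  have hDpos : ∀ z, 0 < Dd p z := fun z => zero_lt_one.trans_le (Dd_ge hp z)
  have hDcont : Continuous (Dd p) :=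
    continuous_iff_continuousAt.mpr fun z => (Dd_deriv hp z).continuousAt
  -- `D^{-1/p} ≤ t` for large arguments
  obtain ⟨M, hM⟩ : ∃ M : ℝ, ∀ z, M ≤ |z| → (Dd p z) ^ (-(1 / p)) ≤ t := by
    obtain ⟨M, hM⟩ := (eventually_atTop.mp
      ((tendsto_rpow_atTop (zero_lt_one.trans hp')).eventually_ge_atTop (t ^ (-p) / (p - 1))))
    refine ⟨M, fun z hz => ?_⟩
    have h1 := hM _ hz
    rw [div_le_iff₀' hp1] at h1
    have h2 : t ^ (-p) ≤ Dd p z := by unfold Dd; linarith
    have h3 : (Dd p z) ^ (-(1 / p)) ≤ (t ^ (-p)) ^ (-(1 / p)) :=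
      Real.rpow_le_rpow_of_nonpos (Real.rpow_pos_of_pos ht _) h2 (by
        rw [neg_nonpos]; positivity)
    rw [← Real.rpow_mul ht.le] at h3
    have h4 : -p * -(1 / p) = 1 := by field_simp
    rwa [h4, Real.rpow_one] at h3
  obtain ⟨y₀, hy₀, hy₀'⟩ : ∃ y₀ < Tp p, ∀ y ∈ Ioo y₀ (Tp p), max M 0 ≤ σ y := by
    have := hlim.eventually_ge_atTop (max M 0)
    obtain ⟨y₀, h1, h2⟩ := (mem_nhdsLT_iff_exists_Ioo_subset).mp this
    exact ⟨y₀, h1, fun y hy => h2 hy⟩
  obtain ⟨δ, hδ0, hδ2, hδ⟩ : ∃ δ : ℝ, 0 < δ ∧ δ < 1 / 2 ∧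
      ∀ x ∈ Ioo (0:ℝ) 1, 1 - δ ≤ x → max M 0 ≤ V x := by
    have h1 : max y₀ 0 < Tp p := max_lt hy₀ hT
    refine ⟨1 / 2 - (max y₀ 0 + Tp p) / 2 / (2 * Tp p), ?_, ?_, ?_⟩
    · rw [sub_pos, div_lt_iff₀ (by positivity)]
      linarith
    · have : 0 < (max y₀ 0 + Tp p) / 2 / (2 * Tp p) := by
        have := le_max_right y₀ 0
        positivity
      linarith
    · intro x hx hx2
      rw [hV]
      refine hy₀' _ ⟨?_, ?_⟩
      · have h2 : (max y₀ 0 + Tp p) / 2 / (2 * Tp p) ≤ x - 1 / 2 := by linarith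
        rw [div_le_iff₀ (by positivity)] at h2
        have := le_max_left y₀ 0
        linarith
      · have := mul_lt_mul_of_pos_left (show x - 1 / 2 < 1 / 2 by linarith [hx.2])
          (show 0 < 2 * Tp p by positivity)
        linarith
  have hVodd : ∀ x, V (1 - x) = - V x := by
    intro x
    rw [hV, hV, ← hodd]
    congr 1
    ring
  have hVM : ∀ x ∈ Ioo (0:ℝ) 1, x ∉ Icc δ (1 - δ) → M ≤ |V x| := by
    intro x hx hxK
    rw [mem_Icc, not_and_or, not_le, not_le] at hxK
    rcases hxK with h | h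
    · have h1 := hδ (1 - x) ⟨by linarith [hx.2], by linarith [hx.1]⟩ (by linarith)
      rw [hVodd] at h1
      exact (le_max_left _ _).trans (h1.trans (neg_le_abs _))
    · exact (le_max_left _ _).trans ((hδ x hx h.le).trans (le_abs_self _))
  have hKsub : Icc δ (1 - δ) ⊆ Ioo (0:ℝ) 1 := fun x hx =>
    ⟨hδ0.trans_le hx.1, hx.2.trans_lt (by linarith)⟩
  -- derivatives
  have hVd : ∀ x ∈ Ioo (0:ℝ) 1, HasDerivAt V (2 * Tp p * Dd p (V x)) x := by
    intro x hx
    have hmem : 2 * Tp p * (x - 1 / 2) ∈ Ioo (-(Tp p)) (Tp p) := by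
      constructor
      · nlinarith [hx.1]
      · nlinarith [hx.2]
    have h1 : HasDerivAt (fun x : ℝ => 2 * Tp p * (x - 1 / 2)) (2 * Tp p) x := by
      simpa only [mul_one] using ((hasDerivAt_id' x).sub_const (1 / 2)).const_mul (2 * Tp p)
    have h2 := (hσ _ hmem).comp x h1
    have h3 : V = σ ∘ fun x : ℝ => 2 * Tp p * (x - 1 / 2) := funext hV
    rw [h3]
    refine h2.congr_deriv ?_
    simp only [Function.comp, Dd]
    ring
  have hVc : ContinuousOn V (Ioo 0 1) := fun x hx => (hVd x hx).continuousAt.continuousWithinAt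
  set U : ℝ → ℝ := fun x => (Dd p (V x)) ^ (-(1 / p)) with hUdef
  have hU0 : ∀ x, 0 ≤ U x := fun x => Real.rpow_nonneg (hDpos _).le _
  have hUd : ∀ x ∈ Ioo (0:ℝ) 1,
      HasDerivAt U (-(2 * Tp p * (|V x| ^ (p / (p - 1) - 2) * V x) * U x)) x := by
    intro x hx
    have h1 := (Dd_deriv hp (V x)).comp x (hVd x hx)
    have h2 := h1.rpow_const (p := -(1 / p)) (Or.inl (hDpos _).ne')
    refine h2.congr_deriv ?_
    simp only [Function.comp, hUdef]
    have h3 : Dd p (V x) ^ (-(1 / p)) = Dd p (V x) ^ (-(1 / p) - 1) * Dd p (V x) := by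
      rw [← Real.rpow_add_one (hDpos _).ne']
      congr 1
      ring
    rw [h3]
    field_simp
  have hUc : ContinuousOn U (Ioo 0 1) := fun x hx => (hUd x hx).continuousAt.continuousWithinAt
  set w : ℝ → ℝ := fun x => if x ∈ Ioo (0:ℝ) 1 then chi t (U x) else 0 with hwdef
  set wd : ℝ → ℝ := fun x => if x ∈ Ioo (0:ℝ) 1 then
    psi t (U x) * (-(2 * Tp p * (|V x| ^ (p / (p - 1) - 2) * V x) * U x)) else 0 with hwddef
  have hw0 : ∀ x ∉ Icc δ (1 - δ), w x = 0 := by
    intro x hx
    simp only [hwdef]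
    split_ifs with h
    · exact chi_zero ht (hU0 x) (hM _ (hVM x h hx))
    · rfl
  have hwd0 : ∀ x ∉ Icc δ (1 - δ), wd x = 0 := by
    intro x hx
    simp only [hwddef]
    split_ifs with h
    · rw [psi_zero ht (hM _ (hVM x h hx)), zero_mul]
    · rfl
  have hwsupp : tsupport w ⊆ Icc δ (1 - δ) :=
    closure_minimal (fun x hx => by_contra fun h => hx (hw0 x h)) isClosed_Icc
  have hwdsupp : tsupport wd ⊆ Icc δ (1 - δ) :=
    closure_minimal (fun x hx => by_contra fun h => hx (hwd0 x h)) isClosed_Icc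
  have hwd : ∀ x, HasDerivAt w (wd x) x := by
    intro x
    by_cases hx : x ∈ Ioo (0:ℝ) 1
    · have h1 := (chi_deriv t (U x)).comp x (hUd x hx)
      have h2 : wd x = psi t (U x) * (-(2 * Tp p * (|V x| ^ (p / (p - 1) - 2) * V x) * U x)) := by
        simp only [hwddef, if_pos hx]
      rw [h2]
      refine h1.congr_of_eventuallyEq ?_
      filter_upwards [isOpen_Ioo.mem_nhds hx] with y hy
      simp only [hwdef, if_pos hy, Function.comp]
    · have hxK : x ∉ Icc δ (1 - δ) := fun h => hx (hKsub h)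
      rw [hwd0 x hxK]
      refine (hasDerivAt_const x (0:ℝ)).congr_of_eventuallyEq ?_
      filter_upwards [isClosed_Icc.isOpen_compl.mem_nhds hxK] with y hy
      exact hw0 y hy
  have hwdc : Continuous wd := by
    refine ContinuousOn.continuous_of_tsupport_subset (s := Ioo (0:ℝ) 1) ?_ isOpen_Ioo
      (hwdsupp.trans hKsub)
    have h1 : ContinuousOn (fun x => psi t (U x) *
        (-(2 * Tp p * (|V x| ^ (p / (p - 1) - 2) * V x) * U x))) (Ioo 0 1) := by
      refine ((psi_cont t).comp_continuousOn hUc).mul (ContinuousOn.neg ?_)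
      refine (continuousOn_const.mul ?_).mul hUc
      exact (pow_cont hp').comp_continuousOn hVc
    refine h1.congr fun x hx => ?_
    simp only [hwddef, if_pos hx]
  have hwderiv : deriv w = wd := funext fun x => (hwd x).deriv
  have hK : IsCompact (Icc δ (1 - δ)) := isCompact_Icc
  refine ⟨w, ?_, ?_, hwsupp.trans hKsub, ?_, ?_⟩
  · rw [contDiff_one_iff_deriv]
    exact ⟨fun x => (hwd x).differentiableAt, by rw [hwderiv]; exact hwdc⟩
  · exact hK.of_isClosed_subset (isClosed_tsupport w) hwsupp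
  · intro x hx
    simp only [hwdef, if_pos hx]
    exact ⟨chi_nonneg (hU0 x), le_chi ht (hU0 x), chi_le (hU0 x)⟩
  · have hU2 : ∀ x, (U x) ^ p = (Dd p (V x))⁻¹ := by
      intro x
      simp only [hUdef]
      rw [← Real.rpow_mul (hDpos _).le, neg_mul, one_div, inv_mul_cancel₀ hp0.ne',
        Real.rpow_neg_one]
    have hδ1 : δ ≤ 1 - δ := by linarith
    -- pointwise bound
    have hb : ∀ x ∈ Icc δ (1 - δ), ‖fderiv ℝ w x‖ ^ p ≤
        (2 * Tp p) ^ p * (|V x| ^ (p / (p - 1)) * (Dd p (V x))⁻¹) := by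
      intro x hx
      have h1 : ‖fderiv ℝ w x‖ = |wd x| := by
        rw [← norm_deriv_eq_norm_fderiv, hwderiv, Real.norm_eq_abs]
      have h2 : |wd x| ≤ 2 * Tp p * |(|V x| ^ (p / (p - 1) - 2) * V x)| * U x := by
        simp only [hwddef, if_pos (hKsub hx)]
        rw [abs_mul, abs_neg, abs_mul, abs_mul (2 * Tp p), abs_of_nonneg (psi_nonneg _ _),
          abs_of_nonneg (hU0 x), abs_of_pos (show 0 < 2 * Tp p by positivity)]
        have h3 : 0 ≤ 2 * Tp p * |(|V x| ^ (p / (p - 1) - 2) * V x)| * U x := by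
          have := hU0 x
          positivity
        exact mul_le_of_le_one_left h3 (psi_le_one _ _)
      rw [h1]
      refine (Real.rpow_le_rpow (abs_nonneg _) h2 hp0.le).trans_eq ?_
      rw [Real.mul_rpow (by positivity) (hU0 x), Real.mul_rpow (by positivity) (abs_nonneg _),
        pow_abs hp, hU2]
      ring
    have hc1 : ContinuousOn (fun x => (Dd p (V x))⁻¹) (Icc δ (1 - δ)) :=
      ((hDcont.comp_continuousOn hVc).inv₀ fun x _ => (hDpos _).ne').mono hKsub
    have hc2 : ContinuousOn (fun x => |V x| ^ (p / (p - 1)) * (Dd p (V x))⁻¹) (Icc δ (1 - δ)) :=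
      ((hVc.mono hKsub).abs.rpow_const fun x _ => Or.inr (by linarith)).mul hc1
    have hi1 : IntervalIntegrable (fun x => (Dd p (V x))⁻¹) volume δ (1 - δ) :=
      ContinuousOn.intervalIntegrable (by rwa [uIcc_of_le hδ1])
    have hi2 : IntervalIntegrable (fun x => |V x| ^ (p / (p - 1)) * (Dd p (V x))⁻¹)
        volume δ (1 - δ) := ContinuousOn.intervalIntegrable (by rwa [uIcc_of_le hδ1])
    -- the identity
    have hF : ∫ x in δ..(1 - δ), (2 * Tp p * ((Dd p (V x))⁻¹ -
        |V x| ^ (p / (p - 1)) * (Dd p (V x))⁻¹)) =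
        V (1 - δ) * (Dd p (V (1 - δ)))⁻¹ - V δ * (Dd p (V δ))⁻¹ := by
      refine intervalIntegral.integral_eq_sub_of_hasDerivAt
        (f := fun x => V x * (Dd p (V x))⁻¹) (fun x hx => ?_) ((hi1.sub hi2).const_mul _)
      rw [uIcc_of_le hδ1] at hx
      have h1 := hVd x (hKsub hx)
      have h2 : HasDerivAt (fun x => (Dd p (V x))⁻¹)
          (-(p * (|V x| ^ (p / (p - 1) - 2) * V x) * (2 * Tp p * Dd p (V x))) /
          Dd p (V x) ^ 2) x := ((Dd_deriv hp (V x)).comp x h1).inv (hDpos _).ne'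
      refine (h1.mul h2).congr_deriv ?_
      have hD := (hDpos (V x)).ne'
      have h3 : V x * (-(p * (|V x| ^ (p / (p - 1) - 2) * V x) * (2 * Tp p * Dd p (V x))) /
          Dd p (V x) ^ 2) = -(p * |V x| ^ (p / (p - 1)) * (2 * Tp p)) / Dd p (V x) := by
        rw [← pow_sq hp (V x)]
        field_simp
      rw [h3]
      have h4 : Dd p (V x) = 1 + (p - 1) * |V x| ^ (p / (p - 1)) := rfl
      generalize hDD : Dd p (V x) = D at *
      generalize |V x| ^ (p / (p - 1)) = P at *
      field_simp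
      rw [h4]
      ring
    have hF0 : 0 ≤ V (1 - δ) * (Dd p (V (1 - δ)))⁻¹ - V δ * (Dd p (V δ))⁻¹ := by
      have h1 : 0 ≤ V (1 - δ) :=
        (le_max_right M 0).trans (hδ (1 - δ) ⟨by linarith, by linarith⟩ le_rfl)
      have h2 : V δ ≤ 0 := by
        rw [hVodd] at h1
        linarith
      have h3 := mul_nonneg h1 (inv_pos.mpr (hDpos (V (1 - δ)))).le
      have h4 := mul_nonneg (neg_nonneg.mpr h2) (inv_pos.mpr (hDpos (V δ))).le
      linarith
    rw [intervalIntegral.integral_const_mul, intervalIntegral.integral_sub hi1 hi2] at hF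
    rw [← hF] at hF0
    have hle : ∫ x in δ..(1 - δ), |V x| ^ (p / (p - 1)) * (Dd p (V x))⁻¹ ≤
        ∫ x in δ..(1 - δ), (Dd p (V x))⁻¹ := by
      have := nonneg_of_mul_nonneg_right hF0 (show 0 < 2 * Tp p by positivity)
      linarith
    have hint : IntegrableOn (fun x => (Dd p (V x))⁻¹) (Ioo 0 1) := by
      refine Integrable.of_bound (((hDcont.comp_continuousOn hVc).inv₀
        fun x _ => (hDpos _).ne').aestronglyMeasurable measurableSet_Ioo) 1 ?_
      refine Eventually.of_forall fun x => ?_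
      rw [Real.norm_of_nonneg (inv_pos.mpr (hDpos _)).le]
      exact inv_le_one_of_one_le₀ (Dd_ge hp _)
    calc ∫ x, ‖fderiv ℝ w x‖ ^ p = ∫ x in Icc δ (1 - δ), ‖fderiv ℝ w x‖ ^ p := by
          refine (setIntegral_eq_integral_of_forall_compl_eq_zero fun x hx => ?_).symm
          rw [← norm_deriv_eq_norm_fderiv, hwderiv, hwd0 x hx, norm_zero, Real.zero_rpow hp0.ne']
      _ ≤ ∫ x in Icc δ (1 - δ), (2 * Tp p) ^ p * (|V x| ^ (p / (p - 1)) * (Dd p (V x))⁻¹) := by
          refine setIntegral_mono_on ?_ ?_ measurableSet_Icc hb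
          · refine ContinuousOn.integrableOn_Icc ?_
            have : Continuous fun x => ‖fderiv ℝ w x‖ ^ p := by
              have h1 : (fun x => ‖fderiv ℝ w x‖ ^ p) = fun x => ‖wd x‖ ^ p := by
                funext x
                rw [← norm_deriv_eq_norm_fderiv, hwderiv]
              rw [h1]
              exact hwdc.norm.rpow_const fun x => Or.inr hp0.le
            exact this.continuousOn
          · exact (continuousOn_const.mul hc2).integrableOn_Icc
      _ = (2 * Tp p) ^ p * ∫ x in δ..(1 - δ), |V x| ^ (p / (p - 1)) * (Dd p (V x))⁻¹ := by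
          rw [integral_const_mul, integral_Icc_eq_integral_Ioc,
            ← intervalIntegral.integral_of_le hδ1]
      _ ≤ (2 * Tp p) ^ p * ∫ x in δ..(1 - δ), (Dd p (V x))⁻¹ :=
          mul_le_mul_of_nonneg_left hle (by positivity)
      _ ≤ (2 * Tp p) ^ p * ∫ x in Ioo (0:ℝ) 1, (Dd p (V x))⁻¹ := by
          refine mul_le_mul_of_nonneg_left ?_ (by positivity)
          rw [intervalIntegral.integral_of_le hδ1, ← integral_Icc_eq_integral_Ioc]
          exact setIntegral_mono_set hint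
            (Eventually.of_forall fun x => (inv_pos.mpr (hDpos _)).le)
            (Eventually.of_forall hKsub)

end upper

/-- One-dimensional eigenvalue: `λ_p((0,1)) = (2 T_p)^p`. -/
theorem lam_interval {p : ℝ} (hp : 1 < p) : lam p (Ioo (0:ℝ) 1) = (2 * Tp p) ^ p := by
  have hT : 0 < Tp p := Tp_pos hp
  have hp0 : 0 < p := by linarith
  refine le_antisymm ?_ ?_
  · obtain ⟨σ, hσ0, hσodd, hσ, hlim⟩ := exists_tan hp
    let V : ℝ → ℝ := fun x => σ (2 * Tp p * (x - 1 / 2))
    choose! w hw1 hw2 hw3 hw4 hw5 using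
      fun (t : ℝ) (ht : 0 < t) => exists_test hp hσodd hσ hlim (V := V) (fun _ => rfl) ht
    have hVc : ContinuousOn V (Ioo 0 1) := by
      intro x hx
      refine (ContinuousAt.comp (f := fun x : ℝ => 2 * Tp p * (x - 1 / 2)) (g := σ) ?_
        (by fun_prop)).continuousWithinAt
      refine (hσ _ ⟨?_, ?_⟩).continuousAt
      · nlinarith [hx.1]
      · nlinarith [hx.2]
    have hDc : ContinuousOn (fun x => (Dd p (V x))⁻¹) (Ioo 0 1) := by
      refine ContinuousOn.inv₀ ?_ fun x _ => (zero_lt_one.trans_le (Dd_ge hp _)).ne'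
      exact (continuous_iff_continuousAt.mpr fun z =>
        (Dd_deriv hp z).continuousAt).comp_continuousOn hVc
    have hD01 : ∀ x, 0 < (Dd p (V x))⁻¹ ∧ (Dd p (V x))⁻¹ ≤ 1 := fun x =>
      ⟨inv_pos.mpr (zero_lt_one.trans_le (Dd_ge hp _)), inv_le_one_of_one_le₀ (Dd_ge hp _)⟩
    have hDi : IntegrableOn (fun x => (Dd p (V x))⁻¹) (Ioo 0 1) := by
      refine Integrable.of_bound (hDc.aestronglyMeasurable measurableSet_Ioo) 1 ?_
      refine Eventually.of_forall fun x => ?_
      rw [Real.norm_of_nonneg (hD01 x).1.le]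
      exact (hD01 x).2
    set I := ∫ x in Ioo (0:ℝ) 1, (Dd p (V x))⁻¹ with hI
    have hIpos : 0 < I := by
      rw [hI, setIntegral_pos_iff_support_of_nonneg_ae
        (Eventually.of_forall fun x => (hD01 x).1.le) hDi]
      have : Function.support (fun x => (Dd p (V x))⁻¹) = univ :=
        eq_univ_of_forall fun x => (hD01 x).1.ne'
      rw [this, univ_inter]
      simp
    -- the limit
    have hlim2 : Tendsto (fun n : ℕ => ∫ x, |w (1 / ((n : ℝ) + 1)) x| ^ p) atTop (𝓝 I) := by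
      have hpos : ∀ n : ℕ, (0 : ℝ) < 1 / ((n : ℝ) + 1) := fun n => by positivity
      have e1 : ∀ n : ℕ, ∫ x, |w (1 / ((n : ℝ) + 1)) x| ^ p =
          ∫ x in Ioo (0:ℝ) 1, |w (1 / ((n : ℝ) + 1)) x| ^ p := by
        intro n
        refine (setIntegral_eq_integral_of_forall_compl_eq_zero fun x hx => ?_).symm
        have : w (1 / ((n : ℝ) + 1)) x = 0 :=
          image_eq_zero_of_notMem_tsupport fun h => hx (hw3 _ (hpos n) h)
        rw [this, abs_zero, Real.zero_rpow hp0.ne']
      simp_rw [e1]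
      have hU1 : ∀ x, (Dd p (V x)) ^ (-(1 / p)) ≤ 1 := fun x =>
        Real.rpow_le_one_of_one_le_of_nonpos (Dd_ge hp _) (by
          rw [neg_nonpos]; positivity)
      have hU2 : ∀ x, ((Dd p (V x)) ^ (-(1 / p))) ^ p = (Dd p (V x))⁻¹ := by
        intro x
        rw [← Real.rpow_mul (zero_le_one.trans (Dd_ge hp _)), neg_mul, one_div,
          inv_mul_cancel₀ hp0.ne', Real.rpow_neg_one]
      refine tendsto_integral_of_dominated_convergence (fun _ => 1)
        (fun n => ?_) (by simp) (fun n => ?_) ?_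
      · exact ((hw1 _ (hpos n)).continuous.abs.rpow_const
          fun x => Or.inr hp0.le).aestronglyMeasurable
      · refine (ae_restrict_iff' measurableSet_Ioo).mpr (Eventually.of_forall fun x hx => ?_)
        obtain ⟨h1, -, h3⟩ := hw4 _ (hpos n) x hx
        rw [abs_of_nonneg h1, Real.norm_of_nonneg (Real.rpow_nonneg h1 _)]
        exact Real.rpow_le_one h1 (h3.trans (hU1 x)) hp0.le
      · refine (ae_restrict_iff' measurableSet_Ioo).mpr (Eventually.of_forall fun x hx => ?_)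
        have h4 : Tendsto (fun n : ℕ => w (1 / ((n : ℝ) + 1)) x) atTop
            (𝓝 ((Dd p (V x)) ^ (-(1 / p)))) := by
          have h5 : Tendsto (fun n : ℕ => (Dd p (V x)) ^ (-(1 / p)) - 2 * (1 / ((n : ℝ) + 1)))
              atTop (𝓝 ((Dd p (V x)) ^ (-(1 / p)))) := by
            have := (tendsto_one_div_add_atTop_nhds_zero_nat (𝕜 := ℝ)).const_mul 2
            have := (tendsto_const_nhds (x := (Dd p (V x)) ^ (-(1 / p)))).sub this
            simpa using this
          exact tendsto_of_tendsto_of_tendsto_of_le_of_le h5 tendsto_const_nhds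
            (fun n => (hw4 _ (hpos n) x hx).2.1) (fun n => (hw4 _ (hpos n) x hx).2.2)
        have h6 := (h4.abs).rpow_const (p := p) (Or.inr hp0.le)
        rw [abs_of_nonneg (Real.rpow_nonneg (zero_le_one.trans (Dd_ge hp _)) _), hU2] at h6
        exact h6
    have hle : ∀ n : ℕ, lam p (Ioo (0:ℝ) 1) * ∫ x, |w (1 / ((n : ℝ) + 1)) x| ^ p ≤
        (2 * Tp p) ^ p * I := by
      intro n
      have hn : (0 : ℝ) < 1 / ((n : ℝ) + 1) := by positivity
      exact (lam_mul_le hp (hw1 _ hn) (hw2 _ hn) (hw3 _ hn)).trans (hw5 _ hn)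
    have := le_of_tendsto' (hlim2.const_mul (lam p (Ioo (0:ℝ) 1))) hle
    exact le_of_mul_le_mul_right this hIpos
  · have h := lam_ge_width (E := ℝ) hp (Ω := Ioo (0:ℝ) 1) isOpen_Ioo
      ⟨1 / 2, by norm_num, by norm_num⟩ (e := (1:ℝ)) (by simp) (a := 0) (W := 1) one_pos
      (fun x hx => by
        rw [real_inner_comm]
        simp only [RCLike.inner_apply, conj_trivial]
        constructor <;> linarith [hx.1, hx.2])
    rwa [div_one] at h

end PLap
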