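import Pool.Agent.Lib.MP_a627f3_an.Rayl

open MeasureTheory Set Filter Topology Metric
open scoped RealInnerProductSpace ENNReal NNReal

namespace PLap

variable {E : Type*} [NormedAddCommGroup E] [InnerProductSpace ℝ E] [FiniteDimensional ℝ E]
  [CompleteSpace E] [MeasurableSpace E] [BorelSpace E]

/-- The box `(0,1) × (0,R)^d`. -/
def Box (d : ℕ) (R : ℝ) : Set (EuclideanSpace ℝ (Fin (d + 1))) :=
  {x | ∀ i, 0 < x i ∧ x i < if i = 0 then 1 else R}

theorem SlabB_integral_prod {n : ℕ} (f : Fin n → ℝ → ℝ) :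
    ∫ x : EuclideanSpace ℝ (Fin n), ∏ i, f i (x i) = ∏ i, ∫ y, f i y := by
  rw [← (PiLp.volume_preserving_toLp (Fin n)).integral_comp
    (MeasurableEquiv.toLp 2 _).measurableEmbedding]
  exact integral_fintype_prod_volume_eq_prod f

theorem SlabB_compact {n : ℕ} (K : Fin n → Set ℝ) (hK : ∀ i, IsCompact (K i)) :
    IsCompact {x : EuclideanSpace ℝ (Fin n) | ∀ i, x i ∈ K i} := by
  have h1 : IsCompact (Set.pi univ K) := isCompact_univ_pi hK
  have h2 := ((PiLp.continuousLinearEquiv 2 ℝ (fun _ : Fin n => ℝ)).toHomeomorph).isCompact_preimage.2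
    h1
  convert h2 using 1
  ext x
  simp [Set.mem_pi]

theorem SlabB_fderiv {n : ℕ} {h : Fin n → ℝ → ℝ} (h1 : ∀ i, ContDiff ℝ 1 (h i))
    (x : EuclideanSpace ℝ (Fin n)) :
    ‖fderiv ℝ (fun x : EuclideanSpace ℝ (Fin n) => ∏ i, h i (x i)) x‖ ≤
      ∑ i, |deriv (h i) (x i)| * ∏ j ∈ Finset.univ.erase i, |h j (x j)| := by
  have e1 : ∀ i ∈ Finset.univ, HasFDerivAt (fun x : EuclideanSpace ℝ (Fin n) => h i (x i))
      (deriv (h i) (x i) • (EuclideanSpace.proj i : EuclideanSpace ℝ (Fin n) →L[ℝ] ℝ)) x := by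
    intro i _
    have h2 : HasDerivAt (h i) (deriv (h i) (x i)) (x i) :=
      (((h1 i).differentiable one_ne_zero) (x i)).hasDerivAt
    exact h2.comp_hasFDerivAt x
      (EuclideanSpace.proj i : EuclideanSpace ℝ (Fin n) →L[ℝ] ℝ).hasFDerivAt
  have e2 := HasFDerivAt.finsetProd e1
  rw [e2.fderiv]
  refine (norm_sum_le _ _).trans (Finset.sum_le_sum fun i _ => ?_)
  rw [norm_smul, norm_smul, norm_prod]
  simp only [Real.norm_eq_abs]
  have e4 : ‖(EuclideanSpace.proj i : EuclideanSpace ℝ (Fin n) →L[ℝ] ℝ)‖ ≤ 1 := by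
    refine ContinuousLinearMap.opNorm_le_bound _ zero_le_one fun v => ?_
    rw [one_mul]
    exact PiLp.norm_apply_le v i
  calc (∏ j ∈ Finset.univ.erase i, |h j (x j)|) * (|deriv (h i) (x i)| * ‖(EuclideanSpace.proj i :
          EuclideanSpace ℝ (Fin n) →L[ℝ] ℝ)‖)
      ≤ (∏ j ∈ Finset.univ.erase i, |h j (x j)|) * (|deriv (h i) (x i)| * 1) := by
        refine mul_le_mul_of_nonneg_left (mul_le_mul_of_nonneg_left e4 (abs_nonneg _)) ?_
        exact Finset.prod_nonneg fun _ _ => abs_nonneg _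
    _ = _ := by ring

/-- convexity -/
theorem SlabB_convex {q : ℝ} (hq : 1 < q) {t : ℝ} (ht : 0 < t) (ht1 : t < 1) {a b : ℝ}
    (ha : 0 ≤ a) (hb : 0 ≤ b) :
    (a + b) ^ q ≤ (1 - t) ^ (1 - q) * a ^ q + t ^ (1 - q) * b ^ q := by
  have h1t : 0 < 1 - t := by linarith
  have h := (convexOn_rpow hq.le).2 (x := a / (1 - t)) (y := b / t)
    (by rw [Set.mem_Ici]; positivity) (by rw [Set.mem_Ici]; positivity) h1t.le ht.le (by ring)
  simp only [smul_eq_mul] at h
  rw [mul_div_cancel₀ _ h1t.ne', mul_div_cancel₀ _ ht.ne', Real.div_rpow ha h1t.le,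
    Real.div_rpow hb ht.le] at h
  refine h.trans (le_of_eq ?_)
  rw [Real.rpow_sub h1t, Real.rpow_sub ht, Real.rpow_one, Real.rpow_one]
  ring

/-- the products appearing in the gradient -/
theorem SlabB_T {n : ℕ} {q : ℝ} (hq : 1 < q) {h : Fin n → ℝ → ℝ}
    (h1 : ∀ i, ContDiff ℝ 1 (h i)) (h2 : ∀ i, HasCompactSupport (h i)) (i : Fin n) :
    Integrable (fun x : EuclideanSpace ℝ (Fin n) =>
      (|deriv (h i) (x i)| * ∏ j ∈ Finset.univ.erase i, |h j (x j)|) ^ q) ∧
    ∫ x : EuclideanSpace ℝ (Fin n),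
      (|deriv (h i) (x i)| * ∏ j ∈ Finset.univ.erase i, |h j (x j)|) ^ q =
      (∫ y, |deriv (h i) y| ^ q) * ∏ j ∈ Finset.univ.erase i, ∫ y, |h j y| ^ q := by
  have hq0 : 0 ≤ q := by linarith
  have hc : ∀ j, Continuous fun x : EuclideanSpace ℝ (Fin n) => x j := fun j =>
    (EuclideanSpace.proj j : EuclideanSpace ℝ (Fin n) →L[ℝ] ℝ).continuous
  constructor
  · refine Continuous.integrable_of_hasCompactSupport ?_ ?_
    · refine Continuous.rpow_const ?_ fun _ => Or.inr hq0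
      refine Continuous.mul ?_ (continuous_finsetProd _ fun j _ => ?_)
      · exact (((h1 i).continuous_deriv le_rfl).comp (hc i)).abs
      · exact ((h1 j).continuous.comp (hc j)).abs
    · refine HasCompactSupport.intro (SlabB_compact (fun j => tsupport (h j)) h2) fun x hx => ?_
      simp only [Set.mem_ofPred_eq, not_forall] at hx
      obtain ⟨j, hj⟩ := hx
      have : |deriv (h i) (x i)| * ∏ j ∈ Finset.univ.erase i, |h j (x j)| = 0 := by
        by_cases hji : j = i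
        · subst hji
          have : deriv (h j) (x j) = 0 := by
            by_contra hne
            exact hj (support_deriv_subset (Function.mem_support.2 hne))
          simp [this]
        · have h3 : h j (x j) = 0 := image_eq_zero_of_notMem_tsupport hj
          rw [Finset.prod_eq_zero (Finset.mem_erase.2 ⟨hji, Finset.mem_univ j⟩)]
          · simp
          · simp [h3]
      rw [this, Real.zero_rpow (by linarith)]
  · classical
    set F : Fin n → ℝ → ℝ := Function.update (fun j y => |h j y| ^ q) i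
      (fun y => |deriv (h i) y| ^ q) with hF
    have e1 : ∀ x : EuclideanSpace ℝ (Fin n),
        (|deriv (h i) (x i)| * ∏ j ∈ Finset.univ.erase i, |h j (x j)|) ^ q = ∏ j, F j (x j) := by
      intro x
      rw [Real.mul_rpow (abs_nonneg _) (Finset.prod_nonneg fun _ _ => abs_nonneg _),
        ← Real.finsetProd_rpow _ _ (fun _ _ => abs_nonneg _),
        ← Finset.mul_prod_erase _ _ (Finset.mem_univ i)]
      congr 1
      · simp [hF]
      · refine Finset.prod_congr rfl fun j hj => ?_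
        rw [hF, Function.update_of_ne (Finset.ne_of_mem_erase hj)]
    simp only [e1]
    rw [SlabB_integral_prod, ← Finset.mul_prod_erase _ _ (Finset.mem_univ i)]
    congr 1
    · simp [hF]
    · refine Finset.prod_congr rfl fun j hj => ?_
      rw [hF, Function.update_of_ne (Finset.ne_of_mem_erase hj)]


/-- energy of a product function -/
theorem SlabB_energy {d : ℕ} {q : ℝ} (hq : 1 < q) {h : Fin (d + 1) → ℝ → ℝ}
    (h1 : ∀ i, ContDiff ℝ 1 (h i)) (h2 : ∀ i, HasCompactSupport (h i)) {t : ℝ} (ht : 0 < t)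
    (ht1 : t < 1) :
    ∫ x, ‖fderiv ℝ (fun x : EuclideanSpace ℝ (Fin (d + 1)) => ∏ i, h i (x i)) x‖ ^ q ≤
      (1 - t) ^ (1 - q) * ((∫ y, |deriv (h 0) y| ^ q) *
        ∏ j ∈ Finset.univ.erase 0, ∫ y, |h j y| ^ q) +
      t ^ (1 - q) * ((d : ℝ) ^ (q - 1) * ∑ i ∈ Finset.univ.erase 0,
        ((∫ y, |deriv (h i) y| ^ q) * ∏ j ∈ Finset.univ.erase i, ∫ y, |h j y| ^ q)) := by
  have hq0 : 0 ≤ q := by linarith
  set T : Fin (d + 1) → EuclideanSpace ℝ (Fin (d + 1)) → ℝ := fun i x =>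
    |deriv (h i) (x i)| * ∏ j ∈ Finset.univ.erase i, |h j (x j)| with hT
  have hT0 : ∀ i x, 0 ≤ T i x := fun i x =>
    mul_nonneg (abs_nonneg _) (Finset.prod_nonneg fun _ _ => abs_nonneg _)
  have hTi : ∀ i, Integrable (fun x => T i x ^ q) := fun i => (SlabB_T hq h1 h2 i).1
  have hpt : ∀ x, ‖fderiv ℝ (fun x : EuclideanSpace ℝ (Fin (d + 1)) => ∏ i, h i (x i)) x‖ ^ q ≤
      (1 - t) ^ (1 - q) * T 0 x ^ q + t ^ (1 - q) * ((d : ℝ) ^ (q - 1) *
        ∑ i ∈ Finset.univ.erase 0, T i x ^ q) := by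
    intro x
    have e1 : ‖fderiv ℝ (fun x : EuclideanSpace ℝ (Fin (d + 1)) => ∏ i, h i (x i)) x‖ ≤
        T 0 x + ∑ i ∈ Finset.univ.erase 0, T i x := by
      rw [Finset.add_sum_erase _ (fun i => T i x) (Finset.mem_univ 0)]
      exact SlabB_fderiv h1 x
    have h0 : 0 ≤ ∑ i ∈ Finset.univ.erase 0, T i x := Finset.sum_nonneg fun i _ => hT0 i x
    calc ‖fderiv ℝ (fun x : EuclideanSpace ℝ (Fin (d + 1)) => ∏ i, h i (x i)) x‖ ^ q
        ≤ (T 0 x + ∑ i ∈ Finset.univ.erase 0, T i x) ^ q :=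
          Real.rpow_le_rpow (norm_nonneg _) e1 hq0
      _ ≤ (1 - t) ^ (1 - q) * T 0 x ^ q +
          t ^ (1 - q) * (∑ i ∈ Finset.univ.erase 0, T i x) ^ q :=
          SlabB_convex hq ht ht1 (hT0 0 x) h0
      _ ≤ _ := by
          gcongr
          have h3 := Real.rpow_sum_le_const_mul_sum_rpow_of_nonneg
            (Finset.univ.erase (0 : Fin (d + 1))) (f := fun i => T i x) hq.le
            (fun i _ => hT0 i x)
          have h4 : (Finset.univ.erase (0 : Fin (d + 1))).card = d := by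
            rw [Finset.card_erase_of_mem (Finset.mem_univ _), Finset.card_univ, Fintype.card_fin]
            simp
          rwa [h4] at h3
  have hint : Integrable (fun x => (1 - t) ^ (1 - q) * T 0 x ^ q + t ^ (1 - q) *
      ((d : ℝ) ^ (q - 1) * ∑ i ∈ Finset.univ.erase 0, T i x ^ q)) := by
    refine ((hTi 0).const_mul _).add (((integrable_finsetSum _ fun i _ => hTi i).const_mul
      _).const_mul _)
  refine (integral_mono_of_nonneg (Eventually.of_forall fun x => by positivity) hint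
    (Eventually.of_forall hpt)).trans (le_of_eq ?_)
  rw [integral_add ((hTi 0).const_mul _) (((integrable_finsetSum _ fun i _ => hTi i).const_mul
      _).const_mul _), integral_const_mul, integral_const_mul, integral_const_mul,
    integral_finsetSum _ fun i _ => hTi i, (SlabB_T hq h1 h2 0).2]
  congr 3
  exact Finset.sum_congr rfl fun i _ => (SlabB_T hq h1 h2 i).2

/-- scaling of the one-dimensional integrals -/
theorem SlabB_scale {q : ℝ} (χ : ℝ → ℝ) {R : ℝ} (hR : 0 < R) :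
    (∫ y, |χ (y / R)| ^ q) = R * ∫ y, |χ y| ^ q ∧
    (∫ y, |deriv (fun y => χ (y / R)) y| ^ q) = R ^ (1 - q) * ∫ y, |deriv χ y| ^ q := by
  constructor
  · have := Measure.integral_comp_div (fun y => |χ y| ^ q) R
    rw [this, smul_eq_mul, abs_of_pos hR]
  · have e1 : ∀ y, deriv (fun y => χ (y / R)) y = R⁻¹ * deriv χ (y / R) := by
      intro y
      have := deriv_comp_mul_left R⁻¹ χ y
      simp only [smul_eq_mul] at this
      simp only [div_eq_inv_mul]
      exact this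
    simp only [e1, abs_mul, abs_of_pos (inv_pos.2 hR)]
    simp only [Real.mul_rpow (inv_pos.2 hR).le (abs_nonneg _)]
    rw [integral_const_mul, Measure.integral_comp_div (fun y => |deriv χ y| ^ q) R, smul_eq_mul,
      abs_of_pos hR, Real.inv_rpow hR.le, Real.rpow_sub hR, Real.rpow_one]
    ring

theorem SlabB_pos {q : ℝ} (hq : 1 < q) {Ω : Set ℝ} {f : ℝ → ℝ} (hf : IsTest Ω f) :
    0 < ∫ y, |f y| ^ q := by
  obtain ⟨h1, h2, h3, x, hx⟩ := hf
  have hc : Continuous fun y => |f y| ^ q :=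
    h1.continuous.abs.rpow_const fun _ => Or.inr (by linarith)
  refine hc.integral_pos_of_hasCompactSupport_nonneg_nonzero ?_ (fun y => by positivity)
    (x := x) ?_
  · refine HasCompactSupport.intro h2 fun y hy => ?_
    rw [image_eq_zero_of_notMem_tsupport hy, abs_zero, Real.zero_rpow (by linarith)]
  · exact (Real.rpow_pos_of_pos (abs_pos.2 hx) q).ne'

/-- product test functions -/
theorem SlabB_test {d : ℕ} {R : ℝ} (hR : 0 < R) {f χ : ℝ → ℝ} (hf : IsTest (Ioo 0 1) f)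
    (hχ : IsTest (Ioo 0 1) χ) {h : Fin (d + 1) → ℝ → ℝ}
    (hh : h = fun i => if i = 0 then f else fun y => χ (y / R)) :
    (∀ i, ContDiff ℝ 1 (h i)) ∧ (∀ i, HasCompactSupport (h i)) ∧
    ContDiff ℝ 1 (fun x : EuclideanSpace ℝ (Fin (d + 1)) => ∏ i, h i (x i)) ∧
    HasCompactSupport (fun x : EuclideanSpace ℝ (Fin (d + 1)) => ∏ i, h i (x i)) ∧
    tsupport (fun x : EuclideanSpace ℝ (Fin (d + 1)) => ∏ i, h i (x i)) ⊆ Box d R := by
  have h1 : ∀ i, ContDiff ℝ 1 (h i) := by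
    intro i
    rw [hh]
    by_cases hi : i = 0
    · simp only [hi, if_true]; exact hf.1
    · simp only [hi, if_false]; exact hχ.1.comp (contDiff_id.div_const R)
  have h2 : ∀ i, HasCompactSupport (h i) ∧ tsupport (h i) ⊆ Ioo 0 (if i = 0 then 1 else R) := by
    intro i
    rw [hh]
    by_cases hi : i = 0
    · simp only [hi, if_true]; exact ⟨hf.2.1, hf.2.2.1⟩
    · simp only [hi, if_false]
      have hK : IsCompact ((fun y : ℝ => y * R) '' tsupport χ) :=
        hχ.2.1.isCompact.image (continuous_id.mul continuous_const)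
      have hsub : Function.support (fun y => χ (y / R)) ⊆ (fun y : ℝ => y * R) '' tsupport χ := by
        intro y hy
        refine ⟨y / R, subset_tsupport _ hy, ?_⟩
        field_simp
      have hts : tsupport (fun y => χ (y / R)) ⊆ (fun y : ℝ => y * R) '' tsupport χ :=
        closure_minimal hsub hK.isClosed
      refine ⟨HasCompactSupport.of_support_subset_isCompact hK hsub, hts.trans ?_⟩
      rintro _ ⟨y, hy, rfl⟩
      have := hχ.2.2.1 hy
      exact ⟨mul_pos this.1 hR, by nlinarith [this.2]⟩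
  have hc : ∀ j, ContDiff ℝ 1 fun x : EuclideanSpace ℝ (Fin (d + 1)) => x j := fun j =>
    (EuclideanSpace.proj j : EuclideanSpace ℝ (Fin (d + 1)) →L[ℝ] ℝ).contDiff
  have hK : IsCompact {x : EuclideanSpace ℝ (Fin (d + 1)) | ∀ i, x i ∈ tsupport (h i)} :=
    SlabB_compact _ fun i => (h2 i).1
  have hsub : Function.support (fun x : EuclideanSpace ℝ (Fin (d + 1)) => ∏ i, h i (x i)) ⊆
      {x : EuclideanSpace ℝ (Fin (d + 1)) | ∀ i, x i ∈ tsupport (h i)} := by
    intro x hx i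
    rw [Function.mem_support, Finset.prod_ne_zero_iff] at hx
    exact subset_tsupport _ (hx i (Finset.mem_univ i))
  refine ⟨h1, fun i => (h2 i).1, contDiff_prod fun i _ => (h1 i).comp (hc i),
    HasCompactSupport.of_support_subset_isCompact hK hsub,
    (closure_minimal hsub hK.isClosed).trans fun x hx i => ?_⟩
  exact (h2 i).2 (hx i)

theorem box_upper {q : ℝ} (hq : 1 < q) (d : ℕ) {ε : ℝ} (hε : 0 < ε) :
    ∃ R₀ > 0, ∀ R ≥ R₀, lam q (Box d R) ≤ lam q (Ioo (0:ℝ) 1) + ε := by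
  have hne : (Ioo (0 : ℝ) 1).Nonempty := ⟨1 / 2, by norm_num, by norm_num⟩
  obtain ⟨f, hf, hfE⟩ := exists_test_near hq isOpen_Ioo hne (div_pos hε (by norm_num : (0:ℝ) < 3))
  obtain ⟨χ, hχ⟩ := exists_isTest isOpen_Ioo hne
  set l := lam q (Ioo (0 : ℝ) 1) with hl
  have hl0 : 0 ≤ l := lam_nonneg _ _
  set B := ∫ y, |f y| ^ q with hB
  set C := ∫ y, |χ y| ^ q with hC
  set D := ∫ y, |deriv χ y| ^ q with hD
  have hB0 : 0 < B := SlabB_pos hq hf
  have hC0 : 0 < C := SlabB_pos hq hχ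
  have hD0 : 0 ≤ D := integral_nonneg fun y => by positivity
  -- choice of `t`
  obtain ⟨t, ht, ht1, htl⟩ : ∃ t : ℝ, 0 < t ∧ t < 1 ∧
      (1 - t) ^ (1 - q) * (l + ε / 3) ≤ l + 2 * (ε / 3) := by
    have hcont : Tendsto (fun t : ℝ => (1 - t) ^ (1 - q) * (l + ε / 3)) (𝓝[>] 0)
        (𝓝 ((1 - 0) ^ (1 - q) * (l + ε / 3))) := by
      refine Tendsto.mono_left ?_ nhdsWithin_le_nhds
      refine (ContinuousAt.tendsto ?_)
      refine ContinuousAt.mul (ContinuousAt.rpow_const (by fun_prop) (Or.inl (by norm_num)))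
        continuousAt_const
    rw [sub_zero, Real.one_rpow, one_mul] at hcont
    have h3 : l + ε / 3 < l + 2 * (ε / 3) := by linarith
    have h4 := hcont.eventually (eventually_le_nhds h3)
    have h5 : ∀ᶠ t : ℝ in 𝓝[>] 0, t ∈ Ioo (0 : ℝ) 1 := Ioo_mem_nhdsGT one_pos
    obtain ⟨t, ht, ht'⟩ := (h4.and h5).exists
    exact ⟨t, ht'.1, ht'.2, ht⟩
  set M : ℝ := t ^ (1 - q) * ((d : ℝ) ^ (q - 1) * (d * (D / C))) with hM
  have hM0 : 0 ≤ M := by positivity
  obtain ⟨R₀, hR₀, hR₀'⟩ : ∃ R₀ > 0, ∀ R ≥ R₀, M * R ^ (-q) ≤ ε / 3 := by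
    have h3 : Tendsto (fun R : ℝ => M * R ^ (-q)) atTop (𝓝 (M * 0)) :=
      (tendsto_rpow_neg_atTop (by linarith : 0 < q)).const_mul M
    rw [mul_zero] at h3
    obtain ⟨R₀, h4⟩ := eventually_atTop.1 (h3.eventually (eventually_le_nhds
      (div_pos hε (by norm_num : (0:ℝ) < 3))))
    exact ⟨max R₀ 1, by positivity, fun R hR => h4 R ((le_max_left _ _).trans hR)⟩
  refine ⟨R₀, hR₀, fun R hR => ?_⟩
  have hR0 : 0 < R := lt_of_lt_of_le hR₀ hR
  set h : Fin (d + 1) → ℝ → ℝ := fun i => if i = 0 then f else fun y => χ (y / R) with hh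
  obtain ⟨h1, h2, h3, h4, h5⟩ := SlabB_test hR0 hf hχ hh
  have hen := SlabB_energy hq h1 h2 ht ht1
  have hlow := lam_mul_le hq h3 h4 h5
  obtain ⟨hs1, hs2⟩ := SlabB_scale (q := q) χ hR0
  have hI0 : ∫ y, |h 0 y| ^ q = B := by simp [hh, hB]
  have hI : ∀ i, i ≠ 0 → ∫ y, |h i y| ^ q = R * C := by
    intro i hi
    simp only [hh, hi, if_false]
    exact hs1
  have hJ0 : ∫ y, |deriv (h 0) y| ^ q ≤ (l + ε / 3) * B := by
    have e1 : ∀ y, |deriv (h 0) y| ^ q = ‖fderiv ℝ f y‖ ^ q := by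
      intro y
      rw [← norm_deriv_eq_norm_fderiv, Real.norm_eq_abs]
      simp [hh]
    simp only [e1]
    exact hfE
  have hJ : ∀ i, i ≠ 0 → ∫ y, |deriv (h i) y| ^ q = R ^ (1 - q) * D := by
    intro i hi
    simp only [hh, hi, if_false]
    exact hs2
  have hUp : ∫ x : EuclideanSpace ℝ (Fin (d + 1)), |∏ i, h i (x i)| ^ q =
      ∏ i, ∫ y, |h i y| ^ q := by
    rw [← SlabB_integral_prod]
    congr 1
    funext x
    rw [Finset.abs_prod, ← Real.finsetProd_rpow _ _ (fun _ _ => abs_nonneg _)]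
  set P := ∏ i, ∫ y, |h i y| ^ q with hP
  have hIpos : ∀ i, 0 < ∫ y, |h i y| ^ q := by
    intro i
    by_cases hi : i = 0
    · rw [hi, hI0]; exact hB0
    · rw [hI i hi]; positivity
  have hP0 : 0 < P := Finset.prod_pos fun i _ => hIpos i
  have hPe : ∀ i, ∏ j ∈ Finset.univ.erase i, ∫ y, |h j y| ^ q = P / ∫ y, |h i y| ^ q := by
    intro i
    rw [eq_div_iff (hIpos i).ne', mul_comm, hP, ← Finset.mul_prod_erase _ _ (Finset.mem_univ i)]
  simp only [hPe] at hen
  rw [hUp] at hlow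
  have hsum : ∑ i ∈ Finset.univ.erase (0 : Fin (d + 1)),
      ((∫ y, |deriv (h i) y| ^ q) * (P / ∫ y, |h i y| ^ q)) = d * (D / C) * R ^ (-q) * P := by
    have e1 : ∀ i ∈ Finset.univ.erase (0 : Fin (d + 1)),
        ((∫ y, |deriv (h i) y| ^ q) * (P / ∫ y, |h i y| ^ q)) = (D / C) * R ^ (-q) * P := by
      intro i hi
      have hi0 := Finset.ne_of_mem_erase hi
      rw [hI i hi0, hJ i hi0, Real.rpow_sub hR0, Real.rpow_one, Real.rpow_neg hR0.le]
      field_simp
    rw [Finset.sum_congr rfl e1, Finset.sum_const, Finset.card_erase_of_mem (Finset.mem_univ _),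
      Finset.card_univ, Fintype.card_fin, nsmul_eq_mul]
    simp only [Nat.add_sub_cancel]
    ring
  rw [hsum, hI0] at hen
  have hfin : lam q (Box d R) * P ≤ (l + ε) * P := by
    refine hlow.trans (hen.trans ?_)
    have e1 : (1 - t) ^ (1 - q) * ((∫ y, |deriv (h 0) y| ^ q) * (P / B)) ≤
        (l + 2 * (ε / 3)) * P := by
      calc (1 - t) ^ (1 - q) * ((∫ y, |deriv (h 0) y| ^ q) * (P / B))
          ≤ (1 - t) ^ (1 - q) * ((l + ε / 3) * B * (P / B)) := by
            have : 0 ≤ (1 - t) ^ (1 - q) := Real.rpow_nonneg (by linarith) _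
            gcongr
        _ = (1 - t) ^ (1 - q) * (l + ε / 3) * P := by field_simp
        _ ≤ _ := mul_le_mul_of_nonneg_right htl hP0.le
    have e2 : t ^ (1 - q) * ((d : ℝ) ^ (q - 1) * (d * (D / C) * R ^ (-q) * P)) =
        M * R ^ (-q) * P := by rw [hM]; ring
    rw [e2]
    have e3 : M * R ^ (-q) * P ≤ ε / 3 * P := mul_le_mul_of_nonneg_right (hR₀' R hR) hP0.le
    calc _ ≤ (l + 2 * (ε / 3)) * P + ε / 3 * P := add_le_add e1 e3
      _ = (l + ε) * P := by ring
  exact le_of_mul_le_mul_right hfin hP0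

theorem box_basic (d : ℕ) {R : ℝ} (hR : 0 < R) : IsOpen (Box d R) ∧ Convex ℝ (Box d R) ∧
    (Box d R).Nonempty ∧ Bornology.IsBounded (Box d R) := by
  have hc : ∀ j, Continuous fun x : EuclideanSpace ℝ (Fin (d + 1)) => x j := fun j =>
    (EuclideanSpace.proj j : EuclideanSpace ℝ (Fin (d + 1)) →L[ℝ] ℝ).continuous
  refine ⟨?_, ?_, ?_, ?_⟩
  · have : Box d R = ⋂ i, {x : EuclideanSpace ℝ (Fin (d + 1)) | 0 < x i} ∩
        {x | x i < if i = 0 then 1 else R} := by
      ext x; simp [Box]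
    rw [this]
    exact isOpen_iInter_of_finite fun i => (isOpen_lt continuous_const (hc i)).inter
      (isOpen_lt (hc i) continuous_const)
  · intro x hx y hy a b ha hb hab i
    have h1 := hx i
    have h2 := hy i
    have e1 : (a • x + b • y) i = a * x i + b * y i := by simp
    rw [e1]
    have hmem : a • x i + b • y i ∈ Ioo (0 : ℝ) (if i = 0 then 1 else R) :=
      (convex_Ioo 0 _) (mem_Ioo.2 h1) (mem_Ioo.2 h2) ha hb hab
    exact hmem
  · refine ⟨WithLp.toLp 2 fun i => (if i = 0 then 1 else R) / 2, fun i => ?_⟩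
    have : 0 < (if i = 0 then (1 : ℝ) else R) := by split_ifs <;> [exact one_pos; exact hR]
    simp only
    constructor <;> linarith
  · have hK : IsCompact {x : EuclideanSpace ℝ (Fin (d + 1)) | ∀ i, x i ∈ Icc (0 : ℝ)
        (if i = 0 then 1 else R)} := SlabB_compact _ fun i => isCompact_Icc
    exact hK.isBounded.subset fun x hx i => ⟨(hx i).1.le, (hx i).2.le⟩

end PLap
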