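import Pool.Agent.Lib.MP_a627f3_an.Defs

open MeasureTheory Set Filter Topology Metric
open scoped RealInnerProductSpace ENNReal NNReal

namespace PLap

/-- slopes of `y ↦ y ^ s` at `x > 0` are bounded below on `[0, R]` -/
private theorem slope_bound {s x : ℝ} (hs : 0 < s) (hx : 0 < x) (R : ℝ) :
    ∃ c > 0, ∀ y ∈ Icc 0 R, c * (y - x) ^ 2 ≤ (y ^ s - x ^ s) * (y - x) := by
  rcases lt_or_ge R 0 with hR | hR
  · exact ⟨1, one_pos, fun y hy => absurd (hy.1.trans hy.2) (not_le.mpr hR)⟩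
  have hcont : ContinuousOn (dslope (fun y : ℝ => y ^ s) x) (Icc 0 R) := by
    intro y hy
    apply ContinuousAt.continuousWithinAt
    rcases eq_or_ne y x with rfl | hne
    · exact continuousAt_dslope_same.2 (Real.differentiableAt_rpow_const_of_ne s hx.ne')
    · rw [continuousAt_dslope_of_ne hne]
      exact Real.continuousAt_rpow_const _ _ (Or.inr hs.le)
  obtain ⟨y₀, hy₀, hmin⟩ := isCompact_Icc.exists_isMinOn (nonempty_Icc.2 hR) hcont
  have hpos : ∀ y ∈ Icc 0 R, 0 < dslope (fun y : ℝ => y ^ s) x y := by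
    intro y hy
    rcases eq_or_ne y x with rfl | hne
    · rw [dslope_same, (Real.hasDerivAt_rpow_const (Or.inl hx.ne')).deriv]
      positivity
    · rw [dslope_of_ne _ hne, slope_def_field]
      rcases lt_or_gt_of_ne hne with h | h
      · have h1 : y ^ s < x ^ s := Real.rpow_lt_rpow hy.1 h hs
        exact div_pos_of_neg_of_neg (by linarith) (by linarith)
      · have h1 : x ^ s < y ^ s := Real.rpow_lt_rpow hx.le h hs
        exact div_pos (by linarith) (by linarith)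
  refine ⟨dslope (fun y : ℝ => y ^ s) x y₀, hpos y₀ hy₀, fun y hy => ?_⟩
  have h1 : dslope (fun y : ℝ => y ^ s) x y₀ ≤ dslope (fun y : ℝ => y ^ s) x y := hmin hy
  have h2 : (y ^ s - x ^ s) = (y - x) * dslope (fun y : ℝ => y ^ s) x y := by
    have := sub_smul_dslope (fun y : ℝ => y ^ s) x y
    simpa [smul_eq_mul] using this.symm
  rw [h2]
  nlinarith [mul_le_mul_of_nonneg_right h1 (sq_nonneg (y - x))]

/-- quantitative strict convexity of `y ↦ y ^ p` at `x > 0` on `[0, R]` -/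
private theorem scalar_strong {p x : ℝ} (hp : 1 < p) (hx : 0 < x) (R : ℝ) :
    ∃ c > 0, ∀ y ∈ Icc 0 R,
      c * (y - x) ^ 2 ≤ y ^ p - x ^ p - p * x ^ (p - 1) * (y - x) := by
  obtain ⟨c', hc', h'⟩ := slope_bound (s := p - 1) (by linarith) hx (max R x)
  set g : ℝ → ℝ := fun y => y ^ p - x ^ p - p * x ^ (p - 1) * (y - x) - p * c' / 2 * (y - x) ^ 2
    with hg
  have hder : ∀ y, HasDerivAt g (p * y ^ (p - 1) - p * x ^ (p - 1) - p * c' * (y - x)) y := by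
    intro y
    have h1 := (Real.hasDerivAt_rpow_const (x := y) (p := p) (Or.inr hp.le)).sub_const (x ^ p)
    have h2 := ((hasDerivAt_id y).sub_const x).const_mul (p * x ^ (p - 1))
    have h3 := (((hasDerivAt_id y).sub_const x).pow 2).const_mul (p * c' / 2)
    have h4 := (h1.sub h2).sub h3
    refine h4.congr_deriv ?_
    simp only [id]
    ring
  have hgx : g x = 0 := by simp [hg]
  have hcg : Continuous g := continuous_iff_continuousAt.2 fun y => (hder y).continuousAt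
  refine ⟨p * c' / 2, by positivity, fun y hy => ?_⟩
  have key : 0 ≤ g y := by
    rcases le_total x y with hxy | hxy
    · have hm : MonotoneOn g (Icc x (max R x)) := by
        refine monotoneOn_of_deriv_nonneg (convex_Icc _ _) hcg.continuousOn
          (fun z _ => (hder z).differentiableAt.differentiableWithinAt) ?_
        intro z hz
        rw [interior_Icc] at hz
        rw [(hder z).deriv]
        have hz1 : 0 < z - x := by linarith [hz.1]
        have h5 := h' z ⟨by linarith [hz.1], hz.2.le⟩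
        have h6 : c' * (z - x) ≤ z ^ (p - 1) - x ^ (p - 1) := by
          have h7 : (c' * (z - x)) * (z - x) ≤ (z ^ (p - 1) - x ^ (p - 1)) * (z - x) := by
            nlinarith [h5]
          exact le_of_mul_le_mul_right h7 hz1
        nlinarith [mul_le_mul_of_nonneg_left h6 (by linarith : (0:ℝ) ≤ p)]
      rw [← hgx]
      exact hm ⟨le_rfl, le_max_right _ _⟩ ⟨hxy, hy.2.trans (le_max_left _ _)⟩ hxy
    · have hm : AntitoneOn g (Icc 0 x) := by
        refine antitoneOn_of_deriv_nonpos (convex_Icc _ _) hcg.continuousOn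
          (fun z _ => (hder z).differentiableAt.differentiableWithinAt) ?_
        intro z hz
        rw [interior_Icc] at hz
        rw [(hder z).deriv]
        have hz1 : 0 < x - z := by linarith [hz.2]
        have h5 := h' z ⟨hz.1.le, hz.2.le.trans (le_max_right _ _)⟩
        have h6 : c' * (x - z) ≤ x ^ (p - 1) - z ^ (p - 1) := by
          have h7 : (c' * (x - z)) * (x - z) ≤ (x ^ (p - 1) - z ^ (p - 1)) * (x - z) := by
            nlinarith [h5]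
          exact le_of_mul_le_mul_right h7 hz1
        nlinarith [mul_le_mul_of_nonneg_left h6 (by linarith : (0:ℝ) ≤ p)]
      rw [← hgx]
      exact hm ⟨hy.1, hxy⟩ ⟨hx.le, le_rfl⟩ hxy
  simp only [hg] at key
  linarith

variable {E : Type*} [NormedAddCommGroup E] [InnerProductSpace ℝ E] [FiniteDimensional ℝ E]
  [CompleteSpace E] [MeasurableSpace E] [BorelSpace E]

theorem norm_aP {p : ℝ} (hp : 1 < p) (ξ : E) : ‖aP p ξ‖ = ‖ξ‖ ^ (p - 1) := by
  rw [aP, norm_smul, Real.norm_of_nonneg (Real.rpow_nonneg (norm_nonneg _) _)]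
  rcases eq_or_ne ξ 0 with rfl | hξ
  · rw [norm_zero, mul_zero, Real.zero_rpow (by linarith)]
  · have h : 0 < ‖ξ‖ := norm_pos_iff.2 hξ
    have e : p - 1 = (p - 2) + 1 := by ring
    rw [e, Real.rpow_add_one h.ne']

theorem inner_aP_self {p : ℝ} (hp : 1 < p) (ξ : E) : ⟪aP p ξ, ξ⟫ = ‖ξ‖ ^ p := by
  rw [aP, real_inner_smul_left, real_inner_self_eq_norm_sq]
  rcases eq_or_ne ξ 0 with rfl | hξ
  · rw [norm_zero, Real.zero_rpow (by linarith : p ≠ 0)]
    ring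
  · have h : 0 < ‖ξ‖ := norm_pos_iff.2 hξ
    rw [← Real.rpow_natCast, ← Real.rpow_add h]
    congr 1
    push_cast
    ring

theorem continuous_aP {p : ℝ} (hp : 1 < p) : Continuous (aP p : E → E) := by
  rw [continuous_iff_continuousAt]
  intro ξ
  rcases eq_or_ne ξ 0 with rfl | hξ
  · rw [ContinuousAt]
    have h0 : aP p (0 : E) = 0 := by simp [aP]
    rw [h0, tendsto_zero_iff_norm_tendsto_zero]
    simp_rw [norm_aP hp]
    have h1 : Tendsto (fun e : E => ‖e‖ ^ (p - 1)) (𝓝 0) (𝓝 (‖(0 : E)‖ ^ (p - 1))) :=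
      (continuous_norm.continuousAt).rpow_const (Or.inr (by linarith))
    rwa [norm_zero, Real.zero_rpow (by linarith)] at h1
  · exact ((continuous_norm.continuousAt).rpow_const (Or.inl (norm_ne_zero_iff.2 hξ))).smul
      continuousAt_id

private theorem young_scalar {p x y : ℝ} (hp : 1 < p) (hx : 0 ≤ x) (hy : 0 ≤ y) :
    p * (x ^ (p - 1) * y) ≤ (p - 1) * x ^ p + y ^ p := by
  have hpq : p.HolderConjugate (p / (p - 1)) := by
    have := Real.HolderConjugate.conjExponent hp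
    simpa [Real.conjExponent] using this
  have h := Real.young_inequality_of_nonneg hy (Real.rpow_nonneg hx (p - 1)) hpq
  have e : (x ^ (p - 1)) ^ (p / (p - 1)) = x ^ p := by
    rw [← Real.rpow_mul hx]
    congr 1
    field_simp [show p - 1 ≠ 0 by linarith]
  rw [e] at h
  have hp0 : 0 < p := by linarith
  have hp1 : 0 < p - 1 := by linarith
  have h2 := mul_le_mul_of_nonneg_left h hp0.le
  have e2 : p * (y ^ p / p + x ^ p / (p / (p - 1))) = (p - 1) * x ^ p + y ^ p := by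
    field_simp
    ring
  rw [e2] at h2
  linarith [h2, mul_comm y (x ^ (p - 1))]

theorem aP_convex {p : ℝ} (hp : 1 < p) (ξ η : E) :
    ‖ξ‖ ^ p + p * ⟪aP p ξ, η - ξ⟫ ≤ ‖η‖ ^ p := by
  have h1 : ⟪aP p ξ, η⟫ ≤ ‖ξ‖ ^ (p - 1) * ‖η‖ := by
    rw [← norm_aP hp ξ]
    exact real_inner_le_norm _ _
  have h2 := young_scalar hp (norm_nonneg ξ) (norm_nonneg η)
  rw [inner_sub_right, inner_aP_self hp]
  nlinarith [mul_le_mul_of_nonneg_left h1 (by linarith : (0:ℝ) ≤ p)]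

theorem aP_strong_convex {p : ℝ} (hp : 1 < p) {ζ : E} (hζ : ζ ≠ 0) (R : ℝ) :
    ∃ c > 0, ∀ ξ : E, ‖ξ‖ ≤ R → ‖ζ‖ ^ p + p * ⟪aP p ζ, ξ - ζ⟫ + c * ‖ξ - ζ‖ ^ 2 ≤ ‖ξ‖ ^ p := by
  have hx : 0 < ‖ζ‖ := norm_pos_iff.2 hζ
  obtain ⟨c, hc, h⟩ := scalar_strong hp hx R
  have hk : 0 < ‖ζ‖ ^ (p - 2) := Real.rpow_pos_of_pos hx _
  refine ⟨min c (p * ‖ζ‖ ^ (p - 2) / 2), lt_min hc (by positivity), fun ξ hξ => ?_⟩
  have h1 := h ‖ξ‖ ⟨norm_nonneg _, hξ⟩
  have h2 : ⟪ζ, ξ⟫ ≤ ‖ζ‖ * ‖ξ‖ := real_inner_le_norm _ _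
  have h3 : ‖ξ - ζ‖ ^ 2 = (‖ξ‖ - ‖ζ‖) ^ 2 + 2 * (‖ζ‖ * ‖ξ‖ - ⟪ζ, ξ⟫) := by
    rw [norm_sub_sq_real, real_inner_comm]
    ring
  have e1 : ‖ζ‖ ^ (p - 1) = ‖ζ‖ ^ (p - 2) * ‖ζ‖ := by
    have e : p - 1 = (p - 2) + 1 := by ring
    rw [e, Real.rpow_add_one hx.ne']
  have e2 : ‖ζ‖ ^ p = ‖ζ‖ ^ (p - 2) * ‖ζ‖ ^ 2 := by
    rw [← Real.rpow_natCast, ← Real.rpow_add hx]
    congr 1
    push_cast
    ring
  have e3 : ⟪aP p ζ, ξ - ζ⟫ = ‖ζ‖ ^ (p - 2) * (⟪ζ, ξ⟫ - ‖ζ‖ ^ 2) := by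
    rw [aP, real_inner_smul_left, inner_sub_right, real_inner_self_eq_norm_sq]
  rw [e3, h3]
  have h4 : min c (p * ‖ζ‖ ^ (p - 2) / 2) * (‖ξ‖ - ‖ζ‖) ^ 2 ≤ c * (‖ξ‖ - ‖ζ‖) ^ 2 :=
    mul_le_mul_of_nonneg_right (min_le_left _ _) (sq_nonneg _)
  have h5 : min c (p * ‖ζ‖ ^ (p - 2) / 2) * (2 * (‖ζ‖ * ‖ξ‖ - ⟪ζ, ξ⟫)) ≤
      p * ‖ζ‖ ^ (p - 2) / 2 * (2 * (‖ζ‖ * ‖ξ‖ - ⟪ζ, ξ⟫)) :=
    mul_le_mul_of_nonneg_right (min_le_right _ _) (by linarith)
  rw [e1] at h1
  rw [e2] at h1 ⊢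
  nlinarith [h1, h4, h5]

theorem aP_mono_strict {p : ℝ} (hp : 1 < p) {ξ η : E} (h : ξ ≠ η) :
    0 < ⟪aP p ξ - aP p η, ξ - η⟫ := by
  have main : ∀ ξ η : E, ξ ≠ η → ξ ≠ 0 → 0 < ⟪aP p ξ - aP p η, ξ - η⟫ := by
    intro ξ η h hξ
    obtain ⟨c, hc, h1⟩ := aP_strong_convex hp hξ ‖η‖
    have h2 := h1 η le_rfl
    have h3 := aP_convex hp η ξ
    have h4 : 0 < ‖η - ξ‖ := norm_pos_iff.2 (sub_ne_zero.2 h.symm)
    have h5 : 0 < c * ‖η - ξ‖ ^ 2 := by positivity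
    have e1 : ⟪aP p ξ, η - ξ⟫ = - ⟪aP p ξ, ξ - η⟫ := by
      rw [← inner_neg_right]; congr 1; abel
    rw [e1] at h2
    rw [inner_sub_left]
    have h6 : 0 < p * (⟪aP p ξ, ξ - η⟫ - ⟪aP p η, ξ - η⟫) := by nlinarith
    exact (mul_pos_iff_of_pos_left (by linarith)).1 h6
  rcases eq_or_ne ξ 0 with hξ | hξ
  · have hη : η ≠ 0 := by rw [← hξ]; exact h.symm
    have h1 := main η ξ h.symm hη
    have e : ⟪aP p ξ - aP p η, ξ - η⟫ = ⟪aP p η - aP p ξ, η - ξ⟫ := by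
      rw [← inner_neg_neg]; congr 1 <;> abel
    rw [e]; exact h1
  · exact main ξ η h hξ

end PLap
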