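import Pool.Agent.Lib.MP_a627f3_an.Poly
import Pool.Agent.Lib.MP_a627f3_an.VecA

open MeasureTheory Set Filter Topology Metric
open scoped RealInnerProductSpace ENNReal NNReal

namespace PLap

variable {E : Type*} [NormedAddCommGroup E] [InnerProductSpace ℝ E] [FiniteDimensional ℝ E]
  [CompleteSpace E] [MeasurableSpace E] [BorelSpace E]

variable {ι : Type*} [Fintype ι] {n : ι → E} {c : ι → ℝ}

section basic

omit [FiniteDimensional ℝ E] [CompleteSpace E] [MeasurableSpace E] [BorelSpace E]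

private theorem polyB_lin (m : E) (a : ℝ) (y : E) :
    HasFDerivAt (fun z : E => ⟪m, z⟫ + a) (innerSL ℝ m) y :=
  (innerSL ℝ m).hasFDerivAt.add_const a

private theorem polyB_isOpen : IsOpen (Pol n c) := by
  have : Pol n c = ⋂ i, {x | 0 < ⟪n i, x⟫ + c i} := by
    ext x; simp [Pol]
  rw [this]
  refine isOpen_iInter_of_finite fun i => ?_
  exact isOpen_lt continuous_const ((continuous_const.inner continuous_id).add continuous_const)

/-- First derivative of a function of a linear form. -/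
private theorem polyB_d1 {f : ℝ → ℝ} {f' : ℝ} {m : E} {a : ℝ} {y : E}
    (h : HasDerivAt f f' (⟪m, y⟫ + a)) :
    HasFDerivAt (fun z : E => f (⟪m, z⟫ + a)) (f' • innerSL ℝ m) y :=
  h.comp_hasFDerivAt y (polyB_lin m a y)

/-- Derivative of the derivative. -/
private theorem polyB_d2 {f : ℝ → ℝ} {f' : ℝ} {m : E} {a : ℝ} {y : E}
    (h : HasDerivAt f f' (⟪m, y⟫ + a)) :
    HasFDerivAt (fun z : E => f (⟪m, z⟫ + a) • innerSL ℝ m)
      ((f' • innerSL ℝ m).smulRight (innerSL ℝ m)) y :=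
  (polyB_d1 h).smul_const (innerSL ℝ m)

private theorem polyB_inv {y : E} (hy : y ∈ Pol n c) (i : ι) :
    HasDerivAt (fun s : ℝ => s⁻¹) (-((⟪n i, y⟫ + c i) ^ 2)⁻¹) (⟪n i, y⟫ + c i) :=
  hasDerivAt_inv (hy i).ne'

private theorem polyB_inv2 {y : E} (hy : y ∈ Pol n c) (i : ι) :
    HasDerivAt (fun s : ℝ => -(s ^ 2)⁻¹) (2 * ((⟪n i, y⟫ + c i)⁻¹) ^ 3) (⟪n i, y⟫ + c i) := by
  have hl : (⟪n i, y⟫ + c i) ≠ 0 := (hy i).ne'
  have h1 := ((hasDerivAt_pow 2 (⟪n i, y⟫ + c i)).inv (pow_ne_zero 2 hl)).neg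
  refine h1.congr_deriv ?_
  field_simp
  norm_num
  ring

private theorem polyB_fderiv (T : ℝ) {y : E} (hy : y ∈ Pol n c) :
    HasFDerivAt (PsiB n c T) (∑ i, (-((⟪n i, y⟫ + c i) ^ 2)⁻¹) • innerSL ℝ (n i)) y := by
  unfold PsiB
  exact (HasFDerivAt.fun_sum fun i _ => polyB_d1 (polyB_inv hy i)).const_add T

private theorem polyB_Hs (T : ℝ) {x : E} (hx : x ∈ Pol n c) (b : E) :
    Hs (PsiB n c T) x b = ∑ i, 2 * ((⟪n i, x⟫ + c i)⁻¹) ^ 3 * ⟪n i, b⟫ ^ 2 := by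
  have h1 : fderiv ℝ (PsiB n c T) =ᶠ[𝓝 x]
      fun y => ∑ i, (-((⟪n i, y⟫ + c i) ^ 2)⁻¹) • innerSL ℝ (n i) := by
    filter_upwards [polyB_isOpen.mem_nhds hx] with y hy
    exact (polyB_fderiv T hy).fderiv
  have h2 : HasFDerivAt (fun y : E => ∑ i, (-((⟪n i, y⟫ + c i) ^ 2)⁻¹) • innerSL ℝ (n i))
      (∑ i, ((2 * ((⟪n i, x⟫ + c i)⁻¹) ^ 3) • innerSL ℝ (n i)).smulRight (innerSL ℝ (n i))) x :=
    HasFDerivAt.fun_sum fun i _ => polyB_d2 (polyB_inv2 hx i)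
  unfold Hs
  rw [h1.fderiv_eq, h2.fderiv]
  simp only [ContinuousLinearMap.sum_apply, ContinuousLinearMap.smulRight_apply,
    ContinuousLinearMap.smul_apply, innerSL_apply_apply, smul_eq_mul]
  refine Finset.sum_congr rfl fun i _ => ?_
  ring

end basic

theorem psiB_sub (hn : ∀ i, ‖n i‖ = 1) (hb : Bornology.IsBounded (Pol n c))
    (hne : (Pol n c).Nonempty) {p δ ρ : ℝ} (hp : 1 < p) (hδ : 0 < δ) (hρ : 0 < ρ) (lam : ℝ) :
    ∃ T₀ : ℝ, ∀ T ≥ T₀, ∀ x ∈ Pol n c, ρ ≤ ‖gradient (PsiB n c T) x‖ →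
      ∀ b μ, Adapted p (gradient (PsiB n c T) x) b μ →
        ∑ i, μ i * Hs (PsiB n c T) x (b i) <
          lam + δ * PsiB n c T x + (p - 1) * ‖gradient (PsiB n c T) x‖ ^ p := by
  classical
  obtain ⟨x0, hx0⟩ := hne
  -- constants
  obtain ⟨c0, hc0, hc0l⟩ : ∃ c0 : ℝ, 0 < c0 ∧ ∀ i, c0 ≤ ⟪n i, x0⟫ + c i := by
    rcases isEmpty_or_nonempty ι with h | h
    · exact ⟨1, one_pos, fun i => (IsEmpty.false i).elim⟩
    · obtain ⟨i, -, hi⟩ := Finset.exists_min_image Finset.univ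
        (fun i => ⟪n i, x0⟫ + c i) Finset.univ_nonempty
      exact ⟨_, hx0 i, fun j => hi j (Finset.mem_univ j)⟩
  obtain ⟨D, hD, hDx⟩ : ∃ D : ℝ, 0 < D ∧ ∀ x ∈ Pol n c, ‖x - x0‖ ≤ D := by
    obtain ⟨D, hD⟩ := hb.exists_norm_le
    refine ⟨D + ‖x0‖ + 1, ?_, fun x hx => ?_⟩
    · have := norm_nonneg x0
      have := (norm_nonneg x0).trans (hD x0 hx0)
      linarith
    · have := norm_sub_le x x0
      have := hD x hx
      linarith
  set N : ℝ := (Fintype.card ι : ℝ) with hN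
  have hN0 : 0 ≤ N := Nat.cast_nonneg _
  set A : ℝ := 2 * D / c0 + N / c0 ^ 2 / ρ with hA
  have hA0 : 0 < A := by positivity
  set M : ℝ := max 1 (p - 1) with hM
  have hM0 : 0 < M := lt_of_lt_of_le one_pos (le_max_left _ _)
  set K2 : ℝ := M * (2 * N * (A * √A)) with hK2
  have hK20 : 0 ≤ K2 := by positivity
  have hp1 : 0 < p - 1 := by linarith
  set τ : ℝ := (K2 / (p - 1)) ^ 2 with hτ
  set K3 : ℝ := K2 * τ ^ (p - 1 / 2) with hK3
  have hK30 : 0 ≤ K3 := by positivity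
  refine ⟨(K3 - lam) / δ + 1, fun T hT x hx hgx b μ hμ => ?_⟩
  set ξ := gradient (PsiB n c T) x with hξ
  set t := ‖ξ‖ with ht
  have ht0 : 0 < t := lt_of_lt_of_le hρ hgx
  set l : ι → ℝ := fun i => ⟪n i, x⟫ + c i with hl
  have hl0 : ∀ i, 0 < l i := hx
  -- inner product with x - x0
  have hinner : ⟪ξ, x - x0⟫ = ∑ i, ((⟪n i, x0⟫ + c i) * ((l i)⁻¹) ^ 2 - (l i)⁻¹) := by
    rw [hξ, inner_gradient_left, (polyB_fderiv T hx).fderiv]
    simp only [ContinuousLinearMap.sum_apply, ContinuousLinearMap.smul_apply, innerSL_apply_apply,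
      smul_eq_mul]
    refine Finset.sum_congr rfl fun i _ => ?_
    have e1 : ⟪n i, x - x0⟫ = l i - (⟪n i, x0⟫ + c i) := by
      rw [inner_sub_right, hl]; ring
    rw [e1]
    have := (hl0 i).ne'
    change -((l i) ^ 2)⁻¹ * _ = _
    field_simp
    ring
  -- lower bound for every term
  have hterm : ∀ i, c0 / 2 * ((l i)⁻¹) ^ 2 - 1 / (2 * c0) ≤
      (⟪n i, x0⟫ + c i) * ((l i)⁻¹) ^ 2 - (l i)⁻¹ := by
    intro i
    have h1 := mul_le_mul_of_nonneg_right (hc0l i) (sq_nonneg ((l i)⁻¹))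
    have h2 : (l i)⁻¹ ≤ c0 / 2 * ((l i)⁻¹) ^ 2 + 1 / (2 * c0) := by
      have h3 : 0 ≤ (c0 * (l i)⁻¹ - 1) ^ 2 / (2 * c0) := by positivity
      have h4 : (c0 * (l i)⁻¹ - 1) ^ 2 / (2 * c0) =
          c0 / 2 * ((l i)⁻¹) ^ 2 + 1 / (2 * c0) - (l i)⁻¹ := by
        field_simp
        ring
      linarith
    linarith
  have hsq : ∀ i, ((l i)⁻¹) ^ 2 ≤ A * t := by
    intro i
    have h1 : ∑ j, (c0 / 2 * ((l j)⁻¹) ^ 2 - 1 / (2 * c0)) ≤ D * t := by
      have h2 : ⟪ξ, x - x0⟫ ≤ D * t := by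
        refine (real_inner_le_norm _ _).trans ?_
        rw [mul_comm]
        exact mul_le_mul_of_nonneg_right (hDx x hx) ht0.le
      rw [hinner] at h2
      exact (Finset.sum_le_sum fun j _ => hterm j).trans h2
    rw [Finset.sum_sub_distrib, Finset.sum_const, Finset.card_univ, nsmul_eq_mul,
      ← Finset.mul_sum, ← hN] at h1
    have h3 : ((l i)⁻¹) ^ 2 ≤ ∑ j, ((l j)⁻¹) ^ 2 :=
      Finset.single_le_sum (f := fun j => ((l j)⁻¹) ^ 2) (fun j _ => sq_nonneg _)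
        (Finset.mem_univ i)
    have h4 : c0 / 2 * ((l i)⁻¹) ^ 2 ≤ D * t + N * (1 / (2 * c0)) := by
      have := mul_le_mul_of_nonneg_left h3 (by positivity : (0:ℝ) ≤ c0 / 2)
      linarith
    have h5 : N / c0 ^ 2 ≤ N / c0 ^ 2 / ρ * t := by
      have : N / c0 ^ 2 / ρ * t = N / c0 ^ 2 * (t / ρ) := by ring
      rw [this]
      have h6 : 1 ≤ t / ρ := by rw [le_div_iff₀ hρ]; linarith
      have h7 : 0 ≤ N / c0 ^ 2 := by positivity
      nlinarith
    have h8 : ((l i)⁻¹) ^ 2 = 2 / c0 * (c0 / 2 * ((l i)⁻¹) ^ 2) := by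
      field_simp
    rw [h8]
    calc 2 / c0 * (c0 / 2 * ((l i)⁻¹) ^ 2) ≤ 2 / c0 * (D * t + N * (1 / (2 * c0))) :=
          mul_le_mul_of_nonneg_left h4 (by positivity)
      _ = 2 * D / c0 * t + N / c0 ^ 2 := by field_simp
      _ ≤ 2 * D / c0 * t + N / c0 ^ 2 / ρ * t := by linarith
      _ = A * t := by rw [hA]; ring
  have hcube : ∀ i, ((l i)⁻¹) ^ 3 ≤ A * √A * (t * √t) := by
    intro i
    have h1 : (l i)⁻¹ ≤ √(A * t) := Real.le_sqrt_of_sq_le (hsq i)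
    have h2 : 0 ≤ (l i)⁻¹ := (inv_pos.2 (hl0 i)).le
    calc ((l i)⁻¹) ^ 3 = ((l i)⁻¹) ^ 2 * (l i)⁻¹ := by ring
      _ ≤ A * t * √(A * t) := mul_le_mul (hsq i) h1 h2 (by positivity)
      _ = A * √A * (t * √t) := by rw [Real.sqrt_mul hA0.le]; ring
  -- the eigenvalues
  obtain ⟨i₀, hb0, hμ0, hμi⟩ := hμ
  have htp : 0 < t ^ (p - 2) := Real.rpow_pos_of_pos ht0 _
  have hμle : ∀ i, μ i ≤ M * t ^ (p - 2) := by
    intro i
    by_cases hi : i = i₀
    · rw [hi, hμ0]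
      exact mul_le_mul_of_nonneg_right (le_max_right _ _) htp.le
    · rw [hμi i hi]
      calc t ^ (p - 2) = 1 * t ^ (p - 2) := (one_mul _).symm
        _ ≤ M * t ^ (p - 2) := mul_le_mul_of_nonneg_right (le_max_left _ _) htp.le
  have hHs : ∀ y, 0 ≤ Hs (PsiB n c T) x y := by
    intro y
    rw [polyB_Hs T hx]
    refine Finset.sum_nonneg fun i _ => ?_
    have := inv_pos.2 (hx i)
    positivity
  have hHsum : ∑ i, Hs (PsiB n c T) x (b i) ≤ 2 * N * (A * √A) * (t * √t) := by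
    have h1 : ∑ i, Hs (PsiB n c T) x (b i) = ∑ j, 2 * ((l j)⁻¹) ^ 3 := by
      simp only [polyB_Hs T hx]
      rw [Finset.sum_comm]
      refine Finset.sum_congr rfl fun j _ => ?_
      rw [← Finset.mul_sum, b.sum_sq_inner_left, hn j]
      simp [hl]
    rw [h1]
    calc ∑ j, 2 * ((l j)⁻¹) ^ 3 ≤ ∑ j : ι, 2 * (A * √A * (t * √t)) :=
          Finset.sum_le_sum fun j _ => mul_le_mul_of_nonneg_left (hcube j) (by norm_num)
      _ = 2 * N * (A * √A) * (t * √t) := by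
          rw [Finset.sum_const, Finset.card_univ, nsmul_eq_mul, ← hN]; ring
  have hLHS : ∑ i, μ i * Hs (PsiB n c T) x (b i) ≤ K2 * (t ^ (p - 2) * (t * √t)) := by
    calc ∑ i, μ i * Hs (PsiB n c T) x (b i)
        ≤ ∑ i, M * t ^ (p - 2) * Hs (PsiB n c T) x (b i) :=
          Finset.sum_le_sum fun i _ => mul_le_mul_of_nonneg_right (hμle i) (hHs _)
      _ = M * t ^ (p - 2) * ∑ i, Hs (PsiB n c T) x (b i) := by rw [Finset.mul_sum]
      _ ≤ M * t ^ (p - 2) * (2 * N * (A * √A) * (t * √t)) :=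
          mul_le_mul_of_nonneg_left hHsum (by positivity)
      _ = K2 * (t ^ (p - 2) * (t * √t)) := by rw [hK2]; ring
  have hpow : t ^ (p - 2) * (t * √t) = t ^ (p - 1 / 2) := by
    rw [Real.sqrt_eq_rpow]
    nth_rewrite 2 [← Real.rpow_one t]
    rw [← Real.rpow_add ht0, ← Real.rpow_add ht0]
    congr 1
    ring
  have hmain : K2 * t ^ (p - 1 / 2) ≤ K3 + (p - 1) * t ^ p := by
    rcases le_total t τ with h | h
    · have h1 : t ^ (p - 1 / 2) ≤ τ ^ (p - 1 / 2) :=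
        Real.rpow_le_rpow ht0.le h (by linarith)
      have h2 : K2 * t ^ (p - 1 / 2) ≤ K3 := mul_le_mul_of_nonneg_left h1 hK20
      have h3 : 0 ≤ (p - 1) * t ^ p := by positivity
      linarith
    · have h1 : K2 / (p - 1) ≤ √t := by
        have h2 : 0 ≤ K2 / (p - 1) := by positivity
        exact Real.le_sqrt_of_sq_le h
      have h2 : K2 ≤ (p - 1) * √t := by
        rw [div_le_iff₀ hp1] at h1
        linarith
      have h3 : t ^ p = √t * t ^ (p - 1 / 2) := by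
        rw [Real.sqrt_eq_rpow, ← Real.rpow_add ht0]
        congr 1
        ring
      have h4 : 0 ≤ t ^ (p - 1 / 2) := by positivity
      calc K2 * t ^ (p - 1 / 2) ≤ (p - 1) * √t * t ^ (p - 1 / 2) :=
            mul_le_mul_of_nonneg_right h2 h4
        _ = (p - 1) * t ^ p := by rw [h3]; ring
        _ ≤ K3 + (p - 1) * t ^ p := by linarith
  have hPsi : T ≤ PsiB n c T x := by
    unfold PsiB
    have : 0 ≤ ∑ i, (⟪n i, x⟫ + c i)⁻¹ := Finset.sum_nonneg fun i _ => (inv_pos.2 (hx i)).le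
    linarith
  have hT' : K3 - lam < δ * T := by
    have h1 : (K3 - lam) / δ < T := by linarith
    rw [div_lt_iff₀ hδ] at h1
    linarith
  have h9 : δ * T ≤ δ * PsiB n c T x := mul_le_mul_of_nonneg_left hPsi hδ.le
  rw [hpow] at hLHS
  linarith

theorem lowB_sup (hn : ∀ i, ‖n i‖ = 1) {p lam δ w : ℝ} (hp : 1 < p) (hw : 0 < w)
    (hw2 : ∀ s ∈ Ioo (0:ℝ) w, lam + δ / 2 * Real.log (w / s) < (p - 1) * (2 : ℝ) ^ (-p) * s ^ (-p))
    (i : ι) {x : E} (hx : x ∈ Pol n c) (hxw : ⟪n i, x⟫ + c i < w) :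
    gradient (LowB n c w i) x ≠ 0 ∧ ∀ b μ, Adapted p (gradient (LowB n c w i) x) b μ →
      lam + δ * LowB n c w i x + (p - 1) * ‖gradient (LowB n c w i) x‖ ^ p <
        ∑ j, μ j * Hs (LowB n c w i) x (b j) := by
  classical
  set l : ℝ := ⟪n i, x⟫ + c i with hl
  have hl0 : 0 < l := hx i
  -- derivatives of the profile
  have d1 : ∀ y : E, y ∈ Pol n c → HasDerivAt (fun s : ℝ => Real.log (w / s) / 2)
      (-(2 * (⟪n i, y⟫ + c i))⁻¹) (⟪n i, y⟫ + c i) := by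
    intro y hy
    have hy0 : 0 < ⟪n i, y⟫ + c i := hy i
    have h1 : HasDerivAt (fun s : ℝ => w / s) (w * (-((⟪n i, y⟫ + c i) ^ 2)⁻¹))
        (⟪n i, y⟫ + c i) := by
      have := (hasDerivAt_inv hy0.ne').const_mul w
      exact this
    have h2 := (h1.log (div_pos hw hy0).ne').div_const 2
    refine h2.congr_deriv ?_
    field_simp
  have d2 : HasDerivAt (fun s : ℝ => -(2 * s)⁻¹) ((2 * l ^ 2)⁻¹) l := by
    have h1 := (((hasDerivAt_id l).const_mul 2).inv (by simp; exact hl0.ne')).neg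
    refine h1.congr_deriv ?_
    simp only [id]
    field_simp
  have f1 : ∀ y : E, y ∈ Pol n c → HasFDerivAt (LowB n c w i)
      ((-(2 * (⟪n i, y⟫ + c i))⁻¹) • innerSL ℝ (n i)) y := fun y hy => polyB_d1 (d1 y hy)
  have f2 : HasFDerivAt (fun y : E => (-(2 * (⟪n i, y⟫ + c i))⁻¹) • innerSL ℝ (n i))
      (((2 * l ^ 2)⁻¹ • innerSL ℝ (n i)).smulRight (innerSL ℝ (n i))) x := polyB_d2 d2
  have hH : ∀ b : E, Hs (LowB n c w i) x b = (2 * l ^ 2)⁻¹ * ⟪n i, b⟫ ^ 2 := by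
    intro b
    have h1 : fderiv ℝ (LowB n c w i) =ᶠ[𝓝 x]
        fun y => (-(2 * (⟪n i, y⟫ + c i))⁻¹) • innerSL ℝ (n i) := by
      filter_upwards [polyB_isOpen.mem_nhds hx] with y hy
      exact (f1 y hy).fderiv
    unfold Hs
    rw [h1.fderiv_eq, f2.fderiv]
    simp only [ContinuousLinearMap.smulRight_apply, ContinuousLinearMap.smul_apply,
      innerSL_apply_apply, smul_eq_mul]
    ring
  have hg : gradient (LowB n c w i) x = (-(2 * l)⁻¹) • n i := by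
    apply (InnerProductSpace.toDual ℝ E).injective
    rw [toDual_gradient, (f1 x hx).fderiv]
    ext y
    simp [hl]
  have hgn : ‖gradient (LowB n c w i) x‖ = (2 * l)⁻¹ := by
    rw [hg, norm_smul, hn i, mul_one, norm_neg, Real.norm_of_nonneg (by positivity)]
  have hgn0 : 0 < ‖gradient (LowB n c w i) x‖ := by rw [hgn]; positivity
  refine ⟨norm_pos_iff.1 hgn0, fun b μ hμ => ?_⟩
  obtain ⟨i₀, hb0, hμ0, hμi⟩ := hμ
  rw [hgn] at hb0 hμ0
  have hb0' : b i₀ = - n i := by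
    rw [hb0, hg, smul_smul, inv_inv]
    have : (2 * l) * (-(2 * l)⁻¹) = -1 := by field_simp
    rw [this, neg_one_smul]
  have hsum : ∑ j, μ j * Hs (LowB n c w i) x (b j) =
      (p - 1) * (2 * l)⁻¹ ^ (p - 2) * (2 * l ^ 2)⁻¹ := by
    rw [Finset.sum_eq_single i₀]
    · rw [hμ0, hH, hb0']
      rw [inner_neg_right, real_inner_self_eq_norm_sq, hn i]
      norm_num
    · intro j _ hj
      rw [hH]
      have h1 : ⟪n i, b j⟫ = 0 := by
        have h2 : ⟪b i₀, b j⟫ = 0 := b.orthonormal.2 (Ne.symm hj)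
        rw [hb0', inner_neg_left] at h2
        linarith
      rw [h1]
      ring
    · intro h
      exact absurd (Finset.mem_univ _) h
  rw [hsum, hgn]
  have hlw := hw2 l ⟨hl0, hxw⟩
  have e0 : LowB n c w i x = Real.log (w / l) / 2 := rfl
  rw [e0]
  have e1 : ((2 * l)⁻¹) ^ p = (2 : ℝ) ^ (-p) * l ^ (-p) := by
    rw [Real.inv_rpow (by positivity), ← Real.rpow_neg (by positivity),
      Real.mul_rpow (by norm_num) hl0.le]
  have e2 : ((2 * l)⁻¹) ^ (p - 2) * (2 * l ^ 2)⁻¹ = 2 * ((2 * l)⁻¹) ^ p := by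
    have h1 : ((2 * l)⁻¹) ^ p = ((2 * l)⁻¹) ^ (p - 2) * ((2 * l)⁻¹) ^ 2 := by
      rw [← Real.rpow_natCast ((2 * l)⁻¹) 2, ← Real.rpow_add (by positivity)]
      congr 1
      norm_num
    rw [h1]
    have h2 : (2 * l ^ 2)⁻¹ = 2 * ((2 * l)⁻¹) ^ 2 := by
      field_simp
    rw [h2]
    ring
  rw [mul_assoc, e2, e1]
  linarith

end PLap
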