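import Pool.Agent.Lib.MP_a627f3_an.VecB
import Pool.Agent.Lib.MP_a627f3_an.Lip
import Pool.Agent.Lib.MP_a627f3_an.ConvC
import Pool.Agent.Lib.MP_a627f3_an.Competitor
import Pool.Agent.Lib.MP_a627f3_an.EL

open MeasureTheory Set Filter Topology Metric
open scoped RealInnerProductSpace ENNReal NNReal

namespace PLap

variable {E : Type*} [NormedAddCommGroup E] [InnerProductSpace ℝ E] [FiniteDimensional ℝ E]
  [CompleteSpace E] [MeasurableSpace E] [BorelSpace E]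

omit [FiniteDimensional ℝ E] [CompleteSpace E] [MeasurableSpace E] [BorelSpace E] in
/-- Second differences through values of the second derivative. -/
theorem sgn_second_diff {Φ : E → ℝ} {Ω : Set E} (hΩ : IsOpen Ω) (hΦ : ContDiffOn ℝ 2 Φ Ω)
    {y b : E} {r : ℝ} (hr : 0 < r) (hseg : ∀ t ∈ Icc (-r) r, y + t • b ∈ Ω) :
    ∃ τ ∈ Ioo 0 r, Φ (y + r • b) + Φ (y - r • b) - 2 * Φ y =
      r ^ 2 * ((Hs Φ (y + τ • b) b + Hs Φ (y - τ • b) b) / 2) := by
  have hc : ∀ z ∈ Ω, ContDiffAt ℝ 2 Φ z := fun z hz => hΦ.contDiffAt (hΩ.mem_nhds hz)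
  have hd1 : ∀ z ∈ Ω, HasFDerivAt Φ (fderiv ℝ Φ z) z := fun z hz =>
    ((hc z hz).differentiableAt (by norm_num)).hasFDerivAt
  have hd2 : ∀ z ∈ Ω, HasFDerivAt (fderiv ℝ Φ) (fderiv ℝ (fderiv ℝ Φ) z) z := fun z hz =>
    (((hc z hz).fderiv_right (m := 1) (by norm_num)).differentiableAt (by norm_num)).hasFDerivAt
  have hg1 : ∀ t, HasDerivAt (fun t : ℝ => y + t • b) b t := fun t => by
    simpa using ((hasDerivAt_id t).smul_const b).const_add y
  have hg2 : ∀ t, HasDerivAt (fun t : ℝ => y - t • b) (-b) t := fun t => by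
    simpa using ((hasDerivAt_id t).smul_const b).const_sub y
  have hm : ∀ t ∈ Icc (-r) r, y - t • b ∈ Ω := fun t ht => by
    have := hseg (-t) ⟨by linarith [ht.2], by linarith [ht.1]⟩
    simpa [sub_eq_add_neg] using this
  set h : ℝ → ℝ := fun t => Φ (y + t • b) + Φ (y - t • b) - 2 * Φ y with hh
  set h' : ℝ → ℝ := fun t => fderiv ℝ Φ (y + t • b) b - fderiv ℝ Φ (y - t • b) b with hh'
  have hder : ∀ t ∈ Icc (-r) r, HasDerivAt h (h' t) t := by
    intro t ht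
    have e1 := (hd1 _ (hseg t ht)).comp_hasDerivAt t (hg1 t)
    have e2 := (hd1 _ (hm t ht)).comp_hasDerivAt t (hg2 t)
    have e3 := (e1.add e2).sub_const (2 * Φ y)
    refine e3.congr_deriv ?_
    simp [hh', sub_eq_add_neg]
  have hder2 : ∀ t ∈ Icc (-r) r, HasDerivAt h' (Hs Φ (y + t • b) b + Hs Φ (y - t • b) b) t := by
    intro t ht
    have e1 := ((hd2 _ (hseg t ht)).comp_hasDerivAt t (hg1 t)).clm_apply (hasDerivAt_const t b)
    have e2 := ((hd2 _ (hm t ht)).comp_hasDerivAt t (hg2 t)).clm_apply (hasDerivAt_const t b)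
    refine (e1.sub e2).congr_deriv ?_
    simp [Hs]
  have hIcc : ∀ t ∈ Icc (0:ℝ) r, t ∈ Icc (-r) r := fun t ht => ⟨by linarith [ht.1], ht.2⟩
  obtain ⟨c, hc1, hc2⟩ := exists_ratio_hasDerivAt_eq_ratio_slope h h' hr
    (fun t ht => (hder t (hIcc t ht)).continuousAt.continuousWithinAt)
    (fun t ht => hder t (hIcc t (Ioo_subset_Icc_self ht))) (fun t => t ^ 2) (fun t => 2 * t)
    (by fun_prop) (fun t ht => by simpa using hasDerivAt_pow 2 t)
  have hc0 : 0 < c := hc1.1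
  obtain ⟨τ, hτ1, hτ2⟩ := exists_hasDerivAt_eq_slope h'
    (fun t => Hs Φ (y + t • b) b + Hs Φ (y - t • b) b) hc0
    (fun t ht => (hder2 t (hIcc t ⟨ht.1, ht.2.trans hc1.2.le⟩)).continuousAt.continuousWithinAt)
    (fun t ht => hder2 t (hIcc t ⟨ht.1.le, (ht.2.trans hc1.2).le⟩))
  refine ⟨τ, ⟨hτ1.1, hτ1.2.trans hc1.2⟩, ?_⟩
  have h0 : h 0 = 0 := by simp [hh]; ring
  have h0' : h' 0 = 0 := by simp [hh']
  simp only [h0, h0', sub_zero] at hc2 hτ2
  rw [eq_div_iff hc0.ne'] at hτ2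
  show h r = _
  rw [← hτ2] at hc2
  have : c * (h r * 2) = c * (r ^ 2 * (Hs Φ (y + τ • b) b + Hs Φ (y - τ • b) b)) := by
    linear_combination -hc2
  have := mul_left_cancel₀ hc0.ne' this
  linarith

omit [FiniteDimensional ℝ E] [CompleteSpace E] [MeasurableSpace E] [BorelSpace E] in
theorem sgn_continuousOn_Hs {Φ : E → ℝ} {Ω : Set E} (hΩ : IsOpen Ω) (hΦ : ContDiffOn ℝ 2 Φ Ω)
    (b : E) : ContinuousOn (fun x => Hs Φ x b) Ω := by
  have h1 : ContDiffOn ℝ 1 (fderiv ℝ Φ) Ω := hΦ.fderiv_of_isOpen hΩ (by norm_num)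
  have h2 : ContinuousOn (fderiv ℝ (fderiv ℝ Φ)) Ω := h1.continuousOn_fderiv_of_isOpen hΩ le_rfl
  exact (h2.clm_apply continuousOn_const).clm_apply continuousOn_const

omit [FiniteDimensional ℝ E] [CompleteSpace E] [MeasurableSpace E] [BorelSpace E] in
theorem sgn_second_diff_tendsto {Φ : E → ℝ} {Ω : Set E} (hΩ : IsOpen Ω)
    (hΦ : ContDiffOn ℝ 2 Φ Ω) {x : E} (hx : x ∈ Ω) (b : E) :
    Tendsto (fun z : ℝ × E => (Φ (z.2 + z.1 • b) + Φ (z.2 - z.1 • b) - 2 * Φ z.2) / z.1 ^ 2)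
      (𝓝[>] 0 ×ˢ 𝓝 x) (𝓝 (Hs Φ x b)) := by
  rw [Metric.tendsto_nhds]
  intro ε hε
  have hcont : ContinuousAt (fun x => Hs Φ x b) x :=
    (sgn_continuousOn_Hs hΩ hΦ b).continuousAt (hΩ.mem_nhds hx)
  obtain ⟨ρ, hρ, hball⟩ := Metric.eventually_nhds_iff.mp
    ((Metric.tendsto_nhds.mp hcont ε hε).and (hΩ.mem_nhds hx))
  have hr1 : ∀ᶠ r in 𝓝[>] (0:ℝ), r ∈ Ioo 0 (ρ / 2 / (‖b‖ + 1)) :=
    Ioo_mem_nhdsGT (by positivity)
  have hy1 : ∀ᶠ y in 𝓝 x, dist y x < ρ / 2 := Metric.ball_mem_nhds x (by positivity)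
  filter_upwards [hr1.prod_mk hy1] with z hz
  obtain ⟨⟨hr0, hr2⟩, hy⟩ := hz
  have hrb : z.1 * ‖b‖ < ρ / 2 := by
    rw [lt_div_iff₀ (by positivity)] at hr2
    nlinarith [norm_nonneg b]
  have hdist : ∀ t ∈ Icc (-z.1) z.1, dist (z.2 + t • b) x < ρ := by
    intro t ht
    have h1 : dist (z.2 + t • b) z.2 ≤ z.1 * ‖b‖ := by
      rw [dist_eq_norm, add_sub_cancel_left, norm_smul, Real.norm_eq_abs]
      exact mul_le_mul_of_nonneg_right (abs_le.mpr ht) (norm_nonneg _)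
    linarith [dist_triangle (z.2 + t • b) z.2 x]
  obtain ⟨τ, hτ, he⟩ := sgn_second_diff hΩ hΦ (y := z.2) (b := b) hr0
    (fun t ht => (hball (hdist t ht)).2)
  rw [he, mul_div_cancel_left₀ _ (by positivity)]
  have e1 := (hball (hdist τ ⟨by linarith [hτ.1], hτ.2.le⟩)).1
  have e2 := (hball (hdist (-τ) ⟨by linarith [hτ.2], by linarith [hτ.1]⟩)).1
  rw [neg_smul, ← sub_eq_add_neg] at e2
  rw [Real.dist_eq, abs_lt] at e1 e2 ⊢
  constructor <;> linarith [e1.1, e1.2, e2.1, e2.2]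

omit [CompleteSpace E] [MeasurableSpace E] [BorelSpace E] in
theorem sgn_Qr_tendsto {Φ : E → ℝ} {Ω : Set E} (hΩ : IsOpen Ω)
    (hΦ : ContDiffOn ℝ 2 Φ Ω) {x : E} (hx : x ∈ Ω)
    (b : OrthonormalBasis (Fin (Module.finrank ℝ E)) ℝ E)
    (μ : Fin (Module.finrank ℝ E) → ℝ) :
    Tendsto (fun z : ℝ × E => Qr b μ Φ z.1 z.2)
      (𝓝[>] 0 ×ˢ 𝓝 x) (𝓝 (∑ i, μ i * Hs Φ x (b i))) := by
  unfold Qr
  exact tendsto_finsetSum _ fun i _ => (sgn_second_diff_tendsto hΩ hΦ hx (b i)).const_mul (μ i)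

omit [MeasurableSpace E] [BorelSpace E] in
/-- Compactness: the strict inequality at the contact points persists. -/
theorem sgn_touch {Φ v : E → ℝ} {Ω : Set E} (hv : Reg Ω v)
    (hΦ : ContDiffOn ℝ 2 Φ Ω) {K : Set E} (hK : IsCompact K) (hKΩ : K ⊆ Ω)
    (b : OrthonormalBasis (Fin (Module.finrank ℝ E)) ℝ E)
    (μ : Fin (Module.finrank ℝ E) → ℝ) (ξ₀ : E) (κ δ σ : ℝ)
    (hcon : ∀ x ∈ K, v x = Φ x → gradient v x = ξ₀ →
      σ * ((∑ i, μ i * Hs Φ x (b i)) - (κ + δ * v x)) < 0) :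
    ∀ᶠ z in 𝓝 ((0 : ℝ), (0 : ℝ)), ∀ x ∈ K, 0 < z.2 → v x = Φ x → ‖gradient v x - ξ₀‖ ≤ z.1 →
      σ * (Qr b μ Φ z.2 x - (κ + δ * v x)) < 0 := by
  have hΩ := hv.isOpen
  have hvc : ContinuousOn v Ω := hv.c1.continuousOn
  have hgc : ContinuousOn (gradient v) Ω := by
    have := hv.c1.continuousOn_fderiv_of_isOpen hΩ le_rfl
    exact (InnerProductSpace.toDual ℝ E).symm.continuous.comp_continuousOn this
  have hΦc : ContinuousOn Φ Ω := hΦ.continuousOn
  apply hK.eventually_forall_of_forall_eventually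
    (P := fun (z : ℝ × ℝ) (x : E) => 0 < z.2 → v x = Φ x → ‖gradient v x - ξ₀‖ ≤ z.1 →
      σ * (Qr b μ Φ z.2 x - (κ + δ * v x)) < 0)
  intro x hx
  have hxΩ := hKΩ hx
  have hnx := hΩ.mem_nhds hxΩ
  by_cases h1 : v x = Φ x
  · by_cases h2 : gradient v x = ξ₀
    · have h3 := hcon x hx h1 h2
      have t1 : Tendsto (fun z : ℝ × E => σ * (Qr b μ Φ z.1 z.2 - (κ + δ * v z.2)))
          (𝓝[>] 0 ×ˢ 𝓝 x) (𝓝 (σ * ((∑ i, μ i * Hs Φ x (b i)) - (κ + δ * v x)))) := by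
        have t2 : Tendsto (fun z : ℝ × E => v z.2) (𝓝[>] 0 ×ˢ 𝓝 x) (𝓝 (v x)) :=
          (hvc.continuousAt hnx).tendsto.comp tendsto_snd
        exact ((sgn_Qr_tendsto hΩ hΦ hxΩ b μ).sub ((t2.const_mul δ).const_add κ)).const_mul σ
      have t3 := t1.eventually_lt_const h3
      rw [eventually_prod_iff] at t3
      obtain ⟨pa, ha, pb, hb, hab⟩ := t3
      rw [eventually_nhdsWithin_iff] at ha
      have c1 : Tendsto (fun z : (ℝ × ℝ) × E => z.1.2) (𝓝 ((0, 0), x)) (𝓝 0) := by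
        have : Continuous (fun z : (ℝ × ℝ) × E => z.1.2) := by fun_prop
        exact this.tendsto _
      have c2 : Tendsto (fun z : (ℝ × ℝ) × E => z.2) (𝓝 ((0, 0), x)) (𝓝 x) := by
        have : Continuous (fun z : (ℝ × ℝ) × E => z.2) := by fun_prop
        exact this.tendsto _
      filter_upwards [c1.eventually ha, c2.eventually hb] with z h4 h5 h6 _ _
      exact hab (h4 h6) h5
    · have h3 : 0 < ‖gradient v x - ξ₀‖ := norm_pos_iff.mpr (sub_ne_zero.mpr h2)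
      have t1 : Tendsto (fun z : (ℝ × ℝ) × E => ‖gradient v z.2 - ξ₀‖ - z.1.1)
          (𝓝 ((0, 0), x)) (𝓝 (‖gradient v x - ξ₀‖ - 0)) := by
        have t2 : Tendsto (fun z : (ℝ × ℝ) × E => gradient v z.2) (𝓝 ((0, 0), x))
            (𝓝 (gradient v x)) := by
          refine (hgc.continuousAt hnx).tendsto.comp ?_
          exact (continuous_snd.tendsto _)
        have t3 : Tendsto (fun z : (ℝ × ℝ) × E => z.1.1) (𝓝 ((0, 0), x)) (𝓝 0) := by
          have : Continuous (fun z : (ℝ × ℝ) × E => z.1.1) := by fun_prop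
          exact this.tendsto _
        exact (t2.sub_const ξ₀).norm.sub t3
      rw [sub_zero] at t1
      filter_upwards [t1.eventually_const_lt h3] with z hz _ _ h4
      linarith
  · have t1 : Tendsto (fun z : (ℝ × ℝ) × E => v z.2 - Φ z.2) (𝓝 ((0, 0), x))
        (𝓝 (v x - Φ x)) := by
      refine ((hvc.continuousAt hnx).sub (hΦc.continuousAt hnx)).tendsto.comp ?_
      exact (continuous_snd.tendsto _)
    filter_upwards [t1.eventually_ne (sub_ne_zero.mpr h1)] with z hz _ h4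
    exact absurd (sub_eq_zero.mpr h4) hz

omit [FiniteDimensional ℝ E] [MeasurableSpace E] [BorelSpace E] in
theorem sgn_gradient_eq {Ω : Set E} (hΩ : IsOpen Ω) {v Ψ : E → ℝ} (hle : ∀ x ∈ Ω, v x ≤ Ψ x)
    {x : E} (hx : x ∈ Ω) (hv : DifferentiableAt ℝ v x) (hΨ : DifferentiableAt ℝ Ψ x)
    (he : v x = Ψ x) : gradient v x = gradient Ψ x := by
  have h1 : IsLocalMin (fun y => Ψ y - v y) x := by
    filter_upwards [hΩ.mem_nhds hx] with y hy
    have := hle y hy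
    show Ψ x - v x ≤ Ψ y - v y
    linarith
  have h2 := h1.fderiv_eq_zero
  have h3 : fderiv ℝ (fun y => Ψ y - v y) x = fderiv ℝ Ψ x - fderiv ℝ v x := fderiv_sub hΨ hv
  rw [h3, sub_eq_zero] at h2
  unfold gradient
  rw [h2]


omit [FiniteDimensional ℝ E] [MeasurableSpace E] [BorelSpace E] in
theorem sgn_gradient_cont {Ω : Set E} {v : E → ℝ} (hv : Reg Ω v) : ContinuousOn (gradient v) Ω := by
  have := hv.c1.continuousOn_fderiv_of_isOpen hv.isOpen le_rfl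
  exact (InnerProductSpace.toDual ℝ E).symm.continuous.comp_continuousOn this

theorem sgn_congr {p lam δ : ℝ} {Ω : Set E} {v φ φ' : E → ℝ} (h : ELHolds p lam δ Ω v φ')
    (he : ∀ x ∈ Ω, φ x = φ' x) : ELHolds p lam δ Ω v φ := by
  intro K hK hKΩ
  obtain ⟨C, hC⟩ := h K hK hKΩ
  refine ⟨C, fun f hf hs ε hε hfε => hC f hf hs ε hε fun x hx => ?_⟩
  rw [← he x hx]
  exact hfε x hx

/-- Finite energy of a convex function which agrees with `v` off a compact set. -/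
theorem sgn_fin {p : ℝ} (hp : 1 < p) {Ω K : Set E} (hΩ : IsOpen Ω) {v w : E → ℝ}
    (hK : IsCompact K) (hKΩ : K ⊆ Ω) (hw : ConvexOn ℝ Ω w) (he : ∀ x ∈ Ω \ K, w x = v x)
    (hfin : IntegrableOn (fun x => ‖gradient v x‖ ^ p * Real.exp (-p * v x)) Ω) :
    IntegrableOn (fun x => ‖gradient w x‖ ^ p * Real.exp (-p * w x)) Ω := by
  have hcw : ContinuousOn w Ω := hw.continuousOn hΩ
  have hgm : Measurable (gradient w) := by
    have h1 : Measurable (fderiv ℝ w) := measurable_fderiv ℝ w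
    exact (InnerProductSpace.toDual ℝ E).symm.continuous.measurable.comp h1
  have h1 : IntegrableOn (fun x => ‖gradient w x‖ ^ p * Real.exp (-p * w x)) K := by
    obtain ⟨L, hL1, hL2⟩ := exists_lip_compact hΩ hw hK hKΩ
    have : Fact (volume K < ⊤) := ⟨hK.measure_lt_top⟩
    refine Integrable.of_bound (μ := volume.restrict K) ?_ (L ^ p * Real.exp (p * L)) ?_
    · refine AEStronglyMeasurable.mul ?_ ?_
      · exact (hgm.norm.pow_const p).aestronglyMeasurable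
      · have : ContinuousOn (fun x => Real.exp (-p * w x)) K :=
          Real.continuous_exp.comp_continuousOn ((continuousOn_const).mul (hcw.mono hKΩ))
        exact this.aestronglyMeasurable hK.isClosed.measurableSet
    · filter_upwards [ae_restrict_mem hK.isClosed.measurableSet] with x hx
      have a1 := hL1 x hx
      have a2 := hL2 x hx
      rw [Real.norm_eq_abs, abs_mul, abs_of_nonneg (by positivity), Real.abs_exp]
      have a3 : ‖gradient w x‖ ^ p ≤ L ^ p :=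
        Real.rpow_le_rpow (norm_nonneg _) a1 (by linarith)
      have a4 : Real.exp (-p * w x) ≤ Real.exp (p * L) := by
        apply Real.exp_le_exp.mpr
        have := (abs_le.mp a2).1
        nlinarith
      exact mul_le_mul a3 a4 (Real.exp_nonneg _)
        (le_trans (Real.rpow_nonneg (norm_nonneg _) p) a3)
  have h2 : IntegrableOn (fun x => ‖gradient w x‖ ^ p * Real.exp (-p * w x)) (Ω \ K) := by
    refine (hfin.mono_set sdiff_subset).congr_fun ?_ (hΩ.measurableSet.diff hK.isClosed.measurableSet)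
    intro x hx
    have ho : IsOpen (Ω \ K) := hΩ.sdiff hK.isClosed
    have e1 : w =ᶠ[𝓝 x] v := by
      filter_upwards [ho.mem_nhds hx] with y hy using he y hy
    have e2 : gradient w x = gradient v x := by
      unfold gradient
      rw [e1.fderiv_eq]
    show ‖gradient v x‖ ^ p * Real.exp (-p * v x) = ‖gradient w x‖ ^ p * Real.exp (-p * w x)
    rw [e2, he x hx]
  have h3 : Ω = (Ω \ K) ∪ K := by rw [sdiff_union_self, union_eq_left.mpr hKΩ]
  rw [h3]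
  exact h2.union h1

theorem sgn_core {ι : Type*} [Finite ι] {p lam δ : ℝ} (hp : 1 < p) (hδ : 0 ≤ δ) {Ω : Set E}
    {B : ι → E → ℝ} {Ψ v : E → ℝ} (hv : Reg Ω v) (hadm : Adm p Ω B Ψ v)
    (hmin : ∀ w, Adm p Ω B Ψ w → Jf p lam δ Ω v ≤ Jf p lam δ Ω w)
    (hB : ∀ i, ContinuousOn (B i) Ω) (hΨ : ContinuousOn Ψ Ω) (hpos : ∃ c > 0, ∀ x ∈ Ω, c ≤ v x)
    {H : E → ℝ} (hH : ConvexOn ℝ univ H) {L : ℝ≥0} (hL : LipschitzWith L H) (κ₁ κ₂ : ℝ)
    {g : E → ℝ} (hg : Continuous g) (hg0 : ∀ ξ, 0 ≤ g ξ) (hgc : HasCompactSupport g)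
    (hup : ∀ x ∈ Ω, v x = Ψ x → gradient v x ∈ tsupport g → H x - κ₁ * v x - κ₂ < 0)
    (hlo : ∀ i, ∀ x ∈ Ω, v x = B i x → gradient v x ∈ tsupport g →
      0 < H x - κ₁ * v x - κ₂) :
    ELHolds p lam δ Ω v (fun x => g (gradient v x) * (H x - κ₁ * v x - κ₂)) := by
  obtain ⟨w, K, hK, hKΩ, hwc, hwK, hwlim, hwup, hwlo⟩ := competitor hv hH hL κ₁ κ₂ hg hg0 hgc
  have hφ : ContinuousOn (fun x => g (gradient v x) * (H x - κ₁ * v x - κ₂)) Ω := by
    refine (hg.comp_continuousOn (sgn_gradient_cont hv)).mul ?_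
    exact ((hL.continuous.continuousOn).sub
      (continuousOn_const.mul hv.c1.continuousOn)).sub continuousOn_const
  have hwc' : ∀ᶠ t in 𝓝[>] (0:ℝ), ConvexOn ℝ Ω (w t) := by
    filter_upwards [self_mem_nhdsWithin] with t ht using hwc t ht
  have hup' := hwup Ψ hΨ hadm.up hup
  have hlo' : ∀ᶠ t in 𝓝[>] (0:ℝ), ∀ i, ∀ x ∈ Ω, B i x ≤ w t x :=
    eventually_all.mpr fun i => hwlo (B i) (hB i) (hadm.lo i) (hlo i)
  obtain ⟨c, hc, hcv⟩ := hpos
  obtain ⟨M, hM⟩ := hK.exists_bound_of_continuousOn (hφ.mono hKΩ)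
  have hM0 : 0 ≤ |M| := abs_nonneg M
  have hnn : ∀ᶠ t in 𝓝[>] (0:ℝ), ∀ x ∈ Ω, 0 ≤ w t x := by
    have ht : ∀ᶠ t in 𝓝[>] (0:ℝ), t ∈ Ioo 0 (c / (|M| + 1)) := Ioo_mem_nhdsGT (by positivity)
    filter_upwards [ht, hwlim 1 one_pos, hwK] with t ht h1 h2 x hx
    by_cases hxK : x ∈ K
    · have h3 := (abs_le.mp (h1 x hx)).1
      have h4 := (abs_le.mp ((Real.norm_eq_abs _).symm.le.trans (hM x hxK))).1
      have h5 := hcv x hx
      have h6 : t * (|M| + 1) < c := by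
        have := ht.2
        rwa [lt_div_iff₀ (by positivity)] at this
      have h7 := le_abs_self M
      have h8 : t * -|M| ≤ t * (g (gradient v x) * (H x - κ₁ * v x - κ₂)) :=
        mul_le_mul_of_nonneg_left (by linarith) ht.1.le
      nlinarith
    · rw [h2 x ⟨hx, hxK⟩]
      exact hadm.nn x hx
  have hJ : ∀ᶠ t in 𝓝[>] (0:ℝ), Jf p lam δ Ω v ≤ Jf p lam δ Ω (w t) := by
    filter_upwards [hwc', hup', hlo', hnn, hwK] with t h1 h2 h3 h4 h5
    exact hmin _ ⟨h1, h4, h3, h2, sgn_fin hp hv.isOpen hK hKΩ h1 h5 hadm.fin⟩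
  exact el_of_family hp hδ hv hadm.nn hadm.fin hK hKΩ hwc' hwK hφ hwlim hJ


omit [FiniteDimensional ℝ E] [CompleteSpace E] [MeasurableSpace E] [BorelSpace E] in
theorem sgn_conv_lip {V : E → ℝ} (hV : ConvexOn ℝ univ V) {L : ℝ≥0} (hL : LipschitzWith L V)
    {n : ℕ} (b : Fin n → E) (μ : Fin n → ℝ) (hμ : ∀ i, 0 ≤ μ i) (r : ℝ) :
    ConvexOn ℝ univ (fun x => ∑ i, μ i * ((V (x + r • b i) + V (x - r • b i)) / r ^ 2)) ∧
      ∃ C : ℝ≥0, LipschitzWith C
        (fun x => ∑ i, μ i * ((V (x + r • b i) + V (x - r • b i)) / r ^ 2)) := by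
  constructor
  · refine ⟨convex_univ, ?_⟩
    intro x _ y _ a a' ha ha' haa
    have key : ∀ c : E, V (a • x + a' • y + c) ≤ a * V (x + c) + a' * V (y + c) := by
      intro c
      have h1 := hV.2 (mem_univ (x + c)) (mem_univ (y + c)) ha ha' haa
      have h2 : a • (x + c) + a' • (y + c) = a • x + a' • y + c := by
        have : c = (a + a') • c := by rw [haa, one_smul]
        conv_rhs => rw [this]
        module
      rw [h2] at h1
      exact h1
    simp only [smul_eq_mul, Finset.mul_sum]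
    rw [← Finset.sum_add_distrib]
    apply Finset.sum_le_sum
    intro i _
    have k1 := key (r • b i)
    have k2 := key (-(r • b i))
    simp only [← sub_eq_add_neg] at k2
    have h3 : a * (μ i * ((V (x + r • b i) + V (x - r • b i)) / r ^ 2)) +
        a' * (μ i * ((V (y + r • b i) + V (y - r • b i)) / r ^ 2)) =
        μ i * ((a * V (x + r • b i) + a' * V (y + r • b i) +
          (a * V (x - r • b i) + a' * V (y - r • b i))) / r ^ 2) := by ring
    rw [h3]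
    apply mul_le_mul_of_nonneg_left _ (hμ i)
    apply div_le_div_of_nonneg_right _ (by positivity)
    linarith
  · refine ⟨Real.toNNReal (∑ i, μ i * ((L + L) / r ^ 2)), ?_⟩
    apply LipschitzWith.of_dist_le_mul
    intro x y
    have hnn : 0 ≤ ∑ i, μ i * (((L : ℝ) + L) / r ^ 2) :=
      Finset.sum_nonneg fun i _ => mul_nonneg (hμ i) (by positivity)
    rw [Real.coe_toNNReal _ hnn, Real.dist_eq, ← Finset.sum_sub_distrib, Finset.sum_mul]
    refine (Finset.abs_sum_le_sum_abs _ _).trans (Finset.sum_le_sum fun i _ => ?_)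
    have h1 : |V (x + r • b i) - V (y + r • b i)| ≤ L * dist x y := by
      have := hL.dist_le_mul (x + r • b i) (y + r • b i)
      rwa [Real.dist_eq, dist_add_right] at this
    have h2 : |V (x - r • b i) - V (y - r • b i)| ≤ L * dist x y := by
      have := hL.dist_le_mul (x - r • b i) (y - r • b i)
      rwa [Real.dist_eq, dist_sub_right] at this
    rw [← mul_sub, abs_mul, abs_of_nonneg (hμ i), mul_assoc]
    apply mul_le_mul_of_nonneg_left _ (hμ i)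
    rw [← sub_div, abs_div, abs_of_nonneg (sq_nonneg r), div_mul_eq_mul_div]
    apply div_le_div_of_nonneg_right _ (by positivity)
    have h3 : V (x + r • b i) + V (x - r • b i) - (V (y + r • b i) + V (y - r • b i)) =
      (V (x + r • b i) - V (y + r • b i)) + (V (x - r • b i) - V (y - r • b i)) := by ring
    rw [h3]
    refine (abs_add_le _ _).trans ?_
    linarith

omit [CompleteSpace E] [MeasurableSpace E] [BorelSpace E] in
theorem sgn_Qr_mono (b : OrthonormalBasis (Fin (Module.finrank ℝ E)) ℝ E)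
    (μ : Fin (Module.finrank ℝ E) → ℝ) (hμ : ∀ i, 0 ≤ μ i) {v w : E → ℝ} {r : ℝ} {x : E}
    (hx : v x = w x) (h : ∀ i, v (x + r • b i) ≤ w (x + r • b i) ∧
      v (x - r • b i) ≤ w (x - r • b i)) : Qr b μ v r x ≤ Qr b μ w r x := by
  unfold Qr
  apply Finset.sum_le_sum
  intro i _
  apply mul_le_mul_of_nonneg_left _ (hμ i)
  apply div_le_div_of_nonneg_right _ (by positivity)
  have := h i
  linarith [this.1, this.2]

theorem elq_of_min {ι : Type*} [Finite ι] {p lam δ : ℝ} (hp : 1 < p) (hδ : 0 ≤ δ) {Ω : Set E}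
    {B : ι → E → ℝ} {Ψ v : E → ℝ} (hv : Reg Ω v) (hadm : Adm p Ω B Ψ v)
    (hmin : ∀ w, Adm p Ω B Ψ w → Jf p lam δ Ω v ≤ Jf p lam δ Ω w)
    (hB : ∀ i, ContDiffOn ℝ 2 (B i) Ω) (hΨ : ContDiffOn ℝ 2 Ψ Ω) (hpos : ∃ c > 0, ∀ x ∈ Ω, c ≤ v x)
    (hsub : TouchSub p lam δ Ω v Ψ) (hsup : ∀ i, TouchSup p lam δ Ω v (B i)) :
    ELQ p lam δ Ω v := by
  intro ξ₀ hξ₀ b μ hab
  have hΩ := hv.isOpen
  have hμ : ∀ i, 0 < μ i := adapted_pos hp hξ₀ hab
  have hdv : ∀ x ∈ Ω, DifferentiableAt ℝ v x := fun x hx =>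
    (hv.c1.contDiffAt (hΩ.mem_nhds hx)).differentiableAt (by norm_num)
  set K₁ : Set E := {x | x ∈ Ω ∧ gradient v x ∈ closedBall ξ₀ 1} with hK₁
  have hK₁c : IsCompact K₁ := hv.isCompact_grad (isCompact_closedBall _ _)
  have hK₁Ω : K₁ ⊆ Ω := fun x hx => hx.1
  obtain ⟨ρ, hρ, hρΩ⟩ := hK₁c.exists_cthickening_subset_open hΩ hK₁Ω
  obtain ⟨V, hV1, ⟨L, hL⟩, hV2, hV3⟩ := exists_global hΩ hv.cvx hK₁c.cthickening hρΩ
  have hE1 := sgn_touch hv hΨ hK₁c hK₁Ω b μ ξ₀ (lam + (p - 1) * ‖ξ₀‖ ^ p) δ 1 (by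
    intro x hx h1 h2
    have h3 := sgn_gradient_eq hΩ hadm.up hx.1 (hdv x hx.1)
      ((hΨ.contDiffAt (hΩ.mem_nhds hx.1)).differentiableAt (by norm_num)) h1
    have h4 := (hsub x hx.1 h1).2 b μ (by rw [← h3, h2]; exact hab)
    rw [← h3, h2, ← h1] at h4
    linarith)
  have hE2 : ∀ᶠ z in 𝓝 ((0 : ℝ), (0 : ℝ)), ∀ i, ∀ x ∈ K₁, 0 < z.2 → v x = B i x →
      ‖gradient v x - ξ₀‖ ≤ z.1 →
      (-1) * (Qr b μ (B i) z.2 x - ((lam + (p - 1) * ‖ξ₀‖ ^ p) + δ * v x)) < 0 := by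
    apply eventually_all.mpr
    intro i
    apply sgn_touch hv (hB i) hK₁c hK₁Ω b μ ξ₀ (lam + (p - 1) * ‖ξ₀‖ ^ p) δ (-1)
    intro x hx h1 h2
    have h3 := sgn_gradient_eq hΩ (hadm.lo i) hx.1
      (((hB i).contDiffAt (hΩ.mem_nhds hx.1)).differentiableAt (by norm_num)) (hdv x hx.1) h1.symm
    have h4 := (hsup i x hx.1 h1).2 b μ (by rw [h3, h2]; exact hab)
    rw [h3, h2, ← h1] at h4
    linarith
  obtain ⟨ε, hε, hball⟩ := Metric.eventually_nhds_iff.mp (hE1.and hE2)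
  refine ⟨min (ε / 2) 1, by positivity, min (ε / 2) ρ, by positivity, ?_⟩
  intro r hr g hg hg0 hgs
  have hr0 : 0 < r := hr.1
  have hrε : r < ε / 2 := lt_of_lt_of_le hr.2 (min_le_left _ _)
  have hrρ : r < ρ := lt_of_lt_of_le hr.2 (min_le_right _ _)
  obtain ⟨hH, C, hC⟩ := sgn_conv_lip hV1 hL (fun i => b i) μ (fun i => (hμ i).le) r
  set H : E → ℝ := fun x => ∑ i, μ i * ((V (x + r • b i) + V (x - r • b i)) / r ^ 2) with hHdef
  have hmem : ∀ x ∈ K₁, ∀ i, x + r • b i ∈ cthickening ρ K₁ ∧ x - r • b i ∈ cthickening ρ K₁ := by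
    intro x hx i
    have hb1 : ‖r • b i‖ ≤ ρ := by
      rw [norm_smul, b.norm_eq_one, mul_one, Real.norm_eq_abs, abs_of_pos hr0]
      exact hrρ.le
    constructor
    · apply mem_cthickening_of_dist_le _ x _ _ hx
      rwa [dist_eq_norm, add_sub_cancel_left]
    · apply mem_cthickening_of_dist_le _ x _ _ hx
      rwa [dist_eq_norm, sub_sub_cancel_left, norm_neg]
  have hident : ∀ x ∈ K₁, H x - (δ + ∑ i, μ i * (2 / r ^ 2)) * v x - (lam + (p - 1) * ‖ξ₀‖ ^ p) =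
      Qr b μ v r x - ((lam + (p - 1) * ‖ξ₀‖ ^ p) + δ * v x) := by
    intro x hx
    have h1 : H x = ∑ i, μ i * ((v (x + r • b i) + v (x - r • b i)) / r ^ 2) := by
      rw [hHdef]
      refine Finset.sum_congr rfl fun i _ => ?_
      rw [hV2 _ (hmem x hx i).1, hV2 _ (hmem x hx i).2]
    have h2 : Qr b μ v r x = H x - (∑ i, μ i * (2 / r ^ 2)) * v x := by
      rw [h1, Finset.sum_mul, ← Finset.sum_sub_distrib]
      unfold Qr
      refine Finset.sum_congr rfl fun i _ => ?_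
      ring
    rw [h2]
    ring
  have hgK : ∀ x ∈ Ω, gradient v x ∈ tsupport g → x ∈ K₁ ∧ ‖gradient v x - ξ₀‖ ≤ min (ε / 2) 1 := by
    intro x hx h
    have h1 := hgs h
    rw [mem_closedBall, dist_eq_norm] at h1
    refine ⟨⟨hx, ?_⟩, h1⟩
    rw [mem_closedBall, dist_eq_norm]
    exact h1.trans (min_le_right _ _)
  have hz : dist ((min (ε / 2) 1 : ℝ), r) ((0 : ℝ), (0 : ℝ)) < ε := by
    rw [Prod.dist_eq]
    simp only [dist_zero_right, Real.norm_eq_abs]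
    rw [abs_of_nonneg (by positivity), abs_of_pos hr0]
    exact max_lt (lt_of_le_of_lt (min_le_left _ _) (by linarith)) (by linarith)
  obtain ⟨hz1, hz2⟩ := hball hz
  have hgc : HasCompactSupport g :=
    (isCompact_closedBall ξ₀ (min (ε / 2) 1)).of_isClosed_subset (isClosed_tsupport g) hgs
  have hcore := sgn_core hp hδ hv hadm hmin (fun i => (hB i).continuousOn) hΨ.continuousOn hpos
    hH hC (δ + ∑ i, μ i * (2 / r ^ 2)) (lam + (p - 1) * ‖ξ₀‖ ^ p) hg hg0 hgc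
    (by
      intro x hx h1 h2
      obtain ⟨h3, h4⟩ := hgK x hx h2
      have h5 := hz1 x h3 hr0 h1 h4
      have h6 : Qr b μ v r x ≤ Qr b μ Ψ r x :=
        sgn_Qr_mono b μ (fun i => (hμ i).le) h1 fun i =>
          ⟨hadm.up _ (hρΩ (hmem x h3 i).1), hadm.up _ (hρΩ (hmem x h3 i).2)⟩
      have h7 := hident x h3
      simp only at h5
      rw [h7]
      linarith)
    (by
      intro i x hx h1 h2
      obtain ⟨h3, h4⟩ := hgK x hx h2
      have h5 := hz2 i x h3 hr0 h1 h4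
      have h6 : Qr b μ (B i) r x ≤ Qr b μ v r x :=
        sgn_Qr_mono b μ (fun i => (hμ i).le) h1.symm fun j =>
          ⟨hadm.lo i _ (hρΩ (hmem x h3 j).1), hadm.lo i _ (hρΩ (hmem x h3 j).2)⟩
      have h7 := hident x h3
      simp only at h5
      rw [h7]
      linarith)
  refine sgn_congr hcore fun x hx => ?_
  by_cases h : gradient v x ∈ tsupport g
  · have h1 := hident x (hgK x hx h).1
    show g (gradient v x) * (Qr b μ v r x - (lam + δ * v x + (p - 1) * ‖ξ₀‖ ^ p)) = _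
    rw [h1]
    ring
  · have h1 : g (gradient v x) = 0 := image_eq_zero_of_notMem_tsupport h
    rw [h1]
    ring

theorem elk_of_min {ι : Type*} [Finite ι] {p lam δ : ℝ} (hp : 1 < p) (hδ : 0 ≤ δ) {Ω : Set E}
    {B : ι → E → ℝ} {Ψ v : E → ℝ} (hv : Reg Ω v) (hadm : Adm p Ω B Ψ v)
    (hmin : ∀ w, Adm p Ω B Ψ w → Jf p lam δ Ω v ≤ Jf p lam δ Ω w)
    (hB : ∀ i, ContDiffOn ℝ 2 (B i) Ω) (hΨ : ContDiffOn ℝ 2 Ψ Ω) (hpos : ∃ c > 0, ∀ x ∈ Ω, c ≤ v x)
    (hsub : TouchSub p lam δ Ω v Ψ) (hsup : ∀ i, TouchSup p lam δ Ω v (B i)) :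
    ELK p lam δ Ω v := by
  have hΩ := hv.isOpen
  have hdv : ∀ x ∈ Ω, DifferentiableAt ℝ v x := fun x hx =>
    (hv.c1.contDiffAt (hΩ.mem_nhds hx)).differentiableAt (by norm_num)
  set K₁ : Set E := {x | x ∈ Ω ∧ gradient v x ∈ closedBall (0 : E) 1} with hK₁
  have hK₁c : IsCompact K₁ := hv.isCompact_grad (isCompact_closedBall _ _)
  have hK₁Ω : K₁ ⊆ Ω := fun x hx => hx.1
  have hE1 := sgn_touch hv hΨ hK₁c hK₁Ω (stdOrthonormalBasis ℝ E) 0 0 0 0 0 (by
    intro x hx h1 h2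
    have h3 := sgn_gradient_eq hΩ hadm.up hx.1 (hdv x hx.1)
      ((hΨ.contDiffAt (hΩ.mem_nhds hx.1)).differentiableAt (by norm_num)) h1
    exact absurd (h3.symm.trans h2) (hsub x hx.1 h1).1)
  have hE2 : ∀ᶠ z in 𝓝 ((0 : ℝ), (0 : ℝ)), ∀ i, ∀ x ∈ K₁, 0 < z.2 → v x = B i x →
      ‖gradient v x - 0‖ ≤ z.1 →
      (0 : ℝ) * (Qr (stdOrthonormalBasis ℝ E) 0 (B i) z.2 x - (0 + 0 * v x)) < 0 := by
    apply eventually_all.mpr
    intro i
    apply sgn_touch hv (hB i) hK₁c hK₁Ω (stdOrthonormalBasis ℝ E) 0 0 0 0 0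
    intro x hx h1 h2
    have h3 := sgn_gradient_eq hΩ (hadm.lo i) hx.1
      (((hB i).contDiffAt (hΩ.mem_nhds hx.1)).differentiableAt (by norm_num)) (hdv x hx.1) h1.symm
    exact absurd (h3.trans h2) (hsup i x hx.1 h1).1
  obtain ⟨ε, hε, hball⟩ := Metric.eventually_nhds_iff.mp (hE1.and hE2)
  have hz : dist ((min (ε / 2) 1 : ℝ), ε / 2) ((0 : ℝ), (0 : ℝ)) < ε := by
    rw [Prod.dist_eq]
    simp only [dist_zero_right, Real.norm_eq_abs]
    rw [abs_of_nonneg (by positivity), abs_of_pos (by positivity)]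
    exact max_lt (lt_of_le_of_lt (min_le_left _ _) (by linarith)) (by linarith)
  obtain ⟨hz1, hz2⟩ := hball hz
  refine ⟨min (ε / 2) 1, by positivity, ?_⟩
  intro g hg hg0 hgs H κ₁ κ₂ hH hL
  obtain ⟨L, hL⟩ := hL
  have hgK : ∀ x ∈ Ω, gradient v x ∈ tsupport g →
      x ∈ K₁ ∧ ‖gradient v x - 0‖ ≤ min (ε / 2) 1 := by
    intro x hx h
    have h1 := hgs h
    rw [mem_closedBall, dist_eq_norm] at h1
    refine ⟨⟨hx, ?_⟩, h1⟩
    rw [mem_closedBall, dist_eq_norm]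
    exact h1.trans (min_le_right _ _)
  have hgc : HasCompactSupport g :=
    (isCompact_closedBall (0 : E) (min (ε / 2) 1)).of_isClosed_subset (isClosed_tsupport g) hgs
  refine sgn_core hp hδ hv hadm hmin (fun i => (hB i).continuousOn) hΨ.continuousOn hpos
    hH hL κ₁ κ₂ hg hg0 hgc ?_ ?_
  · intro x hx h1 h2
    obtain ⟨h3, h4⟩ := hgK x hx h2
    have h5 := hz1 x h3 (by positivity) h1 h4
    simp at h5
  · intro i x hx h1 h2
    obtain ⟨h3, h4⟩ := hgK x hx h2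
    have h5 := hz2 i x h3 (by positivity) h1 h4
    simp at h5

end PLap
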