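import Pool.Agent.Lib.MP_a627f3_an.VecA
import Pool.Agent.Lib.MP_a627f3_an.Lip
import Pool.Agent.Lib.MP_a627f3_an.ConvC
import Pool.Agent.Lib.MP_a627f3_an.ConvD
import Pool.Agent.Lib.MP_a627f3_an.Pos

open MeasureTheory Set Filter Topology Metric
open scoped RealInnerProductSpace ENNReal NNReal

namespace PLap

variable {E : Type*} [NormedAddCommGroup E] [InnerProductSpace ℝ E] [FiniteDimensional ℝ E]
  [CompleteSpace E] [MeasurableSpace E] [BorelSpace E]

namespace SuperAux

omit [FiniteDimensional ℝ E] [CompleteSpace E] [MeasurableSpace E] [BorelSpace E] in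
theorem cont_mul {Ω : Set E} (hΩ : IsOpen Ω) {c f : E → ℝ} (hc : ContinuousOn c Ω)
    (hf : LipC Ω f) : Continuous (fun x => c x * f x) := by
  rw [continuous_iff_continuousAt]
  intro x
  obtain ⟨L, hL⟩ := hf.1
  by_cases hx : x ∈ Ω
  · exact (hc.continuousAt (hΩ.mem_nhds hx)).mul hL.continuous.continuousAt
  · have h1 : x ∉ tsupport f := fun h => hx (hf.2.2 h)
    have h2 : (fun y => c y * f y) =ᶠ[𝓝 x] fun _ => 0 := by
      filter_upwards [(isClosed_tsupport f).isOpen_compl.mem_nhds h1] with y hy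
      rw [image_eq_zero_of_notMem_tsupport hy, mul_zero]
    exact continuousAt_const.congr h2.symm

/-- The cutoff vanishing near `K`. -/
noncomputable def th (K : Set E) (n : ℕ) (x : E) : ℝ := min 1 (max 0 (n * infDist x K - 1))

omit [InnerProductSpace ℝ E] [FiniteDimensional ℝ E] [CompleteSpace E] [MeasurableSpace E]
  [BorelSpace E] in
theorem th_nonneg (K : Set E) (n : ℕ) (x : E) : 0 ≤ th K n x :=
  le_min zero_le_one (le_max_left _ _)

omit [InnerProductSpace ℝ E] [FiniteDimensional ℝ E] [CompleteSpace E] [MeasurableSpace E]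
  [BorelSpace E] in
theorem th_le (K : Set E) (n : ℕ) (x : E) : th K n x ≤ 1 := min_le_left _ _

omit [InnerProductSpace ℝ E] [FiniteDimensional ℝ E] [CompleteSpace E] [MeasurableSpace E]
  [BorelSpace E] in
theorem th_lip (K : Set E) (n : ℕ) : LipschitzWith n (th K n) := by
  have h1 : LipschitzWith (n : ℝ≥0) (fun x : E => (n : ℝ) * infDist x K - 1) := by
    refine LipschitzWith.of_dist_le_mul fun x y => ?_
    have h2 := (lipschitz_infDist_pt K).dist_le_mul x y
    rw [Real.dist_eq] at h2 ⊢
    have h3 : (n : ℝ) * infDist x K - 1 - (n * infDist y K - 1) =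
        n * (infDist x K - infDist y K) := by ring
    rw [h3, abs_mul, abs_of_nonneg (Nat.cast_nonneg n)]
    simp only [NNReal.coe_one, one_mul] at h2
    simpa using mul_le_mul_of_nonneg_left h2 (Nat.cast_nonneg n : (0 : ℝ) ≤ n)
  exact (h1.const_max 0).const_min 1

omit [FiniteDimensional ℝ E] [CompleteSpace E] [MeasurableSpace E] [BorelSpace E] in
theorem lipC_mul {Ω : Set E} {φ θ : E → ℝ} (hφ : LipC Ω φ) {n : ℝ≥0} (hθ : LipschitzWith n θ)
    (h0 : ∀ x, 0 ≤ θ x) (h1 : ∀ x, θ x ≤ 1) : LipC Ω (fun x => φ x * θ x) := by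
  obtain ⟨⟨L, hL⟩, hc, hs⟩ := hφ
  obtain ⟨M, hM⟩ := hc.exists_bound_of_continuous hL.continuous
  have hM0 : 0 ≤ M := (norm_nonneg _).trans (hM 0)
  refine ⟨⟨L + M.toNNReal * n, LipschitzWith.of_dist_le_mul fun x y => ?_⟩, hc.mul_right, ?_⟩
  · have e1 := hL.dist_le_mul x y
    have e2 := hθ.dist_le_mul x y
    rw [Real.dist_eq] at e1 e2 ⊢
    have e3 : φ x * θ x - φ y * θ y = (φ x - φ y) * θ x + φ y * (θ x - θ y) := by ring
    have e4 : |(φ x - φ y) * θ x| ≤ |φ x - φ y| * 1 := by
      rw [abs_mul, abs_of_nonneg (h0 x)]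
      exact mul_le_mul_of_nonneg_left (h1 x) (abs_nonneg _)
    have e5 : |φ y * (θ x - θ y)| ≤ M * (n * dist x y) := by
      rw [abs_mul]
      exact mul_le_mul (hM y) e2 (abs_nonneg _) hM0
    rw [e3]
    refine (abs_add_le _ _).trans ?_
    have e6 : ((L + M.toNNReal * n : ℝ≥0) : ℝ) * dist x y = L * dist x y + M * (n * dist x y) := by
      push_cast
      rw [Real.coe_toNNReal M hM0]
      ring
    rw [e6]
    linarith
  · refine subset_trans (closure_mono ?_) hs
    intro x hx
    simp only [Function.mem_support, ne_eq, mul_eq_zero, not_or] at hx ⊢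
    exact hx.1

omit [FiniteDimensional ℝ E] [CompleteSpace E] [MeasurableSpace E] [BorelSpace E] in
theorem lipC_sub {Ω : Set E} {f g : E → ℝ} (hf : LipC Ω f) (hg : LipC Ω g) :
    LipC Ω (fun x => f x - g x) := by
  obtain ⟨⟨L, hL⟩, hc, hs⟩ := hf
  obtain ⟨⟨L', hL'⟩, hc', hs'⟩ := hg
  have h1 : tsupport (fun x => f x - g x) ⊆ tsupport f ∪ tsupport g := by
    refine closure_minimal ?_ ((isClosed_tsupport f).union (isClosed_tsupport g))
    intro x hx
    by_contra hn
    rw [Set.mem_union, not_or] at hn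
    exact hx (by simp [image_eq_zero_of_notMem_tsupport hn.1,
      image_eq_zero_of_notMem_tsupport hn.2])
  refine ⟨⟨L + L', hL.sub hL'⟩, ?_, h1.trans (union_subset hs hs')⟩
  exact IsCompact.of_isClosed_subset (IsCompact.union hc hc') (isClosed_tsupport _) h1

end SuperAux

open SuperAux in
theorem superD_of {p lam δ : ℝ} (hp : 1 < p) (hδ : 0 ≤ δ) {Ω : Set E} {v : E → ℝ}
    (hv : Reg Ω v)
    (h : ∀ f : E → ℝ, LipC {x | x ∈ Ω ∧ gradient v x ≠ 0} f →
      XF p v f = ∫ x, (lam + δ * v x + (p - 1) * ‖gradient v x‖ ^ p) * f x)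
    (h0 : volume {x | x ∈ Ω ∧ gradient v x = 0} = 0) : SuperD p lam δ Ω v := by
  intro φ hφ hφ0
  set K : Set E := {x | x ∈ Ω ∧ gradient v x = 0} with hK
  set c : E → ℝ := fun x => lam + δ * v x + (p - 1) * ‖gradient v x‖ ^ p with hc
  change ∫ x, c x * φ x ≤ XF p v φ
  rcases K.eq_empty_or_nonempty with hKe | hKne
  · have hΩ : LipC {x | x ∈ Ω ∧ gradient v x ≠ 0} φ := by
      refine ⟨hφ.1, hφ.2.1, fun x hx => ⟨hφ.2.2 hx, fun hx0 => ?_⟩⟩
      have : x ∈ K := ⟨hφ.2.2 hx, hx0⟩
      rw [hKe] at this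
      exact this
    exact (h φ hΩ).ge
  have hgrad : ContinuousOn (gradient v) Ω := by
    have h1 := hv.c1.continuousOn_fderiv_of_isOpen hv.isOpen le_rfl
    exact (InnerProductSpace.toDual ℝ E).symm.continuous.comp_continuousOn h1
  have hcc : ContinuousOn c Ω := by
    refine (continuousOn_const.add (continuousOn_const.mul hv.c1.continuousOn)).add
      (continuousOn_const.mul ?_)
    exact hgrad.norm.rpow_const fun x _ => Or.inr (by linarith)
  have hlip : ∀ n : ℕ, LipC Ω (fun x => φ x * th K n x) := fun n =>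
    lipC_mul hφ (th_lip K n) (th_nonneg K n) (th_le K n)
  have hlip' : ∀ n : ℕ, LipC {x | x ∈ Ω ∧ gradient v x ≠ 0} (fun x => φ x * th K n x) := by
    intro n
    refine ⟨(hlip n).1, (hlip n).2.1, fun x hx => ⟨(hlip n).2.2 hx, fun hx0 => ?_⟩⟩
    have hxK : x ∈ K := ⟨(hlip n).2.2 hx, hx0⟩
    have hcl : IsClosed {y : E | 1 ≤ (n : ℝ) * infDist y K} :=
      isClosed_le continuous_const (continuous_const.mul (continuous_infDist_pt _))
    have hsub : tsupport (fun x => φ x * th K n x) ⊆ {y : E | 1 ≤ (n : ℝ) * infDist y K} := by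
      refine closure_minimal (fun y hy => ?_) hcl
      by_contra hn
      simp only [Set.mem_ofPred_eq, not_le] at hn
      apply hy
      have : th K n y = 0 := by
        unfold th
        rw [max_eq_left (by linarith), min_eq_right zero_le_one]
      simp [this]
    have h2 := hsub hx
    simp only [Set.mem_ofPred_eq, infDist_zero_of_mem hxK, mul_zero] at h2
    linarith
  have key : ∀ n : ℕ, ∫ x, c x * (φ x * th K n x) ≤ XF p v φ := by
    intro n
    have e1 := h _ (hlip' n)
    have e2 := XF_nonneg hp hv.isOpen hv.cvx (lipC_sub hφ (hlip n)) (fun x => by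
      have := mul_le_mul_of_nonneg_left (th_le K n x) (hφ0 x)
      linarith)
    rw [XF_sub hp hv.isOpen hv.cvx hφ (hlip n)] at e2
    change XF p v _ = ∫ x, c x * (φ x * th K n x) at e1
    linarith
  have hcφ : Continuous (fun x => c x * φ x) := cont_mul hv.isOpen hcc hφ
  have hint : Integrable (fun x => c x * φ x) :=
    hcφ.integrable_of_hasCompactSupport hφ.2.1.mul_left
  have hlim : Tendsto (fun n : ℕ => ∫ x, c x * (φ x * th K n x)) atTop
      (𝓝 (∫ x, c x * φ x)) := by
    refine tendsto_integral_of_dominated_convergence (fun x => ‖c x * φ x‖)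
      (fun n => (cont_mul hv.isOpen hcc (hlip n)).aestronglyMeasurable) hint.norm
      (fun n => Eventually.of_forall fun x => ?_) ?_
    · rw [← mul_assoc, norm_mul, Real.norm_eq_abs (th K n x), abs_of_nonneg (th_nonneg K n x)]
      exact mul_le_of_le_one_right (norm_nonneg _) (th_le K n x)
    · have h1 : ∀ᵐ x, x ∉ K := measure_eq_zero_iff_ae_notMem.1 h0
      filter_upwards [h1] with x hx
      by_cases hxΩ : x ∈ Ω
      · have hg0 : gradient v x ≠ 0 := fun h2 => hx ⟨hxΩ, h2⟩
        have hcl : x ∉ closure K := by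
          intro hxc
          have h2 : ∀ᶠ y in 𝓝 x, gradient v y ≠ 0 :=
            (hgrad.continuousAt (hv.isOpen.mem_nhds hxΩ)).eventually_ne hg0
          have h3 : ∃ᶠ y in 𝓝 x, y ∈ K := mem_closure_iff_frequently.1 hxc
          obtain ⟨y, hy1, hy2⟩ := (h3.and_eventually h2).exists
          exact hy2 hy1.2
        have hpos : 0 < infDist x K := (infDist_pos_iff_notMem_closure hKne).1 hcl
        have hT : Tendsto (fun n : ℕ => (n : ℝ) * infDist x K) atTop atTop :=
          tendsto_natCast_atTop_atTop.atTop_mul_const hpos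
        refine tendsto_const_nhds.congr' ?_
        filter_upwards [hT.eventually_ge_atTop 2] with n hn
        have : th K n x = 1 := by
          unfold th
          rw [min_eq_left]
          exact le_max_of_le_right (by linarith)
        rw [this, mul_one]
      · have : φ x = 0 := image_eq_zero_of_notMem_tsupport fun h2 => hxΩ (hφ.2.2 h2)
        simp [this]
  exact le_of_tendsto' hlim key

end PLap
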