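import Pool.Agent.Lib.MP_a627f3_an.ConvA
import Pool.Agent.Lib.MP_a627f3_an.Exist
import Pool.Agent.Lib.MP_a627f3_an.Corner
import Pool.Agent.Lib.MP_a627f3_an.Bounds
import Pool.Agent.Lib.MP_a627f3_an.Sign
import Pool.Agent.Lib.MP_a627f3_an.Diff2
import Pool.Agent.Lib.MP_a627f3_an.Interior
import Pool.Agent.Lib.MP_a627f3_an.Crit
import Pool.Agent.Lib.MP_a627f3_an.Super
import Pool.Agent.Lib.MP_a627f3_an.PolyB

open MeasureTheory Set Filter Topology Metric
open scoped RealInnerProductSpace ENNReal NNReal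

namespace PLap

set_option linter.unusedSectionVars false

variable {E : Type*} [NormedAddCommGroup E] [InnerProductSpace ℝ E] [FiniteDimensional ℝ E]
  [CompleteSpace E] [MeasurableSpace E] [BorelSpace E]

variable {ι : Type*} [Fintype ι] {n : ι → E} {c : ι → ℝ}

theorem isOpen_Pol : IsOpen (Pol n c) := by
  have : Pol n c = ⋂ i, {x | 0 < ⟪n i, x⟫ + c i} := by ext x; simp [Pol]
  rw [this]
  exact isOpen_iInter_of_finite fun i => isOpen_lt continuous_const (by fun_prop)

theorem convex_Pol : Convex ℝ (Pol n c) := by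
  intro x hx y hy a b ha hb hab i
  have h1 := hx i
  have h2 := hy i
  rw [inner_add_right, inner_smul_right, inner_smul_right]
  have : a * ⟪n i, x⟫ + b * ⟪n i, y⟫ + c i = a * (⟪n i, x⟫ + c i) + b * (⟪n i, y⟫ + c i) := by
    have : c i = (a + b) * c i := by rw [hab, one_mul]
    nth_rewrite 1 [this]; ring
  rw [this]
  rcases eq_or_lt_of_le ha with h | h
  · have : b = 1 := by linarith
    rw [← h, this]; linarith
  · have := mul_pos h h1
    have := mul_nonneg hb h2.le
    linarith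

/-- If `w = v` off a compact set and `v` has finite energy, so has `w`. -/
theorem fin_of_eq_off {p : ℝ} (hp : 1 < p) {Ω : Set E} (hΩ : IsOpen Ω) {v w : E → ℝ}
    (hw : ConvexOn ℝ Ω w)
    (hfin : IntegrableOn (fun x => ‖gradient v x‖ ^ p * Real.exp (-p * v x)) Ω)
    {K : Set E} (hK : IsCompact K) (hKΩ : K ⊆ Ω) (h : ∀ x ∈ Ω \ K, w x = v x) :
    IntegrableOn (fun x => ‖gradient w x‖ ^ p * Real.exp (-p * w x)) Ω := by
  have hopen : IsOpen (Ω \ K) := hΩ.sdiff hK.isClosed
  have h1 : IntegrableOn (fun x => ‖gradient w x‖ ^ p * Real.exp (-p * w x)) (Ω \ K) := by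
    refine (hfin.mono_set sdiff_subset).congr_fun ?_ hopen.measurableSet
    intro x hx
    have he : w =ᶠ[𝓝 x] v := by
      filter_upwards [hopen.mem_nhds hx] with y hy using h y hy
    simp only
    rw [he.gradient_eq, h x hx]
  have h2 : IntegrableOn (fun x => ‖gradient w x‖ ^ p * Real.exp (-p * w x)) K := by
    obtain ⟨L, hL1, hL2⟩ := exists_lip_compact hΩ hw hK hKΩ
    have hmeas : AEStronglyMeasurable (fun x => ‖gradient w x‖ ^ p * Real.exp (-p * w x))
        (volume.restrict K) := by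
      have hg : Measurable (gradient w) := by
        have := measurable_fderiv ℝ w
        exact (InnerProductSpace.toDual ℝ E).symm.continuous.measurable.comp this
      have hwm : AEStronglyMeasurable w (volume.restrict K) :=
        ((hw.continuousOn hΩ).mono hKΩ).aestronglyMeasurable hK.measurableSet
      exact ((hg.norm.pow_const p).aestronglyMeasurable).mul
        (Real.continuous_exp.comp_aestronglyMeasurable (hwm.const_mul (-p)))
    refine IntegrableOn.of_bound hK.measure_lt_top hmeas (|L| ^ p * Real.exp (p * |L|)) ?_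
    filter_upwards [ae_restrict_mem hK.measurableSet] with x hx
    rw [Real.norm_of_nonneg (by positivity)]
    have a1 : ‖gradient w x‖ ≤ |L| := (hL1 x hx).trans (le_abs_self L)
    have a2 : -p * w x ≤ p * |L| := by
      have := neg_abs_le (w x)
      have := (hL2 x hx).trans (le_abs_self L)
      nlinarith
    exact mul_le_mul (Real.rpow_le_rpow (norm_nonneg _) a1 (by linarith)) (Real.exp_le_exp.mpr a2)
      (Real.exp_pos _).le (by positivity)
  have : Ω = (Ω \ K) ∪ K := by rw [sdiff_union_of_subset hKΩ]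
  rw [this]
  exact h1.union h2

theorem coercive_lowB (hb : Bornology.IsBounded (Pol n c)) {w : ℝ} (hw : 0 < w) (M : ℝ) :
    ∃ K : Set E, IsCompact K ∧ K ⊆ Pol n c ∧ ∀ x ∈ Pol n c \ K, ∃ i, M ≤ LowB n c w i x := by
  set s := w * Real.exp (-2 * M) with hs
  have hs0 : 0 < s := by positivity
  refine ⟨{x | ∀ i, s ≤ ⟪n i, x⟫ + c i}, ?_, ?_, ?_⟩
  · have hsub : {x | ∀ i, s ≤ ⟪n i, x⟫ + c i} ⊆ Pol n c := fun x hx i => hs0.trans_le (hx i)
    refine Metric.isCompact_of_isClosed_isBounded ?_ (hb.subset hsub)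
    have : {x | ∀ i, s ≤ ⟪n i, x⟫ + c i} = ⋂ i, {x | s ≤ ⟪n i, x⟫ + c i} := by ext x; simp
    rw [this]
    exact isClosed_iInter fun i => isClosed_le continuous_const (by fun_prop)
  · exact fun x hx i => hs0.trans_le (hx i)
  · rintro x ⟨hx, hxK⟩
    simp only [mem_ofPred_eq, not_forall, not_le] at hxK
    obtain ⟨i, hi⟩ := hxK
    refine ⟨i, ?_⟩
    have hxi := hx i
    unfold LowB
    have h1 : Real.exp (2 * M) ≤ w / (⟪n i, x⟫ + c i) := by
      rw [le_div_iff₀ hxi]
      have : Real.exp (2 * M) * s = w := by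
        rw [hs, mul_comm w, ← mul_assoc, ← Real.exp_add]; norm_num
      have h3 : Real.exp (2 * M) * (⟪n i, x⟫ + c i) ≤ Real.exp (2 * M) * s :=
        mul_le_mul_of_nonneg_left hi.le (Real.exp_pos _).le
      linarith
    have h2 := Real.log_le_log (Real.exp_pos _) h1
    rw [Real.log_exp] at h2
    linarith

theorem thmA (hn : ∀ i, ‖n i‖ = 1)
    (hb : Bornology.IsBounded (Pol n c)) (hne : (Pol n c).Nonempty) {p δ w : ℝ} (hp : 1 < p)
    (hδ : 0 < δ) (hw : 0 < w) {lm : ℝ}
    (hlm : lm = lam p (Pol n c) - δ * (Module.finrank ℝ E + 2) / p) (hlm0 : 0 < lm)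
    (hw2 : ∀ s ∈ Ioo (0:ℝ) w,
      lm + δ / 2 * Real.log (w / s) < (p - 1) * (2 : ℝ) ^ (-p) * s ^ (-p)) :
    ∃ v : E → ℝ, Reg (Pol n c) v ∧ SuperD p lm δ (Pol n c) v ∧ (∀ x ∈ Pol n c, 1 / p < v x) ∧
      (∀ x ∈ Pol n c, ∀ i, LowB n c w i x ≤ v x) ∧
      IntegrableOn (fun x => ‖gradient v x‖ ^ p * Real.exp (-p * v x)) (Pol n c) ∧
      Jf p lm δ (Pol n c) v < 0 := by
  have hO : IsOpen (Pol n c) := isOpen_Pol
  have hC : Convex ℝ (Pol n c) := convex_Pol
  have hp0 : 0 < p := by linarith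
  -- constants
  obtain ⟨T₁, hT₁⟩ := psiB_adm hn hb hne hp hw
  obtain ⟨T₂, hT₂⟩ := psiB_neg hn hb hne hp hδ lm
  set τ := max T₁ T₂ with hτ
  have hJτ : Jf p lm δ (Pol n c) (PsiB n c τ) < 0 := hT₂ τ (le_max_right _ _)
  set c₀ := - Jf p lm δ (Pol n c) (PsiB n c τ) with hc₀
  have hc₀pos : 0 < c₀ := by linarith
  obtain ⟨D, hD⟩ := hb.exists_norm_le
  have hD0 : 0 ≤ D := by
    obtain ⟨x, hx⟩ := hne
    exact (norm_nonneg x).trans (hD x hx)
  set ρ := 1 / (2 * D + 1) with hρ
  have hρ0 : 0 < ρ := by positivity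
  obtain ⟨T₃, hT₃⟩ := psiB_sub hn hb hne hp hδ hρ0 lm
  have hvol : volume (Pol n c) < ⊤ := hb.measure_lt_top
  -- T₄
  have hlim : Tendsto (fun s : ℝ => (lm + δ / p + δ * s) * Real.exp (-p * s)) atTop (𝓝 0) := by
    have h1 : Tendsto (fun s : ℝ => Real.exp (-p * s)) atTop (𝓝 0) := by
      apply Real.tendsto_exp_atBot.comp
      exact tendsto_id.const_mul_atTop_of_neg (by linarith)
    have h2 : Tendsto (fun s : ℝ => s * Real.exp (-p * s)) atTop (𝓝 0) := by
      have := Real.tendsto_pow_mul_exp_neg_atTop_nhds_zero 1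
      have h3 := (this.comp (tendsto_id.const_mul_atTop hp0)).const_mul (1 / p)
      simp only [mul_zero] at h3
      refine h3.congr (fun s => ?_)
      simp only [Function.comp_apply, pow_one, id]
      rw [neg_mul]
      field_simp
    have := (h1.const_mul (lm + δ / p)).add (h2.const_mul δ)
    simp only [mul_zero, add_zero] at this
    refine this.congr (fun s => ?_)
    ring
  set V := (volume (Pol n c)).toReal with hV
  have hV0 : 0 ≤ V := ENNReal.toReal_nonneg
  have hT₄ : ∃ T₄ : ℝ, ∀ s ≥ T₄, (lm + δ / p + δ * s) * Real.exp (-p * s) ≤ c₀ / (2 * (V + 1)) := by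
    have := hlim.eventually (gt_mem_nhds (show (0:ℝ) < c₀ / (2 * (V + 1)) by positivity))
    obtain ⟨T₄, h4⟩ := eventually_atTop.mp this
    exact ⟨T₄, fun s hs => (h4 s hs).le⟩
  obtain ⟨T₄, hT₄⟩ := hT₄
  set T := max (max τ T₃) (T₄ + 1) with hTdef
  have hTτ : τ ≤ T := (le_max_left _ _).trans (le_max_left _ _)
  have hTT₃ : T₃ ≤ T := (le_max_right _ _).trans (le_max_left _ _)
  have hTT₄ : T₄ + 1 ≤ T := le_max_right _ _
  have hadm0 : Adm p (Pol n c) (LowB n c w) (PsiB n c T) (PsiB n c τ) :=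
    hT₁ τ (le_max_left _ _) T hTτ
  obtain ⟨v, hv, hmin⟩ := exists_min (lam := lm) hp hδ.le hO hC hb ⟨_, hadm0⟩
  have hJv : Jf p lm δ (Pol n c) v ≤ - c₀ := by
    have := hmin _ hadm0
    rw [hc₀, neg_neg]; exact this
  have hcoer : ∀ M : ℝ, ∃ K : Set E, IsCompact K ∧ K ⊆ Pol n c ∧ ∀ x ∈ Pol n c \ K, M ≤ v x := by
    intro M
    obtain ⟨K, h1, h2, h3⟩ := coercive_lowB hb hw M
    refine ⟨K, h1, h2, fun x hx => ?_⟩
    obtain ⟨i, hi⟩ := h3 x hx
    exact hi.trans (hv.lo i x hx.1)
  have hΨ2 : ContDiffOn ℝ 2 (PsiB n c T) (Pol n c) := contDiffOn_PsiB T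
  have hΨd : ∀ x ∈ Pol n c, DifferentiableAt ℝ (PsiB n c T) x := fun x hx =>
    (hΨ2.contDiffAt (hO.mem_nhds hx)).differentiableAt (by norm_num)
  have hdiff : ∀ x ∈ Pol n c, DifferentiableAt ℝ v x := by
    refine corner (lam := lm) (δ := δ) hp hδ.le hO hC hb hv.cvx hv.nn hv.up hΨd hv.fin hcoer ?_
    rintro u hu huv huΨ ⟨K, hK, hKP, hKe⟩
    refine hmin u ⟨hu, fun x hx => (hv.nn x hx).trans (huv x hx),
      fun i x hx => (hv.lo i x hx).trans (huv x hx), huΨ, fin_of_eq_off hp hO hu hv.fin hK hKP hKe⟩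
  have hreg : Reg (Pol n c) v :=
    ⟨hO, hC, hb, hne, hv.cvx, contDiffOn_of_differentiable hO hv.cvx hdiff, hcoer⟩
  have hJneg : Jf p lm δ (Pol n c) v < 0 := by linarith
  have hvmin : ∀ x ∈ Pol n c, 1 / p < v x := by
    refine vmin_gt hp hδ hreg hv.nn hv.fin ?_
    rw [← hlm]; exact hJneg
  have hpos : ∃ c' > 0, ∀ x ∈ Pol n c, c' ≤ v x := ⟨1 / p, by positivity, fun x hx => (hvmin x hx).le⟩
  -- a point where v is small
  have hsmall : ∃ x₁ ∈ Pol n c, v x₁ < T - 1 := by
    by_contra hcon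
    push Not at hcon
    have hcont : ContinuousOn v (Pol n c) := hv.cvx.continuousOn hO
    have hbd : ∀ x ∈ Pol n c, (lm + δ / p + δ * v x) * Real.exp (-p * v x) ≤ c₀ / (2 * (V + 1)) :=
      fun x hx => hT₄ _ (by have := hcon x hx; linarith)
    have hi2 : IntegrableOn (fun x => (lm + δ / p + δ * v x) * Real.exp (-p * v x)) (Pol n c) := by
      refine IntegrableOn.of_bound hvol ?_ (c₀ / (2 * (V + 1))) ?_
      · exact (((continuousOn_const.add (continuousOn_const.mul hcont)).mul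
          (Real.continuous_exp.comp_continuousOn (continuousOn_const.mul hcont)))).aestronglyMeasurable
          hO.measurableSet
      · filter_upwards [ae_restrict_mem hO.measurableSet] with x hx
        have h0 := hv.nn x hx
        rw [Real.norm_of_nonneg (by positivity)]
        exact hbd x hx
    have hJ : Jf p lm δ (Pol n c) v = (∫ x in Pol n c, ‖gradient v x‖ ^ p * Real.exp (-p * v x)) -
        ∫ x in Pol n c, (lm + δ / p + δ * v x) * Real.exp (-p * v x) := by
      unfold Jf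
      rw [← integral_sub hv.fin hi2]
      congr 1
      ext x; ring
    have h1 : 0 ≤ ∫ x in Pol n c, ‖gradient v x‖ ^ p * Real.exp (-p * v x) :=
      integral_nonneg fun x => by positivity
    have h2 : ∫ x in Pol n c, (lm + δ / p + δ * v x) * Real.exp (-p * v x) ≤
        ∫ x in Pol n c, c₀ / (2 * (V + 1)) :=
      setIntegral_mono_on hi2 (integrableOn_const hvol.ne) hO.measurableSet hbd
    rw [setIntegral_const, smul_eq_mul, measureReal_def, ← hV] at h2
    have h3 : V * (c₀ / (2 * (V + 1))) ≤ c₀ / 2 := by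
      rw [mul_div_assoc', div_le_div_iff₀ (by positivity) (by norm_num)]
      nlinarith
    linarith
  obtain ⟨x₁, hx₁, hx₁v⟩ := hsmall
  have hsub : TouchSub p lm δ (Pol n c) v (PsiB n c T) := by
    intro x hx hxe
    have hgr : gradient (PsiB n c T) x = gradient v x := by
      have hloc : IsLocalMin (fun y => PsiB n c T y - v y) x := by
        filter_upwards [hO.mem_nhds hx] with y hy
        have h1 := hv.up y hy
        show PsiB n c T x - v x ≤ PsiB n c T y - v y
        linarith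
      have h0 := hloc.fderiv_eq_zero
      have h1 : fderiv ℝ (fun y => PsiB n c T y - v y) x =
          fderiv ℝ (PsiB n c T) x - fderiv ℝ v x := fderiv_fun_sub (hΨd x hx) (hdiff x hx)
      rw [h1, sub_eq_zero] at h0
      unfold gradient
      rw [h0]
    have hΨT : T ≤ PsiB n c T x := by
      unfold PsiB
      have : 0 ≤ ∑ i, (⟪n i, x⟫ + c i)⁻¹ := Finset.sum_nonneg fun i _ => (inv_pos.mpr (hx i)).le
      linarith
    have ht := tangent_le hv.cvx hx (hdiff x hx) hx₁
    have h1 : 1 ≤ ⟪gradient v x, x - x₁⟫ := by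
      have : ⟪gradient v x, x₁ - x⟫ = - ⟪gradient v x, x - x₁⟫ := by
        rw [← inner_neg_right, neg_sub]
      linarith
    have h2 : ‖x - x₁‖ ≤ 2 * D := by
      have := norm_sub_le x x₁
      have := hD x hx
      have := hD x₁ hx₁
      linarith
    have h3 : 1 ≤ ‖gradient v x‖ * (2 * D + 1) := by
      calc (1:ℝ) ≤ ⟪gradient v x, x - x₁⟫ := h1
        _ ≤ ‖gradient v x‖ * ‖x - x₁‖ := real_inner_le_norm _ _
        _ ≤ ‖gradient v x‖ * (2 * D + 1) := by
            apply mul_le_mul_of_nonneg_left (by linarith) (norm_nonneg _)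
    have h4 : ρ ≤ ‖gradient (PsiB n c T) x‖ := by
      rw [hgr, hρ, div_le_iff₀ (by positivity)]
      exact h3
    refine ⟨?_, hT₃ T hTT₃ x hx h4⟩
    intro h0
    rw [h0, norm_zero] at h4
    linarith
  have hsup : ∀ i, TouchSup p lm δ (Pol n c) v (LowB n c w i) := by
    intro i x hx hxe
    have hvx := hvmin x hx
    have h1p : 0 < 1 / p := by positivity
    have hL : 0 < LowB n c w i x := by rw [← hxe]; linarith
    have hℓ := hx i
    have hlt : ⟪n i, x⟫ + c i < w := by
      by_contra hcon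
      push Not at hcon
      have : w / (⟪n i, x⟫ + c i) ≤ 1 := (div_le_one hℓ).mpr hcon
      have h5 := Real.log_nonpos (by positivity) this
      unfold LowB at hL
      linarith
    exact lowB_sup hn hp hw hw2 i hx hlt
  have hB2 : ∀ i, ContDiffOn ℝ 2 (LowB n c w i) (Pol n c) := fun i => contDiffOn_LowB hw i
  have hELQ := elq_of_min hp hδ.le hreg hv hmin hB2 hΨ2 hpos hsub hsup
  have hELK := elk_of_min hp hδ.le hreg hv hmin hB2 hΨ2 hpos hsub hsup
  have hW := w22_of_elq hp hδ.le hreg hELQ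
  have hcrit := crit_null hp hδ.le hreg hELK (fun x hx => by
    have := hv.nn x hx; positivity)
  exact ⟨v, hreg, superD_of hp hδ.le hreg (fun f hf => interior_eq hp hδ.le hreg hELQ hW hf) hcrit,
    hvmin, fun x hx i => hv.lo i x hx, hv.fin, hJneg⟩

end PLap
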