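import Pool.Agent.Lib.MP_a627f3_an.MainIneq
import Pool.Agent.Lib.MP_a627f3_an.ThmA
import Pool.Agent.Lib.MP_a627f3_an.OneD
import Pool.Agent.Lib.MP_a627f3_an.SlabA
import Pool.Agent.Lib.MP_a627f3_an.SlabB
import Pool.Agent.Lib.MP_a627f3_an.FinVol
import Pool.Agent.Lib.MP_a627f3_an.Approx

open MeasureTheory Set Filter Topology Metric
open scoped RealInnerProductSpace ENNReal NNReal

namespace PLap

set_option linter.unusedSectionVars false

variable {E : Type*} [NormedAddCommGroup E] [InnerProductSpace ℝ E] [FiniteDimensional ℝ E]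
  [CompleteSpace E] [MeasurableSpace E] [BorelSpace E]

theorem exists_w {p : ℝ} (hp : 1 < p) (A : ℝ) : ∃ w > 0, ∀ lm ≤ A, ∀ δ, 0 ≤ δ → δ ≤ 1 →
    ∀ s ∈ Ioo (0:ℝ) w, lm + δ / 2 * Real.log (w / s) < (p - 1) * (2 : ℝ) ^ (-p) * s ^ (-p) := by
  set B := |A| + 1 with hB
  have hB0 : 0 < B := by positivity
  set k := (p - 1) * (2 : ℝ) ^ (-p) with hk
  have hk0 : 0 < k := by
    have : 0 < p - 1 := by linarith
    positivity
  -- w^{-p} = B / k
  refine ⟨(B / k) ^ (-(1 / p)), by positivity, ?_⟩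
  set w := (B / k) ^ (-(1 / p)) with hw
  have hw0 : 0 < w := by positivity
  have hwp : w ^ (-p) = B / k := by
    rw [hw, ← Real.rpow_mul (by positivity)]
    have : -(1 / p) * -p = 1 := by field_simp
    rw [this, Real.rpow_one]
  intro lm hlm δ hδ0 hδ1 s hs
  have hs0 : 0 < s := hs.1
  have hL : 0 ≤ Real.log (w / s) := Real.log_nonneg (by rw [le_div_iff₀ hs0]; linarith [hs.2])
  have h1 : s ^ (-p) = w ^ (-p) * (w / s) ^ p := by
    rw [Real.div_rpow hw0.le hs0.le, Real.rpow_neg hw0.le, Real.rpow_neg hs0.le]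
    field_simp
  have h2 : 1 + p * Real.log (w / s) ≤ (w / s) ^ p := by
    rw [Real.rpow_def_of_pos (by positivity), mul_comm p]
    have := Real.add_one_le_exp (Real.log (w / s) * p)
    linarith
  have h3 : k * s ^ (-p) = B * (w / s) ^ p := by
    rw [h1, hwp]; field_simp
  rw [h3]
  have h4 : B * (1 + p * Real.log (w / s)) ≤ B * (w / s) ^ p :=
    mul_le_mul_of_nonneg_left h2 hB0.le
  have h5 : δ / 2 * Real.log (w / s) ≤ B * (p * Real.log (w / s)) := by
    have : δ / 2 ≤ B * p := by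
      have h6 : (1:ℝ) ≤ B := by rw [hB]; linarith [abs_nonneg A]
      nlinarith
    calc δ / 2 * Real.log (w / s) ≤ (B * p) * Real.log (w / s) := mul_le_mul_of_nonneg_right this hL
      _ = _ := by ring
  have h7 : lm < B := by rw [hB]; linarith [le_abs_self A]
  linarith

theorem Lam_mono {p q : ℝ} (hp : 1 < p) (hq : 1 < q) {a b : ℝ} (ha : 0 ≤ a) (hab : a ≤ b) :
    Lam p q a ≤ Lam p q b := by
  unfold Lam
  have h1 := Tp_pos hp
  have h2 := Tp_pos hq
  have h3 : a ^ (1 / p) ≤ b ^ (1 / p) := Real.rpow_le_rpow ha hab (by positivity)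
  apply Real.rpow_le_rpow (by positivity) _ (by linarith)
  gcongr

theorem Lam_continuousAt {p q : ℝ} (hp : 1 < p) (hq : 1 < q) {a : ℝ} (ha : 0 < a) :
    ContinuousAt (Lam p q) a := by
  unfold Lam
  have h1 := Tp_pos hp
  have h2 := Tp_pos hq
  have h3 : ContinuousAt (fun a : ℝ => a ^ (1 / p)) a :=
    continuousAt_id.rpow_const (Or.inl ha.ne')
  exact ((continuousAt_const.mul h3).div_const _).rpow_const (Or.inr (by linarith))

theorem lam_pos [Nontrivial E] {p : ℝ} (hp : 1 < p) {Ω : Set E} (hΩ : IsOpen Ω)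
    (hne : Ω.Nonempty) (hb : Bornology.IsBounded Ω) : 0 < lam p Ω := by
  obtain ⟨e, he⟩ := exists_norm_eq E (zero_le_one)
  obtain ⟨D, hD⟩ := hb.exists_norm_le
  have hD0 : 0 ≤ D := by
    obtain ⟨x, hx⟩ := hne
    exact (norm_nonneg x).trans (hD x hx)
  have h := lam_ge_width hp hΩ hne he (a := -(D + 1)) (W := 2 * (D + 1)) (by positivity) (by
    intro x hx
    have h1 : |⟪e, x⟫| ≤ D := by
      calc |⟪e, x⟫| ≤ ‖e‖ * ‖x‖ := abs_real_inner_le_norm _ _
        _ ≤ D := by rw [he, one_mul]; exact hD x hx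
    have := abs_le.mp h1
    constructor <;> linarith)
  have := Tp_pos hp
  exact lt_of_lt_of_le (by positivity) h

theorem superD_isSuper {p lm δ : ℝ} {Ω : Set E} {v : E → ℝ} (hp : 1 < p) (hv : Reg Ω v)
    (hδ : 0 ≤ δ) {m : ℝ} (h0 : ∀ x ∈ Ω, m ≤ v x) (h : SuperD p lm δ Ω v) :
    IsSuper p Ω (lm + δ * m) v := by
  intro φ hφ hφ0
  refine le_trans ?_ (h φ hφ hφ0)
  have hcφ : Continuous φ := by obtain ⟨⟨K, hK⟩, -⟩ := hφ; exact hK.continuous
  have hgp : ContinuousOn (fun x => ‖gradient v x‖ ^ p) Ω :=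
    hv.continuousOn_gradient.norm.rpow_const (fun _ _ => Or.inr (by linarith))
  have hvc : ContinuousOn v Ω := hv.c1.continuousOn
  apply integral_mono
  · exact integrable_mul_of_continuousOn hv.isOpen
      (F := fun x => lm + δ * m + (p - 1) * ‖gradient v x‖ ^ p)
      (continuousOn_const.add (continuousOn_const.mul hgp)) hcφ hφ.2.1 hφ.2.2
  · exact integrable_mul_of_continuousOn hv.isOpen
      (F := fun x => lm + δ * v x + (p - 1) * ‖gradient v x‖ ^ p)
      ((continuousOn_const.add (continuousOn_const.mul hvc)).add (continuousOn_const.mul hgp))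
      hcφ hφ.2.1 hφ.2.2
  · intro x
    show (lm + δ * m + (p - 1) * ‖gradient v x‖ ^ p) * φ x ≤
      (lm + δ * v x + (p - 1) * ‖gradient v x‖ ^ p) * φ x
    by_cases hx : x ∈ Ω
    · apply mul_le_mul_of_nonneg_right _ (hφ0 x)
      have := mul_le_mul_of_nonneg_left (h0 x hx) hδ
      linarith
    · have : φ x = 0 := image_eq_zero_of_notMem_tsupport (fun h => hx (hφ.2.2 h))
      rw [this, mul_zero, mul_zero]

theorem main_poly [Nontrivial E] {ι : Type*} [Fintype ι] {n : ι → E} {c : ι → ℝ}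
    (hn : ∀ i, ‖n i‖ = 1) (hb : Bornology.IsBounded (Pol n c)) (hne : (Pol n c).Nonempty)
    {p q : ℝ} (hq : 1 < q) (hqp : q < p) :
    Lam p q (lam p (Pol n c)) ≤ lam q (Pol n c) := by
  have hp : 1 < p := hq.trans hqp
  have hpos := lam_pos hp isOpen_Pol hne hb
  set l := lam p (Pol n c) with hl
  obtain ⟨w, hw0, hw⟩ := exists_w hp l
  set k : ℝ := ((Module.finrank ℝ E : ℝ) + 2) / p with hk
  have hk0 : 0 < k := by positivity
  have hlim : Tendsto (fun δ : ℝ => l - δ * k) (𝓝[>] 0) (𝓝 l) := by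
    have : Tendsto (fun δ : ℝ => l - δ * k) (𝓝 0) (𝓝 (l - 0 * k)) := by
      apply Continuous.tendsto; fun_prop
    rw [zero_mul, sub_zero] at this
    exact this.mono_left nhdsWithin_le_nhds
  have h1 : Tendsto (fun δ : ℝ => Lam p q (l - δ * k)) (𝓝[>] 0) (𝓝 (Lam p q l)) :=
    (Lam_continuousAt hp hq hpos).tendsto.comp hlim
  refine le_of_tendsto h1 ?_
  have e1 : ∀ᶠ δ : ℝ in 𝓝[>] 0, 0 < l - δ * k := hlim.eventually (lt_mem_nhds hpos)
  have e2 : ∀ᶠ δ : ℝ in 𝓝[>] 0, δ < 1 := (gt_mem_nhds one_pos).filter_mono nhdsWithin_le_nhds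
  filter_upwards [e1, e2, self_mem_nhdsWithin] with δ h2 h3 h4
  have h4' : (0:ℝ) < δ := h4
  obtain ⟨v, hreg, hsup, hv1, -, -, -⟩ := thmA (lm := l - δ * k) hn hb hne hp h4' hw0
    (by rw [hk]; ring) h2 (hw _ (by nlinarith) δ h4'.le h3.le)
  have h5 := superD_isSuper hp hreg h4'.le (m := 0) (fun x hx => by
    have := hv1 x hx
    have : 0 < 1 / p := by positivity
    linarith) hsup
  rw [mul_zero, add_zero] at h5
  exact lam_ge_of_super hq hqp h2 hreg h5

theorem main_ineq [Nontrivial E] {Ω : Set E} (hΩ : IsOpen Ω) (hcv : Convex ℝ Ω)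
    (hb : Bornology.IsBounded Ω) (hne : Ω.Nonempty) {p q : ℝ} (hq : 1 < q) (hqp : q < p) :
    Lam p q (lam p Ω) ≤ lam q Ω := by
  have hp : 1 < p := hq.trans hqp
  refine le_lam hq hΩ hne ?_
  intro u hu
  obtain ⟨x₀, hx₀⟩ := hu.2.2.2
  have hKne : (tsupport u).Nonempty := ⟨x₀, subset_tsupport u hx₀⟩
  obtain ⟨m, n, c, hn, hKP, hPΩ⟩ := exists_pol hΩ hcv hb hu.2.1 hu.2.2.1 hKne
  have hPne : (Pol n c).Nonempty := hKne.mono hKP
  have hPb : Bornology.IsBounded (Pol n c) := hb.subset hPΩ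
  have h1 := main_poly hn hPb hPne hq hqp
  have h2 : lam p Ω ≤ lam p (Pol n c) := lam_mono hp isOpen_Pol hPne hPΩ
  have h3 := Lam_mono hp hq (lam_nonneg p Ω) h2
  have h4 := lam_mul_le hq hu.1 hu.2.1 hKP
  have h5 : 0 ≤ ∫ x, |u x| ^ q := integral_nonneg fun x => by positivity
  calc Lam p q (lam p Ω) * ∫ x, |u x| ^ q ≤ lam q (Pol n c) * ∫ x, |u x| ^ q :=
        mul_le_mul_of_nonneg_right (h3.trans h1) h5
    _ ≤ _ := h4

theorem ratio_le [Nontrivial E] {Ω : Set E} (hΩ : IsOpen Ω) (hcv : Convex ℝ Ω)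
    (hb : Bornology.IsBounded Ω) (hne : Ω.Nonempty) {p q : ℝ} (hq : 1 < q) (hqp : q < p) :
    lam p Ω ^ (1 / p) / lam q Ω ^ (1 / q) ≤ Tp p / Tp q := by
  have hp : 1 < p := hq.trans hqp
  have h1 := main_ineq hΩ hcv hb hne hq hqp
  have hTp := Tp_pos hp
  have hTq := Tp_pos hq
  have hlp := lam_pos hp hΩ hne hb
  have hlq := lam_pos hq hΩ hne hb
  have h2 : Tp q * lam p Ω ^ (1 / p) / Tp p ≤ lam q Ω ^ (1 / q) := by
    have h3 := Real.rpow_le_rpow (by unfold Lam; positivity) h1 (show 0 ≤ 1 / q by positivity)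
    unfold Lam at h3
    rw [← Real.rpow_mul (by positivity), mul_one_div_cancel (by linarith), Real.rpow_one] at h3
    exact h3
  rw [div_le_div_iff₀ (by positivity) hTq]
  rw [div_le_iff₀ hTp] at h2
  linarith

/-- **Main theorem (value of the supremum).** -/
theorem sup_value (d : ℕ) (hd : 2 ≤ d) (p q : ℝ) (hq : 1 < q) (hqp : q < p) :
    IsLUB {F : ℝ | ∃ Ω : Set (EuclideanSpace ℝ (Fin d)), IsOpen Ω ∧ Convex ℝ Ω ∧
        0 < volume Ω ∧ volume Ω < ⊤ ∧ F = lam p Ω ^ (1 / p) / lam q Ω ^ (1 / q)}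
      (lam p (Ioo (0:ℝ) 1) ^ (1 / p) / lam q (Ioo (0:ℝ) 1) ^ (1 / q)) := by
  have hp : 1 < p := hq.trans hqp
  have hTp := Tp_pos hp
  have hTq := Tp_pos hq
  have hπp : lam p (Ioo (0:ℝ) 1) ^ (1 / p) = 2 * Tp p := by
    rw [lam_interval hp, ← Real.rpow_mul (by positivity), mul_one_div_cancel (by linarith),
      Real.rpow_one]
  have hπq : lam q (Ioo (0:ℝ) 1) ^ (1 / q) = 2 * Tp q := by
    rw [lam_interval hq, ← Real.rpow_mul (by positivity), mul_one_div_cancel (by linarith),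
      Real.rpow_one]
  have hratio : lam p (Ioo (0:ℝ) 1) ^ (1 / p) / lam q (Ioo (0:ℝ) 1) ^ (1 / q) = Tp p / Tp q := by
    rw [hπp, hπq]; field_simp
  obtain ⟨k, rfl⟩ : ∃ k, d = k + 1 := ⟨d - 1, by omega⟩
  have : Nontrivial (EuclideanSpace ℝ (Fin (k + 1))) := by
    apply Module.nontrivial_of_finrank_pos (R := ℝ)
    simp
  constructor
  · rintro F ⟨Ω, hΩ, hcv, hv0, hv1, rfl⟩
    have hne : Ω.Nonempty := by
      by_contra h
      rw [not_nonempty_iff_eq_empty] at h
      rw [h, measure_empty] at hv0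
      exact lt_irrefl _ hv0
    rw [hratio]
    exact ratio_le hΩ hcv (bounded_of_volume_lt_top hΩ hcv hne hv1) hne hq hqp
  · intro M hM
    rw [hratio]
    -- boxes
    have hlim : Tendsto (fun ε : ℝ => 2 * Tp p / (lam q (Ioo (0:ℝ) 1) + ε) ^ (1 / q)) (𝓝[>] 0)
        (𝓝 (Tp p / Tp q)) := by
      have hl0 : 0 < lam q (Ioo (0:ℝ) 1) := by rw [lam_interval hq]; positivity
      have h1 : ContinuousAt (fun ε : ℝ => 2 * Tp p / (lam q (Ioo (0:ℝ) 1) + ε) ^ (1 / q)) 0 := by
        apply ContinuousAt.div continuousAt_const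
        · apply ContinuousAt.rpow_const
          · fun_prop
          · left; simp [hl0.ne']
        · rw [add_zero]; positivity
      have h2 := h1.tendsto
      rw [add_zero, hπq] at h2
      have h3 : 2 * Tp p / (2 * Tp q) = Tp p / Tp q := by field_simp
      rw [h3] at h2
      exact h2.mono_left nhdsWithin_le_nhds
    refine le_of_tendsto hlim ?_
    filter_upwards [self_mem_nhdsWithin] with ε hε
    have hε' : (0:ℝ) < ε := hε
    obtain ⟨R₀, hR₀, hR⟩ := box_upper hq k hε'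
    obtain ⟨hO, hC, hN, hB⟩ := box_basic k hR₀
    have h1 := hR R₀ le_rfl
    have hlq := lam_pos hq hO hN hB
    have hmem : lam p (Box k R₀) ^ (1 / p) / lam q (Box k R₀) ^ (1 / q) ≤ M :=
      hM ⟨Box k R₀, hO, hC, hO.measure_pos _ hN, hB.measure_lt_top, rfl⟩
    refine le_trans ?_ hmem
    have h2 : 2 * Tp p ≤ lam p (Box k R₀) ^ (1 / p) := by
      have h3 := lam_ge_width hp hO hN (e := EuclideanSpace.single (0 : Fin (k + 1)) (1:ℝ))
        (by simp) (a := 0) (W := 1) one_pos (by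
          intro x hx
          have := hx 0
          simp only [if_true] at this
          have e0 : ⟪EuclideanSpace.single (0 : Fin (k + 1)) (1:ℝ), x⟫ = x 0 := by
            rw [EuclideanSpace.inner_single_left]; simp
          rw [e0]
          simpa using this)
      rw [div_one] at h3
      have h4 := Real.rpow_le_rpow (by positivity) h3 (show 0 ≤ 1 / p by positivity)
      rwa [← Real.rpow_mul (by positivity), mul_one_div_cancel (by linarith), Real.rpow_one] at h4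
    have h5 : lam q (Box k R₀) ^ (1 / q) ≤ (lam q (Ioo (0:ℝ) 1) + ε) ^ (1 / q) :=
      Real.rpow_le_rpow hlq.le h1 (by positivity)
    exact div_le_div₀ (Real.rpow_nonneg (lam_nonneg _ _) _) h2 (by positivity) h5

end PLap
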