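import Pool.Agent.Lib.MP_a627f3_an.VecA
import Pool.Agent.Lib.MP_a627f3_an.Lip
import Pool.Agent.Lib.MP_a627f3_an.ConvB
import Pool.Agent.Lib.MP_a627f3_an.ConvC
import Pool.Agent.Lib.MP_a627f3_an.ConvD
import Pool.Agent.Lib.MP_a627f3_an.Moll
import Pool.Agent.Lib.MP_a627f3_an.Radial
import Pool.Agent.Lib.MP_a627f3_an.Pos

open MeasureTheory Set Filter Topology Metric
open scoped RealInnerProductSpace ENNReal NNReal

namespace PLap

variable {E : Type*} [NormedAddCommGroup E] [InnerProductSpace ℝ E] [FiniteDimensional ℝ E]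
  [CompleteSpace E] [MeasurableSpace E] [BorelSpace E]

namespace Tr

omit [MeasurableSpace E] [BorelSpace E] [CompleteSpace E] in
/-- a compact subset of a convex open set has a convex compact neighbourhood in it -/
theorem exists_convex_nbhd {Ω : Set E} (hΩ : IsOpen Ω) (hc : Convex ℝ Ω) {K : Set E}
    (hK : IsCompact K) (hKΩ : K ⊆ Ω) :
    ∃ K' : Set E, IsCompact K' ∧ Convex ℝ K' ∧ K ⊆ interior K' ∧ K' ⊆ Ω := by
  classical
  have h1 : ∀ x : E, x ∈ K → ∃ u : Finset E, x ∈ interior (convexHull ℝ (u : Set E)) ∧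
      convexHull ℝ (u : Set E) ⊆ Ω := by
    intro x hx
    obtain ⟨u, hu, hu'⟩ := Convex.exists_subset_interior_convexHull_finset_of_isCompact
      (convex_singleton x) isCompact_singleton (t := Ω)
      (by rw [nhdsSet_singleton]; exact hΩ.mem_nhds (hKΩ hx))
    exact ⟨u, hu (mem_singleton x), hu'⟩
  choose! u hu hu' using h1
  obtain ⟨t, ht, htK⟩ := hK.elim_nhds_subcover (fun x => interior (convexHull ℝ (u x : Set E)))
    (fun x hx => isOpen_interior.mem_nhds (hu x hx))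
  refine ⟨convexHull ℝ ((t.biUnion u : Finset E) : Set E),
    (Finset.finite_toSet _).isCompact_convexHull ℝ, convex_convexHull ℝ _, ?_, ?_⟩
  · intro x hx
    obtain ⟨y, hy, hxy⟩ := mem_iUnion₂.1 (htK hx)
    refine interior_mono (convexHull_mono ?_) hxy
    intro z hz
    exact Finset.mem_coe.2 (Finset.mem_biUnion.2 ⟨y, hy, Finset.mem_coe.1 hz⟩)
  · refine convexHull_min ?_ hc
    intro z hz
    obtain ⟨y, hy, hzy⟩ := Finset.mem_biUnion.1 (Finset.mem_coe.1 hz)
    exact hu' y (ht y hy) (subset_convexHull ℝ _ (Finset.mem_coe.2 hzy))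

omit [FiniteDimensional ℝ E] in
theorem measurable_gradient (f : E → ℝ) : Measurable (gradient f) :=
  (LinearIsometryEquiv.continuous _).measurable.comp (measurable_fderiv ℝ f)

omit [MeasurableSpace E] [BorelSpace E] [FiniteDimensional ℝ E] in
theorem continuous_gradient {f : E → ℝ} (hf : ContDiff ℝ 1 f) : Continuous (gradient f) :=
  (LinearIsometryEquiv.continuous _).comp (hf.continuous_fderiv (by norm_num))

omit [MeasurableSpace E] [BorelSpace E] [FiniteDimensional ℝ E] in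
theorem norm_gradient (f : E → ℝ) (x : E) : ‖gradient f x‖ = ‖fderiv ℝ f x‖ :=
  LinearIsometryEquiv.norm_map _ _

omit [MeasurableSpace E] [BorelSpace E] [FiniteDimensional ℝ E] in
theorem norm_gradient_le {f : E → ℝ} {K : ℝ≥0} (hf : LipschitzWith K f) (x : E) :
    ‖gradient f x‖ ≤ K := by
  rw [norm_gradient]; exact norm_fderiv_le_of_lipschitz ℝ hf

omit [MeasurableSpace E] [BorelSpace E] [FiniteDimensional ℝ E] in
theorem gradient_zero {f : E → ℝ} {x : E} (hx : x ∉ tsupport f) : gradient f x = 0 := by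
  have h1 : fderiv ℝ f x = 0 := by
    by_contra h
    exact hx (support_fderiv_subset ℝ h)
  unfold gradient
  rw [h1, map_zero]

theorem integrable_norm_gradient {Ω : Set E} {f : E → ℝ} (hf : LipC Ω f) :
    Integrable (fun x => ‖gradient f x‖) := by
  obtain ⟨⟨K, hK⟩, hc, -⟩ := hf
  have h1 : Integrable ((tsupport f).indicator fun _ : E => (K : ℝ)) := by
    rw [integrable_indicator_iff hc.measurableSet]
    exact integrableOn_const hc.measure_lt_top.ne
  refine h1.mono' ((measurable_gradient f).norm.aestronglyMeasurable) (ae_of_all _ fun x => ?_)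
  rw [norm_norm]
  by_cases hx : x ∈ tsupport f
  · rw [indicator_of_mem hx]; exact norm_gradient_le hK x
  · rw [indicator_of_notMem hx, gradient_zero hx, norm_zero]

/-- dominated convergence -/
theorem tendsto_int {Ω : Set E} {f : E → ℝ} (hf : LipC Ω f) {F : ℕ → E → E} {F₀ : E → E}
    (hm : ∀ k, Measurable (F k)) {C : ℝ} (hb : ∀ k x, ‖F k x‖ ≤ C)
    (hlim : ∀ x ∈ tsupport f, gradient f x ≠ 0 → Tendsto (fun k => F k x) atTop (𝓝 (F₀ x))) :
    Tendsto (fun k => ∫ x, ⟪F k x, gradient f x⟫) atTop (𝓝 (∫ x, ⟪F₀ x, gradient f x⟫)) := by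
  refine tendsto_integral_of_dominated_convergence (fun x => C * ‖gradient f x‖)
    (fun k => ((hm k).inner (measurable_gradient f)).aestronglyMeasurable)
    ((integrable_norm_gradient hf).const_mul C) (fun k => ae_of_all _ fun x => ?_)
    (ae_of_all _ fun x => ?_)
  · exact (norm_inner_le_norm _ _).trans (mul_le_mul_of_nonneg_right (hb k x) (norm_nonneg _))
  · by_cases h0 : gradient f x = 0
    · simp only [h0, inner_zero_right]
      exact tendsto_const_nhds
    · have hx : x ∈ tsupport f := by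
        by_contra hx
        exact h0 (gradient_zero hx)
      exact (hlim x hx h0).inner tendsto_const_nhds

omit [CompleteSpace E] in
theorem integrable_mul {c f : E → ℝ} (hc : Continuous c) (hf : LipC univ f) :
    Integrable (fun x => c x * f x) := by
  obtain ⟨⟨K, hK⟩, hs, -⟩ := hf
  exact (hc.mul hK.continuous).integrable_of_hasCompactSupport hs.mul_left

/-- regularised square of the length of the gradient -/
noncomputable def tt (ε : ℝ) (W : E → ℝ) (x : E) : ℝ := ε ^ 2 + ‖gradient W x‖ ^ 2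

/-- regularised `|∇W|^{p-1}` -/
noncomputable def uu (p ε : ℝ) (W : E → ℝ) (x : E) : ℝ := tt ε W x ^ ((p - 1) / 2)

/-- regularised `1 / |∇W|` -/
noncomputable def rr (ε : ℝ) (W : E → ℝ) (x : E) : ℝ := tt ε W x ^ (-(1 / 2) : ℝ)

/-- divergence of the regularised direction -/
noncomputable def XX (ε : ℝ) (W : E → ℝ) (x : E) : ℝ :=
  rr ε W x * lap W x - rr ε W x * (tt ε W x)⁻¹ * Hs W x (gradient W x)

/-- derivative of `uu` in the direction of the regularised direction -/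
noncomputable def YY (p ε : ℝ) (W : E → ℝ) (x : E) : ℝ :=
  (p - 1) * uu p ε W x * rr ε W x * (tt ε W x)⁻¹ * Hs W x (gradient W x)

omit [FiniteDimensional ℝ E] [MeasurableSpace E] [BorelSpace E] in
theorem tt_pos {ε : ℝ} (hε : 0 < ε) (W : E → ℝ) (x : E) : 0 < tt ε W x := by
  unfold tt; positivity

omit [FiniteDimensional ℝ E] [MeasurableSpace E] [BorelSpace E] in
theorem uu_pos {ε : ℝ} (hε : 0 < ε) (p : ℝ) (W : E → ℝ) (x : E) : 0 < uu p ε W x :=
  Real.rpow_pos_of_pos (tt_pos hε W x) _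

omit [FiniteDimensional ℝ E] [MeasurableSpace E] [BorelSpace E] in
theorem rr_pos {ε : ℝ} (hε : 0 < ε) (W : E → ℝ) (x : E) : 0 < rr ε W x :=
  Real.rpow_pos_of_pos (tt_pos hε W x) _

omit [FiniteDimensional ℝ E] [MeasurableSpace E] [BorelSpace E] in
theorem continuous_tt {ε : ℝ} {W : E → ℝ} (hW : ContDiff ℝ 2 W) : Continuous (tt ε W) :=
  continuous_const.add ((continuous_gradient (hW.of_le (by norm_num))).norm.pow 2)

omit [FiniteDimensional ℝ E] [MeasurableSpace E] [BorelSpace E] in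
theorem continuous_uu {p ε : ℝ} (hε : 0 < ε) {W : E → ℝ} (hW : ContDiff ℝ 2 W) :
    Continuous (uu p ε W) :=
  (continuous_tt hW).rpow_const fun x => Or.inl (tt_pos hε W x).ne'

omit [FiniteDimensional ℝ E] [MeasurableSpace E] [BorelSpace E] in
theorem continuous_rr {ε : ℝ} (hε : 0 < ε) {W : E → ℝ} (hW : ContDiff ℝ 2 W) :
    Continuous (rr ε W) :=
  (continuous_tt hW).rpow_const fun x => Or.inl (tt_pos hε W x).ne'

omit [FiniteDimensional ℝ E] [MeasurableSpace E] [BorelSpace E] [CompleteSpace E] in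
theorem continuous_Hs {W : E → ℝ} (hW : ContDiff ℝ 2 W) {b : E → E} (hb : Continuous b) :
    Continuous fun x => Hs W x (b x) := by
  unfold Hs
  have h1 : Continuous (fderiv ℝ (fderiv ℝ W)) :=
    (hW.fderiv_right (m := 1) (by norm_num)).continuous_fderiv (by norm_num)
  exact (h1.clm_apply hb).clm_apply hb

omit [MeasurableSpace E] [BorelSpace E] [CompleteSpace E] in
theorem continuous_lap {W : E → ℝ} (hW : ContDiff ℝ 2 W) : Continuous (lap W) := by
  unfold lap
  exact continuous_finsetSum _ fun i _ => continuous_Hs hW continuous_const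

omit [MeasurableSpace E] [BorelSpace E] in
theorem continuous_XX {ε : ℝ} (hε : 0 < ε) {W : E → ℝ} (hW : ContDiff ℝ 2 W) :
    Continuous (XX ε W) := by
  unfold XX
  have h1 := continuous_rr hε hW
  have h2 := continuous_lap hW
  have h3 := (continuous_tt (ε := ε) hW).inv₀ fun x => (tt_pos hε W x).ne'
  have h4 := continuous_Hs hW (continuous_gradient (hW.of_le (by norm_num)))
  exact (h1.mul h2).sub ((h1.mul h3).mul h4)

omit [FiniteDimensional ℝ E] [MeasurableSpace E] [BorelSpace E] in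
theorem continuous_YY {p ε : ℝ} (hε : 0 < ε) {W : E → ℝ} (hW : ContDiff ℝ 2 W) :
    Continuous (YY p ε W) := by
  unfold YY
  have h1 := continuous_rr hε hW
  have h2 := continuous_uu (p := p) hε hW
  have h3 := (continuous_tt (ε := ε) hW).inv₀ fun x => (tt_pos hε W x).ne'
  have h4 := continuous_Hs hW (continuous_gradient (hW.of_le (by norm_num)))
  exact (((continuous_const.mul h2).mul h1).mul h3).mul h4

/-- integration by parts for radial fields -/
theorem parts {p : ℝ} {W : E → ℝ} (hW : ContDiff ℝ 2 W) {ε : ℝ} (hε : 0 < ε)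
    {G G' : ℝ → ℝ} (hd : ∀ z > 0, HasDerivAt G (G' z) z) (hG' : ContinuousOn G' (Ioi 0))
    {f : E → ℝ} (hf : LipC univ f) :
    - ∫ x, ⟪(G (uu p ε W x) * rr ε W x) • gradient W x, gradient f x⟫ =
      ∫ x, (G (uu p ε W x) * XX ε W x + G' (uu p ε W x) * YY p ε W x) * f x := by
  have hGc : ContinuousOn G (Ioi 0) := fun z hz => (hd z hz).continuousAt.continuousWithinAt
  set h : ℝ → ℝ := fun s => G ((ε ^ 2 + s) ^ ((p - 1) / 2)) * (ε ^ 2 + s) ^ (-(1 / 2) : ℝ) with hh
  set h' : ℝ → ℝ := fun s => G' ((ε ^ 2 + s) ^ ((p - 1) / 2)) *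
      ((p - 1) / 2 * (ε ^ 2 + s) ^ ((p - 1) / 2 - 1)) * (ε ^ 2 + s) ^ (-(1 / 2) : ℝ) +
    G ((ε ^ 2 + s) ^ ((p - 1) / 2)) * (-(1 / 2) * (ε ^ 2 + s) ^ (-(1 / 2) - 1 : ℝ)) with hh'
  have hη : 0 < ε ^ 2 := by positivity
  have hder : ∀ s, -(ε ^ 2) < s → HasDerivAt h (h' s) s := by
    intro s hs
    have ht : 0 < ε ^ 2 + s := by linarith
    have hid : HasDerivAt (fun s => ε ^ 2 + s) 1 s := (hasDerivAt_id s).const_add _
    have h1 : HasDerivAt (fun s => (ε ^ 2 + s) ^ ((p - 1) / 2))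
        ((p - 1) / 2 * (ε ^ 2 + s) ^ ((p - 1) / 2 - 1)) s := by
      have := hid.rpow_const (p := (p - 1) / 2) (Or.inl ht.ne')
      simpa using this
    have h2 : HasDerivAt (fun s => (ε ^ 2 + s) ^ (-(1 / 2) : ℝ))
        (-(1 / 2) * (ε ^ 2 + s) ^ (-(1 / 2) - 1 : ℝ)) s := by
      have := hid.rpow_const (p := (-(1 / 2) : ℝ)) (Or.inl ht.ne')
      simpa using this
    have h3 := (hd _ (Real.rpow_pos_of_pos ht ((p - 1) / 2))).comp s h1
    exact h3.mul h2
  have hmap : MapsTo (fun s => (ε ^ 2 + s) ^ ((p - 1) / 2)) (Ioi (-(ε ^ 2))) (Ioi (0 : ℝ)) := by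
    intro s hs
    have ht : 0 < ε ^ 2 + s := by have := mem_Ioi.1 hs; linarith
    exact Real.rpow_pos_of_pos ht _
  have hpow : ∀ a : ℝ, ContinuousOn (fun s => (ε ^ 2 + s) ^ a) (Ioi (-(ε ^ 2))) := by
    intro a s hs
    have ht : 0 < ε ^ 2 + s := by have := mem_Ioi.1 hs; linarith
    exact ((continuousAt_const.add continuousAt_id).rpow_const
      (Or.inl ht.ne')).continuousWithinAt
  have hcont : ContinuousOn h' (Ioi (-(ε ^ 2))) := by
    have c1 := hG'.comp (hpow ((p - 1) / 2)) hmap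
    have c2 := hGc.comp (hpow ((p - 1) / 2)) hmap
    exact ((c1.mul (continuousOn_const.mul (hpow _))).mul (hpow _)).add
      (c2.mul (continuousOn_const.mul (hpow _)))
  have hr := radial_parts hW hη hder hcont hf
  have e1 : ∀ x, ⟪(G (uu p ε W x) * rr ε W x) • gradient W x, gradient f x⟫ =
      h (‖gradient W x‖ ^ 2) * ⟪gradient W x, gradient f x⟫ := by
    intro x
    rw [real_inner_smul_left]
    rfl
  simp only [e1]
  rw [hr]
  refine integral_congr_ae (ae_of_all _ fun x => ?_)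
  have ht := tt_pos hε W x
  have e2 : (ε ^ 2 + ‖gradient W x‖ ^ 2) ^ ((p - 1) / 2 - 1) = uu p ε W x * (tt ε W x)⁻¹ := by
    rw [← div_eq_mul_inv]
    exact Real.rpow_sub_one ht.ne' _
  have e3 : (ε ^ 2 + ‖gradient W x‖ ^ 2) ^ (-(1 / 2) - 1 : ℝ) = rr ε W x * (tt ε W x)⁻¹ := by
    rw [← div_eq_mul_inv]
    exact Real.rpow_sub_one ht.ne' _
  have e4 : h (‖gradient W x‖ ^ 2) = G (uu p ε W x) * rr ε W x := rfl
  have e5 : h' (‖gradient W x‖ ^ 2) = G' (uu p ε W x) *
      ((p - 1) / 2 * (uu p ε W x * (tt ε W x)⁻¹)) * rr ε W x +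
      G (uu p ε W x) * (-(1 / 2) * (rr ε W x * (tt ε W x)⁻¹)) := by
    rw [← e2, ← e3]
    rfl
  simp only [e4, e5, XX, YY]
  ring

theorem XX_nonneg {ε : ℝ} (hε : 0 < ε) {W : E → ℝ} (hW : ContDiff ℝ 2 W)
    (hc : ConvexOn ℝ univ W) (x : E) : 0 ≤ XX ε W x := by
  have ht := tt_pos hε W x
  have hr := rr_pos hε W x
  have h1 := Hs_le_lap hW hc x (gradient W x)
  have hl : 0 ≤ lap W x := by
    unfold lap
    exact Finset.sum_nonneg fun i _ => Hs_nonneg hW hc x _
  have h2 : Hs W x (gradient W x) ≤ tt ε W x * lap W x := by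
    refine h1.trans (mul_le_mul_of_nonneg_right ?_ hl)
    unfold tt
    have : 0 ≤ ε ^ 2 := by positivity
    linarith
  have h3 : (tt ε W x)⁻¹ * Hs W x (gradient W x) ≤ lap W x := by
    rw [inv_mul_le_iff₀ ht]; exact h2
  have h4 : XX ε W x = rr ε W x * (lap W x - (tt ε W x)⁻¹ * Hs W x (gradient W x)) := by
    unfold XX; ring
  rw [h4]
  exact mul_nonneg hr.le (by linarith)

theorem YY_nonneg {p : ℝ} (hp : 1 < p) {ε : ℝ} (hε : 0 < ε) {W : E → ℝ} (hW : ContDiff ℝ 2 W)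
    (hc : ConvexOn ℝ univ W) (x : E) : 0 ≤ YY p ε W x := by
  have ht := tt_pos hε W x
  have hr := rr_pos hε W x
  have hu := uu_pos hε p W x
  have h1 := Hs_nonneg hW hc x (gradient W x)
  unfold YY
  have : 0 < p - 1 := by linarith
  positivity

omit [FiniteDimensional ℝ E] [MeasurableSpace E] [BorelSpace E] in
/-- the regularised direction has length at most one -/
theorem norm_dir_le {ε : ℝ} (hε : 0 < ε) (W : E → ℝ) (x : E) : ‖rr ε W x • gradient W x‖ ≤ 1 := by
  have ht := tt_pos hε W x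
  have hr := rr_pos hε W x
  rw [norm_smul, Real.norm_eq_abs, abs_of_pos hr]
  have h1 : ‖gradient W x‖ ≤ tt ε W x ^ (1 / 2 : ℝ) := by
    rw [← Real.sqrt_eq_rpow]
    refine Real.le_sqrt_of_sq_le ?_
    unfold tt
    have : 0 ≤ ε ^ 2 := by positivity
    linarith
  have h2 : rr ε W x * tt ε W x ^ (1 / 2 : ℝ) = 1 := by
    unfold rr
    rw [← Real.rpow_add ht]
    norm_num
  calc rr ε W x * ‖gradient W x‖ ≤ rr ε W x * tt ε W x ^ (1 / 2 : ℝ) :=
        mul_le_mul_of_nonneg_left h1 hr.le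
    _ = 1 := h2

omit [FiniteDimensional ℝ E] [MeasurableSpace E] [BorelSpace E] in
theorem uu_le {p : ℝ} (hp : 1 < p) {ε : ℝ} (hε : 0 < ε) (hε1 : ε ≤ 1) {W : E → ℝ} {L : ℝ≥0}
    (hL : LipschitzWith L W) (x : E) : uu p ε W x ≤ (1 + (L : ℝ) ^ 2) ^ ((p - 1) / 2) := by
  have ht := tt_pos hε W x
  unfold uu
  refine Real.rpow_le_rpow ht.le ?_ (by linarith)
  unfold tt
  have h1 := norm_gradient_le hL x
  have h2 : ε ^ 2 ≤ 1 := by nlinarith
  have h3 : ‖gradient W x‖ ^ 2 ≤ (L : ℝ) ^ 2 := pow_le_pow_left₀ (norm_nonneg _) h1 2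
  linarith

omit [CompleteSpace E] in
theorem int_comb (η : ℝ) {a b c d : E → ℝ} (ha : Integrable a) (hb : Integrable b)
    (hc : Integrable c) (hd : Integrable d) :
    Integrable (fun x => (a x - η * b x) + (c x - η * d x)) ∧
    ∫ x, ((a x - η * b x) + (c x - η * d x)) =
      ((∫ x, a x) - η * ∫ x, b x) + ((∫ x, c x) - η * ∫ x, d x) := by
  have h1 : Integrable (fun x => a x - η * b x) := ha.sub (hb.const_mul η)
  have h2 : Integrable (fun x => c x - η * d x) := hc.sub (hd.const_mul η)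
  refine ⟨h1.add h2, ?_⟩
  rw [integral_add h1 h2, integral_sub ha (hb.const_mul η), integral_sub hc (hd.const_mul η),
    integral_const_mul, integral_const_mul]

/-- the inequality for smooth functions -/
theorem main_ineq {p : ℝ} (hp : 1 < p) {W : E → ℝ} (hW : ContDiff ℝ 2 W)
    (hWc : ConvexOn ℝ univ W) {L : ℝ≥0} (hL : LipschitzWith L W) {ε : ℝ} (hε : 0 < ε)
    (hε1 : ε ≤ 1) {Γ Γ' : ℝ → ℝ} (hd : ∀ z > 0, HasDerivAt Γ (Γ' z) z)
    (hΓ' : ContinuousOn Γ' (Ici 0)) {φ ζ φ₀ χ : E → ℝ} (hφ : LipC univ φ)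
    (hζ : LipC univ ζ) (hφ₀ : LipC univ φ₀) (hχ : LipC univ χ) {η : ℝ} (hη : 0 ≤ η)
    (h1 : ∀ x, ζ x - η * χ x ≤ Γ' (uu p ε W x) * φ x)
    (h2 : ∀ x, φ₀ x - η * χ x ≤ (Γ (uu p ε W x) - uu p ε W x * Γ' (uu p ε W x)) * φ x) :
    (- ∫ x, ⟪(uu p ε W x * rr ε W x) • gradient W x, gradient ζ x⟫) +
      (- ∫ x, ⟪rr ε W x • gradient W x, gradient φ₀ x⟫) -
      η * (((1 + (L : ℝ) ^ 2) ^ ((p - 1) / 2) + 1) * ∫ x, ‖gradient χ x‖) ≤
    - ∫ x, ⟪(Γ (uu p ε W x) * rr ε W x) • gradient W x, gradient φ x⟫ := by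
  have hΓ0 : ContinuousOn Γ' (Ioi 0) := hΓ'.mono Ioi_subset_Ici_self
  have hΓc : ContinuousOn Γ (Ioi 0) := fun z hz => (hd z hz).continuousAt.continuousWithinAt
  have hid : ∀ z > (0 : ℝ), HasDerivAt (fun z : ℝ => z) ((fun _ : ℝ => (1 : ℝ)) z) z :=
    fun z _ => hasDerivAt_id z
  have hone : ∀ z > (0 : ℝ), HasDerivAt (fun _ : ℝ => (1 : ℝ)) ((fun _ : ℝ => (0 : ℝ)) z) z :=
    fun z _ => hasDerivAt_const z 1
  have pΓ := parts (p := p) hW hε hd hΓ0 hφ
  have paζ := parts (p := p) hW hε hid continuousOn_const hζ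
  have paχ := parts (p := p) hW hε hid continuousOn_const hχ
  have pnφ := parts (p := p) hW hε hone continuousOn_const hφ₀
  have pnχ := parts (p := p) hW hε hone continuousOn_const hχ
  simp only [one_mul, zero_mul, add_zero] at paζ paχ pnφ pnχ
  have cX := continuous_XX hε hW
  have cY := continuous_YY (p := p) hε hW
  have cu := continuous_uu (p := p) hε hW
  have cu' : ∀ {G : ℝ → ℝ}, ContinuousOn G (Ioi 0) → Continuous fun x => G (uu p ε W x) := by
    intro G hG
    rw [continuous_iff_continuousAt]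
    intro x
    exact ContinuousAt.comp (f := uu p ε W)
      (hG.continuousAt (Ioi_mem_nhds (uu_pos hε p W x))) cu.continuousAt
  have iΓ : Integrable fun x => (Γ (uu p ε W x) * XX ε W x + Γ' (uu p ε W x) * YY p ε W x) *
      φ x := integrable_mul (((cu' hΓc).mul cX).add ((cu' hΓ0).mul cY)) hφ
  have ia : ∀ {f : E → ℝ}, LipC univ f →
      Integrable fun x => (uu p ε W x * XX ε W x + YY p ε W x) * f x := fun hf =>
    integrable_mul ((cu.mul cX).add cY) hf
  have inn : ∀ {f : E → ℝ}, LipC univ f → Integrable fun x => XX ε W x * f x := fun hf =>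
    integrable_mul cX hf
  have hpt : ∀ x, ((uu p ε W x * XX ε W x + YY p ε W x) * ζ x -
      η * ((uu p ε W x * XX ε W x + YY p ε W x) * χ x)) +
      (XX ε W x * φ₀ x - η * (XX ε W x * χ x)) ≤
      (Γ (uu p ε W x) * XX ε W x + Γ' (uu p ε W x) * YY p ε W x) * φ x := by
    intro x
    have hX := XX_nonneg hε hW hWc x
    have hY := YY_nonneg hp hε hW hWc x
    have hu := uu_pos hε p W x
    have ha : 0 ≤ uu p ε W x * XX ε W x + YY p ε W x := by positivity
    have m1 := mul_le_mul_of_nonneg_left (h1 x) ha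
    have m2 := mul_le_mul_of_nonneg_left (h2 x) hX
    have e : (Γ (uu p ε W x) * XX ε W x + Γ' (uu p ε W x) * YY p ε W x) * φ x =
      (uu p ε W x * XX ε W x + YY p ε W x) * (Γ' (uu p ε W x) * φ x) +
        XX ε W x * ((Γ (uu p ε W x) - uu p ε W x * Γ' (uu p ε W x)) * φ x) := by ring
    rw [e]
    calc _ = (uu p ε W x * XX ε W x + YY p ε W x) * (ζ x - η * χ x) +
        XX ε W x * (φ₀ x - η * χ x) := by ring
      _ ≤ _ := add_le_add m1 m2
  obtain ⟨hI, hsplit⟩ := int_comb η (ia hζ) (ia hχ) (inn hφ₀) (inn hχ)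
  have hint := integral_mono hI iΓ hpt
  rw [hsplit, ← pΓ, ← paζ, ← paχ, ← pnφ, ← pnχ] at hint
  -- bounds for the cutoff terms
  have hbound : ∀ {F : E → E} {C : ℝ}, (∀ x, ‖F x‖ ≤ C) →
      - (C * ∫ x, ‖gradient χ x‖) ≤ ∫ x, ⟪F x, gradient χ x⟫ := by
    intro F C hF
    have hi := integrable_norm_gradient hχ
    have h3 : ‖∫ x, ⟪F x, gradient χ x⟫‖ ≤ ∫ x, C * ‖gradient χ x‖ := by
      refine norm_integral_le_of_norm_le (hi.const_mul C) (ae_of_all _ fun x => ?_)
      exact (norm_inner_le_norm _ _).trans (mul_le_mul_of_nonneg_right (hF x) (norm_nonneg _))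
    rw [integral_const_mul] at h3
    exact (abs_le.1 h3).1
  have b1 := hbound (F := fun x => (uu p ε W x * rr ε W x) • gradient W x)
    (C := (1 + (L : ℝ) ^ 2) ^ ((p - 1) / 2)) (fun x => by
      have hu := uu_pos hε p W x
      have hule := uu_le hp hε hε1 hL x
      have hdl := norm_dir_le hε W x
      rw [mul_smul, norm_smul, Real.norm_eq_abs, abs_of_pos hu]
      calc uu p ε W x * ‖rr ε W x • gradient W x‖ ≤ uu p ε W x * 1 :=
            mul_le_mul_of_nonneg_left hdl hu.le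
        _ = uu p ε W x := mul_one _
        _ ≤ _ := hule)
  have b2 := hbound (F := fun x => rr ε W x • gradient W x) (C := 1) (norm_dir_le hε W)
  beta_reduce at b1 b2
  have m1 := mul_le_mul_of_nonneg_left b1 hη
  have m2 := mul_le_mul_of_nonneg_left b2 hη
  have e3 : η * (((1 + (L : ℝ) ^ 2) ^ ((p - 1) / 2) + 1) * ∫ x, ‖gradient χ x‖) =
    η * ((1 + (L : ℝ) ^ 2) ^ ((p - 1) / 2) * ∫ x, ‖gradient χ x‖) +
      η * (1 * ∫ x, ‖gradient χ x‖) := by ring
  rw [e3]
  linarith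

omit [FiniteDimensional ℝ E] [MeasurableSpace E] [BorelSpace E] [CompleteSpace E] in
theorem sq_rpow {x : ℝ} (hx : 0 ≤ x) (a : ℝ) : (x ^ 2) ^ (a / 2) = x ^ a := by
  rw [← Real.rpow_natCast x 2, ← Real.rpow_mul hx]
  congr 1
  push_cast
  ring

omit [FiniteDimensional ℝ E] [MeasurableSpace E] [BorelSpace E] in
theorem lim_tt {e : ℕ → ℝ} (he : Tendsto e atTop (𝓝 0)) {W : ℕ → E → ℝ} {x ξ : E}
    (hW : Tendsto (fun k => gradient (W k) x) atTop (𝓝 ξ)) :
    Tendsto (fun k => tt (e k) (W k) x) atTop (𝓝 (‖ξ‖ ^ 2)) := by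
  have h1 := (he.pow 2).add (hW.norm.pow 2)
  simpa [tt] using h1

omit [FiniteDimensional ℝ E] [MeasurableSpace E] [BorelSpace E] in
theorem lim_uu {p : ℝ} (hp : 1 < p) {e : ℕ → ℝ} (he : Tendsto e atTop (𝓝 0)) {W : ℕ → E → ℝ}
    {x ξ : E} (hW : Tendsto (fun k => gradient (W k) x) atTop (𝓝 ξ)) :
    Tendsto (fun k => uu p (e k) (W k) x) atTop (𝓝 (‖ξ‖ ^ (p - 1))) := by
  have h1 := (lim_tt he hW).rpow_const (p := (p - 1) / 2) (Or.inr (by linarith))
  rwa [sq_rpow (norm_nonneg ξ)] at h1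

omit [FiniteDimensional ℝ E] [MeasurableSpace E] [BorelSpace E] in
theorem lim_dir {e : ℕ → ℝ} (he : Tendsto e atTop (𝓝 0)) {W : ℕ → E → ℝ}
    {x ξ : E} (hW : Tendsto (fun k => gradient (W k) x) atTop (𝓝 ξ)) (hξ : ξ ≠ 0) :
    Tendsto (fun k => rr (e k) (W k) x • gradient (W k) x) atTop (𝓝 (dir ξ)) := by
  have hn : 0 < ‖ξ‖ := norm_pos_iff.2 hξ
  have h1 := (lim_tt he hW).rpow_const (p := (-(1 / 2) : ℝ)) (Or.inl (by positivity))
  have e1 : (‖ξ‖ ^ 2) ^ (-(1 / 2) : ℝ) = ‖ξ‖⁻¹ := by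
    have := sq_rpow hn.le (-1)
    rw [Real.rpow_neg_one] at this
    rw [← this]
    congr 1
    norm_num
  rw [e1] at h1
  exact h1.smul hW

omit [FiniteDimensional ℝ E] [MeasurableSpace E] [BorelSpace E] in
theorem lim_G {p : ℝ} (hp : 1 < p) {e : ℕ → ℝ} (he0 : ∀ k, 0 < e k)
    (he : Tendsto e atTop (𝓝 0)) {W : ℕ → E → ℝ}
    {x ξ : E} (hW : Tendsto (fun k => gradient (W k) x) atTop (𝓝 ξ)) {G : ℝ → ℝ}
    (hG : ContinuousOn G (Ici 0)) (hG0 : G 0 = 0) :
    Tendsto (fun k => (G (uu p (e k) (W k) x) * rr (e k) (W k) x) • gradient (W k) x) atTop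
      (𝓝 (G (‖ξ‖ ^ (p - 1)) • dir ξ)) := by
  have hz : (0 : ℝ) ≤ ‖ξ‖ ^ (p - 1) := by positivity
  have h1 : Tendsto (fun k => G (uu p (e k) (W k) x)) atTop (𝓝 (G (‖ξ‖ ^ (p - 1)))) :=
    (hG _ hz).tendsto.comp (tendsto_nhdsWithin_iff.2 ⟨lim_uu hp he hW,
      Eventually.of_forall fun k => (uu_pos (he0 k) p (W k) x).le⟩)
  by_cases hξ : ξ = 0
  · subst hξ
    have h2 : G (‖(0 : E)‖ ^ (p - 1)) = 0 := by
      rw [norm_zero, Real.zero_rpow (by linarith), hG0]
    rw [h2] at h1 ⊢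
    rw [zero_smul]
    refine squeeze_zero_norm (fun k => ?_) (a := fun k => |G (uu p (e k) (W k) x)|) ?_
    · rw [mul_smul, norm_smul, Real.norm_eq_abs]
      calc _ ≤ |G (uu p (e k) (W k) x)| * 1 :=
            mul_le_mul_of_nonneg_left (norm_dir_le (he0 k) (W k) x) (abs_nonneg _)
        _ = _ := mul_one _
    · simpa using h1.abs
  · have h3 := h1.smul (lim_dir he hW hξ)
    refine h3.congr fun k => ?_
    rw [mul_smul]

omit [FiniteDimensional ℝ E] [MeasurableSpace E] [BorelSpace E] [CompleteSpace E] in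
theorem aP_eq {p : ℝ} (ξ : E) : aP p ξ = ‖ξ‖ ^ (p - 1) • dir ξ := by
  unfold aP dir
  by_cases hξ : ξ = 0
  · subst hξ; simp
  · have hn : 0 < ‖ξ‖ := norm_pos_iff.2 hξ
    rw [smul_smul]
    congr 1
    rw [← div_eq_mul_inv, ← Real.rpow_sub_one hn.ne']
    congr 1
    ring

omit [MeasurableSpace E] [BorelSpace E] in
/-- uniform convergence of functions of the regularised length -/
theorem unif {p : ℝ} (hp : 1 < p) {e : ℕ → ℝ} (he0 : ∀ k, 0 < e k) (he1 : ∀ k, e k ≤ 1)
    (he : Tendsto e atTop (𝓝 0)) {W : ℕ → E → ℝ} {L : ℝ≥0} (hL : ∀ k, LipschitzWith L (W k))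
    {K : Set E} {v : E → ℝ} (hv : ∀ x ∈ K, ‖gradient v x‖ ≤ L)
    (hW : TendstoUniformlyOn (fun k => gradient (W k)) (gradient v) atTop K) {G : ℝ → ℝ}
    (hG : ContinuousOn G (Ici 0)) {η : ℝ} (hη : 0 < η) :
    ∀ᶠ k in atTop, ∀ x ∈ K, |G (uu p (e k) (W k) x) - G (‖gradient v x‖ ^ (p - 1))| ≤ η := by
  set Φ : ℝ × E → ℝ := fun q => G ((q.1 ^ 2 + ‖q.2‖ ^ 2) ^ ((p - 1) / 2)) with hΦ
  have hΦc : Continuous Φ := by
    refine hG.comp_continuous ?_ fun q => ?_
    · exact ((continuous_fst.pow 2).add (continuous_snd.norm.pow 2)).rpow_const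
        fun q => Or.inr (by linarith)
    · have : 0 ≤ q.1 ^ 2 + ‖q.2‖ ^ 2 := by positivity
      exact Real.rpow_nonneg this _
  set S : Set (ℝ × E) := closedBall 0 (max 1 (L : ℝ)) with hS
  have hSc : IsCompact S := isCompact_closedBall _ _
  have hmem : ∀ (a : ℝ) (ξ : E), 0 ≤ a → a ≤ 1 → ‖ξ‖ ≤ L → (a, ξ) ∈ S := by
    intro a ξ h0 h1 h2
    rw [hS, mem_closedBall, dist_zero_right, Prod.norm_def]
    refine max_le_max ?_ h2
    rw [Real.norm_eq_abs, abs_of_nonneg h0]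
    exact h1
  have hT : TendstoUniformlyOn (fun k x => ((e k, gradient (W k) x) : ℝ × E))
      (fun x => ((0, gradient v x) : ℝ × E)) atTop K := by
    rw [Metric.tendstoUniformlyOn_iff] at hW ⊢
    intro δ hδ
    filter_upwards [hW δ hδ, he.eventually (Metric.ball_mem_nhds 0 hδ)] with k hk hk' x hx
    rw [Prod.dist_eq]
    refine max_lt ?_ (hk x hx)
    rw [dist_comm]
    exact hk'
  have hU := UniformContinuousOn.comp_tendstoUniformlyOn_eventually (s := S) (g := Φ)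
    (Eventually.of_forall fun k x _ => hmem _ _ (he0 k).le (he1 k) (norm_gradient_le (hL k) x))
    (fun x hx => hmem _ _ le_rfl zero_le_one (hv x hx))
    (hSc.uniformContinuousOn_of_continuous hΦc.continuousOn) hT
  rw [Metric.tendstoUniformlyOn_iff] at hU
  filter_upwards [hU η hη] with k hk x hx
  have h1 := hk x hx
  rw [dist_comm, Real.dist_eq] at h1
  have e1 : Φ (0, gradient v x) = G (‖gradient v x‖ ^ (p - 1)) := by
    simp only [hΦ]
    rw [← sq_rpow (norm_nonneg (gradient v x)) (p - 1)]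
    congr 2
    ring
  rw [e1] at h1
  exact h1.le

/-- smooth convex approximations near a compact set -/
theorem exists_approx {Ω : Set E} (hΩ : IsOpen Ω) {v : E → ℝ} (hv : ConvexOn ℝ Ω v)
    (hc : ContDiffOn ℝ 1 v Ω) {K : Set E} (hK : IsCompact K) (hKΩ : K ⊆ Ω) :
    ∃ (W : ℕ → E → ℝ) (L : ℝ≥0), (∀ k, ContDiff ℝ 2 (W k)) ∧ (∀ k, ConvexOn ℝ univ (W k)) ∧
      (∀ k, LipschitzWith L (W k)) ∧ (∀ x ∈ K, ‖gradient v x‖ ≤ L) ∧
      TendstoUniformlyOn (fun k => gradient (W k)) (gradient v) atTop K := by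
  obtain ⟨K', hK', hK'c, hKK', hK'Ω⟩ := exists_convex_nbhd hΩ hv.1 hK hKΩ
  obtain ⟨V, hV, ⟨L, hL⟩, hVv, -⟩ := exists_global hΩ hv hK' hK'Ω
  obtain ⟨W, hW1, hW2, hW3, hW4⟩ := exists_smooth hV hL
  have hΩ' : interior K' ⊆ Ω := interior_subset.trans hK'Ω
  have hcint : Convex ℝ (interior K') := hK'c.interior
  have hV1 : ContDiffOn ℝ 1 V (interior K') :=
    (hc.mono hΩ').congr fun x hx => hVv x (interior_subset hx)
  have hgr : ∀ x ∈ K, gradient V x = gradient v x := by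
    intro x hx
    have hev : V =ᶠ[𝓝 x] v :=
      Filter.eventuallyEq_of_mem (isOpen_interior.mem_nhds (hKK' hx))
        fun y hy => hVv y (interior_subset hy)
    unfold gradient
    rw [hev.fderiv_eq]
  have hU := gradient_tendstoUniformlyOn isOpen_interior (w := W) (v := V) (l := atTop)
    (Eventually.of_forall fun k => (hW2 k).subset (subset_univ _) hcint)
    (hV.subset (subset_univ _) hcint) (fun x _ => hW4 x) hV1
    (Eventually.of_forall fun k x _ => ((hW1 k).differentiable (by simp)) x) hK hKK'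
  refine ⟨W, L, fun k => (hW1 k).of_le (by norm_cast), hW2, hW3, ?_, ?_⟩
  · intro x hx
    rw [← hgr x hx]
    exact norm_gradient_le hL x
  · exact hU.congr_right fun x hx => hgr x hx

omit [MeasurableSpace E] [BorelSpace E] [FiniteDimensional ℝ E] in
theorem continuousAt_gradient {Ω : Set E} (hΩ : IsOpen Ω) {v : E → ℝ}
    (hc : ContDiffOn ℝ 1 v Ω) {x : E} (hx : x ∈ Ω) : ContinuousAt (gradient v) x :=
  (LinearIsometryEquiv.continuous _).continuousAt.comp
    ((hc.continuousOn_fderiv_of_isOpen hΩ le_rfl).continuousAt (hΩ.mem_nhds hx))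

omit [MeasurableSpace E] [BorelSpace E] [FiniteDimensional ℝ E] [CompleteSpace E] in
/-- products with functions supported in `Ω` are continuous -/
theorem continuous_mul_supp {Ω : Set E} {c f : E → ℝ} (hcont : ∀ x ∈ Ω, ContinuousAt c x)
    (hf : Continuous f) (hs : tsupport f ⊆ Ω) : Continuous fun x => c x * f x := by
  rw [continuous_iff_continuousAt]
  intro x
  by_cases hx : x ∈ Ω
  · exact (hcont x hx).mul hf.continuousAt
  · have hx' : x ∉ tsupport f := fun h => hx (hs h)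
    have hev : (fun x => c x * f x) =ᶠ[𝓝 x] fun _ => 0 := by
      filter_upwards [(isClosed_tsupport f).isOpen_compl.mem_nhds hx'] with y hy
      rw [image_eq_zero_of_notMem_tsupport hy, mul_zero]
    exact (continuousAt_const (y := (0 : ℝ))).congr hev.symm

theorem bdd_of_continuousOn {G : ℝ → ℝ} (hG : ContinuousOn G (Ici 0)) (M : ℝ) :
    ∃ C : ℝ, ∀ z, 0 ≤ z → z ≤ M → |G z| ≤ C := by
  obtain ⟨C, hC⟩ := (isCompact_Icc (a := (0 : ℝ)) (b := M)).exists_bound_of_continuousOn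
    (hG.mono fun z hz => hz.1)
  exact ⟨C, fun z h0 h1 => hC z ⟨h0, h1⟩⟩

end Tr

theorem transfer {p : ℝ} (hp : 1 < p) {Ω : Set E} (hΩ : IsOpen Ω) {v : E → ℝ}
    (hv : ConvexOn ℝ Ω v) (hc : ContDiffOn ℝ 1 v Ω) {μ : ℝ} (hμ : 0 ≤ μ)
    (hs : IsSuper p Ω μ v) {Γ Γ' : ℝ → ℝ} (h0 : Γ 0 = 0) (hΓ : ContinuousOn Γ (Ici 0))
    (hΓ' : ContinuousOn Γ' (Ici 0)) (hd : ∀ z > 0, HasDerivAt Γ (Γ' z) z)
    (hpos : ∀ z ≥ 0, 0 ≤ Γ' z) (hcon : ∀ z > 0, z * Γ' z ≤ Γ z)
    {φ φ₀ : E → ℝ} (hφ : LipC Ω φ) (hφ0 : ∀ x, 0 ≤ φ x) (hψ : LipC Ω φ₀) (hψ0 : ∀ x, 0 ≤ φ₀ x)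
    (hle : ∀ x ∈ Ω, φ₀ x ≤ (Γ (‖gradient v x‖ ^ (p - 1)) -
      ‖gradient v x‖ ^ (p - 1) * Γ' (‖gradient v x‖ ^ (p - 1))) * φ x) :
    (∫ x, Γ' (‖gradient v x‖ ^ (p - 1)) * (μ + (p - 1) * ‖gradient v x‖ ^ p) * φ x)
      - ∫ x, ⟪dir (gradient v x), gradient φ₀ x⟫ ≤
    - ∫ x, ⟪Γ (‖gradient v x‖ ^ (p - 1)) • dir (gradient v x), gradient φ x⟫ := by
  obtain ⟨⟨Kφ, hKφ⟩, hφc, hφs⟩ := id hφ
  obtain ⟨⟨Kψ, hKψ⟩, hψc, hψs⟩ := id hψ
  -- the compact set
  set K : Set E := tsupport φ ∪ tsupport φ₀ with hKdef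
  have hK : IsCompact K := hφc.isCompact.union hψc.isCompact
  have hKΩ : K ⊆ Ω := union_subset hφs hψs
  obtain ⟨W, L, hW1, hW2, hW3, hvL, hW4⟩ := Tr.exists_approx hΩ hv hc hK hKΩ
  obtain ⟨χ, hχ1, hχ2, hχ3, hχ4, U, hU1, hU2, hU3⟩ := exists_cutoff hΩ hK hKΩ
  have hχK : ∀ x ∈ K, χ x = 1 := fun x hx => hU3 x (hU2 hx)
  have hχL : LipC Ω χ :=
    ⟨ContDiff.lipschitzWith_of_hasCompactSupport hχ2 hχ1 (by simp), hχ2, hχ3⟩
  have toU : ∀ {f : E → ℝ}, LipC Ω f → LipC univ f := fun hf => ⟨hf.1, hf.2.1, subset_univ _⟩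
  -- the sequence of regularisation parameters
  set e : ℕ → ℝ := fun k => 1 / ((k : ℝ) + 1) with hedef
  have he0 : ∀ k, 0 < e k := fun k => by simp only [hedef]; positivity
  have he1 : ∀ k, e k ≤ 1 := fun k => by
    simp only [hedef]
    rw [div_le_one (by positivity)]
    have : (0 : ℝ) ≤ k := Nat.cast_nonneg k
    linarith
  have he : Tendsto e atTop (𝓝 0) := tendsto_one_div_add_atTop_nhds_zero_nat
  have hWx : ∀ x ∈ K, Tendsto (fun k => gradient (W k) x) atTop (𝓝 (gradient v x)) :=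
    fun x hx => hW4.tendsto_at hx
  set M : ℝ := (1 + (L : ℝ) ^ 2) ^ ((p - 1) / 2) with hM
  have hule : ∀ k x, Tr.uu p (e k) (W k) x ≤ M := fun k x => Tr.uu_le hp (he0 k) (he1 k) (hW3 k) x
  have hu0 : ∀ k x, 0 ≤ Tr.uu p (e k) (W k) x := fun k x => (Tr.uu_pos (he0 k) p (W k) x).le
  have hmeas : ∀ {G : ℝ → ℝ}, ContinuousOn G (Ici 0) → ∀ k,
      Measurable fun x => (G (Tr.uu p (e k) (W k) x) * Tr.rr (e k) (W k) x) •
        gradient (W k) x := by
    intro G hG k
    have h1 : Continuous fun x => G (Tr.uu p (e k) (W k) x) :=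
      hG.comp_continuous (Tr.continuous_uu (he0 k) (hW1 k)) fun x => hu0 k x
    exact ((h1.mul (Tr.continuous_rr (he0 k) (hW1 k))).smul
      (Tr.continuous_gradient ((hW1 k).of_le (by norm_num)))).measurable
  have hlimG : ∀ {G : ℝ → ℝ}, ContinuousOn G (Ici 0) → G 0 = 0 → ∀ {f : E → ℝ}, LipC Ω f →
      tsupport f ⊆ K → Tendsto (fun k => - ∫ x, ⟪(G (Tr.uu p (e k) (W k) x) *
        Tr.rr (e k) (W k) x) • gradient (W k) x, gradient f x⟫) atTop
        (𝓝 (- ∫ x, ⟪G (‖gradient v x‖ ^ (p - 1)) • dir (gradient v x), gradient f x⟫)) := by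
    intro G hG hG0 f hf hfK
    obtain ⟨C, hC⟩ := Tr.bdd_of_continuousOn hG M
    refine (Tr.tendsto_int hf (hmeas hG) (C := C) (fun k x => ?_) fun x hx _ => ?_).neg
    · rw [mul_smul, norm_smul, Real.norm_eq_abs]
      calc _ ≤ |G (Tr.uu p (e k) (W k) x)| * 1 :=
            mul_le_mul_of_nonneg_left (Tr.norm_dir_le (he0 k) (W k) x) (abs_nonneg _)
        _ = |G (Tr.uu p (e k) (W k) x)| := mul_one _
        _ ≤ C := hC _ (hu0 k x) (hule k x)
    · exact Tr.lim_G hp he0 he (hWx x (hfK hx)) hG hG0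
  have hA := hlimG hΓ h0 hφ subset_union_left
  -- limit of the direction terms
  have hN : Tendsto (fun k => - ∫ x, ⟪Tr.rr (e k) (W k) x • gradient (W k) x,
      gradient φ₀ x⟫) atTop (𝓝 (- ∫ x, ⟪dir (gradient v x), gradient φ₀ x⟫)) := by
    refine (Tr.tendsto_int hψ (F := fun k x => Tr.rr (e k) (W k) x • gradient (W k) x)
      (fun k => ?_) (C := 1) (fun k x => Tr.norm_dir_le (he0 k) (W k) x) fun x hx hne => ?_).neg
    · exact ((Tr.continuous_rr (he0 k) (hW1 k)).smul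
        (Tr.continuous_gradient ((hW1 k).of_le (by norm_num)))).measurable
    · refine Tr.lim_dir he (hWx x (Or.inr hx)) fun hz => hne ?_
      -- at critical points `φ₀` has a minimum
      have hxΩ : x ∈ Ω := hψs hx
      have h1 := hle x hxΩ
      rw [hz, norm_zero, Real.zero_rpow (by linarith), h0] at h1
      have h2 : φ₀ x = 0 := le_antisymm (by simpa using h1) (hψ0 x)
      have h3 : IsLocalMin φ₀ x := Eventually.of_forall fun y => by rw [h2]; exact hψ0 y
      unfold gradient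
      rw [h3.fderiv_eq_zero, map_zero]
  -- uniform convergence
  have hβc : ContinuousOn (fun z => Γ z - z * Γ' z) (Ici 0) :=
    hΓ.sub (continuousOn_id.mul hΓ')
  obtain ⟨B, hB⟩ : ∃ B : ℝ, ∀ x, |φ x| ≤ B := by
    obtain ⟨B, hB⟩ := hφc.exists_bound_of_continuous hKφ.continuous
    exact ⟨B, hB⟩
  have hB0 : 0 ≤ B := (abs_nonneg _).trans (hB 0)
  -- coefficient
  set c : E → ℝ := fun x => μ + (p - 1) * ‖gradient v x‖ ^ p with hcdef
  have hc0 : ∀ x, 0 ≤ c x := fun x => by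
    have h1 : 0 < p - 1 := by linarith
    have h2 : 0 ≤ ‖gradient v x‖ ^ p := by positivity
    simp only [hcdef]
    positivity
  have hccont : ∀ x ∈ Ω, ContinuousAt c x := fun x hx => by
    have h1 := (Tr.continuousAt_gradient hΩ hc hx).norm
    exact continuousAt_const.add (continuousAt_const.mul
      (h1.rpow_const (Or.inr (by linarith))))
  have hΓ'cont : ∀ x ∈ Ω, ContinuousAt (fun x => Γ' (‖gradient v x‖ ^ (p - 1))) x := by
    intro x hx
    have h1 : ContinuousAt (fun x => ‖gradient v x‖ ^ (p - 1)) x :=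
      (Tr.continuousAt_gradient hΩ hc hx).norm.rpow_const (Or.inr (by linarith))
    have h2 : (0 : ℝ) ≤ ‖gradient v x‖ ^ (p - 1) := by positivity
    exact (hΓ' _ h2).tendsto.comp (tendsto_nhdsWithin_iff.2 ⟨h1,
      Eventually.of_forall fun y => by
        have : (0 : ℝ) ≤ ‖gradient v y‖ ^ (p - 1) := by positivity
        exact this⟩)
  set ψ : E → ℝ := fun x => Γ' (‖gradient v x‖ ^ (p - 1)) * φ x with hψdef
  have hψcont : Continuous ψ := Tr.continuous_mul_supp hΓ'cont hKφ.continuous hφs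
  have hψcomp : HasCompactSupport ψ := hφc.mul_left
  have hψsub : tsupport ψ ⊆ tsupport φ := tsupport_mul_subset_right
  have hψnn : ∀ x, 0 ≤ ψ x := fun x => mul_nonneg (hpos _ (by positivity)) (hφ0 x)
  have hcmul : ∀ {f : E → ℝ}, Continuous f → HasCompactSupport f → tsupport f ⊆ Ω →
      Integrable fun x => c x * f x := fun hf1 hf2 hf3 =>
    (Tr.continuous_mul_supp hccont hf1 hf3).integrable_of_hasCompactSupport hf2.mul_left
  have icψ := hcmul hψcont hψcomp (hψsub.trans hφs)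
  have icχ := hcmul hχ1.continuous hχ2 hχ3
  -- the limit inequality with an error
  have key : ∀ η > 0, (∫ x, c x * ψ x) + (- ∫ x, ⟪dir (gradient v x), gradient φ₀ x⟫) -
      η * ((∫ x, c x * χ x) + (M + 1) * ∫ x, ‖gradient χ x‖) ≤
      - ∫ x, ⟪Γ (‖gradient v x‖ ^ (p - 1)) • dir (gradient v x), gradient φ x⟫ := by
    intro η hη
    obtain ⟨ζ, hζ1, hζ2, hζ3, hζ4, hζ5⟩ := lipC_approx hΩ hψcont hψcomp (hψsub.trans hφs) hψnn hη
    have hζK : tsupport ζ ⊆ K := hζ2.trans (hψsub.trans subset_union_left)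
    have hBz := hlimG (G := fun z => z) continuousOn_id rfl hζ1 hζK
    have hη' : 0 < η / (B + 1) := by positivity
    have hu1 := Tr.unif hp he0 he1 he hW3 hvL hW4 hΓ' hη'
    have hu2 := Tr.unif hp he0 he1 he hW3 hvL hW4 hβc hη'
    have hBη : η / (B + 1) * B ≤ η := by
      rw [div_mul_eq_mul_div, div_le_iff₀ (by positivity)]
      nlinarith
    have hφB : ∀ x, φ x ≤ B := fun x => (le_abs_self _).trans (hB x)
    have hineq : ∀ᶠ k in atTop,
        (- ∫ x, ⟪(Tr.uu p (e k) (W k) x * Tr.rr (e k) (W k) x) • gradient (W k) x,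
          gradient ζ x⟫) + (- ∫ x, ⟪Tr.rr (e k) (W k) x • gradient (W k) x, gradient φ₀ x⟫) -
          η * ((M + 1) * ∫ x, ‖gradient χ x‖) ≤
        - ∫ x, ⟪(Γ (Tr.uu p (e k) (W k) x) * Tr.rr (e k) (W k) x) • gradient (W k) x,
          gradient φ x⟫ := by
      filter_upwards [hu1, hu2] with k hk1 hk2
      refine Tr.main_ineq hp (hW1 k) (hW2 k) (hW3 k) (he0 k) (he1 k) hd hΓ' (toU hφ) (toU hζ1)
        (toU hψ) (toU hχL) hη.le (fun x => ?_) fun x => ?_
      · by_cases hx : x ∈ K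
        · have a1 := abs_le.1 (hk1 x hx)
          have a2 : ζ x ≤ Γ' (‖gradient v x‖ ^ (p - 1)) * φ x := hζ4 x
          rw [hχK x hx]
          have a3 : Γ' (‖gradient v x‖ ^ (p - 1)) * φ x ≤
              (Γ' (Tr.uu p (e k) (W k) x) + η / (B + 1)) * φ x :=
            mul_le_mul_of_nonneg_right (by linarith [a1.1]) (hφ0 x)
          have a4 : η / (B + 1) * φ x ≤ η / (B + 1) * B :=
            mul_le_mul_of_nonneg_left (hφB x) hη'.le
          rw [add_mul] at a3
          linarith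
        · have b1 : φ x = 0 := image_eq_zero_of_notMem_tsupport fun h => hx (Or.inl h)
          have b2 : ζ x = 0 := image_eq_zero_of_notMem_tsupport fun h => hx (hζK h)
          rw [b1, b2, mul_zero]
          have := mul_nonneg hη.le (hχ4 x).1
          linarith
      · by_cases hx : x ∈ K
        · have a1 := abs_le.1 (hk2 x hx)
          have a2 := hle x (hKΩ hx)
          rw [hχK x hx]
          have a3 : (Γ (‖gradient v x‖ ^ (p - 1)) -
              ‖gradient v x‖ ^ (p - 1) * Γ' (‖gradient v x‖ ^ (p - 1))) * φ x ≤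
              ((Γ (Tr.uu p (e k) (W k) x) - Tr.uu p (e k) (W k) x *
                Γ' (Tr.uu p (e k) (W k) x)) + η / (B + 1)) * φ x :=
            mul_le_mul_of_nonneg_right (by linarith [a1.1]) (hφ0 x)
          have a4 : η / (B + 1) * φ x ≤ η / (B + 1) * B :=
            mul_le_mul_of_nonneg_left (hφB x) hη'.le
          rw [add_mul] at a3
          linarith
        · have b1 : φ x = 0 := image_eq_zero_of_notMem_tsupport fun h => hx (Or.inl h)
          have b2 : φ₀ x = 0 := image_eq_zero_of_notMem_tsupport fun h => hx (Or.inr h)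
          rw [b1, b2, mul_zero]
          have := mul_nonneg hη.le (hχ4 x).1
          linarith
    have hlim := le_of_tendsto_of_tendsto ((hBz.add hN).sub_const
      (η * ((M + 1) * ∫ x, ‖gradient χ x‖))) hA hineq
    have hX : - ∫ x, ⟪‖gradient v x‖ ^ (p - 1) • dir (gradient v x), gradient ζ x⟫ =
        XF p v ζ := by
      unfold XF
      simp only [Tr.aP_eq]
    rw [hX] at hlim
    have hsup := hs ζ hζ1 hζ3
    have icζ := hcmul (hζ1.1.choose_spec).continuous hζ1.2.1 hζ1.2.2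
    have hcmp : ∫ x, (c x * ψ x - η * (c x * χ x)) ≤ ∫ x, c x * ζ x := by
      refine integral_mono (icψ.sub (icχ.const_mul η)) icζ fun x => ?_
      have h1 : ψ x - η * χ x ≤ ζ x := by
        by_cases hx : x ∈ K
        · rw [hχK x hx]
          have := hζ5 x
          linarith
        · have b1 : ψ x = 0 := image_eq_zero_of_notMem_tsupport fun h =>
            hx (Or.inl (hψsub h))
          have := mul_nonneg hη.le (hχ4 x).1
          have := hζ3 x
          linarith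
      have h2 := mul_le_mul_of_nonneg_left h1 (hc0 x)
      calc c x * ψ x - η * (c x * χ x) = c x * (ψ x - η * χ x) := by ring
        _ ≤ c x * ζ x := h2
    rw [integral_sub icψ (icχ.const_mul η), integral_const_mul] at hcmp
    have hsup' : ∫ x, c x * ζ x ≤ XF p v ζ := hsup
    have hexp : η * ((∫ x, c x * χ x) + (M + 1) * ∫ x, ‖gradient χ x‖) =
        η * (∫ x, c x * χ x) + η * ((M + 1) * ∫ x, ‖gradient χ x‖) := by ring
    rw [hexp]
    linarith
  -- let the error tend to zero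
  set Q : ℝ := (∫ x, c x * χ x) + (M + 1) * ∫ x, ‖gradient χ x‖ with hQ
  have hQ0 : 0 ≤ Q := by
    have h1 : 0 ≤ ∫ x, c x * χ x := integral_nonneg fun x => mul_nonneg (hc0 x) (hχ4 x).1
    have h2 : 0 ≤ ∫ x, ‖gradient χ x‖ := integral_nonneg fun x => norm_nonneg _
    have h3 : 0 ≤ M := by positivity
    positivity
  have hgoal : (∫ x, Γ' (‖gradient v x‖ ^ (p - 1)) * (μ + (p - 1) * ‖gradient v x‖ ^ p) * φ x) =
      ∫ x, c x * ψ x := by
    refine integral_congr_ae (ae_of_all _ fun x => ?_)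
    simp only [hcdef, hψdef]
    ring
  rw [hgoal, sub_eq_add_neg]
  refine le_of_forall_pos_le_add fun δ hδ => ?_
  have h1 := key (δ / (Q + 1)) (by positivity)
  have h2 : δ / (Q + 1) * Q ≤ δ := by
    rw [div_mul_eq_mul_div, div_le_iff₀ (by positivity)]
    nlinarith
  linarith

end PLap
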