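import Pool.Agent.Lib.MP_a627f3_an.VecA
import Pool.Agent.Lib.MP_a627f3_an.Gamma
import Pool.Agent.Lib.MP_a627f3_an.Rayl
import Pool.Agent.Lib.MP_a627f3_an.Transfer

open MeasureTheory Set Filter Topology Metric
open scoped RealInnerProductSpace ENNReal NNReal

namespace PLap

set_option linter.unusedSectionVars false

variable {E : Type*} [NormedAddCommGroup E] [InnerProductSpace ℝ E] [FiniteDimensional ℝ E]
  [CompleteSpace E] [MeasurableSpace E] [BorelSpace E]

theorem Reg.continuousOn_gradient {Ω : Set E} {v : E → ℝ} (hv : Reg Ω v) :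
    ContinuousOn (gradient v) Ω := by
  have h : ContinuousOn (fderiv ℝ v) Ω := hv.c1.continuousOn_fderiv_of_isOpen hv.isOpen le_rfl
  exact ((InnerProductSpace.toDual ℝ E).symm.continuous.comp_continuousOn h)

theorem integrable_mul_of_continuousOn {Ω : Set E} (hΩ : IsOpen Ω) {F φ : E → ℝ}
    (hF : ContinuousOn F Ω) (hφ : Continuous φ) (hc : HasCompactSupport φ) (hs : tsupport φ ⊆ Ω) :
    Integrable (fun x => F x * φ x) := by
  have h1 : Continuous (fun x => F x * φ x) := by
    rw [continuous_iff_continuousAt]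
    intro x
    by_cases hx : x ∈ Ω
    · exact (hF.continuousAt (hΩ.mem_nhds hx)).mul hφ.continuousAt
    · have hx' : x ∉ tsupport φ := fun h => hx (hs h)
      have : (fun x => F x * φ x) =ᶠ[𝓝 x] fun _ => 0 := by
        filter_upwards [(isClosed_tsupport φ).isOpen_compl.mem_nhds hx'] with y hy
        rw [image_eq_zero_of_notMem_tsupport hy, mul_zero]
      exact continuousAt_const.congr this.symm
  exact h1.integrable_of_hasCompactSupport hc.mul_left

theorem norm_smul_dir (Γ : ℝ → ℝ) (h0 : Γ 0 = 0) {p : ℝ} (hp : 1 < p) (hnn : ∀ z ≥ 0, 0 ≤ Γ z)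
    (ξ : E) : ‖Γ (‖ξ‖ ^ (p - 1)) • dir ξ‖ = Γ (‖ξ‖ ^ (p - 1)) := by
  by_cases h : ξ = 0
  · subst h
    rw [norm_zero, Real.zero_rpow (by linarith), h0]
    simp
  · rw [norm_smul, dir, norm_smul, norm_inv, norm_norm, inv_mul_cancel₀ (norm_ne_zero_iff.mpr h),
      mul_one, Real.norm_of_nonneg (hnn _ (by positivity))]

theorem continuousOn_field {Ω : Set E} {v : E → ℝ} (hv : Reg Ω v) {Γ : ℝ → ℝ} (h0 : Γ 0 = 0)
    (hΓ : ContinuousOn Γ (Ici 0)) {p : ℝ} (hp : 1 < p) (hnn : ∀ z ≥ 0, 0 ≤ Γ z) :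
    ContinuousOn (fun x => Γ (‖gradient v x‖ ^ (p - 1)) • dir (gradient v x)) Ω := by
  have hcont : Continuous (fun ξ : E => Γ (‖ξ‖ ^ (p - 1)) • dir ξ) := by
    have hG : Continuous (fun ξ : E => Γ (‖ξ‖ ^ (p - 1))) := by
      have : Continuous (fun ξ : E => ‖ξ‖ ^ (p - 1)) :=
        continuous_norm.rpow_const (fun _ => Or.inr (by linarith))
      exact hΓ.comp_continuous this (fun ξ => by simp only [mem_Ici]; positivity)
    rw [continuous_iff_continuousAt]
    intro ξ
    by_cases h : ξ = 0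
    · subst h
      have e : (fun ξ : E => Γ (‖ξ‖ ^ (p - 1)) • dir ξ) 0 = 0 := by simp [dir]
      unfold ContinuousAt
      rw [e]
      apply squeeze_zero_norm (a := fun ξ : E => Γ (‖ξ‖ ^ (p - 1)))
      · intro ξ; rw [norm_smul_dir Γ h0 hp hnn]
      · have := hG.tendsto 0
        rwa [norm_zero, Real.zero_rpow (by linarith), h0] at this
    · apply hG.continuousAt.smul
      unfold dir
      exact (continuousAt_id.norm.inv₀ (by simpa using h)).smul continuousAt_id
  exact hcont.comp_continuousOn hv.continuousOn_gradient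

theorem super_le_lam {p : ℝ} (hp : 1 < p) {Ω : Set E} {v : E → ℝ} (hv : Reg Ω v) {μ : ℝ}
    (hs : IsSuper p Ω μ v) : μ ≤ lam p Ω := by
  refine le_lam hp hv.isOpen hv.nonempty ?_
  intro u hu
  have hφ := lipC_abs_rpow hp hu
  have h1 := hs _ hφ (fun x => by positivity)
  have hS : ContinuousOn (fun x => aP p (gradient v x)) Ω :=
    (continuous_aP hp).comp_continuousOn hv.continuousOn_gradient
  have h2 := young_step hp hv.isOpen hS hu
  have hcφ : Continuous (fun x => |u x| ^ p) := by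
    obtain ⟨⟨K, hK⟩, -⟩ := hφ; exact hK.continuous
  have e1 : ∀ x, ‖aP p (gradient v x)‖ ^ (p / (p - 1)) = ‖gradient v x‖ ^ p := by
    intro x
    rw [norm_aP hp, ← Real.rpow_mul (norm_nonneg _)]
    congr 1
    have : p - 1 ≠ 0 := by linarith
    field_simp
  simp only [e1] at h2
  have i1 : Integrable (fun x => μ * |u x| ^ p) := by
    exact integrable_mul_of_continuousOn hv.isOpen (F := fun _ => μ) continuousOn_const hcφ
      hφ.2.1 hφ.2.2
  have hgp : ContinuousOn (fun x => ‖gradient v x‖ ^ p) Ω :=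
    hv.continuousOn_gradient.norm.rpow_const (fun _ _ => Or.inr (by linarith))
  have i2 : Integrable (fun x => (p - 1) * ‖gradient v x‖ ^ p * |u x| ^ p) :=
    integrable_mul_of_continuousOn hv.isOpen (F := fun x => (p - 1) * ‖gradient v x‖ ^ p)
      (continuousOn_const.mul hgp) hcφ hφ.2.1 hφ.2.2
  have e2 : ∫ x, (μ + (p - 1) * ‖gradient v x‖ ^ p) * |u x| ^ p =
      μ * (∫ x, |u x| ^ p) + (p - 1) * ∫ x, ‖gradient v x‖ ^ p * |u x| ^ p := by
    rw [← integral_const_mul, ← integral_const_mul, ← integral_add i1]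
    · apply integral_congr_ae; filter_upwards with x; ring
    · exact i2.congr (by filter_upwards with x; ring)
  unfold XF at h1
  linarith

theorem barta_slack {p q μ : ℝ} (hq : 1 < q) (hqp : q < p) (hμ : 0 < μ) :
    ∃ (β : ℝ → ℝ) (C : ℝ), 0 ≤ C ∧ ContinuousOn β (Ici 0) ∧ (∀ z > 0, 0 < β z) ∧
      ∀ (Ω : Set E) (v : E → ℝ), Reg Ω v → ∀ μ' : ℝ, 0 ≤ μ' → μ' ≤ μ → IsSuper p Ω μ' v →
        ∀ u, IsTest Ω u → ∀ φ₀, LipC Ω φ₀ → (∀ x, 0 ≤ φ₀ x) →
          (∀ x ∈ Ω, φ₀ x ≤ β (‖gradient v x‖ ^ (p - 1)) * |u x| ^ q) →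
          (Lam p q μ - C * (μ - μ')) * (∫ x, |u x| ^ q)
            - ∫ x, ⟪dir (gradient v x), gradient φ₀ x⟫ ≤ ∫ x, ‖fderiv ℝ u x‖ ^ q := by
  have hp : 1 < p := hq.trans hqp
  obtain ⟨Γ, Γ', h0, hΓ, hΓ', hd, hpos', hnn, hcon, hode⟩ := exists_gamma hq hqp hμ
  -- Γ' is bounded by Lam/μ : from concavity-like inequality
  have hbd : ∃ C, 0 ≤ C ∧ ∀ z ≥ 0, Γ' z ≤ C := by
    -- Γ z / z is nonincreasing near ... use monotonicity: d/dz (Γ z / z) < 0 , so Γ' z < Γ z / z ≤ Γ 1 for z ≥ 1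
    have hanti : AntitoneOn (fun z => Γ z / z) (Ioi 0) := by
      apply antitoneOn_of_deriv_nonpos (convex_Ioi 0)
      · intro z hz
        have hz' : (0:ℝ) < z := hz
        exact ((hd z hz').continuousAt.continuousWithinAt).div continuousWithinAt_id hz'.ne'
      · rw [interior_Ioi]
        intro z hz
        have hz' : (0:ℝ) < z := hz
        exact (((hd z hz').div (hasDerivAt_id z) hz'.ne').differentiableAt).differentiableWithinAt
      · rw [interior_Ioi]
        intro z hz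
        have hz' : (0:ℝ) < z := hz
        have hdd : HasDerivAt (fun z => Γ z / z) ((Γ' z * z - Γ z * 1) / z ^ 2) z :=
          (hd z hz').div (hasDerivAt_id z) hz'.ne'
        rw [hdd.deriv]
        apply div_nonpos_of_nonpos_of_nonneg
        · have := hcon z hz'
          nlinarith
        · positivity
    obtain ⟨C₁, hC₁⟩ := (isCompact_Icc (a := (0:ℝ)) (b := 1)).bddAbove_image
      (hΓ'.mono (fun z hz => hz.1))
    refine ⟨max C₁ (Γ 1), ?_, ?_⟩
    · exact le_max_of_le_right (hnn 1 zero_le_one)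
    · intro z hz
      by_cases h1 : z ≤ 1
      · exact le_max_of_le_left (hC₁ ⟨z, ⟨hz, h1⟩, rfl⟩)
      · push Not at h1
        apply le_max_of_le_right
        have hz' : 0 < z := by linarith
        have h2 := hanti (show (1:ℝ) ∈ Ioi 0 by simp) (show z ∈ Ioi 0 from hz') h1.le
        simp only [div_one] at h2
        have h3 := hcon z hz'
        have : Γ' z < Γ z / z := by
          rw [lt_div_iff₀ hz']; linarith
        linarith
  obtain ⟨C, hC0, hC⟩ := hbd
  refine ⟨fun z => Γ z - z * Γ' z, C, hC0, ?_, ?_, ?_⟩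
  · exact hΓ.sub (continuousOn_id.mul hΓ')
  · intro z hz; have := hcon z hz; simp only; linarith
  intro Ω v hv μ' hμ'0 hμ'le hs u hu φ₀ hφ₀ hφ₀0 hle
  have hφ := lipC_abs_rpow hq hu
  have hcφ : Continuous (fun x => |u x| ^ q) := by
    obtain ⟨⟨K, hK⟩, -⟩ := hφ; exact hK.continuous
  have h1 := transfer hp hv.isOpen hv.cvx hv.c1 hμ'0 hs h0 hΓ hΓ' hd (fun z hz => (hpos' z hz).le)
    (fun z hz => (hcon z hz).le) hφ (fun x => by positivity) hφ₀ hφ₀0 hle
  have h2 := young_step hq hv.isOpen (continuousOn_field hv h0 hΓ hp hnn) hu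
  simp only [norm_smul_dir Γ h0 hp hnn] at h2
  set z : E → ℝ := fun x => ‖gradient v x‖ ^ (p - 1) with hz
  have hz0 : ∀ x, 0 ≤ z x := fun x => by simp only [hz]; positivity
  have hzc : ContinuousOn z Ω :=
    hv.continuousOn_gradient.norm.rpow_const (fun _ _ => Or.inr (by linarith))
  have hzp : ∀ x, z x ^ (p / (p - 1)) = ‖gradient v x‖ ^ p := by
    intro x
    simp only [hz]
    rw [← Real.rpow_mul (norm_nonneg _)]
    congr 1
    have : p - 1 ≠ 0 := by linarith
    field_simp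
  have hΓz : ContinuousOn (fun x => Γ (z x)) Ω := hΓ.comp hzc (fun x _ => hz0 x)
  have hΓ'z : ContinuousOn (fun x => Γ' (z x)) Ω := hΓ'.comp hzc (fun x _ => hz0 x)
  have hgp : ContinuousOn (fun x => ‖gradient v x‖ ^ p) Ω :=
    hv.continuousOn_gradient.norm.rpow_const (fun _ _ => Or.inr (by linarith))
  have iA : Integrable (fun x => Γ' (z x) * (μ' + (p - 1) * ‖gradient v x‖ ^ p) * |u x| ^ q) :=
    integrable_mul_of_continuousOn hv.isOpen (F := fun x => Γ' (z x) * (μ' + (p - 1) * ‖gradient v x‖ ^ p))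
      (hΓ'z.mul (continuousOn_const.add (continuousOn_const.mul hgp))) hcφ hφ.2.1 hφ.2.2
  have iB : Integrable (fun x => (Γ (z x)) ^ (q / (q - 1)) * |u x| ^ q) := by
    refine integrable_mul_of_continuousOn hv.isOpen (F := fun x => (Γ (z x)) ^ (q / (q - 1)))
      (hΓz.rpow_const (fun x _ => Or.inr ?_)) hcφ hφ.2.1 hφ.2.2
    have : 0 < q - 1 := by linarith
    positivity
  have iU : Integrable (fun x => |u x| ^ q) := hcφ.integrable_of_hasCompactSupport hφ.2.1
  have key : (Lam p q μ - C * (μ - μ')) * (∫ x, |u x| ^ q) +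
      (q - 1) * ∫ x, (Γ (z x)) ^ (q / (q - 1)) * |u x| ^ q ≤
      ∫ x, Γ' (z x) * (μ' + (p - 1) * ‖gradient v x‖ ^ p) * |u x| ^ q := by
    rw [← integral_const_mul, ← integral_const_mul, ← integral_add (iU.const_mul _) (iB.const_mul _)]
    apply integral_mono ((iU.const_mul _).add (iB.const_mul _)) iA
    intro x
    have ho := hode (z x) (hz0 x)
    rw [hzp x] at ho
    have hCz := hC (z x) (hz0 x)
    have hu0 : 0 ≤ |u x| ^ q := by positivity
    have e3 : Γ' (z x) * (μ' + (p - 1) * ‖gradient v x‖ ^ p) =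
        Lam p q μ + (q - 1) * Γ (z x) ^ (q / (q - 1)) - (μ - μ') * Γ' (z x) := by
      rw [← ho]; ring
    have e4 : (μ - μ') * Γ' (z x) ≤ C * (μ - μ') := by
      rw [mul_comm]; exact mul_le_mul_of_nonneg_right hCz (by linarith)
    show (Lam p q μ - C * (μ - μ')) * |u x| ^ q + (q - 1) * ((Γ (z x)) ^ (q / (q - 1)) * |u x| ^ q) ≤
      Γ' (z x) * (μ' + (p - 1) * ‖gradient v x‖ ^ p) * |u x| ^ q
    rw [e3]
    nlinarith
  simp only [hz] at key
  linarith

theorem lam_ge_of_super {p q μ : ℝ} (hq : 1 < q) (hqp : q < p) (hμ : 0 < μ) {Ω : Set E}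
    {v : E → ℝ} (hv : Reg Ω v) (hs : IsSuper p Ω μ v) : Lam p q μ ≤ lam q Ω := by
  obtain ⟨β, C, hC, hβc, hβ, h⟩ := barta_slack (E := E) hq hqp hμ
  refine le_lam hq hv.isOpen hv.nonempty ?_
  intro u hu
  have h1 := h Ω v hv μ hμ.le le_rfl hs u hu (fun _ => 0)
    ⟨⟨0, LipschitzWith.const 0⟩, HasCompactSupport.zero, by simp [tsupport]⟩
    (fun _ => le_rfl) (by
      intro x hx
      rcases eq_or_lt_of_le (show (0:ℝ) ≤ ‖gradient v x‖ ^ (p - 1) by positivity) with h0 | h0
      · rw [← h0]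
        have : 0 ≤ β 0 := by
          have hcl : Tendsto β (𝓝[>] 0) (𝓝 (β 0)) :=
            (hβc 0 (by simp)).mono_left (nhdsWithin_mono _ Ioi_subset_Ici_self)
          exact ge_of_tendsto hcl (by filter_upwards [self_mem_nhdsWithin] with z hz using (hβ z hz).le)
        positivity
      · have := (hβ _ h0).le
        positivity)
  have e : ∀ x, gradient (fun _ : E => (0:ℝ)) x = 0 := by
    intro x; simp [gradient]
  simp only [e, inner_zero_right, integral_zero, sub_zero, sub_self, mul_zero] at h1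
  exact h1

end PLap
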