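import Pool.Agent.Lib.MP_a627f3_an.Defs

open MeasureTheory Set Filter Topology Metric
open scoped RealInnerProductSpace ENNReal NNReal

namespace PLap

variable {E : Type*} [NormedAddCommGroup E] [InnerProductSpace ℝ E] [FiniteDimensional ℝ E]
  [CompleteSpace E] [MeasurableSpace E] [BorelSpace E]

/-- Open polyhedron `{x | ∀ i, 0 < ⟪n i, x⟫ + c i}`. -/
def Pol {ι : Type*} (n : ι → E) (c : ι → ℝ) : Set E := {x | ∀ i, 0 < ⟪n i, x⟫ + c i}
/-- Upper barrier. -/
noncomputable def PsiB {ι : Type*} [Fintype ι] (n : ι → E) (c : ι → ℝ) (T : ℝ) (x : E) : ℝ :=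
  T + ∑ i, (⟪n i, x⟫ + c i)⁻¹
/-- Lower barriers. -/
noncomputable def LowB {ι : Type*} (n : ι → E) (c : ι → ℝ) (w : ℝ) (i : ι) (x : E) : ℝ :=
  Real.log (w / (⟪n i, x⟫ + c i)) / 2



variable {ι : Type*} [Fintype ι] {n : ι → E} {c : ι → ℝ}

omit [FiniteDimensional ℝ E] [CompleteSpace E] [MeasurableSpace E] [BorelSpace E]
  [Fintype ι] in
private theorem Poly.contDiff_aff (i : ι) : ContDiff ℝ 2 fun x : E => ⟪n i, x⟫ + c i :=
  (contDiff_const.inner ℝ contDiff_id).add contDiff_const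

theorem contDiffOn_PsiB (T : ℝ) : ContDiffOn ℝ 2 (PsiB n c T) (Pol n c) := by
  unfold PsiB
  refine contDiffOn_const.add (ContDiffOn.sum fun i _ => ?_)
  exact (Poly.contDiff_aff i).contDiffOn.inv fun x hx => (hx i).ne'

theorem contDiffOn_LowB {w : ℝ} (hw : 0 < w) (i : ι) :
    ContDiffOn ℝ 2 (LowB n c w i) (Pol n c) := by
  unfold LowB
  refine ContDiffOn.div_const (ContDiffOn.log ?_ ?_) _
  · exact contDiffOn_const.div (Poly.contDiff_aff i).contDiffOn fun x hx => (hx i).ne'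
  · intro x hx
    exact (div_pos hw (hx i)).ne'

omit [FiniteDimensional ℝ E] [CompleteSpace E] [MeasurableSpace E] [BorelSpace E] in
private theorem Poly.isOpen_Pol : IsOpen (Pol n c) := by
  have h1 : Pol n c = ⋂ i, {x | 0 < ⟪n i, x⟫ + c i} := by
    ext x; simp [Pol]
  rw [h1]
  exact isOpen_iInter_of_finite fun i => isOpen_lt continuous_const (by fun_prop)

omit [FiniteDimensional ℝ E] [CompleteSpace E] [MeasurableSpace E] [BorelSpace E]
  [Fintype ι] in
private theorem Poly.convex_Pol : Convex ℝ (Pol n c) := by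
  intro x hx y hy a b ha hb hab i
  have h1 : ⟪n i, a • x + b • y⟫ + c i = a * (⟪n i, x⟫ + c i) + b * (⟪n i, y⟫ + c i) := by
    rw [inner_add_right, inner_smul_right, inner_smul_right]
    have : c i = (a + b) * c i := by rw [hab, one_mul]
    linarith
  rw [h1]
  rcases ha.eq_or_lt with h2 | h2
  · have h3 : b = 1 := by linarith
    rw [← h2, h3]
    have := hy i
    linarith
  · have h3 := mul_pos h2 (hx i)
    have h4 := mul_nonneg hb (hy i).le
    linarith

omit [FiniteDimensional ℝ E] [CompleteSpace E] [MeasurableSpace E] [BorelSpace E] in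
private theorem Poly.convexOn_PsiB (T : ℝ) : ConvexOn ℝ (Pol n c) (PsiB n c T) := by
  unfold PsiB
  refine ConvexOn.add (convexOn_const _ Poly.convex_Pol) ?_
  have h1 : ∀ i, ConvexOn ℝ (Pol n c) fun x => (⟪n i, x⟫ + c i)⁻¹ := by
    intro i
    refine ⟨Poly.convex_Pol, fun x hx y hy a b ha hb hab => ?_⟩
    have h2 : ⟪n i, a • x + b • y⟫ + c i = a • (⟪n i, x⟫ + c i) + b • (⟪n i, y⟫ + c i) := by
      rw [inner_add_right, inner_smul_right, inner_smul_right, smul_eq_mul, smul_eq_mul]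
      have : c i = (a + b) * c i := by rw [hab, one_mul]
      linarith
    have h3 := (convexOn_zpow (𝕜 := ℝ) (-1)).2 (hx i : 0 < ⟪n i, x⟫ + c i)
      (hy i : 0 < ⟪n i, y⟫ + c i) ha hb hab
    simp only [zpow_neg_one] at h3
    show (⟪n i, a • x + b • y⟫ + c i)⁻¹ ≤ a • (⟪n i, x⟫ + c i)⁻¹ + b • (⟪n i, y⟫ + c i)⁻¹
    rw [h2]
    exact h3
  refine ⟨Poly.convex_Pol, fun x hx y hy a b ha hb hab => ?_⟩
  simp only [smul_eq_mul, Finset.mul_sum, ← Finset.sum_add_distrib]
  exact Finset.sum_le_sum fun i _ => by simpa using (h1 i).2 hx hy ha hb hab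

omit [FiniteDimensional ℝ E] [MeasurableSpace E] [BorelSpace E] in
private theorem Poly.norm_gradient_le (hn : ∀ i, ‖n i‖ = 1) (T : ℝ) {x : E}
    (hx : x ∈ Pol n c) : ‖gradient (PsiB n c T) x‖ ≤ ∑ i, ((⟪n i, x⟫ + c i)⁻¹) ^ 2 := by
  have h1 : ∀ i, HasFDerivAt (fun x => (⟪n i, x⟫ + c i)⁻¹)
      ((-((⟪n i, x⟫ + c i) ^ 2)⁻¹) • innerSL ℝ (n i)) x := by
    intro i
    have h2 : HasFDerivAt (fun x : E => ⟪n i, x⟫ + c i) (innerSL ℝ (n i)) x :=
      ((innerSL ℝ (n i)).hasFDerivAt (x := x)).add_const (c i)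
    exact (hasDerivAt_inv (hx i).ne').comp_hasFDerivAt x h2
  have h2 : HasFDerivAt (PsiB n c T)
      (∑ i, (-((⟪n i, x⟫ + c i) ^ 2)⁻¹) • innerSL ℝ (n i)) x := by
    unfold PsiB
    exact (HasFDerivAt.fun_sum fun i _ => h1 i).const_add T
  have h3 : ‖gradient (PsiB n c T) x‖ = ‖fderiv ℝ (PsiB n c T) x‖ := by
    unfold gradient
    exact LinearIsometryEquiv.norm_map _ _
  rw [h3, h2.fderiv]
  refine (norm_sum_le _ _).trans (Finset.sum_le_sum fun i _ => ?_)
  rw [norm_smul, innerSL_apply_norm, hn i, mul_one, norm_neg, Real.norm_eq_abs, abs_inv,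
    abs_of_nonneg (sq_nonneg _), inv_pow]

private theorem Poly.sq_exp (y : ℝ) (hy : 0 ≤ y) : y ^ 2 * Real.exp (-y) ≤ 2 := by
  have h1 : y ^ 2 / 2 ≤ Real.exp y := by
    have := Real.quadratic_le_exp_of_nonneg hy
    linarith
  rw [Real.exp_neg, ← div_eq_mul_inv, div_le_iff₀ (Real.exp_pos _)]
  linarith

omit [FiniteDimensional ℝ E] [MeasurableSpace E] [BorelSpace E] in
/-- pointwise bound of the energy density -/
private theorem Poly.dens_le (hn : ∀ i, ‖n i‖ = 1) {p : ℝ} (hp : 1 < p) (T : ℝ) {x : E}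
    (hx : x ∈ Pol n c) : ‖gradient (PsiB n c T) x‖ ^ p * Real.exp (-p * PsiB n c T x) ≤
      (Real.exp (-T) * (2 * Fintype.card ι)) ^ p := by
  have h1 : Real.exp (-p * PsiB n c T x) = (Real.exp (-PsiB n c T x)) ^ p := by
    rw [← Real.exp_mul]; congr 1; ring
  rw [h1, ← Real.mul_rpow (norm_nonneg _) (Real.exp_pos _).le]
  refine Real.rpow_le_rpow (by positivity) ?_ (by linarith)
  have h2 := Poly.norm_gradient_le hn T hx
  have hy : ∀ i, 0 < (⟪n i, x⟫ + c i)⁻¹ := fun i => inv_pos.2 (hx i)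
  have h3 : ∀ i, Real.exp (-PsiB n c T x) ≤ Real.exp (-T) * Real.exp (-(⟪n i, x⟫ + c i)⁻¹) := by
    intro i
    rw [← Real.exp_add, Real.exp_le_exp]
    have h4 : (⟪n i, x⟫ + c i)⁻¹ ≤ ∑ j, (⟪n j, x⟫ + c j)⁻¹ :=
      Finset.single_le_sum (f := fun j => (⟪n j, x⟫ + c j)⁻¹) (fun j _ => (hy j).le)
        (Finset.mem_univ i)
    unfold PsiB
    linarith
  calc ‖gradient (PsiB n c T) x‖ * Real.exp (-PsiB n c T x)
      ≤ (∑ i, ((⟪n i, x⟫ + c i)⁻¹) ^ 2) * Real.exp (-PsiB n c T x) :=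
        mul_le_mul_of_nonneg_right h2 (Real.exp_pos _).le
    _ = ∑ i, ((⟪n i, x⟫ + c i)⁻¹) ^ 2 * Real.exp (-PsiB n c T x) := Finset.sum_mul _ _ _
    _ ≤ ∑ _i : ι, Real.exp (-T) * 2 := by
        refine Finset.sum_le_sum fun i _ => ?_
        have h5 := Poly.sq_exp _ (hy i).le
        have h6 := mul_le_mul_of_nonneg_left (h3 i) (sq_nonneg ((⟪n i, x⟫ + c i)⁻¹))
        have h7 := mul_le_mul_of_nonneg_left h5 (Real.exp_pos (-T)).le
        linarith
    _ = Real.exp (-T) * (2 * Fintype.card ι) := by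
        rw [Finset.sum_const, Finset.card_univ, nsmul_eq_mul]; ring

private theorem Poly.vol_lt (hb : Bornology.IsBounded (Pol n c)) : volume (Pol n c) ≠ ⊤ :=
  hb.measure_lt_top.ne

private theorem Poly.dens_int (hn : ∀ i, ‖n i‖ = 1) (hb : Bornology.IsBounded (Pol n c))
    {p : ℝ} (hp : 1 < p) (T : ℝ) :
    IntegrableOn (fun x => ‖gradient (PsiB n c T) x‖ ^ p * Real.exp (-p * PsiB n c T x))
      (Pol n c) := by
  have hm : MeasurableSet (Pol n c) := Poly.isOpen_Pol.measurableSet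
  refine ⟨?_, ?_⟩
  · refine AEStronglyMeasurable.mul ?_ ?_
    · have h1 : Measurable fun x => ‖gradient (PsiB n c T) x‖ := by
        have h3 : ∀ x, ‖gradient (PsiB n c T) x‖ = ‖fderiv ℝ (PsiB n c T) x‖ := by
          intro x
          unfold gradient
          exact LinearIsometryEquiv.norm_map _ _
        simp only [h3]
        exact (measurable_fderiv ℝ _).norm
      exact (h1.pow_const p).aestronglyMeasurable
    · have h1 : ContinuousOn (fun x => Real.exp (-p * PsiB n c T x)) (Pol n c) :=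
        Real.continuous_exp.comp_continuousOn
          ((contDiffOn_PsiB T).continuousOn.const_mul _ : ContinuousOn (fun x => -p *
            PsiB n c T x) (Pol n c))
      exact h1.aestronglyMeasurable hm
  · refine HasFiniteIntegral.restrict_of_bounded ((Real.exp (-T) * (2 * Fintype.card ι)) ^ p)
      (Poly.vol_lt hb).lt_top ?_
    refine (ae_restrict_iff' hm).2 (Eventually.of_forall fun x hx => ?_)
    rw [Real.norm_eq_abs, abs_of_nonneg (by positivity)]
    exact Poly.dens_le hn hp T hx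

theorem psiB_adm (hn : ∀ i, ‖n i‖ = 1) (hb : Bornology.IsBounded (Pol n c))
    (hne : (Pol n c).Nonempty) {p : ℝ} (hp : 1 < p) {w : ℝ} (hw : 0 < w) :
    ∃ T₀ : ℝ, ∀ T ≥ T₀, ∀ T' ≥ T, Adm p (Pol n c) (LowB n c w) (PsiB n c T') (PsiB n c T) := by
  refine ⟨|Real.log w|, fun T hT T' hT' => ⟨Poly.convexOn_PsiB T, fun x hx => ?_,
    fun i x hx => ?_, fun x hx => ?_, Poly.dens_int hn hb hp T⟩⟩
  · have h1 : 0 ≤ T := (abs_nonneg _).trans hT
    have h2 : 0 ≤ ∑ i, (⟪n i, x⟫ + c i)⁻¹ := Finset.sum_nonneg fun i _ => (inv_pos.2 (hx i)).le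
    unfold PsiB
    linarith
  · unfold LowB PsiB
    have h0 : 0 < ⟪n i, x⟫ + c i := hx i
    have h1 : (⟪n i, x⟫ + c i)⁻¹ ≤ ∑ j, (⟪n j, x⟫ + c j)⁻¹ :=
      Finset.single_le_sum (f := fun j => (⟪n j, x⟫ + c j)⁻¹)
        (fun j _ => (inv_pos.2 (hx j)).le) (Finset.mem_univ i)
    rw [div_eq_mul_inv w, Real.log_mul hw.ne' (inv_pos.2 h0).ne']
    have h2 : Real.log (⟪n i, x⟫ + c i)⁻¹ ≤ (⟪n i, x⟫ + c i)⁻¹ - 1 :=
      Real.log_le_sub_one_of_pos (inv_pos.2 h0)
    have h3 := le_abs_self (Real.log w)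
    have h4 := inv_pos.2 h0
    have h5 := abs_nonneg (Real.log w)
    linarith
  · unfold PsiB
    linarith

theorem psiB_neg (hn : ∀ i, ‖n i‖ = 1) (hb : Bornology.IsBounded (Pol n c))
    (hne : (Pol n c).Nonempty) {p δ : ℝ} (hp : 1 < p) (hδ : 0 < δ) (lam : ℝ) :
    ∃ T₀ : ℝ, ∀ T ≥ T₀, Jf p lam δ (Pol n c) (PsiB n c T) < 0 := by
  have hm : MeasurableSet (Pol n c) := Poly.isOpen_Pol.measurableSet
  have hs0 : ∀ x ∈ Pol n c, 0 ≤ PsiB n c 0 x := by
    intro x hx
    have h2 : 0 ≤ ∑ i, (⟪n i, x⟫ + c i)⁻¹ := Finset.sum_nonneg fun i _ => (inv_pos.2 (hx i)).le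
    unfold PsiB
    linarith
  have hsT : ∀ T x, PsiB n c T x = T + PsiB n c 0 x := by
    intro T x
    unfold PsiB
    ring
  have hgr : ∀ T x, gradient (PsiB n c T) x = gradient (PsiB n c 0) x := by
    intro T x
    have h1 : PsiB n c T = fun x => T + PsiB n c 0 x := funext (hsT T)
    unfold gradient
    rw [h1, fderiv_const_add]
  have hc : ContinuousOn (PsiB n c 0) (Pol n c) := (contDiffOn_PsiB 0).continuousOn
  have hc1 : ContinuousOn (fun x => Real.exp (-p * PsiB n c 0 x)) (Pol n c) :=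
    Real.continuous_exp.comp_continuousOn
      (hc.const_mul _ : ContinuousOn (fun x => -p * PsiB n c 0 x) (Pol n c))
  have hexp1 : ∀ x ∈ Pol n c, Real.exp (-p * PsiB n c 0 x) ≤ Real.exp (-PsiB n c 0 x) := by
    intro x hx
    rw [Real.exp_le_exp]
    nlinarith [hs0 x hx]
  have hi1 : IntegrableOn (fun x => Real.exp (-p * PsiB n c 0 x)) (Pol n c) := by
    refine ⟨hc1.aestronglyMeasurable hm, HasFiniteIntegral.restrict_of_bounded 1
      (Poly.vol_lt hb).lt_top ?_⟩
    refine (ae_restrict_iff' hm).2 (Eventually.of_forall fun x hx => ?_)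
    rw [Real.norm_eq_abs, abs_of_pos (Real.exp_pos _)]
    refine (hexp1 x hx).trans ?_
    rw [Real.exp_le_one_iff]
    linarith [hs0 x hx]
  have hi2 : IntegrableOn (fun x => PsiB n c 0 x * Real.exp (-p * PsiB n c 0 x)) (Pol n c) := by
    refine ⟨(hc.mul hc1).aestronglyMeasurable hm, HasFiniteIntegral.restrict_of_bounded 1
      (Poly.vol_lt hb).lt_top ?_⟩
    refine (ae_restrict_iff' hm).2 (Eventually.of_forall fun x hx => ?_)
    have h1 := hs0 x hx
    rw [Real.norm_eq_abs, abs_of_nonneg (by positivity)]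
    refine (mul_le_mul_of_nonneg_left (hexp1 x hx) h1).trans ?_
    rw [Real.exp_neg, ← div_eq_mul_inv, div_le_one (Real.exp_pos _)]
    linarith [Real.add_one_le_exp (PsiB n c 0 x)]
  have hi3 := Poly.dens_int hn hb hp 0
  set A := ∫ x in Pol n c, (‖gradient (PsiB n c 0) x‖ ^ p - (lam + δ / p + δ * PsiB n c 0 x)) *
    Real.exp (-p * PsiB n c 0 x) with hA
  set B := ∫ x in Pol n c, Real.exp (-p * PsiB n c 0 x) with hB
  have hi4 : IntegrableOn (fun x => (‖gradient (PsiB n c 0) x‖ ^ p -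
      (lam + δ / p + δ * PsiB n c 0 x)) * Real.exp (-p * PsiB n c 0 x)) (Pol n c) := by
    have h1 : IntegrableOn (fun x => ‖gradient (PsiB n c 0) x‖ ^ p *
        Real.exp (-p * PsiB n c 0 x) - ((lam + δ / p) * Real.exp (-p * PsiB n c 0 x) +
          δ * (PsiB n c 0 x * Real.exp (-p * PsiB n c 0 x)))) (Pol n c) :=
      hi3.sub ((hi1.const_mul _).add (hi2.const_mul _))
    refine h1.congr (Eventually.of_forall fun x => ?_)
    simp only
    ring
  have hBpos : 0 < B := by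
    rw [hB, setIntegral_pos_iff_support_of_nonneg_ae (Eventually.of_forall fun x =>
      (Real.exp_pos _).le) hi1]
    have h1 : (Function.support fun x => Real.exp (-p * PsiB n c 0 x)) = univ := by
      ext x; simp [(Real.exp_pos _).ne']
    rw [h1, univ_inter]
    exact Poly.isOpen_Pol.measure_pos _ hne
  have key : ∀ T, Jf p lam δ (Pol n c) (PsiB n c T) = Real.exp (-p * T) * (A - δ * T * B) := by
    intro T
    unfold Jf
    have h1 : ∀ x, (‖gradient (PsiB n c T) x‖ ^ p - (lam + δ / p + δ * PsiB n c T x)) *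
        Real.exp (-p * PsiB n c T x) = Real.exp (-p * T) * ((‖gradient (PsiB n c 0) x‖ ^ p -
        (lam + δ / p + δ * PsiB n c 0 x)) * Real.exp (-p * PsiB n c 0 x) -
        δ * T * Real.exp (-p * PsiB n c 0 x)) := by
      intro x
      have h2 : Real.exp (-p * (T + PsiB n c 0 x)) =
          Real.exp (-p * T) * Real.exp (-p * PsiB n c 0 x) := by
        rw [← Real.exp_add]; congr 1; ring
      rw [hgr T x, hsT T x, h2]
      ring
    simp only [h1]
    rw [integral_const_mul, integral_sub hi4 (hi1.const_mul _), integral_const_mul]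
  refine ⟨(A + 1) / (δ * B), fun T hT => ?_⟩
  rw [key T]
  refine mul_neg_of_pos_of_neg (Real.exp_pos _) ?_
  have h1 : A + 1 ≤ T * (δ * B) := (div_le_iff₀ (by positivity)).1 hT
  linarith

end PLap
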