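import Pool.Agent.Lib.MP_a627f3_an.ApproxSeq
import Pool.Agent.Lib.MP_a627f3_an.Cube
import Pool.Agent.Lib.MP_a627f3_an.Hopf

open MeasureTheory Set Filter Topology Metric
open scoped RealInnerProductSpace ENNReal NNReal

namespace PLap

variable {E : Type*} [NormedAddCommGroup E] [InnerProductSpace ℝ E] [FiniteDimensional ℝ E]
  [CompleteSpace E] [MeasurableSpace E] [BorelSpace E]

/-- An approximating sequence stays one along a subsequence. -/
theorem ApproxSeq.subseq {p : ℝ} {Ω : Set E} {P : ℕ → Set E} {v : ℕ → E → ℝ} {μ : ℕ → ℝ}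
    (h : ApproxSeq p Ω P v μ) {φ : ℕ → ℕ} (hφ : StrictMono φ) :
    ApproxSeq p Ω (fun k => P (φ k)) (fun k => v (φ k)) (fun k => μ (φ k)) where
  reg k := h.reg (φ k)
  sub k := h.sub (φ k)
  exh K hK hKΩ := hφ.tendsto_atTop.eventually (h.exh K hK hKΩ)
  sup k := h.sup (φ k)
  mpos k := h.mpos (φ k)
  mle k := h.mle (φ k)
  mlim := h.mlim.comp hφ.tendsto_atTop
  nn k := h.nn (φ k)
  low M := by
    obtain ⟨K, hK, hKΩ, hl⟩ := h.low M
    exact ⟨K, hK, hKΩ, fun k => hl (φ k)⟩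
  fin k := h.fin (φ k)
  en := by
    obtain ⟨η, hη, he⟩ := h.en
    exact ⟨fun k => η (φ k), hη.comp hφ.tendsto_atTop, fun k => he (φ k)⟩
  mass := by
    obtain ⟨C, hC⟩ := h.mass
    exact ⟨C, fun k => hC (φ k)⟩

/-- The set of points near which the functions are eventually bounded above. -/
def GoodSet (P : ℕ → Set E) (v : ℕ → E → ℝ) : Set E :=
  {x | ∃ s : ℝ, 0 < s ∧ ∃ C : ℝ, ∀ᶠ k in atTop, closedBall x s ⊆ P k ∧
    ∀ y ∈ closedBall x s, v k y ≤ C}

theorem GoodSet.isOpen (P : ℕ → Set E) (v : ℕ → E → ℝ) : IsOpen (GoodSet P v) := by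
  rw [Metric.isOpen_iff]
  rintro x ⟨s, hs, C, hC⟩
  refine ⟨s / 2, by positivity, fun y hy => ⟨s / 2, by positivity, C, ?_⟩⟩
  have hsub : closedBall y (s / 2) ⊆ closedBall x s := by
    refine closedBall_subset_closedBall' ?_
    have := mem_ball.1 hy
    linarith
  filter_upwards [hC] with k hk
  exact ⟨hsub.trans hk.1, fun z hz => hk.2 z (hsub hz)⟩

theorem GoodSet.closure_inter {p : ℝ} (hp : 1 < p) {Ω : Set E} (hΩ : IsOpen Ω)
    {P : ℕ → Set E} {v : ℕ → E → ℝ} {μ : ℕ → ℝ} (h : ApproxSeq p Ω P v μ) :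
    closure (GoodSet P v) ∩ Ω ⊆ GoodSet P v := by
  rintro x ⟨hxc, hxΩ⟩
  obtain ⟨ε, hε, hball⟩ := Metric.isOpen_iff.1 hΩ x hxΩ
  set R : ℝ := ε / 2 with hRdef
  have hR : 0 < R := by positivity
  obtain ⟨y, ⟨s, hs, C, hC⟩, hxy⟩ := Metric.mem_closure_iff.1 hxc (R / 4) (by positivity)
  set s' : ℝ := min s (R / 4) with hs'
  have hs'0 : 0 < s' := lt_min hs (by positivity)
  have hs's : s' ≤ s := min_le_left _ _
  have hs'R : s' ≤ R / 4 := min_le_right _ _
  obtain ⟨C', hC'⟩ := hopf (E := E) hp (r := s') (R₁ := R / 2) (R := R) hs'0 (by linarith)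
    (by linarith)
  have hyR : closedBall y R ⊆ Ω := by
    refine Subset.trans ?_ hball
    intro z hz
    rw [mem_ball]
    have h1 := mem_closedBall.1 hz
    have h2 := dist_triangle z y x
    rw [dist_comm y x] at h2
    linarith
  have hxy1 : closedBall x (R / 4) ⊆ closedBall y (R / 2) := by
    refine closedBall_subset_closedBall' ?_
    linarith
  refine ⟨R / 4, by positivity, C + C', ?_⟩
  filter_upwards [hC, h.exh _ (isCompact_closedBall y R) hyR] with k hk hk2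
  refine ⟨hxy1.trans ((closedBall_subset_closedBall (by linarith)).trans hk2), ?_⟩
  intro z hz
  exact hC' (P k) (v k) (μ k) (h.reg k) (h.mpos k) (h.sup k) y hk2 C
    (fun w hw => hk.2 w (closedBall_subset_closedBall hs's hw)) z (hxy1 hz)

theorem locUB_of_subset {Ω : Set E} {P : ℕ → Set E} {v : ℕ → E → ℝ}
    (h : Ω ⊆ GoodSet P v) : LocUB Ω v := by
  intro K hK hKΩ
  refine hK.induction_on (p := fun s => ∃ C : ℝ, ∀ᶠ k in atTop, ∀ x ∈ s, v k x ≤ C) ?_ ?_ ?_ ?_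
  · exact ⟨0, Eventually.of_forall fun k x hx => absurd hx (notMem_empty x)⟩
  · rintro s t hst ⟨C, hC⟩
    exact ⟨C, hC.mono fun k hk x hx => hk x (hst hx)⟩
  · rintro s t ⟨C, hC⟩ ⟨D, hD⟩
    refine ⟨max C D, ?_⟩
    filter_upwards [hC, hD] with k hk1 hk2
    rintro x (hx | hx)
    · exact (hk1 x hx).trans (le_max_left _ _)
    · exact (hk2 x hx).trans (le_max_right _ _)
  · intro x hx
    obtain ⟨s, hs, C, hC⟩ := h (hKΩ hx)
    refine ⟨closedBall x s, mem_nhdsWithin_of_mem_nhds (closedBall_mem_nhds x hs), C, ?_⟩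
    exact hC.mono fun k hk => hk.2

/-- Along a subsequence the functions are locally uniformly bounded above. -/
theorem exists_locUB [Nontrivial E] {p : ℝ} (hp : 1 < p) {Ω : Set E} (hΩ : IsOpen Ω)
    (hcv : Convex ℝ Ω) (hb : Bornology.IsBounded Ω) (hne : Ω.Nonempty)
    {P : ℕ → Set E} {v : ℕ → E → ℝ} {μ : ℕ → ℝ} (h : ApproxSeq p Ω P v μ) :
    ∃ φ : ℕ → ℕ, StrictMono φ ∧
      ApproxSeq p Ω (fun k => P (φ k)) (fun k => v (φ k)) (fun k => μ (φ k)) ∧
      LocUB Ω (fun k => v (φ k)) := by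
  obtain ⟨η, hη, hen⟩ := h.en
  obtain ⟨C, hC⟩ := h.mass
  obtain ⟨B, hB⟩ := hη.bddAbove_range
  obtain ⟨r, hr, C₂, hball⟩ := exists_ball (E := E) hp (lam p Ω + B) C
  have hx : ∀ k, ∃ x₀, closedBall x₀ r ⊆ P k ∧ ∀ x ∈ closedBall x₀ r, v k x ≤ C₂ := by
    intro k
    refine hball (P k) (v k) (h.reg k) (h.nn k) (h.fin k) ?_ (hC k)
    refine (hen k).trans ?_
    have h0 : 0 ≤ ∫ x in P k, Real.exp (-p * v k x) :=
      integral_nonneg fun x => (Real.exp_pos _).le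
    have h1 : η k ≤ B := hB (mem_range_self k)
    exact mul_le_mul_of_nonneg_right (by linarith) h0
  choose x hx1 hx2 using hx
  have hxΩ : ∀ k, x k ∈ Ω := fun k => h.sub k (hx1 k (mem_closedBall_self hr.le))
  obtain ⟨x₀, -, φ, hφ, hlim⟩ := tendsto_subseq_of_bounded hb hxΩ
  have hS := h.subseq hφ
  refine ⟨φ, hφ, hS, ?_⟩
  have hx₀ : x₀ ∈ GoodSet (fun k => P (φ k)) (fun k => v (φ k)) := by
    refine ⟨r / 2, by positivity, C₂, ?_⟩
    have he : ∀ᶠ k in atTop, dist (x (φ k)) x₀ < r / 2 :=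
      (Metric.tendsto_nhds.1 hlim) (r / 2) (by positivity)
    filter_upwards [he] with k hk
    have hsub : closedBall x₀ (r / 2) ⊆ closedBall (x (φ k)) r := by
      refine closedBall_subset_closedBall' ?_
      rw [dist_comm]
      linarith
    exact ⟨hsub.trans (hx1 (φ k)), fun z hz => hx2 (φ k) z (hsub hz)⟩
  have hx₀Ω : x₀ ∈ Ω := by
    obtain ⟨s, hs, D, hD⟩ := hx₀
    obtain ⟨k, hk⟩ := hD.exists
    exact h.sub (φ k) (hk.1 (mem_closedBall_self hs.le))
  refine locUB_of_subset (P := fun k => P (φ k)) ?_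
  exact hcv.isPreconnected.subset_of_closure_inter_subset (GoodSet.isOpen _ _)
    ⟨x₀, hx₀Ω, hx₀⟩ (GoodSet.closure_inter hp hΩ hS)

end PLap
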