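import Pool.Agent.Lib.MP_a627f3_an.Main
import Pool.Agent.Lib.MP_a627f3_an.ApproxSeq

open MeasureTheory Set Filter Topology Metric
open scoped RealInnerProductSpace ENNReal NNReal

namespace PLap

set_option linter.unusedSectionVars false

variable {E : Type*} [NormedAddCommGroup E] [InnerProductSpace ℝ E] [FiniteDimensional ℝ E]
  [CompleteSpace E] [MeasurableSpace E] [BorelSpace E]

theorem isSuper_mono {p μ μ' : ℝ} {Ω : Set E} {v : E → ℝ} (hp : 1 < p) (hv : Reg Ω v)
    (h : μ' ≤ μ) (hs : IsSuper p Ω μ v) : IsSuper p Ω μ' v := by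
  intro φ hφ hφ0
  refine le_trans ?_ (hs φ hφ hφ0)
  have hcφ : Continuous φ := by obtain ⟨⟨K, hK⟩, -⟩ := hφ; exact hK.continuous
  have hgp : ContinuousOn (fun x => ‖gradient v x‖ ^ p) Ω :=
    hv.continuousOn_gradient.norm.rpow_const (fun _ _ => Or.inr (by linarith))
  apply integral_mono
  · exact integrable_mul_of_continuousOn hv.isOpen
      (F := fun x => μ' + (p - 1) * ‖gradient v x‖ ^ p)
      (continuousOn_const.add (continuousOn_const.mul hgp)) hcφ hφ.2.1 hφ.2.2
  · exact integrable_mul_of_continuousOn hv.isOpen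
      (F := fun x => μ + (p - 1) * ‖gradient v x‖ ^ p)
      (continuousOn_const.add (continuousOn_const.mul hgp)) hcφ hφ.2.1 hφ.2.2
  · intro x
    exact mul_le_mul_of_nonneg_right (by linarith) (hφ0 x)

/-- Facts on one `thmA` function. -/
theorem one_facts {P : Set E} {v : E → ℝ} {p δ lm : ℝ} (hp : 1 < p) (hδ : 0 < δ)
    (hv : Reg P v) (hs : SuperD p lm δ P v) (h0 : ∀ x ∈ P, 1 / p < v x)
    (hfin : IntegrableOn (fun x => ‖gradient v x‖ ^ p * Real.exp (-p * v x)) P)
    (hJ : Jf p lm δ P v < 0) (_hlm0 : 0 < lm)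
    (hlm : lm = lam p P - δ * (Module.finrank ℝ E + 2) / p) :
    (∫ x in P, v x * Real.exp (-p * v x)) ≤
      ((2 * (Module.finrank ℝ E : ℝ) + 2) / p) * (∫ x in P, Real.exp (-p * v x)) ∧
    (∫ x in P, ‖gradient v x‖ ^ p * Real.exp (-p * v x)) ≤
      (lm + δ / p + δ * ((2 * (Module.finrank ℝ E : ℝ) + 2) / p)) *
        ∫ x in P, Real.exp (-p * v x) := by
  have hp0 : 0 < p := by linarith
  have hnn : ∀ x ∈ P, 0 ≤ v x := fun x hx => by
    have := h0 x hx
    have : 0 < 1 / p := by positivity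
    linarith
  have hvc : ContinuousOn v P := hv.c1.continuousOn
  have hec : ContinuousOn (fun x => Real.exp (-p * v x)) P :=
    Real.continuous_exp.comp_continuousOn (continuousOn_const.mul hvc)
  have i1 : IntegrableOn (fun x => Real.exp (-p * v x)) P := by
    refine BoundsAux.integrableOn_of_cont hv.isOpen hv.bdd hec (M := 1) fun x hx => ?_
    rw [abs_of_pos (Real.exp_pos _)]
    apply Real.exp_le_one_iff.mpr
    have := mul_nonneg hp0.le (hnn x hx)
    linarith
  have i2 : IntegrableOn (fun x => v x * Real.exp (-p * v x)) P := by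
    refine BoundsAux.integrableOn_of_cont hv.isOpen hv.bdd (hvc.mul hec) (M := 1 / p) fun x hx => ?_
    rw [abs_of_nonneg (mul_nonneg (hnn x hx) (Real.exp_pos _).le)]
    exact BoundsAux.t_exp_le hp0 _
  obtain ⟨x₀, hx₀, hmin⟩ := hv.exists_min
  have hd := dilation hp0 hv.isOpen hv.bdd hv.cvx hx₀ hmin
  have hvm : v x₀ ≤ ((Module.finrank ℝ E : ℝ) + 2) / p := by
    have h1 := superD_isSuper hp hv hδ.le hmin hs
    have h2 := super_le_lam hp hv h1
    have h3 : δ * v x₀ ≤ δ * (((Module.finrank ℝ E : ℝ) + 2) / p) := by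
      have : δ * (((Module.finrank ℝ E : ℝ) + 2) / p) = δ * (Module.finrank ℝ E + 2) / p := by ring
      rw [this]; linarith
    exact le_of_mul_le_mul_left h3 hδ
  have e1 : ∫ x in P, (v x - v x₀) * Real.exp (-p * v x) =
      (∫ x in P, v x * Real.exp (-p * v x)) - v x₀ * ∫ x in P, Real.exp (-p * v x) := by
    rw [← integral_const_mul, ← integral_sub i2 (i1.const_mul _)]
    congr 1; ext x; ring
  have hI0 : 0 ≤ ∫ x in P, Real.exp (-p * v x) := integral_nonneg fun x => (Real.exp_pos _).le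
  have hm : (∫ x in P, v x * Real.exp (-p * v x)) ≤
      ((2 * (Module.finrank ℝ E : ℝ) + 2) / p) * (∫ x in P, Real.exp (-p * v x)) := by
    rw [e1] at hd
    have h4 : (∫ x in P, v x * Real.exp (-p * v x)) - v x₀ * ∫ x in P, Real.exp (-p * v x) ≤
        ((Module.finrank ℝ E : ℝ) / p) * ∫ x in P, Real.exp (-p * v x) := by
      rw [div_mul_eq_mul_div, le_div_iff₀ hp0]
      linarith
    have h5 : v x₀ * ∫ x in P, Real.exp (-p * v x) ≤
        (((Module.finrank ℝ E : ℝ) + 2) / p) * ∫ x in P, Real.exp (-p * v x) :=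
      mul_le_mul_of_nonneg_right hvm hI0
    have h6 : ((2 * (Module.finrank ℝ E : ℝ) + 2) / p) = (Module.finrank ℝ E : ℝ) / p +
        ((Module.finrank ℝ E : ℝ) + 2) / p := by ring
    rw [h6, add_mul]
    linarith
  refine ⟨hm, ?_⟩
  have i3 : IntegrableOn (fun x => (lm + δ / p + δ * v x) * Real.exp (-p * v x)) P := by
    have : (fun x => (lm + δ / p + δ * v x) * Real.exp (-p * v x)) =
        fun x => (lm + δ / p) * Real.exp (-p * v x) + δ * (v x * Real.exp (-p * v x)) := by
      ext x; ring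
    rw [this]
    exact (i1.const_mul _).add (i2.const_mul _)
  have e2 : Jf p lm δ P v = (∫ x in P, ‖gradient v x‖ ^ p * Real.exp (-p * v x)) -
      ∫ x in P, (lm + δ / p + δ * v x) * Real.exp (-p * v x) := by
    unfold Jf
    rw [← integral_sub hfin i3]
    congr 1
    ext x; ring
  have e3 : ∫ x in P, (lm + δ / p + δ * v x) * Real.exp (-p * v x) =
      (lm + δ / p) * (∫ x in P, Real.exp (-p * v x)) +
        δ * ∫ x in P, v x * Real.exp (-p * v x) := by
    rw [← integral_const_mul, ← integral_const_mul, ← integral_add (i1.const_mul _) (i2.const_mul _)]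
    congr 1; ext x; ring
  have h7 := mul_le_mul_of_nonneg_left hm hδ.le
  rw [e2, e3] at hJ
  nlinarith

theorem exists_approxSeq [Nontrivial E] {p : ℝ} (hp : 1 < p) {Ω : Set E} (hΩ : IsOpen Ω)
    (hcv : Convex ℝ Ω) (hb : Bornology.IsBounded Ω) (hne : Ω.Nonempty) :
    ∃ (P : ℕ → Set E) (v : ℕ → E → ℝ) (μ : ℕ → ℝ), ApproxSeq p Ω P v μ := by
  have hp0 : 0 < p := by linarith
  obtain ⟨x₀, hx₀⟩ := hne
  have hl := lam_pos hp hΩ ⟨x₀, hx₀⟩ hb
  set l := lam p Ω with hldef
  obtain ⟨r₀, hr₀, hr₀Ω⟩ : ∃ r > 0, closedBall x₀ r ⊆ Ω :=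
    Metric.nhds_basis_closedBall.mem_iff.mp (hΩ.mem_nhds hx₀)
  have hcne : (Ωᶜ).Nonempty := by
    by_contra h
    rw [not_nonempty_iff_eq_empty, compl_empty_iff] at h
    rw [h] at hb
    exact NormedSpace.unbounded_univ ℝ E hb
  -- exhaustion
  set K : ℕ → Set E := fun k => {x | 1 / ((k : ℝ) + 1) ≤ infDist x Ωᶜ} ∪ closedBall x₀ r₀ with hK
  have hinf : ∀ x, x ∉ Ω → infDist x Ωᶜ = 0 := fun x hx => infDist_zero_of_mem hx
  have hK1 : ∀ s : ℝ, 0 < s → IsCompact {x : E | s ≤ infDist x Ωᶜ} ∧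
      {x : E | s ≤ infDist x Ωᶜ} ⊆ Ω := by
    intro s hs
    have hsub : {x : E | s ≤ infDist x Ωᶜ} ⊆ Ω := by
      intro x hx
      by_contra hxΩ
      have := hinf x hxΩ
      have hx' : s ≤ infDist x Ωᶜ := hx
      linarith
    exact ⟨Metric.isCompact_of_isClosed_isBounded
      (isClosed_le continuous_const (continuous_infDist_pt _)) (hb.subset hsub), hsub⟩
  have hKc : ∀ k, IsCompact (K k) := fun k =>
    (hK1 _ (by positivity)).1.union (isCompact_closedBall x₀ r₀)
  have hKΩ : ∀ k, K k ⊆ Ω := fun k => union_subset (hK1 _ (by positivity)).2 hr₀Ω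
  have hKne : ∀ k, (K k).Nonempty := fun k => ⟨x₀, Or.inr (mem_closedBall_self hr₀.le)⟩
  choose m n c hn hKP hPΩ using fun k => exists_pol hΩ hcv hb (hKc k) (hKΩ k) (hKne k)
  set P : ℕ → Set E := fun k => Pol (n k) (c k) with hP
  have hPne : ∀ k, (P k).Nonempty := fun k => (hKne k).mono (hKP k)
  have hPb : ∀ k, Bornology.IsBounded (P k) := fun k => hb.subset (hPΩ k)
  have hPo : ∀ k, IsOpen (P k) := fun k => isOpen_Pol
  -- eigenvalue bounds
  set A := lam p (ball x₀ r₀) with hA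
  have hlPA : ∀ k, lam p (P k) ≤ A := fun k =>
    lam_mono hp isOpen_ball ⟨x₀, mem_ball_self hr₀⟩
      (fun x hx => hKP k (Or.inr (ball_subset_closedBall hx)))
  have hlP : ∀ k, l ≤ lam p (P k) := fun k => lam_mono hp (hPo k) (hPne k) (hPΩ k)
  have hexh : ∀ C, IsCompact C → C ⊆ Ω → ∀ᶠ k in atTop, C ⊆ P k := by
    intro C hC hCΩ
    rcases C.eq_empty_or_nonempty with h | hCne
    · rw [h]; exact Eventually.of_forall fun k => empty_subset _
    have hpos : ∀ x ∈ C, 0 < infDist x Ωᶜ := by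
      intro x hx
      rw [← hΩ.isClosed_compl.notMem_iff_infDist_pos hcne]
      exact fun h => h (hCΩ hx)
    obtain ⟨x₁, hx₁, hmin⟩ := hC.exists_isMinOn hCne (continuous_infDist_pt (Ωᶜ)).continuousOn
    have h1 := hpos x₁ hx₁
    have h2 : Tendsto (fun k : ℕ => 1 / ((k : ℝ) + 1)) atTop (𝓝 0) :=
      tendsto_one_div_add_atTop_nhds_zero_nat
    filter_upwards [h2.eventually (gt_mem_nhds h1)] with k hk
    intro x hx
    apply hKP k
    left
    have : infDist x₁ Ωᶜ ≤ infDist x Ωᶜ := hmin hx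
    show 1 / ((k : ℝ) + 1) ≤ infDist x Ωᶜ
    linarith
  have hlPlim : Tendsto (fun k => lam p (P k)) atTop (𝓝 l) := by
    rw [tendsto_order]
    constructor
    · intro a ha
      exact Eventually.of_forall fun k => lt_of_lt_of_le ha (hlP k)
    · intro a ha
      obtain ⟨u, hu, hur⟩ := exists_test_near hp hΩ ⟨x₀, hx₀⟩ (show 0 < (a - l) / 2 by linarith)
      filter_upwards [hexh _ hu.2.1 hu.2.2.1] with k hk
      have h1 := lam_mul_le hp hu.1 hu.2.1 hk
      have hupos : 0 < ∫ x, |u x| ^ p := by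
        have hcu : Continuous (fun x => |u x| ^ p) :=
          (hu.1.continuous.abs).rpow_const fun x => Or.inr hp0.le
        have hsu : HasCompactSupport (fun x => |u x| ^ p) := (lipC_abs_rpow hp hu).2.1
        obtain ⟨y, hy⟩ := hu.2.2.2
        refine hcu.integral_pos_of_hasCompactSupport_nonneg_nonzero hsu (fun x => by positivity)
          (x := y) ?_
        have : 0 < |u y| := abs_pos.mpr hy
        positivity
      have h2 : lam p (P k) * ∫ x, |u x| ^ p ≤ (l + (a - l) / 2) * ∫ x, |u x| ^ p := h1.trans hur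
      have h3 := le_of_mul_le_mul_right h2 hupos
      linarith
  -- parameters
  set D : ℝ := (Module.finrank ℝ E : ℝ) + 2 with hD
  have hD0 : 0 < D := by positivity
  set ε₀ := min 1 (l * p / (2 * D)) with hε₀
  have hε₀0 : 0 < ε₀ := by positivity
  set δ : ℕ → ℝ := fun k => ε₀ / ((k : ℝ) + 1) with hδ
  have hδ0 : ∀ k, 0 < δ k := fun k => by simp only [hδ]; positivity
  have hδε : ∀ k, δ k ≤ ε₀ := fun k => by
    simp only [hδ]
    apply div_le_self hε₀0.le
    have : (0:ℝ) ≤ k := Nat.cast_nonneg k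
    linarith
  have hδ1 : ∀ k, δ k ≤ 1 := fun k => (hδε k).trans (min_le_left _ _)
  have hδlim : Tendsto δ atTop (𝓝 0) := by
    have := (tendsto_one_div_add_atTop_nhds_zero_nat (𝕜 := ℝ)).const_mul ε₀
    rw [mul_zero] at this
    refine this.congr fun k => ?_
    simp only [hδ]; ring
  set lm : ℕ → ℝ := fun k => lam p (P k) - δ k * D / p with hlm
  have hlm0 : ∀ k, 0 < lm k := by
    intro k
    simp only [hlm]
    have h1 : δ k * D / p ≤ l / 2 := by
      have : δ k ≤ l * p / (2 * D) := (hδε k).trans (min_le_right _ _)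
      rw [div_le_iff₀ hp0]
      calc δ k * D ≤ l * p / (2 * D) * D := mul_le_mul_of_nonneg_right this hD0.le
        _ = l / 2 * p := by field_simp
    have := hlP k
    linarith
  have hlmA : ∀ k, lm k ≤ A := by
    intro k
    have h1 := hlPA k
    have h2 : 0 ≤ δ k * D / p := by have := hδ0 k; positivity
    simp only [hlm]; linarith
  have hlmlim : Tendsto lm atTop (𝓝 l) := by
    have h1 : Tendsto (fun k => δ k * D / p) atTop (𝓝 0) := by
      have := (hδlim.mul_const D).div_const p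
      simpa using this
    have := hlPlim.sub h1
    rw [sub_zero] at this
    exact this
  obtain ⟨w, hw0, hw⟩ := exists_w hp A
  choose v hreg hsup hv1 hlow hfin hJ using fun k =>
    thmA (hn k) (hPb k) (hPne k) hp (hδ0 k) hw0 (lm := lm k) (by simp only [hlm, hD, hP])
      (hlm0 k) (hw (lm k) (hlmA k) (δ k) (hδ0 k).le (hδ1 k))
  have hnn : ∀ k, ∀ x ∈ P k, 0 ≤ v k x := fun k x hx => by
    have h1 := hv1 k x hx
    have h2 : 0 < 1 / p := by positivity
    linarith
  have hone := fun k => one_facts hp (hδ0 k) (hreg k) (hsup k) (hv1 k) (hfin k) (hJ k) (hlm0 k)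
    (by simp only [hlm, hD, hP])
  refine ⟨P, v, fun k => min (lm k) l, ?_⟩
  refine ⟨hreg, hPΩ, hexh, ?_, ?_, ?_, ?_, hnn, ?_, hfin, ?_, ?_⟩
  · intro k
    refine isSuper_mono hp (hreg k) (min_le_left _ _) ?_
    have := superD_isSuper hp (hreg k) (hδ0 k).le (hnn k) (hsup k)
    rwa [mul_zero, add_zero] at this
  · intro k; exact le_min (hlm0 k).le hl.le
  · intro k; exact min_le_right _ _
  · have := hlmlim.min (tendsto_const_nhds (x := l))
    rwa [min_self] at this
  · intro M
    set s := w * Real.exp (-2 * M) with hs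
    have hs0 : 0 < s := by positivity
    refine ⟨{x | s ≤ infDist x Ωᶜ}, (hK1 s hs0).1, (hK1 s hs0).2, ?_⟩
    rintro k x ⟨hx, hxK⟩
    have hxs : infDist x Ωᶜ < s := not_le.mp hxK
    obtain ⟨z, hz, hzd⟩ := (infDist_lt_iff hcne).mp hxs
    have hzP : z ∉ P k := fun h => hz (hPΩ k h)
    simp only [hP, Pol, mem_ofPred_eq, not_forall, not_lt] at hzP
    obtain ⟨i, hi⟩ := hzP
    have hℓ : 0 < ⟪n k i, x⟫ + c k i := hx i
    have hℓs : ⟪n k i, x⟫ + c k i < s := by
      have h1 : ⟪n k i, x⟫ - ⟪n k i, z⟫ ≤ dist x z := by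
        rw [← inner_sub_right, dist_eq_norm]
        calc ⟪n k i, x - z⟫ ≤ ‖n k i‖ * ‖x - z‖ := real_inner_le_norm _ _
          _ = ‖x - z‖ := by rw [hn k i, one_mul]
      linarith
    have h2 := hlow k x hx i
    refine le_trans ?_ h2
    unfold LowB
    have h1 : Real.exp (2 * M) ≤ w / (⟪n k i, x⟫ + c k i) := by
      rw [le_div_iff₀ hℓ]
      have : Real.exp (2 * M) * s = w := by
        rw [hs, mul_comm w, ← mul_assoc, ← Real.exp_add]; norm_num
      have h3 : Real.exp (2 * M) * (⟪n k i, x⟫ + c k i) ≤ Real.exp (2 * M) * s :=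
        mul_le_mul_of_nonneg_left hℓs.le (Real.exp_pos _).le
      linarith
    have h4 := Real.log_le_log (Real.exp_pos _) h1
    rw [Real.log_exp] at h4
    linarith
  · refine ⟨fun k => lm k + δ k / p + δ k * ((2 * (Module.finrank ℝ E : ℝ) + 2) / p) - l, ?_, ?_⟩
    · have h1 := (hlmlim.add (hδlim.div_const p)).add
        (hδlim.mul_const ((2 * (Module.finrank ℝ E : ℝ) + 2) / p))
      have h2 := h1.sub_const l
      simpa using h2
    · intro k
      have h3 := (hone k).2
      have h4 : lam p Ω + (lm k + δ k / p + δ k * ((2 * (Module.finrank ℝ E : ℝ) + 2) / p) - l) =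
          lm k + δ k / p + δ k * ((2 * (Module.finrank ℝ E : ℝ) + 2) / p) := by
        rw [← hldef]; ring
      show _ ≤ (lam p Ω + (lm k + δ k / p + δ k * ((2 * (Module.finrank ℝ E : ℝ) + 2) / p) - l)) * _
      rw [h4]
      exact h3
  · exact ⟨_, fun k => (hone k).1⟩

end PLap
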