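import Pool.Agent.Lib.MP_a627f3_an.MainIneq
import Pool.Agent.Lib.MP_a627f3_an.ApproxSeq
import Pool.Agent.Lib.MP_a627f3_an.Bounds
import Pool.Agent.Lib.MP_a627f3_an.Compare

open MeasureTheory Set Filter Topology Metric
open scoped RealInnerProductSpace ENNReal NNReal

namespace PLap

set_option linter.unusedSectionVars false

variable {E : Type*} [NormedAddCommGroup E] [InnerProductSpace ℝ E] [FiniteDimensional ℝ E]
  [CompleteSpace E] [MeasurableSpace E] [BorelSpace E]

/-- Uniform gradient bounds near a compact set. -/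
theorem grad_bound_near {p : ℝ} {Ω : Set E} (hΩ : IsOpen Ω) {P : ℕ → Set E} {v : ℕ → E → ℝ}
    {μ : ℕ → ℝ} (h : ApproxSeq p Ω P v μ) (hub : LocUB Ω v) {K : Set E} (hK : IsCompact K)
    (hKΩ : K ⊆ Ω) : ∃ s > 0, ∃ L > 0, ∀ᶠ k in atTop, cthickening s K ⊆ P k ∧
      ∀ x ∈ cthickening s K, ‖gradient (v k) x‖ ≤ L := by
  obtain ⟨s, hs, hsub⟩ := hK.exists_cthickening_subset_open hΩ hKΩ
  have hcomp : IsCompact (cthickening s K) := hK.cthickening
  obtain ⟨C, hC⟩ := hub _ hcomp hsub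
  refine ⟨s / 2, by positivity, 2 * |C| / (s / 2) + 1, by positivity, ?_⟩
  filter_upwards [h.exh _ hcomp hsub, hC] with k hk hCk
  have h1 : cthickening (s / 2) K ⊆ cthickening s K := cthickening_mono (by linarith) K
  refine ⟨h1.trans hk, fun x hx => ?_⟩
  have hball : closedBall x (s / 2) ⊆ cthickening s K := by
    intro y hy
    have : y ∈ cthickening (s / 2) (cthickening (s / 2) K) := by
      apply mem_cthickening_of_dist_le y x (s / 2) _ hx
      exact hy
    have h2 := cthickening_cthickening_subset (show 0 ≤ s / 2 by positivity)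
      (show 0 ≤ s / 2 by positivity) K this
    rwa [add_halves] at h2
  have := gradient_norm_le (h.reg k).cvx (x := x) (r := s / 2) (M := |C|) (by positivity)
    (hball.trans hk) (by
      intro y hy
      have h3 := hCk y (hball hy)
      have h4 := h.nn k y (hk (hball hy))
      rw [abs_of_nonneg h4]
      exact h3.trans (le_abs_self C))
  linarith

theorem slack_const (hdim : 2 ≤ Module.finrank ℝ E) {p : ℝ} (hp : 1 < p) {Ω : Set E}
    (hΩ : IsOpen Ω) (hb : Bornology.IsBounded Ω) (hne : Ω.Nonempty)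
    {P : ℕ → Set E} {v : ℕ → E → ℝ} {μ : ℕ → ℝ}
    (h : ApproxSeq p Ω P v μ) (hub : LocUB Ω v) {β : ℝ → ℝ} (hβc : ContinuousOn β (Ici 0))
    (hβ : ∀ z > 0, 0 < β z) :
    ∃ K : Set E, IsCompact K ∧ K ⊆ Ω ∧ K.Nonempty ∧ ∃ κ > 0, ∀ᶠ k in atTop,
      ∃ φ : E → ℝ, LipC (P k) φ ∧ (∀ x, 0 ≤ φ x) ∧ (∀ x ∈ P k, x ∉ K → φ x = 0) ∧
        (∀ x ∈ P k, φ x ≤ β (‖gradient (v k) x‖ ^ (p - 1))) ∧
        κ ≤ - ∫ x, ⟪dir (gradient (v k) x), gradient φ x⟫ := by
  obtain ⟨D, hD⟩ : ∃ D > 0, ∀ x ∈ Ω, ‖x‖ ≤ D := by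
    obtain ⟨D, hD⟩ := hb.exists_norm_le
    exact ⟨max D 1, by positivity, fun x hx => (hD x hx).trans (le_max_left _ _)⟩
  obtain ⟨hD0, hD⟩ := hD
  obtain ⟨x₀, hx₀⟩ := hne
  obtain ⟨C₀, hC₀⟩ := hub {x₀} isCompact_singleton (singleton_subset_iff.mpr hx₀)
  set Cm := max C₀ 0 with hCm
  have hx₀P : ∀ᶠ k in atTop, x₀ ∈ P k := by
    filter_upwards [h.exh {x₀} isCompact_singleton (singleton_subset_iff.mpr hx₀)] with k hk
    exact hk rfl
  -- K₁ : neighbourhood of the minimum points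
  obtain ⟨K₁, hK₁c, hK₁Ω, hK₁⟩ := h.low (Cm + 1)
  obtain ⟨s₁, hs₁, L₁, hL₁, hev₁⟩ := grad_bound_near hΩ h hub hK₁c hK₁Ω
  -- far centre
  have : Nontrivial E := Module.nontrivial_of_finrank_pos (R := ℝ) (by omega)
  obtain ⟨e₀, he₀⟩ := exists_norm_eq E (show (0:ℝ) ≤ L₁ + 1 + D by positivity)
  set D₁ := 2 * D + L₁ + 1 with hD₁
  have hD₁0 : 0 < D₁ := by positivity
  have hfar : ∀ x ∈ Ω, L₁ + 1 ≤ ‖x - e₀‖ := by
    intro x hx
    have h1 := norm_sub_norm_le e₀ x
    have h2 := hD x hx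
    rw [norm_sub_rev] at h1
    linarith
  have hnear : ∀ x ∈ Ω, ‖x - e₀‖ ≤ D₁ := by
    intro x hx
    have h1 := norm_sub_le x e₀
    have h2 := hD x hx
    rw [hD₁]; linarith
  set ψ : E → ℝ := fun x => ‖x - e₀‖ ^ 2 / 2 with hψ
  have hψc : Continuous ψ := by simp only [hψ]; fun_prop
  have hψ0 : ∀ x, 0 ≤ ψ x := fun x => by simp only [hψ]; positivity
  have hψ1 : ∀ x ∈ Ω, ψ x ≤ D₁ ^ 2 / 2 := by
    intro x hx
    have := hnear x hx
    simp only [hψ]
    have h2 : ‖x - e₀‖ ^ 2 ≤ D₁ ^ 2 := by gcongr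
    linarith
  set ε := s₁ / 2 with hε
  have hε0 : 0 < ε := by positivity
  obtain ⟨K₂, hK₂c, hK₂Ω, hK₂⟩ := h.low (Cm + ε + D₁ ^ 2 / 2)
  set K := insert x₀ K₂ with hKdef
  have hKc : IsCompact K := hK₂c.insert x₀
  have hKΩ : K ⊆ Ω := insert_subset hx₀ hK₂Ω
  obtain ⟨s₂, hs₂, L₂, hL₂, hev₂⟩ := grad_bound_near hΩ h hub hKc hKΩ
  -- lower bound for β
  set a : ℝ := (1 / (2 * D)) ^ (p - 1) with ha
  have ha0 : 0 < a := by positivity
  set b : ℝ := max a (L₂ ^ (p - 1)) with hb'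
  obtain ⟨cβ, hcβ0, hcβ⟩ : ∃ c > 0, ∀ z ∈ Icc a b, c ≤ β z := by
    obtain ⟨z₀, hz₀, hz₀min⟩ := (isCompact_Icc (a := a) (b := b)).exists_isMinOn
      ⟨a, left_mem_Icc.mpr (le_max_left _ _)⟩
      (hβc.mono fun z hz => (ha0.le.trans hz.1 : (0:ℝ) ≤ z))
    exact ⟨β z₀, hβ z₀ (ha0.trans_le hz₀.1), fun z hz => hz₀min hz⟩
  have hβnn : ∀ z ≥ 0, 0 ≤ β z := by
    intro z hz
    rcases eq_or_lt_of_le hz with h0 | h0
    · rw [← h0]
      have hcl : Tendsto β (𝓝[>] 0) (𝓝 (β 0)) :=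
        (hβc 0 (by simp)).mono_left (nhdsWithin_mono _ Ioi_subset_Ici_self)
      exact ge_of_tendsto hcl (by filter_upwards [self_mem_nhdsWithin] with z hz using (hβ z hz).le)
    · exact (hβ z h0).le
  set s₃ := min s₂ (ε / (2 * (L₂ + D₁))) with hs₃
  have hs₃0 : 0 < s₃ := by positivity
  set V := (volume (ball (0 : E) s₃)).toReal with hV
  have hV0 : 0 < V := ENNReal.toReal_pos (measure_ball_pos _ _ hs₃0).ne' measure_ball_lt_top.ne
  set d : ℝ := (Module.finrank ℝ E : ℝ) with hd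
  have hd1 : 0 < d - 1 := by
    have : (2:ℝ) ≤ d := by rw [hd]; exact_mod_cast hdim
    linarith
  set c₄ := cβ / ε with hc₄
  have hc₄0 : 0 < c₄ := by positivity
  refine ⟨K, hKc, hKΩ, ⟨x₀, mem_insert _ _⟩, c₄ * ((d - 1) / D₁ * (ε / 2 * V)), by positivity, ?_⟩
  filter_upwards [hx₀P, hC₀, hev₁, hev₂] with k hx₀k hC₀k hev₁k hev₂k
  obtain ⟨hthick₁, hgrad₁⟩ := hev₁k
  obtain ⟨hthick₂, hgrad₂⟩ := hev₂k
  have hreg := h.reg k
  have hvx₀ : v k x₀ ≤ Cm := (hC₀k x₀ rfl).trans (le_max_left _ _)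
  have hPΩ := h.sub k
  have hdiff : ∀ x ∈ P k, DifferentiableAt ℝ (v k) x := fun x hx =>
    (hreg.c1.contDiffAt (hreg.isOpen.mem_nhds hx)).differentiableAt (by norm_num)
  -- minimum of v - ψ
  obtain ⟨xk, hxk, hxkmin⟩ : ∃ xk ∈ P k, ∀ x ∈ P k, v k xk - ψ xk ≤ v k x - ψ x := by
    obtain ⟨C, hCc, hCP, hCv⟩ := hreg.coer (v k x₀ + D₁ ^ 2 / 2 + 1)
    have hc : ContinuousOn (fun x => v k x - ψ x) (insert x₀ C) :=
      (hreg.c1.continuousOn.sub hψc.continuousOn).mono (insert_subset hx₀k hCP)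
    obtain ⟨y, hy, hymin⟩ := (hCc.insert x₀).exists_isMinOn ⟨x₀, mem_insert _ _⟩ hc
    refine ⟨y, insert_subset hx₀k hCP hy, fun x hx => ?_⟩
    by_cases hxC : x ∈ C
    · exact hymin (mem_insert_of_mem _ hxC)
    · have h1 := hCv x ⟨hx, hxC⟩
      have h2 := hψ1 x (hPΩ hx)
      have h3 : v k y - ψ y ≤ v k x₀ - ψ x₀ := hymin (mem_insert _ _)
      have h4 := hψ0 x₀
      linarith
  set m' := v k xk - ψ xk with hm'
  obtain ⟨hlip, hcmp⟩ := compare hreg (x₀ := e₀) (D := D₁)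
    (fun hmem => by
      have := hfar e₀ (hPΩ hmem)
      rw [sub_self, norm_zero] at this
      linarith)
    (fun x hx => hnear x (hPΩ hx)) (m' + ε)
  set φ : E → ℝ := (P k).indicator (fun x => max 0 (m' + ε + ‖x - e₀‖ ^ 2 / 2 - v k x)) with hφ
  have hφ0 : ∀ x, 0 ≤ φ x := fun x => indicator_nonneg (fun y _ => le_max_left _ _) x
  have hφε : ∀ x, φ x ≤ ε := by
    intro x
    by_cases hx : x ∈ P k
    · simp only [hφ, indicator_of_mem hx]
      apply max_le hε0.le
      have := hxkmin x hx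
      simp only [hψ] at this hm'
      linarith
    · simp only [hφ, indicator_of_notMem hx]; exact hε0.le
  have hφpos : ∀ x ∈ P k, φ x ≠ 0 → v k x < m' + ε + ψ x := by
    intro x hx hne
    simp only [hφ, indicator_of_mem hx] at hne
    by_contra hcon
    push Not at hcon
    apply hne
    apply max_eq_left
    simp only [hψ] at hcon
    linarith
  have hφK : ∀ x ∈ P k, φ x ≠ 0 → x ∈ K := by
    intro x hx hne
    by_contra hxK
    have h1 := hφpos x hx hne
    have h2 := hxkmin x₀ hx₀k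
    have h3 := hψ0 x₀
    have h4 := hψ1 x (hPΩ hx)
    have h5 := hK₂ k x ⟨hx, fun hh => hxK (mem_insert_of_mem _ hh)⟩
    linarith
  have hgradlow : ∀ x ∈ P k, φ x ≠ 0 → 1 / (2 * D) ≤ ‖gradient (v k) x‖ := by
    intro x hx hne
    obtain ⟨yk, hyk, hykmin⟩ := hreg.exists_min
    have h1 : v k yk + 1 ≤ v k x := by
      by_contra hcon
      push Not at hcon
      have h2 := hykmin x₀ hx₀k
      have hxK₁ : x ∈ K₁ := by
        by_contra hxK₁
        have := hK₁ k x ⟨hx, hxK₁⟩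
        linarith
      have hxe : 0 < ‖x - e₀‖ := by
        have := hfar x (hPΩ hx)
        linarith
      set x' := x + (s₁ / ‖x - e₀‖) • (x - e₀) with hx'
      have hdist : ‖x' - x‖ = s₁ := by
        rw [hx', add_sub_cancel_left, norm_smul, Real.norm_of_nonneg (by positivity)]
        field_simp
      have hx'mem : x' ∈ cthickening s₁ K₁ := by
        apply mem_cthickening_of_dist_le x' x s₁ _ hxK₁
        rw [dist_eq_norm, hdist]
      have hx'P : x' ∈ P k := hthick₁ hx'mem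
      have h3 := hxkmin x' hx'P
      have h4 := hφpos x hx hne
      have h5 : ψ x' = ψ x + s₁ * ‖x - e₀‖ + s₁ ^ 2 / 2 := by
        have e1 : x' - e₀ = (1 + s₁ / ‖x - e₀‖) • (x - e₀) := by
          rw [hx', add_smul, one_smul]; abel
        simp only [hψ]
        rw [e1, norm_smul, Real.norm_of_nonneg (by positivity)]
        field_simp
        ring
      have h6 := tangent_le hreg.cvx hx'P (hdiff x' hx'P) hx
      have h7 : ⟪gradient (v k) x', x' - x⟫ ≤ L₁ * s₁ := by
        calc ⟪gradient (v k) x', x' - x⟫ ≤ ‖gradient (v k) x'‖ * ‖x' - x‖ :=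
              real_inner_le_norm _ _
          _ ≤ L₁ * s₁ := by
              rw [hdist]
              exact mul_le_mul_of_nonneg_right (hgrad₁ x' hx'mem) hs₁.le
      have h8 : ⟪gradient (v k) x', x - x'⟫ = - ⟪gradient (v k) x', x' - x⟫ := by
        rw [← inner_neg_right, neg_sub]
      have h9 := mul_le_mul_of_nonneg_left (hfar x (hPΩ hx)) hs₁.le
      have h10 : 0 < s₁ ^ 2 := by positivity
      rw [hε] at h4
      nlinarith
    have h2 := tangent_le hreg.cvx hx (hdiff x hx) hyk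
    have h3 : ⟪gradient (v k) x, yk - x⟫ = - ⟪gradient (v k) x, x - yk⟫ := by
      rw [← inner_neg_right, neg_sub]
    have h4 : 1 ≤ ⟪gradient (v k) x, x - yk⟫ := by linarith
    have h5 : ‖x - yk‖ ≤ 2 * D := by
      have := norm_sub_le x yk
      have := hD x (hPΩ hx)
      have := hD yk (hPΩ hyk)
      linarith
    rw [div_le_iff₀ (by positivity)]
    calc (1:ℝ) ≤ ⟪gradient (v k) x, x - yk⟫ := h4
      _ ≤ ‖gradient (v k) x‖ * ‖x - yk‖ := real_inner_le_norm _ _
      _ ≤ ‖gradient (v k) x‖ * (2 * D) := mul_le_mul_of_nonneg_left h5 (norm_nonneg _)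
  have hφβ : ∀ x ∈ P k, c₄ * φ x ≤ β (‖gradient (v k) x‖ ^ (p - 1)) := by
    intro x hx
    by_cases hne : φ x = 0
    · rw [hne, mul_zero]
      exact hβnn _ (by positivity)
    · have h1 := hgradlow x hx hne
      have h2 := hgrad₂ x (self_subset_cthickening _ (hφK x hx hne))
      have h3 : ‖gradient (v k) x‖ ^ (p - 1) ∈ Icc a b := by
        constructor
        · exact Real.rpow_le_rpow (by positivity) h1 (by linarith)
        · exact (Real.rpow_le_rpow (norm_nonneg _) h2 (by linarith)).trans (le_max_right _ _)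
      have h4 := hcβ _ h3
      have h5 : c₄ * φ x ≤ cβ := by
        calc c₄ * φ x ≤ c₄ * ε := mul_le_mul_of_nonneg_left (hφε x) hc₄0.le
          _ = cβ := by rw [hc₄]; field_simp
      linarith
  -- lower bound of the integral of φ
  have hint : ε / 2 * V ≤ ∫ x, φ x := by
    have hxkK : xk ∈ K := by
      apply hφK xk hxk
      simp only [hφ, indicator_of_mem hxk]
      have : m' + ε + ‖xk - e₀‖ ^ 2 / 2 - v k xk = ε := by
        rw [hm']; simp only [hψ]; ring
      rw [this, max_eq_right hε0.le]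
      exact hε0.ne'
    have hballsub : ball xk s₃ ⊆ cthickening s₂ K := by
      intro x hx
      apply mem_cthickening_of_dist_le x xk s₂ _ hxkK
      exact (mem_ball.mp hx).le.trans (min_le_left _ _)
    have hlow : ∀ x ∈ ball xk s₃, ε / 2 ≤ φ x := by
      intro x hx
      have hxt := hballsub hx
      have hxP := hthick₂ hxt
      simp only [hφ, indicator_of_mem hxP]
      apply le_max_of_le_right
      have hdx : ‖x - xk‖ ≤ ε / (2 * (L₂ + D₁)) := by
        have := mem_ball.mp hx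
        rw [dist_eq_norm] at this
        exact this.le.trans (min_le_right _ _)
      have h1 := tangent_le hreg.cvx hxP (hdiff x hxP) hxk
      have h2 : ⟪gradient (v k) x, xk - x⟫ = - ⟪gradient (v k) x, x - xk⟫ := by
        rw [← inner_neg_right, neg_sub]
      have h3 : ⟪gradient (v k) x, x - xk⟫ ≤ L₂ * ‖x - xk‖ := by
        calc ⟪gradient (v k) x, x - xk⟫ ≤ ‖gradient (v k) x‖ * ‖x - xk‖ :=
              real_inner_le_norm _ _
          _ ≤ L₂ * ‖x - xk‖ := mul_le_mul_of_nonneg_right (hgrad₂ x hxt) (norm_nonneg _)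
      have h4 : ψ xk - ψ x ≤ D₁ * ‖x - xk‖ := by
        simp only [hψ]
        have e1 : ‖xk - e₀‖ - ‖x - e₀‖ ≤ ‖x - xk‖ := by
          have := norm_sub_norm_le (xk - e₀) (x - e₀)
          rw [sub_sub_sub_cancel_right, norm_sub_rev xk x] at this
          exact this
        have e2 := hnear x (hPΩ hxP)
        have e3 := hnear xk (hPΩ hxk)
        have e4 := norm_nonneg (x - xk)
        have e5 := norm_nonneg (x - e₀)
        have e6 := norm_nonneg (xk - e₀)
        by_cases hc : ‖xk - e₀‖ ≤ ‖x - e₀‖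
        · have : ‖xk - e₀‖ ^ 2 ≤ ‖x - e₀‖ ^ 2 := by gcongr
          have : 0 ≤ D₁ * ‖x - xk‖ := by positivity
          linarith
        · push Not at hc
          nlinarith
      have h5 : (L₂ + D₁) * ‖x - xk‖ ≤ ε / 2 := by
        calc (L₂ + D₁) * ‖x - xk‖ ≤ (L₂ + D₁) * (ε / (2 * (L₂ + D₁))) :=
              mul_le_mul_of_nonneg_left hdx (by positivity)
          _ = ε / 2 := by field_simp
      have h6 : m' = v k xk - ψ xk := hm'
      have h7 : ψ x = ‖x - e₀‖ ^ 2 / 2 := rfl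
      rw [← h7]
      nlinarith
    have hφint : Integrable φ := by
      obtain ⟨⟨Kc, hKc'⟩, hcs, -⟩ := hlip
      exact hKc'.continuous.integrable_of_hasCompactSupport hcs
    calc ε / 2 * V = ∫ x in ball xk s₃, ε / 2 := by
          rw [setIntegral_const, smul_eq_mul, measureReal_def, Measure.addHaar_ball_center,
            ← hV, mul_comm]
      _ ≤ ∫ x in ball xk s₃, φ x :=
          setIntegral_mono_on (integrableOn_const measure_ball_lt_top.ne)
            hφint.integrableOn measurableSet_ball hlow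
      _ ≤ ∫ x, φ x := setIntegral_le_integral hφint (Eventually.of_forall hφ0)
  refine ⟨fun x => c₄ * φ x, ?_, fun x => mul_nonneg hc₄0.le (hφ0 x), ?_, hφβ, ?_⟩
  · obtain ⟨⟨Kc, hKc'⟩, hcs, hts⟩ := hlip
    refine ⟨⟨Real.toNNReal c₄ * Kc, ?_⟩, hcs.mul_left, (tsupport_mul_subset_right).trans hts⟩
    apply LipschitzWith.of_dist_le_mul
    intro x y
    have h1 := hKc'.dist_le_mul x y
    rw [NNReal.coe_mul, Real.coe_toNNReal _ hc₄0.le, Real.dist_eq, ← mul_sub, abs_mul,
      abs_of_pos hc₄0, mul_assoc]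
    rw [Real.dist_eq] at h1
    exact mul_le_mul_of_nonneg_left h1 hc₄0.le
  · intro x hx hxK
    by_contra hcon
    apply hxK
    apply hφK x hx
    intro h0
    apply hcon
    simp only
    rw [h0, mul_zero]
  · have hgr : ∀ x, gradient (fun x => c₄ * φ x) x = c₄ • gradient φ x := by
      intro x
      unfold gradient
      rw [show (fun x => c₄ * φ x) = c₄ • φ from rfl, fderiv_const_smul_field]
      simp
    have h1 : ∫ x, ⟪dir (gradient (v k) x), gradient (fun x => c₄ * φ x) x⟫ =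
        c₄ * ∫ x, ⟪dir (gradient (v k) x), gradient φ x⟫ := by
      rw [← integral_const_mul]
      congr 1
      ext x
      rw [hgr, inner_smul_right]
    rw [h1, ← mul_neg]
    apply mul_le_mul_of_nonneg_left _ hc₄0.le
    refine le_trans ?_ hcmp
    apply mul_le_mul_of_nonneg_left hint
    positivity

end PLap
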