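import Pool.Agent.Lib.MP_a627f3_an.Defs

open MeasureTheory Set Filter Topology Metric
open scoped RealInnerProductSpace ENNReal NNReal

namespace PLap

section cutoff

/-- Continuous ramp. -/
private noncomputable def psi (t y : ℝ) : ℝ := max 0 (min 1 ((y - t) / t))

private theorem psi_cont (t : ℝ) : Continuous (psi t) :=
  continuous_const.max (continuous_const.min ((continuous_id.sub continuous_const).div_const t))

private theorem psi_nonneg (t y : ℝ) : 0 ≤ psi t y := le_max_left _ _

private theorem psi_le_one (t y : ℝ) : psi t y ≤ 1 := max_le zero_le_one (min_le_left _ _)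

private theorem psi_zero {t y : ℝ} (ht : 0 < t) (hy : y ≤ t) : psi t y = 0 := by
  refine max_eq_left ((min_le_right _ _).trans ?_)
  exact div_nonpos_of_nonpos_of_nonneg (by linarith) ht.le

private theorem psi_one {t y : ℝ} (ht : 0 < t) (hy : 2 * t ≤ y) : psi t y = 1 := by
  unfold psi
  rw [min_eq_left, max_eq_right zero_le_one]
  rw [le_div_iff₀ ht]; linarith

/-- `C¹` truncation. -/
private noncomputable def chi (t s : ℝ) : ℝ := ∫ y in (0:ℝ)..s, psi t y

private theorem chi_deriv (t s : ℝ) : HasDerivAt (chi t) (psi t s) s :=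
  ((psi_cont t).integral_hasStrictDerivAt 0 s).hasDerivAt

private theorem chi_zero {t s : ℝ} (ht : 0 < t) (hs0 : 0 ≤ s) (hs : s ≤ t) : chi t s = 0 := by
  unfold chi
  rw [intervalIntegral.integral_congr (g := fun _ => 0)]
  · simp
  · intro y hy
    rw [uIcc_of_le hs0] at hy
    exact psi_zero ht (hy.2.trans hs)

private theorem chi_nonneg {t s : ℝ} (hs0 : 0 ≤ s) : 0 ≤ chi t s :=
  intervalIntegral.integral_nonneg hs0 fun y _ => psi_nonneg t y

private theorem chi_le {t s : ℝ} (hs0 : 0 ≤ s) : chi t s ≤ s := by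
  have h : chi t s ≤ ∫ _ in (0:ℝ)..s, (1:ℝ) :=
    intervalIntegral.integral_mono_on hs0 ((psi_cont t).intervalIntegrable _ _)
      intervalIntegrable_const fun y _ => psi_le_one t y
  simpa using h

private theorem le_chi {t s : ℝ} (ht : 0 < t) (hs0 : 0 ≤ s) : s - 2 * t ≤ chi t s := by
  rcases le_total s (2 * t) with h | h
  · linarith [chi_nonneg (t := t) hs0]
  · have h1 : chi t s = (∫ y in (0:ℝ)..(2 * t), psi t y) + ∫ y in (2 * t)..s, psi t y :=
      (intervalIntegral.integral_add_adjacent_intervals ((psi_cont t).intervalIntegrable _ _)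
        ((psi_cont t).intervalIntegrable _ _)).symm
    have h2 : 0 ≤ ∫ y in (0:ℝ)..(2 * t), psi t y :=
      intervalIntegral.integral_nonneg (by linarith) fun y _ => psi_nonneg t y
    have h3 : ∫ y in (2 * t)..s, psi t y = s - 2 * t := by
      rw [intervalIntegral.integral_congr (g := fun _ => 1)]
      · simp
      · intro y hy
        rw [uIcc_of_le h] at hy
        exact psi_one ht hy.1
    rw [h1, h3]
    linarith

end cutoff

variable {E : Type*} [NormedAddCommGroup E] [InnerProductSpace ℝ E] [FiniteDimensional ℝ E]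
  [CompleteSpace E] [MeasurableSpace E] [BorelSpace E]

private theorem chi_contDiff (t : ℝ) : ContDiff ℝ 1 (chi t) := by
  rw [contDiff_one_iff_deriv]
  refine ⟨fun x => (chi_deriv t x).differentiableAt, ?_⟩
  have : deriv (chi t) = psi t := funext fun x => (chi_deriv t x).deriv
  rw [this]
  exact psi_cont t

/-- Truncation `f = χ_τ(e^{-v})` of `e^{-v}` as a `C¹` function with compact support in `P`. -/
theorem exists_trunc {P : Set E} {v : E → ℝ} (hv : Reg P v) {τ : ℝ} (hτ : 0 < τ) :
    ∃ f : E → ℝ, ContDiff ℝ 1 f ∧ HasCompactSupport f ∧ tsupport f ⊆ P ∧ (∀ x, 0 ≤ f x) ∧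
      ∀ x ∈ P, f x ≤ Real.exp (-v x) ∧ Real.exp (-v x) - 3 * τ / 2 ≤ f x ∧
        ‖fderiv ℝ f x‖ ≤ ‖gradient v x‖ * Real.exp (-v x) := by
  classical
  set t : ℝ := 3 * τ / 4 with ht
  have ht0 : 0 < t := by positivity
  obtain ⟨K, hK, hKP, hKv⟩ := hv.coer (-Real.log t)
  set f : E → ℝ := fun x => if x ∈ P then chi t (Real.exp (-v x)) else 0 with hf
  have hf0 : ∀ x ∉ K, f x = 0 := by
    intro x hx
    simp only [hf]
    split_ifs with h
    · refine chi_zero ht0 (Real.exp_pos _).le ?_
      have h1 := hKv x ⟨h, hx⟩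
      calc Real.exp (-v x) ≤ Real.exp (Real.log t) := Real.exp_le_exp.mpr (by linarith)
        _ = t := Real.exp_log ht0
    · rfl
  have hfK : tsupport f ⊆ K :=
    closure_minimal (fun x hx => by_contra fun h => hx (hf0 x h)) hK.isClosed
  have hvd : ∀ x ∈ P, ContDiffAt ℝ 1 v x := fun x hx =>
    (hv.c1 x hx).contDiffAt (hv.isOpen.mem_nhds hx)
  have hfe : ∀ x ∈ P, f =ᶠ[𝓝 x] fun y => chi t (Real.exp (-v y)) := by
    intro x hx
    filter_upwards [hv.isOpen.mem_nhds hx] with y hy
    simp only [hf, if_pos hy]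
  refine ⟨f, ?_, hK.of_isClosed_subset (isClosed_tsupport f) hfK, hfK.trans hKP, ?_, ?_⟩
  · rw [contDiff_iff_contDiffAt]
    intro x
    by_cases hx : x ∈ P
    · refine ContDiffAt.congr_of_eventuallyEq ?_ (hfe x hx)
      exact (chi_contDiff t).contDiffAt.comp x (hvd x hx).neg.exp
    · have hxK : x ∉ K := fun h => hx (hKP h)
      refine (contDiffAt_const (c := (0:ℝ))).congr_of_eventuallyEq ?_
      filter_upwards [hK.isClosed.isOpen_compl.mem_nhds hxK] with y hy
      exact hf0 y hy
  · intro x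
    simp only [hf]
    split_ifs
    · exact chi_nonneg (Real.exp_pos _).le
    · exact le_rfl
  · intro x hx
    have h1 : f x = chi t (Real.exp (-v x)) := by simp only [hf, if_pos hx]
    have hd : HasFDerivAt v (fderiv ℝ v x) x :=
      ((hvd x hx).differentiableAt one_ne_zero).hasFDerivAt
    have h2 := (chi_deriv t (Real.exp (-v x))).comp_hasFDerivAt x hd.neg.exp
    have h3 : fderiv ℝ f x = psi t (Real.exp (-v x)) • (Real.exp (-v x) • (-fderiv ℝ v x)) := by
      rw [(hfe x hx).fderiv_eq]
      exact h2.fderiv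
    have h4 : ‖gradient v x‖ = ‖fderiv ℝ v x‖ := by
      rw [gradient, LinearIsometryEquiv.norm_map]
    refine ⟨?_, ?_, ?_⟩
    · rw [h1]; exact chi_le (Real.exp_pos _).le
    · rw [h1]
      have := le_chi ht0 (Real.exp_pos (-v x)).le
      rw [ht] at this ⊢
      linarith
    · rw [h3, norm_smul, norm_smul, norm_neg, h4, Real.norm_of_nonneg (psi_nonneg _ _),
        Real.norm_of_nonneg (Real.exp_pos _).le]
      calc psi t (Real.exp (-v x)) * (Real.exp (-v x) * ‖fderiv ℝ v x‖)
          ≤ 1 * (Real.exp (-v x) * ‖fderiv ℝ v x‖) :=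
            mul_le_mul_of_nonneg_right (psi_le_one _ _) (by positivity)
        _ = ‖fderiv ℝ v x‖ * Real.exp (-v x) := by ring

end PLap
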