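import Pool.Agent.Lib.MP_a627f3_an.Main
import Pool.Agent.Lib.MP_a627f3_an.SeqExist
import Pool.Agent.Lib.MP_a627f3_an.Slack
import Pool.Agent.Lib.MP_a627f3_an.Propagate
import Pool.Agent.Lib.MP_a627f3_an.Trunc

open MeasureTheory Set Filter Topology Metric
open scoped RealInnerProductSpace ENNReal NNReal

namespace PLap

set_option linter.unusedSectionVars false

variable {E : Type*} [NormedAddCommGroup E] [InnerProductSpace ℝ E] [FiniteDimensional ℝ E]
  [CompleteSpace E] [MeasurableSpace E] [BorelSpace E]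

/-- `f^q ≥ s^q - q t` if `f ≥ s - t`, `0 ≤ s ≤ 1`. -/
theorem rpow_sub_le {q s t f : ℝ} (hq : 1 < q) (hs0 : 0 ≤ s) (hs1 : s ≤ 1) (ht : 0 ≤ t)
    (hf0 : 0 ≤ f) (hf : s - t ≤ f) : s ^ q - q * t ≤ f ^ q := by
  by_cases h : s ≤ t
  · have h1 : s ^ q ≤ s := by
      calc s ^ q ≤ s ^ (1:ℝ) := Real.rpow_le_rpow_of_exponent_ge' hs0 hs1 zero_le_one hq.le
        _ = s := Real.rpow_one s
    have h2 : 0 ≤ f ^ q := by positivity
    nlinarith
  · push Not at h
    have hs : 0 < s := by linarith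
    have h1 : (s - t) ^ q ≤ f ^ q := Real.rpow_le_rpow (by linarith) hf (by linarith)
    have h2 := one_add_mul_self_le_rpow_one_add (s := -(t / s)) (by
      rw [neg_le_neg_iff, div_le_one hs]; exact h.le) hq.le
    have h3 : s - t = s * (1 + -(t / s)) := by field_simp; ring
    have h4 : s ^ q * (1 + q * -(t / s)) ≤ (s - t) ^ q := by
      rw [h3, Real.mul_rpow hs.le]
      · exact mul_le_mul_of_nonneg_left h2 (by positivity)
      · have : t / s ≤ 1 := (div_le_one hs).mpr h.le
        linarith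
    have h5 : s ^ q * (1 + q * -(t / s)) = s ^ q - q * t * (s ^ q / s) := by field_simp; ring
    have h6 : s ^ q / s ≤ 1 := by
      rw [div_le_one hs]
      calc s ^ q ≤ s ^ (1:ℝ) := Real.rpow_le_rpow_of_exponent_ge' hs0 hs1 zero_le_one hq.le
        _ = s := Real.rpow_one s
    have h7 : q * t * (s ^ q / s) ≤ q * t * 1 :=
      mul_le_mul_of_nonneg_left h6 (by positivity)
    linarith

/-- The truncations of `e^{-u}` as test functions. -/
theorem trunc_facts {Q : Set E} {u : E → ℝ} {q : ℝ} (hq : 1 < q) (hu : Reg Q u)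
    (hnn : ∀ x ∈ Q, 0 ≤ u x)
    (hfin : IntegrableOn (fun x => ‖gradient u x‖ ^ q * Real.exp (-q * u x)) Q)
    {τ : ℝ} (hτ : 0 < τ) :
    ∃ f : E → ℝ, ContDiff ℝ 1 f ∧ HasCompactSupport f ∧ tsupport f ⊆ Q ∧
      (∀ x ∈ Q, Real.exp (-u x) - 3 * τ / 2 ≤ f x) ∧
      (∫ x, ‖fderiv ℝ f x‖ ^ q) ≤ ∫ x in Q, ‖gradient u x‖ ^ q * Real.exp (-q * u x) ∧
      (∫ x in Q, Real.exp (-q * u x)) - (q * (3 * τ / 2)) * (volume Q).toReal ≤
        ∫ x, |f x| ^ q := by
  have hq0 : 0 < q := by linarith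
  obtain ⟨f, hf1, hf2, hf3, hf0, hf⟩ := exists_trunc hu hτ
  refine ⟨f, hf1, hf2, hf3, fun x hx => (hf x hx).2.1, ?_, ?_⟩
  · have h1 : ∫ x, ‖fderiv ℝ f x‖ ^ q = ∫ x in Q, ‖fderiv ℝ f x‖ ^ q := by
      rw [setIntegral_eq_integral_of_forall_compl_eq_zero]
      intro x hx
      have : x ∉ tsupport (fderiv ℝ f) := fun hh => hx (hf3 (tsupport_fderiv_subset ℝ hh))
      rw [image_eq_zero_of_notMem_tsupport this, norm_zero, Real.zero_rpow hq0.ne']
    rw [h1]
    have hint : Integrable (fun x => ‖fderiv ℝ f x‖ ^ q) := by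
      have hc : Continuous (fun x => ‖fderiv ℝ f x‖ ^ q) :=
        (hf1.continuous_fderiv (by norm_num)).norm.rpow_const fun x => Or.inr hq0.le
      refine hc.integrable_of_hasCompactSupport ?_
      refine (hf2.fderiv ℝ).comp_left (g := fun y => ‖y‖ ^ q) ?_
      simp only [norm_zero]
      exact Real.zero_rpow hq0.ne'
    apply setIntegral_mono_on hint.integrableOn hfin hu.isOpen.measurableSet
    intro x hx
    have h2 := (hf x hx).2.2
    calc ‖fderiv ℝ f x‖ ^ q ≤ (‖gradient u x‖ * Real.exp (-u x)) ^ q :=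
          Real.rpow_le_rpow (norm_nonneg _) h2 hq0.le
      _ = ‖gradient u x‖ ^ q * Real.exp (-q * u x) := by
          rw [Real.mul_rpow (norm_nonneg _) (Real.exp_pos _).le, ← Real.exp_mul]
          congr 2; ring
  · have h1 : ∫ x, |f x| ^ q = ∫ x in Q, |f x| ^ q := by
      rw [setIntegral_eq_integral_of_forall_compl_eq_zero]
      intro x hx
      have : x ∉ tsupport f := fun hh => hx (hf3 hh)
      rw [image_eq_zero_of_notMem_tsupport this, abs_zero, Real.zero_rpow hq0.ne']
    rw [h1]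
    have hvol : volume Q < ⊤ := hu.bdd.measure_lt_top
    have hint : Integrable (fun x => |f x| ^ q) := by
      have hc : Continuous (fun x => |f x| ^ q) :=
        (hf1.continuous.abs).rpow_const fun x => Or.inr hq0.le
      refine hc.integrable_of_hasCompactSupport ?_
      refine hf2.comp_left (g := fun y => |y| ^ q) ?_
      simp only [abs_zero]
      exact Real.zero_rpow hq0.ne'
    have hec : ContinuousOn (fun x => Real.exp (-q * u x)) Q :=
      Real.continuous_exp.comp_continuousOn (continuousOn_const.mul hu.c1.continuousOn)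
    have i1 : IntegrableOn (fun x => Real.exp (-q * u x)) Q := by
      refine BoundsAux.integrableOn_of_cont hu.isOpen hu.bdd hec (M := 1) fun x hx => ?_
      rw [abs_of_pos (Real.exp_pos _)]
      apply Real.exp_le_one_iff.mpr
      have := mul_nonneg hq0.le (hnn x hx)
      linarith
    have h2 : (∫ x in Q, Real.exp (-q * u x)) - (q * (3 * τ / 2)) * (volume Q).toReal =
        ∫ x in Q, (Real.exp (-q * u x) - q * (3 * τ / 2)) := by
      rw [integral_sub i1 (integrableOn_const hvol.ne), setIntegral_const, smul_eq_mul,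
        measureReal_def]
      ring
    rw [h2]
    apply setIntegral_mono_on (i1.sub (integrableOn_const hvol.ne)) hint.integrableOn
      hu.isOpen.measurableSet
    intro x hx
    have h3 := rpow_sub_le (f := |f x|) hq (Real.exp_pos (-u x)).le
      (Real.exp_le_one_iff.mpr (by have := hnn x hx; linarith)) (show 0 ≤ 3 * τ / 2 by positivity)
      (abs_nonneg _) (by
        have := (hf x hx).2.1
        exact this.trans (le_abs_self _))
    have h4 : Real.exp (-u x) ^ q = Real.exp (-q * u x) := by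
      rw [← Real.exp_mul]; congr 1; ring
    rw [h4] at h3
    exact h3

theorem strict_ineq (hdim : 2 ≤ Module.finrank ℝ E) {Ω : Set E} (hΩ : IsOpen Ω)
    (hcv : Convex ℝ Ω) (hb : Bornology.IsBounded Ω) (hne : Ω.Nonempty) {p q : ℝ} (hq : 1 < q)
    (hqp : q < p) : Lam p q (lam p Ω) < lam q Ω := by
  have hp : 1 < p := hq.trans hqp
  have hq0 : 0 < q := by linarith
  have : Nontrivial E := Module.nontrivial_of_finrank_pos (R := ℝ) (by omega)
  have hl := lam_pos hp hΩ hne hb
  by_contra hcon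
  push Not at hcon
  set Λ := Lam p q (lam p Ω) with hΛ
  have hΛ0 : 0 ≤ Λ := by
    rw [hΛ]; unfold Lam
    have := Tp_pos hp
    have := Tp_pos hq
    positivity
  obtain ⟨P₀, v₀, μ₀, h₀⟩ := exists_approxSeq hp hΩ hcv hb hne
  obtain ⟨s, -, h, hub⟩ := exists_locUB hp hΩ hcv hb hne h₀
  obtain ⟨Q₀, u₀, ν₀, g₀⟩ := exists_approxSeq hq hΩ hcv hb hne
  obtain ⟨s', -, g, hug⟩ := exists_locUB hq hΩ hcv hb hne g₀
  generalize hP : (fun k => P₀ (s k)) = P at h
  generalize hv : (fun k => v₀ (s k)) = v at h hub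
  generalize hμ : (fun k => μ₀ (s k)) = μ at h
  generalize hQ : (fun k => Q₀ (s' k)) = Q at g
  generalize hu : (fun k => u₀ (s' k)) = u at g hug
  generalize hν : (fun k => ν₀ (s' k)) = ν at g
  obtain ⟨β, C, hC0, hβc, hβ, hbarta⟩ := barta_slack (E := E) hq hqp hl
  obtain ⟨K, hK, hKΩ, ⟨y₀, hy₀⟩, κ, hκ, hev⟩ := slack_const hdim hp hΩ hb hne h hub hβc hβ
  obtain ⟨Cq, hCq⟩ := hug K hK hKΩ
  set cq := Real.exp (-Cq) with hcq
  have hcq0 : 0 < cq := Real.exp_pos _
  set κ' := (cq / 2) ^ q * κ with hκ'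
  have hκ'0 : 0 < κ' := by positivity
  set V := (volume Ω).toReal with hV
  have hV0 : 0 ≤ V := ENNReal.toReal_nonneg
  have hvolΩ : volume Ω < ⊤ := hb.measure_lt_top
  set τ := min (cq / 3) (κ' / (4 * (Λ * (q * (3 / 2)) * V + 1))) with hτ
  have hτ0 : 0 < τ := by positivity
  obtain ⟨η, hηlim, hη⟩ := g.en
  have hηV : Tendsto (fun j => |η j| * V) atTop (𝓝 0) := by
    have := (hηlim.abs).mul_const V
    simpa using this
  -- choose j
  obtain ⟨j, hjK, hjC, hjη⟩ := ((g.exh K hK hKΩ).and (hCq.and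
    (hηV.eventually (gt_mem_nhds (show (0:ℝ) < κ' / 4 by positivity))))).exists
  obtain ⟨f, hf1, hf2, hf3, hf4, hf5, hf6⟩ :=
    trunc_facts hq (g.reg j) (g.nn j) (g.fin j) hτ0
  have hfK : ∀ x ∈ K, cq / 2 ≤ f x := by
    intro x hx
    have h1 := hf4 x (hjK hx)
    have h2 : cq ≤ Real.exp (-u j x) := by
      rw [hcq]; apply Real.exp_le_exp.mpr
      have := hjC x hx
      linarith
    have h3 : τ ≤ cq / 3 := min_le_left _ _
    linarith
  have hfΩ : tsupport f ⊆ Ω := hf3.trans (g.sub j)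
  -- the slack inequality for large k
  have hineq : ∀ᶠ k in atTop, (Λ - C * (lam p Ω - μ k)) * (∫ x, |f x| ^ q) + κ' ≤
      ∫ x, ‖fderiv ℝ f x‖ ^ q := by
    filter_upwards [hev, h.exh _ hf2 hfΩ] with k hk hsub
    obtain ⟨φ, hφ1, hφ2, hφ3, hφ4, hφ5⟩ := hk
    have htest : IsTest (P k) f := ⟨hf1, hf2, hsub, y₀, by
      have := hfK y₀ hy₀
      have : 0 < f y₀ := by linarith [hcq0]
      exact this.ne'⟩
    set c := (cq / 2) ^ q with hc
    have hc0 : 0 < c := by positivity
    have hlip : LipC (P k) (fun x => c * φ x) := by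
      obtain ⟨⟨Kc, hKc'⟩, hcs, hts⟩ := hφ1
      refine ⟨⟨Real.toNNReal c * Kc, ?_⟩, hcs.mul_left, (tsupport_mul_subset_right).trans hts⟩
      apply LipschitzWith.of_dist_le_mul
      intro x y
      have h1 := hKc'.dist_le_mul x y
      rw [NNReal.coe_mul, Real.coe_toNNReal _ hc0.le, Real.dist_eq, ← mul_sub, abs_mul,
        abs_of_pos hc0, mul_assoc]
      rw [Real.dist_eq] at h1
      exact mul_le_mul_of_nonneg_left h1 hc0.le
    have hb1 := hbarta (P k) (v k) (h.reg k) (μ k) (h.mpos k) (h.mle k) (h.sup k) f htest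
      (fun x => c * φ x) hlip (fun x => mul_nonneg hc0.le (hφ2 x)) (by
        intro x hx
        by_cases hxK : x ∈ K
        · have h1 := hφ4 x hx
          have h2 : c ≤ |f x| ^ q := by
            rw [hc]
            exact Real.rpow_le_rpow (by positivity) ((hfK x hxK).trans (le_abs_self _)) hq0.le
          have h3 := hφ2 x
          calc c * φ x ≤ |f x| ^ q * φ x := mul_le_mul_of_nonneg_right h2 h3
            _ ≤ |f x| ^ q * β (‖gradient (v k) x‖ ^ (p - 1)) :=
                mul_le_mul_of_nonneg_left h1 (by positivity)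
            _ = _ := mul_comm _ _
        · rw [hφ3 x hx hxK, mul_zero]
          have hβnn : 0 ≤ β (‖gradient (v k) x‖ ^ (p - 1)) := (hφ2 x).trans (hφ4 x hx)
          positivity)
    have hgr : ∀ x, gradient (fun x => c * φ x) x = c • gradient φ x := by
      intro x
      unfold gradient
      rw [show (fun x => c * φ x) = c • φ from rfl, fderiv_const_smul_field]
      simp
    have h1 : ∫ x, ⟪dir (gradient (v k) x), gradient (fun x => c * φ x) x⟫ =
        c * ∫ x, ⟪dir (gradient (v k) x), gradient φ x⟫ := by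
      rw [← integral_const_mul]
      congr 1
      ext x
      rw [hgr, inner_smul_right]
    rw [h1] at hb1
    have h2 : κ' ≤ c * - ∫ x, ⟪dir (gradient (v k) x), gradient φ x⟫ := by
      rw [hκ']; exact mul_le_mul_of_nonneg_left hφ5 hc0.le
    linarith
  have hlim : Tendsto (fun k => (Λ - C * (lam p Ω - μ k)) * (∫ x, |f x| ^ q) + κ') atTop
      (𝓝 (Λ * (∫ x, |f x| ^ q) + κ')) := by
    have h1 : Tendsto (fun k => Λ - C * (lam p Ω - μ k)) atTop (𝓝 Λ) := by
      have := ((tendsto_const_nhds (x := lam p Ω)).sub h.mlim).const_mul C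
      have h2 := (tendsto_const_nhds (x := Λ)).sub this
      simpa using h2
    exact (h1.mul_const _).add_const _
  have hmain := le_of_tendsto hlim hineq
  -- conclusion
  set I := ∫ x in Q j, Real.exp (-q * u j x) with hI
  have hI0 : 0 ≤ I := integral_nonneg fun x => (Real.exp_pos _).le
  have hvolQ : (volume (Q j)).toReal ≤ V :=
    ENNReal.toReal_mono hvolΩ.ne (measure_mono (g.sub j))
  have hIV : I ≤ V := by
    have h1 : I ≤ ∫ x in Q j, (1:ℝ) := by
      apply integral_mono_of_nonneg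
      · exact Eventually.of_forall fun x => (Real.exp_pos _).le
      · exact integrableOn_const ((measure_mono (g.sub j)).trans_lt hvolΩ).ne
      · filter_upwards [ae_restrict_mem (g.reg j).isOpen.measurableSet] with x hx
        apply Real.exp_le_one_iff.mpr
        have := mul_nonneg hq0.le (g.nn j x hx)
        linarith
    rw [setIntegral_const, smul_eq_mul, mul_one, measureReal_def] at h1
    exact h1.trans hvolQ
  have h1 := hη j
  have h2 : Λ * (I - q * (3 * τ / 2) * V) ≤ Λ * ∫ x, |f x| ^ q := by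
    apply mul_le_mul_of_nonneg_left _ hΛ0
    refine le_trans ?_ hf6
    have : q * (3 * τ / 2) * (volume (Q j)).toReal ≤ q * (3 * τ / 2) * V :=
      mul_le_mul_of_nonneg_left hvolQ (by positivity)
    linarith
  have h3 : (lam q Ω + η j) * I ≤ Λ * I + κ' / 4 := by
    have h4 : lam q Ω * I ≤ Λ * I := mul_le_mul_of_nonneg_right hcon hI0
    have h5 : η j * I ≤ |η j| * V := by
      calc η j * I ≤ |η j| * I := mul_le_mul_of_nonneg_right (le_abs_self _) hI0
        _ ≤ |η j| * V := mul_le_mul_of_nonneg_left hIV (abs_nonneg _)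
    rw [add_mul]
    linarith
  have h6 : Λ * (q * (3 * τ / 2) * V) ≤ κ' / 4 := by
    have h7 : τ ≤ κ' / (4 * (Λ * (q * (3 / 2)) * V + 1)) := min_le_right _ _
    have h8 : 0 ≤ Λ * (q * (3 / 2)) * V := by positivity
    calc Λ * (q * (3 * τ / 2) * V) = (Λ * (q * (3 / 2)) * V) * τ := by ring
      _ ≤ (Λ * (q * (3 / 2)) * V + 1) * τ := by nlinarith
      _ ≤ (Λ * (q * (3 / 2)) * V + 1) * (κ' / (4 * (Λ * (q * (3 / 2)) * V + 1))) :=
          mul_le_mul_of_nonneg_left h7 (by positivity)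
      _ = κ' / 4 := by field_simp
  have h9 : ∫ x, ‖fderiv ℝ f x‖ ^ q ≤ (lam q Ω + η j) * I := hf5.trans h1
  rw [mul_sub] at h2
  linarith

/-- Non-attainment. -/
theorem ratio_lt (hdim : 2 ≤ Module.finrank ℝ E) {Ω : Set E} (hΩ : IsOpen Ω) (hcv : Convex ℝ Ω)
    (hb : Bornology.IsBounded Ω) (hne : Ω.Nonempty) {p q : ℝ} (hq : 1 < q) (hqp : q < p) :
    lam p Ω ^ (1 / p) / lam q Ω ^ (1 / q) < Tp p / Tp q := by
  have hp : 1 < p := hq.trans hqp
  have : Nontrivial E := Module.nontrivial_of_finrank_pos (R := ℝ) (by omega)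
  have h1 := strict_ineq hdim hΩ hcv hb hne hq hqp
  have hTp := Tp_pos hp
  have hTq := Tp_pos hq
  have hlp := lam_pos hp hΩ hne hb
  have hlq := lam_pos hq hΩ hne hb
  have h2 : Tp q * lam p Ω ^ (1 / p) / Tp p < lam q Ω ^ (1 / q) := by
    have h3 := Real.rpow_lt_rpow (by unfold Lam; positivity) h1 (show 0 < 1 / q by positivity)
    unfold Lam at h3
    rw [← Real.rpow_mul (by positivity), mul_one_div_cancel (by linarith), Real.rpow_one] at h3
    exact h3
  rw [div_lt_div_iff₀ (by positivity) hTq]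
  rw [div_lt_iff₀ hTp] at h2
  linarith

end PLap
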