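import Pool.Agent.Lib.MP_a627f3_an.Gamma

open MeasureTheory Set Filter Topology Metric
open scoped RealInnerProductSpace ENNReal NNReal

namespace PLap

section tan

variable {p : ℝ}

private theorem tan_pos (hp : 1 < p) (z : ℝ) : 0 < 1 + (p - 1) * |z| ^ (p / (p - 1)) := by
  have h1 : 0 ≤ |z| ^ (p / (p - 1)) := Real.rpow_nonneg (abs_nonneg _) _
  have h2 : 0 < p - 1 := by linarith
  positivity

private theorem tan_cont (hp : 1 < p) :
    Continuous fun z : ℝ => (1 + (p - 1) * |z| ^ (p / (p - 1)))⁻¹ := by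
  have h2 : 0 < p - 1 := by linarith
  refine Continuous.inv₀ ?_ fun z => (tan_pos hp z).ne'
  refine continuous_const.add (continuous_const.mul ?_)
  exact continuous_abs.rpow_const fun _ => Or.inr (by positivity)

private theorem tan_integrable (hp : 1 < p) :
    IntegrableOn (fun z : ℝ => (1 + (p - 1) * z ^ (p / (p - 1)))⁻¹) (Ioi 0) := by
  have h2 : 0 < p - 1 := by linarith
  have hp' : 1 < p / (p - 1) := by rw [lt_div_iff₀ h2]; linarith
  have hI : IntegrableOn (fun z : ℝ => (1 + (p - 1) * |z| ^ (p / (p - 1)))⁻¹) (Ioi 0) := by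
    rw [← Ioc_union_Ioi_eq_Ioi zero_le_one, integrableOn_union]
    constructor
    · exact ((tan_cont hp).integrableOn_Icc).mono_set Ioc_subset_Icc_self
    · have h3 : IntegrableOn (fun z : ℝ => (p - 1)⁻¹ * z ^ (-(p / (p - 1)))) (Ioi 1) :=
        (integrableOn_Ioi_rpow_of_lt (by linarith) one_pos).const_mul _
      refine h3.mono' ((tan_cont hp).aestronglyMeasurable) ?_
      refine (ae_restrict_iff' measurableSet_Ioi).mpr (Eventually.of_forall fun z hz => ?_)
      have hz0 : 0 < z := one_pos.trans hz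
      rw [Real.norm_of_nonneg (inv_nonneg.mpr (tan_pos hp z).le), abs_of_pos hz0,
        Real.rpow_neg hz0.le, ← mul_inv]
      refine inv_anti₀ (mul_pos h2 (Real.rpow_pos_of_pos hz0 _)) (by linarith)
  refine hI.congr_fun (fun z hz => ?_) measurableSet_Ioi
  simp only
  rw [abs_of_pos hz]

/-- `τ(z) = ∫_0^z ds/(1+(p-1)|s|^{p'})` -/
private noncomputable def tau (p : ℝ) (z : ℝ) : ℝ :=
  ∫ s in (0:ℝ)..z, (1 + (p - 1) * |s| ^ (p / (p - 1)))⁻¹

private theorem tau_zero : tau p 0 = 0 := by simp [tau]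

private theorem tau_neg (z : ℝ) : tau p (-z) = - tau p z := by
  have h := intervalIntegral.integral_comp_neg (a := 0) (b := z)
    (fun s : ℝ => (1 + (p - 1) * |s| ^ (p / (p - 1)))⁻¹)
  simp only [abs_neg, neg_zero] at h
  unfold tau
  rw [h, intervalIntegral.integral_symm]

private theorem tau_deriv (hp : 1 < p) (z : ℝ) :
    HasDerivAt (tau p) ((1 + (p - 1) * |z| ^ (p / (p - 1)))⁻¹) z :=
  ((tan_cont hp).integral_hasStrictDerivAt 0 z).hasDerivAt

private theorem tau_strictMono (hp : 1 < p) : StrictMono (tau p) := by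
  refine strictMono_of_deriv_pos fun z => ?_
  rw [(tau_deriv hp z).deriv]
  exact inv_pos.mpr (tan_pos hp z)

private theorem tau_cont (hp : 1 < p) : Continuous (tau p) :=
  continuous_iff_continuousAt.mpr fun z => (tau_deriv hp z).continuousAt

private theorem tau_lim (hp : 1 < p) : Tendsto (tau p) atTop (𝓝 (Tp p)) := by
  have h := intervalIntegral_tendsto_integral_Ioi 0 (tan_integrable hp) tendsto_id
  refine h.congr' ?_
  filter_upwards [eventually_ge_atTop 0] with z hz
  unfold tau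
  refine intervalIntegral.integral_congr fun s hs => ?_
  rw [id, uIcc_of_le hz] at hs
  rw [abs_of_nonneg hs.1]

private theorem tau_lt (hp : 1 < p) (z : ℝ) : tau p z < Tp p :=
  (tau_strictMono hp (lt_add_one z)).trans_le
    ((tau_strictMono hp).monotone.ge_of_tendsto (tau_lim hp) _)

private theorem tau_range (hp : 1 < p) : range (tau p) = Ioo (-(Tp p)) (Tp p) := by
  apply Subset.antisymm
  · rintro _ ⟨z, rfl⟩
    refine ⟨?_, tau_lt hp z⟩
    have := tau_lt hp (-z)
    rw [tau_neg] at this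
    linarith
  · rintro x ⟨h1, h2⟩
    obtain ⟨b, hb⟩ := ((tau_lim hp).eventually (lt_mem_nhds h2)).exists
    obtain ⟨a, ha⟩ := ((tau_lim hp).eventually (lt_mem_nhds (by linarith : -x < Tp p))).exists
    have ha' : tau p (-a) < x := by rw [tau_neg]; linarith
    exact mem_range_of_exists_le_of_exists_ge (tau_cont hp) ⟨-a, ha'.le⟩ ⟨b, hb.le⟩

end tan

/-- Solution `σ` of `σ' = 1 + (p-1)|σ|^{p'}`, `σ(0) = 0`, on `(-T_p, T_p)`. -/
theorem exists_tan {p : ℝ} (hp : 1 < p) :
    ∃ σ : ℝ → ℝ, σ 0 = 0 ∧ (∀ x, σ (-x) = - σ x) ∧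
      (∀ x ∈ Ioo (-(Tp p)) (Tp p), HasDerivAt σ (1 + (p - 1) * |σ x| ^ (p / (p - 1))) x) ∧
      Tendsto σ (𝓝[<] (Tp p)) atTop := by
  classical
  have hemb : IsOpenEmbedding (tau p) := by
    refine ⟨(tau_strictMono hp).isEmbedding_of_ordConnected ?_, ?_⟩
    · rw [tau_range hp]; exact ordConnected_Ioo
    · rw [tau_range hp]; exact isOpen_Ioo
  have hmem : ∀ x ∈ Ioo (-(Tp p)) (Tp p), ∃ z, tau p z = x := by
    intro x hx
    rw [← tau_range hp] at hx
    exact hx
  choose! f hf using hmem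
  let σ : ℝ → ℝ := fun x => if x ∈ Ioo (-(Tp p)) (Tp p) then f x else 0
  have hσ : ∀ x ∈ Ioo (-(Tp p)) (Tp p), tau p (σ x) = x := by
    intro x hx
    simp only [σ, if_pos hx]
    exact hf x hx
  have hσ' : ∀ z, σ (tau p z) = z := by
    intro z
    have hz : tau p z ∈ Ioo (-(Tp p)) (Tp p) := by rw [← tau_range hp]; exact mem_range_self z
    exact (tau_strictMono hp).injective (hσ _ hz)
  have hpos : 0 < Tp p := by
    have := tau_lt hp 0
    rwa [tau_zero] at this
  have hcont : ∀ x ∈ Ioo (-(Tp p)) (Tp p), ContinuousAt σ x := by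
    intro x hx
    obtain ⟨z, rfl⟩ : x ∈ range (tau p) := by rw [tau_range hp]; exact hx
    rw [ContinuousAt, hσ', ← hemb.map_nhds_eq, tendsto_map'_iff]
    have : σ ∘ tau p = id := funext hσ'
    rw [this]
    exact tendsto_id
  refine ⟨σ, ?_, ?_, ?_, ?_⟩
  · have := hσ' 0
    rwa [tau_zero] at this
  · intro x
    by_cases hx : x ∈ Ioo (-(Tp p)) (Tp p)
    · apply (tau_strictMono hp).injective
      rw [hσ (-x) ⟨by linarith [hx.2], by linarith [hx.1]⟩, tau_neg, hσ x hx]
    · have hx' : -x ∉ Ioo (-(Tp p)) (Tp p) := fun h => hx ⟨by linarith [h.2], by linarith [h.1]⟩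
      simp only [σ, if_neg hx, if_neg hx', neg_zero]
  · intro x hx
    have h := HasDerivAt.of_local_left_inverse (hcont x hx) (tau_deriv hp (σ x))
      (inv_ne_zero (tan_pos hp _).ne')
      (by filter_upwards [isOpen_Ioo.mem_nhds hx] with y hy using hσ y hy)
    rwa [inv_inv] at h
  · rw [Filter.tendsto_atTop]
    intro M
    have hM : tau p M < Tp p := tau_lt hp M
    have hM' : max (tau p M) 0 < Tp p := max_lt hM hpos
    filter_upwards [Ioo_mem_nhdsLT hM'] with x hx
    have hx1 : x ∈ Ioo (-(Tp p)) (Tp p) :=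
      ⟨by linarith [(le_max_right (tau p M) 0).trans_lt hx.1], hx.2⟩
    rw [← (tau_strictMono hp).le_iff_le, hσ x hx1]
    exact ((le_max_left _ _).trans_lt hx.1).le

end PLap
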