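import Pool.Agent.Lib.MP_a627f3_an.VecA

open MeasureTheory Set Filter Topology Metric
open scoped RealInnerProductSpace ENNReal NNReal

namespace PLap

variable {E : Type*} [NormedAddCommGroup E] [InnerProductSpace ℝ E] [FiniteDimensional ℝ E]
  [CompleteSpace E] [MeasurableSpace E] [BorelSpace E]

theorem exists_adapted (p : ℝ) {ξ : E} (hξ : ξ ≠ 0) : ∃ b μ, Adapted p ξ b μ := by
  have hnt : Nontrivial E := ⟨⟨ξ, 0, hξ⟩⟩
  have hpos : 0 < Module.finrank ℝ E := Module.finrank_pos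
  set i₀ : Fin (Module.finrank ℝ E) := ⟨0, hpos⟩ with hi₀
  have hnorm : ‖‖ξ‖⁻¹ • ξ‖ = 1 := by
    rw [norm_smul, norm_inv, norm_norm, inv_mul_cancel₀ (norm_ne_zero_iff.mpr hξ)]
  have hon : Orthonormal ℝ (({i₀} : Set (Fin (Module.finrank ℝ E))).domRestrict
      (fun _ => ‖ξ‖⁻¹ • ξ)) := by
    constructor
    · intro i
      exact hnorm
    · intro i j hij
      exact absurd (Subsingleton.elim i j) hij
  obtain ⟨b, hb⟩ := hon.exists_orthonormalBasis_extension_of_card_eq (by simp)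
  refine ⟨b, fun i => if i = i₀ then (p - 1) * ‖ξ‖ ^ (p - 2) else ‖ξ‖ ^ (p - 2), i₀, ?_, ?_, ?_⟩
  · exact hb i₀ rfl
  · simp
  · intro i hi
    simp [hi]

theorem adapted_pos {p : ℝ} (hp : 1 < p) {ξ : E} (hξ : ξ ≠ 0) {b μ} (h : Adapted p ξ b μ) :
    ∀ i, 0 < μ i := by
  obtain ⟨i₀, -, h1, h2⟩ := h
  have hn : 0 < ‖ξ‖ ^ (p - 2) := Real.rpow_pos_of_pos (norm_pos_iff.mpr hξ) _
  intro i
  by_cases hi : i = i₀
  · rw [hi, h1]
    exact mul_pos (by linarith) hn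
  · rw [h2 i hi]
    exact hn

theorem vb_strictF (p : ℝ) {ξ₀ : E} (hξ : ξ₀ ≠ 0) :
    HasStrictFDerivAt (aP p : E → E) (‖ξ₀‖ ^ (p - 2) • ContinuousLinearMap.id ℝ E +
      (((p - 2) * ‖ξ₀‖ ^ (p - 4)) • innerSL ℝ ξ₀).smulRight ξ₀) ξ₀ := by
  have h1 : HasStrictFDerivAt (fun x : E => ‖x‖ ^ (p - 2))
      (((p - 2) * ‖ξ₀‖ ^ (p - 4)) • innerSL ℝ ξ₀) ξ₀ := by
    have h2 := (hasStrictFDerivAt_norm_sq ξ₀).rpow_const (p := (p - 2) / 2)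
      (Or.inl (by positivity : ‖ξ₀‖ ^ 2 ≠ 0))
    have e1 : (fun x : E => (‖x‖ ^ 2) ^ ((p - 2) / 2)) = fun x : E => ‖x‖ ^ (p - 2) := by
      funext x
      rw [← Real.rpow_natCast_mul (norm_nonneg _)]
      congr 1
      push_cast
      ring
    rw [e1] at h2
    convert! h2 using 1
    rw [← Nat.cast_smul_eq_nsmul ℝ, smul_smul]
    congr 1
    rw [← Real.rpow_natCast_mul (norm_nonneg _)]
    have e2 : ((2 : ℕ) : ℝ) * ((p - 2) / 2 - 1) = p - 4 := by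
      push_cast
      ring
    rw [e2]
    push_cast
    ring
  exact h1.smul (hasStrictFDerivAt_id ξ₀)

theorem vb_Nop {p : ℝ} {ξ₀ : E} (hξ : ξ₀ ≠ 0) {b μ} (h : Adapted p ξ₀ b μ) (η : E) :
    (‖ξ₀‖ ^ (p - 2) • ContinuousLinearMap.id ℝ E +
      (((p - 2) * ‖ξ₀‖ ^ (p - 4)) • innerSL ℝ ξ₀).smulRight ξ₀) η = Nop b μ η := by
  obtain ⟨i₀, hb, h1, h2⟩ := h
  have hn : 0 < ‖ξ₀‖ := norm_pos_iff.mpr hξ
  have e1 : ∀ i, (μ i * ⟪b i, η⟫) • b i = ‖ξ₀‖ ^ (p - 2) • (⟪b i, η⟫ • b i) +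
      (if i = i₀ then ((p - 2) * ‖ξ₀‖ ^ (p - 2) * ⟪b i₀, η⟫) • b i₀ else 0) := by
    intro i
    by_cases hi : i = i₀
    · rw [if_pos hi, hi, h1, smul_smul, ← add_smul]
      congr 1
      ring
    · rw [if_neg hi, h2 i hi, add_zero, smul_smul]
  unfold Nop
  rw [Finset.sum_congr rfl fun i _ => e1 i, Finset.sum_add_distrib, ← Finset.smul_sum,
    b.sum_repr' η, Finset.sum_ite_eq' Finset.univ i₀, if_pos (Finset.mem_univ _)]
  simp only [_root_.add_apply, _root_.smul_apply,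
    ContinuousLinearMap.smulRight_apply, ContinuousLinearMap.id_apply, innerSL_apply_apply,
    smul_eq_mul]
  congr 1
  rw [hb, inner_smul_left, smul_smul]
  congr 1
  have e2 : ‖ξ₀‖ ^ (p - 2) = ‖ξ₀‖ ^ (p - 4) * ‖ξ₀‖ ^ 2 := by
    rw [← Real.rpow_natCast, ← Real.rpow_add hn]
    congr 1
    push_cast
    ring
  rw [e2]
  simp only [conj_trivial]
  field_simp

theorem aP_strict {p : ℝ} (hp : 1 < p) {ξ₀ : E} (hξ : ξ₀ ≠ 0) {b μ} (h : Adapted p ξ₀ b μ)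
    {ε : ℝ} (hε : 0 < ε) : ∃ s > 0, ∀ ξ ∈ closedBall ξ₀ s, ∀ η ∈ closedBall ξ₀ s,
      ‖aP p ξ - aP p η - Nop b μ (ξ - η)‖ ≤ ε * ‖ξ - η‖ := by
  have h1 := (vb_strictF p hξ).isLittleO.def hε
  obtain ⟨δ, hδ, hball⟩ := Metric.eventually_nhds_iff.mp h1
  refine ⟨δ / 2, by linarith, ?_⟩
  intro ξ hξs η hηs
  rw [mem_closedBall] at hξs hηs
  have h2 : dist (ξ, η) (ξ₀, ξ₀) < δ := by
    rw [Prod.dist_eq]
    exact max_lt (by simp only; linarith) (by simp only; linarith)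
  have h3 := hball h2
  simp only at h3
  rw [vb_Nop hξ h] at h3
  exact h3

theorem aP_strong_mono {p : ℝ} (hp : 1 < p) {ξ₀ : E} (hξ : ξ₀ ≠ 0) :
    ∃ s > 0, ∃ c > 0, ∀ ξ ∈ closedBall ξ₀ s, ∀ η ∈ closedBall ξ₀ s,
      c * ‖ξ - η‖ ^ 2 ≤ ⟪aP p ξ - aP p η, ξ - η⟫ := by
  obtain ⟨b, μ, h⟩ := exists_adapted p hξ
  set c₀ : ℝ := min (p - 1) 1 * ‖ξ₀‖ ^ (p - 2) with hc₀
  have hn : 0 < ‖ξ₀‖ ^ (p - 2) := Real.rpow_pos_of_pos (norm_pos_iff.mpr hξ) _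
  have hc₀pos : 0 < c₀ := mul_pos (lt_min (by linarith) one_pos) hn
  have hμ : ∀ i, c₀ ≤ μ i := by
    obtain ⟨i₀, -, h1, h2⟩ := h
    intro i
    by_cases hi : i = i₀
    · rw [hi, h1]
      exact mul_le_mul_of_nonneg_right (min_le_left _ _) hn.le
    · rw [h2 i hi]
      calc c₀ ≤ 1 * ‖ξ₀‖ ^ (p - 2) := mul_le_mul_of_nonneg_right (min_le_right _ _) hn.le
        _ = _ := one_mul _
  have hN : ∀ z : E, c₀ * ‖z‖ ^ 2 ≤ ⟪Nop b μ z, z⟫ := by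
    intro z
    unfold Nop
    rw [sum_inner, ← b.sum_sq_norm_inner_right z, Finset.mul_sum]
    apply Finset.sum_le_sum
    intro i _
    rw [inner_smul_left, Real.norm_eq_abs, sq_abs]
    simp only [conj_trivial]
    have := mul_le_mul_of_nonneg_right (hμ i) (sq_nonneg ⟪b i, z⟫)
    nlinarith
  obtain ⟨s, hs, hst⟩ := aP_strict hp hξ h (ε := c₀ / 2) (by linarith)
  refine ⟨s, hs, c₀ / 2, by linarith, ?_⟩
  intro ξ hξs η hηs
  have h1 := hst ξ hξs η hηs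
  set z := ξ - η with hz
  have h2 : aP p ξ - aP p η = Nop b μ z + (aP p ξ - aP p η - Nop b μ z) := by abel
  rw [h2, inner_add_left]
  have h3 := hN z
  have h4 : |⟪aP p ξ - aP p η - Nop b μ z, z⟫| ≤ c₀ / 2 * ‖z‖ * ‖z‖ :=
    (abs_real_inner_le_norm _ _).trans (mul_le_mul_of_nonneg_right h1 (norm_nonneg _))
  have h5 := neg_abs_le ⟪aP p ξ - aP p η - Nop b μ z, z⟫
  nlinarith

theorem aP_lip {p : ℝ} (hp : 1 < p) {K : Set E} (hK : IsCompact K) (h0 : (0 : E) ∉ K) :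
    ∃ C : ℝ, ∀ ξ ∈ K, ∀ η ∈ K, ‖aP p ξ - aP p η‖ ≤ C * ‖ξ - η‖ := by
  have hloc : LocallyLipschitzOn K (aP p : E → E) := by
    intro x hx
    have hx0 : x ≠ 0 := fun h => h0 (h ▸ hx)
    obtain ⟨C, t, ht, hL⟩ := (vb_strictF p hx0).exists_lipschitzOnWith
    exact ⟨C, t, mem_nhdsWithin_of_mem_nhds ht, hL⟩
  obtain ⟨C, hC⟩ := hloc.exists_lipschitzOnWith_of_compact hK
  refine ⟨C, fun ξ hξ η hη => ?_⟩
  have := hC.dist_le_mul ξ hξ η hη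
  rwa [dist_eq_norm, dist_eq_norm] at this

end PLap
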